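import Mathlib
import Pool.Agent.Q127.Sep.Defs

/-!
# Graphs whose adaptable choice number is much larger than the separation choice number

The graph `TV k` is the closure of a rooted tree with `k` levels: the root has `k - 1` children, each
of them has `k - 2` children and so on; two vertices are adjacent if one is an ancestor of the other.
-/

set_option autoImplicit false
set_option linter.unusedSectionVars false

namespace Q128.AdSep

open Finset Filter

/-- the vertices -/
def TV : ℕ → Type
  | 0 => Empty
  | k + 1 => Option (Fin k × TV k)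

/-- the vertex set is finite -/
instance TVfin : ∀ k, Fintype (TV k)
  | 0 => inferInstanceAs (Fintype Empty)
  | k + 1 =>
    haveI := TVfin k
    inferInstanceAs (Fintype (Option (Fin k × TV k)))

/-- the root -/
def root (k : ℕ) : TV (k + 1) := (none : Option (Fin k × TV k))

/-- the vertex `x` of the branch `j` -/
def br {k : ℕ} (j : Fin k) (x : TV k) : TV (k + 1) := (some (j, x) : Option (Fin k × TV k))

theorem TV_cases {k : ℕ} {P : TV (k + 1) → Prop} (h0 : P (root k))
    (h1 : ∀ j x, P (br j x)) (v : TV (k + 1)) : P v := by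
  rcases v with _ | ⟨j, x⟩
  · exact h0
  · exact h1 j x

/-- number of the proper ancestors -/
def dep : (k : ℕ) → TV k → ℕ
  | 0, _ => 0
  | _ + 1, none => 0
  | k + 1, some p => dep k p.2 + 1

/-- adjacency -/
def adj : (k : ℕ) → TV k → TV k → Prop
  | 0, _, _ => False
  | _ + 1, none, none => False
  | _ + 1, none, some _ => True
  | _ + 1, some _, none => True
  | k + 1, some p, some p' => p.1 = p'.1 ∧ adj k p.2 p'.2

theorem adj_symm : ∀ (k : ℕ) (u v : TV k), adj k u v → adj k v u
  | 0, _, _ => fun h => h
  | _ + 1, none, none => fun h => h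
  | _ + 1, none, some _ => fun _ => trivial
  | _ + 1, some _, none => fun _ => trivial
  | k + 1, some p, some p' => fun h => ⟨h.1.symm, adj_symm k _ _ h.2⟩

theorem adj_irrefl : ∀ (k : ℕ) (u : TV k), ¬ adj k u u
  | 0, _ => fun h => h
  | _ + 1, none => fun h => h
  | k + 1, some p => fun h => adj_irrefl k _ h.2

theorem dep_lt : ∀ (k : ℕ) (v : TV k), dep k v < k
  | 0, v => v.elim
  | _ + 1, none => Nat.succ_pos _
  | k + 1, some p => Nat.succ_lt_succ (dep_lt k p.2)

theorem card_TV : ∀ k, Fintype.card (TV k) ≤ k.factorial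
  | 0 => by
    have : Fintype.card (TV 0) = 0 := Fintype.card_eq_zero_iff.2 (inferInstanceAs (IsEmpty Empty))
    rw [this]
    exact Nat.zero_le _
  | k + 1 => by
    have h : Fintype.card (TV (k + 1)) = k * Fintype.card (TV k) + 1 := by
      have : Fintype.card (TV (k + 1)) = Fintype.card (Option (Fin k × TV k)) := rfl
      rw [this, Fintype.card_option, Fintype.card_prod, Fintype.card_fin]
    rw [h, Nat.factorial_succ, Nat.succ_mul]
    have h1 := card_TV k
    have h2 := Nat.mul_le_mul_left k h1
    have h3 := Nat.factorial_pos k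
    omega

theorem sum_TV {k : ℕ} (F : TV (k + 1) → ℝ) :
    ∑ v, F v = F (root k) + ∑ j : Fin k, ∑ x : TV k, F (br j x) := by
  have h : ∑ v, F v = ∑ v : Option (Fin k × TV k), F v := rfl
  rw [h, Fintype.sum_option, Fintype.sum_prod_type]
  rfl

/-! ### The lower bound of the adaptable choice number -/

theorem not_adapted : ∀ k : ℕ, ∃ (L : TV (k + 1) → Finset ℕ) (M : ℕ)
    (lab : TV (k + 1) → TV (k + 1) → ℕ), (∀ v, (L v).card = k) ∧ (∀ v, ∀ i ∈ L v, i < M) ∧
      (∀ u v, lab u v = lab v u) ∧
      ∀ c : TV (k + 1) → ℕ, (∀ v, c v ∈ L v) →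
        ∃ u v, adj (k + 1) u v ∧ c u = lab u v ∧ c v = lab u v
  | 0 => by
    refine ⟨fun _ => ∅, 0, fun _ _ => 0, fun _ => rfl, by simp, fun _ _ => rfl, ?_⟩
    intro c hc
    have := hc (root 0)
    simp at this
  | k + 1 => by
    obtain ⟨L, M, lab, h1, h2, h3, h4⟩ := not_adapted k
    refine ⟨fun v => match v with
      | none => Finset.Ico M (M + (k + 1))
      | some p => insert (M + p.1.1) (L p.2), M + (k + 1),
      fun u v => match u, v with
        | none, none => 0
        | none, some p => M + p.1.1
        | some p, none => M + p.1.1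
        | some p, some p' => lab p.2 p'.2, ?_, ?_, ?_, ?_⟩
    · intro v
      rcases v with _ | ⟨j, x⟩
      · simp
      · change (insert (M + j.1) (L x)).card = k + 1
        rw [Finset.card_insert_of_notMem, h1]
        intro h
        have := h2 x _ h
        omega
    · intro v i hi
      rcases v with _ | ⟨j, x⟩
      · exact (Finset.mem_Ico.1 hi).2
      · rcases Finset.mem_insert.1 hi with hi | hi
        · have := j.2
          simp only at hi
          omega
        · have := h2 x i hi
          omega
    · intro u v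
      rcases u with _ | ⟨j, x⟩
      · rcases v with _ | ⟨j', x'⟩
        · rfl
        · rfl
      · rcases v with _ | ⟨j', x'⟩
        · rfl
        · exact h3 x x'
    · intro c hc
      have hroot : c (root (k + 1)) ∈ Finset.Ico M (M + (k + 1)) := hc (root (k + 1))
      have hbr : ∀ j x, c (br j x) ∈ insert (M + j.1) (L x) := fun j x => hc (br j x)
      rw [Finset.mem_Ico] at hroot
      set j : Fin (k + 1) := ⟨c (root (k + 1)) - M, by omega⟩ with hj
      have hcj : c (root (k + 1)) = M + j.1 := by
        simp only [hj]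
        omega
      by_cases hx : ∃ x : TV (k + 1), c (br j x) = M + j.1
      · obtain ⟨x, hx⟩ := hx
        exact ⟨root (k + 1), br j x, trivial, hcj, hx⟩
      · push Not at hx
        obtain ⟨u, v, huv, hu, hv⟩ := h4 (fun x => c (br j x)) (fun x => by
          rcases Finset.mem_insert.1 (hbr j x) with h | h
          · exact absurd h (hx x)
          · exact h)
        exact ⟨br j u, br j v, ⟨rfl, huv⟩, hu, hv⟩

/-! ### The upper bound of the separation choice number -/

/-- the weight of a vertex with `r` uncoloured ancestors and `l` available colours -/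
noncomputable def φ (g r l : ℕ) : ℝ := (r.choose l : ℝ) / (g : ℝ) ^ l

theorem φ_nonneg (g r l : ℕ) : 0 ≤ φ g r l := by
  unfold φ
  positivity

theorem φ_mono (g r l : ℕ) : φ g r l ≤ φ g (r + 1) l := by
  unfold φ
  apply div_le_div_of_nonneg_right _ (by positivity)
  exact_mod_cast Nat.choose_le_choose l (Nat.le_succ r)

/-- one step -/
theorem step (s g K : ℕ) (hg : g + K = 2 * s + 1) (hg1 : 1 ≤ g) (j r : ℕ) (hr : r < j)
    (W A B : Finset ℕ) (hW : W.card + (j + 1) ≤ K) (hA : A.card = s) (hB : B.card = s)
    (hAB : (A ∩ B).card ≤ 1) :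
    ∑ x ∈ A \ W, φ g r (B \ insert x W).card ≤ ((A \ W).card : ℝ) * φ g (r + 1) (B \ W).card := by
  classical
  have hgr : (0 : ℝ) < g := by
    have : 0 < g := hg1
    exact_mod_cast this
  by_cases hdis : ∃ y, y ∈ A \ W ∧ y ∈ B
  · obtain ⟨y, hyA, hyB⟩ := hdis
    have hyA' := Finset.mem_sdiff.1 hyA
    have huniq : ∀ x ∈ A, x ∈ B → x = y := by
      intro x hxA hxB
      rw [Finset.card_le_one] at hAB
      exact hAB x (Finset.mem_inter.2 ⟨hxA, hxB⟩) y (Finset.mem_inter.2 ⟨hyA'.1, hyB⟩)
    set l := (B \ W).card with hl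
    have hl1 : 1 ≤ l := Finset.card_pos.2 ⟨y, Finset.mem_sdiff.2 ⟨hyB, hyA'.2⟩⟩
    have hy : (B \ insert y W).card = l - 1 := by
      have : B \ insert y W = (B \ W).erase y := by
        ext x
        simp only [Finset.mem_sdiff, Finset.mem_insert, Finset.mem_erase]
        tauto
      rw [this, Finset.card_erase_of_mem (Finset.mem_sdiff.2 ⟨hyB, hyA'.2⟩)]
    have hne : ∀ x ∈ (A \ W).erase y, φ g r (B \ insert x W).card = φ g r l := by
      intro x hx
      obtain ⟨hxy, hxA⟩ := Finset.mem_erase.1 hx
      have : B \ insert x W = B \ W := by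
        ext z
        simp only [Finset.mem_sdiff, Finset.mem_insert]
        constructor
        · tauto
        · rintro ⟨h1, h2⟩
          refine ⟨h1, ?_⟩
          rintro (rfl | h)
          · exact hxy (huniq z (Finset.mem_sdiff.1 hxA).1 h1)
          · exact h2 h
      rw [this]
    have hsum : ∑ x ∈ A \ W, φ g r (B \ insert x W).card =
        φ g r (l - 1) + (((A \ W).card - 1 : ℕ) : ℝ) * φ g r l := by
      rw [← Finset.add_sum_erase _ _ hyA, hy, Finset.sum_congr rfl hne, Finset.sum_const,
        nsmul_eq_mul, Finset.card_erase_of_mem hyA]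
    rw [hsum]
    set l₀ := (A \ W).card with hl₀
    have hl₀1 : 1 ≤ l₀ := Finset.card_pos.2 ⟨y, hyA⟩
    have hl₀r : ((l₀ - 1 : ℕ) : ℝ) = (l₀ : ℝ) - 1 := by
      rw [Nat.cast_sub hl₀1, Nat.cast_one]
    by_cases hcase : g ≤ l₀
    · have hcaser : (g : ℝ) ≤ l₀ := by exact_mod_cast hcase
      have e1 : φ g (r + 1) l = φ g r l + ((r.choose (l - 1) : ℕ) : ℝ) / (g : ℝ) ^ l := by
        obtain ⟨l', hl'⟩ : ∃ l', l = l' + 1 := ⟨l - 1, by omega⟩
        rw [hl', Nat.add_sub_cancel]
        unfold φ
        rw [Nat.choose_succ_succ]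
        push_cast
        ring
      have e2 : φ g r (l - 1) = g * (((r.choose (l - 1) : ℕ) : ℝ) / (g : ℝ) ^ l) := by
        obtain ⟨l', hl'⟩ : ∃ l', l = l' + 1 := ⟨l - 1, by omega⟩
        rw [hl', Nat.add_sub_cancel]
        unfold φ
        rw [pow_succ]
        field_simp
      have h1 : (0 : ℝ) ≤ ((r.choose (l - 1) : ℕ) : ℝ) / (g : ℝ) ^ l := by positivity
      have h2 := φ_nonneg g r l
      rw [e1, e2, hl₀r]
      nlinarith
    · -- the list of the vertex is too long
      push Not at hcase
      have h1 : (B ∩ W).card ≤ (W \ A).card := by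
        apply Finset.card_le_card
        intro x hx
        obtain ⟨hxB, hxW⟩ := Finset.mem_inter.1 hx
        refine Finset.mem_sdiff.2 ⟨hxW, fun hxA => ?_⟩
        have := huniq x hxA hxB
        subst this
        exact hyA'.2 hxW
      have h2 : (W ∩ A).card + (W \ A).card = W.card := Finset.card_inter_add_card_sdiff W A
      have h3 : (A ∩ W).card + (A \ W).card = A.card := Finset.card_inter_add_card_sdiff A W
      have h4 : (B ∩ W).card + (B \ W).card = B.card := Finset.card_inter_add_card_sdiff B W
      have h5 : (W ∩ A).card = (A ∩ W).card := by rw [Finset.inter_comm]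
      have hlj : j + 1 ≤ l := by omega
      have z1 : φ g r (l - 1) = 0 := by
        unfold φ
        rw [Nat.choose_eq_zero_of_lt (by omega)]
        simp
      have z2 : φ g r l = 0 := by
        unfold φ
        rw [Nat.choose_eq_zero_of_lt (by omega)]
        simp
      rw [z1, z2, mul_zero, add_zero]
      exact mul_nonneg (by positivity) (φ_nonneg _ _ _)
  · push Not at hdis
    have hne : ∀ x ∈ A \ W, φ g r (B \ insert x W).card ≤ φ g (r + 1) (B \ W).card := by
      intro x hx
      have : B \ insert x W = B \ W := by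
        ext z
        simp only [Finset.mem_sdiff, Finset.mem_insert]
        constructor
        · tauto
        · rintro ⟨h1, h2⟩
          refine ⟨h1, ?_⟩
          rintro (rfl | h)
          · exact hdis z hx h1
          · exact h2 h
      rw [this]
      exact φ_mono g r _
    calc ∑ x ∈ A \ W, φ g r (B \ insert x W).card ≤ ∑ x ∈ A \ W, φ g (r + 1) (B \ W).card :=
          Finset.sum_le_sum hne
      _ = _ := by rw [Finset.sum_const, nsmul_eq_mul]

theorem sepcol (s g K : ℕ) (hg : g + K = 2 * s + 1) (hg1 : 1 ≤ g) :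
    ∀ (j : ℕ) (W : Finset ℕ) (L : TV j → Finset ℕ), W.card + j ≤ K → (∀ v, (L v).card = s) →
      (∀ u v, adj j u v → (L u ∩ L v).card ≤ 1) →
      ∑ v, φ g (dep j v) (L v \ W).card < 1 →
      ∃ c : TV j → ℕ, (∀ v, c v ∈ L v \ W) ∧ ∀ u v, adj j u v → c u ≠ c v
  | 0, W, L => by
    intro _ _ _ _
    exact ⟨fun v => v.elim, fun v => v.elim, fun v => v.elim⟩
  | j + 1, W, L => by
    intro hW hL hsep hsum
    rw [sum_TV] at hsum
    have hd0 : dep (j + 1) (root j) = 0 := rfl
    have hd1 : ∀ (i : Fin j) (x : TV j), dep (j + 1) (br i x) = dep j x + 1 := fun i x => rfl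
    rw [hd0] at hsum
    simp only [hd1] at hsum
    have hrest : 0 ≤ ∑ i : Fin j, ∑ x : TV j, φ g (dep j x + 1) (L (br i x) \ W).card :=
      Finset.sum_nonneg (fun i _ => Finset.sum_nonneg (fun x _ => φ_nonneg _ _ _))
    have hne : (L (root j) \ W).Nonempty := by
      rw [Finset.nonempty_iff_ne_empty]
      intro h
      rw [h] at hsum
      have : φ g 0 (∅ : Finset ℕ).card = 1 := by
        unfold φ
        simp
      rw [this] at hsum
      linarith
    have hlt : ∑ i : Fin j, ∑ x : TV j, φ g (dep j x + 1) (L (br i x) \ W).card < 1 := by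
      have := φ_nonneg g 0 (L (root j) \ W).card
      linarith
    -- choice of the colour of the root
    obtain ⟨y, hy, hyle⟩ : ∃ y ∈ L (root j) \ W,
        ∑ i : Fin j, ∑ x : TV j, φ g (dep j x) (L (br i x) \ insert y W).card ≤
          ∑ i : Fin j, ∑ x : TV j, φ g (dep j x + 1) (L (br i x) \ W).card := by
      apply Finset.exists_le_of_sum_le hne
      rw [Finset.sum_const, nsmul_eq_mul, Finset.sum_comm, Finset.mul_sum]
      apply Finset.sum_le_sum
      intro i _
      rw [Finset.sum_comm, Finset.mul_sum]
      apply Finset.sum_le_sum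
      intro x _
      exact step s g K hg hg1 j (dep j x) (dep_lt j x) W (L (root j)) (L (br i x)) hW (hL _) (hL _)
        (hsep _ _ trivial)
    have hy' := Finset.mem_sdiff.1 hy
    have hind : ∀ i : Fin j, ∃ c : TV j → ℕ, (∀ v, c v ∈ L (br i v) \ insert y W) ∧
        ∀ u v, adj j u v → c u ≠ c v := by
      intro i
      apply sepcol s g K hg hg1 j (insert y W) (fun x => L (br i x))
      · rw [Finset.card_insert_of_notMem hy'.2]
        omega
      · exact fun v => hL _
      · intro u v huv
        exact hsep _ _ ⟨rfl, huv⟩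
      · refine lt_of_le_of_lt ?_ (lt_of_le_of_lt hyle hlt)
        exact Finset.single_le_sum (f := fun i : Fin j =>
          ∑ x : TV j, φ g (dep j x) (L (br i x) \ insert y W).card)
          (fun i _ => Finset.sum_nonneg (fun x _ => φ_nonneg _ _ _)) (Finset.mem_univ i)
    choose c hc1 hc2 using hind
    refine ⟨fun v => match v with
      | none => y
      | some p => c p.1 p.2, ?_, ?_⟩
    · intro v
      rcases v with _ | ⟨i, x⟩
      · exact hy
      · have := hc1 i x
        have h' := Finset.mem_sdiff.1 this
        exact Finset.mem_sdiff.2 ⟨h'.1, fun h => h'.2 (Finset.mem_insert_of_mem h)⟩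
    · intro u v huv
      rcases u with _ | ⟨i, x⟩
      · rcases v with _ | ⟨i', x'⟩
        · exact huv.elim
        · intro h
          have h' := (Finset.mem_sdiff.1 (hc1 i' x')).2
          apply h'
          have h'' : c i' x' = y := h.symm
          rw [h'']
          exact Finset.mem_insert_self _ _
      · rcases v with _ | ⟨i', x'⟩
        · intro h
          have h' := (Finset.mem_sdiff.1 (hc1 i x)).2
          apply h'
          have h'' : c i x = y := h
          rw [h'']
          exact Finset.mem_insert_self _ _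
        · obtain ⟨h1, h2⟩ := huv
          simp only at h1 h2
          subst h1
          exact hc2 i x x' h2

end Q128.AdSep
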