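import Mathlib
import Pool.Agent.Q128.AdSep

/-!
# The gap between the adaptable and the separation choice number of graphs
-/

set_option autoImplicit false
set_option linter.unusedSectionVars false

namespace Q128.AdSep

open Finset Filter Q127.Sep

theorem exists_param (t : ℕ) (ht : 1 ≤ t) : ∃ g : ℕ, 1 ≤ g ∧
    (g + 2 * t - 1).factorial * (g + 2 * t - 1) ^ t < g ^ (g + t - 1) := by
  have h1 : Tendsto (fun m : ℕ => (m : ℝ) ^ (3 * t) / 2 ^ m) atTop (nhds 0) :=
    tendsto_pow_const_div_const_pow_of_one_lt (3 * t) (by norm_num)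
  have h2 := h1.const_mul ((4 : ℝ) ^ (3 * t))
  rw [mul_zero] at h2
  obtain ⟨m, hm1, hm2⟩ := ((h2.eventually (gt_mem_nhds (show (0 : ℝ) < 1 by norm_num))).and
    (eventually_ge_atTop t)).exists
  have hlt : (4 * m) ^ (3 * t) < 2 ^ m := by
    have h3 : (4 : ℝ) ^ (3 * t) * ((m : ℝ) ^ (3 * t) / 2 ^ m) = (4 * m) ^ (3 * t) / 2 ^ m := by
      rw [mul_pow]
      ring
    rw [h3, div_lt_one (by positivity)] at hm1
    exact_mod_cast hm1
  refine ⟨2 * m, by omega, ?_⟩
  set g := 2 * m with hg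
  set K := g + 2 * t - 1 with hK
  have hK1 : K = g + (2 * t - 1) := by omega
  have hfac : K.factorial ≤ g.factorial * K ^ (2 * t - 1) := by
    rw [hK1, ← Nat.factorial_mul_ascFactorial]
    exact Nat.mul_le_mul_left _ (Nat.ascFactorial_le_pow_add g (2 * t - 1))
  have hgf : g.factorial * 2 ^ m ≤ g ^ g := by
    have h4 := Nat.factorial_two_mul_le m
    have h5 := Nat.factorial_le_pow m
    calc g.factorial * 2 ^ m ≤ (2 * m) ^ m * m.factorial * 2 ^ m := Nat.mul_le_mul_right _ h4
      _ ≤ (2 * m) ^ m * m ^ m * 2 ^ m := Nat.mul_le_mul_right _ (Nat.mul_le_mul_left _ h5)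
      _ = g ^ g := by
        rw [hg, two_mul m, pow_add, ← two_mul m, mul_assoc, ← mul_pow, mul_comm m 2]
  have hKle : K ≤ 4 * m := by omega
  have hgpos : 0 < g := by omega
  have key : 2 ^ m * (K.factorial * K ^ t) < 2 ^ m * g ^ (g + t - 1) := by
    calc 2 ^ m * (K.factorial * K ^ t)
        ≤ 2 ^ m * (g.factorial * K ^ (2 * t - 1) * K ^ t) :=
          Nat.mul_le_mul_left _ (Nat.mul_le_mul_right _ hfac)
      _ = (g.factorial * 2 ^ m) * (K ^ (2 * t - 1) * K ^ t) := by ring
      _ ≤ g ^ g * (K ^ (2 * t - 1) * K ^ t) := Nat.mul_le_mul_right _ hgf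
      _ = g ^ g * K ^ (2 * t - 1 + t) := by rw [pow_add]
      _ ≤ g ^ g * (4 * m) ^ (2 * t - 1 + t) :=
          Nat.mul_le_mul_left _ (Nat.pow_le_pow_left hKle _)
      _ ≤ g ^ g * (4 * m) ^ (3 * t) :=
          Nat.mul_le_mul_left _ (Nat.pow_le_pow_right (by omega) (by omega))
      _ < g ^ g * 2 ^ m := Nat.mul_lt_mul_of_pos_left hlt (pow_pos hgpos _)
      _ ≤ g ^ (g + t - 1) * 2 ^ m :=
          Nat.mul_le_mul_right _ (Nat.pow_le_pow_right hgpos (by omega))
      _ = _ := by ring
  exact Nat.lt_of_mul_lt_mul_left key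

/-- the potential at the start is small -/
theorem start_small (t g : ℕ) (ht : 1 ≤ t) (hg1 : 1 ≤ g)
    (hg : (g + 2 * t - 1).factorial * (g + 2 * t - 1) ^ t < g ^ (g + t - 1)) :
    ∑ v : TV (g + 2 * t - 1), φ g (dep _ v) (g + t - 1) < 1 := by
  set K := g + 2 * t - 1 with hK
  set s := g + t - 1 with hs
  have hgr : (0 : ℝ) < g := by
    have : 0 < g := hg1
    exact_mod_cast this
  have h1 : ∀ v : TV K, φ g (dep _ v) s ≤ (K : ℝ) ^ t / (g : ℝ) ^ s := by
    intro v
    unfold φ
    apply div_le_div_of_nonneg_right _ (by positivity)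
    have h2 : (dep K v).choose s ≤ K ^ t := by
      have h3 : (dep K v).choose s ≤ (K - 1).choose s :=
        Nat.choose_le_choose s (by have := dep_lt K v; omega)
      have h4 : (K - 1).choose s = (K - 1).choose (t - 1) := by
        rw [← Nat.choose_symm (by omega : t - 1 ≤ K - 1)]
        congr 1
        omega
      have h5 : (K - 1).choose (t - 1) ≤ (K - 1) ^ (t - 1) := Nat.choose_le_pow _ _
      calc (dep K v).choose s ≤ (K - 1) ^ (t - 1) := (h3.trans_eq h4).trans h5
        _ ≤ K ^ (t - 1) := Nat.pow_le_pow_left (by omega) _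
        _ ≤ K ^ t := Nat.pow_le_pow_right (by omega) (by omega)
    exact_mod_cast h2
  calc ∑ v : TV K, φ g (dep _ v) s ≤ ∑ v : TV K, (K : ℝ) ^ t / (g : ℝ) ^ s :=
        Finset.sum_le_sum (fun v _ => h1 v)
    _ = (Fintype.card (TV K) : ℝ) * ((K : ℝ) ^ t / (g : ℝ) ^ s) := by
        rw [Finset.sum_const, Finset.card_univ, nsmul_eq_mul]
    _ ≤ (K.factorial : ℝ) * ((K : ℝ) ^ t / (g : ℝ) ^ s) := by
        apply mul_le_mul_of_nonneg_right _ (by positivity)
        exact_mod_cast card_TV K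
    _ < 1 := by
        rw [mul_div_assoc', div_lt_one (by positivity)]
        exact_mod_cast hg

open Classical in
/-- the edges of the graph, as a set of pairs -/
noncomputable def edges (k : ℕ) : Finset (Finset (TV k)) :=
  Finset.univ.filter (fun e => ∃ u v, adj k u v ∧ e = {u, v})

theorem uniform_edges (k : ℕ) : Uniform 2 (edges k) := by
  classical
  intro e he
  obtain ⟨u, v, h, rfl⟩ := (Finset.mem_filter.1 he).2
  rw [Finset.card_pair]
  rintro rfl
  exact adj_irrefl k u h

theorem chSep_le (s g K : ℕ) (hg : g + K = 2 * s + 1) (hg1 : 1 ≤ g)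
    (hsum : ∑ v : TV K, φ g (dep _ v) s < 1) : chSep (edges K) ≤ s := by
  classical
  apply Nat.sInf_le
  intro L hL hsep
  have h1 : ∀ v, ∃ M : Finset ℕ, M ⊆ L v ∧ M.card = s := fun v =>
    Finset.exists_subset_card_eq (hL v)
  choose M hM1 hM2 using h1
  obtain ⟨c, hc1, hc2⟩ := sepcol s g K hg hg1 K ∅ M (by simp) hM2 (by
    intro u v huv
    have hne : u ≠ v := by
      rintro rfl
      exact adj_irrefl K u huv
    have h2 := hsep {u, v} (Finset.mem_filter.2 ⟨Finset.mem_univ _, u, v, huv, rfl⟩) u (by simp)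
      v (by simp) hne
    exact (Finset.card_le_card (Finset.inter_subset_inter (hM1 u) (hM1 v))).trans h2)
    (by
      simp only [Finset.sdiff_empty, hM2]
      exact hsum)
  refine ⟨c, fun v => hM1 v (Finset.mem_sdiff.1 (hc1 v)).1, ?_⟩
  intro e he
  obtain ⟨u, v, h, rfl⟩ := (Finset.mem_filter.1 he).2
  rintro ⟨i, hi⟩
  exact hc2 u v h ((hi u (by simp)).trans (hi v (by simp)).symm)

theorem lt_chAd (k : ℕ) : k < chAd (edges (k + 1)) := by
  classical
  obtain ⟨L, M, lab, h1, h2, h3, h4⟩ := not_adapted k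
  -- the labels as a function of the edges
  have hf : ∃ f : Finset (TV (k + 1)) → ℕ, ∀ u v, adj (k + 1) u v → f {u, v} = lab u v := by
    have hex : ∀ e : Finset (TV (k + 1)), ∃ n : ℕ, ∀ u v, adj (k + 1) u v → e = {u, v} →
        n = lab u v := by
      intro e
      by_cases h : ∃ u v, adj (k + 1) u v ∧ e = {u, v}
      · obtain ⟨u', v', hadj, rfl⟩ := h
        refine ⟨lab u' v', ?_⟩
        intro u v huv heq
        have hu : u ∈ ({u', v'} : Finset (TV (k + 1))) := by rw [heq]; simp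
        have hv : v ∈ ({u', v'} : Finset (TV (k + 1))) := by rw [heq]; simp
        rw [Finset.mem_insert, Finset.mem_singleton] at hu hv
        have huv' : u ≠ v := by
          intro h'
          rw [h'] at huv
          exact adj_irrefl _ _ huv
        rcases hu with hu | hu <;> rcases hv with hv | hv
        · exact absurd (hu.trans hv.symm) huv'
        · rw [hu, hv]
        · rw [hu, hv, h3]
        · exact absurd (hu.trans hv.symm) huv'
      · exact ⟨0, fun u v huv heq => absurd ⟨u, v, huv, heq⟩ h⟩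
    choose f hf using hex
    exact ⟨f, fun u v huv => hf {u, v} u v huv rfl⟩
  obtain ⟨f, hf⟩ := hf
  have hne : {m | ∀ L : TV (k + 1) → Finset ℕ, (∀ v, m ≤ (L v).card) →
      ∀ f : Finset (TV (k + 1)) → ℕ, ∃ φ : TV (k + 1) → ℕ, (∀ v, φ v ∈ L v) ∧
        Adapted (edges (k + 1)) f φ}.Nonempty := by
    refine ⟨Fintype.card (TV (k + 1)), ?_⟩
    intro L hL f
    have hall : ∀ s : Finset (TV (k + 1)), s.card ≤ (s.biUnion L).card := by
      intro s
      rcases s.eq_empty_or_nonempty with rfl | ⟨v, hv⟩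
      · simp
      · calc s.card ≤ Fintype.card (TV (k + 1)) := Finset.card_le_univ s
          _ ≤ (L v).card := hL v
          _ ≤ _ := Finset.card_le_card (Finset.subset_biUnion_of_mem L hv)
    obtain ⟨c, hc1, hc2⟩ := (Finset.all_card_le_biUnion_card_iff_exists_injective L).1 hall
    refine ⟨c, hc2, ?_⟩
    intro e he
    obtain ⟨u, v, h, rfl⟩ := (Finset.mem_filter.1 he).2
    intro hc
    have huv : u = v := hc1 ((hc u (by simp)).trans (hc v (by simp)).symm)
    rw [huv] at h
    exact adj_irrefl _ _ h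
  have hmem := Nat.sInf_mem hne
  by_contra hcon
  push Not at hcon
  obtain ⟨c, hc1, hc2⟩ := hmem L (fun v => by rw [h1 v]; exact hcon) f
  obtain ⟨u, v, huv, hu, hv⟩ := h4 c hc1
  apply hc2 {u, v} (Finset.mem_filter.2 ⟨Finset.mem_univ _, u, v, huv, rfl⟩)
  intro w hw
  rw [Finset.mem_insert, Finset.mem_singleton] at hw
  rw [hf u v huv]
  rcases hw with rfl | rfl
  · exact hu
  · exact hv

/-- **The gap for graphs.** -/
theorem gap_two (t : ℕ) : ∃ K : ℕ, Uniform 2 (edges K) ∧ chSep (edges K) + t ≤ chAd (edges K) := by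
  rcases Nat.eq_zero_or_pos t with rfl | ht
  · refine ⟨1, uniform_edges 1, ?_⟩
    have h1 : chSep (edges 1) ≤ 1 := by
      apply chSep_le 1 2 1 (by norm_num) (by norm_num)
      rw [sum_TV]
      have h0 : dep 1 (root 0) = 0 := rfl
      rw [h0]
      simp [φ]
    have h2 : 0 < chAd (edges 1) := lt_chAd 0
    omega
  · obtain ⟨g, hg1, hg⟩ := exists_param t ht
    refine ⟨g + 2 * t - 1, uniform_edges _, ?_⟩
    have h1 := chSep_le (g + t - 1) g (g + 2 * t - 1) (by omega) hg1 (start_small t g ht hg1 hg)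
    have h2 := lt_chAd (g + 2 * t - 2)
    have e : g + 2 * t - 2 + 1 = g + 2 * t - 1 := by omega
    rw [e] at h2
    omega

end Q128.AdSep
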