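import Mathlib

/-!
# Definitions for MP_8cfbc5_co (bad triangles in Hilbert space)
-/

set_option autoImplicit false

namespace Q128.BadTri

/-- The real Hilbert space `ℓ²` of square summable real sequences. -/
abbrev H : Type := lp (fun _ : ℕ => ℝ) 2

/-- `x, y, z` form a bad triangle for `δ`: two of the three distances are at most `1` and the
remaining one is at least `1 + δ`. -/
def Bad (δ : ℝ) (x y z : H) : Prop :=
  (dist x y ≤ 1 ∧ dist y z ≤ 1 ∧ 1 + δ ≤ dist x z) ∨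
  (dist x y ≤ 1 ∧ dist x z ≤ 1 ∧ 1 + δ ≤ dist y z) ∨
  (dist y z ≤ 1 ∧ dist x z ≤ 1 ∧ 1 + δ ≤ dist x y)

/-- Property `P(δ)`: there is `lam > 0` such that for all `n ≥ 1` and all `x₁, …, xₙ ∈ ℓ²`
(repetitions allowed) there is an index set `I` with `|I| ≥ lam · n` such that no three distinct
indices of `I` give a bad triangle. -/
def P (δ : ℝ) : Prop :=
  ∃ lam : ℝ, 0 < lam ∧ ∀ n : ℕ, 1 ≤ n → ∀ x : Fin n → H,
    ∃ I : Finset (Fin n), lam * n ≤ I.card ∧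
      ∀ i ∈ I, ∀ j ∈ I, ∀ k ∈ I, i ≠ j → j ≠ k → i ≠ k → ¬ Bad δ (x i) (x j) (x k)

/-- `δ* = sup {δ > 0 : P(δ) fails}`. -/
noncomputable def deltaStar : ℝ := sSup {δ : ℝ | 0 < δ ∧ ¬ P δ}

end Q128.BadTri
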