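import Mathlib

/-!
# Blow-up of dense sets in finite product spaces

Elementary variance bound for functions which are 1-Lipschitz for the Hamming distance, and the
resulting blow-up statement: a set of density `lam` in `Ω ^ m` has a Hamming neighbourhood of radius
`O(√m)` whose complement has density at most `1/4`.
-/

set_option autoImplicit false
set_option linter.unusedSectionVars false

open Finset

namespace Q128.BlowUp

variable {Ω : Type*} [Fintype Ω] [DecidableEq Ω] [Nonempty Ω]

lemma hammingDist_eq_sum {m : ℕ} (x y : Fin m → Ω) :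
    hammingDist x y = ∑ i, (if x i ≠ y i then 1 else 0) := by
  rw [hammingDist, Finset.card_filter]

lemma hammingDist_cons {m : ℕ} (w w' : Ω) (x y : Fin m → Ω) :
    hammingDist (Fin.cons w x : Fin (m + 1) → Ω) (Fin.cons w' y) =
      (if w ≠ w' then 1 else 0) + hammingDist x y := by
  rw [hammingDist_eq_sum, hammingDist_eq_sum, Fin.sum_univ_succ]
  simp

lemma sum_cons {m : ℕ} (F : (Fin (m + 1) → Ω) → ℝ) :
    ∑ x, F x = ∑ w : Ω, ∑ x : Fin m → Ω, F (Fin.cons w x) := by
  rw [← (Fin.consEquiv (fun _ : Fin (m + 1) => Ω)).sum_comp, Fintype.sum_prod_type]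
  rfl

/-- The mean of a function on a finite type. -/
noncomputable def mean {α : Type*} [Fintype α] (g : α → ℝ) : ℝ :=
  (∑ x, g x) / Fintype.card α

lemma mean_mul {α : Type*} [Fintype α] [Nonempty α] (g : α → ℝ) :
    ∑ x, g x = Fintype.card α * mean g := by
  have : (Fintype.card α : ℝ) ≠ 0 := by exact_mod_cast Fintype.card_ne_zero
  rw [mean]; field_simp

lemma sum_sq_shift {α : Type*} [Fintype α] [Nonempty α] (g : α → ℝ) (c : ℝ) :
    ∑ x, (g x - c) ^ 2 = ∑ x, (g x - mean g) ^ 2 + Fintype.card α * (mean g - c) ^ 2 := by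
  have h : ∀ x, (g x - c) ^ 2 = (g x - mean g) ^ 2 + 2 * (mean g - c) * (g x - mean g) +
      (mean g - c) ^ 2 := fun x => by ring
  rw [Finset.sum_congr rfl fun x _ => h x, Finset.sum_add_distrib, Finset.sum_add_distrib,
    ← Finset.mul_sum, Finset.sum_sub_distrib, mean_mul g]
  simp [Finset.card_univ]

lemma abs_mean_sub_le {α : Type*} [Fintype α] [Nonempty α] (g h : α → ℝ)
    (H : ∀ x, |g x - h x| ≤ 1) : |mean g - mean h| ≤ 1 := by
  have hc : (0 : ℝ) < Fintype.card α := by exact_mod_cast Fintype.card_pos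
  rw [mean, mean, ← sub_div, abs_div, abs_of_pos hc, div_le_one hc, ← Finset.sum_sub_distrib]
  refine (Finset.abs_sum_le_sum_abs _ _).trans ?_
  refine (Finset.sum_le_sum fun x _ => H x).trans ?_
  simp [Finset.card_univ]

lemma abs_mean_sub_const_le {α : Type*} [Fintype α] [Nonempty α] (g : α → ℝ) (c : ℝ)
    (H : ∀ x, |g x - c| ≤ 1) : |mean g - c| ≤ 1 := by
  have h := abs_mean_sub_le g (fun _ => c) H
  have : mean (fun _ : α => c) = c := by
    have hc : (Fintype.card α : ℝ) ≠ 0 := by exact_mod_cast Fintype.card_ne_zero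
    rw [mean]; simp [Finset.card_univ]
  rwa [this] at h

/-- Variance bound for 1-Lipschitz functions. -/
theorem var_bound (m : ℕ) : ∀ (g : (Fin m → Ω) → ℝ),
    (∀ x y, |g x - g y| ≤ hammingDist x y) →
    ∑ x, (g x - mean g) ^ 2 ≤ m * (Fintype.card (Fin m → Ω) : ℝ) := by
  induction m with
  | zero =>
    intro g hg
    have hm : ∀ x, g x = mean g := by
      intro x
      rw [mean]
      simp [Subsingleton.elim x default]
    have : ∑ x, (g x - mean g) ^ 2 = 0 := by
      apply Finset.sum_eq_zero
      intro x _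
      rw [hm x]; ring
    rw [this]; simp
  | succ m ih =>
    intro g hg
    set gw : Ω → (Fin m → Ω) → ℝ := fun w x => g (Fin.cons w x) with hgw
    have h1 : ∀ w, ∑ x, (gw w x - mean (gw w)) ^ 2 ≤ m * (Fintype.card (Fin m → Ω) : ℝ) := by
      intro w
      apply ih
      intro x y
      have := hg (Fin.cons w x) (Fin.cons w y)
      rw [hammingDist_cons] at this
      simpa using this
    have h2 : ∀ w w', |mean (gw w) - mean (gw w')| ≤ 1 := by
      intro w w'
      apply abs_mean_sub_le
      intro x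
      have := hg (Fin.cons w x) (Fin.cons w' x)
      rw [hammingDist_cons, hammingDist_self] at this
      refine this.trans ?_
      split_ifs <;> simp
    have h3 : mean g = mean (fun w => mean (gw w)) := by
      rw [mean, sum_cons, mean]
      have : ∀ w, ∑ x, g (Fin.cons w x) = Fintype.card (Fin m → Ω) * mean (gw w) :=
        fun w => mean_mul (gw w)
      rw [Finset.sum_congr rfl fun w _ => this w, ← Finset.mul_sum]
      have hc : (Fintype.card Ω : ℝ) ≠ 0 := by exact_mod_cast Fintype.card_ne_zero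
      simp only [Fintype.card_pi, Finset.prod_const, Finset.card_univ, Fintype.card_fin]
      push_cast
      field_simp
      ring
    have h4 : ∀ w, |mean (gw w) - mean g| ≤ 1 := by
      intro w
      rw [h3, abs_sub_comm]
      apply abs_mean_sub_const_le
      intro w'
      exact h2 w' w
    have h5 : ∀ w, ∑ x, (gw w x - mean g) ^ 2 ≤ (m + 1) * (Fintype.card (Fin m → Ω) : ℝ) := by
      intro w
      rw [sum_sq_shift]
      have h6 := h1 w
      have h7 : (mean (gw w) - mean g) ^ 2 ≤ 1 := by
        rw [← sq_abs]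
        have := h4 w
        have h0 := abs_nonneg (mean (gw w) - mean g)
        nlinarith
      have h8 : (0 : ℝ) ≤ Fintype.card (Fin m → Ω) := by positivity
      nlinarith
    rw [sum_cons]
    refine (Finset.sum_le_sum fun w _ => h5 w).trans ?_
    simp only [Finset.sum_const, Finset.card_univ, Fintype.card_pi, Finset.prod_const,
      Fintype.card_fin, nsmul_eq_mul]
    push_cast
    apply le_of_eq
    ring

/-- Chebyshev. -/
lemma card_far {α : Type*} [Fintype α] (g : α → ℝ) (c t V : ℝ) (ht : 0 < t)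
    (hV : ∑ x, (g x - c) ^ 2 ≤ V) :
    ((Finset.univ.filter fun x => c + t ≤ g x).card : ℝ) * t ^ 2 ≤ V := by
  classical
  refine le_trans ?_ hV
  have h1 : ∑ x ∈ Finset.univ.filter (fun x => c + t ≤ g x), (t ^ 2 : ℝ) ≤
      ∑ x ∈ Finset.univ.filter (fun x => c + t ≤ g x), (g x - c) ^ 2 := by
    apply Finset.sum_le_sum
    intro x hx
    rw [Finset.mem_filter] at hx
    have : t ≤ g x - c := by linarith [hx.2]
    exact pow_le_pow_left₀ ht.le this 2
  rw [Finset.sum_const, nsmul_eq_mul] at h1
  refine h1.trans ?_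
  apply Finset.sum_le_sum_of_subset_of_nonneg (Finset.filter_subset _ _)
  intro x _ _
  positivity

/-- Distance to a nonempty finite set. -/
noncomputable def dst {m : ℕ} (A : Finset (Fin m → Ω)) (hA : A.Nonempty) (x : Fin m → Ω) : ℕ :=
  A.inf' hA (fun a => hammingDist x a)

lemma dst_le {m : ℕ} (A : Finset (Fin m → Ω)) (hA : A.Nonempty) (x : Fin m → Ω) {a}
    (ha : a ∈ A) : dst A hA x ≤ hammingDist x a := Finset.inf'_le _ ha

lemma exists_dst {m : ℕ} (A : Finset (Fin m → Ω)) (hA : A.Nonempty) (x : Fin m → Ω) :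
    ∃ a ∈ A, dst A hA x = hammingDist x a := Finset.exists_mem_eq_inf' hA _

lemma dst_lip {m : ℕ} (A : Finset (Fin m → Ω)) (hA : A.Nonempty) (x y : Fin m → Ω) :
    |(dst A hA x : ℝ) - dst A hA y| ≤ hammingDist x y := by
  rw [abs_le]
  obtain ⟨a, ha, hxa⟩ := exists_dst A hA x
  obtain ⟨b, hb, hyb⟩ := exists_dst A hA y
  have h1 : dst A hA y ≤ hammingDist x y + dst A hA x := by
    rw [hxa]
    refine (dst_le A hA y ha).trans ?_
    rw [hammingDist_comm x y]
    exact hammingDist_triangle y x a
  have h2 : dst A hA x ≤ hammingDist x y + dst A hA y := by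
    rw [hyb]
    exact (dst_le A hA x hb).trans (hammingDist_triangle x y b)
  have h1' : (dst A hA y : ℝ) ≤ hammingDist x y + dst A hA x := by exact_mod_cast h1
  have h2' : (dst A hA x : ℝ) ≤ hammingDist x y + dst A hA y := by exact_mod_cast h2
  constructor <;> linarith

/-- Blow-up: if `A` has density at least `lam`, all but at most a quarter of the points are
within Hamming distance less than `(1/√lam + 2)√m` of `A`. -/
theorem blowUp {m : ℕ} (hm : 0 < m) (A : Finset (Fin m → Ω)) (hA : A.Nonempty) {lam : ℝ}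
    (hlam : 0 < lam) (hd : lam * Fintype.card (Fin m → Ω) ≤ A.card) :
    4 * ((Finset.univ.filter fun x : Fin m → Ω =>
      (1 / √lam + 2) * √m ≤ dst A hA x).card : ℝ) ≤ Fintype.card (Fin m → Ω) := by
  set g : (Fin m → Ω) → ℝ := fun x => dst A hA x with hg
  set N : ℝ := ((Fintype.card (Fin m → Ω) : ℕ) : ℝ) with hN
  have hN0 : 0 < N := by rw [hN]; exact_mod_cast Fintype.card_pos
  have hv := var_bound m g (fun x y => dst_lip A hA x y)
  have hm0 : (0 : ℝ) < m := by exact_mod_cast hm
  -- the mean is small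
  have h1 : lam * N * mean g ^ 2 ≤ m * N := by
    have h2 : (A.card : ℝ) * mean g ^ 2 ≤ ∑ x, (g x - mean g) ^ 2 := by
      have h3 : ∑ x ∈ A, (g x - mean g) ^ 2 = A.card * mean g ^ 2 := by
        rw [Finset.sum_congr rfl (g := fun _ => mean g ^ 2), Finset.sum_const, nsmul_eq_mul]
        intro x hx
        have h4 : dst A hA x = 0 := by
          have := dst_le A hA x hx
          rw [hammingDist_self] at this
          omega
        simp only [hg, h4]
        push_cast
        ring
      rw [← h3]
      apply Finset.sum_le_sum_of_subset_of_nonneg (Finset.subset_univ _)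
      intro x _ _
      positivity
    have h5 : lam * N * mean g ^ 2 ≤ A.card * mean g ^ 2 := by gcongr
    exact h5.trans (h2.trans hv)
  have h2 : mean g ≤ 1 / √lam * √m := by
    have h3 : mean g ^ 2 ≤ m / lam := by
      rw [le_div_iff₀ hlam]
      have : N * (mean g ^ 2 * lam) ≤ N * m := by nlinarith
      exact le_of_mul_le_mul_left this hN0
    have h4 : mean g ≤ √(m / lam) := Real.le_sqrt_of_sq_le h3
    rw [Real.sqrt_div' _ hlam.le] at h4
    calc mean g ≤ √m / √lam := h4
      _ = 1 / √lam * √m := by ring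
  have h3 := card_far g (mean g) (2 * √m) (m * N) (by positivity) hv
  have h4 : (2 * √(m : ℝ)) ^ 2 = 4 * m := by
    rw [mul_pow, Real.sq_sqrt hm0.le]; norm_num
  rw [h4] at h3
  have h5 : ((Finset.univ.filter fun x : Fin m → Ω => mean g + 2 * √m ≤ g x).card : ℝ) * 4 ≤ N := by
    have : m * (((Finset.univ.filter fun x : Fin m → Ω => mean g + 2 * √m ≤ g x).card : ℝ) * 4)
        ≤ m * N := by linarith
    exact le_of_mul_le_mul_left this hm0
  have h6 : ((Finset.univ.filter fun x : Fin m → Ω =>
      (1 / √lam + 2) * √m ≤ dst A hA x).card : ℝ) ≤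
      (Finset.univ.filter fun x : Fin m → Ω => mean g + 2 * √m ≤ g x).card := by
    have : (Finset.univ.filter fun x : Fin m → Ω =>
      (1 / √lam + 2) * √m ≤ dst A hA x) ⊆
      (Finset.univ.filter fun x : Fin m → Ω => mean g + 2 * √m ≤ g x) := by
      intro x hx
      rw [Finset.mem_filter] at hx ⊢
      refine ⟨Finset.mem_univ _, ?_⟩
      have := hx.2
      simp only [hg]
      nlinarith
    exact_mod_cast Finset.card_le_card this
  linarith

/-- If `A` is dense then for any two bijections `s, t` some `x` has `x`, `s x`, `t x` near `A`. -/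
theorem exists_three {m : ℕ} (hm : 0 < m) (A : Finset (Fin m → Ω)) {lam : ℝ}
    (hlam : 0 < lam) (hd : lam * Fintype.card (Fin m → Ω) ≤ A.card)
    (s t : Equiv.Perm (Fin m → Ω)) :
    ∃ x : Fin m → Ω, ∃ a ∈ A, ∃ b ∈ A, ∃ c ∈ A,
      (hammingDist x a : ℝ) < (1 / √lam + 2) * √m ∧
      (hammingDist (s x) b : ℝ) < (1 / √lam + 2) * √m ∧
      (hammingDist (t x) c : ℝ) < (1 / √lam + 2) * √m := by
  have hN0 : (0 : ℝ) < Fintype.card (Fin m → Ω) := by exact_mod_cast Fintype.card_pos
  have hA : A.Nonempty := by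
    rw [← Finset.card_pos]
    have : (0 : ℝ) < A.card := lt_of_lt_of_le (by positivity) hd
    exact_mod_cast this
  have hb := blowUp hm A hA hlam hd
  set R := (1 / √lam + 2) * √(m : ℝ) with hR
  set B := Finset.univ.filter (fun x : Fin m → Ω => R ≤ dst A hA x) with hB
  have hcard : (B ∪ (B.map s.symm.toEmbedding ∪ B.map t.symm.toEmbedding)).card <
      (Finset.univ : Finset (Fin m → Ω)).card := by
    have h1 := Finset.card_union_le B (B.map s.symm.toEmbedding ∪ B.map t.symm.toEmbedding)
    have h2 := Finset.card_union_le (B.map s.symm.toEmbedding) (B.map t.symm.toEmbedding)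
    rw [Finset.card_map, Finset.card_map] at h2
    have h3 : 4 * B.card ≤ Fintype.card (Fin m → Ω) := by exact_mod_cast hb
    have h4 : 0 < Fintype.card (Fin m → Ω) := Fintype.card_pos
    rw [Finset.card_univ]
    omega
  obtain ⟨x, -, hx⟩ := Finset.exists_mem_notMem_of_card_lt_card hcard
  rw [Finset.mem_union, Finset.mem_union, not_or, not_or] at hx
  obtain ⟨h1, h2, h3⟩ := hx
  have key : ∀ y, y ∉ B → ∃ a ∈ A, (hammingDist y a : ℝ) < R := by
    intro y hy
    rw [hB, Finset.mem_filter, not_and, not_le] at hy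
    obtain ⟨a, ha, h⟩ := exists_dst A hA y
    refine ⟨a, ha, ?_⟩
    rw [← h]
    exact hy (Finset.mem_univ _)
  obtain ⟨a, ha, hxa⟩ := key x h1
  obtain ⟨b, hb', hxb⟩ := key (s x) (by
    intro h
    apply h2
    rw [Finset.mem_map]
    exact ⟨s x, h, by simp⟩)
  obtain ⟨c, hc, hxc⟩ := key (t x) (by
    intro h
    apply h3
    rw [Finset.mem_map]
    exact ⟨t x, h, by simp⟩)
  exact ⟨x, a, ha, b, hb', c, hc, hxa, hxb, hxc⟩

end Q128.BlowUp
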