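import Mathlib
import Pool.Agent.Q128.BlowUp
import Pool.Agent.Q128.BadTriDefs

set_option autoImplicit false

open Finset

namespace Q128.BadTri

/-! ### `P(1)` holds -/

lemma Bad.mono {δ δ' : ℝ} (h : δ ≤ δ') {x y z : H} (hb : Bad δ' x y z) : Bad δ x y z := by
  rcases hb with h1 | h1 | h1
  · exact Or.inl ⟨h1.1, h1.2.1, by linarith [h1.2.2]⟩
  · exact Or.inr (Or.inl ⟨h1.1, h1.2.1, by linarith [h1.2.2]⟩)
  · exact Or.inr (Or.inr ⟨h1.1, h1.2.1, by linarith [h1.2.2]⟩)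

lemma P.mono {δ δ' : ℝ} (h : δ ≤ δ') (hP : P δ) : P δ' := by
  obtain ⟨lam, h0, h1⟩ := hP
  refine ⟨lam, h0, fun n hn x => ?_⟩
  obtain ⟨I, hI, h2⟩ := h1 n hn x
  exact ⟨I, hI, fun i hi j hj k hk h3 h4 h5 hb => h2 i hi j hj k hk h3 h4 h5 (hb.mono h)⟩

lemma collinear_key (x y z : H) (h1 : ‖x - y‖ ≤ 1) (h2 : ‖y - z‖ ≤ 1) (h3 : 2 ≤ ‖x - z‖) :
    ‖x‖ ^ 2 + ‖z‖ ^ 2 - 2 * ‖y‖ ^ 2 = 2 := by
  -- all in terms of inner products
  have e1 : ‖x - y‖ ^ 2 = ‖x‖ ^ 2 - 2 * inner ℝ x y + ‖y‖ ^ 2 := norm_sub_sq_real x y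
  have e2 : ‖y - z‖ ^ 2 = ‖y‖ ^ 2 - 2 * inner ℝ y z + ‖z‖ ^ 2 := norm_sub_sq_real y z
  have e3 : ‖x - z‖ ^ 2 = ‖x‖ ^ 2 - 2 * inner ℝ x z + ‖z‖ ^ 2 := norm_sub_sq_real x z
  set w := x + z - (2 : ℝ) • y with hw
  have e4 : ‖w‖ ^ 2 = 2 * ‖x - y‖ ^ 2 + 2 * ‖y - z‖ ^ 2 - ‖x - z‖ ^ 2 := by
    have e5 : ‖w‖ ^ 2 = ‖x + z‖ ^ 2 - 2 * inner ℝ (x + z) ((2 : ℝ) • y) + ‖(2 : ℝ) • y‖ ^ 2 :=
      norm_sub_sq_real _ _
    have e6 : ‖x + z‖ ^ 2 = ‖x‖ ^ 2 + 2 * inner ℝ x z + ‖z‖ ^ 2 := norm_add_sq_real x z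
    rw [e5, e6, inner_add_left, inner_smul_right, inner_smul_right, norm_smul, e1, e2, e3,
      real_inner_comm y z]
    norm_num
    ring
  have h1' : ‖x - y‖ ^ 2 ≤ 1 := by nlinarith [norm_nonneg (x - y)]
  have h2' : ‖y - z‖ ^ 2 ≤ 1 := by nlinarith [norm_nonneg (y - z)]
  have h3' : 4 ≤ ‖x - z‖ ^ 2 := by nlinarith [norm_nonneg (x - z)]
  have hw0 : ‖w‖ ^ 2 = 0 := le_antisymm (by linarith) (by positivity)
  have hwz : w = 0 := by
    rw [← norm_eq_zero]
    exact pow_eq_zero_iff (two_ne_zero) |>.1 hw0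
  have hxz : ‖x - z‖ ^ 2 = 4 := by nlinarith [sq_nonneg ‖w‖]
  have hs : x + z = (2 : ℝ) • y := by
    rw [hw, sub_eq_zero] at hwz
    exact hwz
  have h5 : ‖x + z‖ ^ 2 = 4 * ‖y‖ ^ 2 := by
    rw [hs, norm_smul]
    norm_num
    ring
  have h6 : ‖x + z‖ ^ 2 = ‖x‖ ^ 2 + 2 * inner ℝ x z + ‖z‖ ^ 2 := norm_add_sq_real x z
  linarith

/-- The colour of a point. -/
noncomputable def col (x : H) : ℤ := ⌊‖x‖ ^ 2⌋ % 4

lemma not_near (x y z : H) (hxy : col x = col y) (hyz : col y = col z)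
    (h1 : dist x y ≤ 1) (h2 : dist y z ≤ 1) : ¬ (1 + 1 ≤ dist x z) := by
  intro h3
  rw [dist_eq_norm] at h1 h2 h3
  have h := collinear_key x y z h1 h2 (by linarith)
  have a1 := Int.floor_le (‖x‖ ^ 2)
  have a2 := Int.lt_floor_add_one (‖x‖ ^ 2)
  have b1 := Int.floor_le (‖y‖ ^ 2)
  have b2 := Int.lt_floor_add_one (‖y‖ ^ 2)
  have c1 := Int.floor_le (‖z‖ ^ 2)
  have c2 := Int.lt_floor_add_one (‖z‖ ^ 2)
  unfold col at hxy hyz
  have k1 : (0 : ℝ) < ((⌊‖x‖ ^ 2⌋ + ⌊‖z‖ ^ 2⌋ - 2 * ⌊‖y‖ ^ 2⌋ : ℤ) : ℝ) := by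
    push_cast; linarith
  have k2 : ((⌊‖x‖ ^ 2⌋ + ⌊‖z‖ ^ 2⌋ - 2 * ⌊‖y‖ ^ 2⌋ : ℤ) : ℝ) < 4 := by
    push_cast; linarith
  have k1' : 0 < ⌊‖x‖ ^ 2⌋ + ⌊‖z‖ ^ 2⌋ - 2 * ⌊‖y‖ ^ 2⌋ := by exact_mod_cast k1
  have k2' : ⌊‖x‖ ^ 2⌋ + ⌊‖z‖ ^ 2⌋ - 2 * ⌊‖y‖ ^ 2⌋ < 4 := by exact_mod_cast k2
  omega

theorem P_one : P 1 := by
  refine ⟨1 / 4, by norm_num, fun n hn x => ?_⟩
  obtain ⟨c, hc, hcard⟩ : ∃ c ∈ Finset.Ico (0 : ℤ) 4,
      (n : ℝ) / 4 ≤ (Finset.univ.filter fun i => col (x i) = c).card := by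
    by_contra hcon
    push Not at hcon
    have h1 : (Finset.univ : Finset (Fin n)).card =
        ∑ c ∈ Finset.Ico (0 : ℤ) 4, (Finset.univ.filter fun i => col (x i) = c).card := by
      apply Finset.card_eq_sum_card_fiberwise
      intro i _
      rw [Finset.coe_Ico, Set.mem_Ico]
      unfold col
      constructor
      · exact Int.emod_nonneg _ (by norm_num)
      · exact Int.emod_lt_of_pos _ (by norm_num)
    have h2 : ((Finset.univ : Finset (Fin n)).card : ℝ) <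
        ∑ c ∈ Finset.Ico (0 : ℤ) 4, (n : ℝ) / 4 := by
      rw [h1]
      push_cast
      apply Finset.sum_lt_sum_of_nonempty
      · exact ⟨0, by simp⟩
      · intro c hc
        exact hcon c hc
    simp at h2
    linarith
  refine ⟨Finset.univ.filter fun i => col (x i) = c, by linarith, ?_⟩
  intro i hi j hj k hk _ _ _ hb
  rw [Finset.mem_filter] at hi hj hk
  rcases hb with h | h | h
  · exact not_near (x i) (x j) (x k) (by rw [hi.2, hj.2]) (by rw [hj.2, hk.2]) h.1 h.2.1 h.2.2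
  · refine not_near (x j) (x i) (x k) (by rw [hi.2, hj.2]) (by rw [hi.2, hk.2]) ?_ h.2.1 h.2.2
    rw [dist_comm]; exact h.1
  · refine not_near (x i) (x k) (x j) (by rw [hi.2, hk.2]) (by rw [hj.2, hk.2]) h.2.1 ?_ h.2.2
    rw [dist_comm]; exact h.1

/-! ### Finite dimensional Euclidean spaces embed in `ℓ²` -/

lemma exists_isometry (ι : Type) [Fintype ι] [DecidableEq ι] :
    ∃ f : EuclideanSpace ℝ ι → H, ∀ x y, ‖f x - f y‖ = ‖x - y‖ := by
  classical
  obtain ⟨g, hg⟩ : ∃ g : ι → ℕ, Function.Injective g :=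
    ⟨fun i => (Fintype.equivFin ι i : ℕ), fun i j h => (Fintype.equivFin ι).injective (Fin.ext h)⟩
  set b := (EuclideanSpace.basisFun ι ℝ) with hb
  let F : EuclideanSpace ℝ ι →ₗ[ℝ] H :=
    b.toBasis.constr ℝ (fun i => lp.single 2 (g i) (1 : ℝ))
  have hv : Orthonormal ℝ b.toBasis := by
    rw [b.coe_toBasis]
    exact b.orthonormal
  have hf : Orthonormal ℝ (F ∘ b.toBasis) := by
    rw [orthonormal_iff_ite]
    intro i j
    simp only [Function.comp, F, Module.Basis.constr_basis]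
    rw [lp.inner_single_left]
    by_cases hij : i = j
    · subst hij
      simp
    · have : g i ≠ g j := fun h => hij (hg h)
      simp [hij, this]
  refine ⟨F.isometryOfOrthonormal hv hf, fun x y => ?_⟩
  rw [← map_sub, LinearIsometry.norm_map]

/-! ### Products of circles -/

variable {k : ℕ} [NeZero k]

/-- The standard point of the unit circle attached to a residue. -/
noncomputable def chi (a : ZMod k) : ℂ := ZMod.stdAddChar a

lemma norm_chi (a : ZMod k) : ‖chi a‖ = 1 := by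
  rw [chi, ZMod.stdAddChar_apply]
  exact Circle.norm_coe _

lemma chi_add (a b : ZMod k) : chi (a + b) = chi a * chi b := by
  rw [chi, AddChar.map_add_eq_mul]; rfl

/-- Squared distance in the product of circles. -/
noncomputable def D {m : ℕ} (x y : Fin m → ZMod k) : ℝ := ∑ i, ‖chi (x i) - chi (y i)‖ ^ 2

lemma term_nonneg (a b : ZMod k) : 0 ≤ ‖chi a - chi b‖ ^ 2 := by positivity

lemma term_le (a b : ZMod k) : ‖chi a - chi b‖ ^ 2 ≤ 4 := by
  have h : ‖chi a - chi b‖ ≤ 2 := by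
    refine (norm_sub_le _ _).trans ?_
    rw [norm_chi, norm_chi]; norm_num
  nlinarith [norm_nonneg (chi a - chi b)]

lemma D_perturb {m : ℕ} (x y a b : Fin m → ZMod k) :
    |D a b - D x y| ≤ 4 * ((hammingDist x a : ℝ) + hammingDist y b) := by
  rw [D, D, ← Finset.sum_sub_distrib, BlowUp.hammingDist_eq_sum, BlowUp.hammingDist_eq_sum]
  push_cast
  rw [← Finset.sum_add_distrib, Finset.mul_sum]
  refine (Finset.abs_sum_le_sum_abs _ _).trans (Finset.sum_le_sum fun i _ => ?_)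
  have h1 := term_nonneg (a i) (b i)
  have h2 := term_nonneg (x i) (y i)
  have h3 := term_le (a i) (b i)
  have h4 := term_le (x i) (y i)
  by_cases hx : x i = a i
  · by_cases hy : y i = b i
    · simp [hx, hy]
    · simp only [hx, hy, ne_eq, not_true_eq_false, if_false, not_false_eq_true, if_true]
      rw [abs_le]
      rw [hx] at h2 h4
      constructor <;> linarith
  · by_cases hy : y i = b i
    · simp only [hx, hy, ne_eq, not_true_eq_false, if_false, not_false_eq_true, if_true]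
      rw [abs_le]
      rw [hy] at h2 h4
      constructor <;> linarith
    · simp only [hx, hy, ne_eq, not_false_eq_true, if_true]
      rw [abs_le]
      constructor <;> linarith

lemma D_shift {m : ℕ} (x : Fin m → ZMod k) (c : ZMod k) :
    D x (x + fun _ => c) = m * ‖chi c - 1‖ ^ 2 := by
  rw [D]
  have : ∀ i, ‖chi (x i) - chi ((x + (fun _ => c : Fin m → ZMod k)) i)‖ ^ 2 = ‖chi c - 1‖ ^ 2 := by
    intro i
    rw [Pi.add_apply, chi_add]
    have h : chi (x i) - chi (x i) * chi c = - (chi (x i) * (chi c - 1)) := by ring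
    rw [h, norm_neg, norm_mul, norm_chi, one_mul]
  rw [Finset.sum_congr rfl fun i _ => this i]
  simp

lemma exists_pts (m k : ℕ) [NeZero k] :
    ∃ p : (Fin m → ZMod k) → H, ∀ x y, ‖p x - p y‖ ^ 2 = D x y := by
  obtain ⟨f, hf⟩ := exists_isometry (Fin m × Fin 2)
  refine ⟨fun x => f (WithLp.toLp 2 fun q =>
    if q.2 = 0 then (chi (x q.1)).re else (chi (x q.1)).im), fun x y => ?_⟩
  rw [hf, EuclideanSpace.norm_sq_eq, Fintype.sum_prod_type, D]
  apply Finset.sum_congr rfl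
  intro i _
  rw [Fin.sum_univ_two, Complex.sq_norm, Complex.normSq_apply]
  simp only [PiLp.sub_apply, Real.norm_eq_abs, sq_abs, Complex.sub_re, Complex.sub_im]
  simp
  ring

lemma chi_one : chi (1 : ZMod k) = Complex.exp (2 * Real.pi * Complex.I / k) := by
  have h := ZMod.stdAddChar_coe (N := k) 1
  rw [chi]
  have h1 : ((1 : ℤ) : ZMod k) = 1 := by norm_num
  rw [h1] at h
  rw [h]
  congr 1
  push_cast
  ring

lemma chi_two : chi (2 : ZMod k) - 1 = (chi (1 : ZMod k) - 1) * (chi (1 : ZMod k) + 1) := by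
  have : (2 : ZMod k) = 1 + 1 := by norm_num
  rw [this, chi_add]; ring

lemma exists_k {δ : ℝ} (hδ : 0 < δ) (hδ1 : δ < 1) :
    ∃ k : ℕ, ∃ _ : NeZero k, 0 < ‖chi (1 : ZMod k) - 1‖ ^ 2 ∧
      (1 + δ) ^ 2 < ‖chi (1 : ZMod k) + 1‖ ^ 2 := by
  have ht : Filter.Tendsto (fun k : ℕ => Complex.exp (2 * Real.pi * Complex.I / k))
      Filter.atTop (nhds (Complex.exp 0)) := by
    apply (Complex.continuous_exp.tendsto 0).comp
    have : (fun k : ℕ => 2 * Real.pi * Complex.I / (k : ℂ)) =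
        fun k : ℕ => (2 * Real.pi * Complex.I) * ((k : ℂ))⁻¹ := by
      funext k; rw [div_eq_mul_inv]
    rw [this]
    have h0 : (0 : ℂ) = (2 * Real.pi * Complex.I) * 0 := by ring
    rw [h0]
    apply Filter.Tendsto.const_mul
    exact tendsto_inv_atTop_nhds_zero_nat (𝕜 := ℂ)
  have ht2 : Filter.Tendsto (fun k : ℕ => ‖Complex.exp (2 * Real.pi * Complex.I / k) + 1‖ ^ 2)
      Filter.atTop (nhds (‖Complex.exp 0 + 1‖ ^ 2)) := ((ht.add_const 1).norm).pow 2
  have h4 : ‖Complex.exp 0 + 1‖ ^ 2 = 4 := by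
    rw [Complex.exp_zero]; norm_num
  rw [h4] at ht2
  have hev := ht2.eventually (lt_mem_nhds (show (1 + δ) ^ 2 < 4 by nlinarith))
  obtain ⟨K, hK⟩ := Filter.eventually_atTop.1 hev
  refine ⟨K + 2, ⟨by omega⟩, ?_, ?_⟩
  · have : NeZero (K + 2) := ⟨by omega⟩
    have : Fact (1 < K + 2) := ⟨by omega⟩
    have h1 : chi (1 : ZMod (K + 2)) - 1 ≠ 0 := by
      rw [sub_ne_zero, chi]
      intro h
      have h2 : ZMod.stdAddChar (1 : ZMod (K + 2)) = ZMod.stdAddChar (0 : ZMod (K + 2)) := by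
        rw [h, AddChar.map_zero_eq_one]
      exact one_ne_zero (ZMod.injective_stdAddChar h2)
    positivity
  · have : NeZero (K + 2) := ⟨by omega⟩
    rw [chi_one]
    exact hK (K + 2) (by omega)

theorem not_P {δ : ℝ} (hδ : 0 < δ) (hδ1 : δ < 1) : ¬ P δ := by
  rintro ⟨lam, hlam, hP⟩
  obtain ⟨k, hk, hs, hq⟩ := exists_k hδ hδ1
  set s := ‖chi (1 : ZMod k) - 1‖ ^ 2 with hsdef
  set q := ‖chi (1 : ZMod k) + 1‖ ^ 2 with hqdef
  set Q := (1 + δ) ^ 2 with hQ
  have hQ0 : 0 < Q := by positivity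
  set C := 1 / √lam + 2 with hC
  have hC0 : 0 < C := by positivity
  obtain ⟨m, hm⟩ := exists_nat_gt ((8 * C * (1 + Q) / (s * (q - Q))) ^ 2)
  have hsq : 0 < s * (q - Q) := mul_pos hs (by linarith)
  have hm0 : 0 < m := by
    have : (0 : ℝ) < m := lt_of_le_of_lt (by positivity) hm
    exact_mod_cast this
  have hmr : (0 : ℝ) < m := by exact_mod_cast hm0
  have hroot : 8 * C * (1 + Q) / (s * (q - Q)) ≤ √m := Real.le_sqrt_of_sq_le hm.le
  rw [div_le_iff₀ hsq] at hroot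
  set R := C * √(m : ℝ) with hR
  have hR0 : 0 < R := by positivity
  have hmain : Q * (m * s + 8 * R) ≤ m * s * q - 8 * R := by
    have h1 : √(m : ℝ) * √m = m := Real.mul_self_sqrt hmr.le
    have h2 : 8 * C * (1 + Q) * √m ≤ √m * (s * (q - Q)) * √m :=
      mul_le_mul_of_nonneg_right hroot (Real.sqrt_nonneg _)
    have h3 : √(m : ℝ) * (s * (q - Q)) * √m = m * (s * (q - Q)) := by
      calc √(m : ℝ) * (s * (q - Q)) * √m = (√(m : ℝ) * √m) * (s * (q - Q)) := by ring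
        _ = m * (s * (q - Q)) := by rw [h1]
    rw [h3] at h2
    rw [hR]
    linarith
  obtain ⟨p, hp⟩ := exists_pts m k
  set e := Fintype.equivFin (Fin m → ZMod k) with he
  set N := Fintype.card (Fin m → ZMod k) with hN
  have hN1 : 1 ≤ N := Fintype.card_pos
  set T := m * s + 8 * R with hT
  have hT0 : 0 < T := by positivity
  set t := 1 / √T with ht
  have htT : t ^ 2 * T = 1 := by
    rw [ht, div_pow, Real.sq_sqrt hT0.le]
    field_simp
  obtain ⟨I, hI, hI2⟩ := hP N hN1 (fun i => t • p (e.symm i))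
  set A := I.map e.symm.toEmbedding with hA
  have hAcard : A.card = I.card := Finset.card_map _
  have hd : lam * (Fintype.card (Fin m → ZMod k) : ℝ) ≤ A.card := by
    rw [hAcard]; exact hI
  obtain ⟨x, a, ha, b, hb, c, hc, hxa, hxb, hxc⟩ :=
    BlowUp.exists_three hm0 A hlam hd (Equiv.addRight (fun _ => (1 : ZMod k)))
      (Equiv.addRight (fun _ => (2 : ZMod k)))
  rw [← hC, ← hR] at hxa hxb hxc
  rw [Equiv.coe_addRight] at hxb hxc
  have d1 : D x (x + fun _ => (1 : ZMod k)) = m * s := D_shift x 1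
  have d3 : D x (x + fun _ => (2 : ZMod k)) = m * s * q := by
    rw [D_shift x 2, chi_two, norm_mul, mul_pow]; ring
  have d2 : D (x + fun _ => (1 : ZMod k)) (x + fun _ => (2 : ZMod k)) = m * s := by
    have : (x + fun _ => (2 : ZMod k)) = (x + fun _ => (1 : ZMod k)) + fun _ => (1 : ZMod k) := by
      funext i
      simp only [Pi.add_apply]
      rw [add_assoc]
      norm_num
    rw [this]
    exact D_shift _ 1
  have g1 := D_perturb x (x + fun _ => (1 : ZMod k)) a b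
  have g2 := D_perturb (x + fun _ => (1 : ZMod k)) (x + fun _ => (2 : ZMod k)) b c
  have g3 := D_perturb x (x + fun _ => (2 : ZMod k)) a c
  rw [abs_le] at g1 g2 g3
  have e1 : D a b ≤ T := by linarith [g1.2]
  have e2 : D b c ≤ T := by linarith [g2.2]
  have e3 : Q * T ≤ D a c := by linarith [g3.1]
  have nrm : ∀ u v : Fin m → ZMod k, dist (t • p u) (t • p v) ^ 2 = t ^ 2 * D u v := by
    intro u v
    rw [dist_eq_norm, ← smul_sub, norm_smul, mul_pow, hp, Real.norm_eq_abs, sq_abs]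
  have f1 : dist (t • p a) (t • p b) ≤ 1 := by
    have h : dist (t • p a) (t • p b) ^ 2 ≤ 1 := by
      rw [nrm, ← htT]; gcongr
    nlinarith [dist_nonneg (x := t • p a) (y := t • p b)]
  have f2 : dist (t • p b) (t • p c) ≤ 1 := by
    have h : dist (t • p b) (t • p c) ^ 2 ≤ 1 := by
      rw [nrm, ← htT]; gcongr
    nlinarith [dist_nonneg (x := t • p b) (y := t • p c)]
  have f3 : 1 + δ ≤ dist (t • p a) (t • p c) := by
    have h : (1 + δ) ^ 2 ≤ dist (t • p a) (t • p c) ^ 2 := by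
      rw [nrm, ← hQ]
      calc Q = t ^ 2 * (Q * T) := by rw [show t ^ 2 * (Q * T) = Q * (t ^ 2 * T) by ring, htT, mul_one]
        _ ≤ t ^ 2 * D a c := by gcongr
    exact le_of_sq_le_sq h dist_nonneg
  have hab : a ≠ b := by
    rintro rfl
    linarith
  have hbc : b ≠ c := by
    rintro rfl
    linarith
  have hac : a ≠ c := by
    rintro rfl
    rw [dist_self] at f3
    linarith
  have mem : ∀ u ∈ A, e u ∈ I := by
    intro u hu
    rw [hA, Finset.mem_map] at hu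
    obtain ⟨i, hi, hiu⟩ := hu
    have : e u = i := by
      rw [← hiu]; simp
    rw [this]; exact hi
  refine hI2 (e a) (mem a ha) (e b) (mem b hb) (e c) (mem c hc) (fun h => hab (e.injective h))
    (fun h => hbc (e.injective h)) (fun h => hac (e.injective h)) ?_
  simp only [Equiv.symm_apply_apply]
  exact Or.inl ⟨f1, f2, f3⟩

theorem P_iff {δ : ℝ} (hδ : 0 < δ) : P δ ↔ 1 ≤ δ := by
  constructor
  · intro h
    by_contra hlt
    exact not_P hδ (not_le.1 hlt) h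
  · intro h
    exact P_one.mono h

theorem deltaStar_eq : deltaStar = 1 := by
  have h : {δ : ℝ | 0 < δ ∧ ¬ P δ} = Set.Ioo 0 1 := by
    ext δ
    simp only [Set.mem_ofPred_eq, Set.mem_Ioo]
    constructor
    · rintro ⟨h0, h1⟩
      rw [P_iff h0, not_le] at h1
      exact ⟨h0, h1⟩
    · rintro ⟨h0, h1⟩
      exact ⟨h0, by rw [P_iff h0, not_le]; exact h1⟩
  rw [deltaStar, h]
  exact csSup_Ioo one_pos

end Q128.BadTri
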