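import Pool.Agent.Y783.CR.Final

/-!
# Long paths are chromatically related to every graph with an edge
-/

set_option autoImplicit false

namespace Pool.Agent.Q128.ChromDist

open Pool.Agent.Results.MP_fbe9f6_co.BipartiteRelated Pool.Agent.Y783.CR

/-- A graph `P` with at least two vertices such that the class of graphs without induced `P` has
the vertex Ramsey property, and with `P ≍ K₂`, is related to every graph with an edge that does not
contain `P`. -/
theorem related_of_ram {U V : Type*} [Finite U] [Nontrivial U] [Nontrivial V] (F : SimpleGraph U)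
    (P : SimpleGraph V) (hP : Ram P) (hK : ChromaticallyRelated P K2) (hPF : IsEmpty (P ↪g F))
    (hedge : ∃ a b, F.Adj a b) : ChromaticallyRelated F P := by
  classical
  intro l hl
  obtain ⟨r, hr, rfl⟩ : ∃ r, 1 ≤ r ∧ l = r + 1 := ⟨l - 1, by omega, by omega⟩
  obtain ⟨W₂, hfin₂, H₂, hP₂, hK₂⟩ := hK (r + 1) hl
  -- `H₂` has an `F`-free colouring with `r + 1` colours
  have hF₂ : ∃ c : W₂ → Fin (r + 1), ¬ Mono H₂ F c := by
    obtain ⟨c, hc⟩ := hK₂.1
    refine ⟨c, ?_⟩
    rintro ⟨i, f, hf⟩
    obtain ⟨a, b, hab⟩ := hedge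
    exact (isFreeColoring_K2_iff H₂ c).1 hc (f a) (f b) (f.map_adj_iff.2 hab)
      ((hf a).trans (hf b).symm)
  by_cases hcase : ∀ c : W₂ → Fin r, Mono H₂ F c
  · exact ⟨W₂, hfin₂, H₂, number_eq H₂ F hcase hF₂, hP₂⟩
  push Not at hcase
  obtain ⟨c₀, hc₀⟩ := hcase
  obtain ⟨d₂, hd₂⟩ := hP₂.1
  rw [free_iff] at hd₂
  have hlow : ∀ c : W₂ → Fin r, Mono H₂ P c := by
    intro c
    by_contra hcon
    have h1 := hP₂.2 (show r ∈ {k : ℕ | ∃ c : W₂ → Fin k, IsFreeColoring H₂ P c} from
      ⟨c, (free_iff H₂ P c).2 hcon⟩)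
    omega
  obtain ⟨W₁, _, H₁, hH₁, hc₁⟩ := hP.gen F hPF r hr
  obtain ⟨b, hb⟩ := exists_glue P
  obtain ⟨S, hBS, hS1, c, hc⟩ := shave (glue b H₁ H₂) F (r := r) (Set.range Sum.inr)
    ⟨Sum.elim (fun _ => ⟨0, hr⟩) c₀, by
      rintro ⟨i, f, hf⟩
      choose g hg using fun v => (hf v).1
      refine hc₀ ⟨i, ⟨⟨g, ?_⟩, ?_⟩, ?_⟩
      · intro x y hxy
        refine f.injective ?_
        rw [← hg x, ← hg y, hxy]
      · intro x y
        have h3 : (glue b H₁ H₂).Adj (f x) (f y) ↔ F.Adj x y := f.map_adj_iff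
        rw [← hg x, ← hg y] at h3
        exact h3
      · intro v
        have h3 := (hf v).2
        rw [← hg v] at h3
        exact h3⟩
    (fun c => by
      obtain ⟨i, f, hf⟩ := hc₁ (fun w => c (Sum.inl w))
      refine ⟨i, ⟨⟨fun v => Sum.inl (f v), ?_⟩, ?_⟩, fun v => ⟨Set.mem_univ _, hf v⟩⟩
      · intro x y hxy
        exact f.injective (Sum.inl_injective hxy)
      · intro x y
        exact f.map_adj_iff)
  refine ⟨S, inferInstance, (glue b H₁ H₂).induce S, number_eq _ _ (mono_induce _ _ hr S hS1)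
    ⟨_, not_mono_induce _ _ S c hc⟩, number_eq _ _ (mono_induce _ _ hr S ?_)
    ⟨_, not_mono_induce _ _ S (Sum.elim (fun _ => 0) d₂) ?_⟩⟩
  · intro c
    obtain ⟨i, f, hf⟩ := hlow (fun w => c (Sum.inr w))
    refine ⟨i, ⟨⟨fun v => Sum.inr (f v), ?_⟩, ?_⟩, fun v => ⟨hBS ⟨_, rfl⟩, hf v⟩⟩
    · intro x y hxy
      exact f.injective (Sum.inr_injective hxy)
    · intro x y
      exact f.map_adj_iff
  · rintro ⟨i, f, hf⟩
    rcases hb _ _ H₁ H₂ f with h | h
    · choose g hg using h
      refine hH₁.false ⟨⟨g, ?_⟩, ?_⟩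
      · intro x y hxy
        refine f.injective ?_
        rw [hg x, hg y, hxy]
      · intro x y
        have h3 : (glue b H₁ H₂).Adj (f x) (f y) ↔ P.Adj x y := f.map_adj_iff
        rw [hg x, hg y] at h3
        exact h3
    · choose g hg using h
      refine hd₂ ⟨i, ⟨⟨g, ?_⟩, ?_⟩, ?_⟩
      · intro x y hxy
        refine f.injective ?_
        rw [hg x, hg y, hxy]
      · intro x y
        have h3 : (glue b H₁ H₂).Adj (f x) (f y) ↔ P.Adj x y := f.map_adj_iff
        rw [hg x, hg y] at h3
        exact h3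
      · intro v
        have h3 := (hf v).2
        rw [hg v] at h3
        exact h3

/-- Paths with at least four vertices are prime. -/
theorem path_prime (n : ℕ) (hn : 4 ≤ n) : PrimeGraph (SimpleGraph.pathGraph n) := by
  intro M hM
  by_cases hsub : M.Subsingleton
  · exact Or.inl hsub
  right
  have hadj : ∀ x y : Fin n, (SimpleGraph.pathGraph n).Adj x y ↔
      (x : ℕ) + 1 = y ∨ (y : ℕ) + 1 = x := fun x y => SimpleGraph.pathGraph_adj
  simp only [hadj] at hM
  obtain ⟨x, hx, y, hy, hxy⟩ : ∃ x ∈ M, ∃ y ∈ M, (x : ℕ) < y := by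
    unfold Set.Subsingleton at hsub
    push Not at hsub
    obtain ⟨x, hx, y, hy, hne⟩ := hsub
    have : (x : ℕ) ≠ y := fun h => hne (Fin.ext h)
    rcases Nat.lt_or_gt_of_ne this with h | h
    · exact ⟨x, hx, y, hy, h⟩
    · exact ⟨y, hy, x, hx, h⟩
  -- no vertex outside is adjacent to a vertex of `M`
  have hno : ∀ z, z ∉ M → ∀ w ∈ M, ¬ ((z : ℕ) + 1 = w ∨ (w : ℕ) + 1 = z) := by
    intro z hz w hw hzw
    have h1 := (hM z hz w hw x hx).1 hzw
    have h2 := (hM z hz w hw y hy).1 hzw
    have hx1 : (x : ℕ) + 1 = z := by omega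
    have hy1 : (z : ℕ) + 1 = y := by omega
    by_cases hx0 : (x : ℕ) = 0
    · -- use `z + 2`
      have hlt : (z : ℕ) + 2 < n := by omega
      have hn1 : (⟨(z : ℕ) + 2, hlt⟩ : Fin n) ∉ M := by
        intro hmem
        have h3 := (hM z hz w hw _ hmem).1 hzw
        simp only at h3
        omega
      have h4 := hM _ hn1 x hx y hy
      simp only at h4
      have := h4.2 (by omega)
      omega
    · have hlt : (x : ℕ) - 1 < n := by have := x.2; omega
      have hn1 : (⟨(x : ℕ) - 1, hlt⟩ : Fin n) ∉ M := by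
        intro hmem
        have h3 := (hM z hz w hw _ hmem).1 hzw
        simp only at h3
        omega
      have h4 := hM _ hn1 x hx y hy
      simp only at h4
      have := h4.1 (by omega)
      omega
  have hup : ∀ k : ℕ, ∀ h : (x : ℕ) + k < n, (⟨(x : ℕ) + k, h⟩ : Fin n) ∈ M := by
    intro k
    induction k with
    | zero => intro h; exact hx
    | succ k ih =>
      intro h
      by_contra hcon
      have := hno _ hcon _ (ih (by omega))
      simp only at this
      omega
  have hdown : ∀ k : ℕ, k ≤ x → ∀ h : (x : ℕ) - k < n, (⟨(x : ℕ) - k, h⟩ : Fin n) ∈ M := by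
    intro k
    induction k with
    | zero => intro _ h; exact hx
    | succ k ih =>
      intro hk h
      by_contra hcon
      have := hno _ hcon _ (ih (by omega) (by omega))
      simp only at this
      omega
  rw [Set.eq_univ_iff_forall]
  intro z
  rcases le_total (x : ℕ) z with h | h
  · have h1 := hup ((z : ℕ) - x) (by have := z.2; omega)
    have e : (⟨(x : ℕ) + ((z : ℕ) - x), by have := z.2; omega⟩ : Fin n) = z := Fin.ext (by
      simp only; omega)
    rwa [e] at h1
  · have h1 := hdown ((x : ℕ) - z) (by omega) (by have := x.2; omega)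
    have e : (⟨(x : ℕ) - ((x : ℕ) - z), by have := x.2; omega⟩ : Fin n) = z := Fin.ext (by
      simp only; omega)
    rwa [e] at h1

/-- Every graph with an edge is related to every longer path with at least four vertices. -/
theorem related_path {U : Type*} [Finite U] [Nontrivial U] (F : SimpleGraph U)
    (hedge : ∃ a b, F.Adj a b) (n : ℕ) (hn : 4 ≤ n) (hU : Nat.card U < n) :
    ChromaticallyRelated F (SimpleGraph.pathGraph n) := by
  have hnt : Nontrivial (Fin n) := Fin.nontrivial_iff_two_le.2 (by omega)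
  refine related_of_ram F _ (ram_of_prime (path_prime n hn)) ?_ ?_ hedge
  · exact result _ (by rw [Fintype.card_fin]; omega)
      ⟨SimpleGraph.Coloring.mk (fun i : Fin n => (⟨(i : ℕ) % 2, Nat.mod_lt _ (by norm_num)⟩ : Fin 2))
        (by
          intro i j hij h
          rw [SimpleGraph.pathGraph_adj] at hij
          have := congrArg Fin.val h
          simp only at this
          omega)⟩
  · refine ⟨fun f => ?_⟩
    have := Nat.card_le_card_of_injective f f.injective
    rw [Nat.card_fin] at this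
    omega

/-- Two finite edgeless graphs with the same number `≥ 2` of vertices are related. -/
theorem related_bot_bot {U V : Type*} [Finite U] [Finite V] [Nontrivial U] (e : U ≃ V) :
    ChromaticallyRelated (⊥ : SimpleGraph U) (⊥ : SimpleGraph V) := by
  classical
  have hfine : Fine (⊥ : SimpleGraph U) := by
    right
    rw [compl_bot]
    exact nice_top
  refine related_of_emb hfine ⟨e.toEmbedding, fun {a b} => by simp⟩ ?_
  obtain ⟨a, b, hab⟩ := exists_pair_ne U
  refine ⟨fun x => if x = e a then 0 else 1, ?_⟩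
  rw [free_iff]
  rintro ⟨i, f, hf⟩
  have hinj : Function.Injective fun x => e.symm (f x) := fun x y h => f.injective (by simpa using h)
  have hsurj : Function.Surjective fun x => e.symm (f x) := Finite.surjective_of_injective hinj
  obtain ⟨x, hx⟩ := hsurj a
  obtain ⟨y, hy⟩ := hsurj b
  have hx' : f x = e a := by rw [← hx]; simp
  have hy' : f y = e b := by rw [← hy]; simp
  have h1 : (if f x = e a then (0 : Fin 2) else 1) = i := hf x
  have h2 : (if f y = e a then (0 : Fin 2) else 1) = i := hf y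
  rw [hx', if_pos rfl] at h1
  rw [hy', if_neg (fun h => hab (e.injective h).symm), ← h1] at h2
  exact absurd h2 (by decide)

/-- An edgeless and a complete graph, both with at least two vertices, are related. -/
theorem related_top_bot {U V : Type*} [Finite U] [Finite V] [Nontrivial U] [Nontrivial V] :
    ChromaticallyRelated (⊤ : SimpleGraph U) (⊥ : SimpleGraph V) := by
  refine top_incomparable _ ?_ ?_
  · refine ⟨fun f => ?_⟩
    obtain ⟨a, b, hab⟩ := exists_pair_ne U
    have := f.map_adj_iff.2 (show (⊤ : SimpleGraph U).Adj a b from hab)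
    exact this
  · refine ⟨fun f => ?_⟩
    obtain ⟨a, b, hab⟩ := exists_pair_ne V
    have : (⊤ : SimpleGraph U).Adj (f a) (f b) := fun h => hab (f.injective h)
    exact f.map_adj_iff.1 this

theorem eq_bot_of {U : Type*} {F : SimpleGraph U} (h : ¬ ∃ a b, F.Adj a b) : F = ⊥ := by
  ext a b
  simp only [SimpleGraph.bot_adj, iff_false]
  exact fun h' => h ⟨a, b, h'⟩

theorem eq_top_of {U : Type*} {F : SimpleGraph U} (h : ¬ ∃ a b, Fᶜ.Adj a b) : F = ⊤ := by
  have := eq_bot_of h
  rw [← compl_compl F, this, compl_bot]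

/-- A complete and an edgeless graph have a common relative. -/
theorem dist_top_bot {U V : Type*} [Finite U] [Finite V] [Nontrivial U] [Nontrivial V] :
    ∃ (X : Type) (_ : Finite X) (_ : Nontrivial X) (H : SimpleGraph X),
      ChromaticallyRelated (⊤ : SimpleGraph U) H ∧
        ChromaticallyRelated H (⊥ : SimpleGraph V) := by
  obtain ⟨n, ⟨e⟩⟩ := Finite.exists_equiv_fin V
  have hnt' : Nontrivial (Fin n) := e.symm.nontrivial
  exact ⟨Fin n, inferInstance, hnt', ⊥, related_top_bot, related_bot_bot e.symm⟩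

/-- **Chromatic distance at most two.** -/
theorem dist_le_two {U V : Type*} [Finite U] [Finite V] [Nontrivial U] [Nontrivial V]
    (F : SimpleGraph U) (G : SimpleGraph V) :
    ∃ (X : Type) (_ : Finite X) (_ : Nontrivial X) (H : SimpleGraph X),
      ChromaticallyRelated F H ∧ ChromaticallyRelated H G := by
  have hn : 4 ≤ Nat.card U + Nat.card V + 4 := by omega
  have hnt : Nontrivial (Fin (Nat.card U + Nat.card V + 4)) :=
    Fin.nontrivial_iff_two_le.2 (by omega)
  by_cases hc : (∃ a b, F.Adj a b) ∧ ∃ a b, G.Adj a b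
  · exact ⟨Fin (Nat.card U + Nat.card V + 4), inferInstance, hnt, SimpleGraph.pathGraph _,
      related_path F hc.1 _ hn (by omega), related_symm (related_path G hc.2 _ hn (by omega))⟩
  by_cases hc' : (∃ a b, Fᶜ.Adj a b) ∧ ∃ a b, Gᶜ.Adj a b
  · refine ⟨Fin (Nat.card U + Nat.card V + 4), inferInstance, hnt,
      (SimpleGraph.pathGraph _)ᶜ, related_compl ?_, related_symm (related_compl ?_)⟩
    · rw [compl_compl]
      exact related_path Fᶜ hc'.1 _ hn (by omega)
    · rw [compl_compl]
      exact related_path Gᶜ hc'.2 _ hn (by omega)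
  have hU : ¬ ((F = ⊥) ∧ (F = ⊤)) := by
    rintro ⟨h1, h2⟩
    obtain ⟨a, b, hab⟩ := exists_pair_ne U
    have : (⊤ : SimpleGraph U).Adj a b := hab
    rw [← h2, h1] at this
    exact this
  have hV : ¬ ((G = ⊥) ∧ (G = ⊤)) := by
    rintro ⟨h1, h2⟩
    obtain ⟨a, b, hab⟩ := exists_pair_ne V
    have : (⊤ : SimpleGraph V).Adj a b := hab
    rw [← h2, h1] at this
    exact this
  have key : (F = ⊤ ∧ G = ⊥) ∨ (F = ⊥ ∧ G = ⊤) := by
    rcases not_and_or.1 hc with h | h <;> rcases not_and_or.1 hc' with h' | h'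
    · exact absurd ⟨eq_bot_of h, eq_top_of h'⟩ hU
    · exact Or.inr ⟨eq_bot_of h, eq_top_of h'⟩
    · exact Or.inl ⟨eq_top_of h', eq_bot_of h⟩
    · exact absurd ⟨eq_bot_of h, eq_top_of h'⟩ hV
  rcases key with ⟨rfl, rfl⟩ | ⟨rfl, rfl⟩
  · exact dist_top_bot
  · obtain ⟨X, h1, h2, H, h3, h4⟩ := dist_top_bot (U := V) (V := U)
    exact ⟨X, h1, h2, H, related_symm h4, related_symm h3⟩

end Pool.Agent.Q128.ChromDist
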