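import Pool.Agent.Q128.MixingDefs

/-!
# The circular chromatic number: definition
-/

set_option autoImplicit false

namespace Q128.Mixing

/-- the circular chromatic number `χ_c(G)`, the infimum of `k / q` over the positive integers `k, q`
such that `G` has a `(k, q)`-colouring -/
noncomputable def circularChromaticNumber {V : Type*} (G : SimpleGraph V) : ℝ :=
  sInf {x : ℝ | ∃ k q : ℕ, 1 ≤ k ∧ 1 ≤ q ∧ x = (k : ℝ) / (q : ℝ) ∧
    ∃ f : V → Fin k, IsCol G k q f}

end Q128.Mixing
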