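import Pool.Agent.Q128.CochDefs

/-!
# The base graph

`B` is a graph on 12 vertices with clique number 4 and independence number 2.
-/

namespace Pool.Agent.Q128.Coch

universe u

/-- The pairs of nonadjacent vertices of the base graph. -/
def nonEdges : List (ℕ × ℕ) :=
  [(0, 4), (0, 6), (0, 7), (0, 9), (1, 5), (1, 7), (1, 8), (1, 10), (2, 6), (2, 8), (2, 9), (2, 11),
    (3, 7), (3, 9), (3, 10), (4, 8), (4, 10), (4, 11), (5, 9), (5, 11), (6, 10), (7, 11)]

/-- The base graph. -/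
def B : SimpleGraph (Fin 12) where
  Adj x y := x ≠ y ∧ ((x : ℕ), (y : ℕ)) ∉ nonEdges ∧ ((y : ℕ), (x : ℕ)) ∉ nonEdges
  symm := ⟨fun _ _ h => ⟨h.1.symm, h.2.2, h.2.1⟩⟩
  loopless := ⟨fun _ h => h.1 rfl⟩

instance : DecidableRel B.Adj := fun x y =>
  inferInstanceAs (Decidable (x ≠ y ∧ ((x : ℕ), (y : ℕ)) ∉ nonEdges ∧ ((y : ℕ), (x : ℕ)) ∉ nonEdges))

theorem alpha_le : ∀ x y z : Fin 12, x ≠ y → x ≠ z → y ≠ z → B.Adj x y ∨ B.Adj x z ∨ B.Adj y z := by
  decide +kernel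

theorem no_five : ∀ a b : Fin 12, B.Adj a b → ∀ c, B.Adj a c → B.Adj b c → ∀ d, B.Adj a d →
    B.Adj b d → B.Adj c d → ∀ e, ¬ (B.Adj a e ∧ B.Adj b e ∧ B.Adj c e ∧ B.Adj d e) := by
  decide +kernel

def same (m : List (ℕ × ℕ)) (a b : ℕ) : Bool :=
  a == b || m.contains (a, b) || m.contains (b, a)

def ok1 (m : List (ℕ × ℕ)) (T : List ℕ) : Bool :=
  m.all fun e => !(T.contains e.1 && T.contains e.2)

def ok2 (m : List (ℕ × ℕ)) (q : List ℕ × List ℕ × List ℕ) : Bool :=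
  ok1 m q.1 && ok1 m q.2.1 && ok1 m q.2.2 && q.1.all (fun x => q.2.1.any (same m x)) &&
    q.2.1.all (fun x => q.2.2.any (same m x)) && q.2.2.all (fun x => q.2.1.any (same m x))

def k1 : List (List ℕ) :=
  [[1, 4, 7, 10, 11], [0, 2, 7, 9, 11], [0, 4, 5, 9, 11], [2, 3, 6, 9, 10], [1, 2, 5, 8, 11],
    [0, 1, 6, 7, 10], [1, 3, 5, 9, 10], [1, 2, 7, 8, 11], [1, 4, 5, 10, 11], [2, 3, 7, 9, 11],
    [0, 2, 4, 6, 11], [2, 4, 6, 8, 10], [0, 2, 4, 8, 9], [2, 4, 6, 10, 11], [0, 1, 4, 7, 8]]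

def k2 : List (List ℕ × List ℕ × List ℕ) :=
  [([1, 2, 7, 9], [0, 1, 2, 9, 10, 11], [1, 2, 4, 7, 9, 10]),
    ([0, 1, 6, 7], [3, 4, 5, 8, 10, 11], [1, 3, 4, 7, 8, 10]),
    ([0, 1, 4, 5], [1, 5, 7, 8, 9, 11], [1, 2, 3, 5, 7, 11])]

def leaf (m : List (ℕ × ℕ)) : Bool := k1.any (ok1 m) || k2.any (ok2 m)

def check : List (ℕ × ℕ) → List (ℕ × ℕ) → Bool
  | [], m => leaf m
  | e :: es, m => check es m &&
      (m.any (fun f => f.1 == e.1 || f.1 == e.2 || f.2 == e.1 || f.2 == e.2) || check es (e :: m))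

theorem check_true : check nonEdges [] = true := by decide +kernel

/-- The set of a list of numbers. -/
def toF (l : List ℕ) : Finset (Fin 12) := Finset.univ.filter fun x => (x : ℕ) ∈ l

theorem mem_toF {l : List ℕ} {x : Fin 12} : x ∈ toF l ↔ (x : ℕ) ∈ l := by
  simp [toF]

/-- No three pairwise adjacent vertices. -/
def TriFree (T : Finset (Fin 12)) : Prop := B.CliqueFreeOn (T : Set (Fin 12)) 3

/-- No four pairwise adjacent vertices. -/
def K4Free (T : Finset (Fin 12)) : Prop := B.CliqueFreeOn (T : Set (Fin 12)) 4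

theorem triFree_of {T : Finset (Fin 12)}
    (h : ∀ a ∈ T, ∀ b ∈ T, B.Adj a b → ∀ c ∈ T, ¬ (B.Adj a c ∧ B.Adj b c)) : TriFree T := by
  intro t ht hcl
  obtain ⟨a, b, c, hab, hac, hbc, rfl⟩ := SimpleGraph.is3Clique_iff.1 hcl
  simp only [Finset.coe_insert, Finset.coe_singleton] at ht
  exact h a (ht (by simp)) b (ht (by simp)) hab c (ht (by simp)) ⟨hac, hbc⟩

theorem four_of_clique {t : Finset (Fin 12)} (h : B.IsNClique 4 t) : ∃ a b c d, a ∈ t ∧ b ∈ t ∧
    c ∈ t ∧ d ∈ t ∧ B.Adj a b ∧ B.Adj a c ∧ B.Adj a d ∧ B.Adj b c ∧ B.Adj b d ∧ B.Adj c d := by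
  obtain ⟨hcl, hcard⟩ := h
  obtain ⟨a, t', ha, rfl, ht'⟩ := Finset.card_eq_succ.1 hcard
  have h3 : B.IsNClique 3 t' := ⟨hcl.subset (by simp), ht'⟩
  obtain ⟨b, c, d, hbc, hbd, hcd, rfl⟩ := SimpleGraph.is3Clique_iff.1 h3
  simp only [Finset.mem_insert, Finset.mem_singleton, not_or] at ha
  refine ⟨a, b, c, d, by simp, by simp, by simp, by simp, hcl (by simp) (by simp) ha.1,
    hcl (by simp) (by simp) ha.2.1, hcl (by simp) (by simp) ha.2.2, hbc, hbd, hcd⟩

theorem k4Free_of {T : Finset (Fin 12)}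
    (h : ∀ a ∈ T, ∀ b ∈ T, B.Adj a b → ∀ c ∈ T, B.Adj a c → B.Adj b c → ∀ d ∈ T,
      ¬ (B.Adj a d ∧ B.Adj b d ∧ B.Adj c d)) : K4Free T := by
  intro t ht hcl
  obtain ⟨a, b, c, d, ha, hb, hc, hd, h1, h2, h3, h4, h5, h6⟩ := four_of_clique hcl
  exact h a (ht ha) b (ht hb) h1 c (ht hc) h2 h4 d (ht hd) ⟨h3, h5, h6⟩

theorem b_cliqueFree : B.CliqueFree 5 := by
  intro t hcl
  obtain ⟨hcl, hcard⟩ := hcl
  obtain ⟨e, t', he, rfl, ht'⟩ := Finset.card_eq_succ.1 hcard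
  obtain ⟨a, b, c, d, ha, hb, hc, hd, h1, h2, h3, h4, h5, h6⟩ :=
    four_of_clique (⟨hcl.subset (by simp), ht'⟩ : B.IsNClique 4 t')
  have key : ∀ x ∈ t', B.Adj x e := by
    intro x hx
    exact hcl (by simp [hx]) (by simp) (fun h => he (h ▸ hx))
  exact no_five a b h1 c h2 h4 d h3 h5 h6 e ⟨key a ha, key b hb, key c hc, key d hd⟩

theorem k1_static : ∀ T ∈ k1, (toF T).card = 5 ∧
    ∀ a ∈ toF T, ∀ b ∈ toF T, B.Adj a b → ∀ c ∈ toF T, ¬ (B.Adj a c ∧ B.Adj b c) := by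
  decide +kernel

set_option synthInstance.maxSize 4096 in
theorem k2_static : ∀ q ∈ k2, (toF q.1).card = 4 ∧ (toF q.2.1).card = 6 ∧
    (∀ x ∈ q.2.1, x < 12) ∧ (∀ x ∈ q.2.2, x < 12) ∧
    (∀ a ∈ toF q.1, ∀ b ∈ toF q.1, B.Adj a b → ∀ c ∈ toF q.1, ¬ (B.Adj a c ∧ B.Adj b c)) ∧
    (∀ a ∈ toF q.2.1, ∀ b ∈ toF q.2.1, B.Adj a b → ∀ c ∈ toF q.2.1, B.Adj a c → B.Adj b c →
      ∀ d ∈ toF q.2.1, ¬ (B.Adj a d ∧ B.Adj b d ∧ B.Adj c d)) ∧
    (∀ a ∈ toF q.2.2, ∀ b ∈ toF q.2.2, B.Adj a b → ∀ c ∈ toF q.2.2, B.Adj a c → B.Adj b c →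
      ∀ d ∈ toF q.2.2, ¬ (B.Adj a d ∧ B.Adj b d ∧ B.Adj c d)) ∧
    (∀ a ∈ toF q.2.1 ∩ toF q.2.2, ∀ b ∈ toF q.2.1 ∩ toF q.2.2, B.Adj a b →
      ∀ c ∈ toF q.2.1 ∩ toF q.2.2, ¬ (B.Adj a c ∧ B.Adj b c)) := by
  decide +kernel

/-- Two pairs without a common element. -/
def Dis (e f : ℕ × ℕ) : Prop :=
  (f.1 == e.1 || f.1 == e.2 || f.2 == e.1 || f.2 == e.2) = false

theorem check_sound (p : ℕ × ℕ → Bool) : ∀ (es m : List (ℕ × ℕ)), check es m = true →
    (∀ e ∈ es, ∀ f ∈ m, p e = true → Dis e f) →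
    es.Pairwise (fun e f => p e = true → p f = true → Dis f e) →
    leaf ((es.filter p).reverse ++ m) = true := by
  intro es
  induction es with
  | nil =>
    intro m h _ _
    simpa [check] using h
  | cons e es ih =>
    intro m h h1 h2
    rw [check, Bool.and_eq_true] at h
    rw [List.pairwise_cons] at h2
    by_cases hp : p e = true
    · have hany : (m.any (fun f => f.1 == e.1 || f.1 == e.2 || f.2 == e.1 || f.2 == e.2)) =
          false := by
        rw [List.any_eq_false]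
        intro f hf
        have := h1 e (by simp) f hf hp
        unfold Dis at this
        rw [this]
        simp
      rw [hany, Bool.false_or] at h
      have := ih (e :: m) h.2 (by
        intro e' he' f hf hpe'
        rcases List.mem_cons.1 hf with rfl | hf
        · exact h2.1 e' he' hp hpe'
        · exact h1 e' (by simp [he']) f hf hpe') h2.2
      rw [List.filter_cons_of_pos hp, List.reverse_cons, List.append_assoc]
      exact this
    · rw [List.filter_cons_of_neg hp]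
      exact ih m h.1 (fun e' he' f hf hpe' => h1 e' (by simp [he']) f hf hpe') h2.2

theorem share_static : nonEdges.Pairwise (fun e f =>
    (f.1 == e.1 || f.1 == e.2 || f.2 == e.1 || f.2 == e.2) = true → ∃ x y : Fin 12,
      ((x : ℕ) = e.1 ∨ (x : ℕ) = e.2 ∨ (x : ℕ) = f.1 ∨ (x : ℕ) = f.2) ∧
      ((y : ℕ) = e.1 ∨ (y : ℕ) = e.2 ∨ (y : ℕ) = f.1 ∨ (y : ℕ) = f.2) ∧ B.Adj x y) := by
  decide +kernel

theorem range_static : ∀ e ∈ nonEdges, e.1 < 12 ∧ e.2 < 12 ∧ e.1 ≠ e.2 := by decide +kernel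

/-- **Colourings of the base graph.** -/
theorem base_lemma {κ : Type u} [DecidableEq κ] (c : Fin 12 → κ)
    (hc : ∀ x y, B.Adj x y → c x ≠ c y) :
    (∃ T : Finset (Fin 12), TriFree T ∧ 5 ≤ (T.image c).card) ∨
      ∃ T T₁ T₂ : Finset (Fin 12), TriFree T ∧ K4Free T₁ ∧ K4Free T₂ ∧ TriFree (T₁ ∩ T₂) ∧
        4 ≤ (T.image c).card ∧ 6 ≤ (T₁.image c).card ∧ T₁.image c = T₂.image c ∧
        T.image c ⊆ T₁.image c := by
  classical
  let c' : ℕ → κ := fun n => c (Fin.ofNat 12 n)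
  have hcc : ∀ x : Fin 12, c' x = c x := by
    intro x
    simp only [c']
    congr 1
    exact Fin.ext (Nat.mod_eq_of_lt x.2)
  let p : ℕ × ℕ → Bool := fun e => decide (c' e.1 = c' e.2)
  have hp : ∀ e, p e = true ↔ c' e.1 = c' e.2 := fun e => decide_eq_true_iff
  have hleaf := check_sound p nonEdges [] check_true (by simp) (by
    refine share_static.imp ?_
    intro e f h pe pf
    by_contra hcon
    rw [hp] at pe pf
    unfold Dis at hcon
    rw [Bool.not_eq_false] at hcon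
    have hcon' : (f.1 == e.1 || f.1 == e.2 || f.2 == e.1 || f.2 == e.2) = true := by
      simp only [Bool.or_eq_true, beq_iff_eq] at hcon ⊢
      omega
    obtain ⟨x, y, hx, hy, hxy⟩ := h hcon'
    have hall : c' e.1 = c' f.1 := by
      simp only [Bool.or_eq_true, beq_iff_eq] at hcon'
      rcases hcon' with ((h1 | h1) | h1) | h1
      · rw [h1]
      · rw [h1, pe]
      · rw [pf, h1]
      · rw [pf, h1, pe]
    have hx' : c' x = c' e.1 := by
      rcases hx with h1 | h1 | h1 | h1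
      · rw [h1]
      · rw [h1, pe]
      · rw [h1, hall]
      · rw [h1, ← pf, hall]
    have hy' : c' y = c' e.1 := by
      rcases hy with h1 | h1 | h1 | h1
      · rw [h1]
      · rw [h1, pe]
      · rw [h1, hall]
      · rw [h1, ← pf, hall]
    rw [hcc] at hx' hy'
    exact hc x y hxy (hx'.trans hy'.symm))
  rw [List.append_nil] at hleaf
  generalize hm : (nonEdges.filter p).reverse = m at hleaf
  have hmem : ∀ e, e ∈ m ↔ e ∈ nonEdges ∧ c' e.1 = c' e.2 := by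
    intro e
    rw [← hm, List.mem_reverse, List.mem_filter, hp]
  -- two vertices of one colour form a listed pair
  have hpair : ∀ a b : Fin 12, a ≠ b → c a = c b →
      ((a : ℕ), (b : ℕ)) ∈ m ∨ ((b : ℕ), (a : ℕ)) ∈ m := by
    intro a b hab he
    by_contra hcon
    push Not at hcon
    refine hc a b ⟨hab, fun h => hcon.1 ((hmem _).2 ⟨h, ?_⟩), fun h => hcon.2 ((hmem _).2 ⟨h, ?_⟩)⟩
      he
    · rw [hcc, hcc]; exact he
    · rw [hcc, hcc]; exact he.symm
  have hsame : ∀ a b : ℕ, same m a b = true → c' a = c' b := by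
    intro a b h
    unfold same at h
    rw [Bool.or_eq_true, Bool.or_eq_true, beq_iff_eq, List.contains_iff_mem,
      List.contains_iff_mem] at h
    rcases h with (h | h) | h
    · rw [h]
    · exact ((hmem _).1 h).2
    · exact ((hmem _).1 h).2.symm
  have hok1 : ∀ T : List ℕ, ok1 m T = true → ((toF T).image c).card = (toF T).card := by
    intro T hT
    refine Finset.card_image_of_injOn ?_
    intro a ha b hb he
    by_contra hab
    rw [Finset.mem_coe, mem_toF] at ha hb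
    unfold ok1 at hT
    rw [List.all_eq_true] at hT
    rcases hpair a b hab he with h | h
    · have := hT _ h
      simp [ha, hb] at this
    · have := hT _ h
      simp [ha, hb] at this
  unfold leaf at hleaf
  rw [Bool.or_eq_true, List.any_eq_true, List.any_eq_true] at hleaf
  rcases hleaf with ⟨T, hT, hok⟩ | ⟨q, hq, hok⟩
  · left
    obtain ⟨h1, h2⟩ := k1_static T hT
    exact ⟨toF T, triFree_of h2, by rw [hok1 T hok, h1]⟩
  · right
    obtain ⟨h1, h2, h3, h3', h4, h5, h6, h7⟩ := k2_static q hq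
    unfold ok2 at hok
    simp only [Bool.and_eq_true, List.all_eq_true, List.any_eq_true] at hok
    obtain ⟨⟨⟨⟨⟨o1, o2⟩, o3⟩, o4⟩, o5⟩, o6⟩ := hok
    have himg : ∀ l l' : List ℕ, (∀ x ∈ l', x < 12) → (∀ x ∈ l, ∃ y ∈ l', same m x y = true) →
        (toF l).image c ⊆ (toF l').image c := by
      intro l l' hl' h z hz
      rw [Finset.mem_image] at hz
      obtain ⟨x, hx, rfl⟩ := hz
      rw [mem_toF] at hx
      obtain ⟨y, hy, hxy⟩ := h _ hx
      have hy12 := hl' y hy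
      rw [Finset.mem_image]
      refine ⟨⟨y, hy12⟩, mem_toF.2 hy, ?_⟩
      have := hsame _ _ hxy
      rw [hcc] at this
      rw [this, ← hcc ⟨y, hy12⟩]
    exact ⟨toF q.1, toF q.2.1, toF q.2.2, triFree_of h4, k4Free_of h5, k4Free_of h6,
      triFree_of h7, by rw [hok1 _ o1, h1], by rw [hok1 _ o2, h2],
      Finset.Subset.antisymm (himg _ _ h3' o5) (himg _ _ h3 o6), himg _ _ h3 o4⟩

end Pool.Agent.Q128.Coch
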