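import Mathlib

/-!
# The cochromatic number
-/

namespace Pool.Agent.Q128.Coch

universe u

/-- The vertices of `G` can be coloured with `k` colours such that every colour class is a clique
or an independent set. -/
def CochColorable {V : Type u} (G : SimpleGraph V) (k : ℕ) : Prop :=
  ∃ c : V → Fin k, ∀ i : Fin k, G.IsClique {v | c v = i} ∨ G.IsIndepSet {v | c v = i}

/-- `ζ(G) = k`: the cochromatic number of `G` is `k`. -/
def CochromaticNumberEq {V : Type u} (G : SimpleGraph V) (k : ℕ) : Prop :=
  IsLeast {k : ℕ | CochColorable G k} k

end Pool.Agent.Q128.Coch
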