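import Pool.Agent.Q128.PawDefs

/-!
# Paw-free colourings and colourings without `host k`
-/

namespace Pool.Agent.Q128.Paw

universe u v w x

/-- A graph without triangles in which the ends of every walk with three edges are adjacent is
bipartite. -/
theorem two_colorable {V : Type u} (T : SimpleGraph V)
    (h3 : ∀ a b c, T.Adj a b → T.Adj b c → ¬ T.Adj a c)
    (h4 : ∀ a b c d, T.Adj a b → T.Adj b c → T.Adj c d → T.Adj a d) :
    ∃ f : V → Fin 2, ∀ u v, T.Adj u v → f u ≠ f v := by
  classical
  let r : V → V := fun v => (T.connectedComponentMk v).out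
  have hr : ∀ u v, T.Adj u v → r u = r v := by
    intro u v h
    have : T.connectedComponentMk u = T.connectedComponentMk v :=
      SimpleGraph.ConnectedComponent.sound h.reachable
    simp only [r, this]
  have key : ∀ r v : V, T.Reachable r v → (T.Adj r v ∨ ∀ x, T.Adj r x ↔ T.Adj v x) := by
    intro r v h
    obtain ⟨p⟩ := h
    suffices H : ∀ (v r : V) (p : T.Walk v r), (T.Adj r v ∨ ∀ x, T.Adj r x ↔ T.Adj v x) from
      H v r p.reverse
    clear p
    intro v r p
    induction p with
    | nil => exact Or.inr fun x => Iff.rfl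
    | @cons a b c hab p ih =>
      rcases ih with h | h
      · right
        intro x
        constructor
        · intro hx
          exact h4 a b c x hab h.symm hx
        · intro hx
          exact h4 c b a x h hab.symm hx
      · left
        exact ((h a).2 hab.symm)
  have hreach : ∀ v, T.Reachable (r v) v := by
    intro v
    have : T.connectedComponentMk (r v) = T.connectedComponentMk v := Quot.out_eq _
    exact SimpleGraph.ConnectedComponent.exact this
  refine ⟨fun v => if T.Adj (r v) v then 0 else 1, ?_⟩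
  intro u v huv
  have e := hr u v huv
  have k1 := key _ _ (hreach u)
  have k2 := key _ _ (hreach v)
  rw [e] at k1
  have : (T.Adj (r v) u ∧ ¬ T.Adj (r v) v) ∨ (¬ T.Adj (r v) u ∧ T.Adj (r v) v) := by
    rcases k1 with k1 | k1
    · left
      refine ⟨k1, fun h => ?_⟩
      exact h3 (r v) u v k1 huv h
    · right
      refine ⟨fun h => ?_, (k1 v).2 huv⟩
      have := (k1 u).1 h
      exact T.loopless.irrefl _ this
  simp only [e]
  rcases this with ⟨h1, h2⟩ | ⟨h1, h2⟩ <;> simp [h1, h2]

/-- In a graph without induced paw, a neighbour of a vertex of a triangle is adjacent to a second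
vertex of the triangle. -/
theorem paw_step {V : Type u} (S : SimpleGraph V) (hS : IsEmpty (paw ↪g S)) {x y z w : V}
    (hxy : S.Adj x y) (hxz : S.Adj x z) (hyz : S.Adj y z) (hw : S.Adj x w) (hwy : w ≠ y)
    (hwz : w ≠ z) : S.Adj y w ∨ S.Adj z w := by
  by_contra hcon
  push Not at hcon
  obtain ⟨h1, h2⟩ := hcon
  refine hS.false ⟨⟨![x, y, z, w], ?_⟩, ?_⟩
  · intro a b hab
    have e1 := hxy.ne
    have e2 := hxz.ne
    have e3 := hyz.ne
    have e4 := hw.ne
    fin_cases a <;> fin_cases b <;> simp_all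
  · intro a b
    change S.Adj (![x, y, z, w] a) (![x, y, z, w] b) ↔ paw.Adj a b
    have h1' : ¬ S.Adj w y := fun h => h1 h.symm
    have h2' : ¬ S.Adj w z := fun h => h2 h.symm
    fin_cases a <;> fin_cases b <;>
      simp [paw, hxy, hxz, hyz, hw, h1, h2, hxy.symm, hxz.symm, hyz.symm, hw.symm, h1', h2']

/-- The vertex `b` lies in a triangle. -/
def InTri {V : Type u} (S : SimpleGraph V) (b : V) : Prop :=
  ∃ x y, S.Adj b x ∧ S.Adj b y ∧ S.Adj x y

theorem edge_tri {V : Type u} (S : SimpleGraph V) (hS : IsEmpty (paw ↪g S)) {a b : V}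
    (hb : InTri S b) (hab : S.Adj a b) : ∃ x, S.Adj a x ∧ S.Adj b x := by
  obtain ⟨x, y, hbx, hby, hxy⟩ := hb
  by_cases hax : a = x
  · exact ⟨y, hax ▸ hxy, hby⟩
  by_cases hay : a = y
  · exact ⟨x, hay ▸ hxy.symm, hbx⟩
  rcases paw_step S hS hbx hby hxy hab.symm hax hay with h | h
  · exact ⟨x, h.symm, hbx⟩
  · exact ⟨y, h.symm, hby⟩

/-- In a graph without induced paw, let `a b c d` be a path whose inner vertices lie in triangles,
with `a, c` and `b, d` nonadjacent. Then `a` and `d` are adjacent. -/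
theorem path_closes {V : Type u} (S : SimpleGraph V) (hS : IsEmpty (paw ↪g S)) {a b c d : V}
    (hb : InTri S b) (hab : S.Adj a b) (hbc : S.Adj b c) (hcd : S.Adj c d)
    (hac : ¬ S.Adj a c) (hbd : ¬ S.Adj b d) : S.Adj a d := by
  obtain ⟨x, hax, hbx⟩ := edge_tri S hS hb hab
  by_cases hac' : c = a
  · rw [← hac']; exact hcd
  have hcx' : c ≠ x := by
    rintro rfl
    exact hac hax
  -- triangle `b a x` and the neighbour `c` of `b`
  have hcx : S.Adj x c := by
    rcases paw_step S hS hab.symm hbx hax hbc hac' hcx' with h | h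
    · exact absurd h hac
    · exact h
  by_cases hdb : d = b
  · rw [hdb]; exact hab
  have hdx : d ≠ x := by
    rintro rfl
    exact hbd hbx
  -- triangle `c b x` and the neighbour `d` of `c`
  have hxd : S.Adj x d := by
    rcases paw_step S hS hbc.symm hcx.symm hbx hcd hdb hdx with h | h
    · exact absurd h hbd
    · exact h
  by_cases hda : d = a
  · subst hda
    exact absurd hcd.symm hac
  -- triangle `x a b` and the neighbour `d` of `x`
  rcases paw_step S hS hax.symm hbx.symm hab hxd hda hdb with h | h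
  · exact h
  · exact absurd h hbd

/-- The shift graph has no triangle. -/
theorem shift_triangle_free (N : ℕ) (p q r : Fin N × Fin N) (h1 : (shift N).Adj p q)
    (h2 : (shift N).Adj q r) : ¬ (shift N).Adj p r := by
  intro h3
  obtain ⟨a1, a2, a3⟩ := h1
  obtain ⟨b1, b2, b3⟩ := h2
  obtain ⟨c1, c2, c3⟩ := h3
  obtain ⟨p1, p2⟩ := p
  obtain ⟨q1, q2⟩ := q
  obtain ⟨r1, r2⟩ := r
  simp only [Fin.ext_iff, Fin.lt_def] at *
  omega

/-- The shift graph on the pairs of `2 ^ m + 1` points is not `m`-colourable. -/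
theorem shift_not_colorable (m : ℕ) (κ : Type) [Fintype κ] (hκ : Fintype.card κ ≤ m)
    (c : Fin (2 ^ m + 1) × Fin (2 ^ m + 1) → κ)
    (hc : ∀ p q, (shift (2 ^ m + 1)).Adj p q → c p ≠ c q) : False := by
  classical
  let A : Fin (2 ^ m + 1) → Finset κ := fun i =>
    (Finset.univ.filter fun j => i < j).image fun j => c (i, j)
  have hlt : ∀ i j, i < j → A i ≠ A j := by
    intro i j hij he
    have h1 : c (i, j) ∈ A i := by
      simp only [A, Finset.mem_image, Finset.mem_filter, Finset.mem_univ, true_and]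
      exact ⟨j, hij, rfl⟩
    rw [he] at h1
    simp only [A, Finset.mem_image, Finset.mem_filter, Finset.mem_univ, true_and] at h1
    obtain ⟨l, hl, hcl⟩ := h1
    exact hc (i, j) (j, l) ⟨hij, hl, Or.inl rfl⟩ hcl.symm
  have hinj : Function.Injective A := by
    intro i j he
    rcases lt_trichotomy i j with h | h | h
    · exact absurd he (hlt i j h)
    · exact h
    · exact absurd he.symm (hlt j i h)
  have := Fintype.card_le_of_injective A hinj
  rw [Fintype.card_fin, Fintype.card_finset] at this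
  have h2 : 2 ^ Fintype.card κ ≤ 2 ^ m := Nat.pow_le_pow_right (by norm_num) hκ
  omega

/-- The paw embeds into `host k` for `k ≥ 1`. -/
theorem paw_host (k : ℕ) (hk : 1 ≤ k) : Nonempty (paw ↪g host k) := by
  have h3 : 2 < 2 * k + 1 := by omega
  have z : Fin (2 ^ (2 * k) + 1) := 0
  have e01 : (⟨0, by omega⟩ : Fin (2 * k + 1)) ≠ ⟨1, by omega⟩ := by
    intro h; simp at h
  have e10 : (⟨1, by omega⟩ : Fin (2 * k + 1)) ≠ ⟨0, by omega⟩ := e01.symm
  refine ⟨⟨⟨![none, some (Sum.inl ⟨0, by omega⟩), some (Sum.inl ⟨1, by omega⟩),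
    some (Sum.inr (z, z))], ?_⟩, ?_⟩⟩
  · intro a b hab
    fin_cases a <;> fin_cases b <;> simp_all
  · intro a b
    change (host k).Adj (![none, some (Sum.inl ⟨0, by omega⟩), some (Sum.inl ⟨1, by omega⟩),
      some (Sum.inr (z, z))] a) (![none, some (Sum.inl ⟨0, by omega⟩),
      some (Sum.inl ⟨1, by omega⟩), some (Sum.inr (z, z))] b) ↔ paw.Adj a b
    fin_cases a <;> fin_cases b <;> simp [paw, host, shift]

/-- **Merging.** Let `c` be a paw-free colouring of `H` with `m` colours. The first `j ≤ k` colour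
classes can be rearranged into two classes such that a colouring without `host k` results. -/
theorem merge (k j m : ℕ) (hk : 1 ≤ k) (hjk : j ≤ k) (hjm : j ≤ m) {W : Type w}
    (H : SimpleGraph W) (c : W → Fin m) (hc : IsFreeColoring H paw c) :
    ∃ c' : W → Fin (m - j + 2), IsFreeColoring H (host k) c' := by
  classical
  let tri : W → Prop := fun w => ∃ x y, c x = c w ∧ c y = c w ∧ H.Adj w x ∧ H.Adj w y ∧ H.Adj x y
  let c' : W → Fin (m - j + 2) := fun w =>
    if h : (c w : ℕ) < j then (if tri w then ⟨1, by omega⟩ else ⟨0, by omega⟩)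
    else ⟨(c w : ℕ) - j + 2, by have := (c w).2; omega⟩
  have hc' : ∀ w, ((c w : ℕ) < j ∧ tri w ∧ (c' w : ℕ) = 1) ∨
      ((c w : ℕ) < j ∧ ¬ tri w ∧ (c' w : ℕ) = 0) ∨
      (j ≤ (c w : ℕ) ∧ (c' w : ℕ) = (c w : ℕ) - j + 2) := by
    intro w
    by_cases h : (c w : ℕ) < j
    · by_cases ht : tri w
      · refine Or.inl ⟨h, ht, ?_⟩
        simp only [c', dif_pos h, if_pos ht]
      · refine Or.inr (Or.inl ⟨h, ht, ?_⟩)
        simp only [c', dif_pos h, if_neg ht]
    · right; right
      simp only [c', dif_neg h, and_true]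
      omega
  refine ⟨c', ?_⟩
  intro i
  refine ⟨fun f => ?_⟩
  have fadj : ∀ x y, H.Adj (f x).1 (f y).1 ↔ (host k).Adj x y := fun x y => f.map_adj_iff
  have fi : ∀ x, c' (f x).1 = i := fun x => (f x).2
  have finj : ∀ x y, (f x).1 = (f y).1 → x = y := fun x y h => f.injective (Subtype.ext h)
  rcases Nat.lt_trichotomy (i : ℕ) 1 with hi | hi | hi
  · -- the class `0`: three vertices of the complete graph have the same old colour
    have h0 : ∀ x, (c (f x).1 : ℕ) < j ∧ ¬ tri (f x).1 := by
      intro x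
      have := congrArg Fin.val (fi x)
      rcases hc' (f x).1 with ⟨h1, h2, h3⟩ | ⟨h1, h2, h3⟩ | ⟨h1, h3⟩
      · omega
      · exact ⟨h1, h2⟩
      · omega
    let g : Fin (2 * k + 1) → Fin j := fun a => ⟨c (f (some (Sum.inl a))).1, (h0 _).1⟩
    obtain ⟨y, hy⟩ := Fintype.exists_lt_card_fiber_of_mul_lt_card (n := 2) g (by
      simp only [Fintype.card_fin]; omega)
    obtain ⟨a, b, d, ha, hb, hd, hab, had, hbd⟩ := Finset.two_lt_card_iff.1 hy
    simp only [Finset.mem_filter, Finset.mem_univ, true_and] at ha hb hd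
    have gv : ∀ a b, g a = g b → c (f (some (Sum.inl a))).1 = c (f (some (Sum.inl b))).1 := by
      intro a b h
      have := congrArg Fin.val h
      exact Fin.ext this
    refine (h0 (some (Sum.inl a))).2 ⟨(f (some (Sum.inl b))).1, (f (some (Sum.inl d))).1,
      gv _ _ (hb.trans ha.symm), gv _ _ (hd.trans ha.symm), (fadj _ _).2 hab, (fadj _ _).2 had,
      (fadj _ _).2 hbd⟩
  · -- the class `1`: the shift graph would be `2 k`-colourable
    have h1 : ∀ x, (c (f x).1 : ℕ) < j ∧ tri (f x).1 := by
      intro x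
      have := congrArg Fin.val (fi x)
      rcases hc' (f x).1 with ⟨h1, h2, h3⟩ | ⟨h1, h2, h3⟩ | ⟨h1, h3⟩
      · exact ⟨h1, h2⟩
      · omega
      · omega
    let t : Fin (2 ^ (2 * k) + 1) × Fin (2 ^ (2 * k) + 1) → W := fun p => (f (some (Sum.inr p))).1
    have tadj : ∀ p q, H.Adj (t p) (t q) ↔ (shift (2 ^ (2 * k) + 1)).Adj p q :=
      fun p q => fadj _ _
    let T : SimpleGraph (Fin (2 ^ (2 * k) + 1) × Fin (2 ^ (2 * k) + 1)) :=
      { Adj := fun p q => H.Adj (t p) (t q) ∧ c (t p) = c (t q)
        symm := ⟨fun p q h => ⟨h.1.symm, h.2.symm⟩⟩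
        loopless := ⟨fun p h => h.1.ne rfl⟩ }
    have no3 : ∀ p q r, H.Adj (t p) (t q) → H.Adj (t q) (t r) → ¬ H.Adj (t p) (t r) := by
      intro p q r h1 h2 h3
      exact shift_triangle_free _ p q r ((tadj _ _).1 h1) ((tadj _ _).1 h2) ((tadj _ _).1 h3)
    obtain ⟨s, hs⟩ := two_colorable T
      (fun a b d hab hbd had => no3 a b d hab.1 hbd.1 had.1) (by
        intro p q r s hpq hqr hrs
        have ep : c (t p) = c (t q) := hpq.2
        have er : c (t r) = c (t q) := hqr.2.symm
        have es : c (t s) = c (t q) := hrs.2.symm.trans er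
        refine ⟨?_, ep.trans es.symm⟩
        have := path_closes (H.induce {v | c v = c (t q)}) (hc (c (t q)))
          (a := ⟨t p, ep⟩) (b := ⟨t q, rfl⟩) (c := ⟨t r, er⟩) (d := ⟨t s, es⟩)
          (by
            obtain ⟨x, y, hx, hy, hqx, hqy, hxy⟩ := (h1 (some (Sum.inr q))).2
            exact ⟨⟨x, hx⟩, ⟨y, hy⟩, hqx, hqy, hxy⟩)
          hpq.1 hqr.1 hrs.1 (fun h => no3 p q r hpq.1 hqr.1 h)
          (fun h => no3 q r s hqr.1 hrs.1 h)
        exact this)
    refine shift_not_colorable (2 * k) (Fin j × Fin 2) (by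
        simp only [Fintype.card_prod, Fintype.card_fin]; omega)
      (fun p => (⟨c (t p), (h1 (some (Sum.inr p))).1⟩, s p)) ?_
    intro p q hpq he
    rw [Prod.mk.injEq] at he
    have hcc : c (t p) = c (t q) := Fin.ext (by simpa using he.1)
    exact hs p q ⟨(tadj _ _).2 hpq, hcc⟩ he.2
  · -- the other classes are old classes
    obtain ⟨e⟩ := paw_host k hk
    have hcol : ∀ x, (c (f x).1 : ℕ) = (i : ℕ) + j - 2 := by
      intro x
      have := congrArg Fin.val (fi x)
      rcases hc' (f x).1 with ⟨h1, h2, h3⟩ | ⟨h1, h2, h3⟩ | ⟨h1, h3⟩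
      · omega
      · omega
      · omega
    have hlt : (i : ℕ) + j - 2 < m := by
      rw [← hcol none]; exact (c (f none).1).2
    refine (hc ⟨(i : ℕ) + j - 2, hlt⟩).false ⟨⟨fun a => ⟨(f (e a)).1, Fin.ext (hcol _)⟩, ?_⟩, ?_⟩
    · intro a b hab
      have := congrArg Subtype.val hab
      exact e.injective (finj _ _ this)
    · intro a b
      exact (fadj _ _).trans e.map_adj_iff

/-- A paw-free colouring has no colour class with an induced `host k`. -/
theorem free_host_of_free_paw (k : ℕ) (hk : 1 ≤ k) {W : Type w} {κ : Type x} (H : SimpleGraph W)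
    (c : W → κ) (hc : IsFreeColoring H paw c) : IsFreeColoring H (host k) c := by
  obtain ⟨e⟩ := paw_host k hk
  intro i
  exact ⟨fun f => (hc i).false (e.trans f)⟩

/-- A free colouring needs at least two colours if the forbidden graph is contained. -/
theorem two_le_of_contains {W : Type w} {U : Type u} [Nonempty U] (H : SimpleGraph W)
    (F : SimpleGraph U) (f : F ↪g H) (n : ℕ) (c : W → Fin n) (hc : IsFreeColoring H F c) :
    2 ≤ n := by
  by_contra hn
  have a : U := Classical.arbitrary U
  have h0 := (c (f a)).2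
  have h1 : ∀ w, c w = c (f a) := by
    intro w
    have := (c w).2
    exact Fin.ext (by omega)
  refine (hc (c (f a))).false ⟨⟨fun x => ⟨f x, h1 _⟩, ?_⟩, ?_⟩
  · intro x y hxy
    exact f.injective (congrArg Subtype.val hxy)
  · intro x y
    exact f.map_adj_iff

/-- The colouring of `host k` with the classes `{none}` and the rest is paw-free. -/
theorem host_split (k : ℕ) :
    IsFreeColoring (host k) paw (fun x => if x = none then (0 : Fin 2) else 1) := by
  intro i
  refine ⟨fun f => ?_⟩
  have fadj : ∀ x y, (host k).Adj (f x).1 (f y).1 ↔ paw.Adj x y := fun x y => f.map_adj_iff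
  have fi : ∀ x, (if (f x).1 = none then (0 : Fin 2) else 1) = i := fun x => (f x).2
  have a01 : (host k).Adj (f 0).1 (f 1).1 := (fadj 0 1).2 (by simp [paw])
  have a02 : (host k).Adj (f 0).1 (f 2).1 := (fadj 0 2).2 (by simp [paw])
  have a12 : (host k).Adj (f 1).1 (f 2).1 := (fadj 1 2).2 (by simp [paw])
  have a03 : (host k).Adj (f 0).1 (f 3).1 := (fadj 0 3).2 (by simp [paw])
  have n13 : ¬ (host k).Adj (f 1).1 (f 3).1 := fun h => by
    have := (fadj 1 3).1 h
    simp [paw] at this
  have ne13 : (f 1).1 ≠ (f 3).1 := by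
    intro h
    have := f.injective (Subtype.ext h)
    simp at this
  have i0 := fi 0
  have i1 := fi 1
  have i2 := fi 2
  have i3 := fi 3
  generalize (f 0).1 = w0 at *
  generalize (f 1).1 = w1 at *
  generalize (f 2).1 = w2 at *
  generalize (f 3).1 = w3 at *
  rcases w0 with _ | w0 | w0 <;> rcases w1 with _ | w1 | w1 <;> rcases w2 with _ | w2 | w2 <;>
    rcases w3 with _ | w3 | w3 <;>
    first
    | exact a01
    | exact a02
    | exact a12
    | exact a03
    | (exfalso; subst i0; simp at i1; done)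
    | (exfalso; subst i0; simp at i2; done)
    | (exfalso; subst i0; simp at i3; done)
    | exact shift_triangle_free _ _ _ _ a01 a12 a02
    | exact n13 (fun h => ne13 (by rw [h]))

/-- `host k` is connected. -/
theorem host_connected (k : ℕ) : (host k).Connected := by
  have h : ∀ x, (host k).Reachable none x := by
    intro x
    rcases x with _ | x
    · exact SimpleGraph.Reachable.refl _
    · exact SimpleGraph.Adj.reachable (by cases x <;> trivial)
  have : Nonempty (Option (Fin (2 * k + 1) ⊕ (Fin (2 ^ (2 * k) + 1) × Fin (2 ^ (2 * k) + 1)))) :=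
    ⟨none⟩
  exact ⟨fun x y => (h x).symm.trans (h y)⟩

/-- `χ(host k : -paw) = 2`. -/
theorem host_paw (k : ℕ) (hk : 1 ≤ k) : FreeChromaticNumberEq (host k) paw 2 := by
  refine ⟨⟨_, host_split k⟩, ?_⟩
  rintro n ⟨c, hc⟩
  obtain ⟨e⟩ := paw_host k hk
  exact two_le_of_contains _ _ e n c hc

/-- `χ(host k : -host k) = 2`. -/
theorem host_host (k : ℕ) (hk : 1 ≤ k) : FreeChromaticNumberEq (host k) (host k) 2 := by
  refine ⟨⟨_, free_host_of_free_paw k hk _ _ (host_split k)⟩, ?_⟩
  rintro n ⟨c, hc⟩
  exact two_le_of_contains _ _ (SimpleGraph.Embedding.refl) n c hc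

/-- `χ(paw : -host k) = 1` for `k ≥ 2`. -/
theorem paw_free_host (k : ℕ) (hk : 2 ≤ k) : FreeChromaticNumberEq paw (host k) 1 := by
  refine ⟨⟨fun _ => 0, ?_⟩, ?_⟩
  · intro i
    refine ⟨fun f => ?_⟩
    have := Fintype.card_le_of_injective (fun a : Fin (2 * k + 1) => (f (some (Sum.inl a))).1) (by
      intro a b hab
      have := f.injective (Subtype.ext hab)
      simpa using this)
    simp only [Fintype.card_fin] at this
    omega
  · rintro n ⟨c, hc⟩
    have := (c 0).2
    omega

/-- If `χ(H : -paw) = n ≥ 3` and `k ≥ 3`, then `host k` is avoided with fewer than `n` colours. -/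
theorem fewer (k n : ℕ) (hk : 3 ≤ k) (hn : 3 ≤ n) {W : Type w} (H : SimpleGraph W)
    (h : FreeChromaticNumberEq H paw n) : ∃ c : W → Fin (n - 1), IsFreeColoring H (host k) c := by
  obtain ⟨c, hc⟩ := h.1
  obtain ⟨c', hc'⟩ := merge k 3 n (by omega) hk hn H c hc
  have e : n - 3 + 2 = n - 1 := by omega
  rw [← e]
  exact ⟨c', hc'⟩

theorem not_related (k n : ℕ) (hk : 3 ≤ k) (hn : 3 ≤ n) {W : Type w} (H : SimpleGraph W) :
    ¬ (FreeChromaticNumberEq H paw n ∧ FreeChromaticNumberEq H (host k) n) := by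
  rintro ⟨h1, h2⟩
  have := h2.2 (fewer k n hk hn H h1)
  omega

/-- A graph with a paw-free colouring with at most `k` colours has a colouring with two colours
without `host k`. -/
theorem at_most_two (k m : ℕ) (hk : 1 ≤ k) (hm : m ≤ k) {W : Type w} (H : SimpleGraph W)
    (c : W → Fin m) (hc : IsFreeColoring H paw c) :
    ∃ c : W → Fin 2, IsFreeColoring H (host k) c := by
  have key : ∀ r, r = m - m + 2 → ∃ c : W → Fin r, IsFreeColoring H (host k) c := by
    rintro r rfl
    exact merge k m m hk hm le_rfl H c hc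
  exact key 2 (by omega)

end Pool.Agent.Q128.Paw
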