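import Pool.Agent.Q128.CochBase
import Pool.Agent.Q128.PawMain

/-!
# The graph of clique number 4 with chromatic gap three
-/

namespace Pool.Agent.Q128.Coch

open Finset

/-- A triangle-free graph with chromatic number exactly `b`. -/
theorem exists_Y (b : ℕ) (hb : 1 ≤ b) : ∃ (X : Type) (_ : Fintype X) (_ : Nonempty X)
    (Y : SimpleGraph X), (∀ x y z, Y.Adj x y → Y.Adj y z → ¬ Y.Adj x z) ∧ Y.Colorable b ∧
      ¬ Y.Colorable (b - 1) := by
  classical
  let W := Fin (2 ^ (b - 1) + 1) × Fin (2 ^ (b - 1) + 1)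
  let S : SimpleGraph W := Pool.Agent.Q128.Paw.shift _
  have hS : ¬ (S.induce Set.univ).Colorable (b - 1) := by
    rintro ⟨c⟩
    exact Pool.Agent.Q128.Paw.shift_not_colorable (b - 1) (Fin (b - 1)) (by simp)
      (fun p => c ⟨p, Set.mem_univ _⟩) (fun p q h => c.valid h)
  obtain ⟨A, hA⟩ := (Set.toFinite {A : Set W | ¬ (S.induce A).Colorable (b - 1)}).exists_minimal
    ⟨Set.univ, hS⟩
  have hA1 : ¬ (S.induce A).Colorable (b - 1) := hA.prop
  have hne : A.Nonempty := by
    by_contra hcon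
    rw [Set.not_nonempty_iff_eq_empty] at hcon
    subst hcon
    exact hA1 ⟨⟨fun x => x.2.elim, fun {x} _ => x.2.elim⟩⟩
  obtain ⟨s, hs⟩ := hne
  have h2 : (S.induce (A \ {s})).Colorable (b - 1) := by
    by_contra hcon
    have h3 : A ⊆ A \ {s} := hA.le_of_le (y := A \ {s}) hcon Set.sdiff_subset
    exact (h3 hs).2 rfl
  refine ⟨A, inferInstance, ⟨⟨s, hs⟩⟩, S.induce A, ?_, ?_, hA1⟩
  · intro x y z h1 h2 h3
    exact Pool.Agent.Q128.Paw.shift_triangle_free _ _ _ _ h1 h2 h3
  · obtain ⟨c⟩ := h2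
    have e : b - 1 + 1 = b := by omega
    rw [← e]
    refine ⟨SimpleGraph.Coloring.mk (fun x : A => if h : x.1 = s then Fin.last (b - 1) else
      (c ⟨x.1, x.2, h⟩).castSucc) ?_⟩
    intro x y hxy heq
    by_cases hx : x.1 = s <;> by_cases hy : y.1 = s
    · exact hxy.ne (Subtype.ext (hx.trans hy.symm))
    · simp only [hx, hy, dif_pos, dif_neg, not_false_eq_true] at heq
      exact (Fin.castSucc_lt_last _).ne heq.symm
    · simp only [hx, hy, dif_pos, dif_neg, not_false_eq_true] at heq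
      exact (Fin.castSucc_lt_last _).ne heq
    · simp only [hx, hy, dif_neg, not_false_eq_true] at heq
      exact c.valid (v := ⟨x.1, x.2, hx⟩) (w := ⟨y.1, y.2, hy⟩) hxy (Fin.castSucc_injective _ heq)

/-- The base graph and an outer graph `D`; the vertex `d` of `D` is adjacent to the vertices
of `τ d`. -/
def glue {Z : Type} (D : SimpleGraph Z) (τ : Z → Finset (Fin 12)) : SimpleGraph (Fin 12 ⊕ Z) where
  Adj u v := match u, v with
    | Sum.inl x, Sum.inl y => B.Adj x y
    | Sum.inl x, Sum.inr d => x ∈ τ d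
    | Sum.inr d, Sum.inl x => x ∈ τ d
    | Sum.inr d, Sum.inr d' => D.Adj d d'
  symm := ⟨fun u v h => by
    rcases u with u | u <;> rcases v with v | v
    · exact B.symm.symm _ _ h
    · exact h
    · exact h
    · exact D.symm.symm _ _ h⟩
  loopless := ⟨fun u h => by
    rcases u with u | u
    · exact B.loopless.irrefl _ h
    · exact D.loopless.irrefl _ h⟩

theorem glue_cliqueFree {Z : Type} (D : SimpleGraph Z) (τ : Z → Finset (Fin 12))
    (h1 : ∀ d, K4Free (τ d)) (h2 : ∀ d d', D.Adj d d' → TriFree (τ d ∩ τ d'))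
    (h3 : ∀ x y z, D.Adj x y → D.Adj y z → ¬ D.Adj x z) : (glue D τ).CliqueFree 5 := by
  classical
  intro S hS
  obtain ⟨hcl, hcard⟩ := hS
  have hsum := S.card_toLeft_add_card_toRight
  rw [hcard] at hsum
  have hL : B.IsClique (S.toLeft : Set (Fin 12)) := by
    intro x hx y hy hxy
    rw [Finset.mem_coe, Finset.mem_toLeft] at hx hy
    exact hcl hx hy (fun h => hxy (Sum.inl_injective h))
  have hR : ∀ d ∈ S.toRight, ∀ d' ∈ S.toRight, d ≠ d' → D.Adj d d' := by
    intro x hx y hy hxy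
    rw [Finset.mem_toRight] at hx hy
    exact hcl hx hy (fun h => hxy (Sum.inr_injective h))
  have hLR : ∀ d ∈ S.toRight, S.toLeft ⊆ τ d := by
    intro d hd x hx
    rw [Finset.mem_toLeft] at hx
    rw [Finset.mem_toRight] at hd
    exact hcl hx hd (by simp)
  have hR2 : S.toRight.card ≤ 2 := by
    by_contra hcon
    push Not at hcon
    obtain ⟨a, b, c, ha, hb, hc, hab, hac, hbc⟩ := Finset.two_lt_card_iff.1 hcon
    exact h3 a b c (hR a ha b hb hab) (hR b hb c hc hbc) (hR a ha c hc hac)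
  have hcases : S.toRight.card = 0 ∨ S.toRight.card = 1 ∨ S.toRight.card = 2 := by omega
  rcases hcases with h | h | h
  · exact b_cliqueFree S.toLeft ⟨hL, by omega⟩
  · obtain ⟨d, hd⟩ := Finset.card_eq_one.1 h
    exact h1 d (Finset.coe_subset.2 (hLR d (by rw [hd]; simp))) ⟨hL, by omega⟩
  · obtain ⟨d, d', hdd, hd⟩ := Finset.card_eq_two.1 h
    refine h2 d d' (hR d (by rw [hd]; simp) d' (by rw [hd]; simp) hdd)
      (t := S.toLeft) ?_ ⟨hL, by omega⟩
    rw [Finset.coe_subset]
    exact Finset.subset_inter (hLR d (by rw [hd]; simp)) (hLR d' (by rw [hd]; simp))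

/-- Types of vertices in the copies of `Y`. -/
abbrev Ty := {T : Finset (Fin 12) // TriFree T}

/-- Types of gadgets. -/
abbrev Tr := {q : Finset (Fin 12) × Finset (Fin 12) × Finset (Fin 12) //
  TriFree q.1 ∧ K4Free q.2.1 ∧ K4Free q.2.2 ∧ TriFree (q.2.1 ∩ q.2.2)}

/-- Slots of a gadget. -/
abbrev Sl (b : ℕ) := Fin (b - 1) ⊕ Fin (b - 2)

/-- Gadgets. -/
abbrev Gad (b L : ℕ) (X : Type) := Tr × (Sl b ↪ Fin L) × (Sl b → X)

/-- Outer vertices. -/
abbrev DV (b L : ℕ) (X : Type) := (Ty × Fin L × X) ⊕ (Gad b L X × Bool)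

/-- The side of a slot. -/
def side {b : ℕ} : Sl b → Bool := Sum.elim (fun _ => true) (fun _ => false)

/-- The attached outer graph. -/
def outer (b L : ℕ) {X : Type} (Y : SimpleGraph X) : SimpleGraph (DV b L X) where
  Adj u v := match u, v with
    | Sum.inl a, Sum.inl a' => a.1 = a'.1 ∧ a.2.1 = a'.2.1 ∧ Y.Adj a.2.2 a'.2.2
    | Sum.inl a, Sum.inr g => a.1.1 = g.1.1.1.1 ∧
        ∃ s : Sl b, side s = g.2 ∧ g.1.2.1 s = a.2.1 ∧ g.1.2.2 s = a.2.2
    | Sum.inr g, Sum.inl a => a.1.1 = g.1.1.1.1 ∧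
        ∃ s : Sl b, side s = g.2 ∧ g.1.2.1 s = a.2.1 ∧ g.1.2.2 s = a.2.2
    | Sum.inr g, Sum.inr g' => g.1 = g'.1 ∧ g.2 ≠ g'.2
  symm := ⟨fun u v h => by
    rcases u with u | u <;> rcases v with v | v
    · exact ⟨h.1.symm, h.2.1.symm, h.2.2.symm⟩
    · exact h
    · exact h
    · exact ⟨h.1.symm, h.2.symm⟩⟩
  loopless := ⟨fun u h => by
    rcases u with u | u
    · exact Y.loopless.irrefl _ h.2.2
    · exact h.2 rfl⟩

/-- The neighbours of an outer vertex in the base graph. -/
def tau {b L : ℕ} {X : Type} : DV b L X → Finset (Fin 12)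
  | Sum.inl a => a.1.1
  | Sum.inr (g, true) => g.1.1.2.1
  | Sum.inr (g, false) => g.1.1.2.2

theorem outer_triangle {b L : ℕ} {X : Type} {Y : SimpleGraph X}
    (hY : ∀ x y z, Y.Adj x y → Y.Adj y z → ¬ Y.Adj x z) (x y z : DV b L X)
    (h1 : (outer b L Y).Adj x y) (h2 : (outer b L Y).Adj y z) : ¬ (outer b L Y).Adj x z := by
  intro h3
  have key : ∀ (a a' : Ty × Fin L × X) (g : Gad b L X × Bool),
      (outer b L Y).Adj (Sum.inl a) (Sum.inl a') → (outer b L Y).Adj (Sum.inl a) (Sum.inr g) →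
      (outer b L Y).Adj (Sum.inl a') (Sum.inr g) → False := by
    rintro a a' g ⟨e1, e2, e3⟩ ⟨f1, s, f2, f3, f4⟩ ⟨g1, t, g2, g3, g4⟩
    have hst : s = t := g.1.2.1.injective (by rw [f3, g3, e2])
    subst hst
    rw [← f4, ← g4] at e3
    exact Y.loopless.irrefl _ e3
  have key2 : ∀ (a : Ty × Fin L × X) (g g' : Gad b L X × Bool),
      (outer b L Y).Adj (Sum.inl a) (Sum.inr g) → (outer b L Y).Adj (Sum.inl a) (Sum.inr g') →
      (outer b L Y).Adj (Sum.inr g) (Sum.inr g') → False := by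
    rintro a ⟨g, w⟩ ⟨g', w'⟩ ⟨f1, s, f2, f3, f4⟩ ⟨g1, t, g2, g3, g4⟩ ⟨e1, e2⟩
    dsimp only at *
    subst e1
    have hst : s = t := g.2.1.injective (by rw [f3, g3])
    subst hst
    exact e2 (f2.symm.trans g2)
  rcases x with x | x <;> rcases y with y | y <;> rcases z with z | z
  · exact hY _ _ _ h1.2.2 h2.2.2 h3.2.2
  · exact key x y z h1 h3 h2
  · exact key x z y h3 h1 h2.symm
  · exact key2 x y z h1 h3 h2
  · exact key y z x h2 h1.symm h3.symm
  · exact key2 y x z h1.symm h2 h3
  · exact key2 z x y h3.symm h2.symm h1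
  · obtain ⟨-, a⟩ := h1
    obtain ⟨-, a'⟩ := h2
    obtain ⟨-, a''⟩ := h3
    revert a a' a''
    cases x.2 <;> cases y.2 <;> cases z.2 <;> simp

theorem tau_k4 {b L : ℕ} {X : Type} (d : DV b L X) : K4Free (tau d) := by
  rcases d with a | ⟨g, _ | _⟩
  · exact SimpleGraph.CliqueFreeOn.mono B (show 3 ≤ 4 by norm_num) a.1.2
  · exact g.1.2.2.2.1
  · exact g.1.2.2.1

theorem tau_tri {b L : ℕ} {X : Type} {Y : SimpleGraph X} (d d' : DV b L X)
    (h : (outer b L Y).Adj d d') : TriFree (tau d ∩ tau d') := by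
  rcases d with a | ⟨g, w⟩
  · exact SimpleGraph.CliqueFreeOn.subset B (Finset.coe_subset.2 Finset.inter_subset_left) a.1.2
  · rcases d' with a' | ⟨g', w'⟩
    · exact SimpleGraph.CliqueFreeOn.subset B (Finset.coe_subset.2 Finset.inter_subset_right) a'.1.2
    · obtain ⟨e1, e2⟩ := h
      dsimp only at e1 e2
      subst e1
      have h4 := g.1.2.2.2.2
      cases w <;> cases w'
      · exact absurd rfl e2
      · rw [Finset.inter_comm]
        exact h4
      · exact h4
      · exact absurd rfl e2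

/-- The graph. -/
abbrev big (b L : ℕ) {X : Type} (Y : SimpleGraph X) : SimpleGraph (Fin 12 ⊕ DV b L X) :=
  glue (outer b L Y) tau

theorem big_cliqueFree {b L : ℕ} {X : Type} {Y : SimpleGraph X}
    (hY : ∀ x y z, Y.Adj x y → Y.Adj y z → ¬ Y.Adj x z) : (big b L Y).CliqueFree 5 :=
  glue_cliqueFree _ _ tau_k4 tau_tri (outer_triangle hY)

/-- The outer graph is `b`-colourable. -/
theorem outer_colorable {b L : ℕ} (hb : 2 ≤ b) {X : Type} {Y : SimpleGraph X}
    (hY : Y.Colorable b) : (outer b L Y).Colorable b := by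
  classical
  obtain ⟨κ⟩ := hY
  have hα : ∀ g : Gad b L X, ∃ α : Fin b, ∀ i : Fin (b - 1), κ (g.2.2 (Sum.inl i)) ≠ α := by
    intro g
    by_contra hcon
    push Not at hcon
    have := Fintype.card_le_of_surjective (fun i : Fin (b - 1) => κ (g.2.2 (Sum.inl i)))
      (fun α => hcon α)
    simp only [Fintype.card_fin] at this
    omega
  choose α hα using hα
  have hβ : ∀ g : Gad b L X, ∃ β : Fin b, β ≠ α g ∧
      ∀ i : Fin (b - 2), κ (g.2.2 (Sum.inr i)) ≠ β := by
    intro g
    by_contra hcon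
    push Not at hcon
    have := Fintype.card_le_of_surjective
      (fun i : Option (Fin (b - 2)) => i.elim (α g) fun i => κ (g.2.2 (Sum.inr i))) (by
        intro β
        by_cases h : β = α g
        · exact ⟨none, h.symm⟩
        · obtain ⟨i, hi⟩ := hcon β h
          exact ⟨some i, hi⟩)
    simp only [Fintype.card_option, Fintype.card_fin] at this
    omega
  choose β hβ using hβ
  refine ⟨SimpleGraph.Coloring.mk (fun d => match d with
    | Sum.inl a => κ a.2.2
    | Sum.inr g => if g.2 = true then α g.1 else β g.1) ?_⟩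
  have key : ∀ (a : Ty × Fin L × X) (g : Gad b L X × Bool),
      (outer b L Y).Adj (Sum.inl a) (Sum.inr g) →
        κ a.2.2 ≠ if g.2 = true then α g.1 else β g.1 := by
    rintro a ⟨g, w⟩ ⟨f1, s, f2, f3, f4⟩
    dsimp only at *
    rcases s with s | s
    · have : w = true := f2.symm
      rw [if_pos this, ← f4]
      exact hα g s
    · have : ¬ w = true := by
        rw [← f2]
        simp [side]
      rw [if_neg this, ← f4]
      exact (hβ g).2 s
  intro u v huv
  rcases u with u | u <;> rcases v with v | v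
  · exact κ.valid huv.2.2
  · exact key u v huv
  · exact (key v u huv.symm).symm
  · obtain ⟨e1, e2⟩ := huv
    obtain ⟨g, w⟩ := u
    obtain ⟨g', w'⟩ := v
    dsimp only at *
    subst e1
    cases w <;> cases w'
    · exact absurd rfl e2
    · simpa using (hβ g).1
    · simpa using (hβ g).1.symm
    · exact absurd rfl e2

/-- Upper bound for the chromatic number. -/
theorem big_colorable {b L : ℕ} (hb : 2 ≤ b) {X : Type} {Y : SimpleGraph X}
    (hY : Y.Colorable b) : (big b L Y).Colorable (b + 6) := by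
  obtain ⟨κ⟩ := outer_colorable (L := L) hb hY
  have hB : B.Colorable 6 := by
    refine ⟨SimpleGraph.Coloring.mk (![0, 1, 2, 3, 0, 1, 4, 5, 2, 3, 4, 5] : Fin 12 → Fin 6) ?_⟩
    decide +kernel
  obtain ⟨β⟩ := hB
  refine ⟨SimpleGraph.Coloring.mk (Sum.elim (fun x => Fin.natAdd b (β x))
    (fun d => Fin.castAdd 6 (κ d))) ?_⟩
  intro u v huv
  rcases u with u | u <;> rcases v with v | v
  · intro h
    exact β.valid huv (by simpa [Fin.ext_iff] using h)
  · intro h
    simp only [Sum.elim_inl, Sum.elim_inr, Fin.ext_iff, Fin.val_natAdd, Fin.val_castAdd] at h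
    have := (κ v).2
    omega
  · intro h
    simp only [Sum.elim_inl, Sum.elim_inr, Fin.ext_iff, Fin.val_natAdd, Fin.val_castAdd] at h
    have := (κ u).2
    omega
  · intro h
    exact κ.valid huv (by simpa [Fin.ext_iff] using h)

/-- Upper bound for the cochromatic number. -/
theorem big_coch {b L : ℕ} (hb : 2 ≤ b) {X : Type} {Y : SimpleGraph X}
    (hY : Y.Colorable b) : CochColorable (big b L Y) (b + 3) := by
  obtain ⟨κ⟩ := outer_colorable (L := L) hb hY
  let β : Fin 12 → Fin 3 := ![0, 0, 0, 0, 1, 1, 1, 1, 2, 2, 2, 2]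
  have hβ : ∀ x y : Fin 12, β x = β y → x ≠ y → B.Adj x y := by
    decide +kernel
  refine ⟨Sum.elim (fun x => Fin.natAdd b (β x)) (fun d => Fin.castAdd 3 (κ d)), ?_⟩
  intro i
  by_cases hi : (i : ℕ) < b
  · right
    intro u hu v hv huv
    rw [Set.mem_ofPred_eq] at hu hv
    rcases u with u | u <;> rcases v with v | v
    · exfalso
      rw [← hu] at hi
      simp only [Sum.elim_inl, Fin.val_natAdd] at hi
      omega
    · exfalso
      rw [← hu] at hi
      simp only [Sum.elim_inl, Fin.val_natAdd] at hi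
      omega
    · exfalso
      rw [← hv] at hi
      simp only [Sum.elim_inl, Fin.val_natAdd] at hi
      omega
    · intro hadj
      refine κ.valid hadj ?_
      have := hu.trans hv.symm
      simpa [Fin.ext_iff] using this
  · left
    intro u hu v hv huv
    rw [Set.mem_ofPred_eq] at hu hv
    rcases u with u | u <;> rcases v with v | v
    · refine hβ u v ?_ (fun h => huv (by rw [h]))
      have := hu.trans hv.symm
      simpa [Fin.ext_iff] using this
    · exfalso
      rw [← hv] at hi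
      simp only [Sum.elim_inr, Fin.val_castAdd] at hi
      exact hi (κ v).2
    · exfalso
      rw [← hu] at hi
      simp only [Sum.elim_inr, Fin.val_castAdd] at hi
      exact hi (κ u).2
    · exfalso
      rw [← hu] at hi
      simp only [Sum.elim_inr, Fin.val_castAdd] at hi
      exact hi (κ u).2

end Pool.Agent.Q128.Coch
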