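import Pool.Agent.Q128.CochGraph

/-!
# Lower bounds for the chromatic and the cochromatic number
-/

namespace Pool.Agent.Q128.Coch

open Finset

theorem enum {κ : Type} [Inhabited κ] (N : Finset κ) (n : ℕ) (h : N.card ≤ n) :
    ∃ f : Fin n → κ, ∀ a ∈ N, ∃ i, f i = a := by
  classical
  let e := N.equivFin
  refine ⟨fun i => if hi : (i : ℕ) < N.card then (e.symm ⟨i, hi⟩ : κ) else default, ?_⟩
  intro a ha
  refine ⟨⟨(e ⟨a, ha⟩ : ℕ), lt_of_lt_of_le (e ⟨a, ha⟩).2 h⟩, ?_⟩
  have h1 : ((e ⟨a, ha⟩ : Fin N.card) : ℕ) < N.card := (e ⟨a, ha⟩).2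
  simp only [h1, dif_pos, Fin.eta, Equiv.symm_apply_apply]

theorem k4Free_insert {T : Finset (Fin 12)} (hT : TriFree T) (z : Fin 12) :
    K4Free (insert z T) := by
  intro t ht hcl
  by_cases hz : z ∈ t
  · refine hT (t := t.erase z) ?_ ⟨hcl.1.subset (by
      rw [Finset.coe_subset]; exact Finset.erase_subset _ _), by
      rw [Finset.card_erase_of_mem hz, hcl.2]⟩
    rw [Finset.coe_subset] at ht ⊢
    exact Finset.subset_insert_iff.1 ht
  · have h4 : K4Free T := SimpleGraph.CliqueFreeOn.mono B (show 3 ≤ 4 by norm_num) hT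
    refine h4 (t := t) ?_ hcl
    rw [Finset.coe_subset] at ht ⊢
    exact (Finset.subset_insert_iff_of_notMem hz).1 ht

theorem triFree_empty : TriFree ∅ := by
  intro t ht hcl
  rw [Finset.coe_subset, Finset.subset_empty] at ht
  subst ht
  simpa using hcl.2

theorem triFree_pair (x y : Fin 12) : TriFree {x, y} := by
  intro t ht hcl
  rw [Finset.coe_subset] at ht
  have := Finset.card_le_card ht
  have h2 := Finset.card_le_two (a := x) (b := y)
  rw [hcl.2] at this
  omega

/-- At least six colours are used on the base graph. -/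
theorem six_le {κ : Type} [DecidableEq κ] (c : Fin 12 → κ) (hc : ∀ x y, B.Adj x y → c x ≠ c y) :
    6 ≤ (Finset.univ.image c).card := by
  have h := Finset.card_le_mul_card_image (s := (Finset.univ : Finset (Fin 12))) (f := c) 2 (by
    intro a _
    by_contra hcon
    push Not at hcon
    obtain ⟨x, y, z, hx, hy, hz, hxy, hxz, hyz⟩ := Finset.two_lt_card_iff.1 hcon
    simp only [Finset.mem_filter, Finset.mem_univ, true_and] at hx hy hz
    rcases alpha_le x y z hxy hxz hyz with h | h | h
    · exact hc _ _ h (hx.trans hy.symm)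
    · exact hc _ _ h (hx.trans hz.symm)
    · exact hc _ _ h (hy.trans hz.symm))
  simp only [Finset.card_univ, Fintype.card_fin] at h
  omega

/-- A copy of `Y` gets at least `b` colours. -/
theorem copy_colours {b : ℕ} {X κ : Type} [Fintype X] [DecidableEq κ] {Y : SimpleGraph X}
    (hb : 1 ≤ b) (hY : ¬ Y.Colorable (b - 1)) (c : X → κ)
    (hc : ∀ x y, Y.Adj x y → c x ≠ c y) : b ≤ (Finset.univ.image c).card := by
  by_contra hcon
  push Not at hcon
  apply hY
  have h1 : Y.Colorable (Finset.univ.image c).card := by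
    have := (SimpleGraph.Coloring.mk (fun x => (⟨c x, Finset.mem_image_of_mem c (Finset.mem_univ x)⟩ :
      {a // a ∈ Finset.univ.image c})) (by
        intro x y hxy h
        exact hc x y hxy (by simpa using congrArg Subtype.val h)) : Y.Coloring _).colorable
    simpa using this
  exact h1.mono (by omega)

section
variable {b L : ℕ} {X : Type} [Fintype X] [Nonempty X] {Y : SimpleGraph X}

/-- **The chromatic number is more than `b + 5`.** -/
theorem big_not_colorable (hb : 2 ≤ b) (hL : (b + 5) * (2 * b) ≤ L)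
    (hY : ¬ Y.Colorable (b - 1)) : ¬ (big b L Y).Colorable (b + 5) := by
  classical
  rintro ⟨c⟩
  have hL1 : 0 < L := lt_of_lt_of_le (by positivity) hL
  let cB : Fin 12 → Fin (b + 5) := fun x => c (Sum.inl x)
  have hcB : ∀ x y, B.Adj x y → cB x ≠ cB y := fun x y h =>
    c.valid (show (big b L Y).Adj (Sum.inl x) (Sum.inl y) from h)
  let I : Ty → Fin L → Finset (Fin (b + 5)) := fun T l =>
    Finset.univ.image fun y => c (Sum.inr (Sum.inl (T, l, y)))
  have hI : ∀ T l, b ≤ (I T l).card := fun T l =>
    copy_colours (by omega) hY _ (fun x y h =>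
      c.valid (show (big b L Y).Adj (Sum.inr (Sum.inl (T, l, x))) (Sum.inr (Sum.inl (T, l, y))) from
        ⟨rfl, rfl, h⟩))
  have hIA : ∀ (T : Ty) l, I T l ⊆ Finset.univ \ T.1.image cB := by
    intro T l a ha
    simp only [I, Finset.mem_image, Finset.mem_univ, true_and] at ha
    obtain ⟨y, rfl⟩ := ha
    simp only [Finset.mem_sdiff, Finset.mem_univ, true_and, Finset.mem_image, not_exists, not_and]
    intro x hx h
    exact c.valid (show (big b L Y).Adj (Sum.inl x) (Sum.inr (Sum.inl (T, l, y))) from hx) h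
  have hAcard : ∀ T : Finset (Fin 12), (Finset.univ \ T.image cB).card =
      b + 5 - (T.image cB).card := by
    intro T
    rw [Finset.card_sdiff_of_subset (Finset.subset_univ _), Finset.card_univ, Fintype.card_fin]
  have hle : ∀ T : Finset (Fin 12), (T.image cB).card ≤ b + 5 := by
    intro T
    have := Finset.card_le_univ (T.image cB)
    rwa [Fintype.card_fin] at this
  -- a vertex of a given colour in a copy
  have hv : ∀ (T : Ty) (l : Fin L) (a : Fin (b + 5)), ∃ y : X, a ∈ I T l →
      c (Sum.inr (Sum.inl (T, l, y))) = a := by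
    intro T l a
    by_cases ha : a ∈ I T l
    · simp only [I, Finset.mem_image, Finset.mem_univ, true_and] at ha
      obtain ⟨y, hy⟩ := ha
      exact ⟨y, fun _ => hy⟩
    · exact ⟨Classical.arbitrary X, fun h => absurd h ha⟩
  choose v hv using hv
  have hcardSl : Fintype.card (Sl b) ≤ 2 * b := by
    simp only [Fintype.card_sum, Fintype.card_fin]
    omega
  rcases base_lemma cB hcB with ⟨T, hT, h5⟩ | ⟨T, T₁, T₂, hT, hT₁, hT₂, hT₁₂, h4, h6, hTT, hsub⟩
  · -- a triangle-free set with five colours
    have hcA := hAcard T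
    have hI0 := hI ⟨T, hT⟩ ⟨0, hL1⟩
    have h5' : (T.image cB).card = 5 := by
      have h1 := Finset.card_le_card (hIA ⟨T, hT⟩ ⟨0, hL1⟩)
      have h2 := hle T
      simp only at h1
      omega
    have hIall : ∀ l, I ⟨T, hT⟩ l = Finset.univ \ T.image cB := by
      intro l
      refine Finset.eq_of_subset_of_card_le (hIA ⟨T, hT⟩ l) ?_
      have := hI ⟨T, hT⟩ l
      omega
    obtain ⟨z, hz⟩ : ∃ z, cB z ∉ T.image cB := by
      by_contra hcon
      push Not at hcon
      have h1 : Finset.univ.image cB ⊆ T.image cB := by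
        intro a ha
        simp only [Finset.mem_image, Finset.mem_univ, true_and] at ha
        obtain ⟨x, rfl⟩ := ha
        exact hcon x
      have h2 := Finset.card_le_card h1
      have h3 := six_le cB hcB
      omega
    let N := (Finset.univ \ T.image cB).erase (cB z)
    have hN : N.card ≤ b - 1 := by
      simp only [N]
      rw [Finset.card_erase_of_mem (by simpa using hz)]
      omega
    obtain ⟨f, hf⟩ := enum N (b - 1) hN
    obtain ⟨e⟩ : Nonempty (Sl b ↪ Fin L) := by
      refine Function.Embedding.nonempty_of_card_le ?_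
      rw [Fintype.card_fin]
      refine hcardSl.trans (le_trans ?_ hL)
      nlinarith
    let g : Gad b L X := (⟨(T, insert z T, ∅), hT, k4Free_insert hT z,
      (SimpleGraph.CliqueFreeOn.mono B (show 3 ≤ 4 by norm_num) triFree_empty), by
        rw [Finset.inter_empty]; exact triFree_empty⟩, e,
      Sum.elim (fun i => v ⟨T, hT⟩ (e (Sum.inl i)) (f i)) (fun _ => Classical.arbitrary X))
    have hcw1 : ∀ x ∈ insert z T, cB x ≠ c (Sum.inr (Sum.inr (g, true))) := fun x hx =>
      c.valid (show (big b L Y).Adj (Sum.inl x) (Sum.inr (Sum.inr (g, true))) from hx)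
    have hcwN : c (Sum.inr (Sum.inr (g, true))) ∈ N := by
      simp only [N, Finset.mem_erase, Finset.mem_sdiff, Finset.mem_univ, true_and,
        Finset.mem_image, not_exists, not_and]
      exact ⟨(hcw1 z (Finset.mem_insert_self _ _)).symm, fun x hx =>
        hcw1 x (Finset.mem_insert_of_mem hx)⟩
    obtain ⟨i, hi⟩ := hf _ hcwN
    have hmemI : f i ∈ I ⟨T, hT⟩ (e (Sum.inl i)) := by
      rw [hIall, hi]
      exact Finset.mem_of_mem_erase hcwN
    have h1 := hv ⟨T, hT⟩ (e (Sum.inl i)) (f i) hmemI
    have hadj : (big b L Y).Adj (Sum.inr (Sum.inl (⟨T, hT⟩, e (Sum.inl i),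
        v ⟨T, hT⟩ (e (Sum.inl i)) (f i)))) (Sum.inr (Sum.inr (g, true))) :=
      ⟨rfl, Sum.inl i, rfl, rfl, rfl⟩
    exact c.valid hadj (h1.trans hi)
  · -- the second case
    have hcA := hAcard T
    let N := Finset.univ \ T₁.image cB
    have hNcard : N.card ≤ b - 1 := by
      simp only [N]
      rw [hAcard T₁]
      omega
    have hNA : N ⊆ Finset.univ \ T.image cB := Finset.sdiff_subset_sdiff (Finset.Subset.refl _) hsub
    have hmiss : ∀ l, ∃ m, ∀ a ∈ Finset.univ \ T.image cB, a ≠ m → a ∈ I ⟨T, hT⟩ l := by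
      intro l
      have h1 : ((Finset.univ \ T.image cB) \ I ⟨T, hT⟩ l).card ≤ 1 := by
        rw [Finset.card_sdiff_of_subset (hIA ⟨T, hT⟩ l)]
        have := hI ⟨T, hT⟩ l
        change (Finset.univ \ T.image cB).card - (I ⟨T, hT⟩ l).card ≤ 1
        omega
      rw [Finset.card_le_one_iff_subset_singleton] at h1
      obtain ⟨m, hm⟩ := h1
      refine ⟨m, fun a ha ham => ?_⟩
      by_contra hcon
      have := hm (Finset.mem_sdiff.2 ⟨ha, hcon⟩)
      exact ham (Finset.mem_singleton.1 this)
    choose m hm using hmiss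
    obtain ⟨m₀, hm₀⟩ := Fintype.exists_le_card_fiber_of_mul_le_card (n := 2 * b) m (by
      simpa using hL)
    obtain ⟨e'⟩ : Nonempty (Sl b ↪ {l // l ∈ Finset.univ.filter fun l => m l = m₀}) := by
      refine Function.Embedding.nonempty_of_card_le ?_
      rw [Fintype.card_coe]
      exact hcardSl.trans hm₀
    let e : Sl b ↪ Fin L := e'.trans (Function.Embedding.subtype _)
    have he : ∀ s, m (e s) = m₀ := by
      intro s
      have := (e' s).2
      rw [Finset.mem_filter] at this
      exact this.2
    obtain ⟨x, hx1, hx2⟩ : ∃ x, (N.erase x).card ≤ b - 2 ∧ m₀ ∉ N.erase x := by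
      by_cases hmN : m₀ ∈ N
      · refine ⟨m₀, ?_, by simp⟩
        rw [Finset.card_erase_of_mem hmN]
        omega
      · by_cases hne : N.Nonempty
        · obtain ⟨x, hx⟩ := hne
          refine ⟨x, ?_, fun h => hmN (Finset.mem_of_mem_erase h)⟩
          rw [Finset.card_erase_of_mem hx]
          omega
        · rw [Finset.not_nonempty_iff_eq_empty] at hne
          refine ⟨m₀, ?_, by simp⟩
          rw [hne]
          simp
    obtain ⟨f₁, hf₁⟩ := enum (N.erase x) (b - 1) (by omega)
    obtain ⟨f₂, hf₂⟩ := enum (N.erase x) (b - 2) hx1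
    let f : Sl b → Fin (b + 5) := Sum.elim f₁ f₂
    let g : Gad b L X := (⟨(T, T₁, T₂), hT, hT₁, hT₂, hT₁₂⟩, e, fun s => v ⟨T, hT⟩ (e s) (f s))
    have hw : ∀ w, (∀ a ∈ N.erase x, ∃ s : Sl b, side s = w ∧ f s = a) →
        c (Sum.inr (Sum.inr (g, w))) ∈ N → c (Sum.inr (Sum.inr (g, w))) = x := by
      intro w hcov hwN
      by_contra hne
      have h1 : c (Sum.inr (Sum.inr (g, w))) ∈ N.erase x := Finset.mem_erase.2 ⟨hne, hwN⟩
      obtain ⟨s, hs, hfs⟩ := hcov _ h1
      have hmemI : f s ∈ I ⟨T, hT⟩ (e s) := by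
        rw [hfs]
        refine hm _ _ (hNA hwN) ?_
        rw [he]
        intro h
        rw [h] at h1
        exact hx2 h1
      have h2 := hv ⟨T, hT⟩ (e s) (f s) hmemI
      have hadj : (big b L Y).Adj (Sum.inr (Sum.inl (⟨T, hT⟩, e s,
          v ⟨T, hT⟩ (e s) (f s)))) (Sum.inr (Sum.inr (g, w))) :=
        ⟨rfl, s, hs, rfl, rfl⟩
      exact c.valid hadj (h2.trans hfs)
    have h1 : c (Sum.inr (Sum.inr (g, true))) = x := by
      refine hw true ?_ ?_
      · intro a ha
        obtain ⟨i, hi⟩ := hf₁ a ha
        exact ⟨Sum.inl i, rfl, hi⟩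
      · simp only [N, Finset.mem_sdiff, Finset.mem_univ, true_and, Finset.mem_image, not_exists,
          not_and]
        intro y hy
        exact c.valid (show (big b L Y).Adj (Sum.inl y) (Sum.inr (Sum.inr (g, true))) from hy)
    have h2 : c (Sum.inr (Sum.inr (g, false))) = x := by
      refine hw false ?_ ?_
      · intro a ha
        obtain ⟨i, hi⟩ := hf₂ a ha
        exact ⟨Sum.inr i, rfl, hi⟩
      · simp only [N]
        rw [hTT]
        simp only [Finset.mem_sdiff, Finset.mem_univ, true_and, Finset.mem_image, not_exists,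
          not_and]
        intro y hy
        exact c.valid (show (big b L Y).Adj (Sum.inl y) (Sum.inr (Sum.inr (g, false))) from hy)
    have hadj : (big b L Y).Adj (Sum.inr (Sum.inr (g, true))) (Sum.inr (Sum.inr (g, false))) :=
      ⟨rfl, by simp⟩
    exact c.valid hadj (h1.trans h2.symm)

omit [Nonempty X] in
/-- **The cochromatic number is more than `b + 2`.** -/
theorem big_not_coch (hb : 2 ≤ b) (hL : b + 3 ≤ L)
    (hY : ¬ Y.Colorable (b - 1)) : ¬ CochColorable (big b L Y) (b + 2) := by
  classical
  rintro ⟨c, hc⟩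
  let cB : Fin 12 → Fin (b + 2) := fun x => c (Sum.inl x)
  let Q : Finset (Fin (b + 2)) := Finset.univ.filter fun i =>
    (big b L Y).IsIndepSet {v | c v = i}
  let P : Finset (Fin (b + 2)) := Finset.univ \ Q
  have hP : ∀ i ∈ P, (big b L Y).IsClique {v | c v = i} := by
    intro i hi
    simp only [P, Q, Finset.mem_sdiff, Finset.mem_univ, true_and, Finset.mem_filter] at hi
    exact (hc i).resolve_right hi
  have hQ : ∀ i ∈ Q, ∀ u v, c u = i → c v = i → ¬ (big b L Y).Adj u v := by
    intro i hi u v hu hv hadj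
    simp only [Q, Finset.mem_univ, true_and, Finset.mem_filter] at hi
    exact hi hu hv hadj.ne hadj
  have hPQ : P.card + Q.card = b + 2 := by
    simp only [P]
    rw [Finset.card_sdiff_of_subset (Finset.subset_univ _), Finset.card_univ, Fintype.card_fin]
    have := Finset.card_le_univ Q
    rw [Fintype.card_fin] at this
    omega
  -- an untouched copy
  have hun : ∀ T : Ty, ∃ l : Fin L, ∀ y, c (Sum.inr (Sum.inl (T, l, y))) ∈ Q := by
    intro T
    by_contra hcon
    push Not at hcon
    choose y hy using hcon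
    have := Fintype.card_le_of_injective (fun l : Fin L => c (Sum.inr (Sum.inl (T, l, y l)))) (by
      intro l l' h
      by_contra hne
      have h1 := hP (c (Sum.inr (Sum.inl (T, l, y l)))) (by
        simp only [P, Finset.mem_sdiff, Finset.mem_univ, true_and]
        exact hy l)
      have h2 := h1 (show Sum.inr (Sum.inl (T, l, y l)) ∈ {v | c v = _} from rfl)
        (show Sum.inr (Sum.inl (T, l', y l')) ∈ {v | c v = _} from h.symm) (by
          intro h3
          simp only [Sum.inr.injEq, Sum.inl.injEq, Prod.mk.injEq] at h3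
          exact hne h3.2.1)
      have h3 : l = l' := h2.2.1
      exact hne h3)
    simp only [Fintype.card_fin] at this
    omega
  -- the basic inequality
  have hmain : ∀ T : Ty, P.card + ((T.1.filter fun x => cB x ∈ Q).image cB).card ≤ 2 := by
    intro T
    obtain ⟨l, hl⟩ := hun T
    have h1 : b ≤ (Finset.univ.image fun y => c (Sum.inr (Sum.inl (T, l, y)))).card :=
      copy_colours (by omega) hY _ (fun x y h he =>
        hQ _ (hl x) _ _ rfl he.symm
          (show (big b L Y).Adj (Sum.inr (Sum.inl (T, l, x))) (Sum.inr (Sum.inl (T, l, y))) from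
            ⟨rfl, rfl, h⟩))
    have h2 : (Finset.univ.image fun y => c (Sum.inr (Sum.inl (T, l, y)))) ⊆
        Q \ ((T.1.filter fun x => cB x ∈ Q).image cB) := by
      intro a ha
      simp only [Finset.mem_image, Finset.mem_univ, true_and] at ha
      obtain ⟨y, rfl⟩ := ha
      simp only [Finset.mem_sdiff, Finset.mem_image, Finset.mem_filter, not_exists, not_and]
      refine ⟨hl y, ?_⟩
      rintro x ⟨hx, hxQ⟩ h
      exact hQ _ (hl y) (Sum.inl x) (Sum.inr (Sum.inl (T, l, y))) h rfl hx
    have h3 := Finset.card_le_card h2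
    rw [Finset.card_sdiff_of_subset (by
      intro a ha
      simp only [Finset.mem_image, Finset.mem_filter] at ha
      obtain ⟨x, ⟨_, hx⟩, rfl⟩ := ha
      exact hx)] at h3
    omega
  have hBcount : ∀ i ∈ P, ((Finset.univ : Finset (Fin 12)).filter fun x => cB x = i).card ≤ 4 := by
    intro i hi
    by_contra hcon
    push Not at hcon
    obtain ⟨t, ht, htc⟩ := Finset.exists_subset_card_eq (show 5 ≤ _ from hcon)
    refine b_cliqueFree t ⟨?_, htc⟩
    intro x hx y hy hxy
    have hx' := (Finset.mem_filter.1 (ht hx)).2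
    have hy' := (Finset.mem_filter.1 (ht hy)).2
    have := hP i hi (show Sum.inl x ∈ {v | c v = i} from hx') (show Sum.inl y ∈ {v | c v = i} from hy')
      (fun h => hxy (Sum.inl_injective h))
    exact this
  have hcover : 12 ≤ ((Finset.univ : Finset (Fin 12)).filter fun x => cB x ∈ Q).card +
      4 * P.card := by
    have h1 : ((Finset.univ : Finset (Fin 12)).filter fun x => cB x ∉ Q).card ≤ 4 * P.card := by
      refine Finset.card_le_mul_card_image_of_maps_to (f := cB) (t := P) ?_ 4 ?_
      · intro x hx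
        simp only [P, Finset.mem_sdiff, Finset.mem_univ, true_and]
        exact (Finset.mem_filter.1 hx).2
      · intro i hi
        refine le_trans (Finset.card_le_card ?_) (hBcount i hi)
        intro x hx
        rw [Finset.mem_filter] at hx ⊢
        exact ⟨Finset.mem_univ _, hx.2⟩
    have h2 := Finset.card_filter_add_card_filter_not (s := (Finset.univ : Finset (Fin 12)))
      (fun x => cB x ∈ Q)
    simp only [Finset.card_univ, Fintype.card_fin] at h2
    omega
  have hp2 := hmain ⟨∅, triFree_empty⟩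
  have hcases : P.card = 0 ∨ P.card = 1 ∨ P.card = 2 := by omega
  rcases hcases with h | h | h
  · -- no clique class
    have hall : ∀ i, i ∈ Q := by
      intro i
      by_contra hi
      have : i ∈ P := by
        simp only [P, Finset.mem_sdiff, Finset.mem_univ, true_and]
        exact hi
      rw [Finset.card_eq_zero] at h
      rw [h] at this
      simp at this
    have hcB : ∀ x y, B.Adj x y → cB x ≠ cB y := fun x y hxy he =>
      hQ _ (hall (cB x)) (Sum.inl x) (Sum.inl y) rfl he.symm hxy
    have key : ∀ T : Ty, ¬ 4 ≤ (T.1.image cB).card := by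
      intro T hT
      have h1 := hmain T
      have h2 : (T.1.filter fun x => cB x ∈ Q) = T.1 :=
        Finset.filter_true_of_mem fun x _ => hall _
      rw [h2] at h1
      omega
    rcases base_lemma cB hcB with ⟨T, hT, h5⟩ | ⟨T, -, -, hT, -, -, -, h4, -, -, -⟩
    · exact key ⟨T, hT⟩ (by simp only; omega)
    · exact key ⟨T, hT⟩ h4
  · -- one clique class
    have h8 : 8 ≤ ((Finset.univ : Finset (Fin 12)).filter fun x => cB x ∈ Q).card := by omega
    obtain ⟨x, hx⟩ : ((Finset.univ : Finset (Fin 12)).filter fun x => cB x ∈ Q).Nonempty := by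
      rw [← Finset.card_pos]; omega
    have hxQ := (Finset.mem_filter.1 hx).2
    obtain ⟨y, hyQ, hy⟩ : ∃ y, cB y ∈ Q ∧ cB y ≠ cB x := by
      by_contra hcon
      push Not at hcon
      obtain ⟨a, a', a'', ha, ha', ha'', h1, h2, h3⟩ := Finset.two_lt_card_iff.1
        (show 2 < ((Finset.univ : Finset (Fin 12)).filter fun x => cB x ∈ Q).card by omega)
      have e : ∀ z ∈ ((Finset.univ : Finset (Fin 12)).filter fun x => cB x ∈ Q), cB z = cB x :=
        fun z hz => hcon z (Finset.mem_filter.1 hz).2
      rcases alpha_le a a' a'' h1 h2 h3 with h | h | h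
      · exact hQ _ hxQ (Sum.inl a) (Sum.inl a') (e a ha) (e a' ha') h
      · exact hQ _ hxQ (Sum.inl a) (Sum.inl a'') (e a ha) (e a'' ha'') h
      · exact hQ _ hxQ (Sum.inl a') (Sum.inl a'') (e a' ha') (e a'' ha'') h
    have h1 := hmain ⟨{x, y}, triFree_pair x y⟩
    have h2 : 2 ≤ ((({x, y} : Finset (Fin 12)).filter fun x => cB x ∈ Q).image cB).card := by
      have h3 : ({x, y} : Finset (Fin 12)).filter (fun x => cB x ∈ Q) = {x, y} :=
        Finset.filter_true_of_mem (by
          intro z hz
          simp only [Finset.mem_insert, Finset.mem_singleton] at hz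
          rcases hz with rfl | rfl
          · exact hxQ
          · exact hyQ)
      rw [h3, Finset.image_insert, Finset.image_singleton, Finset.card_pair hy.symm]
    simp only at h1
    omega
  · -- two clique classes
    obtain ⟨x, hx⟩ : ((Finset.univ : Finset (Fin 12)).filter fun x => cB x ∈ Q).Nonempty := by
      rw [← Finset.card_pos]; omega
    have hxQ := (Finset.mem_filter.1 hx).2
    have h1 := hmain ⟨{x, x}, triFree_pair x x⟩
    have h2 : 1 ≤ ((({x, x} : Finset (Fin 12)).filter fun x => cB x ∈ Q).image cB).card := by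
      rw [Nat.one_le_iff_ne_zero, ← Nat.pos_iff_ne_zero, Finset.card_pos]
      exact ⟨cB x, Finset.mem_image.2 ⟨x, Finset.mem_filter.2 ⟨by simp, hxQ⟩, rfl⟩⟩
    simp only at h1
    omega

end

theorem coch_mono {V : Type} {G : SimpleGraph V} {k k' : ℕ} (h : CochColorable G k)
    (hk : k ≤ k') : CochColorable G k' := by
  obtain ⟨c, hc⟩ := h
  refine ⟨fun v => Fin.castLE hk (c v), fun i => ?_⟩
  by_cases hi : (i : ℕ) < k
  · have e : {v | Fin.castLE hk (c v) = i} = {v | c v = ⟨i, hi⟩} := by
      ext v
      simp [Fin.ext_iff]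
    rw [e]
    exact hc ⟨i, hi⟩
  · right
    intro u hu
    rw [Set.mem_ofPred_eq] at hu
    exfalso
    apply hi
    rw [← hu]
    exact (c u).2

/-- **Chromatic gap three.** -/
theorem gap_three (k : ℕ) (hk : 5 ≤ k) : ∃ (V : Type) (_ : Finite V) (G : SimpleGraph V),
    G.CliqueFree 5 ∧ CochromaticNumberEq G k ∧ G.chromaticNumber = (k + 3 : ℕ) := by
  obtain ⟨b, hb, rfl⟩ : ∃ b, 2 ≤ b ∧ k = b + 3 := ⟨k - 3, by omega, by omega⟩
  obtain ⟨X, _, _, Y, hY1, hY2, hY3⟩ := exists_Y b (by omega)
  let L := (b + 5) * (2 * b)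
  have hL : b + 3 ≤ L := by
    simp only [L]
    nlinarith
  refine ⟨_, inferInstance, big b L Y, big_cliqueFree hY1, ⟨big_coch hb hY2, ?_⟩, ?_⟩
  · intro m hm
    by_contra hlt
    exact big_not_coch hb hL hY3 (coch_mono hm (by omega))
  · refine le_antisymm ?_ ?_
    · exact SimpleGraph.chromaticNumber_le_iff_colorable.2 (big_colorable hb hY2)
    · by_contra hlt
      rw [not_le] at hlt
      obtain ⟨n, hn⟩ := ENat.ne_top_iff_exists.1 (ne_top_of_lt hlt)
      rw [← hn] at hlt
      have h1 : n < b + 3 + 3 := by exact_mod_cast hlt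
      have h2 : (big b L Y).Colorable n :=
        SimpleGraph.chromaticNumber_le_iff_colorable.1 hn.symm.le
      exact big_not_colorable hb le_rfl hY3 (h2.mono (by omega))

end Pool.Agent.Q128.Coch
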