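import Mathlib

/-!
# The eternal vertex colouring game: definitions
-/

set_option autoImplicit false

namespace Q128.Eternal

open SimpleGraph

variable {V : Type} [DecidableEq V] [Fintype V] (G : SimpleGraph V) {k : ℕ}

/-- In the (partial) colouring `c` the vertex `v` may get the colour `x`: it does not have this colour
already and no neighbour has it. -/
def Legal (c : V → Option (Fin k)) (v : V) (x : Fin k) : Prop :=
  c v ≠ some x ∧ ∀ w, G.Adj v w → c w ≠ some x

/-- The colouring after `v` has got the colour `x`. -/
def play (c : V → Option (Fin k)) (v : V) (x : Fin k) : V → Option (Fin k) :=
  Function.update c v (some x)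

/-- The set of vertices picked in the current round, after `v` has been picked; it is reset to the empty
set when the round is complete. -/
def nextPicked (p : Finset V) (v : V) : Finset V :=
  if insert v p = Finset.univ then ∅ else insert v p

/-- The number of rounds left (the current one included), after `v` has been picked. -/
def nextRounds (r : ℕ) (p : Finset V) (v : V) : ℕ :=
  if insert v p = Finset.univ then r - 1 else r

/-- `BobWins G b r c p`: from the position with colouring `c` and set `p` of vertices already picked in the
current round, with Bob to move if `b = true` and Alice to move if `b = false`, Bob has a strategy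
guaranteeing his win during the current round or the following `r - 1` rounds. If a vertex without allowed
colour is picked, then Bob wins at once: so Bob wins if he can pick such a vertex, and Alice does not pick
one if she can avoid it. -/
inductive BobWins : Bool → ℕ → (V → Option (Fin k)) → Finset V → Prop
  | stuck (r : ℕ) (c : V → Option (Fin k)) (p : Finset V) (hr : 0 < r) (v : V) (hv : v ∉ p)
      (h : ∀ x, ¬ Legal G c v x) : BobWins true r c p
  | bob (r : ℕ) (c : V → Option (Fin k)) (p : Finset V) (hr : 0 < r) (v : V) (hv : v ∉ p) (x : Fin k)
      (hx : Legal G c v x)
      (h : BobWins false (nextRounds r p v) (play c v x) (nextPicked p v)) : BobWins true r c p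
  | alice (r : ℕ) (c : V → Option (Fin k)) (p : Finset V) (hr : 0 < r)
      (h : ∀ v, v ∉ p → ∀ x, Legal G c v x →
        BobWins true (nextRounds r p v) (play c v x) (nextPicked p v)) : BobWins false r c p

/-- Alice has a winning strategy in the game with `k` colours: there is a set `S` of positions (player to
move, colouring, vertices already picked in this round) that contains the initial position, in which she
can stay by her moves, and which Bob cannot leave; moreover every vertex Bob may pick has an allowed
colour. -/
def AliceWins (k : ℕ) : Prop :=
  ∃ S : Set (Bool × (V → Option (Fin k)) × Finset V), (false, (fun _ => none), ∅) ∈ S ∧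
    (∀ c p, (false, c, p) ∈ S →
      ∃ v, v ∉ p ∧ ∃ x, Legal G c v x ∧ (true, play c v x, nextPicked p v) ∈ S) ∧
    (∀ c p, (true, c, p) ∈ S → ∀ v, v ∉ p → (∃ x, Legal G c v x) ∧
      ∀ x, Legal G c v x → (false, play c v x, nextPicked p v) ∈ S)

/-- `χ_g^∞(G)`, the least number of colours for which Alice has a winning strategy. -/
noncomputable def eternalNumber : ℕ := sInf {k | AliceWins G k}

/-- `r(G, k)`, the least `r` such that Bob can guarantee his win during one of the rounds `1, …, r`. -/
noncomputable def rounds (k : ℕ) : ℕ :=
  sInf {r | BobWins G false r (fun _ => none : V → Option (Fin k)) ∅}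

end Q128.Eternal
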