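import Pool.Agent.Q128.EternalTables

/-!
# The eternal vertex colouring game on the fan with five vertices
-/

set_option autoImplicit false

namespace Q128.Eternal

open SimpleGraph

/-- The fan: the path `0, 1, 2, 3` and a vertex `4` adjacent to all of these. -/
def fan : SimpleGraph (Fin 5) := SimpleGraph.fromRel fun i j => j.val = 4 ∨ i.val + 1 = j.val

/-- the neighbours -/
def nbr : List (List ℕ) := [[1, 4], [0, 2, 4], [1, 3, 4], [2, 4], [0, 1, 2, 3]]

instance : DecidableRel fan.Adj := fun i j =>
  inferInstanceAs (Decidable (i ≠ j ∧ ((j.val = 4 ∨ i.val + 1 = j.val) ∨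
    (i.val = 4 ∨ j.val + 1 = i.val))))

theorem isNbr : IsNbr nbr fan := by
  intro v
  constructor
  · revert v
    decide +kernel
  · revert v
    decide +kernel

theorem check0 : W0.all (checkW nbr 0 W0) = true := by decide +kernel
theorem check1 : W1.all (checkW nbr 1 W1) = true := by decide +kernel
theorem check2 : W2.all (checkW nbr 2 W2) = true := by decide +kernel
theorem check3 : W3.all (checkW nbr 3 W3) = true := by decide +kernel
theorem check4 : W4.all (checkW nbr 4 W4) = true := by decide +kernel
theorem check5 : W5.all (checkW nbr 5 W5) = true := by decide +kernel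
theorem checkA5 : A5.all (checkA nbr 5 A5) = true := by decide +kernel

theorem start_enc (k : ℕ) : enc (fun _ => none : Fin 5 → Option (Fin k)) ∅ = [0, 0, 0, 0, 0] := by
  rfl

end Q128.Eternal
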