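import Pool.Agent.Q128.EternalDefs

/-!
# The eternal vertex colouring game on a graph with five vertices: checking tables of positions
-/

set_option autoImplicit false

namespace Q128.Eternal

open SimpleGraph

section

variable {V : Type} [DecidableEq V] [Fintype V] {G : SimpleGraph V} {k : ℕ}

/-- rename the colours -/
def ren (σ : Equiv.Perm (Fin k)) (c : V → Option (Fin k)) : V → Option (Fin k) :=
  fun v => (c v).map σ

omit [DecidableEq V] [Fintype V] in
theorem ren_eq_some (σ : Equiv.Perm (Fin k)) (c : V → Option (Fin k)) (v : V) (x : Fin k) :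
    ren σ c v = some x ↔ c v = some (σ.symm x) := by
  unfold ren
  rw [Option.map_eq_some_iff]
  constructor
  · rintro ⟨a, ha, rfl⟩
    rw [Equiv.symm_apply_apply]
    exact ha
  · intro h
    exact ⟨_, h, Equiv.apply_symm_apply _ _⟩

omit [DecidableEq V] [Fintype V] in
theorem legal_ren (σ : Equiv.Perm (Fin k)) (c : V → Option (Fin k)) (v : V) (x : Fin k) :
    Legal G (ren σ c) v x ↔ Legal G c v (σ.symm x) := by
  unfold Legal
  simp only [ne_eq, ren_eq_some]

omit [Fintype V] in
theorem play_ren (σ : Equiv.Perm (Fin k)) (c : V → Option (Fin k)) (v : V) (x : Fin k) :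
    play (ren σ c) v x = ren σ (play c v (σ.symm x)) := by
  funext w
  unfold play ren
  by_cases h : w = v
  · subst h
    simp
  · simp [h]

omit [DecidableEq V] [Fintype V] in
theorem ren_symm (σ : Equiv.Perm (Fin k)) (c : V → Option (Fin k)) : ren σ.symm (ren σ c) = c := by
  funext v
  simp [ren, Option.map_map]

theorem wins_ren (σ : Equiv.Perm (Fin k)) {b : Bool} {r : ℕ} {c : V → Option (Fin k)} {p : Finset V}
    (h : BobWins G b r c p) : BobWins G b r (ren σ c) p := by
  induction h with
  | stuck r c p hr v hv h =>
    exact BobWins.stuck r _ p hr v hv fun x hx => h _ ((legal_ren σ c v x).1 hx)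
  | bob r c p hr v hv x hx _ ih =>
    refine BobWins.bob r _ p hr v hv (σ x) ?_ ?_
    · rw [legal_ren, Equiv.symm_apply_apply]; exact hx
    · rw [play_ren, Equiv.symm_apply_apply]; exact ih
  | alice r c p hr _ ih =>
    refine BobWins.alice r _ p hr fun v hv x hx => ?_
    rw [play_ren]
    exact ih v hv _ ((legal_ren σ c v x).1 hx)

theorem wins_of_ren (σ : Equiv.Perm (Fin k)) {b : Bool} {r : ℕ} {c : V → Option (Fin k)}
    {p : Finset V} (h : BobWins G b r (ren σ c) p) : BobWins G b r c p := by
  have := wins_ren σ.symm h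
  rwa [ren_symm] at this

theorem not_alice {k : ℕ} (h : AliceWins G k) (r : ℕ) :
    ¬ BobWins G false r (fun _ => none : V → Option (Fin k)) ∅ := by
  obtain ⟨S, h0, h1, h2⟩ := h
  have key : ∀ (b : Bool) (r : ℕ) (c : V → Option (Fin k)) (p : Finset V),
      BobWins G b r c p → (b, c, p) ∉ S := by
    intro b r c p h
    induction h with
    | stuck r c p hr v hv h =>
      intro hS
      obtain ⟨⟨x, hx⟩, -⟩ := h2 c p hS v hv
      exact h x hx
    | bob r c p hr v hv x hx _ ih =>
      intro hS
      exact ih ((h2 c p hS v hv).2 x hx)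
    | alice r c p hr _ ih =>
      intro hS
      obtain ⟨v, hv, x, hx, hS'⟩ := h1 c p hS
      exact ih v hv x hx hS'
  intro h
  exact key _ _ _ _ h h0

theorem wins_mono {b : Bool} {r : ℕ} {c : V → Option (Fin k)} {p : Finset V}
    (h : BobWins G b r c p) : ∀ s, r ≤ s → BobWins G b s c p := by
  induction h with
  | stuck r c p hr v hv h =>
    intro s hs
    exact BobWins.stuck s _ p (by omega) v hv h
  | bob r c p hr v hv x hx _ ih =>
    intro s hs
    refine BobWins.bob s _ p (by omega) v hv x hx (ih _ ?_)
    unfold nextRounds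
    split_ifs <;> omega
  | alice r c p hr _ ih =>
    intro s hs
    refine BobWins.alice s _ p (by omega) fun v hv x hx => ih v hv x hx _ ?_
    unfold nextRounds
    split_ifs <;> omega

/-- Alice wins if there are more colours than vertices -/
theorem alice_of_card [Nonempty V] {k : ℕ} (h : Fintype.card V < k) : AliceWins G k := by
  classical
  have hcol : ∀ c : V → Option (Fin k), ∃ x : Fin k, ∀ w, c w ≠ some x := by
    intro c
    by_contra hcon
    push Not at hcon
    choose f hf using hcon
    have hinj : Function.Injective f := by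
      intro x y hxy
      have h1 := hf x
      rw [hxy, hf y] at h1
      exact (Option.some_injective _ h1).symm
    have := Fintype.card_le_of_injective f hinj
    rw [Fintype.card_fin] at this
    omega
  have hne : (∅ : Finset V) ≠ Finset.univ := by
    intro e
    obtain ⟨v⟩ := (inferInstance : Nonempty V)
    have := Finset.mem_univ v
    rw [← e] at this
    exact absurd this (Finset.notMem_empty v)
  have hnext : ∀ (p : Finset V) (v : V), nextPicked p v ≠ Finset.univ := by
    intro p v
    unfold nextPicked
    split_ifs with h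
    · exact hne
    · exact h
  refine ⟨{s | s.2.2 ≠ Finset.univ}, hne, ?_, ?_⟩
  · intro c p hp
    have hp' : p ≠ Finset.univ := hp
    obtain ⟨v, hv⟩ : ∃ v, v ∉ p := by
      by_contra hcon
      push Not at hcon
      exact hp' (Finset.eq_univ_of_forall hcon)
    obtain ⟨x, hx⟩ := hcol c
    exact ⟨v, hv, x, ⟨hx v, fun w _ => hx w⟩, hnext p v⟩
  · intro c p _ v _
    obtain ⟨x, hx⟩ := hcol c
    exact ⟨⟨x, hx v, fun w _ => hx w⟩, fun _ _ => hnext p v⟩

end

/-! ### Encoding of the positions of a graph with five vertices -/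

section

variable {k : ℕ}

/-- the code of a vertex: twice the colour (`0` if uncoloured), plus one if the vertex has been picked -/
def cd (o : Option (Fin k)) (b : Bool) : ℕ :=
  2 * (match o with
    | none => 0
    | some x => x.val + 1) + (if b then 1 else 0)

/-- the code of a position -/
def enc (c : Fin 5 → Option (Fin k)) (p : Finset (Fin 5)) : List ℕ :=
  List.ofFn fun i => cd (c i) (decide (i ∈ p))

/-- colour of the vertex `i` -/
def col (L : List ℕ) (i : ℕ) : ℕ := L.getD i 0 / 2

/-- has the vertex `i` been picked? -/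
def pk (L : List ℕ) (i : ℕ) : Bool := L.getD i 0 % 2 == 1

theorem enc_getD (c : Fin 5 → Option (Fin k)) (p : Finset (Fin 5)) (i : Fin 5) :
    (enc c p).getD i.val 0 = cd (c i) (decide (i ∈ p)) := by
  have h : i.val < (enc c p).length := by unfold enc; rw [List.length_ofFn]; exact i.isLt
  rw [List.getD_eq_getElem _ _ h]
  unfold enc
  rw [List.getElem_ofFn]

theorem col_enc (c : Fin 5 → Option (Fin k)) (p : Finset (Fin 5)) (i : Fin 5) :
    col (enc c p) i.val = match c i with
      | none => 0
      | some x => x.val + 1 := by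
  unfold col
  rw [enc_getD]
  unfold cd
  split_ifs <;> omega

theorem pk_enc (c : Fin 5 → Option (Fin k)) (p : Finset (Fin 5)) (i : Fin 5) :
    pk (enc c p) i.val = true ↔ i ∈ p := by
  unfold pk
  rw [enc_getD, beq_iff_eq]
  unfold cd
  by_cases h : i ∈ p
  · simp only [h, decide_true, if_true, iff_true]
    omega
  · simp only [h, decide_false, iff_false]
    simp only [Bool.false_eq_true, if_false]
    omega

/-- is the colour `x` allowed at `v`? (`A` is the list of the neighbour lists) -/
def legalB (A : List (List ℕ)) (L : List ℕ) (v x : ℕ) : Bool :=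
  !(col L v == x) && (A.getD v []).all fun w => !(col L w == x)

/-- the lists of neighbours -/
def IsNbr (A : List (List ℕ)) (G : SimpleGraph (Fin 5)) : Prop :=
  ∀ v : Fin 5, (∀ w : Fin 5, G.Adj v w → w.val ∈ A.getD v.val []) ∧
    ∀ m ∈ A.getD v.val [], ∃ w : Fin 5, w.val = m ∧ G.Adj v w

theorem legalB_iff {A : List (List ℕ)} {G : SimpleGraph (Fin 5)} (hA : IsNbr A G)
    (c : Fin 5 → Option (Fin k)) (p : Finset (Fin 5)) (v : Fin 5) (x : Fin k) :
    legalB A (enc c p) v.val (x.val + 1) = true ↔ Legal G c v x := by
  have h : ∀ w : Fin 5, (!(col (enc c p) w.val == x.val + 1)) = true ↔ c w ≠ some x := by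
    intro w
    rw [Bool.not_eq_true', beq_eq_false_iff_ne, col_enc]
    rcases c w with _ | y
    · simp
    · simp only [ne_eq, Nat.add_right_cancel_iff, Option.some.injEq]
      rw [Fin.ext_iff]
  unfold legalB Legal
  rw [Bool.and_eq_true, h, List.all_eq_true]
  apply and_congr Iff.rfl
  constructor
  · intro hw w hvw
    exact (h w).1 (hw _ ((hA v).1 w hvw))
  · intro hw m hm
    obtain ⟨w, rfl, hvw⟩ := (hA v).2 m hm
    exact (h w).2 (hw w hvw)

/-- play: `v` gets the colour `x` -/
def playL (L : List ℕ) (v x : ℕ) : List ℕ := L.set v (2 * x + 1)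

/-- is the round complete? -/
def full (L : List ℕ) : Bool := L.all fun t => t % 2 == 1

/-- reset the marks -/
def reset (L : List ℕ) : List ℕ := L.map fun t => 2 * (t / 2)

theorem enc_play (c : Fin 5 → Option (Fin k)) (p : Finset (Fin 5)) (v : Fin 5) (x : Fin k) :
    playL (enc c p) v.val (x.val + 1) = enc (play c v x) (insert v p) := by
  unfold playL
  apply List.ext_getElem
  · simp [enc]
  · intro n h1 h2
    rw [List.getElem_set]
    simp only [enc, List.getElem_ofFn]
    split_ifs with h
    · subst h
      simp [play, cd]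
    · have : (⟨n, by simpa [enc] using h2⟩ : Fin 5) ≠ v := fun e => h (by rw [← e])
      simp [play, this]

theorem full_enc (c : Fin 5 → Option (Fin k)) (p : Finset (Fin 5)) :
    full (enc c p) = true ↔ p = Finset.univ := by
  unfold full
  rw [List.all_eq_true]
  constructor
  · intro h
    apply Finset.eq_univ_of_forall
    intro i
    rw [← pk_enc c p i]
    unfold pk
    apply h
    rw [enc_getD]
    unfold enc
    rw [List.mem_ofFn]
    exact ⟨i, rfl⟩
  · rintro rfl t ht
    unfold enc at ht
    rw [List.mem_ofFn] at ht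
    obtain ⟨i, rfl⟩ := ht
    simp [cd]

theorem reset_enc (c : Fin 5 → Option (Fin k)) (p : Finset (Fin 5)) :
    reset (enc c p) = enc c ∅ := by
  unfold reset enc
  rw [List.map_ofFn]
  congr 1
  funext i
  simp only [Function.comp, cd, Finset.notMem_empty, decide_false, Bool.false_eq_true, if_false]
  split_ifs <;> omega

/-! canonical forms -/

/-- exchange the colours `a` and `b` -/
def sw (a b t : ℕ) : ℕ := 2 * (if t / 2 = a then b else if t / 2 = b then a else t / 2) + t % 2

theorem enc_sw (c : Fin 5 → Option (Fin k)) (p : Finset (Fin 5)) (a b : Fin k) :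
    (enc c p).map (sw (a.val + 1) (b.val + 1)) = enc (ren (Equiv.swap a b) c) p := by
  unfold enc
  rw [List.map_ofFn]
  congr 1
  funext i
  simp only [Function.comp, cd, ren]
  rcases c i with _ | x
  · simp only [Option.map_none, sw]
    have h1 : (2 * 0 + (if decide (i ∈ p) = true then 1 else 0)) / 2 = 0 := by
      split_ifs <;> omega
    have h2 : (2 * 0 + (if decide (i ∈ p) = true then 1 else 0)) % 2 =
        if decide (i ∈ p) = true then 1 else 0 := by
      split_ifs <;> omega
    rw [h1, h2, if_neg (by omega), if_neg (by omega)]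
  · simp only [Option.map_some, sw]
    have h1 : (2 * (x.val + 1) + (if decide (i ∈ p) = true then 1 else 0)) / 2 = x.val + 1 := by
      split_ifs <;> omega
    have h2 : (2 * (x.val + 1) + (if decide (i ∈ p) = true then 1 else 0)) % 2 =
        if decide (i ∈ p) = true then 1 else 0 := by
      split_ifs <;> omega
    rw [h1, h2]
    congr 1
    by_cases ha : x = a
    · subst ha
      simp
    · by_cases hb : x = b
      · subst hb
        simp
      · have h3 : ¬ (x.val + 1 = a.val + 1) := fun e => ha (Fin.ext (by omega))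
        have h4 : ¬ (x.val + 1 = b.val + 1) := fun e => hb (Fin.ext (by omega))
        rw [if_neg h3, if_neg h4, Equiv.swap_apply_of_ne_of_ne ha hb]

/-- rename the colours in the order of appearance -/
def canonAux (k : ℕ) : List ℕ → ℕ → List ℕ → List ℕ
  | [], _, L => L
  | i :: is, m, L =>
    if col L i < m then canonAux k is m L
    else if 1 ≤ m ∧ m ≤ k ∧ 1 ≤ col L i ∧ col L i ≤ k then
      canonAux k is (m + 1) (L.map (sw (col L i) m))
    else L

theorem canonAux_spec : ∀ (is : List ℕ) (m : ℕ) (c : Fin 5 → Option (Fin k)) (p : Finset (Fin 5)),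
    ∃ σ : Equiv.Perm (Fin k), enc (ren σ c) p = canonAux k is m (enc c p) := by
  intro is
  induction is with
  | nil =>
    intro m c p
    refine ⟨Equiv.refl _, ?_⟩
    unfold canonAux
    congr 1
    funext v
    simp [ren]
  | cons i is ih =>
    intro m c p
    unfold canonAux
    split_ifs with h1 h2
    · exact ih m c p
    · obtain ⟨h3, h4, h5, h6⟩ := h2
      obtain ⟨σ, hσ⟩ := ih (m + 1) (ren (Equiv.swap (⟨col (enc c p) i - 1, by omega⟩ : Fin k)
        ⟨m - 1, by omega⟩) c) p
      rw [← enc_sw] at hσ
      refine ⟨σ * Equiv.swap (⟨col (enc c p) i - 1, by omega⟩ : Fin k) ⟨m - 1, by omega⟩, ?_⟩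
      have e1 : ren (σ * Equiv.swap (⟨col (enc c p) i - 1, by omega⟩ : Fin k) ⟨m - 1, by omega⟩) c =
          ren σ (ren (Equiv.swap (⟨col (enc c p) i - 1, by omega⟩ : Fin k) ⟨m - 1, by omega⟩) c) := by
        funext v
        simp [ren, Option.map_map, Function.comp_def]
      rw [e1, hσ]
      dsimp only
      rw [Nat.sub_add_cancel h5, Nat.sub_add_cancel h3]
    · refine ⟨Equiv.refl _, ?_⟩
      congr 1
      funext v
      simp [ren]

/-- canonical form -/
def canon (k : ℕ) (L : List ℕ) : List ℕ := canonAux k [0, 1, 2, 3, 4] 1 L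

/-- the code of a node of the tables: player to move, rounds left, position -/
def nxt (k : ℕ) (b r : ℕ) (L : List ℕ) (v x : ℕ) : List ℕ :=
  if full (playL L v x) then b :: (r - 1) :: canon k (reset (playL L v x))
  else b :: r :: canon k (playL L v x)

theorem nxt_spec (b r : ℕ) (c : Fin 5 → Option (Fin k)) (p : Finset (Fin 5)) (v : Fin 5)
    (x : Fin k) : ∃ σ : Equiv.Perm (Fin k), nxt k b r (enc c p) v.val (x.val + 1) =
      b :: nextRounds r p v :: enc (ren σ (play c v x)) (nextPicked p v) := by
  unfold nxt nextRounds nextPicked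
  rw [enc_play]
  by_cases h : insert v p = Finset.univ
  · rw [if_pos ((full_enc _ _).2 h), if_pos h, if_pos h, reset_enc]
    obtain ⟨σ, hσ⟩ := canonAux_spec [0, 1, 2, 3, 4] 1 (play c v x) ∅
    exact ⟨σ, by rw [hσ]; rfl⟩
  · have hf : ¬ full (enc (play c v x) (insert v p)) = true := fun e => h ((full_enc _ _).1 e)
    rw [if_neg hf, if_neg h, if_neg h]
    obtain ⟨σ, hσ⟩ := canonAux_spec [0, 1, 2, 3, 4] 1 (play c v x) (insert v p)
    exact ⟨σ, by rw [hσ]; rfl⟩

/-- the colours -/
def cols (k : ℕ) : List ℕ := (List.range k).map (· + 1)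

theorem mem_cols {k m : ℕ} : m ∈ cols k ↔ ∃ x : Fin k, m = x.val + 1 := by
  unfold cols
  simp only [List.mem_map, List.mem_range]
  constructor
  · rintro ⟨a, ha, rfl⟩
    exact ⟨⟨a, ha⟩, rfl⟩
  · rintro ⟨x, rfl⟩
    exact ⟨x.val, x.isLt, rfl⟩

/-- check one node of a table of positions won by Bob -/
def checkW (A : List (List ℕ)) (k : ℕ) (T : List (List ℕ)) : List ℕ → Bool
  | b :: r :: L =>
    Nat.blt 0 r && if b == 1 then
      [0, 1, 2, 3, 4].any fun v => !pk L v &&
        (((cols k).all fun x => !legalB A L v x) ||
          (cols k).any fun x => legalB A L v x && T.contains (nxt k 0 r L v x))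
    else [0, 1, 2, 3, 4].all fun v => pk L v ||
      (cols k).all fun x => !legalB A L v x || T.contains (nxt k 1 r L v x)
  | _ => false

/-- check one node of a table of positions not won by Bob -/
def checkA (A : List (List ℕ)) (k : ℕ) (T : List (List ℕ)) : List ℕ → Bool
  | b :: r :: L =>
    if b == 1 then
      [0, 1, 2, 3, 4].all fun v => pk L v ||
        (((cols k).any fun x => legalB A L v x) &&
          (cols k).all fun x => !legalB A L v x || (nxt k 0 r L v x).getD 1 0 == 0 ||
            T.contains (nxt k 0 r L v x))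
    else [0, 1, 2, 3, 4].any fun v => !pk L v &&
      (cols k).any fun x => legalB A L v x && ((nxt k 1 r L v x).getD 1 0 == 0 ||
        T.contains (nxt k 1 r L v x))
  | _ => false

/-- the code of the player to move -/
def bc (b : Bool) : ℕ := if b then 1 else 0

theorem mem_five {v : ℕ} : v ∈ [0, 1, 2, 3, 4] ↔ ∃ i : Fin 5, v = i.val := by
  simp only [List.mem_cons, List.not_mem_nil, or_false]
  constructor
  · intro h
    exact ⟨⟨v, by omega⟩, rfl⟩
  · rintro ⟨i, rfl⟩
    have := i.isLt
    omega

theorem measure_lt {r : ℕ} (hr : 0 < r) {p : Finset (Fin 5)} {v : Fin 5} (hv : v ∉ p) :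
    6 * nextRounds r p v + (5 - (nextPicked p v).card) < 6 * r + (5 - p.card) := by
  have h5 : (insert v p).card ≤ 5 := by
    have := Finset.card_le_univ (insert v p)
    simpa using this
  have h1 := Finset.card_insert_of_notMem hv
  unfold nextRounds nextPicked
  by_cases h : insert v p = Finset.univ
  · rw [if_pos h, if_pos h, Finset.card_empty]
    omega
  · rw [if_neg h, if_neg h]
    omega

theorem table_wins {A : List (List ℕ)} {G : SimpleGraph (Fin 5)} (hA : IsNbr A G)
    {T : List (List ℕ)} (hT : T.all (checkW A k T) = true) :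
    ∀ (m : ℕ) (b : Bool) (r : ℕ) (c : Fin 5 → Option (Fin k)) (p : Finset (Fin 5)),
      6 * r + (5 - p.card) ≤ m → (bc b :: r :: enc c p) ∈ T → BobWins G b r c p := by
  intro m
  induction m with
  | zero =>
    intro b r c p hm hmem
    rw [List.all_eq_true] at hT
    have h := hT _ hmem
    unfold checkW at h
    rw [Bool.and_eq_true] at h
    have : 0 < r := Nat.le_of_ble_eq_true h.1
    omega
  | succ m ih =>
    intro b r c p hm hmem
    have hT' := hT
    rw [List.all_eq_true] at hT'
    have h := hT' _ hmem
    unfold checkW at h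
    rw [Bool.and_eq_true] at h
    obtain ⟨hr, h⟩ := h
    have hr : 0 < r := Nat.le_of_ble_eq_true hr
    -- a successor in the table is won
    have hsucc : ∀ (b' : Bool) (v : Fin 5) (x : Fin k), v ∉ p →
        T.contains (nxt k (bc b') r (enc c p) v.val (x.val + 1)) = true →
        BobWins G b' (nextRounds r p v) (play c v x) (nextPicked p v) := by
      intro b' v x hv hc
      obtain ⟨σ, hσ⟩ := nxt_spec (bc b') r c p v x
      rw [hσ] at hc
      apply wins_of_ren σ
      refine ih _ _ _ _ ?_ (by simpa using hc)
      have := measure_lt hr hv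
      omega
    cases b
    · have hb : (bc false == 1) = false := rfl
      rw [hb] at h
      simp only [Bool.false_eq_true, if_false, List.all_eq_true] at h
      refine BobWins.alice r c p hr fun v hv x hx => ?_
      have h1 := h v.val (mem_five.2 ⟨v, rfl⟩)
      rw [Bool.or_eq_true, pk_enc] at h1
      rcases h1 with h1 | h1
      · exact absurd h1 hv
      rw [List.all_eq_true] at h1
      have h2 := h1 (x.val + 1) (mem_cols.2 ⟨x, rfl⟩)
      rw [(legalB_iff hA c p v x).2 hx] at h2
      simp only [Bool.not_true, Bool.false_or] at h2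
      exact hsucc true v x hv h2
    · have hb : (bc true == 1) = true := rfl
      rw [hb] at h
      simp only [if_true, List.any_eq_true] at h
      obtain ⟨v', hv', h⟩ := h
      obtain ⟨v, rfl⟩ := mem_five.1 hv'
      rw [Bool.and_eq_true, Bool.not_eq_true', Bool.or_eq_true] at h
      obtain ⟨hpk, h⟩ := h
      have hv : v ∉ p := by
        intro e
        rw [(pk_enc c p v).2 e] at hpk
        exact absurd hpk (by decide)
      rcases h with h | h
      · refine BobWins.stuck r c p hr v hv fun x hx => ?_
        rw [List.all_eq_true] at h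
        have h2 := h (x.val + 1) (mem_cols.2 ⟨x, rfl⟩)
        rw [(legalB_iff hA c p v x).2 hx] at h2
        exact absurd h2 (by decide)
      · rw [List.any_eq_true] at h
        obtain ⟨x', hx', h⟩ := h
        obtain ⟨x, rfl⟩ := mem_cols.1 hx'
        rw [Bool.and_eq_true] at h
        exact BobWins.bob r c p hr v hv x ((legalB_iff hA c p v x).1 h.1) (hsucc false v x hv h.2)

theorem table_alive {A : List (List ℕ)} {G : SimpleGraph (Fin 5)} (hA : IsNbr A G)
    {T : List (List ℕ)} (hT : T.all (checkA A k T) = true) :
    ∀ (m : ℕ) (b : Bool) (r : ℕ) (c : Fin 5 → Option (Fin k)) (p : Finset (Fin 5)),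
      6 * r + (5 - p.card) ≤ m → (bc b :: r :: enc c p) ∈ T → ¬ BobWins G b r c p := by
  intro m
  induction m with
  | zero =>
    intro b r c p hm hmem hw
    have : 0 < r := by cases hw <;> assumption
    omega
  | succ m ih =>
    intro b r c p hm hmem hw
    have hr : 0 < r := by cases hw <;> assumption
    have hT' := hT
    rw [List.all_eq_true] at hT'
    have h := hT' _ hmem
    unfold checkA at h
    dsimp only at h
    -- a successor in the table is not won
    have hsucc : ∀ (b' : Bool) (v : Fin 5) (x : Fin k), v ∉ p →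
        ((nxt k (bc b') r (enc c p) v.val (x.val + 1)).getD 1 0 == 0) = true ∨
        T.contains (nxt k (bc b') r (enc c p) v.val (x.val + 1)) = true →
        ¬ BobWins G b' (nextRounds r p v) (play c v x) (nextPicked p v) := by
      intro b' v x hv hc hw'
      obtain ⟨σ, hσ⟩ := nxt_spec (bc b') r c p v x
      rw [hσ] at hc
      rcases hc with hc | hc
      · have h0 : nextRounds r p v = 0 := by simpa using hc
        rw [h0] at hw'
        cases hw' <;> omega
      · refine ih _ _ _ _ ?_ (by simpa using hc) (wins_ren σ hw')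
        have := measure_lt hr hv
        omega
    cases b
    · have hb : (bc false == 1) = false := rfl
      rw [hb] at h
      simp only [Bool.false_eq_true, if_false, List.any_eq_true] at h
      obtain ⟨v', hv', h⟩ := h
      obtain ⟨v, rfl⟩ := mem_five.1 hv'
      rw [Bool.and_eq_true, Bool.not_eq_true', List.any_eq_true] at h
      obtain ⟨hpk, x', hx', h⟩ := h
      obtain ⟨x, rfl⟩ := mem_cols.1 hx'
      rw [Bool.and_eq_true, Bool.or_eq_true] at h
      have hv : v ∉ p := by
        intro e
        rw [(pk_enc c p v).2 e] at hpk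
        exact absurd hpk (by decide)
      cases hw with
      | alice _ _ _ _ hall =>
        exact hsucc true v x hv h.2 (hall v hv x ((legalB_iff hA c p v x).1 h.1))
    · have hb : (bc true == 1) = true := rfl
      rw [hb] at h
      simp only [if_true, List.all_eq_true] at h
      have key : ∀ v : Fin 5, v ∉ p → (∃ x, Legal G c v x) ∧ ∀ x, Legal G c v x →
          ¬ BobWins G false (nextRounds r p v) (play c v x) (nextPicked p v) := by
        intro v hv
        have h1 := h v.val (mem_five.2 ⟨v, rfl⟩)
        rw [Bool.or_eq_true, pk_enc] at h1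
        rcases h1 with h1 | h1
        · exact absurd h1 hv
        rw [Bool.and_eq_true, List.any_eq_true, List.all_eq_true] at h1
        obtain ⟨⟨x', hx', h2⟩, h3⟩ := h1
        obtain ⟨x, rfl⟩ := mem_cols.1 hx'
        refine ⟨⟨x, (legalB_iff hA c p v x).1 h2⟩, fun y hy => ?_⟩
        have h4 := h3 (y.val + 1) (mem_cols.2 ⟨y, rfl⟩)
        rw [(legalB_iff hA c p v y).2 hy] at h4
        simp only [Bool.not_true, Bool.false_or, Bool.or_eq_true] at h4
        exact hsucc false v y hv h4
      cases hw with
      | stuck _ _ _ _ v hv hst =>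
        obtain ⟨⟨x, hx⟩, -⟩ := key v hv
        exact hst x hx
      | bob _ _ _ _ v hv x hx hw' => exact (key v hv).2 x hx hw'

end

end Q128.Eternal
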