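import Pool.Agent.Q128.EternalSearch

/-!
# The eternal vertex colouring game on the fan with five vertices: tables of positions
-/

set_option autoImplicit false

namespace Q128.Eternal

/-- positions won by Bob with 0 colours -/
def W0 : List (List ℕ) := [
  [0, 1, 0, 0, 0, 0, 0]]

/-- positions won by Bob with 1 colours -/
def W1 : List (List ℕ) := [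
  [0, 1, 0, 0, 0, 0, 0], [1, 1, 0, 0, 0, 0, 3], [1, 1, 0, 0, 0, 3, 0], [1, 1, 0, 0, 3, 0, 0],
  [1, 1, 0, 3, 0, 0, 0], [1, 1, 3, 0, 0, 0, 0]]

/-- positions won by Bob with 2 colours -/
def W2 : List (List ℕ) := [
  [0, 1, 0, 0, 0, 0, 0], [0, 1, 3, 0, 0, 0, 5], [0, 1, 3, 0, 0, 3, 0], [0, 1, 3, 0, 3, 0, 0],
  [0, 1, 3, 5, 0, 0, 0], [1, 1, 0, 0, 0, 0, 3], [1, 1, 0, 0, 0, 3, 0], [1, 1, 0, 0, 3, 0, 0],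
  [1, 1, 0, 3, 0, 0, 0], [1, 1, 3, 0, 0, 0, 0], [1, 1, 3, 0, 0, 3, 5], [1, 1, 3, 0, 3, 0, 5],
  [1, 1, 3, 0, 3, 5, 0], [1, 1, 3, 0, 5, 3, 0], [1, 1, 3, 5, 0, 3, 0], [1, 1, 3, 5, 0, 5, 0],
  [1, 1, 3, 5, 3, 0, 0]]

/-- positions won by Bob with 3 colours -/
def W3 : List (List ℕ) := [
  [0, 2, 0, 0, 0, 0, 0], [0, 2, 3, 0, 0, 0, 5], [0, 2, 3, 0, 0, 3, 0], [0, 2, 3, 0, 3, 0, 0],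
  [0, 2, 3, 5, 0, 0, 0], [0, 2, 3, 5, 0, 3, 7], [0, 2, 3, 5, 0, 5, 7], [0, 2, 3, 5, 3, 0, 7],
  [0, 2, 3, 5, 3, 5, 0], [0, 2, 3, 5, 7, 3, 0], [1, 1, 2, 4, 2, 4, 6], [1, 2, 0, 0, 0, 0, 3],
  [1, 2, 0, 0, 0, 3, 0], [1, 2, 0, 0, 3, 0, 0], [1, 2, 0, 3, 0, 0, 0], [1, 2, 3, 0, 0, 0, 0],
  [1, 2, 3, 0, 0, 3, 5], [1, 2, 3, 0, 0, 5, 7], [1, 2, 3, 0, 3, 0, 5], [1, 2, 3, 0, 3, 5, 0],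
  [1, 2, 3, 0, 5, 0, 7], [1, 2, 3, 0, 5, 3, 0], [1, 2, 3, 5, 0, 0, 7], [1, 2, 3, 5, 0, 3, 0],
  [1, 2, 3, 5, 0, 5, 0], [1, 2, 3, 5, 0, 7, 0], [1, 2, 3, 5, 3, 0, 0], [1, 2, 3, 5, 7, 0, 0]]

/-- positions won by Bob with 4 colours -/
def W4 : List (List ℕ) := [
  [0, 2, 0, 0, 0, 0, 0], [0, 1, 2, 4, 2, 4, 7], [0, 2, 3, 0, 0, 0, 5], [0, 2, 3, 0, 0, 3, 0],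
  [0, 2, 3, 0, 3, 0, 0], [0, 2, 3, 5, 0, 0, 0], [0, 2, 3, 5, 0, 3, 7], [0, 2, 3, 5, 0, 5, 7],
  [0, 2, 3, 5, 3, 0, 7], [0, 2, 3, 5, 3, 5, 0], [0, 2, 3, 5, 3, 7, 0], [0, 2, 3, 5, 7, 0, 9],
  [0, 2, 3, 5, 7, 3, 0], [1, 1, 2, 4, 2, 4, 6], [1, 1, 2, 4, 2, 6, 8], [1, 1, 2, 4, 2, 7, 9],
  [1, 1, 2, 4, 6, 2, 8], [1, 1, 2, 4, 6, 4, 8], [1, 1, 2, 4, 7, 4, 9], [1, 1, 2, 5, 2, 6, 9],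
  [1, 1, 3, 4, 6, 4, 9], [1, 2, 0, 0, 0, 0, 3], [1, 2, 0, 0, 0, 3, 0], [1, 2, 0, 0, 3, 0, 0],
  [1, 2, 0, 3, 0, 0, 0], [1, 2, 3, 0, 0, 0, 0], [1, 2, 3, 0, 0, 3, 5], [1, 2, 3, 0, 0, 5, 7],
  [1, 2, 3, 0, 3, 0, 5], [1, 2, 3, 0, 3, 5, 0], [1, 2, 3, 0, 5, 0, 7], [1, 2, 3, 0, 5, 3, 0],
  [1, 2, 3, 5, 0, 0, 7], [1, 2, 3, 5, 0, 3, 0], [1, 2, 3, 5, 0, 5, 0], [1, 2, 3, 5, 0, 7, 0],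
  [1, 2, 3, 5, 3, 0, 0], [1, 2, 3, 5, 7, 0, 0]]

/-- positions won by Bob with 5 colours -/
def W5 : List (List ℕ) := [
  [0, 6, 0, 0, 0, 0, 0], [0, 2, 2, 4, 6, 8, 10], [0, 2, 2, 5, 6, 3, 8], [0, 2, 3, 4, 2, 5, 6],
  [0, 2, 3, 4, 7, 2, 8], [0, 2, 3, 4, 7, 5, 9], [0, 2, 3, 5, 2, 7, 9], [0, 2, 3, 5, 7, 9, 10],
  [0, 3, 3, 4, 2, 6, 8], [0, 3, 3, 5, 2, 4, 7], [0, 3, 3, 5, 2, 7, 8], [0, 4, 2, 4, 2, 6, 8],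
  [0, 4, 2, 4, 6, 2, 8], [0, 4, 2, 4, 6, 4, 8], [0, 4, 2, 4, 6, 8, 10], [0, 4, 2, 5, 2, 4, 7],
  [0, 4, 2, 5, 2, 7, 8], [0, 4, 2, 5, 6, 3, 8], [0, 4, 2, 5, 6, 9, 10], [0, 4, 3, 4, 2, 4, 7],
  [0, 4, 3, 4, 2, 5, 6], [0, 4, 3, 4, 2, 6, 9], [0, 4, 3, 4, 6, 3, 8], [0, 4, 3, 4, 7, 2, 8],
  [0, 4, 3, 4, 7, 3, 9], [0, 4, 3, 4, 7, 4, 8], [0, 4, 3, 4, 7, 5, 9], [0, 4, 3, 4, 7, 8, 10],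
  [0, 4, 3, 5, 2, 7, 9], [0, 4, 3, 5, 6, 3, 9], [0, 4, 3, 5, 7, 3, 8], [0, 4, 3, 5, 7, 4, 9],
  [0, 4, 3, 5, 7, 9, 10], [0, 5, 3, 4, 2, 4, 6], [0, 5, 3, 4, 2, 6, 8], [0, 5, 3, 4, 3, 4, 7],
  [0, 5, 3, 4, 6, 2, 8], [0, 5, 3, 4, 6, 4, 8], [0, 5, 3, 5, 2, 5, 6], [0, 5, 3, 5, 2, 6, 9],
  [0, 5, 3, 5, 2, 7, 8], [0, 5, 3, 5, 6, 2, 9], [0, 5, 3, 5, 6, 3, 8], [0, 5, 3, 5, 6, 8, 11],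
  [0, 5, 3, 5, 6, 9, 10], [0, 5, 3, 5, 7, 2, 8], [0, 5, 3, 5, 7, 8, 10], [0, 6, 3, 0, 0, 0, 5],
  [0, 6, 3, 0, 0, 3, 0], [0, 6, 3, 0, 3, 0, 0], [0, 6, 3, 5, 0, 0, 0], [0, 6, 3, 5, 0, 3, 7],
  [0, 6, 3, 5, 0, 5, 7], [0, 6, 3, 5, 3, 0, 7], [0, 6, 3, 5, 3, 5, 0], [0, 6, 3, 5, 3, 7, 0],
  [0, 6, 3, 5, 7, 0, 9], [0, 6, 3, 5, 7, 3, 0], [1, 1, 2, 4, 6, 8, 10], [1, 2, 2, 4, 3, 6, 8],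
  [1, 2, 2, 4, 6, 3, 8], [1, 2, 2, 4, 6, 5, 8], [1, 2, 2, 5, 6, 3, 9], [1, 2, 2, 5, 6, 4, 8],
  [1, 2, 2, 5, 7, 3, 8], [1, 2, 3, 4, 2, 5, 7], [1, 2, 3, 4, 2, 6, 8], [1, 2, 3, 4, 6, 2, 8],
  [1, 2, 3, 4, 7, 2, 9], [1, 2, 3, 4, 7, 5, 8], [1, 2, 3, 4, 7, 9, 10], [1, 2, 3, 5, 2, 7, 8],
  [1, 2, 3, 5, 6, 9, 10], [1, 2, 3, 5, 7, 2, 8], [1, 3, 2, 4, 6, 2, 8], [1, 3, 2, 4, 6, 8, 10],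
  [1, 3, 3, 4, 2, 5, 6], [1, 3, 3, 4, 2, 6, 9], [1, 3, 3, 4, 2, 7, 8], [1, 3, 3, 4, 7, 8, 10],
  [1, 3, 3, 5, 2, 4, 6], [1, 3, 3, 5, 2, 6, 8], [1, 3, 3, 5, 2, 7, 9], [1, 3, 3, 5, 7, 4, 9],
  [1, 3, 3, 5, 7, 9, 10], [1, 4, 2, 4, 2, 5, 6], [1, 4, 2, 4, 2, 6, 9], [1, 4, 2, 4, 2, 7, 8],
  [1, 4, 2, 4, 3, 4, 6], [1, 4, 2, 4, 3, 6, 8], [1, 4, 2, 4, 6, 2, 9], [1, 4, 2, 4, 6, 3, 8],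
  [1, 4, 2, 4, 6, 4, 9], [1, 4, 2, 4, 6, 5, 8], [1, 4, 2, 4, 6, 9, 10], [1, 4, 2, 4, 7, 2, 8],
  [1, 4, 2, 4, 7, 4, 8], [1, 4, 2, 4, 7, 8, 10], [1, 4, 2, 5, 2, 4, 6], [1, 4, 2, 5, 2, 6, 8],
  [1, 4, 2, 5, 2, 7, 9], [1, 4, 2, 5, 3, 7, 8], [1, 4, 2, 5, 6, 2, 8], [1, 4, 2, 5, 6, 3, 9],
  [1, 4, 2, 5, 6, 4, 8], [1, 4, 2, 5, 6, 8, 10], [1, 4, 2, 5, 7, 3, 8], [1, 4, 2, 5, 7, 4, 9],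
  [1, 4, 2, 5, 7, 9, 10], [1, 4, 3, 4, 2, 4, 6], [1, 4, 3, 4, 2, 5, 7], [1, 4, 3, 4, 2, 6, 8],
  [1, 4, 3, 4, 2, 7, 9], [1, 4, 3, 4, 6, 2, 8], [1, 4, 3, 4, 6, 3, 9], [1, 4, 3, 4, 6, 4, 8],
  [1, 4, 3, 4, 6, 8, 10], [1, 4, 3, 4, 7, 2, 9], [1, 4, 3, 4, 7, 3, 8], [1, 4, 3, 4, 7, 4, 9],
  [1, 4, 3, 4, 7, 5, 8], [1, 4, 3, 4, 7, 8, 11], [1, 4, 3, 4, 7, 9, 10], [1, 4, 3, 5, 2, 4, 7],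
  [1, 4, 3, 5, 2, 6, 9], [1, 4, 3, 5, 2, 7, 8], [1, 4, 3, 5, 6, 3, 8], [1, 4, 3, 5, 6, 4, 9],
  [1, 4, 3, 5, 6, 9, 10], [1, 4, 3, 5, 7, 2, 8], [1, 4, 3, 5, 7, 4, 8], [1, 4, 3, 5, 7, 8, 10],
  [1, 5, 2, 4, 2, 4, 6], [1, 5, 2, 4, 2, 6, 8], [1, 5, 2, 4, 6, 2, 8], [1, 5, 2, 4, 6, 4, 8],
  [1, 5, 2, 4, 6, 8, 10], [1, 5, 3, 4, 2, 4, 7], [1, 5, 3, 4, 2, 5, 6], [1, 5, 3, 4, 2, 6, 9],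
  [1, 5, 3, 4, 2, 7, 8], [1, 5, 3, 4, 3, 4, 6], [1, 5, 3, 4, 3, 7, 9], [1, 5, 3, 4, 6, 2, 9],
  [1, 5, 3, 4, 6, 3, 8], [1, 5, 3, 4, 6, 4, 9], [1, 5, 3, 4, 6, 5, 8], [1, 5, 3, 4, 6, 9, 10],
  [1, 5, 3, 4, 7, 2, 8], [1, 5, 3, 4, 7, 4, 8], [1, 5, 3, 4, 7, 8, 10], [1, 5, 3, 5, 2, 4, 6],
  [1, 5, 3, 5, 2, 5, 7], [1, 5, 3, 5, 2, 6, 8], [1, 5, 3, 5, 2, 7, 9], [1, 5, 3, 5, 3, 6, 9],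
  [1, 5, 3, 5, 3, 7, 8], [1, 5, 3, 5, 6, 2, 8], [1, 5, 3, 5, 6, 3, 9], [1, 5, 3, 5, 6, 5, 9],
  [1, 5, 3, 5, 6, 8, 10], [1, 5, 3, 5, 6, 9, 11], [1, 5, 3, 5, 7, 2, 9], [1, 5, 3, 5, 7, 3, 8],
  [1, 5, 3, 5, 7, 5, 8], [1, 5, 3, 5, 7, 8, 11], [1, 5, 3, 5, 7, 9, 10], [1, 6, 0, 0, 0, 0, 3],
  [1, 6, 0, 0, 0, 3, 0], [1, 6, 0, 0, 3, 0, 0], [1, 6, 0, 3, 0, 0, 0], [1, 6, 3, 0, 0, 0, 0],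
  [1, 6, 3, 0, 0, 3, 5], [1, 6, 3, 0, 0, 5, 7], [1, 6, 3, 0, 3, 0, 5], [1, 6, 3, 0, 3, 5, 0],
  [1, 6, 3, 0, 5, 0, 7], [1, 6, 3, 0, 5, 3, 0], [1, 6, 3, 5, 0, 0, 7], [1, 6, 3, 5, 0, 3, 0],
  [1, 6, 3, 5, 0, 5, 0], [1, 6, 3, 5, 0, 7, 0], [1, 6, 3, 5, 3, 0, 0], [1, 6, 3, 5, 7, 0, 0]]

/-- positions from which Bob cannot force his win in the given number of rounds, with 5 colours -/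
def A5 : List (List ℕ) := [
  [0, 5, 0, 0, 0, 0, 0], [0, 1, 2, 4, 2, 4, 6], [0, 1, 2, 4, 2, 6, 8], [0, 1, 2, 4, 6, 2, 8],
  [0, 1, 2, 4, 6, 4, 8], [0, 1, 2, 4, 6, 8, 10], [0, 1, 3, 4, 2, 4, 7], [0, 1, 3, 4, 2, 5, 6],
  [0, 1, 3, 4, 2, 6, 9], [0, 1, 3, 4, 2, 7, 8], [0, 1, 3, 4, 3, 4, 6], [0, 1, 3, 4, 3, 5, 7],
  [0, 1, 3, 4, 6, 2, 9], [0, 1, 3, 4, 6, 3, 8], [0, 1, 3, 4, 6, 4, 9], [0, 1, 3, 4, 6, 5, 8],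
  [0, 1, 3, 4, 6, 9, 10], [0, 1, 3, 4, 7, 2, 8], [0, 1, 3, 4, 7, 3, 9], [0, 1, 3, 4, 7, 4, 8],
  [0, 1, 3, 4, 7, 5, 9], [0, 1, 3, 4, 7, 8, 10], [0, 1, 3, 4, 7, 9, 11], [0, 1, 3, 5, 2, 4, 6],
  [0, 1, 3, 5, 2, 5, 7], [0, 1, 3, 5, 2, 6, 8], [0, 1, 3, 5, 2, 7, 9], [0, 1, 3, 5, 3, 5, 6],
  [0, 1, 3, 5, 3, 6, 9], [0, 1, 3, 5, 3, 7, 8], [0, 1, 3, 5, 6, 2, 8], [0, 1, 3, 5, 6, 3, 9],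
  [0, 1, 3, 5, 6, 5, 9], [0, 1, 3, 5, 6, 8, 10], [0, 1, 3, 5, 6, 9, 11], [0, 1, 3, 5, 7, 2, 9],
  [0, 1, 3, 5, 7, 3, 8], [0, 1, 3, 5, 7, 4, 9], [0, 1, 3, 5, 7, 5, 8], [0, 1, 3, 5, 7, 8, 11],
  [0, 2, 2, 4, 2, 4, 7], [0, 2, 2, 4, 2, 5, 6], [0, 2, 2, 4, 2, 6, 9], [0, 2, 2, 4, 2, 7, 8],
  [0, 2, 2, 4, 3, 4, 6], [0, 2, 2, 4, 6, 2, 9], [0, 2, 2, 4, 6, 3, 8], [0, 2, 2, 4, 6, 4, 9],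
  [0, 2, 2, 4, 6, 5, 8], [0, 2, 2, 4, 6, 9, 10], [0, 2, 2, 4, 7, 2, 8], [0, 2, 2, 4, 7, 4, 8],
  [0, 2, 2, 4, 7, 8, 10], [0, 2, 2, 5, 2, 4, 6], [0, 2, 2, 5, 2, 6, 8], [0, 2, 2, 5, 6, 2, 8],
  [0, 2, 2, 5, 6, 8, 10], [0, 2, 3, 4, 2, 4, 6], [0, 2, 3, 4, 2, 5, 7], [0, 2, 3, 4, 2, 6, 8],
  [0, 2, 3, 4, 2, 7, 9], [0, 2, 3, 4, 3, 4, 7], [0, 2, 3, 4, 3, 5, 6], [0, 2, 3, 4, 3, 6, 9],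
  [0, 2, 3, 4, 3, 7, 8], [0, 2, 3, 4, 6, 2, 8], [0, 2, 3, 4, 6, 3, 9], [0, 2, 3, 4, 6, 4, 8],
  [0, 2, 3, 4, 6, 5, 9], [0, 2, 3, 4, 6, 8, 10], [0, 2, 3, 4, 6, 9, 11], [0, 2, 3, 4, 7, 2, 9],
  [0, 2, 3, 4, 7, 3, 8], [0, 2, 3, 4, 7, 4, 9], [0, 2, 3, 4, 7, 5, 8], [0, 2, 3, 4, 7, 8, 11],
  [0, 2, 3, 4, 7, 9, 10], [0, 2, 3, 5, 2, 4, 7], [0, 2, 3, 5, 2, 5, 6], [0, 2, 3, 5, 2, 6, 9],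
  [0, 2, 3, 5, 2, 7, 8], [0, 2, 3, 5, 3, 4, 6], [0, 2, 3, 5, 3, 6, 8], [0, 2, 3, 5, 6, 2, 9],
  [0, 2, 3, 5, 6, 3, 8], [0, 2, 3, 5, 6, 4, 9], [0, 2, 3, 5, 6, 5, 8], [0, 2, 3, 5, 6, 8, 11],
  [0, 2, 3, 5, 6, 9, 10], [0, 2, 3, 5, 7, 2, 8], [0, 2, 3, 5, 7, 4, 8], [0, 2, 3, 5, 7, 8, 10],
  [0, 3, 2, 4, 2, 4, 6], [0, 3, 2, 4, 2, 6, 8], [0, 3, 2, 4, 6, 2, 8], [0, 3, 2, 4, 6, 4, 8],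
  [0, 3, 2, 5, 2, 4, 7], [0, 3, 2, 5, 2, 7, 8], [0, 3, 2, 5, 6, 2, 9], [0, 3, 2, 5, 6, 5, 8],
  [0, 3, 2, 5, 6, 9, 10], [0, 3, 2, 5, 7, 2, 8], [0, 3, 2, 5, 7, 4, 8], [0, 3, 3, 4, 2, 4, 7],
  [0, 3, 3, 4, 2, 7, 8], [0, 3, 3, 4, 3, 4, 6], [0, 3, 3, 4, 6, 3, 8], [0, 3, 3, 4, 6, 4, 9],
  [0, 3, 3, 4, 6, 9, 10], [0, 3, 3, 4, 7, 3, 9], [0, 3, 3, 4, 7, 4, 8], [0, 3, 3, 4, 7, 9, 11],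
  [0, 3, 3, 5, 2, 5, 7], [0, 3, 3, 5, 2, 6, 8], [0, 3, 3, 5, 3, 4, 7], [0, 3, 3, 5, 3, 5, 6],
  [0, 3, 3, 5, 3, 6, 9], [0, 3, 3, 5, 3, 7, 8], [0, 3, 3, 5, 6, 3, 9], [0, 3, 3, 5, 6, 4, 8],
  [0, 3, 3, 5, 6, 5, 9], [0, 3, 3, 5, 6, 8, 10], [0, 3, 3, 5, 6, 9, 11], [0, 3, 3, 5, 7, 3, 8],
  [0, 3, 3, 5, 7, 4, 9], [0, 3, 3, 5, 7, 5, 8], [0, 3, 3, 5, 7, 8, 11], [0, 4, 2, 4, 2, 4, 7],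
  [0, 4, 2, 4, 2, 5, 6], [0, 4, 2, 4, 2, 6, 9], [0, 4, 2, 4, 2, 7, 8], [0, 4, 2, 4, 3, 4, 6],
  [0, 4, 2, 4, 6, 3, 8], [0, 4, 2, 4, 6, 4, 9], [0, 4, 2, 4, 6, 9, 10], [0, 4, 2, 4, 7, 3, 9],
  [0, 4, 2, 4, 7, 4, 8], [0, 4, 2, 4, 7, 8, 10], [0, 4, 2, 5, 2, 4, 6], [0, 4, 2, 5, 2, 6, 8],
  [0, 4, 2, 5, 2, 7, 9], [0, 4, 2, 5, 6, 8, 10], [0, 4, 2, 5, 7, 3, 8], [0, 4, 2, 5, 7, 9, 10],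
  [0, 4, 3, 4, 2, 4, 6], [0, 4, 3, 4, 2, 7, 9], [0, 4, 3, 4, 3, 4, 7], [0, 4, 3, 4, 3, 7, 8],
  [0, 4, 3, 4, 6, 2, 8], [0, 4, 3, 4, 6, 3, 9], [0, 4, 3, 4, 6, 4, 8], [0, 4, 3, 4, 6, 5, 9],
  [0, 4, 3, 4, 6, 8, 10], [0, 4, 3, 4, 6, 9, 11], [0, 4, 3, 4, 7, 2, 9], [0, 4, 3, 4, 7, 3, 8],
  [0, 4, 3, 4, 7, 4, 9], [0, 4, 3, 4, 7, 9, 10], [0, 4, 3, 5, 2, 6, 9], [0, 4, 3, 5, 6, 2, 9],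
  [0, 4, 3, 5, 6, 3, 8], [0, 4, 3, 5, 6, 5, 8], [0, 4, 3, 5, 6, 8, 11], [0, 4, 3, 5, 6, 9, 10],
  [0, 4, 3, 5, 7, 2, 8], [0, 4, 3, 5, 7, 8, 10], [0, 5, 0, 0, 0, 3, 5], [0, 5, 0, 0, 3, 0, 5],
  [0, 5, 0, 3, 0, 0, 5], [0, 5, 0, 3, 5, 3, 7], [0, 5, 0, 3, 5, 7, 9], [0, 5, 3, 0, 0, 0, 5],
  [0, 5, 3, 0, 3, 5, 7], [0, 5, 3, 0, 5, 7, 9], [0, 5, 3, 5, 0, 5, 7], [0, 5, 3, 5, 0, 7, 9],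
  [0, 5, 3, 5, 3, 0, 7], [0, 5, 3, 5, 7, 0, 9], [1, 1, 3, 4, 2, 4, 6], [1, 1, 3, 4, 2, 5, 7],
  [1, 1, 3, 4, 2, 6, 8], [1, 1, 3, 4, 3, 5, 6], [1, 1, 3, 4, 6, 2, 8], [1, 1, 3, 4, 6, 4, 8],
  [1, 1, 3, 4, 7, 2, 9], [1, 1, 3, 4, 7, 3, 8], [1, 1, 3, 5, 2, 4, 7], [1, 1, 3, 5, 2, 5, 6],
  [1, 1, 3, 5, 2, 6, 9], [1, 1, 3, 5, 3, 6, 8], [1, 1, 3, 5, 6, 2, 9], [1, 1, 3, 5, 6, 5, 8],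
  [1, 1, 3, 5, 6, 8, 11], [1, 2, 2, 4, 2, 4, 6], [1, 2, 2, 4, 2, 6, 8], [1, 2, 2, 4, 6, 2, 8],
  [1, 2, 2, 4, 6, 4, 8], [1, 2, 3, 4, 2, 4, 7], [1, 2, 3, 4, 2, 5, 6], [1, 2, 3, 4, 2, 6, 9],
  [1, 2, 3, 4, 2, 7, 8], [1, 2, 3, 4, 3, 4, 6], [1, 2, 3, 4, 3, 6, 8], [1, 2, 3, 4, 6, 2, 9],
  [1, 2, 3, 4, 6, 3, 8], [1, 2, 3, 4, 6, 4, 9], [1, 2, 3, 4, 6, 5, 8], [1, 2, 3, 4, 7, 4, 8],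
  [1, 2, 3, 4, 7, 5, 9], [1, 2, 3, 5, 2, 5, 7], [1, 2, 3, 5, 2, 6, 8], [1, 2, 3, 5, 2, 7, 9],
  [1, 2, 3, 5, 3, 5, 6], [1, 2, 3, 5, 3, 6, 9], [1, 2, 3, 5, 3, 7, 8], [1, 2, 3, 5, 6, 2, 8],
  [1, 2, 3, 5, 6, 3, 9], [1, 2, 3, 5, 6, 4, 8], [1, 2, 3, 5, 6, 5, 9], [1, 2, 3, 5, 7, 3, 8],
  [1, 2, 3, 5, 7, 4, 9], [1, 2, 3, 5, 7, 5, 8], [1, 2, 3, 5, 7, 8, 11], [1, 3, 2, 5, 2, 4, 6],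
  [1, 3, 2, 5, 6, 2, 8], [1, 3, 3, 4, 2, 4, 6], [1, 3, 3, 4, 6, 4, 8], [1, 3, 3, 4, 7, 4, 9],
  [1, 3, 3, 5, 2, 5, 6], [1, 3, 3, 5, 3, 4, 6], [1, 3, 3, 5, 3, 6, 8], [1, 3, 3, 5, 6, 3, 8],
  [1, 3, 3, 5, 6, 4, 9], [1, 3, 3, 5, 6, 5, 8], [1, 3, 3, 5, 6, 8, 11], [1, 4, 2, 4, 2, 4, 6],
  [1, 4, 2, 4, 2, 6, 8], [1, 4, 2, 4, 6, 4, 8], [1, 4, 2, 4, 7, 3, 8], [1, 4, 2, 5, 2, 7, 8],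
  [1, 4, 3, 4, 2, 4, 7], [1, 4, 3, 4, 3, 7, 9], [1, 4, 3, 4, 6, 2, 9], [1, 4, 3, 4, 6, 3, 8],
  [1, 4, 3, 4, 6, 4, 9], [1, 4, 3, 4, 7, 4, 8], [1, 4, 3, 4, 7, 9, 11], [1, 4, 3, 5, 2, 5, 7],
  [1, 4, 3, 5, 3, 7, 8], [1, 4, 3, 5, 6, 2, 8], [1, 4, 3, 5, 6, 3, 9], [1, 4, 3, 5, 6, 5, 9],
  [1, 4, 3, 5, 6, 9, 11], [1, 4, 3, 5, 7, 3, 8], [1, 4, 3, 5, 7, 5, 8], [1, 4, 3, 5, 7, 8, 11],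
  [1, 5, 0, 0, 0, 0, 3], [1, 5, 0, 3, 5, 0, 7], [1, 5, 3, 0, 0, 5, 7], [1, 5, 3, 0, 3, 0, 5]]

end Q128.Eternal
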