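import Mathlib

/-!
# FAT colourings: definitions
-/

set_option autoImplicit false

namespace Q128.Fat

open SimpleGraph

/-- The number `e(v, V_i)` of neighbours of `v` of colour `i`. -/
noncomputable def count {V : Type} (G : SimpleGraph V) {k : ℕ} (c : V → Fin k) (v : V) (i : Fin k) : ℕ :=
  {w | G.Adj v w ∧ c w = i}.ncard

/-- The degree of `v`. -/
noncomputable def deg {V : Type} (G : SimpleGraph V) (v : V) : ℕ := (G.neighborSet v).ncard

/-- `c` is a FAT `k`-colouring of `G` (all `k` classes nonempty) with parameter `α`: with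
`β = 1 - (k - 1) α`, every vertex `v` has `α deg v` neighbours in every class not containing it and
`β deg v` neighbours in its own class. -/
def IsFAT {V : Type} (G : SimpleGraph V) {k : ℕ} (c : V → Fin k) (α : ℝ) : Prop :=
  Function.Surjective c ∧ 0 ≤ α ∧ α ≤ 1 ∧ ∀ v i,
    (c v ≠ i → (count G c v i : ℝ) = α * deg G v) ∧
    (c v = i → (count G c v i : ℝ) = (1 - ((k : ℝ) - 1) * α) * deg G v)

/-- The FAT chromatic number: the largest `k` such that `G` has a FAT `k`-colouring. -/
noncomputable def fatChromaticNumber {V : Type} (G : SimpleGraph V) : ℕ :=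
  sSup {k | ∃ c : V → Fin k, ∃ α : ℝ, IsFAT G c α}

end Q128.Fat
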