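import Pool.Agent.Q128.FatIrrDefs

/-!
# Irreducible FAT colourings of doubled graphs
-/

set_option autoImplicit false

namespace Q128.FatIrr

open SimpleGraph Classical

section basic

variable {V : Type} [Fintype V] {G : SimpleGraph V}

theorem ncard_eq_sum (p : V → Prop) : {w | p w}.ncard = ∑ w, if p w then 1 else 0 := by
  rw [Set.ncard_eq_toFinset_card', Finset.sum_boole]
  simp

/-- the number of neighbours of `v` in the class of `x` -/
noncomputable def cnt (G : SimpleGraph V) (s : Setoid V) (v x : V) : ℕ :=
  ∑ w, if G.Adj v w ∧ s w x then 1 else 0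

/-- all degrees are `d` -/
def Reg (G : SimpleGraph V) (d : ℕ) : Prop := ∀ v, ∑ w, (if G.Adj v w then 1 else 0) = d

theorem deg_eq {d : ℕ} (h : Reg G d) (v : V) : deg G v = d := by
  rw [← h v]
  exact ncard_eq_sum _

theorem deg_eq_sum {k : ℕ} (c : V → Fin k) (v : V) : deg G v = ∑ i, count G c v i := by
  unfold deg count
  have h1 : (G.neighborSet v).ncard = (Finset.univ.filter fun w => G.Adj v w).card := by
    rw [← Set.ncard_coe_finset]
    congr 1
    ext w
    simp
  rw [h1, Finset.card_eq_sum_card_fiberwise (t := Finset.univ) (f := c) (fun _ _ => Finset.mem_univ _)]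
  apply Finset.sum_congr rfl
  intro i _
  rw [← Set.ncard_coe_finset]
  congr 1
  ext w
  simp

/-- the natural number version of the definition -/
def NF (G : SimpleGraph V) (s : Setoid V) : Prop :=
  ∃ a b : ℕ, ∀ v x, (¬ s v x → cnt G s v x = a) ∧ (s v x → cnt G s v x = b)

theorem count_eq_cnt {k : ℕ} (c : V → Fin k) (v x : V) :
    count G c v (c x) = cnt G (Setoid.ker c) v x := by
  unfold count cnt
  rw [ncard_eq_sum]
  apply Finset.sum_congr rfl
  intro w _
  by_cases h : G.Adj v w ∧ c w = c x
  · rw [if_pos h, if_pos (show G.Adj v w ∧ (Setoid.ker c) w x from h)]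
  · rw [if_neg h, if_neg (show ¬ (G.Adj v w ∧ (Setoid.ker c) w x) from h)]

theorem fat_iff [Nonempty V] {d : ℕ} (hd : 1 ≤ d) (h : Reg G d) (s : Setoid V) :
    IsFATPartition G s ↔ NF G s := by
  have hd' : (0 : ℝ) < d := by exact_mod_cast hd
  constructor
  · rintro ⟨k, c, ⟨α, h0, h1, hc⟩, rfl⟩
    obtain ⟨v0⟩ := (inferInstance : Nonempty V)
    refine ⟨if h : ∃ v x, c v ≠ c x then count G c h.choose (c h.choose_spec.choose) else 0,
      count G c v0 (c v0), fun v x => ⟨fun hvx => ?_, fun hvx => ?_⟩⟩
    · have hvx' : c v ≠ c x := hvx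
      have hex : ∃ v x, c v ≠ c x := ⟨v, x, hvx'⟩
      rw [dif_pos hex, ← count_eq_cnt]
      have e1 := (hc v (c x)).1 hvx'
      have e2 := (hc hex.choose (c hex.choose_spec.choose)).1 hex.choose_spec.choose_spec
      rw [deg_eq h] at e1 e2
      exact_mod_cast e1.trans e2.symm
    · rw [← count_eq_cnt]
      have e1 := (hc v (c x)).2 hvx
      have e2 := (hc v0 (c v0)).2 rfl
      rw [deg_eq h] at e1 e2
      exact_mod_cast e1.trans e2.symm
  · rintro ⟨a, b, hab⟩
    obtain ⟨v0⟩ := (inferInstance : Nonempty V)
    have e := Fintype.equivFin (Quotient s)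
    set k := Fintype.card (Quotient s) with hk
    set c : V → Fin k := fun v => e (Quotient.mk s v) with hc
    have hker : Setoid.ker c = s := by
      ext x y
      rw [Setoid.ker_def, hc]
      dsimp only
      rw [e.injective.eq_iff, Quotient.eq]
    have hsurj : Function.Surjective c := e.surjective.comp Quotient.mk_surjective
    have hown : ∀ v, count G c v (c v) = b := by
      intro v
      rw [count_eq_cnt, hker]
      exact (hab v v).2 (s.refl v)
    have hoth : ∀ v i, c v ≠ i → count G c v i = a := by
      intro v i hi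
      obtain ⟨x, rfl⟩ := hsurj i
      rw [count_eq_cnt, hker]
      refine (hab v x).1 fun hs => hi ?_
      have : Setoid.ker c v x := by rw [hker]; exact hs
      exact this
    have hk1 : 1 ≤ k := by
      have := (c v0).isLt
      omega
    have hsum : b + (k - 1) * a = d := by
      rw [← deg_eq h v0, deg_eq_sum c v0, ← Finset.add_sum_erase _ _ (Finset.mem_univ (c v0)), hown,
        Finset.sum_congr rfl (g := fun _ => a)]
      · rw [Finset.sum_const, Finset.card_erase_of_mem (Finset.mem_univ _), Finset.card_univ,
          Fintype.card_fin, smul_eq_mul]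
      · intro j hj
        exact hoth v0 j (Finset.ne_of_mem_erase hj).symm
    refine ⟨k, c, ?_, hker⟩
    by_cases hk2 : k = 1
    · refine ⟨0, le_refl _, zero_le_one, fun v i => ⟨fun hi => ?_, fun hi => ?_⟩⟩
      · exfalso
        apply hi
        apply Fin.ext
        have := (c v).isLt
        have := i.isLt
        omega
      · rw [← hi, hown, deg_eq h, mul_zero, sub_zero, one_mul]
        rw [hk2] at hsum
        have : b = d := by omega
        rw [this]
    · have hk3 : 2 ≤ k := by omega
      have had : a ≤ d := by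
        have : a ≤ (k - 1) * a := Nat.le_mul_of_pos_left _ (by omega)
        omega
      have had' : (a : ℝ) ≤ d := by exact_mod_cast had
      refine ⟨a / d, by positivity, (div_le_one hd').2 had', fun v i => ⟨fun hi => ?_, fun hi => ?_⟩⟩
      · rw [hoth v i hi, deg_eq h]
        field_simp
      · rw [← hi, hown, deg_eq h]
        have h2 : (b : ℝ) + ((k : ℝ) - 1) * a = d := by
          have := congrArg (fun n : ℕ => (n : ℝ)) hsum
          push_cast [Nat.cast_sub hk1] at this
          exact this
        field_simp
        linarith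

end basic

/-! ### The doubled graphs -/

section dbl

variable {V : Type}

/-- Every vertex is replaced by two vertices, adjacent if `ε` is true. -/
def dbl (ε : Bool) (G : SimpleGraph V) : SimpleGraph (V × Bool) where
  Adj u v := G.Adj u.1 v.1 ∨ (ε = true ∧ u.1 = v.1 ∧ u.2 ≠ v.2)
  symm := ⟨by
    rintro u v (h | ⟨h1, h2, h3⟩)
    · exact Or.inl h.symm
    · exact Or.inr ⟨h1, h2.symm, h3.symm⟩⟩
  loopless := ⟨by
    rintro u (h | ⟨-, -, h⟩)
    · exact G.loopless.irrefl _ h
    · exact h rfl⟩

variable [Fintype V] {G : SimpleGraph V} {ε : Bool}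

/-- the number of vertices over `y` in the class of `z` -/
noncomputable def fib (s : Setoid (V × Bool)) (z : V × Bool) (y : V) : ℕ :=
  (if s (y, false) z then 1 else 0) + (if s (y, true) z then 1 else 0)

/-- sum over the neighbours -/
noncomputable def nb (G : SimpleGraph V) {R : Type} [AddCommMonoid R] (f : V → R) (x : V) : R :=
  ∑ y, if G.Adj x y then f y else 0

theorem sum_bool {R : Type} [AddCommMonoid R] (f : V × Bool → R) :
    ∑ w, f w = ∑ y, (f (y, false) + f (y, true)) := by
  rw [Fintype.sum_prod_type]
  apply Finset.sum_congr rfl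
  intro y _
  rw [Fintype.sum_bool, add_comm]

theorem cnt_dbl (s : Setoid (V × Bool)) (x : V) (α : Bool) (z : V × Bool) :
    cnt (dbl ε G) s (x, α) z = nb G (fib s z) x + (if ε = true ∧ s (x, !α) z then 1 else 0) := by
  unfold cnt nb
  rw [sum_bool]
  have : ∀ y, ((if (dbl ε G).Adj (x, α) (y, false) ∧ s (y, false) z then 1 else 0) +
      (if (dbl ε G).Adj (x, α) (y, true) ∧ s (y, true) z then 1 else 0)) =
      (if G.Adj x y then fib s z y else 0) +
        (if x = y then (if ε = true ∧ s (x, !α) z then 1 else 0) else 0) := by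
    intro y
    by_cases hxy : x = y
    · subst hxy
      have hirr : ¬ G.Adj x x := G.loopless.irrefl x
      cases α <;> cases ε <;> simp [dbl]
    · by_cases hadj : G.Adj x y <;> simp [dbl, hxy, hadj, fib]
  rw [Finset.sum_congr rfl (fun y _ => this y), Finset.sum_add_distrib, Finset.sum_ite_eq,
    if_pos (Finset.mem_univ _)]

theorem reg_dbl {d : ℕ} (h : Reg G d) : Reg (dbl ε G) (2 * d + if ε = true then 1 else 0) := by
  rintro ⟨x, α⟩
  have h1 := cnt_dbl (G := G) (ε := ε) ⊤ x α (x, α)
  have h2 : ∀ u v : V × Bool, (⊤ : Setoid (V × Bool)) u v := fun _ _ => trivial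
  simp only [cnt, h2, and_true] at h1
  rw [h1]
  have h3 : nb G (fib ⊤ (x, α)) x = 2 * d := by
    rw [← h x, Finset.mul_sum]
    unfold nb fib
    apply Finset.sum_congr rfl
    intro y _
    simp only [h2]
    split_ifs <;> rfl
  rw [h3]

/-- injectivity of `A + ε I` over the integers -/
def Inj (ε : Bool) (G : SimpleGraph V) : Prop :=
  ∀ f : V → ℤ, (∀ x, nb G f x + (if ε = true then f x else 0) = 0) → ∀ x, f x = 0

theorem inj_dbl : Inj (!ε) (dbl ε G) := by
  intro f hf
  have h1 : ∀ x α, nb (dbl ε G) f (x, α) = nb G (fun y => f (y, false) + f (y, true)) x +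
      (if ε = true then f (x, !α) else 0) := by
    intro x α
    unfold nb
    rw [sum_bool]
    have : ∀ y, ((if (dbl ε G).Adj (x, α) (y, false) then f (y, false) else 0) +
        (if (dbl ε G).Adj (x, α) (y, true) then f (y, true) else 0)) =
        (if G.Adj x y then f (y, false) + f (y, true) else 0) +
          (if x = y then (if ε = true then f (x, !α) else 0) else 0) := by
      intro y
      by_cases hxy : x = y
      · subst hxy
        have hirr : ¬ G.Adj x x := G.loopless.irrefl x
        cases α <;> cases ε <;> simp [dbl, hirr]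
      · by_cases hadj : G.Adj x y <;> simp [dbl, hxy, hadj]
    rw [Finset.sum_congr rfl (fun y _ => this y), Finset.sum_add_distrib, Finset.sum_ite_eq,
      if_pos (Finset.mem_univ _)]
  set S : V → ℤ := nb G (fun y => f (y, false) + f (y, true)) with hS
  have h2 : ∀ x β, f (x, β) = - S x := by
    intro x β
    cases ε
    · have := hf (x, β)
      rw [h1] at this
      simp at this
      linarith
    · have := hf (x, !β)
      rw [h1] at this
      simp at this
      linarith
  have h3 : ∀ x, S x = - 2 * nb G S x := by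
    intro x
    have : S x = ∑ y, if G.Adj x y then (-2) * S y else 0 := by
      show (∑ y, if G.Adj x y then (f (y, false) + f (y, true)) else 0) = _
      apply Finset.sum_congr rfl
      intro y _
      rw [h2, h2]
      split_ifs
      · ring
      · rfl
    rw [this]
    unfold nb
    rw [Finset.mul_sum]
    apply Finset.sum_congr rfl
    intro y _
    split_ifs
    · rfl
    · rw [mul_zero]
  have h4 : ∀ n : ℕ, ∀ x, (2 : ℤ) ^ n ∣ S x := by
    intro n
    induction n with
    | zero => intro x; simp
    | succ n ih =>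
      intro x
      rw [h3, pow_succ, mul_comm ((2 : ℤ) ^ n)]
      have h5 : (2 : ℤ) ^ n ∣ nb G S x := by
        unfold nb
        apply Finset.dvd_sum
        intro y _
        split_ifs
        · exact ih y
        · exact dvd_zero _
      obtain ⟨m, hm⟩ := h5
      exact ⟨-m, by rw [hm]; ring⟩
  rintro ⟨x, β⟩
  rw [h2, neg_eq_zero]
  by_contra hne
  have h5 := Int.natAbs_dvd_natAbs.2 (h4 (S x).natAbs x)
  rw [Int.natAbs_pow] at h5
  have h6 := Nat.le_of_dvd (Int.natAbs_pos.2 hne) h5
  have h7 : (S x).natAbs < 2 ^ (S x).natAbs := Nat.lt_two_pow_self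
  simp at h6
  omega

end dbl

end Q128.FatIrr
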