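import Pool.Agent.Q128.FatIrr

/-!
# Irreducible FAT colourings of doubled graphs: classification
-/

set_option autoImplicit false

namespace Q128.FatIrr

open SimpleGraph Classical

variable {V : Type} [Fintype V] {G : SimpleGraph V} {ε : Bool}

/-- the partition pulled back from `V` -/
def pull (s : Setoid V) : Setoid (V × Bool) := s.comap Prod.fst

/-- the two-class partition given by `g` -/
def rb (g : V → Bool) : Setoid (V × Bool) := Setoid.ker fun v => xor v.2 (g v.1)

omit [Fintype V] in
theorem rb_iff (g : V → Bool) (u v : V × Bool) :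
    rb g u v ↔ xor u.2 (g u.1) = xor v.2 (g v.1) := Iff.rfl

omit [Fintype V] in
theorem pull_iff (s : Setoid V) (u v : V × Bool) : pull s u v ↔ s u.1 v.1 := Iff.rfl

theorem nb_add {f g : V → ℤ} (x : V) : nb G (fun y => f y - g y) x = nb G f x - nb G g x := by
  unfold nb
  rw [← Finset.sum_sub_distrib]
  apply Finset.sum_congr rfl
  intro y _
  split_ifs
  · rfl
  · rw [sub_zero]

theorem nb_cast (f : V → ℕ) (x : V) : nb G (fun y => (f y : ℤ)) x = ((nb G f x : ℕ) : ℤ) := by
  unfold nb
  push_cast
  apply Finset.sum_congr rfl
  intro y _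
  split_ifs <;> simp

/-- the structure of the FAT partitions of the doubled graph -/
theorem split_cases (hinj : Inj ε G) {s : Setoid (V × Bool)} (h : NF (dbl ε G) s) :
    (∃ g, s = rb g) ∨ ∃ s0, NF G s0 ∧ s = pull s0 := by
  obtain ⟨a, b, hab⟩ := h
  by_cases hsp : ∃ x, ¬ s (x, false) (x, true)
  · left
    obtain ⟨x0, hx0⟩ := hsp
    -- the relation between `a` and `b`
    have hrel : a = b + if ε = true then 1 else 0 := by
      have e1 := (hab (x0, false) (x0, false)).2 (s.refl _)
      have e2 := (hab (x0, true) (x0, false)).1 (fun e => hx0 (s.symm e))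
      rw [cnt_dbl] at e1 e2
      rw [if_neg (fun e => hx0 (s.symm e.2))] at e1
      cases ε
      · simp at e1 e2 ⊢
        omega
      · have : s (x0, false) (x0, false) := s.refl _
        simp [this] at e1 e2 ⊢
        omega
    have hf : ∀ z x, nb G (fib s z) x + (if ε = true then fib s z x else 0) = a := by
      intro z x
      have e1 : ∀ α, cnt (dbl ε G) s (x, α) z + (if ε = true ∧ s (x, α) z then 1 else 0) = a := by
        intro α
        by_cases hz : s (x, α) z
        · rw [(hab _ _).2 hz, hrel]
          simp [hz]
        · rw [(hab _ _).1 hz]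
          simp [hz]
      have e2 := e1 false
      rw [cnt_dbl] at e2
      rw [← e2]
      unfold fib
      cases ε
      · simp
      · simp
        ring
    have hconst : ∀ z z' y, fib s z y = fib s z' y := by
      intro z z' y
      have h1 := hinj (fun y => (fib s z y : ℤ) - fib s z' y) (fun x => by
        rw [nb_add, nb_cast, nb_cast]
        have e1 := hf z x
        have e2 := hf z' x
        cases ε
        · simp at e1 e2 ⊢
          rw [e1, e2]
          ring
        · simp at e1 e2 ⊢
          have e1' : ((nb G (fib s z) x : ℕ) : ℤ) + fib s z x = a := by exact_mod_cast e1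
          have e2' : ((nb G (fib s z') x : ℕ) : ℤ) + fib s z' x = a := by exact_mod_cast e2
          linarith) y
      have h2 : (fib s z y : ℤ) = fib s z' y := by linarith
      exact_mod_cast h2
    have hx1 : ∀ z, fib s z x0 = 1 := by
      intro z
      rw [hconst z (x0, false)]
      unfold fib
      rw [if_pos (s.refl _), if_neg (fun e => hx0 (s.symm e))]
    -- every vertex is related to exactly one of the two vertices over `x0`
    have hor : ∀ z, (s (x0, false) z ∧ ¬ s (x0, true) z) ∨ (¬ s (x0, false) z ∧ s (x0, true) z) := by
      intro z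
      have := hx1 z
      unfold fib at this
      by_cases h1 : s (x0, false) z <;> by_cases h2 : s (x0, true) z <;> simp [h1, h2] at this ⊢
    have hy1 : ∀ z y, fib s z y = 1 := by
      intro z y
      have h1 : fib s (x0, false) y + fib s (x0, true) y = 2 := by
        unfold fib
        have e1 : ∀ β, ((if s (y, β) (x0, false) then 1 else 0) +
            (if s (y, β) (x0, true) then 1 else 0) : ℕ) = 1 := by
          intro β
          rcases hor (y, β) with ⟨h1, h2⟩ | ⟨h1, h2⟩
          · rw [if_pos (s.symm h1), if_neg (fun e => h2 (s.symm e))]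
          · rw [if_neg (fun e => h1 (s.symm e)), if_pos (s.symm h2)]
        have := e1 false
        have := e1 true
        omega
      have h2 := hconst z (x0, false) y
      have h3 := hconst z (x0, true) y
      omega
    set g : V → Bool := fun y => if s (y, false) (x0, false) then false else true with hg
    refine ⟨g, ?_⟩
    have hmem : ∀ y β, s (y, β) (x0, false) ↔ xor β (g y) = false := by
      intro y β
      have h1 := hy1 (x0, false) y
      unfold fib at h1
      by_cases h2 : s (y, false) (x0, false)
      · have h3 : ¬ s (y, true) (x0, false) := by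
          intro h3
          rw [if_pos h2, if_pos h3] at h1
          omega
        cases β <;> simp [hg, h2, h3]
      · have h3 : s (y, true) (x0, false) := by
          by_contra h3
          rw [if_neg h2, if_neg h3] at h1
          omega
        cases β <;> simp [hg, h2, h3]
    have htwo : ∀ u v, s u v ↔ (s u (x0, false) ↔ s v (x0, false)) := by
      intro u v
      constructor
      · intro huv
        exact ⟨fun e => s.trans (s.symm huv) e, fun e => s.trans huv e⟩
      · intro huv
        rcases hor u with ⟨h1, h2⟩ | ⟨h1, h2⟩
        · exact s.trans (s.symm h1) (s.symm (huv.1 (s.symm h1)))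
        · rcases hor v with ⟨h3, h4⟩ | ⟨h3, h4⟩
          · exact absurd (s.symm (huv.2 (s.symm h3))) h1
          · exact s.trans (s.symm h2) h4
    ext ⟨y, β⟩ ⟨z, γ⟩
    rw [htwo, hmem, hmem, rb_iff]
    dsimp only
    cases xor β (g y) <;> cases xor γ (g z) <;> simp
  · right
    push Not at hsp
    have hfib : ∀ (x y : V) (α β : Bool), s (x, α) (y, β) ↔ s (x, false) (y, false) := by
      have h1 : ∀ (x : V) (α : Bool), s (x, α) (x, false) := by
        intro x α
        cases α
        · exact s.refl _
        · exact s.symm (hsp x)
      intro x y α β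
      exact ⟨fun e => s.trans (s.symm (h1 x α)) (s.trans e (h1 y β)),
        fun e => s.trans (h1 x α) (s.trans e (s.symm (h1 y β)))⟩
    set s0 : Setoid V := s.comap fun x => (x, false) with hs0
    have hs0' : ∀ x y, s0 x y ↔ s (x, false) (y, false) := fun _ _ => Iff.rfl
    have hcnt : ∀ x y, cnt (dbl ε G) s (x, false) (y, false) =
        2 * cnt G s0 x y + if ε = true ∧ s0 x y then 1 else 0 := by
      intro x y
      rw [cnt_dbl]
      congr 1
      · unfold nb cnt fib
        rw [Finset.mul_sum]
        apply Finset.sum_congr rfl
        intro w _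
        rw [hs0' w y]
        by_cases h1 : G.Adj x w
        · by_cases h2 : s (w, false) (y, false)
          · have h3 : s (w, true) (y, false) := (hfib w y true false).2 h2
            simp [h1, h2, h3]
          · have h3 : ¬ s (w, true) (y, false) := fun e => h2 ((hfib w y true false).1 e)
            simp [h2, h3]
        · simp [h1]
      · apply if_congr _ rfl rfl
        rw [hs0', hfib x y (!false) false]
    refine ⟨s0, ⟨a / 2, (b - if ε = true then 1 else 0) / 2, fun x y => ⟨fun hxy => ?_,
      fun hxy => ?_⟩⟩, ?_⟩
    · have h1 := (hab (x, false) (y, false)).1 hxy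
      rw [hcnt, if_neg (fun e => hxy e.2)] at h1
      omega
    · have h1 := (hab (x, false) (y, false)).2 hxy
      rw [hcnt] at h1
      cases ε
      · simp at h1 ⊢
        omega
      · simp [hxy] at h1 ⊢
        omega
    · ext ⟨x, α⟩ ⟨y, β⟩
      rw [pull_iff]
      exact hfib x y α β

theorem nf_pull {s : Setoid V} (h : NF G s) : NF (dbl ε G) (pull s) := by
  obtain ⟨a, b, hab⟩ := h
  have hcnt : ∀ (x : V) (α : Bool) (z : V × Bool), cnt (dbl ε G) (pull s) (x, α) z =
      2 * cnt G s x z.1 + if ε = true ∧ s x z.1 then 1 else 0 := by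
    intro x α z
    rw [cnt_dbl]
    congr 1
    unfold nb cnt fib
    rw [Finset.mul_sum]
    apply Finset.sum_congr rfl
    intro w _
    rw [pull_iff, pull_iff]
    by_cases h1 : G.Adj x w <;> by_cases h2 : s w z.1 <;> simp [h1, h2]
  refine ⟨2 * a, 2 * b + if ε = true then 1 else 0, ?_⟩
  rintro ⟨x, α⟩ z
  constructor
  · intro h
    have h' : ¬ s x z.1 := h
    rw [hcnt, (hab x z.1).1 h']
    simp [h']
  · intro h
    have h' : s x z.1 := h
    rw [hcnt, (hab x z.1).2 h']
    simp [h']

theorem nf_rb {d : ℕ} (hr : Reg G d) (g : V → Bool) : NF (dbl ε G) (rb g) := by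
  have hfib : ∀ z y, fib (rb g) z y = 1 := by
    intro z y
    unfold fib
    rw [rb_iff, rb_iff]
    dsimp only
    cases g y <;> cases xor z.2 (g z.1) <;> simp
  have hcnt : ∀ (x : V) (α : Bool) (z : V × Bool), cnt (dbl ε G) (rb g) (x, α) z =
      d + if ε = true ∧ ¬ rb g (x, α) z then 1 else 0 := by
    intro x α z
    rw [cnt_dbl]
    congr 1
    · rw [← hr x]
      unfold nb
      apply Finset.sum_congr rfl
      intro w _
      rw [hfib]
    · apply if_congr _ rfl rfl
      rw [rb_iff, rb_iff]
      dsimp only
      cases α <;> cases g x <;> cases xor z.2 (g z.1) <;> simp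
  refine ⟨d + if ε = true then 1 else 0, d, ?_⟩
  rintro ⟨x, α⟩ z
  constructor
  · intro h
    rw [hcnt]
    simp [h]
  · intro h
    rw [hcnt]
    simp [h]

end Q128.FatIrr
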