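import Pool.Agent.Q128.FatIrr2

/-!
# Irreducible FAT colourings of doubled graphs: counting
-/

set_option autoImplicit false

namespace Q128.FatIrr

open SimpleGraph Classical

variable {V : Type} [Fintype V] {G : SimpleGraph V} {ε : Bool}

omit [Fintype V] in
theorem pull_inj {s t : Setoid V} (h : pull s = pull t) : s = t := by
  ext x y
  have : pull s (x, false) (y, false) ↔ pull t (x, false) (y, false) := by rw [h]
  exact this

omit [Fintype V] in
theorem pull_mono {s t : Setoid V} (h : s ≤ t) : pull s ≤ pull t := fun _ _ hxy => h hxy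

omit [Fintype V] in
theorem rb_ne_pull [Nonempty V] (g : V → Bool) (s : Setoid V) : ¬ pull s ≤ rb g := by
  intro h
  obtain ⟨x⟩ := (inferInstance : Nonempty V)
  have h1 : pull s (x, false) (x, true) := s.refl x
  have h2 : rb g (x, false) (x, true) := h h1
  rw [rb_iff] at h2
  dsimp only at h2
  cases g x <;> simp at h2

omit [Fintype V] in
theorem rb_le_pull (g : V → Bool) {s : Setoid V} (h : rb g ≤ pull s) : s = ⊤ := by
  ext x y
  have h1 : rb g (x, g x) (y, g y) := by
    rw [rb_iff]
    dsimp only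
    cases g x <;> cases g y <;> rfl
  have h2 : pull s (x, g x) (y, g y) := h h1
  exact ⟨fun _ => trivial, fun _ => h2⟩

omit [Fintype V] in
theorem rb_le_rb [Nonempty V] {g g' : V → Bool} (h : rb g' ≤ rb g) : rb g' = rb g := by
  obtain ⟨x0⟩ := (inferInstance : Nonempty V)
  have h1 : ∀ x, xor (g' x) (g x) = xor (g' x0) (g x0) := by
    intro x
    have h2 : rb g' (x, g' x) (x0, g' x0) := by
      rw [rb_iff]
      dsimp only
      cases g' x <;> cases g' x0 <;> rfl
    exact h h2
  ext ⟨x, α⟩ ⟨y, β⟩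
  rw [rb_iff, rb_iff]
  dsimp only
  have h2 := h1 x
  have h3 := h1 y
  revert h2 h3
  cases g' x <;> cases g x <;> cases g' y <;> cases g y <;> cases g' x0 <;> cases g x0 <;>
    cases α <;> cases β <;> simp

/-- everything we need about the graph -/
structure Good (G : SimpleGraph V) (ε : Bool) (b : ℕ) : Prop where
  reg : ∃ d, 1 ≤ d ∧ Reg G d
  conn : G.Connected
  inj : Inj ε G
  top : ¬ IsIrreducible G ⊤
  num : numIrreducible G = b

theorem fat_dbl_iff {d : ℕ} [Nonempty V] (hd : 1 ≤ d) (hr : Reg G d) (s : Setoid (V × Bool)) :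
    IsFATPartition (dbl ε G) s ↔ NF (dbl ε G) s :=
  fat_iff (by omega) (reg_dbl hr) s

/-- classification of the irreducible FAT partitions of the doubled graph -/
theorem irr_iff {d : ℕ} [Nonempty V] (hd : 1 ≤ d) (hr : Reg G d) (hinj : Inj ε G)
    (htop : ¬ IsIrreducible G ⊤) (s : Setoid (V × Bool)) :
    IsIrreducible (dbl ε G) s ↔ (∃ g, s = rb g) ∨ ∃ s0, IsIrreducible G s0 ∧ s = pull s0 := by
  constructor
  · rintro ⟨h1, h2⟩
    rw [fat_dbl_iff hd hr] at h1
    rcases split_cases hinj h1 with h3 | ⟨s0, h3, rfl⟩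
    · exact Or.inl h3
    · refine Or.inr ⟨s0, ⟨(fat_iff hd hr _).2 h3, fun t ht hts => ?_⟩, rfl⟩
      apply pull_inj
      apply h2 _ _ (pull_mono hts)
      rw [fat_dbl_iff hd hr]
      exact nf_pull ((fat_iff hd hr _).1 ht)
  · rintro (⟨g, rfl⟩ | ⟨s0, h1, rfl⟩)
    · refine ⟨(fat_dbl_iff hd hr _).2 (nf_rb hr g), fun t ht hts => ?_⟩
      rw [fat_dbl_iff hd hr] at ht
      rcases split_cases hinj ht with ⟨g', rfl⟩ | ⟨t0, _, rfl⟩
      · exact rb_le_rb hts
      · exact absurd hts (rb_ne_pull g t0)
    · refine ⟨(fat_dbl_iff hd hr _).2 (nf_pull ((fat_iff hd hr _).1 h1.1)), fun t ht hts => ?_⟩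
      rw [fat_dbl_iff hd hr] at ht
      rcases split_cases hinj ht with ⟨g', rfl⟩ | ⟨t0, ht0, rfl⟩
      · exact absurd (rb_le_pull g' hts ▸ h1) htop
      · have h3 : t0 ≤ s0 := by
          intro x y hxy
          have : pull t0 (x, false) (y, false) := hxy
          exact hts this
        rw [h1.2 t0 ((fat_iff hd hr _).2 ht0) h3]

/-! ### Automorphisms -/

/-- an automorphism of the doubled graph maps fibres to fibres -/
theorem aut_fibre (hinj : Inj ε G) (φ : dbl ε G ≃g dbl ε G) (x : V) :
    (φ (x, false)).1 = (φ (x, true)).1 := by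
  by_contra hne
  set p := φ (x, false) with hp
  set q := φ (x, true) with hq
  have hpq : (dbl ε G).Adj p q ↔ ε = true := by
    rw [hp, hq, φ.map_adj_iff]
    simp [dbl]
  have hother : ∀ u, u ≠ p → u ≠ q → ((dbl ε G).Adj u p ↔ (dbl ε G).Adj u q) := by
    intro u hu1 hu2
    obtain ⟨v, rfl⟩ := φ.surjective u
    rw [hp, hq, φ.map_adj_iff, φ.map_adj_iff]
    have h1 : v ≠ (x, false) := fun e => hu1 (by rw [e])
    have h2 : v ≠ (x, true) := fun e => hu2 (by rw [e])
    obtain ⟨y, β⟩ := v
    by_cases hyx : y = x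
    · subst hyx
      cases β
      · exact absurd rfl h1
      · exact absurd rfl h2
    · simp [dbl, hyx]
  -- `p.1` and `q.1` have the same neighbourhood, up to `ε`
  have hadj : ∀ u v : V × Bool, u.1 ≠ v.1 → ((dbl ε G).Adj u v ↔ G.Adj u.1 v.1) := by
    intro u v huv
    simp [dbl, huv]
  have hpq' : G.Adj p.1 q.1 ↔ ε = true := by
    rw [← hadj p q hne, hpq]
  have hw : ∀ w, w ≠ p.1 → w ≠ q.1 → (G.Adj w p.1 ↔ G.Adj w q.1) := by
    intro w h1 h2
    have h3 := hother (w, false) (fun e => h1 (by rw [← e])) (fun e => h2 (by rw [← e]))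
    rwa [hadj _ _ h1, hadj _ _ h2] at h3
  -- apply the injectivity
  have hδ : ∀ (w z : V), nb G (fun y => if y = z then (1 : ℤ) else 0) w =
      if G.Adj w z then 1 else 0 := by
    intro w z
    unfold nb
    rw [Finset.sum_eq_single z]
    · simp
    · intro y _ hy
      simp [hy]
    · intro h
      exact absurd (Finset.mem_univ z) h
  have key := hinj (fun y => (if y = p.1 then (1 : ℤ) else 0) - (if y = q.1 then (1 : ℤ) else 0))
    (fun w => by
      rw [nb_add (f := fun y => if y = p.1 then (1 : ℤ) else 0)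
        (g := fun y => if y = q.1 then (1 : ℤ) else 0), hδ, hδ]
      by_cases h1 : w = p.1
      · rw [h1]
        have h2 : ¬ G.Adj p.1 p.1 := G.loopless.irrefl _
        rw [if_neg h2, if_pos rfl, if_neg hne]
        by_cases h3 : ε = true
        · rw [if_pos (hpq'.2 h3), if_pos h3]
          ring
        · rw [if_neg (fun e => h3 (hpq'.1 e)), if_neg h3]
          ring
      · by_cases h2 : w = q.1
        · rw [h2]
          have h4 : ¬ G.Adj q.1 q.1 := G.loopless.irrefl _
          rw [if_neg h4, if_pos rfl, if_neg (Ne.symm hne)]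
          by_cases h3 : ε = true
          · rw [if_pos (hpq'.2 h3).symm, if_pos h3]
            ring
          · rw [if_neg (fun e => h3 (hpq'.1 e.symm)), if_neg h3]
            ring
        · rw [if_neg h1, if_neg h2]
          have h3 := hw w h1 h2
          by_cases h4 : G.Adj w p.1
          · rw [if_pos h4, if_pos (h3.1 h4)]
            split_ifs <;> ring
          · rw [if_neg h4, if_neg (fun e => h4 (h3.2 e))]
            split_ifs <;> ring) p.1
  rw [if_pos rfl, if_neg hne] at key
  omega

theorem aut_fibre' (hinj : Inj ε G) (φ : dbl ε G ≃g dbl ε G) (x : V) (α β : Bool) :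
    (φ (x, α)).1 = (φ (x, β)).1 := by
  have := aut_fibre hinj φ x
  cases α <;> cases β <;> first | rfl | exact this | exact this.symm

/-- the induced automorphism of `G` -/
noncomputable def ind (hinj : Inj ε G) (φ : dbl ε G ≃g dbl ε G) : G ≃g G where
  toFun x := (φ (x, false)).1
  invFun x := (φ.symm (x, false)).1
  left_inv x := by
    have h1 := aut_fibre' hinj φ.symm (φ (x, false)).1 false (φ (x, false)).2
    dsimp only
    rw [h1]
    show (φ.symm (φ (x, false))).1 = x
    rw [RelIso.symm_apply_apply]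
  right_inv x := by
    have h1 := aut_fibre' hinj φ (φ.symm (x, false)).1 false (φ.symm (x, false)).2
    dsimp only
    rw [h1]
    show (φ (φ.symm (x, false))).1 = x
    rw [RelIso.apply_symm_apply]
  map_rel_iff' := by
    intro x y
    have hinjf : ∀ x y : V, (φ (x, false)).1 = (φ (y, false)).1 → x = y := by
      intro x y h
      have h1 := aut_fibre' hinj φ.symm (φ (x, false)).1 (φ (x, false)).2 (φ (y, false)).2
      have h2 : (φ.symm (φ (x, false))).1 = x := by rw [RelIso.symm_apply_apply]
      have h3 : (φ.symm (φ (y, false))).1 = y := by rw [RelIso.symm_apply_apply]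
      rw [← h2, ← h3]
      have h4 : ((φ (x, false)).1, (φ (y, false)).2) = φ (y, false) := by rw [h]
      rw [h4] at h1
      exact h1
    have hadj : ∀ u v : V × Bool, u.1 ≠ v.1 → ((dbl ε G).Adj u v ↔ G.Adj u.1 v.1) := by
      intro u v huv
      simp [dbl, huv]
    by_cases hxy : x = y
    · subst hxy
      exact ⟨fun h => absurd h (G.loopless.irrefl _), fun h => absurd h (G.loopless.irrefl _)⟩
    · have h1 : (φ (x, false)).1 ≠ (φ (y, false)).1 := fun e => hxy (hinjf _ _ e)
      show G.Adj (φ (x, false)).1 (φ (y, false)).1 ↔ G.Adj x y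
      rw [← hadj _ _ h1, φ.map_adj_iff, hadj (x, false) (y, false) hxy]

/-- lifting an automorphism -/
def lift (φ : G ≃g G) : dbl ε G ≃g dbl ε G where
  toFun v := (φ v.1, v.2)
  invFun v := (φ.symm v.1, v.2)
  left_inv v := by simp
  right_inv v := by simp
  map_rel_iff' := by
    intro u v
    show (G.Adj (φ u.1) (φ v.1) ∨ (ε = true ∧ φ u.1 = φ v.1 ∧ u.2 ≠ v.2)) ↔
      (G.Adj u.1 v.1 ∨ (ε = true ∧ u.1 = v.1 ∧ u.2 ≠ v.2))
    rw [φ.map_adj_iff, φ.injective.eq_iff]

/-- switching the fibres -/
def flip (g : V → Bool) : dbl ε G ≃g dbl ε G where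
  toFun v := (v.1, xor v.2 (g v.1))
  invFun v := (v.1, xor v.2 (g v.1))
  left_inv v := by
    obtain ⟨x, α⟩ := v
    simp
  right_inv v := by
    obtain ⟨x, α⟩ := v
    simp
  map_rel_iff' := by
    rintro ⟨x, α⟩ ⟨y, β⟩
    show (G.Adj x y ∨ (ε = true ∧ x = y ∧ xor α (g x) ≠ xor β (g y))) ↔
      (G.Adj x y ∨ (ε = true ∧ x = y ∧ α ≠ β))
    apply or_congr Iff.rfl
    apply and_congr Iff.rfl
    constructor
    · rintro ⟨rfl, h⟩
      exact ⟨rfl, fun e => h (by rw [e])⟩
    · rintro ⟨rfl, h⟩
      refine ⟨rfl, fun e => h ?_⟩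
      revert e
      cases α <;> cases β <;> cases g x <;> simp

/-! ### Counting -/

theorem num_dbl {d : ℕ} [Nonempty V] (hd : 1 ≤ d) (hr : Reg G d) (hinj : Inj ε G)
    (htop : ¬ IsIrreducible G ⊤) : numIrreducible (dbl ε G) = numIrreducible G + 1 := by
  have hirr := irr_iff (ε := ε) hd hr hinj htop
  let F : Option (Quotient (orbitSetoid G)) → Quotient (orbitSetoid (dbl ε G)) := fun o =>
    match o with
    | none => Quotient.mk _ ⟨rb fun _ => false, (hirr _).2 (Or.inl ⟨_, rfl⟩)⟩
    | some t => Quotient.lift (fun s : {s : Setoid V // IsIrreducible G s} =>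
        (Quotient.mk (orbitSetoid (dbl ε G)) ⟨pull s.1, (hirr _).2 (Or.inr ⟨s.1, s.2, rfl⟩)⟩))
        (fun s t hst => by
          obtain ⟨φ, hφ⟩ := hst
          apply Quotient.sound
          exact ⟨lift φ, fun u v => hφ u.1 v.1⟩) t
  have hbij : Function.Bijective F := by
    constructor
    · intro o o' h
      have hne : ∀ (s : {s : Setoid V // IsIrreducible G s}), F (some (Quotient.mk _ s)) ≠ F none := by
        intro s hs
        obtain ⟨φ, hφ⟩ := Quotient.exact hs
        obtain ⟨x⟩ := (inferInstance : Nonempty V)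
        have h1 : pull s.1 (φ.symm (x, false)) (φ.symm (x, true)) := by
          rw [pull_iff, aut_fibre' hinj φ.symm x false true]
        have h2 := (hφ _ _).1 h1
        rw [RelIso.apply_symm_apply, RelIso.apply_symm_apply] at h2
        have h3 : xor false false = xor true false := h2
        simp at h3
      rcases o with _ | o <;> rcases o' with _ | o'
      · rfl
      · obtain ⟨s, rfl⟩ := Quotient.exists_rep o'
        exact absurd h.symm (hne s)
      · obtain ⟨s, rfl⟩ := Quotient.exists_rep o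
        exact absurd h (hne s)
      · obtain ⟨s, rfl⟩ := Quotient.exists_rep o
        obtain ⟨t, rfl⟩ := Quotient.exists_rep o'
        obtain ⟨φ, hφ⟩ := Quotient.exact h
        congr 1
        apply Quotient.sound
        exact ⟨ind hinj φ, fun x y => hφ (x, false) (y, false)⟩
    · intro q
      obtain ⟨⟨s, hs⟩, rfl⟩ := Quotient.exists_rep q
      rcases (hirr s).1 hs with ⟨g, rfl⟩ | ⟨s0, hs0, rfl⟩
      · refine ⟨none, Quotient.sound ⟨flip g, ?_⟩⟩
        rintro ⟨x, α⟩ ⟨y, β⟩
        show xor α false = xor β false ↔ xor (xor α (g x)) (g x) = xor (xor β (g y)) (g y)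
        cases α <;> cases β <;> cases g x <;> cases g y <;> simp
      · exact ⟨some (Quotient.mk _ ⟨s0, hs0⟩), rfl⟩
  have h1 : Nat.card (Option (Quotient (orbitSetoid G))) = numIrreducible (dbl ε G) :=
    Nat.card_congr (Equiv.ofBijective F hbij)
  have : Finite (Setoid V) := Finite.of_injective (fun (s : Setoid V) (x y : V) => s x y)
    (fun s t h => by
      ext x y
      exact iff_of_eq (congrFun (congrFun h x) y))
  have : Finite {s : Setoid V // IsIrreducible G s} := inferInstance
  rw [← h1, Finite.card_option]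
  rfl

theorem conn_dbl [Nonempty V] {d : ℕ} (hd : 1 ≤ d) (hr : Reg G d) (hc : G.Connected) :
    (dbl ε G).Connected := by
  obtain ⟨x0⟩ := (inferInstance : Nonempty V)
  have step : ∀ x y α β, G.Adj x y → (dbl ε G).Adj (x, α) (y, β) := fun x y α β h => Or.inl h
  have hnbr : ∀ x, ∃ y, G.Adj x y := by
    intro x
    by_contra h
    push Not at h
    have := hr x
    simp [h] at this
    omega
  -- same fibre
  have h1 : ∀ x α β, (dbl ε G).Reachable (x, α) (x, β) := by
    intro x α β
    obtain ⟨y, hy⟩ := hnbr x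
    exact (step x y α α hy).reachable.trans (step y x α β hy.symm).reachable
  have h2 : ∀ x y, G.Reachable x y → (dbl ε G).Reachable (x, false) (y, false) := by
    rintro x y ⟨w⟩
    induction w with
    | nil => exact SimpleGraph.Reachable.refl _
    | cons h _ ih => exact (step _ _ false false h).reachable.trans ih
  have : Nonempty (V × Bool) := ⟨(x0, false)⟩
  refine ⟨?_⟩
  rintro ⟨x, α⟩ ⟨y, β⟩
  exact (h1 x α false).trans ((h2 x y (hc.preconnected x y)).trans (h1 y false β))

theorem good_dbl [Nonempty V] {b : ℕ} (h : Good G ε b) : Good (dbl ε G) (!ε) (b + 1) := by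
  obtain ⟨⟨d, hd, hr⟩, hc, hinj, htop, hnum⟩ := h
  refine ⟨⟨_, by omega, reg_dbl hr⟩, conn_dbl hd hr hc, inj_dbl, ?_, ?_⟩
  · intro h
    have h1 := h.2 (rb fun _ => false) ((irr_iff hd hr hinj htop _).2 (Or.inl ⟨_, rfl⟩)).1 le_top
    obtain ⟨x⟩ := (inferInstance : Nonempty V)
    have h2 : (⊤ : Setoid (V × Bool)) (x, false) (x, true) := trivial
    rw [← h1] at h2
    have h3 : xor false false = xor true false := h2
    simp at h3
  · rw [num_dbl hd hr hinj htop, hnum]

end Q128.FatIrr
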