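import Mathlib

/-!
# Irreducible FAT colourings: definitions
-/

set_option autoImplicit false

namespace Q128.FatIrr

open SimpleGraph

/-- The number `e(v, V_i)` of neighbours of `v` of colour `i`. -/
noncomputable def count {V : Type} (G : SimpleGraph V) {k : ℕ} (c : V → Fin k) (v : V) (i : Fin k) : ℕ :=
  {w | G.Adj v w ∧ c w = i}.ncard

/-- The degree of `v`. -/
noncomputable def deg {V : Type} (G : SimpleGraph V) (v : V) : ℕ := (G.neighborSet v).ncard

/-- `c : V → Fin k` is a FAT `k`-colouring of `G`: for some `α ∈ [0, 1]`, with `β = 1 - (k - 1) α`, every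
vertex `v` has `α deg v` neighbours in every class not containing it and `β deg v` in its own class. -/
def IsFAT {V : Type} (G : SimpleGraph V) {k : ℕ} (c : V → Fin k) : Prop :=
  ∃ α : ℝ, 0 ≤ α ∧ α ≤ 1 ∧ ∀ v i,
    (c v ≠ i → (count G c v i : ℝ) = α * deg G v) ∧
    (c v = i → (count G c v i : ℝ) = (1 - ((k : ℝ) - 1) * α) * deg G v)

/-- The partition `s` of `V` consists of the nonempty colour classes of a FAT colouring. -/
def IsFATPartition {V : Type} (G : SimpleGraph V) (s : Setoid V) : Prop :=
  ∃ (k : ℕ) (c : V → Fin k), IsFAT G c ∧ Setoid.ker c = s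

/-- The partition `s` belongs to an irreducible FAT colouring: no other FAT partition is finer. -/
def IsIrreducible {V : Type} (G : SimpleGraph V) (s : Setoid V) : Prop :=
  IsFATPartition G s ∧ ∀ t : Setoid V, IsFATPartition G t → t ≤ s → t = s

/-- Two irreducible FAT partitions are identified if an automorphism maps one onto the other. -/
def orbitSetoid {V : Type} (G : SimpleGraph V) : Setoid {s : Setoid V // IsIrreducible G s} where
  r s t := ∃ φ : G ≃g G, ∀ x y, s.1 x y ↔ t.1 (φ x) (φ y)
  iseqv :=
    { refl := fun s => ⟨RelIso.refl _, fun _ _ => Iff.rfl⟩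
      symm := by
        rintro s t ⟨φ, h⟩
        refine ⟨φ.symm, fun x y => ?_⟩
        rw [h (φ.symm x) (φ.symm y), RelIso.apply_symm_apply, RelIso.apply_symm_apply]
      trans := by
        rintro s t u ⟨φ, h⟩ ⟨ψ, h'⟩
        exact ⟨φ.trans ψ, fun x y => (h x y).trans (h' (φ x) (φ y))⟩ }

/-- The number of irreducible FAT colourings of `G`, up to automorphisms. -/
noncomputable def numIrreducible {V : Type} (G : SimpleGraph V) : ℕ :=
  Nat.card (Quotient (orbitSetoid G))

end Q128.FatIrr
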