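import Pool.Agent.Q128.FatDefs

/-!
# FAT colourings with a prescribed parameter: the construction
-/

set_option autoImplicit false

namespace Q128.Fat

open SimpleGraph

section general

variable {V : Type} [Finite V] {G : SimpleGraph V}

theorem deg_eq_sum {k : ℕ} (c : V → Fin k) (v : V) : deg G v = ∑ i, count G c v i := by
  classical
  haveI := Fintype.ofFinite V
  unfold deg count
  have h1 : (G.neighborSet v).ncard = (Finset.univ.filter fun w => G.Adj v w).card := by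
    rw [← Set.ncard_coe_finset]
    congr 1
    ext w
    simp
  rw [h1, Finset.card_eq_sum_card_fiberwise (t := Finset.univ) (f := c) (fun _ _ => Finset.mem_univ _)]
  apply Finset.sum_congr rfl
  intro i _
  rw [← Set.ncard_coe_finset]
  congr 1
  ext w
  simp

/-- true twins with different colours -/
theorem twin_count {k : ℕ} (c : V → Fin k) {u v : V} (huv : G.Adj u v)
    (ht : ∀ w, w ≠ u → w ≠ v → (G.Adj u w ↔ G.Adj v w)) (hc : c u ≠ c v) :
    count G c v (c u) = count G c u (c u) + 1 := by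
  unfold count
  have : {w | G.Adj v w ∧ c w = c u} = insert u {w | G.Adj u w ∧ c w = c u} := by
    ext w
    simp only [Set.mem_setOf_eq, Set.mem_insert_iff]
    constructor
    · rintro ⟨h1, h2⟩
      by_cases hw : w = u
      · exact Or.inl hw
      · exact Or.inr ⟨(ht w hw (G.ne_of_adj h1).symm).2 h1, h2⟩
    · rintro (rfl | ⟨h1, h2⟩)
      · exact ⟨huv.symm, rfl⟩
      · refine ⟨(ht w (G.ne_of_adj h1).symm ?_).1 h1, h2⟩
        rintro rfl
        exact hc h2.symm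
  rw [this, Set.ncard_insert_of_notMem]
  intro h
  exact G.loopless.irrefl _ h.1

end general

/-! ### The graph -/

section graph

variable (k p r n a1 a2 a3 a4 : ℕ)

/-- the index set -/
abbrev Idx : Type := Fin a1 × Fin a2 × Fin a3 × Fin a4

/-- the vertices: a class, an index, and a vertex of type `R`, `P` or `V` -/
abbrev Vt : Type := Fin k × Idx a1 a2 a3 a4 × (Fin r ⊕ Fin p ⊕ Fin n)

variable {k p r n a1 a2 a3 a4}

/-- agreement of indices except in the first, second, third, fourth coordinate -/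
def ag1 (x y : Idx a1 a2 a3 a4) : Prop := x.2 = y.2
/-- second -/
def ag2 (x y : Idx a1 a2 a3 a4) : Prop := x.1 = y.1 ∧ x.2.2 = y.2.2
/-- third -/
def ag3 (x y : Idx a1 a2 a3 a4) : Prop := x.1 = y.1 ∧ x.2.1 = y.2.1 ∧ x.2.2.2 = y.2.2.2
/-- fourth -/
def ag4 (x y : Idx a1 a2 a3 a4) : Prop := x.1 = y.1 ∧ x.2.1 = y.2.1 ∧ x.2.2.1 = y.2.2.1

/-- adjacency -/
def adj : Vt k p r n a1 a2 a3 a4 → Vt k p r n a1 a2 a3 a4 → Prop
  | (i, x, .inl a), (j, y, .inl b) => (i = j ∧ ag1 x y ∧ ¬ (x = y ∧ a = b)) ∨ (i ≠ j ∧ ag3 x y)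
  | (i, x, .inr (.inl a)), (j, y, .inr (.inl b)) =>
      (i = j ∧ ag2 x y ∧ ¬ (x = y ∧ a = b)) ∨ (i ≠ j ∧ ag4 x y)
  | (i, x, .inr (.inr _)), (j, y, .inl _) => i = j ∧ x = y
  | (i, x, .inl _), (j, y, .inr (.inr _)) => i = j ∧ x = y
  | (i, x, .inr (.inr _)), (j, y, .inr (.inl _)) => i ≠ j ∧ x = y
  | (i, x, .inr (.inl _)), (j, y, .inr (.inr _)) => i ≠ j ∧ x = y
  | _, _ => False

theorem adj_symm : ∀ u v : Vt k p r n a1 a2 a3 a4, adj u v → adj v u := by
  rintro ⟨i, x, a | a | a⟩ ⟨j, y, b | b | b⟩ h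
  · rcases h with ⟨h1, h2, h3⟩ | ⟨h1, h2, h3, h4⟩
    · exact Or.inl ⟨h1.symm, h2.symm, fun e => h3 ⟨e.1.symm, e.2.symm⟩⟩
    · exact Or.inr ⟨h1.symm, h2.symm, h3.symm, h4.symm⟩
  · exact h
  · exact ⟨h.1.symm, h.2.symm⟩
  · exact h
  · rcases h with ⟨h1, h2, h3⟩ | ⟨h1, h2, h3, h4⟩
    · exact Or.inl ⟨h1.symm, ⟨h2.1.symm, h2.2.symm⟩, fun e => h3 ⟨e.1.symm, e.2.symm⟩⟩
    · exact Or.inr ⟨h1.symm, h2.symm, h3.symm, h4.symm⟩
  · exact ⟨h.1.symm, h.2.symm⟩
  · exact ⟨h.1.symm, h.2.symm⟩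
  · exact ⟨h.1.symm, h.2.symm⟩
  · exact h

theorem adj_irrefl : ∀ u : Vt k p r n a1 a2 a3 a4, ¬ adj u u := by
  rintro ⟨i, x, a | a | a⟩ h
  · rcases h with ⟨-, -, h3⟩ | ⟨h1, -⟩
    · exact h3 ⟨rfl, rfl⟩
    · exact h1 rfl
  · rcases h with ⟨-, -, h3⟩ | ⟨h1, -⟩
    · exact h3 ⟨rfl, rfl⟩
    · exact h1 rfl
  · exact h

variable (k p r n a1 a2 a3 a4)

/-- the graph -/
def Gr : SimpleGraph (Vt k p r n a1 a2 a3 a4) where
  Adj := adj
  symm := ⟨adj_symm⟩
  loopless := ⟨adj_irrefl⟩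

/-- the colouring by classes -/
def cl (v : Vt k p r n a1 a2 a3 a4) : Fin k := v.1

variable {k p r n a1 a2 a3 a4}

theorem ncard_range {α β : Type} [Finite α] (f : α → β) (hf : Function.Injective f) :
    (Set.range f).ncard = Nat.card α := by
  rw [← Set.image_univ, Set.ncard_image_of_injective _ hf, Set.ncard_univ]

/-! counts at the vertices of type `V` -/

theorem countV_own (i : Fin k) (x : Idx a1 a2 a3 a4) (l : Fin n) :
    count (Gr k p r n a1 a2 a3 a4) (cl k p r n a1 a2 a3 a4) (i, x, .inr (.inr l)) i = r := by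
  unfold count
  have : {w | (Gr k p r n a1 a2 a3 a4).Adj (i, x, .inr (.inr l)) w ∧
      cl k p r n a1 a2 a3 a4 w = i} = Set.range (fun a : Fin r => (i, x, Sum.inl a)) := by
    ext ⟨j, y, b | b | b⟩
    · simp only [Gr, cl, Set.mem_setOf_eq, adj, Set.mem_range, Prod.mk.injEq, Sum.inl.injEq]
      constructor
      · rintro ⟨⟨h1, h2⟩, -⟩
        exact ⟨b, h1, h2, rfl⟩
      · rintro ⟨a, h1, h2, -⟩
        exact ⟨⟨h1, h2⟩, h1.symm⟩
    · simp only [Gr, cl, Set.mem_setOf_eq, adj, Set.mem_range, Prod.mk.injEq, reduceCtorEq,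
        and_false, exists_false, iff_false, not_and]
      rintro ⟨h1, -⟩ h2
      exact h1 h2.symm
    · simp [Gr, cl, adj]
  rw [this, ncard_range _ (fun a b h => by simpa using h), Nat.card_fin]

theorem countV_oth (i j : Fin k) (hij : i ≠ j) (x : Idx a1 a2 a3 a4) (l : Fin n) :
    count (Gr k p r n a1 a2 a3 a4) (cl k p r n a1 a2 a3 a4) (i, x, .inr (.inr l)) j = p := by
  unfold count
  have : {w | (Gr k p r n a1 a2 a3 a4).Adj (i, x, .inr (.inr l)) w ∧
      cl k p r n a1 a2 a3 a4 w = j} =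
      Set.range (fun a : Fin p => (j, x, (Sum.inr (Sum.inl a) : Fin r ⊕ Fin p ⊕ Fin n))) := by
    ext ⟨j', y, b | b | b⟩
    · simp only [Gr, cl, Set.mem_setOf_eq, adj, Set.mem_range, Prod.mk.injEq, reduceCtorEq,
        and_false, exists_false, iff_false, not_and]
      rintro ⟨h1, -⟩ h2
      exact hij (h1.trans h2)
    · simp only [Gr, cl, Set.mem_setOf_eq, adj, Set.mem_range, Prod.mk.injEq, Sum.inr.injEq,
        Sum.inl.injEq]
      constructor
      · rintro ⟨⟨h1, h2⟩, h3⟩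
        exact ⟨b, h3.symm, h2, rfl⟩
      · rintro ⟨a, h1, h2, -⟩
        exact ⟨⟨h1 ▸ hij, h2⟩, h1.symm⟩
    · simp [Gr, cl, adj]
  rw [this, ncard_range _ (fun a b h => by simpa using h), Nat.card_fin]

/-! counts at the vertices of type `R` -/

theorem countR_oth (i j : Fin k) (hij : i ≠ j) (x : Idx a1 a2 a3 a4) (a : Fin r) :
    count (Gr k p r n a1 a2 a3 a4) (cl k p r n a1 a2 a3 a4) (i, x, .inl a) j = a3 * r := by
  unfold count
  have : {w | (Gr k p r n a1 a2 a3 a4).Adj (i, x, .inl a) w ∧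
      cl k p r n a1 a2 a3 a4 w = j} =
      Set.range (fun b : Fin a3 × Fin r => (j, (x.1, x.2.1, b.1, x.2.2.2),
        (Sum.inl b.2 : Fin r ⊕ Fin p ⊕ Fin n))) := by
    ext ⟨j', y, b | b | b⟩
    · simp only [Gr, cl, Set.mem_setOf_eq, adj, Set.mem_range, Prod.mk.injEq, Sum.inl.injEq,
        Prod.exists]
      constructor
      · rintro ⟨⟨h1, -⟩ | ⟨-, h2, h3, h4⟩, h5⟩
        · exact absurd (h1.trans h5) hij
        · refine ⟨y.2.2.1, b, h5.symm, ?_, rfl⟩
          rw [h2, h3, h4]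
      · rintro ⟨a', b', h1, h2, -⟩
        refine ⟨Or.inr ⟨h1 ▸ hij, ?_⟩, h1.symm⟩
        rw [← h2]
        exact ⟨rfl, rfl, rfl⟩
    · simp [Gr, cl, adj]
    · simp only [Gr, cl, Set.mem_setOf_eq, adj, Set.mem_range, Prod.mk.injEq, reduceCtorEq,
        and_false, exists_false, iff_false, not_and]
      rintro ⟨h1, -⟩ h2
      exact hij (h1.trans h2)
  rw [this, ncard_range, Nat.card_prod, Nat.card_fin, Nat.card_fin]
  rintro ⟨b1, b2⟩ ⟨c1, c2⟩ h
  simp only [Prod.mk.injEq, Sum.inl.injEq, true_and, and_true] at h ⊢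
  exact h

theorem countR_own (i : Fin k) (x : Idx a1 a2 a3 a4) (a : Fin r) :
    count (Gr k p r n a1 a2 a3 a4) (cl k p r n a1 a2 a3 a4) (i, x, .inl a) i + 1 = a1 * r + n := by
  unfold count
  have : insert (i, x, .inl a) {w | (Gr k p r n a1 a2 a3 a4).Adj (i, x, .inl a) w ∧
      cl k p r n a1 a2 a3 a4 w = i} =
      Set.range (fun b : (Fin a1 × Fin r) ⊕ Fin n => match b with
        | .inl b => (i, (b.1, x.2), (Sum.inl b.2 : Fin r ⊕ Fin p ⊕ Fin n))
        | .inr l => (i, x, Sum.inr (Sum.inr l))) := by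
    ext ⟨j', y, b | b | b⟩
    · simp only [Gr, cl, Set.mem_setOf_eq, adj, Set.mem_range, Prod.mk.injEq, Sum.inl.injEq,
        Prod.exists, Sum.exists, Set.mem_insert_iff, reduceCtorEq, and_false, exists_false, or_false]
      constructor
      · rintro (⟨h1, h2, h3⟩ | ⟨⟨-, h2, -⟩ | ⟨h1, -⟩, h5⟩)
        · exact ⟨y.1, b, h1.symm, by rw [h2], rfl⟩
        · exact ⟨y.1, b, h5.symm, by rw [h2], rfl⟩
        · exact absurd h5.symm h1
      · rintro ⟨a', b', h1, h2, -⟩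
        by_cases h : y = x ∧ b = a
        · exact Or.inl ⟨h1.symm, h.1, h.2⟩
        · refine Or.inr ⟨Or.inl ⟨h1, ?_, fun e => h ⟨e.1.symm, e.2.symm⟩⟩, h1.symm⟩
          rw [← h2]
          rfl
    · simp [Gr, cl, adj]
    · simp only [Gr, cl, Set.mem_setOf_eq, adj, Set.mem_range, Prod.mk.injEq, Sum.inr.injEq,
        Prod.exists, Sum.exists, Set.mem_insert_iff, reduceCtorEq, and_false, exists_false, false_or]
      constructor
      · rintro ⟨⟨h1, h2⟩, -⟩
        exact ⟨b, h1, h2, rfl⟩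
      · rintro ⟨l, h1, h2, -⟩
        exact ⟨⟨h1, h2⟩, h1.symm⟩
  have h2 := Set.ncard_insert_of_notMem (a := ((i, x, .inl a) : Vt k p r n a1 a2 a3 a4))
    (s := {w | (Gr k p r n a1 a2 a3 a4).Adj (i, x, .inl a) w ∧ cl k p r n a1 a2 a3 a4 w = i})
    (fun h => (Gr k p r n a1 a2 a3 a4).loopless.irrefl _ h.1)
  rw [← h2, this, ncard_range, Nat.card_sum, Nat.card_prod, Nat.card_fin, Nat.card_fin, Nat.card_fin]
  rintro (⟨b1, b2⟩ | l) (⟨c1, c2⟩ | l') h
  · simp only [Prod.mk.injEq, Sum.inl.injEq, true_and, and_true] at h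
    rw [h.1, h.2]
  · simp at h
  · simp at h
  · simp only [Prod.mk.injEq, Sum.inr.injEq, true_and] at h
    rw [h]

/-! counts at the vertices of type `P` -/

theorem countP_own (i : Fin k) (x : Idx a1 a2 a3 a4) (a : Fin p) :
    count (Gr k p r n a1 a2 a3 a4) (cl k p r n a1 a2 a3 a4) (i, x, .inr (.inl a)) i + 1 = a2 * p := by
  unfold count
  have : insert (i, x, .inr (.inl a)) {w | (Gr k p r n a1 a2 a3 a4).Adj (i, x, .inr (.inl a)) w ∧
      cl k p r n a1 a2 a3 a4 w = i} =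
      Set.range (fun b : Fin a2 × Fin p =>
        (i, (x.1, b.1, x.2.2), (Sum.inr (Sum.inl b.2) : Fin r ⊕ Fin p ⊕ Fin n))) := by
    ext ⟨j', y, b | b | b⟩
    · simp [Gr, cl, adj]
    · simp only [Gr, cl, Set.mem_setOf_eq, adj, Set.mem_range, Prod.mk.injEq, Sum.inl.injEq,
        Sum.inr.injEq, Prod.exists, Set.mem_insert_iff]
      constructor
      · rintro (⟨h1, h2, h3⟩ | ⟨⟨-, h2, -⟩ | ⟨h1, -⟩, h5⟩)
        · exact ⟨y.2.1, b, h1.symm, by rw [h2], rfl⟩
        · exact ⟨y.2.1, b, h5.symm, by rw [h2.1, h2.2], rfl⟩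
        · exact absurd h5.symm h1
      · rintro ⟨a', b', h1, h2, -⟩
        by_cases h : y = x ∧ b = a
        · exact Or.inl ⟨h1.symm, h.1, h.2⟩
        · refine Or.inr ⟨Or.inl ⟨h1, ?_, fun e => h ⟨e.1.symm, e.2.symm⟩⟩, h1.symm⟩
          rw [← h2]
          exact ⟨rfl, rfl⟩
    · simp only [Gr, cl, Set.mem_setOf_eq, adj, Set.mem_range, Prod.mk.injEq, Sum.inr.injEq,
        Prod.exists, Set.mem_insert_iff, reduceCtorEq, and_false, exists_false, false_or, iff_false,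
        not_and]
      rintro ⟨h1, -⟩ h2
      exact h1 h2.symm
  have h2 := Set.ncard_insert_of_notMem (a := ((i, x, .inr (.inl a)) : Vt k p r n a1 a2 a3 a4))
    (s := {w | (Gr k p r n a1 a2 a3 a4).Adj (i, x, .inr (.inl a)) w ∧
      cl k p r n a1 a2 a3 a4 w = i})
    (fun h => (Gr k p r n a1 a2 a3 a4).loopless.irrefl _ h.1)
  rw [← h2, this, ncard_range, Nat.card_prod, Nat.card_fin, Nat.card_fin]
  rintro ⟨b1, b2⟩ ⟨c1, c2⟩ h
  simp only [Prod.mk.injEq, Sum.inr.injEq, Sum.inl.injEq, true_and, and_true] at h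
  rw [h.1, h.2]

theorem countP_oth (i j : Fin k) (hij : i ≠ j) (x : Idx a1 a2 a3 a4) (a : Fin p) :
    count (Gr k p r n a1 a2 a3 a4) (cl k p r n a1 a2 a3 a4) (i, x, .inr (.inl a)) j =
      a4 * p + n := by
  unfold count
  have : {w | (Gr k p r n a1 a2 a3 a4).Adj (i, x, .inr (.inl a)) w ∧
      cl k p r n a1 a2 a3 a4 w = j} =
      Set.range (fun b : (Fin a4 × Fin p) ⊕ Fin n => match b with
        | .inl b => (j, (x.1, x.2.1, x.2.2.1, b.1), (Sum.inr (Sum.inl b.2) : Fin r ⊕ Fin p ⊕ Fin n))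
        | .inr l => (j, x, Sum.inr (Sum.inr l))) := by
    ext ⟨j', y, b | b | b⟩
    · simp [Gr, cl, adj]
    · simp only [Gr, cl, Set.mem_setOf_eq, adj, Set.mem_range, Prod.mk.injEq, Sum.inl.injEq,
        Sum.inr.injEq, Prod.exists, Sum.exists, reduceCtorEq, and_false, exists_false, or_false]
      constructor
      · rintro ⟨⟨h1, -⟩ | ⟨-, h2, h3, h4⟩, h5⟩
        · exact absurd (h1.trans h5) hij
        · refine ⟨y.2.2.2, b, h5.symm, ?_, rfl⟩
          rw [h2, h3, h4]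
      · rintro ⟨a', b', h1, h2, -⟩
        refine ⟨Or.inr ⟨h1 ▸ hij, ?_⟩, h1.symm⟩
        rw [← h2]
        exact ⟨rfl, rfl, rfl⟩
    · simp only [Gr, cl, Set.mem_setOf_eq, adj, Set.mem_range, Prod.mk.injEq, Sum.inr.injEq,
        Prod.exists, Sum.exists, reduceCtorEq, and_false, exists_false, false_or]
      constructor
      · rintro ⟨⟨h1, h2⟩, h3⟩
        exact ⟨b, h3.symm, h2, rfl⟩
      · rintro ⟨l, h1, h2, -⟩
        exact ⟨⟨h1 ▸ hij, h2⟩, h1.symm⟩
  rw [this, ncard_range, Nat.card_sum, Nat.card_prod, Nat.card_fin, Nat.card_fin, Nat.card_fin]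
  rintro (⟨b1, b2⟩ | l) (⟨c1, c2⟩ | l') h
  · simp only [Prod.mk.injEq, Sum.inr.injEq, Sum.inl.injEq, true_and, and_true] at h
    rw [h.1, h.2]
  · simp at h
  · simp at h
  · simp only [Prod.mk.injEq, Sum.inr.injEq, true_and] at h
    rw [h]

end graph

end Q128.Fat
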