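import Pool.Agent.Q128.FatParam

/-!
# FAT colourings with a prescribed parameter: the graph has the required properties
-/

set_option autoImplicit false

namespace Q128.Fat

open SimpleGraph

section

variable {k p r n a1 a2 a3 a4 tR tP : ℕ}

/-- the counts of the colouring by classes -/
theorem cl_counts (e1 : a3 * r = p * tR) (e2 : a1 * r + n = r * tR + 1)
    (e3 : a4 * p + n = p * tP) (e4 : a2 * p = r * tP + 1) (v : Vt k p r n a1 a2 a3 a4) :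
    ∃ t : ℕ,
      count (Gr k p r n a1 a2 a3 a4) (cl k p r n a1 a2 a3 a4) v (cl k p r n a1 a2 a3 a4 v) = r * t ∧
      ∀ j, cl k p r n a1 a2 a3 a4 v ≠ j →
        count (Gr k p r n a1 a2 a3 a4) (cl k p r n a1 a2 a3 a4) v j = p * t := by
  obtain ⟨i, x, a | a | a⟩ := v
  · refine ⟨tR, ?_, fun j hj => ?_⟩
    · have := countR_own (p := p) (n := n) i x a
      have h : count (Gr k p r n a1 a2 a3 a4) (cl k p r n a1 a2 a3 a4) (i, x, .inl a) i =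
        r * tR := by omega
      exact h
    · rw [← e1]
      exact countR_oth i j hj x a
  · refine ⟨tP, ?_, fun j hj => ?_⟩
    · have := countP_own (r := r) (n := n) i x a
      have h : count (Gr k p r n a1 a2 a3 a4) (cl k p r n a1 a2 a3 a4) (i, x, .inr (.inl a)) i =
        r * tP := by omega
      exact h
    · rw [← e3]
      exact countP_oth i j hj x a
  · refine ⟨1, ?_, fun j hj => ?_⟩
    · rw [mul_one]
      exact countV_own i x a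
    · rw [mul_one]
      exact countV_oth i j hj x a

theorem cl_deg (hk : 2 ≤ k) (v : Vt k p r n a1 a2 a3 a4) (t : ℕ)
    (ho : count (Gr k p r n a1 a2 a3 a4) (cl k p r n a1 a2 a3 a4) v
      (cl k p r n a1 a2 a3 a4 v) = r * t)
    (hj : ∀ j, cl k p r n a1 a2 a3 a4 v ≠ j →
      count (Gr k p r n a1 a2 a3 a4) (cl k p r n a1 a2 a3 a4) v j = p * t) :
    deg (Gr k p r n a1 a2 a3 a4) v = (r + (k - 1) * p) * t := by
  rw [deg_eq_sum (cl k p r n a1 a2 a3 a4) v,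
    ← Finset.add_sum_erase _ _ (Finset.mem_univ (cl k p r n a1 a2 a3 a4 v)), ho,
    Finset.sum_congr rfl (g := fun _ => p * t)]
  · rw [Finset.sum_const, Finset.card_erase_of_mem (Finset.mem_univ _), Finset.card_univ,
      Fintype.card_fin, smul_eq_mul]
    ring
  · intro j hj'
    exact hj j (Finset.ne_of_mem_erase hj').symm

/-- the colouring by classes is FAT -/
theorem cl_fat (hk : 2 ≤ k) (hp : 1 ≤ p) (hr : 1 ≤ r) (h1 : 1 ≤ a1) (h2 : 1 ≤ a2)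
    (h3 : 1 ≤ a3) (h4 : 1 ≤ a4) (e1 : a3 * r = p * tR) (e2 : a1 * r + n = r * tR + 1)
    (e3 : a4 * p + n = p * tP) (e4 : a2 * p = r * tP + 1) :
    IsFAT (Gr k p r n a1 a2 a3 a4) (cl k p r n a1 a2 a3 a4)
      ((p : ℝ) / ((r : ℝ) + ((k : ℝ) - 1) * p)) := by
  have hk' : (2 : ℝ) ≤ k := by exact_mod_cast hk
  have hp' : (1 : ℝ) ≤ p := by exact_mod_cast hp
  have hr' : (1 : ℝ) ≤ r := by exact_mod_cast hr
  obtain ⟨Q, hQ⟩ : ∃ Q : ℝ, Q = (r : ℝ) + ((k : ℝ) - 1) * p := ⟨_, rfl⟩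
  have hQ1 : (p : ℝ) ≤ Q := by
    rw [hQ]
    nlinarith
  have hQ0 : (0 : ℝ) < Q := by linarith
  rw [← hQ]
  refine ⟨?_, by positivity, (div_le_one hQ0).2 hQ1, ?_⟩
  · intro i
    exact ⟨(i, (⟨0, h1⟩, ⟨0, h2⟩, ⟨0, h3⟩, ⟨0, h4⟩), .inl ⟨0, hr⟩), rfl⟩
  · intro v i
    obtain ⟨t, ho, hj⟩ := cl_counts (k := k) (r := r) e1 e2 e3 e4 v
    have hd : (deg (Gr k p r n a1 a2 a3 a4) v : ℝ) = Q * t := by
      rw [cl_deg hk v t ho hj, hQ]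
      push_cast [Nat.cast_sub (show 1 ≤ k by omega)]
      ring
    constructor
    · intro hne
      rw [hj i hne, hd]
      push_cast
      field_simp
    · intro he
      rw [← he, ho, hd]
      push_cast
      have : (r : ℝ) = Q - (k - 1) * p := by rw [hQ]; ring
      rw [this]
      field_simp

/-! ### Connectedness -/

theorem Gr_connected (hk : 2 ≤ k) (hp : 1 ≤ p) (hr : 1 ≤ r) (hn : 1 ≤ n) (h1 : 1 ≤ a1)
    (h2 : 1 ≤ a2) (h3 : 1 ≤ a3) (h4 : 1 ≤ a4) : (Gr k p r n a1 a2 a3 a4).Connected := by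
  have hk0 : 0 < k := by omega
  have hk1 : 1 < k := by omega
  have h01 : (⟨0, hk0⟩ : Fin k) ≠ ⟨1, hk1⟩ := by
    intro e
    rw [Fin.mk.injEq] at e
    omega
  -- the root of the block of index `x`
  have A : ∀ (u v : Vt k p r n a1 a2 a3 a4), adj u v → (Gr k p r n a1 a2 a3 a4).Reachable u v :=
    fun u v h => SimpleGraph.Adj.reachable (G := Gr k p r n a1 a2 a3 a4) h
  have T : ∀ {u v w : Vt k p r n a1 a2 a3 a4}, (Gr k p r n a1 a2 a3 a4).Reachable u v →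
      (Gr k p r n a1 a2 a3 a4).Reachable v w → (Gr k p r n a1 a2 a3 a4).Reachable u w :=
    fun h h' => h.trans h'
  have S : ∀ {u v : Vt k p r n a1 a2 a3 a4}, (Gr k p r n a1 a2 a3 a4).Reachable u v →
      (Gr k p r n a1 a2 a3 a4).Reachable v u := fun h => h.symm
  -- vertices of type `R`
  have R1 : ∀ (x : Idx a1 a2 a3 a4) (i : Fin k) (a : Fin r),
      (Gr k p r n a1 a2 a3 a4).Reachable (i, x, .inl a) (⟨0, hk0⟩, x, .inl ⟨0, hr⟩) := by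
    intro x i a
    by_cases hi : i = ⟨0, hk0⟩
    · subst hi
      refine T (A _ (⟨1, hk1⟩, x, .inl ⟨0, hr⟩) (Or.inr ⟨h01, rfl, rfl, rfl⟩))
        (A _ _ (Or.inr ⟨h01.symm, rfl, rfl, rfl⟩))
    · exact A _ _ (Or.inr ⟨hi, rfl, rfl, rfl⟩)
  -- vertices of type `V`
  have V1 : ∀ (x : Idx a1 a2 a3 a4) (i : Fin k) (l : Fin n),
      (Gr k p r n a1 a2 a3 a4).Reachable (i, x, .inr (.inr l)) (⟨0, hk0⟩, x, .inl ⟨0, hr⟩) := by
    intro x i l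
    exact T (A _ (i, x, .inl ⟨0, hr⟩) ⟨rfl, rfl⟩) (R1 x i _)
  have P1 : ∀ (x : Idx a1 a2 a3 a4) (i : Fin k) (a : Fin p),
      (Gr k p r n a1 a2 a3 a4).Reachable (i, x, .inr (.inl a)) (⟨0, hk0⟩, x, .inl ⟨0, hr⟩) := by
    intro x i a
    by_cases hi : i = ⟨0, hk0⟩
    · subst hi
      exact T (A _ (⟨1, hk1⟩, x, .inr (.inr ⟨0, hn⟩)) ⟨h01, rfl⟩) (V1 x _ _)
    · exact T (A _ (⟨0, hk0⟩, x, .inr (.inr ⟨0, hn⟩)) ⟨hi, rfl⟩) (V1 x _ _)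
  have all1 : ∀ v : Vt k p r n a1 a2 a3 a4,
      (Gr k p r n a1 a2 a3 a4).Reachable v (⟨0, hk0⟩, v.2.1, .inl ⟨0, hr⟩) := by
    rintro ⟨i, x, a | a | a⟩
    · exact R1 x i a
    · exact P1 x i a
    · exact V1 x i a
  -- change of the coordinates
  have m1 : ∀ x y : Idx a1 a2 a3 a4, ag1 x y → (Gr k p r n a1 a2 a3 a4).Reachable
      (⟨0, hk0⟩, x, .inl ⟨0, hr⟩) (⟨0, hk0⟩, y, .inl ⟨0, hr⟩) := by
    intro x y h
    by_cases hxy : x = y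
    · subst hxy
      exact SimpleGraph.Reachable.refl _
    · exact A _ _ (Or.inl ⟨rfl, h, fun e => hxy e.1⟩)
  have m2 : ∀ x y : Idx a1 a2 a3 a4, ag2 x y → (Gr k p r n a1 a2 a3 a4).Reachable
      (⟨0, hk0⟩, x, .inl ⟨0, hr⟩) (⟨0, hk0⟩, y, .inl ⟨0, hr⟩) := by
    intro x y h
    by_cases hxy : x = y
    · subst hxy
      exact SimpleGraph.Reachable.refl _
    · exact T (S (P1 x ⟨0, hk0⟩ ⟨0, hp⟩)) (T (A _ (⟨0, hk0⟩, y, .inr (.inl ⟨0, hp⟩))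
        (Or.inl ⟨rfl, h, fun e => hxy e.1⟩)) (P1 y _ _))
  have m3 : ∀ x y : Idx a1 a2 a3 a4, ag3 x y → (Gr k p r n a1 a2 a3 a4).Reachable
      (⟨0, hk0⟩, x, .inl ⟨0, hr⟩) (⟨0, hk0⟩, y, .inl ⟨0, hr⟩) := by
    intro x y h
    exact T (A _ (⟨1, hk1⟩, y, .inl ⟨0, hr⟩) (Or.inr ⟨h01, h⟩)) (R1 y _ _)
  have m4 : ∀ x y : Idx a1 a2 a3 a4, ag4 x y → (Gr k p r n a1 a2 a3 a4).Reachable
      (⟨0, hk0⟩, x, .inl ⟨0, hr⟩) (⟨0, hk0⟩, y, .inl ⟨0, hr⟩) := by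
    intro x y h
    exact T (S (P1 x ⟨0, hk0⟩ ⟨0, hp⟩)) (T (A _ (⟨1, hk1⟩, y, .inr (.inl ⟨0, hp⟩))
      (Or.inr ⟨h01, h⟩)) (P1 y _ _))
  have all2 : ∀ x y : Idx a1 a2 a3 a4, (Gr k p r n a1 a2 a3 a4).Reachable
      (⟨0, hk0⟩, x, .inl ⟨0, hr⟩) (⟨0, hk0⟩, y, .inl ⟨0, hr⟩) := by
    rintro ⟨x1, x2, x3, x4⟩ ⟨y1, y2, y3, y4⟩
    exact T (m1 _ (y1, x2, x3, x4) rfl) (T (m2 _ (y1, y2, x3, x4) ⟨rfl, rfl⟩)
      (T (m3 _ (y1, y2, y3, x4) ⟨rfl, rfl, rfl⟩) (m4 _ _ ⟨rfl, rfl, rfl⟩)))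
  have : Nonempty (Vt k p r n a1 a2 a3 a4) :=
    ⟨(⟨0, hk0⟩, (⟨0, h1⟩, ⟨0, h2⟩, ⟨0, h3⟩, ⟨0, h4⟩), .inl ⟨0, hr⟩)⟩
  refine ⟨fun u v => ?_⟩
  exact T (all1 u) (T (all2 _ _) (S (all1 v)))

end

end Q128.Fat
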