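import Pool.Agent.Q128.FatParam2

/-!
# FAT colourings with a prescribed parameter: at most `k` colours
-/

set_option autoImplicit false

namespace Q128.Fat

open SimpleGraph

section

variable {k p r n a1 a2 a3 a4 tR tP : ℕ}

/-- the counts around a vertex determine the counts around adjacent twins -/
theorem twins_same {V : Type} [Finite V] {G : SimpleGraph V} {m : ℕ} {c : V → Fin m} {α : ℝ}
    (h : IsFAT G c α) {q t x y : ℕ} (hx : (x : ℝ) = α * q)
    (hy : (y : ℝ) = (1 - ((m : ℝ) - 1) * α) * q) (ht : 2 ≤ t) {u v : V} (hd : deg G u = q * t)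
    (hd' : deg G v = q * t) (huv : G.Adj u v)
    (htw : ∀ w, w ≠ u → w ≠ v → (G.Adj u w ↔ G.Adj v w)) : c u = c v := by
  by_contra hne
  have h1 := twin_count c huv htw hne
  have h2 := (h.2.2.2 u (c u)).2 rfl
  have h3 := (h.2.2.2 v (c u)).1 (fun e => hne e.symm)
  rw [hd] at h2
  rw [hd'] at h3
  have e2 : count G c u (c u) = y * t := by
    have : (count G c u (c u) : ℝ) = ((y * t : ℕ) : ℝ) := by
      rw [h2]
      push_cast
      rw [hy]
      ring
    exact_mod_cast this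
  have e3 : count G c v (c u) = x * t := by
    have : (count G c v (c u) : ℝ) = ((x * t : ℕ) : ℝ) := by
      rw [h3]
      push_cast
      rw [hx]
      ring
    exact_mod_cast this
  rw [e2, e3] at h1
  have h4 : t ∣ 1 := by
    have : t ∣ y * t + 1 := ⟨x, by rw [← h1]; ring⟩
    exact (Nat.dvd_add_right ⟨y, by ring⟩).1 this
  have := Nat.le_of_dvd one_pos h4
  omega

theorem twinR (i : Fin k) (x : Idx a1 a2 a3 a4) (a b : Fin r) (w : Vt k p r n a1 a2 a3 a4)
    (h1 : w ≠ (i, x, .inl a)) (h2 : w ≠ (i, x, .inl b)) :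
    adj (i, x, .inl a) w ↔ adj (i, x, .inl b) w := by
  obtain ⟨j, y, c | c | c⟩ := w
  · have h1' : ¬ (i = j ∧ x = y ∧ a = c) := by
      rintro ⟨rfl, rfl, rfl⟩
      exact h1 rfl
    have h2' : ¬ (i = j ∧ x = y ∧ b = c) := by
      rintro ⟨rfl, rfl, rfl⟩
      exact h2 rfl
    simp only [adj]
    tauto
  · exact Iff.rfl
  · exact Iff.rfl

theorem twinP (i : Fin k) (x : Idx a1 a2 a3 a4) (a b : Fin p) (w : Vt k p r n a1 a2 a3 a4)
    (h1 : w ≠ (i, x, .inr (.inl a))) (h2 : w ≠ (i, x, .inr (.inl b))) :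
    adj (i, x, .inr (.inl a)) w ↔ adj (i, x, .inr (.inl b)) w := by
  obtain ⟨j, y, c | c | c⟩ := w
  · exact Iff.rfl
  · have h1' : ¬ (i = j ∧ x = y ∧ a = c) := by
      rintro ⟨rfl, rfl, rfl⟩
      exact h1 rfl
    have h2' : ¬ (i = j ∧ x = y ∧ b = c) := by
      rintro ⟨rfl, rfl, rfl⟩
      exact h2 rfl
    simp only [adj]
    tauto
  · exact Iff.rfl

/-- every FAT colouring has at most `k` colours -/
theorem Gr_le (hk : 2 ≤ k) (hp : 1 ≤ p) (hr : 1 ≤ r) (hn : 1 ≤ n) (h1 : k + 2 ≤ a1) (h2 : 1 ≤ a2)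
    (h3 : 1 ≤ a3) (h4 : 1 ≤ a4) (e1 : a3 * r = p * tR) (e2 : a1 * r + n = r * tR + 1)
    (e3 : a4 * p + n = p * tP) (e4 : a2 * p = r * tP + 1) (htR : 2 ≤ tR) (htP : 2 ≤ tP)
    {m : ℕ} (c : Vt k p r n a1 a2 a3 a4 → Fin m) {α : ℝ} (h : IsFAT (Gr k p r n a1 a2 a3 a4) c α) :
    m ≤ k := by
  by_contra hmk
  have hm : k < m := by omega
  have hconn := Gr_connected (k := k) (p := p) (r := r) (n := n) (a1 := a1) (a2 := a2) (a3 := a3)
    (a4 := a4) hk hp hr hn (by omega) h2 h3 h4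
  set x0 : Idx a1 a2 a3 a4 := (⟨0, by omega⟩, ⟨0, h2⟩, ⟨0, h3⟩, ⟨0, h4⟩) with hx0
  set i0 : Fin k := ⟨0, by omega⟩ with hi0
  set v0 : Vt k p r n a1 a2 a3 a4 := (i0, x0, .inr (.inr ⟨0, hn⟩)) with hv0
  have hdv : deg (Gr k p r n a1 a2 a3 a4) v0 = r + (k - 1) * p := by
    have := cl_deg (k := k) (p := p) (r := r) (n := n) (a1 := a1) (a2 := a2) (a3 := a3) (a4 := a4)
      hk v0 1 (by rw [mul_one]; exact countV_own i0 x0 _)
      (fun j hj => by rw [mul_one]; exact countV_oth i0 j hj x0 _)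
    rw [this, mul_one]
  set q := r + (k - 1) * p with hq
  -- a colour different from the colour of `v0`
  obtain ⟨j0, hj0⟩ : ∃ j : Fin m, c v0 ≠ j := by
    by_cases hc : c v0 = ⟨0, by omega⟩
    · exact ⟨⟨1, by omega⟩, by rw [hc, ne_eq, Fin.mk.injEq]; omega⟩
    · exact ⟨_, hc⟩
  obtain ⟨x, hx⟩ : ∃ x : ℕ, (x : ℝ) = α * q := ⟨_, by rw [← hdv]; exact (h.2.2.2 v0 j0).1 hj0⟩
  obtain ⟨y, hy⟩ : ∃ y : ℕ, (y : ℝ) = (1 - ((m : ℝ) - 1) * α) * q :=
    ⟨_, by rw [← hdv]; exact (h.2.2.2 v0 (c v0)).2 rfl⟩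
  have hqpos : 0 < q := by omega
  have hqpos' : (0 : ℝ) < q := by exact_mod_cast hqpos
  -- `x` is positive
  have hx1 : 1 ≤ x := by
    by_contra hx0'
    have hx00 : x = 0 := by omega
    rw [hx00, Nat.cast_zero] at hx
    have hα : α = 0 := by
      rcases mul_eq_zero.1 hx.symm with h' | h'
      · exact h'
      · exact absurd h' hqpos'.ne'
    have hadj : ∀ u v, (Gr k p r n a1 a2 a3 a4).Adj u v → c u = c v := by
      intro u v huv
      by_contra hne
      have h5 := (h.2.2.2 u (c v)).1 hne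
      rw [hα, zero_mul] at h5
      have h6 : count (Gr k p r n a1 a2 a3 a4) c u (c v) = 0 := by exact_mod_cast h5
      unfold count at h6
      rw [Set.ncard_eq_zero (Set.toFinite _)] at h6
      have : v ∈ (∅ : Set (Vt k p r n a1 a2 a3 a4)) := by
        rw [← h6]
        exact ⟨huv, rfl⟩
      exact this
    have hconst : ∀ u v, c u = c v := by
      intro u v
      obtain ⟨w⟩ := hconn.preconnected u v
      induction w with
      | nil => rfl
      | cons h _ ih => exact (hadj _ _ h).trans ih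
    obtain ⟨w, hw⟩ := h.1 j0
    exact hj0 ((hconst _ _).trans hw)
  -- twins have equal colours
  have hR : ∀ a b : Fin r, c (i0, x0, .inl a) = c (i0, x0, .inl b) := by
    intro a b
    by_cases hab : a = b
    · rw [hab]
    · have hdeg : ∀ a : Fin r, deg (Gr k p r n a1 a2 a3 a4) (i0, x0, .inl a) = q * tR := by
        intro a
        apply cl_deg hk
        · have := countR_own (k := k) (p := p) (n := n) i0 x0 a
          have h' : count (Gr k p r n a1 a2 a3 a4) (cl k p r n a1 a2 a3 a4) (i0, x0, .inl a) i0 =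
            r * tR := by omega
          exact h'
        · intro j hj
          rw [← e1]
          exact countR_oth i0 j hj x0 a
      exact twins_same h hx hy htR (hdeg a) (hdeg b) (Or.inl ⟨rfl, rfl, fun e => hab e.2⟩)
        (fun w hw1 hw2 => twinR i0 x0 a b w hw1 hw2)
  have hP : ∀ (i : Fin k) (a b : Fin p), c (i, x0, .inr (.inl a)) = c (i, x0, .inr (.inl b)) := by
    intro i a b
    by_cases hab : a = b
    · rw [hab]
    · have hdeg : ∀ a : Fin p, deg (Gr k p r n a1 a2 a3 a4) (i, x0, .inr (.inl a)) = q * tP := by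
        intro a
        apply cl_deg hk
        · have := countP_own (k := k) (r := r) (n := n) i x0 a
          have h' : count (Gr k p r n a1 a2 a3 a4) (cl k p r n a1 a2 a3 a4)
            (i, x0, .inr (.inl a)) i = r * tP := by omega
          exact h'
        · intro j hj
          rw [← e3]
          exact countP_oth i j hj x0 a
      exact twins_same h hx hy htP (hdeg a) (hdeg b)
        (Or.inl ⟨rfl, ⟨rfl, rfl⟩, fun e => hab e.2⟩) (fun w hw1 hw2 => twinP i x0 a b w hw1 hw2)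
  -- the colours in the neighbourhood of `v0`
  set g : Fin k → Fin m := fun i => if i = i0 then c (i0, x0, .inl ⟨0, hr⟩)
    else c (i, x0, .inr (.inl ⟨0, hp⟩)) with hg
  have hN : ∀ w, (Gr k p r n a1 a2 a3 a4).Adj v0 w → ∃ i, g i = c w := by
    rintro ⟨j, y, a | a | a⟩ hw
    · obtain ⟨h5, h6⟩ := hw
      subst h5
      subst h6
      refine ⟨i0, ?_⟩
      rw [hg]
      dsimp only
      rw [if_pos rfl]
      exact hR _ _
    · obtain ⟨h5, h6⟩ := hw
      subst h6
      refine ⟨j, ?_⟩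
      rw [hg]
      dsimp only
      rw [if_neg h5.symm]
      exact hP _ _ _
    · exact hw.elim
  have hcol : ∀ j, c v0 ≠ j → ∃ i, g i = j := by
    intro j hj
    have h5 := (h.2.2.2 v0 j).1 hj
    rw [hdv, ← hx] at h5
    have h6 : count (Gr k p r n a1 a2 a3 a4) c v0 j = x := by exact_mod_cast h5
    have h7 : {w | (Gr k p r n a1 a2 a3 a4).Adj v0 w ∧ c w = j}.Nonempty := by
      rw [← Set.ncard_pos (Set.toFinite _)]
      unfold count at h6
      omega
    obtain ⟨w, hw1, hw2⟩ := h7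
    obtain ⟨i, hi⟩ := hN w hw1
    exact ⟨i, hi.trans hw2⟩
  -- the own colour does not occur around `v0`
  have hy0 : y = 0 := by
    by_contra hy0
    have h5 := (h.2.2.2 v0 (c v0)).2 rfl
    rw [hdv, ← hy] at h5
    have h6 : count (Gr k p r n a1 a2 a3 a4) c v0 (c v0) = y := by exact_mod_cast h5
    have h7 : {w | (Gr k p r n a1 a2 a3 a4).Adj v0 w ∧ c w = c v0}.Nonempty := by
      rw [← Set.ncard_pos (Set.toFinite _)]
      unfold count at h6
      omega
    obtain ⟨w, hw1, hw2⟩ := h7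
    obtain ⟨i, hi⟩ := hN w hw1
    have hsurj : Function.Surjective g := by
      intro j
      by_cases hj : c v0 = j
      · exact ⟨i, by rw [hi, hw2, hj]⟩
      · exact hcol j hj
    have := Fintype.card_le_of_surjective g hsurj
    rw [Fintype.card_fin, Fintype.card_fin] at this
    omega
  -- so the colouring is proper
  have hβ : (1 - ((m : ℝ) - 1) * α) = 0 := by
    rw [hy0, Nat.cast_zero] at hy
    rcases mul_eq_zero.1 hy.symm with h' | h'
    · exact h'
    · exact absurd h' hqpos'.ne'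
  have hproper : ∀ u v, (Gr k p r n a1 a2 a3 a4).Adj u v → c u ≠ c v := by
    intro u v huv he
    have h5 := (h.2.2.2 u (c u)).2 rfl
    rw [hβ, zero_mul] at h5
    have h6 : count (Gr k p r n a1 a2 a3 a4) c u (c u) = 0 := by exact_mod_cast h5
    unfold count at h6
    rw [Set.ncard_eq_zero (Set.toFinite _)] at h6
    have : v ∈ (∅ : Set (Vt k p r n a1 a2 a3 a4)) := by
      rw [← h6]
      exact ⟨huv, he.symm⟩
    exact this
  -- a large clique
  have hinj : Function.Injective (fun z : Fin a1 =>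
      c (i0, (z, x0.2), (Sum.inl ⟨0, hr⟩ : Fin r ⊕ Fin p ⊕ Fin n))) := by
    intro z z' hz
    by_contra hne
    have hadj : (Gr k p r n a1 a2 a3 a4).Adj
        (i0, (z, x0.2), (Sum.inl ⟨0, hr⟩ : Fin r ⊕ Fin p ⊕ Fin n))
        (i0, (z', x0.2), (Sum.inl ⟨0, hr⟩ : Fin r ⊕ Fin p ⊕ Fin n)) :=
      Or.inl ⟨rfl, rfl, fun e => hne (congrArg Prod.fst e.1)⟩
    exact hproper _ _ hadj hz
  have h8 := Fintype.card_le_of_injective _ hinj
  rw [Fintype.card_fin, Fintype.card_fin] at h8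
  -- and few colours
  have hsurj : Function.Surjective (fun o : Option (Fin k) => match o with
      | none => c v0
      | some i => g i) := by
    intro j
    by_cases hj : c v0 = j
    · exact ⟨none, hj⟩
    · obtain ⟨i, hi⟩ := hcol j hj
      exact ⟨some i, hi⟩
  have h9 := Fintype.card_le_of_surjective _ hsurj
  rw [Fintype.card_option, Fintype.card_fin, Fintype.card_fin] at h9
  omega

/-! ### The choice of the parameters -/

theorem exists_params (hk : 2 ≤ k) (hp : 1 ≤ p) (hr : 1 ≤ r) (hpr : Nat.Coprime p r) :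
    ∃ n a1 a2 a3 a4 tR tP : ℕ, 1 ≤ n ∧ k + 2 ≤ a1 ∧ 1 ≤ a2 ∧ 1 ≤ a3 ∧ 1 ≤ a4 ∧
      a3 * r = p * tR ∧ a1 * r + n = r * tR + 1 ∧ a4 * p + n = p * tP ∧ a2 * p = r * tP + 1 ∧
      2 ≤ tR ∧ 2 ≤ tP := by
  obtain ⟨A, B, hAB⟩ : ∃ A B : ℕ, p * A = 1 + r * B := by
    have hc : IsCoprime (p : ℤ) (r : ℤ) := Nat.isCoprime_iff_coprime.2 hpr
    obtain ⟨u, v, huv⟩ := hc
    have hA : 0 ≤ u + (|u| + |v|) * r := by
      have h1 : (1 : ℤ) ≤ r := by exact_mod_cast hr
      have h2 := neg_abs_le u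
      have h3 := abs_nonneg v
      have h4 := abs_nonneg u
      nlinarith
    have hB : 0 ≤ (|u| + |v|) * p - v := by
      have h1 : (1 : ℤ) ≤ p := by exact_mod_cast hp
      have h2 := le_abs_self v
      have h3 := abs_nonneg v
      have h4 := abs_nonneg u
      nlinarith
    refine ⟨(u + (|u| + |v|) * r).toNat, ((|u| + |v|) * p - v).toNat, ?_⟩
    have : ((p * (u + (|u| + |v|) * r).toNat : ℕ) : ℤ) =
        ((1 + r * ((|u| + |v|) * p - v).toNat : ℕ) : ℤ) := by
      push_cast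
      rw [Int.toNat_of_nonneg hA, Int.toNat_of_nonneg hB]
      linear_combination huv
    exact_mod_cast this
  have hs : k + 2 + B ≤ r * (k + 2 + B) := Nat.le_mul_of_pos_left _ hr
  have hA1 : 1 ≤ A := by
    rcases Nat.eq_zero_or_pos A with h | h
    · rw [h, mul_zero] at hAB; omega
    · exact h
  have hj : A + 2 ≤ p * (A + 2) := Nat.le_mul_of_pos_left _ hp
  have h5 : k + 2 + B ≤ p * (k + 2 + B) := Nat.le_mul_of_pos_left _ hp
  refine ⟨p * A, r * (k + 2 + B) - B, A + r * (A + 2), p * (k + 2 + B), B + p * (A + 2) - A,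
    r * (k + 2 + B), B + p * (A + 2), ?_, ?_, ?_, ?_, ?_, ?_, ?_, ?_, ?_, ?_, ?_⟩
  · omega
  · omega
  · omega
  · omega
  · omega
  · ring
  · obtain ⟨z, hz⟩ : ∃ z, r * (k + 2 + B) = z + B := ⟨r * (k + 2 + B) - B, by omega⟩
    rw [hz, Nat.add_sub_cancel, hAB]
    ring
  · obtain ⟨z, hz⟩ : ∃ z, B + p * (A + 2) = z + A := ⟨B + p * (A + 2) - A, by omega⟩
    rw [hz, Nat.add_sub_cancel]
    ring
  · have : (A + r * (A + 2)) * p = p * A + r * (p * (A + 2)) := by ring
    rw [this, hAB]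
    ring
  · omega
  · omega

end

end Q128.Fat
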