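import Mathlib

/-!
# The marking game on powers of partial `k`-trees: definitions
-/

namespace Pool.Agent.Q128.Game

universe u

/-- The back-degree of `v` when it is marked after the vertices of `S`. -/
noncomputable def back {V : Type u} (H : SimpleGraph V) (S : Set V) (v : V) : ℕ :=
  {w | H.Adj v w ∧ w ∈ S}.ncard

/-- Alice can force score at most `s` in the marking game on `H` from the position in which the
vertices of `S` are marked; the Boolean is `true` if Alice is to move. -/
inductive Win {V : Type u} (H : SimpleGraph V) (s : ℕ) : Bool → Set V → Prop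
  | done (b : Bool) : Win H s b Set.univ
  | alice (S : Set V) (v : V) : v ∉ S → 1 + back H S v ≤ s → Win H s false (insert v S) →
      Win H s true S
  | bob (S : Set V) : (∀ v, v ∉ S → 1 + back H S v ≤ s) →
      (∀ v, v ∉ S → Win H s true (insert v S)) → Win H s false S

/-- The game colouring number of `H`. -/
noncomputable def gcol {V : Type u} (H : SimpleGraph V) : ℕ :=
  sInf {s : ℕ | Win H s true ∅}

/-- The `m`-th power of `G`: distinct vertices joined by a walk with at most `m` edges are
adjacent. -/
def pw {V : Type u} (G : SimpleGraph V) (m : ℕ) : SimpleGraph V where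
  Adj x y := x ≠ y ∧ ∃ p : G.Walk x y, p.length ≤ m
  symm := ⟨fun _ _ h => ⟨h.1.symm, h.2.elim fun p hp => ⟨p.reverse, by simpa using hp⟩⟩⟩
  loopless := ⟨fun _ h => h.1 rfl⟩

/-- `T` is a `k`-tree: it has at least `k` vertices and can be built by adding the vertices one
after the other (in the order of their numbers `ord`), the first `k` vertices forming a clique and
every further vertex being joined to exactly `k` earlier vertices, which form a clique. -/
def IsKTree {W : Type u} (k : ℕ) (T : SimpleGraph W) : Prop :=
  k ≤ Nat.card W ∧ ∃ ord : W → ℕ, Function.Injective ord ∧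
    ∀ v, T.IsClique {u | T.Adj v u ∧ ord u < ord v} ∧
      {u | T.Adj v u ∧ ord u < ord v}.ncard = min k {u | ord u < ord v}.ncard

/-- `G` is a partial `k`-tree: a subgraph of a finite `k`-tree. -/
def IsPartialKTree {V : Type} (k : ℕ) (G : SimpleGraph V) : Prop :=
  ∃ (W : Type) (_ : Finite W) (T : SimpleGraph W) (f : V → W), IsKTree k T ∧
    Function.Injective f ∧ ∀ x y, G.Adj x y → T.Adj (f x) (f y)

/-- The class `𝒯_k(Δ)` of finite partial `k`-trees of maximum degree at most `Δ`. -/
def InClass {V : Type} (k Δ : ℕ) (G : SimpleGraph V) : Prop :=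
  Finite V ∧ IsPartialKTree k G ∧ ∀ v, (G.neighborSet v).ncard ≤ Δ

/-- `f_{k,m}(Δ)`: the supremum of the game colouring numbers of the `m`-th powers of the graphs
in `𝒯_k(Δ)`. -/
noncomputable def fkm (k m Δ : ℕ) : ℕ∞ :=
  ⨆ (V : Type) (G : SimpleGraph V) (_ : InClass k Δ G), (gcol (pw G m) : ℕ∞)

end Pool.Agent.Q128.Game
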