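import Pool.Agent.Q128.GameStrategy

/-!
# Weak reachability in partial `k`-trees, and the lower bound
-/

namespace Pool.Agent.Q128.Game

universe u

/-- Vertices reached by at most `i` steps to earlier neighbours. -/
def Dn {W : Type u} (T : SimpleGraph W) (ord : W → ℕ) : ℕ → W → Set W
  | 0, v => {v}
  | i + 1, v => ⋃ u ∈ insert v {u | T.Adj v u ∧ ord u < ord v}, Dn T ord i u

theorem dn_stay {W : Type u} {T : SimpleGraph W} {ord : W → ℕ} {i : ℕ} {v z : W}
    (h : z ∈ Dn T ord i v) : z ∈ Dn T ord (i + 1) v := by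
  rw [Dn]
  simp only [Set.mem_iUnion]
  exact ⟨v, Set.mem_insert _ _, h⟩

theorem dn_step {W : Type u} {T : SimpleGraph W} {ord : W → ℕ} {i : ℕ} {v u z : W}
    (hvu : T.Adj v u) (hlt : ord u < ord v) (h : z ∈ Dn T ord i u) :
    z ∈ Dn T ord (i + 1) v := by
  rw [Dn]
  simp only [Set.mem_iUnion]
  exact ⟨u, Set.mem_insert_of_mem _ ⟨hvu, hlt⟩, h⟩

theorem dn_adj {W : Type u} {T : SimpleGraph W} {ord : W → ℕ} (hinj : Function.Injective ord)
    (hcl : ∀ v, T.IsClique {u | T.Adj v u ∧ ord u < ord v}) (z : W) :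
    ∀ (L : ℕ) (u v : W), T.Adj v u → ord z ≤ ord v → z ∈ Dn T ord L u →
      z ∈ Dn T ord (L + 1) v := by
  intro L
  induction L with
  | zero =>
    intro u v hvu hz h
    have hzu : z = u := h
    subst hzu
    have hne : ord z ≠ ord v := fun h => hvu.ne (hinj h).symm
    exact dn_step hvu (lt_of_le_of_ne hz hne) rfl
  | succ L ih =>
    intro u v hvu hz h
    rcases lt_trichotomy (ord u) (ord v) with hlt | heq | hgt
    · exact dn_step hvu hlt h
    · exact absurd (hinj heq).symm hvu.ne
    · rw [Dn] at h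
      simp only [Set.mem_iUnion] at h
      obtain ⟨u₁, hu₁, h⟩ := h
      rcases Set.mem_insert_iff.1 hu₁ with rfl | ⟨h1, h2⟩
      · exact dn_stay (ih u₁ v hvu hz h)
      · by_cases he : v = u₁
        · subst he
          exact dn_stay (dn_stay h)
        · exact dn_stay (ih u₁ v (hcl u ⟨hvu.symm, hgt⟩ ⟨h1, h2⟩ he) hz h)

theorem dn_of_walk {W : Type u} {T : SimpleGraph W} {ord : W → ℕ} (hinj : Function.Injective ord)
    (hcl : ∀ v, T.IsClique {u | T.Adj v u ∧ ord u < ord v}) {v z : W} (p : T.Walk v z) :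
    ∀ L, p.length ≤ L → (∀ x ∈ p.support, ord z ≤ ord x) → z ∈ Dn T ord L v := by
  induction p with
  | nil =>
    intro L _ _
    induction L with
    | zero => exact rfl
    | succ L ih => exact dn_stay (ih (Nat.zero_le _))
  | @cons a b c hab p ih =>
    intro L hL hs
    rw [SimpleGraph.Walk.length_cons] at hL
    obtain ⟨L, rfl⟩ : ∃ L', L = L' + 1 := ⟨L - 1, by omega⟩
    refine dn_adj hinj hcl c L b a hab (hs a (by simp)) (ih L (by omega) ?_)
    intro x hx
    exact hs x (by simp [hx])

theorem ncard_bUnion_le' {W : Type u} [Finite W] {Z : Set W} {F : W → Set W} {k : ℕ}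
    (h : ∀ z ∈ Z, (F z).ncard ≤ k) : (⋃ z ∈ Z, F z).ncard ≤ Z.ncard * k := by
  classical
  have := Fintype.ofFinite W
  have e : (⋃ z ∈ Z, F z) = ((Z.toFinset.biUnion fun z => (F z).toFinset : Finset W) : Set W) := by
    ext x
    simp
  rw [e, Set.ncard_coe_finset, Set.ncard_eq_toFinset_card']
  refine Finset.card_biUnion_le_card_mul _ _ _ ?_
  intro z hz
  rw [← Set.ncard_eq_toFinset_card']
  exact h z (Set.mem_toFinset.1 hz)

theorem dn_card {W : Type u} [Finite W] {T : SimpleGraph W} {ord : W → ℕ} {k : ℕ}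
    (hk : ∀ v, {u | T.Adj v u ∧ ord u < ord v}.ncard ≤ k) (i : ℕ) (v : W) :
    (Dn T ord i v).ncard ≤ (k + 1) ^ i := by
  induction i generalizing v with
  | zero => simp [Dn]
  | succ i ih =>
    rw [Dn]
    refine (ncard_bUnion_le' fun u _ => ih u).trans ?_
    rw [pow_succ, mul_comm]
    refine Nat.mul_le_mul_left _ ((Set.ncard_insert_le _ _).trans ?_)
    exact Nat.add_le_add_right (hk v) 1

/-- In a partial `k`-tree some numbering of the vertices has small weakly reachable sets. -/
theorem wr_ktree {V : Type} {k : ℕ} {G : SimpleGraph V} (h : IsPartialKTree k G) :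
    ∃ ord : V → ℕ, ∀ r v, {z | WR G ord r z v}.ncard ≤ (k + 1) ^ r := by
  obtain ⟨W, _, T, f, ⟨-, ord, hinj, hT⟩, hf, hadj⟩ := h
  refine ⟨fun v => ord (f v), fun r v => ?_⟩
  have h1 : f '' {z | WR G (fun v => ord (f v)) r z v} ⊆ Dn T ord r (f v) := by
    rintro _ ⟨z, ⟨p, hp, hp'⟩, rfl⟩
    let F : G →g T := ⟨f, fun {a b} hab => hadj a b hab⟩
    refine dn_of_walk hinj (fun v => (hT v).1) (p.map F) r (by simpa using hp) ?_
    intro x hx
    rw [SimpleGraph.Walk.support_map, List.mem_map] at hx
    obtain ⟨y, hy, rfl⟩ := hx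
    exact hp' y hy
  rw [← Set.ncard_image_of_injective _ hf]
  refine (Set.ncard_le_ncard h1).trans (dn_card (fun v => ?_) r (f v))
  rw [(hT v).2]
  exact min_le_left _ _

/-- Balls in a graph of bounded degree. -/
def Bl {V : Type} (G : SimpleGraph V) : ℕ → V → Set V
  | 0, v => {v}
  | i + 1, v => ⋃ u ∈ insert v (G.neighborSet v), Bl G i u

theorem bl_stay {V : Type} {G : SimpleGraph V} {i : ℕ} {v z : V} (h : z ∈ Bl G i v) :
    z ∈ Bl G (i + 1) v := by
  rw [Bl]
  simp only [Set.mem_iUnion]
  exact ⟨v, Set.mem_insert _ _, h⟩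

theorem bl_of_walk {V : Type} {G : SimpleGraph V} {v z : V} (p : G.Walk v z) :
    ∀ L, p.length ≤ L → z ∈ Bl G L v := by
  induction p with
  | nil =>
    intro L _
    induction L with
    | zero => exact rfl
    | succ L ih => exact bl_stay (ih (Nat.zero_le _))
  | @cons a b c hab p ih =>
    intro L hL
    rw [SimpleGraph.Walk.length_cons] at hL
    obtain ⟨L, rfl⟩ : ∃ L', L = L' + 1 := ⟨L - 1, by omega⟩
    rw [Bl]
    simp only [Set.mem_iUnion]
    exact ⟨b, Set.mem_insert_of_mem _ hab, ih L (by omega)⟩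

theorem bl_card {V : Type} [Finite V] {G : SimpleGraph V} {Δ : ℕ}
    (hΔ : ∀ v, (G.neighborSet v).ncard ≤ Δ) (i : ℕ) (v : V) : (Bl G i v).ncard ≤ (Δ + 1) ^ i := by
  induction i generalizing v with
  | zero => simp [Bl]
  | succ i ih =>
    rw [Bl]
    refine (ncard_bUnion_le' fun u _ => ih u).trans ?_
    rw [pow_succ, mul_comm]
    refine Nat.mul_le_mul_left _ ((Set.ncard_insert_le _ _).trans ?_)
    exact Nat.add_le_add_right (hΔ v) 1

theorem ball_card {V : Type} [Finite V] {G : SimpleGraph V} {Δ : ℕ}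
    (hΔ : ∀ v, (G.neighborSet v).ncard ≤ Δ) (ord : V → ℕ) (r : ℕ) (z : V) :
    {x | WR G ord r z x}.ncard ≤ (Δ + 1) ^ r := by
  refine (Set.ncard_le_ncard ?_).trans (bl_card hΔ r z)
  rintro x ⟨p, hp, -⟩
  exact bl_of_walk p.reverse r (by simpa using hp)

/-- The explicit upper bound. -/
theorem upper {V : Type} [Finite V] {k m Δ : ℕ} {G : SimpleGraph V} (hk : IsPartialKTree k G)
    (hΔ : ∀ v, (G.neighborSet v).ncard ≤ Δ) :
    Win (pw G m) ((k + 1) ^ (2 * m) * (Δ + 1) ^ (m / 2) +
      (k + 1) ^ (2 * m) * ((k + 1) ^ (2 * m) * (Δ + 1) ^ (m / 2) * 2) + 2) true ∅ := by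
  obtain ⟨ord, hord⟩ := wr_ktree hk
  exact win_start (fun v => hord (2 * m) v) (fun z => ball_card hΔ ord (m / 2) z) le_rfl

/-- On a complete graph the score is the number of vertices. -/
theorem complete_win {V : Type} [Finite V] {H : SimpleGraph V} (hH : ∀ x y, x ≠ y → H.Adj x y)
    {s : ℕ} {b : Bool} {S : Set V} (h : Win H s b S) : S ≠ Set.univ → Nat.card V ≤ s := by
  have key : ∀ (S : Set V) (v : V), v ∉ S → insert v S = Set.univ → 1 + back H S v ≤ s →
      Nat.card V ≤ s := by
    intro S v hv huniv hs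
    have h1 : {w | H.Adj v w ∧ w ∈ S} = S := by
      ext w
      constructor
      · exact fun h => h.2
      · intro hw
        exact ⟨hH v w (fun h => hv (h ▸ hw)), hw⟩
    unfold back at hs
    rw [h1] at hs
    have h2 := Set.ncard_insert_of_notMem hv
    rw [huniv, Set.ncard_univ] at h2
    omega
  induction h with
  | done b => exact fun h => absurd rfl h
  | alice S v hv hs _ ih =>
    intro _
    by_cases h : insert v S = Set.univ
    · exact key S v hv h hs
    · exact ih h
  | bob S hs _ ih =>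
    intro hS
    obtain ⟨v, hv⟩ := (Set.ne_univ_iff_exists_notMem S).1 hS
    by_cases h : insert v S = Set.univ
    · exact key S v hv h (hs v hv)
    · exact ih v hv h

/-- The words of length at most `r` over `d` letters. -/
abbrev Wd (d r : ℕ) := {l : List (Fin d) // l.length ≤ r}

/-- The tree on the words. -/
def wtree (d r : ℕ) : SimpleGraph (Wd d r) where
  Adj l l' := (∃ a, l'.1 = a :: l.1) ∨ ∃ a, l.1 = a :: l'.1
  symm := ⟨fun _ _ h => h.symm⟩
  loopless := ⟨fun l h => by
    rcases h with ⟨a, h⟩ | ⟨a, h⟩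
    · have := congrArg List.length h
      simp at this
    · have := congrArg List.length h
      simp at this⟩

instance (d r : ℕ) : Finite (Wd d r) := (List.finite_length_le (Fin d) r).to_subtype

theorem wd_card (d r : ℕ) : d ^ r ≤ Nat.card (Wd d r) := by
  have h := Nat.card_le_card_of_injective
    (fun g : Fin r → Fin d => (⟨List.ofFn g, by simp⟩ : Wd d r)) (by
      intro g g' h
      have := congrArg Subtype.val h
      exact List.ofFn_injective this)
  simpa using h

theorem wd_walk (d r : ℕ) : ∀ (n : ℕ) (l : Wd d r), l.1.length = n →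
    ∃ p : (wtree d r).Walk l ⟨[], by simp⟩, p.length = n := by
  intro n
  induction n with
  | zero =>
    rintro ⟨l, hl⟩ hn
    have : l = [] := List.length_eq_zero_iff.1 hn
    subst this
    exact ⟨SimpleGraph.Walk.nil, rfl⟩
  | succ n ih =>
    rintro ⟨l, hl⟩ hn
    cases l with
    | nil => simp at hn
    | cons a l =>
      obtain ⟨p, hp⟩ := ih ⟨l, by simp at hl; omega⟩ (by simpa using hn)
      exact ⟨SimpleGraph.Walk.cons (Or.inr ⟨a, rfl⟩) p, by
        rw [SimpleGraph.Walk.length_cons, hp]⟩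

theorem wd_complete (d m : ℕ) (x y : Wd d (m / 2)) (h : x ≠ y) : (pw (wtree d (m / 2)) m).Adj x y := by
  obtain ⟨p, hp⟩ := wd_walk d (m / 2) _ x rfl
  obtain ⟨q, hq⟩ := wd_walk d (m / 2) _ y rfl
  refine ⟨h, p.append q.reverse, ?_⟩
  rw [SimpleGraph.Walk.length_append, SimpleGraph.Walk.length_reverse, hp, hq]
  have := x.2
  have := y.2
  omega

theorem wd_degree (d r : ℕ) (l : Wd d r) : ((wtree d r).neighborSet l).ncard ≤ d + 1 := by
  classical
  have hsub : (Subtype.val '' (wtree d r).neighborSet l) ⊆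
      insert l.1.tail (Set.range fun a : Fin d => a :: l.1) := by
    rintro _ ⟨l', h, rfl⟩
    rcases h with ⟨a, h⟩ | ⟨a, h⟩
    · exact Set.mem_insert_of_mem _ ⟨a, h.symm⟩
    · left
      rw [h]
      rfl
  rw [← Set.ncard_image_of_injective _ Subtype.val_injective]
  refine (Set.ncard_le_ncard hsub ((Set.finite_range _).insert _)).trans ?_
  refine (Set.ncard_insert_le _ _).trans (Nat.add_le_add_right ?_ 1)
  rw [← Set.image_univ]
  refine (Set.ncard_image_le Set.finite_univ).trans ?_
  simp

/-- The tree, joined to `k - 1` further vertices which form a clique. -/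
def cone (j : ℕ) {V : Type} (G : SimpleGraph V) : SimpleGraph (Fin j ⊕ V) where
  Adj x y := match x, y with
    | Sum.inl a, Sum.inl b => a ≠ b
    | Sum.inl _, Sum.inr _ => True
    | Sum.inr _, Sum.inl _ => True
    | Sum.inr v, Sum.inr w => G.Adj v w
  symm := ⟨fun x y h => by
    rcases x with x | x <;> rcases y with y | y
    · exact fun h' => h h'.symm
    · trivial
    · trivial
    · exact G.symm.symm _ _ h⟩
  loopless := ⟨fun x h => by
    rcases x with x | x
    · exact h rfl
    · exact G.loopless.irrefl _ h⟩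

/-- The numbering of the vertices of the cone. -/
def wo (j d r : ℕ) : Fin j ⊕ Wd d r → ℕ
  | Sum.inl i => i
  | Sum.inr l => j + Encodable.encode l.1

theorem wo_inl {j d r : ℕ} (i : Fin j) : wo j d r (Sum.inl i) = i := rfl

theorem wo_inr {j d r : ℕ} (l : Wd d r) : wo j d r (Sum.inr l) = j + Encodable.encode l.1 := rfl

theorem wd_ktree (k d r : ℕ) (hk : 1 ≤ k) : IsKTree k (cone (k - 1) (wtree d r)) := by
  classical
  refine ⟨?_, wo (k - 1) d r, ?_, ?_⟩
  · rw [Nat.card_sum, Nat.card_fin]
    have : 0 < Nat.card (Wd d r) := Nat.card_pos_iff.2 ⟨⟨⟨[], by simp⟩⟩, inferInstance⟩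
    omega
  · rintro (x | x) (y | y) h
    · rw [wo_inl, wo_inl] at h
      rw [Fin.ext h]
    · rw [wo_inl, wo_inr] at h
      have := x.2
      omega
    · rw [wo_inl, wo_inr] at h
      have := y.2
      omega
    · rw [wo_inr, wo_inr, Nat.add_left_cancel_iff] at h
      rw [Subtype.ext (Encodable.encode_injective h)]
  · have hinl : (Set.range (Sum.inl : Fin (k - 1) → Fin (k - 1) ⊕ Wd d r)).ncard = k - 1 := by
      rw [← Set.image_univ, Set.ncard_image_of_injective _ Sum.inl_injective, Set.ncard_univ,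
        Nat.card_fin]
    rintro (i | ⟨l, hl⟩)
    · have e : {u | (cone (k - 1) (wtree d r)).Adj (Sum.inl i) u ∧
          wo (k - 1) d r u < wo (k - 1) d r (Sum.inl i)} =
          {u | wo (k - 1) d r u < wo (k - 1) d r (Sum.inl i)} := by
        ext u
        simp only [Set.mem_ofPred_eq, and_iff_right_iff_imp]
        intro hu
        rcases u with u | u
        · intro h
          rw [h] at hu
          exact lt_irrefl _ hu
        · trivial
      have hsub : {u | wo (k - 1) d r u < wo (k - 1) d r (Sum.inl i)} ⊆ Set.range Sum.inl := by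
        rintro (u | u) hu
        · exact ⟨u, rfl⟩
        · exfalso
          rw [Set.mem_ofPred_eq, wo_inr, wo_inl] at hu
          have := i.2
          omega
      rw [e]
      refine ⟨?_, ?_⟩
      · intro x hx y hy hxy
        obtain ⟨x, rfl⟩ := hsub hx
        obtain ⟨y, rfl⟩ := hsub hy
        exact fun h => hxy (by rw [h])
      · rw [min_eq_right]
        refine (Set.ncard_le_ncard hsub).trans ?_
        rw [hinl]
        omega
    · cases l with
      | nil =>
        have e : {u | (cone (k - 1) (wtree d r)).Adj (Sum.inr ⟨[], hl⟩) u ∧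
            wo (k - 1) d r u < wo (k - 1) d r (Sum.inr ⟨[], hl⟩)} = Set.range Sum.inl := by
          ext u
          rcases u with u | u
          · simp only [Set.mem_ofPred_eq, wo_inl, wo_inr, Set.mem_range,
              Sum.inl.injEq, exists_eq, iff_true]
            exact ⟨trivial, by have := u.2; omega⟩
          · simp only [Set.mem_ofPred_eq, wo_inr, Set.mem_range, reduceCtorEq,
              exists_false, iff_false, not_and, Encodable.encode_list_nil]
            intro _
            omega
        have e2 : {u | wo (k - 1) d r u < wo (k - 1) d r (Sum.inr ⟨[], hl⟩)} =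
            Set.range Sum.inl := by
          ext u
          rcases u with u | u
          · simp only [Set.mem_ofPred_eq, wo_inl, wo_inr, Set.mem_range,
              Sum.inl.injEq, exists_eq, iff_true]
            have := u.2
            omega
          · simp only [Set.mem_ofPred_eq, wo_inr, Set.mem_range, reduceCtorEq,
              exists_false, iff_false, Encodable.encode_list_nil]
            omega
        rw [e, e2]
        refine ⟨?_, ?_⟩
        · rintro _ ⟨x, rfl⟩ _ ⟨y, rfl⟩ hxy
          exact fun h => hxy (by rw [h])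
        · rw [min_eq_right]
          rw [hinl]
          omega
      | cons a l =>
        have hl' : l.length ≤ r := by
          simp at hl
          omega
        have henc : Encodable.encode l < Encodable.encode (a :: l) := by
          rw [Encodable.encode_list_cons]
          exact Nat.lt_succ_of_le (Nat.right_le_pair _ _)
        have e : {u | (cone (k - 1) (wtree d r)).Adj (Sum.inr ⟨a :: l, hl⟩) u ∧
            wo (k - 1) d r u < wo (k - 1) d r (Sum.inr ⟨a :: l, hl⟩)} =
            insert (Sum.inr ⟨l, hl'⟩) (Set.range Sum.inl) := by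
          ext u
          rcases u with u | ⟨u, hu⟩
          · simp only [Set.mem_ofPred_eq, wo_inl, wo_inr, Set.mem_insert_iff,
              reduceCtorEq, Set.mem_range, Sum.inl.injEq, exists_eq, or_true, iff_true]
            exact ⟨trivial, by have := u.2; omega⟩
          · simp only [Set.mem_ofPred_eq, wo_inr, Set.mem_insert_iff, Sum.inr.injEq,
              Subtype.mk.injEq, Set.mem_range, reduceCtorEq, exists_false, or_false]
            constructor
            · rintro ⟨h1, h2⟩
              rcases h1 with ⟨b, h1⟩ | ⟨b, h1⟩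
              · exfalso
                simp only at h1
                have h3 : Encodable.encode (a :: l) < Encodable.encode u := by
                  rw [h1, Encodable.encode_list_cons b]
                  exact Nat.lt_succ_of_le (Nat.right_le_pair _ _)
                omega
              · simp only [List.cons.injEq] at h1
                exact h1.2.symm
            · rintro rfl
              exact ⟨Or.inr ⟨a, rfl⟩, by omega⟩
        have hcard : (insert (Sum.inr ⟨l, hl'⟩) (Set.range Sum.inl) :
            Set (Fin (k - 1) ⊕ Wd d r)).ncard = k := by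
          rw [Set.ncard_insert_of_notMem (by simp), hinl]
          omega
        refine ⟨?_, ?_⟩
        · rw [e]
          rintro x hx y hy hxy
          rcases Set.mem_insert_iff.1 hx with rfl | ⟨x, rfl⟩
          · rcases Set.mem_insert_iff.1 hy with rfl | ⟨y, rfl⟩
            · exact absurd rfl hxy
            · trivial
          · rcases Set.mem_insert_iff.1 hy with rfl | ⟨y, rfl⟩
            · trivial
            · exact fun h => hxy (by rw [h])
        · have hle : {u | (cone (k - 1) (wtree d r)).Adj (Sum.inr ⟨a :: l, hl⟩) u ∧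
              wo (k - 1) d r u < wo (k - 1) d r (Sum.inr ⟨a :: l, hl⟩)}.ncard ≤
              {u | wo (k - 1) d r u < wo (k - 1) d r (Sum.inr ⟨a :: l, hl⟩)}.ncard :=
            Set.ncard_le_ncard (fun u hu => hu.2) (Set.toFinite _)
          rw [e, hcard] at hle
          rw [e, hcard, min_eq_left hle]

theorem wd_partial (k d r : ℕ) (hk : 1 ≤ k) : IsPartialKTree k (wtree d r) :=
  ⟨_, inferInstance, cone (k - 1) (wtree d r), Sum.inr, wd_ktree k d r hk, Sum.inr_injective,
    fun _ _ h => h⟩

/-- **The order of growth.** -/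
theorem growth (k m : ℕ) (hk : 1 ≤ k) : ∃ C : ℕ, 0 < C ∧ ∀ Δ : ℕ, 1 ≤ Δ →
    fkm k m Δ ≤ ((C * Δ ^ (m / 2) : ℕ) : ℕ∞) ∧
      ((Δ ^ (m / 2) : ℕ) : ℕ∞) ≤ (C : ℕ∞) * fkm k m Δ := by
  refine ⟨((k + 1) ^ (2 * m) + (k + 1) ^ (2 * m) * ((k + 1) ^ (2 * m) * 2) + 2) * 2 ^ (m / 2),
    by positivity, fun Δ hΔ => ⟨?_, ?_⟩⟩
  · refine iSup_le fun V => iSup_le fun G => iSup_le fun hG => ?_
    obtain ⟨_, hG1, hG2⟩ := hG
    have h1 := upper (m := m) hG1 hG2
    have h2 : gcol (pw G m) ≤ _ := Nat.sInf_le (show _ ∈ {s : ℕ | Win (pw G m) s true ∅} from h1)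
    have h3 : (Δ + 1) ^ (m / 2) ≤ 2 ^ (m / 2) * Δ ^ (m / 2) := by
      rw [← mul_pow]
      exact Nat.pow_le_pow_left (by omega) _
    have h4 : 1 ≤ (2 ^ (m / 2) * Δ ^ (m / 2)) := Nat.one_le_iff_ne_zero.2 (by positivity)
    have h5 : gcol (pw G m) ≤ ((k + 1) ^ (2 * m) + (k + 1) ^ (2 * m) * ((k + 1) ^ (2 * m) * 2) + 2) *
        2 ^ (m / 2) * Δ ^ (m / 2) := by
      refine h2.trans ?_
      generalize (k + 1) ^ (2 * m) = c at *
      calc c * (Δ + 1) ^ (m / 2) + c * (c * (Δ + 1) ^ (m / 2) * 2) + 2
          ≤ c * (2 ^ (m / 2) * Δ ^ (m / 2)) + c * (c * (2 ^ (m / 2) * Δ ^ (m / 2)) * 2) +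
            2 * (2 ^ (m / 2) * Δ ^ (m / 2)) := by gcongr; omega
        _ = (c + c * (c * 2) + 2) * 2 ^ (m / 2) * Δ ^ (m / 2) := by ring
    exact_mod_cast h5
  · have hcl : InClass k Δ (wtree (Δ - 1) (m / 2)) :=
      ⟨inferInstance, wd_partial k _ _ hk, fun v => (wd_degree _ _ v).trans (by omega)⟩
    have h1 : (gcol (pw (wtree (Δ - 1) (m / 2)) m) : ℕ∞) ≤ fkm k m Δ :=
      le_iSup_of_le (Wd (Δ - 1) (m / 2)) (le_iSup_of_le (wtree (Δ - 1) (m / 2))
        (le_iSup_of_le hcl le_rfl))
    have hwin : Win (pw (wtree (Δ - 1) (m / 2)) m) (gcol (pw (wtree (Δ - 1) (m / 2)) m)) true ∅ :=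
      Nat.sInf_mem (s := {s : ℕ | Win (pw (wtree (Δ - 1) (m / 2)) m) s true ∅})
        ⟨_, upper (m := m) hcl.2.1 hcl.2.2⟩
    have hne : (∅ : Set (Wd (Δ - 1) (m / 2))) ≠ Set.univ := by
      intro h
      have : (⟨[], by simp⟩ : Wd (Δ - 1) (m / 2)) ∈ (∅ : Set _) := h ▸ Set.mem_univ _
      exact this
    have h2 := complete_win (fun x y h => wd_complete (Δ - 1) m x y h) hwin hne
    have hpos : 1 ≤ Nat.card (Wd (Δ - 1) (m / 2)) :=
      Nat.card_pos_iff.2 ⟨⟨⟨[], by simp⟩⟩, inferInstance⟩
    have h3 : Δ ^ (m / 2) ≤ 2 ^ (m / 2) * Nat.card (Wd (Δ - 1) (m / 2)) := by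
      rcases Nat.lt_or_ge Δ 2 with hlt | hge
      · have : Δ = 1 := by omega
        subst this
        rw [one_pow]
        exact Nat.mul_pos (by positivity) hpos
      · refine le_trans ?_ (Nat.mul_le_mul_left _ (wd_card _ _))
        rw [← mul_pow]
        exact Nat.pow_le_pow_left (by omega) _
    have h4 : Δ ^ (m / 2) ≤ ((k + 1) ^ (2 * m) + (k + 1) ^ (2 * m) * ((k + 1) ^ (2 * m) * 2) + 2) *
        2 ^ (m / 2) * gcol (pw (wtree (Δ - 1) (m / 2)) m) := by
      refine h3.trans ?_
      rw [mul_assoc]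
      refine le_trans (Nat.mul_le_mul_left _ h2) (Nat.le_mul_of_pos_left _ (by positivity))
    refine le_trans ?_ (mul_le_mul_right h1 _)
    exact_mod_cast h4

end Pool.Agent.Q128.Game
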