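import Pool.Agent.Q128.GameDefs

/-!
# A strategy for Alice on powers of graphs with small weak colouring numbers
-/

namespace Pool.Agent.Q128.Game

variable {V : Type}

/-- `z` is weakly `r`-reachable from `v`. -/
def WR (G : SimpleGraph V) (ord : V → ℕ) (r : ℕ) (z v : V) : Prop :=
  ∃ p : G.Walk v z, p.length ≤ r ∧ ∀ x ∈ p.support, ord z ≤ ord x

/-- The centre `z` is unfinished. -/
def Unf (G : SimpleGraph V) (ord : V → ℕ) (r : ℕ) (S : Set V) (z : V) : Prop :=
  ∃ x, WR G ord r z x ∧ x ∉ S

/-- The invariant of the strategy. `S` is the set of marked, `A` the set of active vertices, the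
vertices of `A` outside `D` have been processed and `hit` is the vertex which was hit then. -/
structure Inv (G : SimpleGraph V) (ord : V → ℕ) (m : ℕ) (D A S : Set V) (hit : V → V) :
    Prop where
  sub : S ⊆ A
  one : ∀ y, y ∈ A → y ∉ D → ∀ z, WR G ord m z y → Unf G ord (m / 2) S z →
    ∃ z₁, WR G ord m z₁ y ∧ ord z₁ ≤ ord z ∧ WR G ord (m / 2) z₁ (hit y)
  two : ∀ x, {y | y ∈ A ∧ y ∉ D ∧ hit y = x}.ncard ≤ 2
  act : ∀ x, x ∉ S → {y | y ∈ A ∧ y ∉ D ∧ hit y = x}.ncard ≤ 1
  ina : ∀ x, x ∉ A → {y | y ∈ A ∧ y ∉ D ∧ hit y = x}.ncard ≤ 0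

theorem Unf.mono {G : SimpleGraph V} {ord : V → ℕ} {r : ℕ} {S S' : Set V} (h : S ⊆ S') {z : V}
    (hz : Unf G ord r S' z) : Unf G ord r S z := by
  obtain ⟨x, hx, hx'⟩ := hz
  exact ⟨x, hx, fun h' => hx' (h h')⟩

/-- Marking an active vertex keeps the invariant. -/
theorem Inv.mark {G : SimpleGraph V} {ord : V → ℕ} {m : ℕ} {D A S : Set V} {hit : V → V}
    (h : Inv G ord m D A S hit) {x : V} (hx : x ∈ A) : Inv G ord m D A (insert x S) hit where
  sub := Set.insert_subset hx h.sub
  one := fun y hy hyD z hz hu => h.one y hy hyD z hz (hu.mono (Set.subset_insert _ _))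
  two := h.two
  act := fun y hy => h.act y (fun h' => hy (Set.mem_insert_of_mem _ h'))
  ina := h.ina

/-- Activating a vertex, not yet processed. -/
theorem Inv.activate [Finite V] {G : SimpleGraph V} {ord : V → ℕ} {m : ℕ} {A S : Set V} {hit : V → V}
    (h : Inv G ord m ∅ A S hit) (x : V) : Inv G ord m {x} (insert x A) S hit := by
  have key : ∀ w, {y | y ∈ insert x A ∧ y ∉ ({x} : Set V) ∧ hit y = w} ⊆
      {y | y ∈ A ∧ y ∉ (∅ : Set V) ∧ hit y = w} := by
    rintro w y ⟨h1, h2, h3⟩
    rw [Set.mem_singleton_iff] at h2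
    rcases Set.mem_insert_iff.1 h1 with h4 | h4
    · exact absurd h4 h2
    · exact ⟨h4, fun h => h, h3⟩
  refine ⟨h.sub.trans (Set.subset_insert _ _), ?_, ?_, ?_, ?_⟩
  · intro y hy hyD z hz hu
    rw [Set.mem_singleton_iff] at hyD
    rcases Set.mem_insert_iff.1 hy with h4 | h4
    · exact absurd h4 hyD
    · exact h.one y h4 (fun h => h) z hz hu
  · intro w
    exact (Set.ncard_le_ncard (key w)).trans (h.two w)
  · intro w hw
    exact (Set.ncard_le_ncard (key w)).trans (h.act w hw)
  · intro w hw
    exact (Set.ncard_le_ncard (key w)).trans (h.ina w (fun h' => hw (Set.mem_insert_of_mem _ h')))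

/-- **Alice's response.** The active vertex `y` is not yet processed. -/
theorem step [Finite V] {G : SimpleGraph V} {ord : V → ℕ} {m : ℕ} {S : Set V} (hS : S ≠ Set.univ) :
    ∀ (n : ℕ) (A : Set V) (hit : V → V) (y : V), (Aᶜ).ncard = n → y ∈ A →
      Inv G ord m {y} A S hit →
      ∃ x, x ∉ S ∧ ∃ A' hit', x ∈ A' ∧ Inv G ord m ∅ A' (insert x S) hit' := by
  classical
  intro n
  induction n with
  | zero =>
    intro A hit y hn hy h
    rw [Set.ncard_eq_zero, Set.compl_empty_iff] at hn
    subst hn
    -- everything is active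
    obtain ⟨x, hxS, hx1⟩ : ∃ x, x ∉ S ∧ ∀ z, WR G ord m z y → Unf G ord (m / 2) S z →
        ∃ z₁, WR G ord m z₁ y ∧ ord z₁ ≤ ord z ∧ WR G ord (m / 2) z₁ x := by
      by_cases hu : ∃ z, WR G ord m z y ∧ Unf G ord (m / 2) S z
      · obtain ⟨z₁, ⟨h1, x, hx, hxS⟩, hmin⟩ := (Set.toFinite
          {z | WR G ord m z y ∧ Unf G ord (m / 2) S z}).exists_minimalFor ord _ hu
        refine ⟨x, hxS, fun z hz hz' => ⟨z₁, h1, ?_, hx⟩⟩
        by_contra hcon
        push Not at hcon
        have := hmin (j := z) ⟨hz, hz'⟩ hcon.le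
        omega
      · push Not at hu
        obtain ⟨x, hx⟩ := (Set.ne_univ_iff_exists_notMem S).1 hS
        exact ⟨x, hx, fun z hz hz' => absurd hz' (hu z hz)⟩
    have hsub : ∀ w, {y' | y' ∈ (Set.univ : Set V) ∧ y' ∉ (∅ : Set V) ∧
        Function.update hit y x y' = w} ⊆
        (if w = x then insert y else id)
          {y' | y' ∈ (Set.univ : Set V) ∧ y' ∉ ({y} : Set V) ∧ hit y' = w} := by
      rintro w y' ⟨h1, h2, h3⟩
      by_cases hy' : y' = y
      · subst hy'
        rw [Function.update_self] at h3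
        rw [if_pos h3.symm]
        exact Set.mem_insert _ _
      · rw [Function.update_of_ne hy'] at h3
        split_ifs
        · exact Set.mem_insert_of_mem _ ⟨h1, hy', h3⟩
        · exact ⟨h1, hy', h3⟩
    refine ⟨x, hxS, Set.univ, Function.update hit y x, Set.mem_univ _, Set.subset_univ _, ?_, ?_,
      ?_, ?_⟩
    · intro y' _ _ z hz hz'
      have hz'' : Unf G ord (m / 2) S z := hz'.mono (Set.subset_insert _ _)
      by_cases hy' : y' = y
      · subst hy'
        rw [Function.update_self]
        exact hx1 z hz hz''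
      · rw [Function.update_of_ne hy']
        exact h.one y' (Set.mem_univ _) hy' z hz hz''
    · intro w
      refine (Set.ncard_le_ncard (hsub w)).trans ?_
      by_cases hw : w = x
      · rw [if_pos hw]
        refine (Set.ncard_insert_le _ _).trans ?_
        have := h.act w (hw ▸ hxS)
        omega
      · rw [if_neg hw]
        exact h.two w
    · intro w hw
      refine (Set.ncard_le_ncard (hsub w)).trans ?_
      have hw' : ¬ w = x := fun h => hw (h ▸ Set.mem_insert _ _)
      rw [if_neg hw']
      exact h.act w (fun h => hw (Set.mem_insert_of_mem _ h))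
    · intro w hw
      exact absurd (Set.mem_univ _) hw
  | succ n ih =>
    intro A hit y hn hy h
    obtain ⟨x, hxS, hx1⟩ : ∃ x, x ∉ S ∧ ∀ z, WR G ord m z y → Unf G ord (m / 2) S z →
        ∃ z₁, WR G ord m z₁ y ∧ ord z₁ ≤ ord z ∧ WR G ord (m / 2) z₁ x := by
      by_cases hu : ∃ z, WR G ord m z y ∧ Unf G ord (m / 2) S z
      · obtain ⟨z₁, ⟨h1, x, hx, hxS⟩, hmin⟩ := (Set.toFinite
          {z | WR G ord m z y ∧ Unf G ord (m / 2) S z}).exists_minimalFor ord _ hu
        refine ⟨x, hxS, fun z hz hz' => ⟨z₁, h1, ?_, hx⟩⟩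
        by_contra hcon
        push Not at hcon
        have := hmin (j := z) ⟨hz, hz'⟩ hcon.le
        omega
      · push Not at hu
        obtain ⟨x, hx⟩ := (Set.ne_univ_iff_exists_notMem S).1 hS
        exact ⟨x, hx, fun z hz hz' => absurd hz' (hu z hz)⟩
    have hsub : ∀ w, {y' | y' ∈ A ∧ y' ∉ (∅ : Set V) ∧
        Function.update hit y x y' = w} ⊆
        (if w = x then insert y else id)
          {y' | y' ∈ A ∧ y' ∉ ({y} : Set V) ∧ hit y' = w} := by
      rintro w y' ⟨h1, h2, h3⟩
      by_cases hy' : y' = y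
      · subst hy'
        rw [Function.update_self] at h3
        rw [if_pos h3.symm]
        exact Set.mem_insert _ _
      · rw [Function.update_of_ne hy'] at h3
        split_ifs
        · exact Set.mem_insert_of_mem _ ⟨h1, hy', h3⟩
        · exact ⟨h1, hy', h3⟩
    by_cases hxA : x ∈ A
    · -- mark `x`
      refine ⟨x, hxS, A, Function.update hit y x, hxA, Set.insert_subset hxA h.sub, ?_, ?_,
        ?_, ?_⟩
      · intro y' hy'A _ z hz hz'
        have hz'' : Unf G ord (m / 2) S z := hz'.mono (Set.subset_insert _ _)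
        by_cases hy' : y' = y
        · subst hy'
          rw [Function.update_self]
          exact hx1 z hz hz''
        · rw [Function.update_of_ne hy']
          exact h.one y' hy'A hy' z hz hz''
      · intro w
        refine (Set.ncard_le_ncard (hsub w)).trans ?_
        by_cases hw : w = x
        · rw [if_pos hw]
          refine (Set.ncard_insert_le _ _).trans ?_
          have := h.act w (hw ▸ hxS)
          omega
        · rw [if_neg hw]
          exact h.two w
      · intro w hw
        refine (Set.ncard_le_ncard (hsub w)).trans ?_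
        have hw' : ¬ w = x := fun h => hw (h ▸ Set.mem_insert _ _)
        rw [if_neg hw']
        exact h.act w (fun h => hw (Set.mem_insert_of_mem _ h))
      · intro w hw
        refine (Set.ncard_le_ncard (hsub w)).trans ?_
        have hw' : ¬ w = x := fun h => hw (h ▸ hxA)
        rw [if_neg hw']
        exact h.ina w hw
    · -- activate `x` and continue
      have hxy : x ≠ y := fun h => hxA (h ▸ hy)
      have hsub2 : ∀ w, {y' | y' ∈ insert x A ∧ y' ∉ ({x} : Set V) ∧
          Function.update hit y x y' = w} ⊆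
          (if w = x then insert y else id)
            {y' | y' ∈ A ∧ y' ∉ ({y} : Set V) ∧ hit y' = w} := by
        rintro w y' ⟨h1, h2, h3⟩
        refine hsub w ⟨?_, fun h => h, h3⟩
        rcases Set.mem_insert_iff.1 h1 with h4 | h4
        · exact absurd h4 h2
        · exact h4
      refine ih (insert x A) (Function.update hit y x) x ?_ (Set.mem_insert _ _)
        ⟨h.sub.trans (Set.subset_insert _ _), ?_, ?_, ?_, ?_⟩
      · have e : (insert x A)ᶜ = Aᶜ \ {x} := by
          ext w
          simp only [Set.mem_compl_iff, Set.mem_insert_iff, not_or, Set.mem_sdiff,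
            Set.mem_singleton_iff]
          tauto
        rw [e, Set.ncard_sdiff_singleton_of_mem (show x ∈ Aᶜ from hxA), hn]
        omega
      · intro y' hy'A hy'x z hz hz'
        by_cases hy' : y' = y
        · subst hy'
          rw [Function.update_self]
          exact hx1 z hz hz'
        · rw [Function.update_of_ne hy']
          rcases Set.mem_insert_iff.1 hy'A with h4 | h4
          · exact absurd h4 hy'x
          · exact h.one y' h4 hy' z hz hz'
      · intro w
        refine (Set.ncard_le_ncard (hsub2 w)).trans ?_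
        by_cases hw : w = x
        · rw [if_pos hw]
          refine (Set.ncard_insert_le _ _).trans ?_
          have := h.ina w (hw ▸ hxA)
          omega
        · rw [if_neg hw]
          exact h.two w
      · intro w hw
        refine (Set.ncard_le_ncard (hsub2 w)).trans ?_
        by_cases hw' : w = x
        · rw [if_pos hw']
          refine (Set.ncard_insert_le _ _).trans ?_
          have := h.ina w (hw' ▸ hxA)
          omega
        · rw [if_neg hw']
          exact h.act w hw
      · intro w hw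
        refine (Set.ncard_le_ncard (hsub2 w)).trans ?_
        have hw' : ¬ w = x := fun h => hw (h ▸ Set.mem_insert _ _)
        rw [if_neg hw']
        exact h.ina w (fun h => hw (Set.mem_insert_of_mem _ h))

theorem ncard_bUnion_le [Finite V] {Z : Set V} {F : V → Set V} {k : ℕ}
    (h : ∀ z ∈ Z, (F z).ncard ≤ k) : (⋃ z ∈ Z, F z).ncard ≤ Z.ncard * k := by
  classical
  have := Fintype.ofFinite V
  have e : (⋃ z ∈ Z, F z) = ((Z.toFinset.biUnion fun z => (F z).toFinset : Finset V) : Set V) := by
    ext x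
    simp
  rw [e, Set.ncard_coe_finset, Set.ncard_eq_toFinset_card']
  refine Finset.card_biUnion_le_card_mul _ _ _ ?_
  intro z hz
  rw [← Set.ncard_eq_toFinset_card']
  exact h z (Set.mem_toFinset.1 hz)

theorem WR.mono {G : SimpleGraph V} {ord : V → ℕ} {r r' : ℕ} (hr : r ≤ r') {z v : V}
    (h : WR G ord r z v) : WR G ord r' z v := by
  obtain ⟨p, hp, hp'⟩ := h
  exact ⟨p, hp.trans hr, hp'⟩

theorem WR.comb {G : SimpleGraph V} {ord : V → ℕ} {m : ℕ} {z z₁ y : V} (h : WR G ord m z y)
    (h₁ : WR G ord m z₁ y) (hz : ord z₁ ≤ ord z) : WR G ord (2 * m) z₁ z := by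
  obtain ⟨p, hp, hp'⟩ := h
  obtain ⟨q, hq, hq'⟩ := h₁
  refine ⟨p.reverse.append q, ?_, ?_⟩
  · rw [SimpleGraph.Walk.length_append, SimpleGraph.Walk.length_reverse]
    omega
  · intro x hx
    rw [SimpleGraph.Walk.mem_support_append_iff, SimpleGraph.Walk.support_reverse,
      List.mem_reverse] at hx
    rcases hx with hx | hx
    · exact hz.trans (hp' x hx)
    · exact hq' x hx

/-- Adjacent vertices of the power have a common centre. -/
theorem adj_centre {G : SimpleGraph V} {ord : V → ℕ} {m : ℕ} {v w : V} (h : (pw G m).Adj v w) :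
    ∃ z, WR G ord m z v ∧ WR G ord m z w ∧ (WR G ord (m / 2) z v ∨ WR G ord (m / 2) z w) := by
  classical
  obtain ⟨-, p, hp⟩ := h
  obtain ⟨z, hz, hmin⟩ := p.support.toFinset.exists_min_image ord ⟨v, by simp⟩
  rw [List.mem_toFinset] at hz
  have hmin' : ∀ x ∈ p.support, ord z ≤ ord x := fun x hx => hmin x (List.mem_toFinset.2 hx)
  have hlen : (p.takeUntil z hz).length + (p.dropUntil z hz).length = p.length := by
    rw [← SimpleGraph.Walk.length_append, SimpleGraph.Walk.take_spec]
  have h1 : ∀ x ∈ (p.takeUntil z hz).support, ord z ≤ ord x := fun x hx =>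
    hmin' x (p.support_takeUntil_subset_support hz hx)
  have h2 : ∀ x ∈ (p.dropUntil z hz).reverse.support, ord z ≤ ord x := by
    intro x hx
    rw [SimpleGraph.Walk.support_reverse, List.mem_reverse] at hx
    exact hmin' x (p.support_dropUntil_subset_support hz hx)
  have hl2 : (p.dropUntil z hz).reverse.length = (p.dropUntil z hz).length :=
    SimpleGraph.Walk.length_reverse _
  refine ⟨z, ⟨p.takeUntil z hz, by omega, h1⟩, ⟨(p.dropUntil z hz).reverse, by omega, h2⟩, ?_⟩
  by_cases hle : (p.takeUntil z hz).length ≤ m / 2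
  · exact Or.inl ⟨p.takeUntil z hz, hle, h1⟩
  · exact Or.inr ⟨(p.dropUntil z hz).reverse, by omega, h2⟩

/-- **The back-degree is bounded.** -/
theorem count [Finite V] {G : SimpleGraph V} {ord : V → ℕ} {m c β : ℕ}
    (hc : ∀ v, {z | WR G ord (2 * m) z v}.ncard ≤ c)
    (hβ : ∀ z, {x | WR G ord (m / 2) z x}.ncard ≤ β)
    {D A S : Set V} {hit : V → V} (h : Inv G ord m D A S hit) {v : V} (hv : v ∉ S) :
    back (pw G m) S v ≤ c * β + c * (c * β * 2) + D.ncard := by
  have hcover : {w | (pw G m).Adj v w ∧ w ∈ S} ⊆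
      ((⋃ z ∈ {z | WR G ord (2 * m) z v}, {x | WR G ord (m / 2) z x}) ∪
        (⋃ z ∈ {z | WR G ord (m / 2) z v}, {w | w ∈ A ∧ w ∉ D ∧ WR G ord m z w})) ∪ D := by
    rintro w ⟨hvw, hwS⟩
    by_cases hwD : w ∈ D
    · exact Or.inr hwD
    left
    obtain ⟨z, h1, h2, h3⟩ := adj_centre (ord := ord) hvw
    rcases h3 with h3 | h3
    · right
      simp only [Set.mem_iUnion]
      exact ⟨z, h3, h.sub hwS, hwD, h2⟩
    · left
      simp only [Set.mem_iUnion]
      exact ⟨z, h1.mono (by omega), h3⟩
  have hone : (⋃ z ∈ {z | WR G ord (2 * m) z v}, {x | WR G ord (m / 2) z x}).ncard ≤ c * β :=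
    (ncard_bUnion_le fun z _ => hβ z).trans (Nat.mul_le_mul_right _ (hc v))
  have hP : ∀ z ∈ {z | WR G ord (m / 2) z v},
      {w | w ∈ A ∧ w ∉ D ∧ WR G ord m z w}.ncard ≤ c * β * 2 := by
    intro z hz
    have hunf : Unf G ord (m / 2) S z := ⟨v, hz, hv⟩
    have hsub : {w | w ∈ A ∧ w ∉ D ∧ WR G ord m z w} ⊆
        ⋃ x ∈ (⋃ z₁ ∈ {z₁ | WR G ord (2 * m) z₁ z}, {x | WR G ord (m / 2) z₁ x}),
          {y | y ∈ A ∧ y ∉ D ∧ hit y = x} := by
      rintro w ⟨hwA, hwD, hw⟩
      obtain ⟨z₁, h1, h2, h3⟩ := h.one w hwA hwD z hw hunf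
      simp only [Set.mem_iUnion]
      exact ⟨hit w, ⟨z₁, hw.comb h1 h2, h3⟩, hwA, hwD, rfl⟩
    refine (Set.ncard_le_ncard hsub).trans ?_
    refine (ncard_bUnion_le fun x _ => h.two x).trans ?_
    exact Nat.mul_le_mul_right _
      ((ncard_bUnion_le fun z₁ _ => hβ z₁).trans (Nat.mul_le_mul_right _ (hc z)))
  have htwo : (⋃ z ∈ {z | WR G ord (m / 2) z v},
      {w | w ∈ A ∧ w ∉ D ∧ WR G ord m z w}).ncard ≤ c * (c * β * 2) := by
    refine (ncard_bUnion_le hP).trans (Nat.mul_le_mul_right _ ?_)
    refine (Set.ncard_le_ncard ?_).trans (hc v)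
    intro z hz
    exact WR.mono (by omega) hz
  unfold back
  refine (Set.ncard_le_ncard hcover).trans ?_
  refine (Set.ncard_union_le _ _).trans ?_
  refine Nat.add_le_add_right ((Set.ncard_union_le _ _).trans ?_) _
  exact Nat.add_le_add hone htwo

/-- **Alice wins.** -/
theorem win [Finite V] {G : SimpleGraph V} {ord : V → ℕ} {m c β s : ℕ}
    (hc : ∀ v, {z | WR G ord (2 * m) z v}.ncard ≤ c)
    (hβ : ∀ z, {x | WR G ord (m / 2) z x}.ncard ≤ β)
    (hs : c * β + c * (c * β * 2) + 2 ≤ s) :
    ∀ (n : ℕ) (S : Set V), (Sᶜ).ncard ≤ n →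
      (∀ A hit, Inv G ord m ∅ A S hit → Win (pw G m) s true S) ∧
      (∀ A hit y, y ∈ A → Inv G ord m {y} A S hit → Win (pw G m) s true S) := by
  classical
  intro n
  induction n with
  | zero =>
    intro S hS
    have : S = Set.univ := by
      rw [Nat.le_zero, Set.ncard_eq_zero, Set.compl_empty_iff] at hS
      exact hS
    subst this
    exact ⟨fun _ _ _ => Win.done _, fun _ _ _ _ _ => Win.done _⟩
  | succ n ih =>
    intro S hS
    by_cases hSu : S = Set.univ
    · subst hSu
      exact ⟨fun _ _ _ => Win.done _, fun _ _ _ _ _ => Win.done _⟩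
    have hgo : ∀ x, x ∉ S → 1 + back (pw G m) S x ≤ s → ∀ A' hit', x ∈ A' →
        Inv G ord m ∅ A' (insert x S) hit' → Win (pw G m) s true S := by
      intro x hx hback A' hit' hxA hinv
      refine Win.alice S x hx hback (Win.bob _ ?_ ?_)
      · intro v hv
        have := count hc hβ hinv hv
        simp only [Set.ncard_empty] at this
        omega
      · intro v hv
        have hcard : ((insert v (insert x S))ᶜ).ncard ≤ n := by
          have h1 : ((insert v (insert x S))ᶜ).ncard < (Sᶜ).ncard := by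
            refine Set.ncard_lt_ncard ?_
            exact (Set.ssubset_iff_of_subset (Set.compl_subset_compl.2
              ((Set.subset_insert _ _).trans (Set.subset_insert _ _)))).2
              ⟨x, hx, fun h => h (Set.mem_insert_of_mem _ (Set.mem_insert _ _))⟩
          omega
        obtain ⟨ih1, ih2⟩ := ih _ hcard
        by_cases hvA : v ∈ A'
        · exact ih1 A' hit' (hinv.mark hvA)
        · exact ih2 (insert v A') hit' v (Set.mem_insert _ _)
            ((hinv.activate v).mark (Set.mem_insert _ _))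
    constructor
    · intro A hit hinv
      obtain ⟨x₀, hx₀⟩ := (Set.ne_univ_iff_exists_notMem S).1 hSu
      by_cases hxA : x₀ ∈ A
      · refine hgo x₀ hx₀ ?_ A hit hxA (hinv.mark hxA)
        have := count hc hβ hinv hx₀
        simp only [Set.ncard_empty] at this
        omega
      · obtain ⟨x, hx, A', hit', hxA', hinv'⟩ := step hSu _ (insert x₀ A) hit x₀ rfl
          (Set.mem_insert _ _) (hinv.activate x₀)
        refine hgo x hx ?_ A' hit' hxA' hinv'
        have := count hc hβ hinv hx
        simp only [Set.ncard_empty] at this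
        omega
    · intro A hit y hy hinv
      obtain ⟨x, hx, A', hit', hxA', hinv'⟩ := step hSu _ A hit y rfl hy hinv
      refine hgo x hx ?_ A' hit' hxA' hinv'
      have := count hc hβ hinv hx
      simp only [Set.ncard_singleton] at this
      omega

/-- **Upper bound** from the sizes of weakly reachable sets. -/
theorem win_start [Finite V] {G : SimpleGraph V} {ord : V → ℕ} {m c β s : ℕ}
    (hc : ∀ v, {z | WR G ord (2 * m) z v}.ncard ≤ c)
    (hβ : ∀ z, {x | WR G ord (m / 2) z x}.ncard ≤ β)
    (hs : c * β + c * (c * β * 2) + 2 ≤ s) : Win (pw G m) s true ∅ := by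
  refine (win hc hβ hs _ ∅ le_rfl).1 ∅ id ⟨Set.Subset.refl _, ?_, ?_, ?_, ?_⟩
  · intro y hy
    exact absurd hy (fun h => h)
  all_goals
    intro x
    simp

end Pool.Agent.Q128.Game
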