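import Mathlib

/-!
# The edge-distinguishing game: definitions
-/

set_option autoImplicit false

namespace Q128.Ladder

open SimpleGraph

/-- The triangular ladder on the vertices `0, …, n - 1`: `i` and `j` are adjacent if `|i - j|` is `1` or
`2`. -/
def ladder (n : ℕ) : SimpleGraph (Fin n) :=
  SimpleGraph.fromRel fun i j => i.val + 1 = j.val ∨ i.val + 2 = j.val

/-- For a partial colouring `c`: distinct edges with coloured ends receive distinct multisets. -/
def Distinguishing {V : Type} (G : SimpleGraph V) {k : ℕ} (c : V → Option (Fin k)) : Prop :=
  ∀ u v u' v' : V, G.Adj u v → G.Adj u' v' → ∀ a b a' b' : Fin k, c u = some a → c v = some b →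
    c u' = some a' → c v' = some b' → s(a, b) = s(a', b') → s(u, v) = s(u', v')

/-- The edge-distinguishing chromatic number `λ(G)`. -/
noncomputable def edgeDistinguishingNumber {V : Type} (G : SimpleGraph V) : ℕ :=
  sInf {k | ∃ c : V → Fin k, Distinguishing G (fun v => some (c v))}

/-- A legal move: a vertex not yet coloured gets a colour, and the new partial colouring is
edge-distinguishing. -/
def Move {V : Type} [DecidableEq V] (G : SimpleGraph V) {k : ℕ} (c c' : V → Option (Fin k)) : Prop :=
  (∃ v, c v = none ∧ ∃ a, c' = Function.update c v (some a)) ∧ Distinguishing G c'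

/-- The player to move in the position `c` has a winning strategy (the player who makes the last move
wins): he has a move to a position `c'` such that he wins again after every answer of the opponent. -/
inductive Wins {V : Type} [DecidableEq V] (G : SimpleGraph V) {k : ℕ} : (V → Option (Fin k)) → Prop
  | intro (c c' : V → Option (Fin k)) (h : Move G c c') (h' : ∀ c'', Move G c' c'' → Wins G c'') :
      Wins G c

/-- Player 1 has a winning strategy in the game on `G` with `λ(G)` colours. -/
def PlayerOneWins {V : Type} [DecidableEq V] (G : SimpleGraph V) : Prop :=
  Wins G (fun _ => none : V → Option (Fin (edgeDistinguishingNumber G)))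

end Q128.Ladder
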