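import Pool.Agent.Q128.LadderDefs

/-!
# The edge-distinguishing game on `T_10`: the search
-/

set_option autoImplicit false

namespace Q128.Ladder

open SimpleGraph

/-! ### Permutations of the colours -/

section

variable {V : Type} {G : SimpleGraph V} {k : ℕ}

/-- rename the colours -/
def ren (σ : Equiv.Perm (Fin k)) (c : V → Option (Fin k)) : V → Option (Fin k) :=
  fun v => (c v).map σ

theorem dist_ren (σ : Equiv.Perm (Fin k)) {c : V → Option (Fin k)} (h : Distinguishing G c) :
    Distinguishing G (ren σ c) := by
  intro u v u' v' huv huv' a b a' b' ha hb ha' hb' hs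
  simp only [ren, Option.map_eq_some_iff] at ha hb ha' hb'
  obtain ⟨a0, ha0, rfl⟩ := ha
  obtain ⟨b0, hb0, rfl⟩ := hb
  obtain ⟨a1, ha1, rfl⟩ := ha'
  obtain ⟨b1, hb1, rfl⟩ := hb'
  apply h u v u' v' huv huv' a0 b0 a1 b1 ha0 hb0 ha1 hb1
  rw [Sym2.eq_iff] at hs ⊢
  simpa only [σ.injective.eq_iff] using hs

theorem ren_ren (σ : Equiv.Perm (Fin k)) (c : V → Option (Fin k)) : ren σ (ren σ.symm c) = c := by
  funext v
  simp [ren, Option.map_map]

variable [DecidableEq V]

theorem move_ren (σ : Equiv.Perm (Fin k)) {c c' : V → Option (Fin k)} (h : Move G c c') :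
    Move G (ren σ c) (ren σ c') := by
  obtain ⟨⟨v, hv, a, rfl⟩, h2⟩ := h
  refine ⟨⟨v, by simp [ren, hv], σ a, ?_⟩, dist_ren σ h2⟩
  funext u
  by_cases hu : u = v
  · subst hu
    simp [ren]
  · simp [ren, Function.update_of_ne hu]

theorem wins_ren (σ : Equiv.Perm (Fin k)) {c : V → Option (Fin k)} (h : Wins G c) :
    Wins G (ren σ c) := by
  induction h with
  | intro c c' h h' ih =>
    refine Wins.intro _ _ (move_ren σ h) fun d hd => ?_
    have h1 := move_ren σ.symm hd
    have h2 : ren σ.symm (ren σ c') = c' := by
      have := ren_ren σ.symm c'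
      rwa [Equiv.symm_symm] at this
    rw [h2] at h1
    have h3 := ih _ h1
    rwa [ren_ren] at h3

end

/-! ### The search -/

/-- the edges of `T_10` -/
def E : List (ℕ × ℕ) :=
  [(0, 1), (0, 2), (1, 2), (1, 3), (2, 3), (2, 4), (3, 4), (3, 5), (4, 5),
    (4, 6), (5, 6), (5, 7), (6, 7), (6, 8), (7, 8), (7, 9), (8, 9)]

/-- the code of a multiset of two colours -/
def key (a b : ℕ) : ℕ := if a ≤ b then a * 8 + b else b * 8 + a

/-- a position is a list of ten numbers, where `0` stands for an uncoloured vertex -/
def validB (L : List ℕ) : Bool :=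
  E.all fun e => (L.getD e.1 0 == 0) || (L.getD e.2 0 == 0) || E.all fun e' =>
    (e == e') || (L.getD e'.1 0 == 0) || (L.getD e'.2 0 == 0) ||
      !(key (L.getD e.1 0) (L.getD e.2 0) == key (L.getD e'.1 0) (L.getD e'.2 0))

/-- the colours in use and the first unused colour -/
def cols (L : List ℕ) : List ℕ :=
  [1, 2, 3, 4, 5, 6, 7].filter (fun x => L.contains x) ++
    match [1, 2, 3, 4, 5, 6, 7].find? (fun x => !L.contains x) with
    | none => []
    | some x => [x]

/-- the candidates for moves -/
def cands (L : List ℕ) : List (ℕ × ℕ) :=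
  [0, 1, 2, 3, 4, 5, 6, 7, 8, 9].flatMap fun i =>
    if L.getD i 0 == 0 then (cols L).map fun x => (i, x) else []

/-- check the answers in one position -/
def nodeB (L : List ℕ) : List (ℕ × ℕ) → List (ℕ × ℕ × List ℕ) → Bool
  | [], _ => true
  | (i, x) :: cs, [] => !validB (L.set i x) && nodeB L cs []
  | (i, x) :: cs, (j, d, C) :: ans =>
    if validB (L.set i x) then
      ((L.set i x).getD j 0 == 0) && Nat.blt j 10 && Nat.blt 0 d && Nat.blt d 8 &&
        ((L.set i x).set j d == C) && validB C && nodeB L cs ans
    else nodeB L cs ((j, d, C) :: ans)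

/-- the code of a position -/
def enc (c : Fin 10 → Option (Fin 7)) : List ℕ :=
  List.ofFn fun i => match c i with
    | none => 0
    | some a => a.val + 1

theorem enc_getD (c : Fin 10 → Option (Fin 7)) (i : Fin 10) : (enc c).getD i.val 0 = match c i with
    | none => 0
    | some a => a.val + 1 := by
  have h : i.val < (enc c).length := by unfold enc; rw [List.length_ofFn]; exact i.isLt
  rw [List.getD_eq_getElem _ _ h]
  unfold enc
  rw [List.getElem_ofFn]

theorem enc_update (c : Fin 10 → Option (Fin 7)) (i : Fin 10) (a : Fin 7) :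
    enc (Function.update c i (some a)) = (enc c).set i.val (a.val + 1) := by
  apply List.ext_getElem
  · simp [enc]
  · intro n h1 h2
    rw [List.getElem_set]
    simp only [enc, List.getElem_ofFn]
    split_ifs with h
    · subst h
      simp
    · have : (⟨n, by simpa [enc] using h1⟩ : Fin 10) ≠ i := fun e => h (by rw [← e])
      rw [Function.update_of_ne this]

theorem enc_zero {c : Fin 10 → Option (Fin 7)} {i : Fin 10} : (enc c).getD i.val 0 = 0 ↔ c i = none := by
  rw [enc_getD]
  cases c i <;> simp

theorem key_eq {a b a' b' : ℕ} (ha : a < 8) (hb : b < 8) (ha' : a' < 8) (hb' : b' < 8) :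
    key a b = key a' b' ↔ (a = a' ∧ b = b') ∨ (a = b' ∧ b = a') := by
  unfold key
  split_ifs <;> omega

theorem adj_mem : ∀ u v : Fin 10, (u ≠ v ∧ ((u.val + 1 = v.val ∨ u.val + 2 = v.val) ∨
    (v.val + 1 = u.val ∨ v.val + 2 = u.val))) → (u.val, v.val) ∈ E ∨ (v.val, u.val) ∈ E := by decide

theorem mem_adj : ∀ e ∈ E, ∃ u v : Fin 10, e = (u.val, v.val) ∧ u.val < v.val ∧ u ≠ v ∧
    (u.val + 1 = v.val ∨ u.val + 2 = v.val) := by decide

theorem valid_of_dist {c : Fin 10 → Option (Fin 7)} (h : Distinguishing (ladder 10) c) :
    validB (enc c) = true := by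
  unfold validB
  rw [List.all_eq_true]
  intro e he
  obtain ⟨u, v, rfl, huv, hne, hadj⟩ := mem_adj e he
  simp only [Bool.or_eq_true, beq_iff_eq]
  rcases hu : c u with _ | a
  · left; left
    rw [enc_zero]; exact hu
  rcases hv : c v with _ | b
  · left; right
    rw [enc_zero]; exact hv
  right
  rw [List.all_eq_true]
  intro e' he'
  obtain ⟨u', v', rfl, huv', hne', hadj'⟩ := mem_adj e' he'
  simp only [Bool.or_eq_true, beq_iff_eq]
  rcases hu' : c u' with _ | a'
  · left; left; right
    rw [enc_zero]; exact hu'
  rcases hv' : c v' with _ | b'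
  · left; right
    rw [enc_zero]; exact hv'
  by_cases hee : (u.val, v.val) = (u'.val, v'.val)
  · left; left; left
    exact hee
  right
  rw [Bool.not_eq_true', beq_eq_false_iff_ne]
  intro hk
  rw [enc_getD, enc_getD, enc_getD, enc_getD, hu, hv, hu', hv'] at hk
  dsimp only at hk
  rw [key_eq (a := a.val + 1) (b := b.val + 1) (a' := a'.val + 1) (b' := b'.val + 1) (by omega)
    (by omega) (by omega) (by omega)] at hk
  apply hee
  have hs : s(a, b) = s(a', b') := by
    rw [Sym2.eq_iff]
    rcases hk with hk | hk
    · left; exact ⟨Fin.ext (by omega), Fin.ext (by omega)⟩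
    · right; exact ⟨Fin.ext (by omega), Fin.ext (by omega)⟩
  have h1 := h u v u' v' ⟨hne, Or.inl hadj⟩ ⟨hne', Or.inl hadj'⟩ a b a' b' hu hv hu' hv' hs
  rw [Sym2.eq_iff] at h1
  rcases h1 with ⟨rfl, rfl⟩ | ⟨rfl, rfl⟩
  · rfl
  · omega

theorem dist_of_valid {c : Fin 10 → Option (Fin 7)} (h : validB (enc c) = true) :
    Distinguishing (ladder 10) c := by
  intro u v u' v' huv huv' a b a' b' hu hv hu' hv' hs
  unfold validB at h
  rw [List.all_eq_true] at h
  -- the statement for two pairs in `E`
  have key1 : ∀ u v u' v' : Fin 10, (u.val, v.val) ∈ E → (u'.val, v'.val) ∈ E → ∀ a b a' b' : Fin 7,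
      c u = some a → c v = some b → c u' = some a' → c v' = some b' → s(a, b) = s(a', b') →
      s(u, v) = s(u', v') := by
    intro u v u' v' he he' a b a' b' hu hv hu' hv' hs
    have h1 := h _ he
    simp only [Bool.or_eq_true, beq_iff_eq] at h1
    rcases h1 with (h1 | h1) | h1
    · rw [enc_zero, hu] at h1; exact absurd h1 (by simp)
    · rw [enc_zero, hv] at h1; exact absurd h1 (by simp)
    rw [List.all_eq_true] at h1
    have h2 := h1 _ he'
    simp only [Bool.or_eq_true, beq_iff_eq] at h2
    rcases h2 with ((h2 | h2) | h2) | h2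
    · rw [Prod.mk.injEq] at h2
      rw [Fin.ext h2.1, Fin.ext h2.2]
    · rw [enc_zero, hu'] at h2; exact absurd h2 (by simp)
    · rw [enc_zero, hv'] at h2; exact absurd h2 (by simp)
    · exfalso
      rw [Bool.not_eq_true', beq_eq_false_iff_ne] at h2
      apply h2
      rw [enc_getD, enc_getD, enc_getD, enc_getD, hu, hv, hu', hv']
      dsimp only
      rw [key_eq (a := a.val + 1) (b := b.val + 1) (a' := a'.val + 1) (b' := b'.val + 1) (by omega)
        (by omega) (by omega) (by omega)]
      rw [Sym2.eq_iff] at hs
      rcases hs with ⟨rfl, rfl⟩ | ⟨rfl, rfl⟩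
      · left; exact ⟨rfl, rfl⟩
      · right; exact ⟨rfl, rfl⟩
  have m1 := adj_mem u v huv
  have m2 := adj_mem u' v' huv'
  rcases m1 with m1 | m1 <;> rcases m2 with m2 | m2
  · exact key1 u v u' v' m1 m2 a b a' b' hu hv hu' hv' hs
  · rw [Sym2.eq_swap (a := u') (b := v')]
    exact key1 u v v' u' m1 m2 a b b' a' hu hv hv' hu' (hs.trans Sym2.eq_swap)
  · rw [Sym2.eq_swap (a := u) (b := v)]
    exact key1 v u u' v' m1 m2 b a a' b' hv hu hu' hv' (Sym2.eq_swap.trans hs)
  · rw [Sym2.eq_swap (a := u) (b := v), Sym2.eq_swap (a := u') (b := v')]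
    exact key1 v u v' u' m1 m2 b a b' a' hv hu hv' hu' (Sym2.eq_swap.trans (hs.trans Sym2.eq_swap))

/-- the player to move in the position `L` loses -/
def Lost (L : List ℕ) : Prop :=
  ∀ c : Fin 10 → Option (Fin 7), enc c = L → ∀ c'', Move (ladder 10) c c'' → Wins (ladder 10) c''

theorem nodeB_sound (L : List ℕ) : ∀ (cs : List (ℕ × ℕ)) (ans : List (ℕ × ℕ × List ℕ)),
    nodeB L cs ans = true → (∀ t ∈ ans, Lost t.2.2) → ∀ c : Fin 10 → Option (Fin 7), enc c = L →
    ∀ (i : Fin 10) (a : Fin 7), (i.val, a.val + 1) ∈ cs → c i = none →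
    Distinguishing (ladder 10) (Function.update c i (some a)) →
    Wins (ladder 10) (Function.update c i (some a)) := by
  intro cs
  induction cs with
  | nil => intro ans _ _ c _ i a hmem; exact absurd hmem (by simp)
  | cons e cs ih =>
    obtain ⟨i0, x0⟩ := e
    intro ans h hC c hc i a hmem hci hd
    by_cases hv : validB (L.set i0 x0) = true
    · rcases ans with _ | ⟨⟨j, d, C⟩, ans⟩
      · rw [nodeB, hv] at h
        exact absurd h (by simp)
      · rw [nodeB, if_pos hv] at h
        simp only [Bool.and_eq_true, beq_iff_eq] at h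
        obtain ⟨⟨⟨⟨⟨⟨h1, h2⟩, h3⟩, h4⟩, h5⟩, h6⟩, h7⟩ := h
        rw [List.mem_cons] at hmem
        rcases hmem with hmem | hmem
        · rw [Prod.mk.injEq] at hmem
          obtain ⟨e1, e2⟩ := hmem
          have hj : j < 10 := Nat.le_of_ble_eq_true h2
          have hd0 : 0 < d := Nat.le_of_ble_eq_true h3
          have hd8 : d < 8 := Nat.le_of_ble_eq_true h4
          have henc : enc (Function.update c i (some a)) = L.set i0 x0 := by
            rw [enc_update, hc, e1, e2]
          have hcj : Function.update c i (some a) ⟨j, hj⟩ = none := by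
            rw [← enc_zero, henc]
            exact h1
          have henc2 : enc (Function.update (Function.update c i (some a)) ⟨j, hj⟩
              (some ⟨d - 1, by omega⟩)) = C := by
            rw [enc_update, henc, ← h5]
            dsimp only
            rw [show d - 1 + 1 = d by omega]
          have hmove : Move (ladder 10) (Function.update c i (some a))
              (Function.update (Function.update c i (some a)) ⟨j, hj⟩ (some ⟨d - 1, by omega⟩)) := by
            refine ⟨⟨⟨j, hj⟩, hcj, _, rfl⟩, dist_of_valid ?_⟩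
            rw [henc2]; exact h6
          exact Wins.intro _ _ hmove (hC _ (List.mem_cons_self ..) _ henc2)
        · exact ih ans h7 (fun C' hC' => hC C' (List.mem_cons_of_mem _ hC')) c hc i a hmem hci hd
    · have h' : nodeB L cs ans = true := by
        rcases ans with _ | ⟨⟨j, d, C⟩, ans⟩
        · rw [nodeB, Bool.and_eq_true] at h
          exact h.2
        · rwa [nodeB, if_neg hv] at h
      rw [List.mem_cons] at hmem
      rcases hmem with hmem | hmem
      · exfalso
        apply hv
        rw [Prod.mk.injEq] at hmem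
        have := valid_of_dist hd
        rwa [enc_update, hc, hmem.1, hmem.2] at this
      · exact ih ans h' hC c hc i a hmem hci hd

theorem mem_cands {L : List ℕ} {i x : ℕ} (hi : i < 10) (h : L.getD i 0 = 0) (hx : x ∈ cols L) :
    (i, x) ∈ cands L := by
  unfold cands
  rw [List.mem_flatMap]
  refine ⟨i, ?_, ?_⟩
  · simp only [List.mem_cons, List.not_mem_nil, or_false]
    omega
  · rw [h]
    simpa using hx

theorem lost_of (L : List ℕ) (ans : List (ℕ × ℕ × List ℕ))
    (h : nodeB L (cands L) ans = true) (hC : ∀ t ∈ ans, Lost t.2.2) : Lost L := by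
  rintro c hc c'' ⟨⟨v, hv, a, rfl⟩, hd⟩
  have hLv : L.getD v.val 0 = 0 := by rw [← hc, enc_zero]; exact hv
  have hmem7 : a.val + 1 ∈ [1, 2, 3, 4, 5, 6, 7] := by
    simp only [List.mem_cons, List.not_mem_nil, or_false]
    omega
  by_cases ha : a.val + 1 ∈ L
  · apply nodeB_sound L _ ans h hC c hc v a _ hv hd
    apply mem_cands v.isLt hLv
    unfold cols
    rw [List.mem_append]
    left
    rw [List.mem_filter]
    exact ⟨hmem7, by simpa using ha⟩
  · -- the first unused colour
    rcases hf : [1, 2, 3, 4, 5, 6, 7].find? (fun x => !L.contains x) with _ | x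
    · exfalso
      rw [List.find?_eq_none] at hf
      have := hf _ hmem7
      simp at this
      exact ha this
    · have hx := List.find?_some hf
      have hxm := List.mem_of_find?_eq_some hf
      have hxL : x ∉ L := by simpa using hx
      have hx7 : x - 1 < 7 ∧ 1 ≤ x := by
        simp only [List.mem_cons, List.not_mem_nil, or_false] at hxm
        omega
      set b : Fin 7 := ⟨x - 1, hx7.1⟩ with hb
      have hbx : b.val + 1 = x := by rw [hb]; dsimp only; omega
      set σ := Equiv.swap a b with hσ
      have hne : ∀ u d, c u = some d → σ d = d := by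
        intro u d hd
        have hmem : d.val + 1 ∈ L := by
          rw [← hc]
          unfold enc
          rw [List.mem_ofFn]
          exact ⟨u, by rw [hd]⟩
        apply Equiv.swap_apply_of_ne_of_ne
        · rintro rfl; exact ha hmem
        · rintro rfl; rw [hbx] at hmem; exact hxL hmem
      have hren : ren σ (Function.update c v (some a)) = Function.update c v (some b) := by
        funext u
        by_cases hu : u = v
        · subst hu
          simp [ren, hσ]
        · rw [Function.update_of_ne hu]
          simp only [ren, Function.update_of_ne hu]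
          rcases hcu : c u with _ | d
          · rfl
          · simp [hne u d hcu]
      have hd' : Distinguishing (ladder 10) (Function.update c v (some b)) := by
        rw [← hren]; exact dist_ren σ hd
      have hw : Wins (ladder 10) (Function.update c v (some b)) := by
        apply nodeB_sound L _ ans h hC c hc v b _ hv hd'
        apply mem_cands v.isLt hLv
        unfold cols
        rw [List.mem_append]
        right
        rw [hf, hbx]
        simp
      have hback : ren σ (Function.update c v (some b)) = Function.update c v (some a) := by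
        rw [← hren]
        have h1 := ren_ren σ (Function.update c v (some a))
        have h2 : σ.symm = σ := by rw [hσ]; exact Equiv.symm_swap a b
        rwa [h2] at h1
      rw [← hback]
      exact wins_ren σ hw

end Q128.Ladder
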