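import Pool.Agent.Q128.LadderSearch

/-!
# The edge-distinguishing game on `T_10`: positions 0 to 149
-/

set_option autoImplicit false

namespace Q128.Ladder

theorem fnil : ∀ t ∈ ([] : List (ℕ × ℕ × List ℕ)), Lost t.2.2 := fun _ h => absurd h List.not_mem_nil

theorem fcons {j d : ℕ} {C : List ℕ} {ans : List (ℕ × ℕ × List ℕ)} (h : Lost C)
    (h' : ∀ t ∈ ans, Lost t.2.2) : ∀ t ∈ (j, d, C) :: ans, Lost t.2.2 := by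
  intro t ht
  rcases List.mem_cons.1 ht with rfl | ht
  · exact h
  · exact h' t ht

theorem n0 : Lost [1, 1, 0, 2, 3, 4, 1, 0, 0, 1] := lost_of _ [] (by decide +kernel) fnil

theorem n1 : Lost [1, 1, 0, 2, 4, 3, 1, 0, 0, 1] := lost_of _ [] (by decide +kernel) fnil

theorem n2 : Lost [1, 1, 0, 2, 0, 0, 1, 0, 0, 1] := lost_of _ [(5, 4, [1, 1, 0, 2, 3, 4, 1, 0, 0,
    1]), (4, 4, [1, 1, 0, 2, 4, 3, 1, 0, 0, 1])] (by decide +kernel) (fcons n0 (fcons n1 fnil))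

theorem n3 : Lost [1, 1, 0, 3, 2, 4, 1, 0, 0, 1] := lost_of _ [] (by decide +kernel) fnil

theorem n4 : Lost [1, 1, 0, 4, 2, 3, 1, 0, 0, 1] := lost_of _ [] (by decide +kernel) fnil

theorem n5 : Lost [1, 1, 0, 0, 2, 0, 1, 0, 0, 1] := lost_of _ [(5, 4, [1, 1, 0, 3, 2, 4, 1, 0, 0,
    1]), (3, 4, [1, 1, 0, 4, 2, 3, 1, 0, 0, 1])] (by decide +kernel) (fcons n3 (fcons n4 fnil))

theorem n6 : Lost [1, 1, 0, 3, 4, 2, 1, 0, 0, 1] := lost_of _ [] (by decide +kernel) fnil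

theorem n7 : Lost [1, 1, 0, 4, 3, 2, 1, 0, 0, 1] := lost_of _ [] (by decide +kernel) fnil

theorem n8 : Lost [1, 1, 0, 0, 0, 2, 1, 0, 0, 1] := lost_of _ [(4, 4, [1, 1, 0, 3, 4, 2, 1, 0, 0,
    1]), (3, 4, [1, 1, 0, 4, 3, 2, 1, 0, 0, 1])] (by decide +kernel) (fcons n6 (fcons n7 fnil))

theorem n9 : Lost [1, 1, 0, 4, 5, 6, 1, 2, 3, 4] := lost_of _ [] (by decide +kernel) fnil

theorem n10 : Lost [1, 1, 0, 4, 6, 5, 1, 2, 3, 4] := lost_of _ [] (by decide +kernel) fnil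

theorem n11 : Lost [1, 1, 0, 4, 0, 0, 1, 2, 3, 4] := lost_of _ [(5, 6, [1, 1, 0, 4, 5, 6, 1, 2, 3,
    4]), (4, 6, [1, 1, 0, 4, 6, 5, 1, 2, 3, 4])] (by decide +kernel) (fcons n9 (fcons n10 fnil))

theorem n12 : Lost [1, 1, 0, 5, 4, 6, 1, 2, 3, 4] := lost_of _ [] (by decide +kernel) fnil

theorem n13 : Lost [1, 1, 0, 6, 4, 5, 1, 2, 3, 4] := lost_of _ [] (by decide +kernel) fnil

theorem n14 : Lost [1, 1, 0, 0, 4, 0, 1, 2, 3, 4] := lost_of _ [(5, 6, [1, 1, 0, 5, 4, 6, 1, 2, 3,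
    4]), (3, 6, [1, 1, 0, 6, 4, 5, 1, 2, 3, 4])] (by decide +kernel) (fcons n12 (fcons n13 fnil))

theorem n15 : Lost [1, 1, 0, 5, 6, 4, 1, 2, 3, 5] := lost_of _ [] (by decide +kernel) fnil

theorem n16 : Lost [1, 1, 0, 5, 6, 4, 1, 2, 3, 6] := lost_of _ [] (by decide +kernel) fnil

theorem n17 : Lost [1, 1, 0, 5, 0, 4, 1, 2, 3, 0] := lost_of _ [(9, 5, [1, 1, 0, 5, 6, 4, 1, 2, 3,
    5]), (4, 6, [1, 1, 0, 5, 6, 4, 1, 2, 3, 5]), (4, 6, [1, 1, 0, 5, 6, 4, 1, 2, 3, 6])]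
    (by decide +kernel) (fcons n15 (fcons n15 (fcons n16 fnil)))

theorem n18 : Lost [1, 1, 0, 0, 0, 0, 1, 2, 3, 0] := lost_of _ [(9, 4, [1, 1, 0, 4, 0, 0, 1, 2, 3,
    4]), (9, 4, [1, 1, 0, 0, 4, 0, 1, 2, 3, 4]), (3, 5, [1, 1, 0, 5, 0, 4, 1, 2, 3, 0]), (3, 4, [1,
    1, 0, 4, 0, 0, 1, 2, 3, 4])] (by decide +kernel) (fcons n11 (fcons n14 (fcons n17 (fcons n11
    fnil))))

theorem n19 : Lost [1, 1, 0, 4, 5, 6, 1, 3, 2, 4] := lost_of _ [] (by decide +kernel) fnil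

theorem n20 : Lost [1, 1, 0, 4, 6, 5, 1, 3, 2, 4] := lost_of _ [] (by decide +kernel) fnil

theorem n21 : Lost [1, 1, 0, 4, 0, 0, 1, 3, 2, 4] := lost_of _ [(5, 6, [1, 1, 0, 4, 5, 6, 1, 3, 2,
    4]), (4, 6, [1, 1, 0, 4, 6, 5, 1, 3, 2, 4])] (by decide +kernel) (fcons n19 (fcons n20 fnil))

theorem n22 : Lost [1, 1, 0, 5, 4, 6, 1, 3, 2, 4] := lost_of _ [] (by decide +kernel) fnil

theorem n23 : Lost [1, 1, 0, 6, 4, 5, 1, 3, 2, 4] := lost_of _ [] (by decide +kernel) fnil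

theorem n24 : Lost [1, 1, 0, 0, 4, 0, 1, 3, 2, 4] := lost_of _ [(5, 6, [1, 1, 0, 5, 4, 6, 1, 3, 2,
    4]), (3, 6, [1, 1, 0, 6, 4, 5, 1, 3, 2, 4])] (by decide +kernel) (fcons n22 (fcons n23 fnil))

theorem n25 : Lost [1, 1, 0, 5, 6, 4, 1, 3, 2, 5] := lost_of _ [] (by decide +kernel) fnil

theorem n26 : Lost [1, 1, 0, 5, 6, 4, 1, 3, 2, 6] := lost_of _ [] (by decide +kernel) fnil

theorem n27 : Lost [1, 1, 0, 5, 0, 4, 1, 3, 2, 0] := lost_of _ [(9, 5, [1, 1, 0, 5, 6, 4, 1, 3, 2,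
    5]), (4, 6, [1, 1, 0, 5, 6, 4, 1, 3, 2, 5]), (4, 6, [1, 1, 0, 5, 6, 4, 1, 3, 2, 6])]
    (by decide +kernel) (fcons n25 (fcons n25 (fcons n26 fnil)))

theorem n28 : Lost [1, 1, 0, 0, 0, 0, 1, 3, 2, 0] := lost_of _ [(9, 4, [1, 1, 0, 4, 0, 0, 1, 3, 2,
    4]), (9, 4, [1, 1, 0, 0, 4, 0, 1, 3, 2, 4]), (3, 5, [1, 1, 0, 5, 0, 4, 1, 3, 2, 0]), (3, 4, [1,
    1, 0, 4, 0, 0, 1, 3, 2, 4])] (by decide +kernel) (fcons n21 (fcons n24 (fcons n27 (fcons n21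
    fnil))))

theorem n29 : Lost [1, 1, 0, 2, 3, 4, 1, 5, 6, 2] := lost_of _ [] (by decide +kernel) fnil

theorem n30 : Lost [1, 1, 0, 2, 3, 4, 1, 6, 5, 2] := lost_of _ [] (by decide +kernel) fnil

theorem n31 : Lost [1, 1, 0, 2, 3, 4, 1, 0, 0, 2] := lost_of _ [(8, 6, [1, 1, 0, 2, 3, 4, 1, 5, 6,
    2]), (7, 6, [1, 1, 0, 2, 3, 4, 1, 6, 5, 2])] (by decide +kernel) (fcons n29 (fcons n30 fnil))

theorem n32 : Lost [1, 1, 0, 2, 4, 3, 1, 5, 6, 2] := lost_of _ [] (by decide +kernel) fnil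

theorem n33 : Lost [1, 1, 0, 2, 4, 3, 1, 6, 5, 2] := lost_of _ [] (by decide +kernel) fnil

theorem n34 : Lost [1, 1, 0, 2, 4, 3, 1, 0, 0, 2] := lost_of _ [(8, 6, [1, 1, 0, 2, 4, 3, 1, 5, 6,
    2]), (7, 6, [1, 1, 0, 2, 4, 3, 1, 6, 5, 2])] (by decide +kernel) (fcons n32 (fcons n33 fnil))

theorem n35 : Lost [1, 1, 0, 2, 4, 5, 1, 3, 6, 2] := lost_of _ [] (by decide +kernel) fnil

theorem n36 : Lost [1, 1, 0, 2, 4, 6, 1, 3, 5, 2] := lost_of _ [] (by decide +kernel) fnil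

theorem n37 : Lost [1, 1, 0, 2, 4, 0, 1, 3, 0, 2] := lost_of _ [(8, 6, [1, 1, 0, 2, 4, 5, 1, 3, 6,
    2]), (5, 6, [1, 1, 0, 2, 4, 6, 1, 3, 5, 2])] (by decide +kernel) (fcons n35 (fcons n36 fnil))

theorem n38 : Lost [1, 1, 0, 2, 4, 5, 1, 6, 3, 2] := lost_of _ [] (by decide +kernel) fnil

theorem n39 : Lost [1, 1, 0, 2, 4, 6, 1, 5, 3, 2] := lost_of _ [] (by decide +kernel) fnil

theorem n40 : Lost [1, 1, 0, 2, 4, 0, 1, 0, 3, 2] := lost_of _ [(7, 6, [1, 1, 0, 2, 4, 5, 1, 6, 3,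
    2]), (5, 6, [1, 1, 0, 2, 4, 6, 1, 5, 3, 2])] (by decide +kernel) (fcons n38 (fcons n39 fnil))

theorem n41 : Lost [1, 1, 0, 2, 0, 0, 1, 0, 0, 2] := lost_of _ [(5, 4, [1, 1, 0, 2, 3, 4, 1, 0, 0,
    2]), (4, 4, [1, 1, 0, 2, 4, 3, 1, 0, 0, 2]), (4, 4, [1, 1, 0, 2, 4, 0, 1, 3, 0, 2]), (4, 4, [1,
    1, 0, 2, 4, 0, 1, 0, 3, 2])] (by decide +kernel) (fcons n31 (fcons n34 (fcons n37 (fcons n40
    fnil))))

theorem n42 : Lost [1, 1, 0, 0, 0, 0, 1, 0, 0, 0] := lost_of _ [(9, 1, [1, 1, 0, 2, 0, 0, 1, 0, 0,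
    1]), (9, 1, [1, 1, 0, 0, 2, 0, 1, 0, 0, 1]), (9, 1, [1, 1, 0, 0, 0, 2, 1, 0, 0, 1]), (8, 3, [1,
    1, 0, 0, 0, 0, 1, 2, 3, 0]), (7, 3, [1, 1, 0, 0, 0, 0, 1, 3, 2, 0]), (3, 2, [1, 1, 0, 2, 0, 0,
    1, 0, 0, 1]), (3, 2, [1, 1, 0, 2, 0, 0, 1, 0, 0, 2])] (by decide +kernel) (fcons n2 (fcons n5
    (fcons n8 (fcons n18 (fcons n28 (fcons n2 (fcons n41 fnil)))))))

theorem n43 : Lost [1, 2, 3, 4, 0, 4, 0, 1, 1, 0] := lost_of _ [] (by decide +kernel) fnil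

theorem n44 : Lost [1, 2, 3, 0, 3, 4, 0, 1, 1, 0] := lost_of _ [] (by decide +kernel) fnil

theorem n45 : Lost [1, 2, 3, 0, 4, 4, 0, 1, 1, 0] := lost_of _ [] (by decide +kernel) fnil

theorem n46 : Lost [1, 2, 3, 0, 0, 0, 0, 1, 1, 0] := lost_of _ [(5, 4, [1, 2, 3, 4, 0, 4, 0, 1, 1,
    0]), (5, 4, [1, 2, 3, 0, 3, 4, 0, 1, 1, 0]), (5, 4, [1, 2, 3, 0, 4, 4, 0, 1, 1, 0]), (3, 4, [1,
    2, 3, 4, 0, 4, 0, 1, 1, 0])] (by decide +kernel) (fcons n43 (fcons n44 (fcons n45 (fcons n43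
    fnil))))

theorem n47 : Lost [1, 2, 0, 2, 3, 0, 1, 1, 0, 4] := lost_of _ [] (by decide +kernel) fnil

theorem n48 : Lost [1, 2, 0, 2, 4, 0, 1, 1, 0, 3] := lost_of _ [] (by decide +kernel) fnil

theorem n49 : Lost [1, 2, 0, 2, 0, 0, 1, 1, 0, 0] := lost_of _ [(9, 4, [1, 2, 0, 2, 3, 0, 1, 1, 0,
    4]), (4, 4, [1, 2, 0, 2, 4, 0, 1, 1, 0, 3])] (by decide +kernel) (fcons n47 (fcons n48 fnil))

theorem n50 : Lost [1, 2, 4, 3, 5, 1, 0, 1, 6, 7] := lost_of _ [] (by decide +kernel) fnil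

theorem n51 : Lost [1, 2, 4, 3, 5, 1, 0, 1, 7, 6] := lost_of _ [] (by decide +kernel) fnil

theorem n52 : Lost [1, 2, 4, 3, 5, 1, 0, 1, 0, 0] := lost_of _ [(9, 7, [1, 2, 4, 3, 5, 1, 0, 1, 6,
    7]), (8, 7, [1, 2, 4, 3, 5, 1, 0, 1, 7, 6])] (by decide +kernel) (fcons n50 (fcons n51 fnil))

theorem n53 : Lost [1, 2, 5, 3, 4, 1, 0, 1, 6, 7] := lost_of _ [] (by decide +kernel) fnil

theorem n54 : Lost [1, 2, 5, 3, 4, 1, 0, 1, 7, 6] := lost_of _ [] (by decide +kernel) fnil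

theorem n55 : Lost [1, 2, 5, 3, 4, 1, 0, 1, 0, 0] := lost_of _ [(9, 7, [1, 2, 5, 3, 4, 1, 0, 1, 6,
    7]), (8, 7, [1, 2, 5, 3, 4, 1, 0, 1, 7, 6])] (by decide +kernel) (fcons n53 (fcons n54 fnil))

theorem n56 : Lost [1, 2, 5, 3, 6, 1, 0, 1, 4, 7] := lost_of _ [] (by decide +kernel) fnil

theorem n57 : Lost [1, 2, 5, 3, 7, 1, 0, 1, 4, 6] := lost_of _ [] (by decide +kernel) fnil

theorem n58 : Lost [1, 2, 5, 3, 0, 1, 0, 1, 4, 0] := lost_of _ [(9, 7, [1, 2, 5, 3, 6, 1, 0, 1, 4,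
    7]), (4, 7, [1, 2, 5, 3, 7, 1, 0, 1, 4, 6])] (by decide +kernel) (fcons n56 (fcons n57 fnil))

theorem n59 : Lost [1, 2, 5, 3, 6, 1, 0, 1, 7, 4] := lost_of _ [] (by decide +kernel) fnil

theorem n60 : Lost [1, 2, 5, 3, 7, 1, 0, 1, 6, 4] := lost_of _ [] (by decide +kernel) fnil

theorem n61 : Lost [1, 2, 5, 3, 0, 1, 0, 1, 0, 4] := lost_of _ [(8, 7, [1, 2, 5, 3, 6, 1, 0, 1, 7,
    4]), (4, 7, [1, 2, 5, 3, 7, 1, 0, 1, 6, 4])] (by decide +kernel) (fcons n59 (fcons n60 fnil))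

theorem n62 : Lost [1, 2, 0, 3, 0, 1, 0, 1, 0, 0] := lost_of _ [(4, 5, [1, 2, 4, 3, 5, 1, 0, 1, 0,
    0]), (2, 5, [1, 2, 5, 3, 4, 1, 0, 1, 0, 0]), (2, 5, [1, 2, 5, 3, 0, 1, 0, 1, 4, 0]), (2, 5, [1,
    2, 5, 3, 0, 1, 0, 1, 0, 4])] (by decide +kernel) (fcons n52 (fcons n55 (fcons n58 (fcons n61
    fnil))))

theorem n63 : Lost [1, 2, 0, 4, 1, 0, 0, 1, 3, 5] := lost_of _ [] (by decide +kernel) fnil

theorem n64 : Lost [1, 2, 0, 5, 1, 0, 0, 1, 3, 4] := lost_of _ [] (by decide +kernel) fnil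

theorem n65 : Lost [1, 2, 0, 0, 1, 0, 0, 1, 3, 0] := lost_of _ [(9, 5, [1, 2, 0, 4, 1, 0, 0, 1, 3,
    5]), (3, 5, [1, 2, 0, 5, 1, 0, 0, 1, 3, 4])] (by decide +kernel) (fcons n63 (fcons n64 fnil))

theorem n66 : Lost [1, 2, 0, 0, 2, 3, 4, 1, 0, 1] := lost_of _ [] (by decide +kernel) fnil

theorem n67 : Lost [1, 2, 0, 0, 2, 4, 3, 1, 0, 1] := lost_of _ [] (by decide +kernel) fnil

theorem n68 : Lost [1, 2, 0, 0, 2, 0, 0, 1, 0, 1] := lost_of _ [(6, 4, [1, 2, 0, 0, 2, 3, 4, 1, 0,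
    1]), (5, 4, [1, 2, 0, 0, 2, 4, 3, 1, 0, 1])] (by decide +kernel) (fcons n66 (fcons n67 fnil))

theorem n69 : Lost [1, 2, 4, 5, 3, 1, 0, 1, 6, 7] := lost_of _ [] (by decide +kernel) fnil

theorem n70 : Lost [1, 2, 4, 5, 3, 1, 0, 1, 7, 6] := lost_of _ [] (by decide +kernel) fnil

theorem n71 : Lost [1, 2, 4, 5, 3, 1, 0, 1, 0, 0] := lost_of _ [(9, 7, [1, 2, 4, 5, 3, 1, 0, 1, 6,
    7]), (8, 7, [1, 2, 4, 5, 3, 1, 0, 1, 7, 6])] (by decide +kernel) (fcons n69 (fcons n70 fnil))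

theorem n72 : Lost [1, 2, 5, 4, 3, 1, 0, 1, 6, 7] := lost_of _ [] (by decide +kernel) fnil

theorem n73 : Lost [1, 2, 5, 4, 3, 1, 0, 1, 7, 6] := lost_of _ [] (by decide +kernel) fnil

theorem n74 : Lost [1, 2, 5, 4, 3, 1, 0, 1, 0, 0] := lost_of _ [(9, 7, [1, 2, 5, 4, 3, 1, 0, 1, 6,
    7]), (8, 7, [1, 2, 5, 4, 3, 1, 0, 1, 7, 6])] (by decide +kernel) (fcons n72 (fcons n73 fnil))

theorem n75 : Lost [1, 2, 5, 6, 3, 1, 0, 1, 4, 7] := lost_of _ [] (by decide +kernel) fnil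

theorem n76 : Lost [1, 2, 5, 7, 3, 1, 0, 1, 4, 6] := lost_of _ [] (by decide +kernel) fnil

theorem n77 : Lost [1, 2, 5, 0, 3, 1, 0, 1, 4, 0] := lost_of _ [(9, 7, [1, 2, 5, 6, 3, 1, 0, 1, 4,
    7]), (3, 7, [1, 2, 5, 7, 3, 1, 0, 1, 4, 6])] (by decide +kernel) (fcons n75 (fcons n76 fnil))

theorem n78 : Lost [1, 2, 5, 6, 3, 1, 0, 1, 7, 4] := lost_of _ [] (by decide +kernel) fnil

theorem n79 : Lost [1, 2, 5, 7, 3, 1, 0, 1, 6, 4] := lost_of _ [] (by decide +kernel) fnil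

theorem n80 : Lost [1, 2, 5, 0, 3, 1, 0, 1, 0, 4] := lost_of _ [(8, 7, [1, 2, 5, 6, 3, 1, 0, 1, 7,
    4]), (3, 7, [1, 2, 5, 7, 3, 1, 0, 1, 6, 4])] (by decide +kernel) (fcons n78 (fcons n79 fnil))

theorem n81 : Lost [1, 2, 0, 0, 3, 1, 0, 1, 0, 0] := lost_of _ [(3, 5, [1, 2, 4, 5, 3, 1, 0, 1, 0,
    0]), (2, 5, [1, 2, 5, 4, 3, 1, 0, 1, 0, 0]), (2, 5, [1, 2, 5, 0, 3, 1, 0, 1, 4, 0]), (2, 5, [1,
    2, 5, 0, 3, 1, 0, 1, 0, 4])] (by decide +kernel) (fcons n71 (fcons n74 (fcons n77 (fcons n80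
    fnil))))

theorem n82 : Lost [1, 2, 3, 4, 5, 1, 0, 1, 6, 7] := lost_of _ [] (by decide +kernel) fnil

theorem n83 : Lost [1, 2, 3, 4, 5, 1, 0, 1, 7, 6] := lost_of _ [] (by decide +kernel) fnil

theorem n84 : Lost [1, 2, 3, 4, 5, 1, 0, 1, 0, 0] := lost_of _ [(9, 7, [1, 2, 3, 4, 5, 1, 0, 1, 6,
    7]), (8, 7, [1, 2, 3, 4, 5, 1, 0, 1, 7, 6])] (by decide +kernel) (fcons n82 (fcons n83 fnil))

theorem n85 : Lost [1, 2, 3, 5, 4, 1, 0, 1, 6, 7] := lost_of _ [] (by decide +kernel) fnil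

theorem n86 : Lost [1, 2, 3, 5, 4, 1, 0, 1, 7, 6] := lost_of _ [] (by decide +kernel) fnil

theorem n87 : Lost [1, 2, 3, 5, 4, 1, 0, 1, 0, 0] := lost_of _ [(9, 7, [1, 2, 3, 5, 4, 1, 0, 1, 6,
    7]), (8, 7, [1, 2, 3, 5, 4, 1, 0, 1, 7, 6])] (by decide +kernel) (fcons n85 (fcons n86 fnil))

theorem n88 : Lost [1, 2, 3, 5, 6, 1, 0, 1, 4, 7] := lost_of _ [] (by decide +kernel) fnil

theorem n89 : Lost [1, 2, 3, 5, 7, 1, 0, 1, 4, 6] := lost_of _ [] (by decide +kernel) fnil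

theorem n90 : Lost [1, 2, 3, 5, 0, 1, 0, 1, 4, 0] := lost_of _ [(9, 7, [1, 2, 3, 5, 6, 1, 0, 1, 4,
    7]), (4, 7, [1, 2, 3, 5, 7, 1, 0, 1, 4, 6])] (by decide +kernel) (fcons n88 (fcons n89 fnil))

theorem n91 : Lost [1, 2, 3, 5, 6, 1, 0, 1, 7, 4] := lost_of _ [] (by decide +kernel) fnil

theorem n92 : Lost [1, 2, 3, 5, 7, 1, 0, 1, 6, 4] := lost_of _ [] (by decide +kernel) fnil

theorem n93 : Lost [1, 2, 3, 5, 0, 1, 0, 1, 0, 4] := lost_of _ [(8, 7, [1, 2, 3, 5, 6, 1, 0, 1, 7,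
    4]), (4, 7, [1, 2, 3, 5, 7, 1, 0, 1, 6, 4])] (by decide +kernel) (fcons n91 (fcons n92 fnil))

theorem n94 : Lost [1, 2, 3, 0, 0, 1, 0, 1, 0, 0] := lost_of _ [(4, 5, [1, 2, 3, 4, 5, 1, 0, 1, 0,
    0]), (3, 5, [1, 2, 3, 5, 4, 1, 0, 1, 0, 0]), (3, 5, [1, 2, 3, 5, 0, 1, 0, 1, 4, 0]), (3, 5, [1,
    2, 3, 5, 0, 1, 0, 1, 0, 4])] (by decide +kernel) (fcons n84 (fcons n87 (fcons n90 (fcons n93
    fnil))))

theorem n95 : Lost [1, 2, 4, 3, 0, 3, 0, 1, 1, 0] := lost_of _ [] (by decide +kernel) fnil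

theorem n96 : Lost [1, 2, 4, 5, 6, 3, 7, 1, 0, 1] := lost_of _ [] (by decide +kernel) fnil

theorem n97 : Lost [1, 2, 4, 5, 7, 3, 6, 1, 0, 1] := lost_of _ [] (by decide +kernel) fnil

theorem n98 : Lost [1, 2, 4, 5, 0, 3, 0, 1, 0, 1] := lost_of _ [(6, 7, [1, 2, 4, 5, 6, 3, 7, 1, 0,
    1]), (4, 7, [1, 2, 4, 5, 7, 3, 6, 1, 0, 1])] (by decide +kernel) (fcons n96 (fcons n97 fnil))

theorem n99 : Lost [1, 2, 4, 0, 3, 3, 0, 1, 1, 0] := lost_of _ [] (by decide +kernel) fnil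

theorem n100 : Lost [1, 2, 4, 0, 4, 3, 0, 1, 1, 0] := lost_of _ [] (by decide +kernel) fnil

theorem n101 : Lost [1, 2, 4, 6, 5, 3, 0, 1, 5, 7] := lost_of _ [] (by decide +kernel) fnil

theorem n102 : Lost [1, 2, 4, 7, 5, 3, 0, 1, 5, 6] := lost_of _ [] (by decide +kernel) fnil

theorem n103 : Lost [1, 2, 4, 0, 5, 3, 0, 1, 5, 0] := lost_of _ [(9, 7, [1, 2, 4, 6, 5, 3, 0, 1, 5,
    7]), (3, 7, [1, 2, 4, 7, 5, 3, 0, 1, 5, 6])] (by decide +kernel) (fcons n101 (fcons n102 fnil))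

theorem n104 : Lost [1, 2, 4, 7, 6, 3, 5, 1, 7, 0] := lost_of _ [] (by decide +kernel) fnil

theorem n105 : Lost [1, 2, 4, 7, 6, 3, 5, 1, 0, 1] := lost_of _ [] (by decide +kernel) fnil

theorem n106 : Lost [1, 2, 4, 7, 6, 3, 5, 1, 0, 6] := lost_of _ [] (by decide +kernel) fnil

theorem n107 : Lost [1, 2, 4, 7, 6, 3, 5, 1, 0, 7] := lost_of _ [] (by decide +kernel) fnil

theorem n108 : Lost [1, 2, 4, 0, 6, 3, 5, 1, 0, 0] := lost_of _ [(8, 7, [1, 2, 4, 7, 6, 3, 5, 1, 7,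
    0]), (3, 7, [1, 2, 4, 7, 6, 3, 5, 1, 7, 0]), (3, 7, [1, 2, 4, 7, 6, 3, 5, 1, 0, 1]), (3, 7, [1,
    2, 4, 7, 6, 3, 5, 1, 0, 6]), (3, 7, [1, 2, 4, 7, 6, 3, 5, 1, 0, 7])] (by decide +kernel) (fcons
    n104 (fcons n104 (fcons n105 (fcons n106 (fcons n107 fnil)))))

theorem n109 : Lost [1, 2, 4, 3, 0, 3, 6, 1, 5, 7] := lost_of _ [] (by decide +kernel) fnil

theorem n110 : Lost [1, 2, 4, 3, 0, 3, 7, 1, 5, 6] := lost_of _ [] (by decide +kernel) fnil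

theorem n111 : Lost [1, 2, 4, 3, 0, 3, 0, 1, 5, 0] := lost_of _ [(9, 7, [1, 2, 4, 3, 0, 3, 6, 1, 5,
    7]), (6, 7, [1, 2, 4, 3, 0, 3, 7, 1, 5, 6])] (by decide +kernel) (fcons n109 (fcons n110 fnil))

theorem n112 : Lost [1, 2, 4, 0, 3, 3, 0, 1, 0, 1] := lost_of _ [] (by decide +kernel) fnil

theorem n113 : Lost [1, 2, 4, 3, 0, 3, 6, 1, 7, 5] := lost_of _ [] (by decide +kernel) fnil

theorem n114 : Lost [1, 2, 4, 3, 0, 3, 7, 1, 6, 5] := lost_of _ [] (by decide +kernel) fnil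

theorem n115 : Lost [1, 2, 4, 3, 0, 3, 0, 1, 0, 5] := lost_of _ [(8, 7, [1, 2, 4, 3, 0, 3, 6, 1, 7,
    5]), (6, 7, [1, 2, 4, 3, 0, 3, 7, 1, 6, 5])] (by decide +kernel) (fcons n113 (fcons n114 fnil))

theorem n116 : Lost [1, 2, 4, 0, 0, 3, 0, 1, 0, 0] := lost_of _ [(8, 1, [1, 2, 4, 3, 0, 3, 0, 1, 1,
    0]), (9, 1, [1, 2, 4, 5, 0, 3, 0, 1, 0, 1]), (8, 1, [1, 2, 4, 0, 3, 3, 0, 1, 1, 0]), (8, 1, [1,
    2, 4, 0, 4, 3, 0, 1, 1, 0]), (8, 5, [1, 2, 4, 0, 5, 3, 0, 1, 5, 0]), (4, 6, [1, 2, 4, 0, 6, 3,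
    5, 1, 0, 0]), (3, 3, [1, 2, 4, 3, 0, 3, 0, 1, 1, 0]), (3, 3, [1, 2, 4, 3, 0, 3, 0, 1, 5, 0]),
    (4, 3, [1, 2, 4, 0, 3, 3, 0, 1, 0, 1]), (3, 3, [1, 2, 4, 3, 0, 3, 0, 1, 0, 5])]
    (by decide +kernel) (fcons n95 (fcons n98 (fcons n99 (fcons n100 (fcons n103 (fcons n108 (fcons
    n95 (fcons n111 (fcons n112 (fcons n115 fnil))))))))))

theorem n117 : Lost [1, 2, 4, 3, 0, 0, 3, 1, 0, 1] := lost_of _ [] (by decide +kernel) fnil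

theorem n118 : Lost [1, 2, 0, 2, 3, 0, 3, 1, 0, 1] := lost_of _ [] (by decide +kernel) fnil

theorem n119 : Lost [1, 2, 0, 4, 4, 0, 3, 1, 0, 1] := lost_of _ [] (by decide +kernel) fnil

theorem n120 : Lost [1, 2, 0, 0, 0, 0, 3, 1, 0, 1] := lost_of _ [(3, 3, [1, 2, 4, 3, 0, 0, 3, 1, 0,
    1]), (4, 3, [1, 2, 0, 2, 3, 0, 3, 1, 0, 1]), (2, 4, [1, 2, 4, 3, 0, 0, 3, 1, 0, 1]), (4, 4, [1,
    2, 0, 4, 4, 0, 3, 1, 0, 1]), (5, 4, [1, 2, 0, 0, 2, 4, 3, 1, 0, 1]), (3, 2, [1, 2, 0, 2, 3, 0,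
    3, 1, 0, 1]), (3, 4, [1, 2, 0, 4, 4, 0, 3, 1, 0, 1]), (4, 2, [1, 2, 0, 0, 2, 4, 3, 1, 0, 1])]
    (by decide +kernel) (fcons n117 (fcons n118 (fcons n117 (fcons n119 (fcons n67 (fcons n118
    (fcons n119 (fcons n67 fnil))))))))

theorem n121 : Lost [1, 2, 0, 2, 3, 4, 0, 1, 1, 0] := lost_of _ [] (by decide +kernel) fnil

theorem n122 : Lost [1, 2, 0, 2, 4, 3, 0, 1, 1, 0] := lost_of _ [] (by decide +kernel) fnil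

theorem n123 : Lost [1, 2, 0, 2, 0, 0, 0, 1, 1, 0] := lost_of _ [(5, 4, [1, 2, 0, 2, 3, 4, 0, 1, 1,
    0]), (4, 4, [1, 2, 0, 2, 4, 3, 0, 1, 1, 0])] (by decide +kernel) (fcons n121 (fcons n122 fnil))

theorem n124 : Lost [1, 2, 0, 4, 1, 0, 0, 1, 5, 3] := lost_of _ [] (by decide +kernel) fnil

theorem n125 : Lost [1, 2, 0, 5, 1, 0, 0, 1, 4, 3] := lost_of _ [] (by decide +kernel) fnil

theorem n126 : Lost [1, 2, 0, 0, 1, 0, 0, 1, 0, 3] := lost_of _ [(8, 5, [1, 2, 0, 4, 1, 0, 0, 1, 5,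
    3]), (3, 5, [1, 2, 0, 5, 1, 0, 0, 1, 4, 3])] (by decide +kernel) (fcons n124 (fcons n125 fnil))

theorem n127 : Lost [1, 2, 0, 0, 0, 0, 0, 1, 0, 0] := lost_of _ [(8, 1, [1, 2, 3, 0, 0, 0, 0, 1, 1,
    0]), (6, 1, [1, 2, 0, 2, 0, 0, 1, 1, 0, 0]), (5, 1, [1, 2, 0, 3, 0, 1, 0, 1, 0, 0]), (8, 3, [1,
    2, 0, 0, 1, 0, 0, 1, 3, 0]), (9, 1, [1, 2, 0, 0, 2, 0, 0, 1, 0, 1]), (5, 1, [1, 2, 0, 0, 3, 1,
    0, 1, 0, 0]), (2, 3, [1, 2, 3, 0, 0, 1, 0, 1, 0, 0]), (2, 4, [1, 2, 4, 0, 0, 3, 0, 1, 0, 0]),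
    (3, 2, [1, 2, 0, 2, 0, 0, 1, 1, 0, 0]), (9, 1, [1, 2, 0, 0, 0, 0, 3, 1, 0, 1]), (3, 2, [1, 2, 0,
    2, 0, 0, 0, 1, 1, 0]), (4, 1, [1, 2, 0, 0, 1, 0, 0, 1, 3, 0]), (4, 2, [1, 2, 0, 0, 2, 0, 0, 1,
    0, 1]), (4, 1, [1, 2, 0, 0, 1, 0, 0, 1, 0, 3])] (by decide +kernel) (fcons n46 (fcons n49 (fcons
    n62 (fcons n65 (fcons n68 (fcons n81 (fcons n94 (fcons n116 (fcons n49 (fcons n120 (fcons n123
    (fcons n65 (fcons n68 (fcons n126 fnil))))))))))))))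

theorem n128 : Lost [1, 0, 1, 2, 0, 0, 2, 0, 0, 2] := lost_of _ [] (by decide +kernel) fnil

theorem n129 : Lost [1, 0, 1, 3, 4, 5, 6, 1, 7, 2] := lost_of _ [] (by decide +kernel) fnil

theorem n130 : Lost [1, 0, 1, 3, 4, 5, 7, 1, 6, 2] := lost_of _ [] (by decide +kernel) fnil

theorem n131 : Lost [1, 0, 1, 3, 4, 5, 0, 1, 0, 2] := lost_of _ [(8, 7, [1, 0, 1, 3, 4, 5, 6, 1, 7,
    2]), (6, 7, [1, 0, 1, 3, 4, 5, 7, 1, 6, 2])] (by decide +kernel) (fcons n129 (fcons n130 fnil))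

theorem n132 : Lost [1, 0, 1, 3, 5, 4, 6, 1, 7, 2] := lost_of _ [] (by decide +kernel) fnil

theorem n133 : Lost [1, 0, 1, 3, 5, 4, 7, 1, 6, 2] := lost_of _ [] (by decide +kernel) fnil

theorem n134 : Lost [1, 0, 1, 3, 5, 4, 0, 1, 0, 2] := lost_of _ [(8, 7, [1, 0, 1, 3, 5, 4, 6, 1, 7,
    2]), (6, 7, [1, 0, 1, 3, 5, 4, 7, 1, 6, 2])] (by decide +kernel) (fcons n132 (fcons n133 fnil))

theorem n135 : Lost [1, 0, 1, 3, 5, 6, 4, 1, 7, 2] := lost_of _ [] (by decide +kernel) fnil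

theorem n136 : Lost [1, 0, 1, 3, 5, 7, 4, 1, 6, 2] := lost_of _ [] (by decide +kernel) fnil

theorem n137 : Lost [1, 0, 1, 3, 5, 0, 4, 1, 0, 2] := lost_of _ [(8, 7, [1, 0, 1, 3, 5, 6, 4, 1, 7,
    2]), (5, 7, [1, 0, 1, 3, 5, 7, 4, 1, 6, 2])] (by decide +kernel) (fcons n135 (fcons n136 fnil))

theorem n138 : Lost [1, 0, 1, 3, 5, 6, 7, 1, 4, 2] := lost_of _ [] (by decide +kernel) fnil

theorem n139 : Lost [1, 0, 1, 3, 5, 7, 6, 1, 4, 2] := lost_of _ [] (by decide +kernel) fnil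

theorem n140 : Lost [1, 0, 1, 3, 5, 0, 0, 1, 4, 2] := lost_of _ [(6, 7, [1, 0, 1, 3, 5, 6, 7, 1, 4,
    2]), (5, 7, [1, 0, 1, 3, 5, 7, 6, 1, 4, 2])] (by decide +kernel) (fcons n138 (fcons n139 fnil))

theorem n141 : Lost [1, 0, 1, 3, 0, 0, 0, 1, 0, 2] := lost_of _ [(5, 5, [1, 0, 1, 3, 4, 5, 0, 1, 0,
    2]), (4, 5, [1, 0, 1, 3, 5, 4, 0, 1, 0, 2]), (4, 5, [1, 0, 1, 3, 5, 0, 4, 1, 0, 2]), (4, 5, [1,
    0, 1, 3, 5, 0, 0, 1, 4, 2])] (by decide +kernel) (fcons n131 (fcons n134 (fcons n137 (fcons n140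
    fnil))))

theorem n142 : Lost [1, 0, 1, 3, 2, 4, 0, 0, 2, 2] := lost_of _ [] (by decide +kernel) fnil

theorem n143 : Lost [1, 0, 1, 4, 2, 3, 0, 0, 2, 2] := lost_of _ [] (by decide +kernel) fnil

theorem n144 : Lost [1, 0, 1, 0, 2, 0, 0, 0, 2, 2] := lost_of _ [(5, 4, [1, 0, 1, 3, 2, 4, 0, 0, 2,
    2]), (3, 4, [1, 0, 1, 4, 2, 3, 0, 0, 2, 2])] (by decide +kernel) (fcons n142 (fcons n143 fnil))

theorem n145 : Lost [1, 0, 1, 4, 3, 5, 2, 0, 0, 2] := lost_of _ [] (by decide +kernel) fnil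

theorem n146 : Lost [1, 0, 1, 5, 3, 4, 2, 0, 0, 2] := lost_of _ [] (by decide +kernel) fnil

theorem n147 : Lost [1, 0, 1, 0, 3, 0, 2, 0, 0, 2] := lost_of _ [(5, 5, [1, 0, 1, 4, 3, 5, 2, 0, 0,
    2]), (3, 5, [1, 0, 1, 5, 3, 4, 2, 0, 0, 2])] (by decide +kernel) (fcons n145 (fcons n146 fnil))

theorem n148 : Lost [1, 0, 1, 0, 0, 1, 2, 0, 0, 2] := lost_of _ [] (by decide +kernel) fnil

theorem n149 : Lost [1, 0, 1, 2, 0, 2, 3, 0, 4, 2] := lost_of _ [] (by decide +kernel) fnil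

end Q128.Ladder
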