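import Pool.Agent.Q128.LadderTree1

/-!
# The edge-distinguishing game on `T_10`: positions 150 to 299
-/

set_option autoImplicit false

namespace Q128.Ladder

theorem n150 : Lost [1, 0, 1, 2, 0, 2, 4, 0, 3, 2] := lost_of _ [] (by decide +kernel) fnil

theorem n151 : Lost [1, 0, 1, 2, 0, 2, 0, 0, 0, 2] := lost_of _ [(8, 4, [1, 0, 1, 2, 0, 2, 3, 0, 4,
    2]), (6, 4, [1, 0, 1, 2, 0, 2, 4, 0, 3, 2])] (by decide +kernel) (fcons n149 (fcons n150 fnil))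

theorem n152 : Lost [1, 0, 1, 2, 0, 3, 3, 0, 4, 2] := lost_of _ [] (by decide +kernel) fnil

theorem n153 : Lost [1, 0, 1, 4, 0, 3, 3, 0, 1, 2] := lost_of _ [] (by decide +kernel) fnil

theorem n154 : Lost [1, 0, 1, 4, 0, 3, 3, 0, 2, 2] := lost_of _ [] (by decide +kernel) fnil

theorem n155 : Lost [1, 0, 1, 0, 0, 3, 3, 0, 0, 2] := lost_of _ [(8, 4, [1, 0, 1, 2, 0, 3, 3, 0, 4,
    2]), (8, 1, [1, 0, 1, 4, 0, 3, 3, 0, 1, 2]), (3, 4, [1, 0, 1, 4, 0, 3, 3, 0, 1, 2]), (3, 4, [1,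
    0, 1, 4, 0, 3, 3, 0, 2, 2]), (3, 2, [1, 0, 1, 2, 0, 3, 3, 0, 4, 2])] (by decide +kernel) (fcons
    n152 (fcons n153 (fcons n153 (fcons n154 (fcons n152 fnil)))))

theorem n156 : Lost [1, 0, 1, 3, 0, 2, 1, 0, 4, 2] := lost_of _ [] (by decide +kernel) fnil

theorem n157 : Lost [1, 0, 1, 4, 0, 2, 1, 0, 3, 2] := lost_of _ [] (by decide +kernel) fnil

theorem n158 : Lost [1, 0, 1, 0, 0, 2, 1, 0, 0, 2] := lost_of _ [(8, 4, [1, 0, 1, 3, 0, 2, 1, 0, 4,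
    2]), (3, 4, [1, 0, 1, 4, 0, 2, 1, 0, 3, 2])] (by decide +kernel) (fcons n156 (fcons n157 fnil))

theorem n159 : Lost [1, 0, 1, 2, 3, 0, 4, 2, 0, 2] := lost_of _ [] (by decide +kernel) fnil

theorem n160 : Lost [1, 0, 1, 2, 4, 0, 3, 2, 0, 2] := lost_of _ [] (by decide +kernel) fnil

theorem n161 : Lost [1, 0, 1, 2, 0, 0, 0, 2, 0, 2] := lost_of _ [(6, 4, [1, 0, 1, 2, 3, 0, 4, 2, 0,
    2]), (4, 4, [1, 0, 1, 2, 4, 0, 3, 2, 0, 2])] (by decide +kernel) (fcons n159 (fcons n160 fnil))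

theorem n162 : Lost [1, 0, 1, 4, 3, 0, 0, 3, 5, 2] := lost_of _ [] (by decide +kernel) fnil

theorem n163 : Lost [1, 0, 1, 5, 3, 0, 0, 3, 4, 2] := lost_of _ [] (by decide +kernel) fnil

theorem n164 : Lost [1, 0, 1, 0, 3, 0, 0, 3, 0, 2] := lost_of _ [(8, 5, [1, 0, 1, 4, 3, 0, 0, 3, 5,
    2]), (3, 5, [1, 0, 1, 5, 3, 0, 0, 3, 4, 2])] (by decide +kernel) (fcons n162 (fcons n163 fnil))

theorem n165 : Lost [1, 0, 1, 0, 0, 1, 0, 0, 1, 2] := lost_of _ [] (by decide +kernel) fnil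

theorem n166 : Lost [1, 0, 1, 4, 5, 6, 7, 1, 3, 2] := lost_of _ [] (by decide +kernel) fnil

theorem n167 : Lost [1, 0, 1, 4, 5, 7, 6, 1, 3, 2] := lost_of _ [] (by decide +kernel) fnil

theorem n168 : Lost [1, 0, 1, 4, 5, 0, 0, 1, 3, 2] := lost_of _ [(6, 7, [1, 0, 1, 4, 5, 6, 7, 1, 3,
    2]), (5, 7, [1, 0, 1, 4, 5, 7, 6, 1, 3, 2])] (by decide +kernel) (fcons n166 (fcons n167 fnil))

theorem n169 : Lost [1, 0, 1, 5, 4, 6, 7, 1, 3, 2] := lost_of _ [] (by decide +kernel) fnil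

theorem n170 : Lost [1, 0, 1, 5, 4, 7, 6, 1, 3, 2] := lost_of _ [] (by decide +kernel) fnil

theorem n171 : Lost [1, 0, 1, 5, 4, 0, 0, 1, 3, 2] := lost_of _ [(6, 7, [1, 0, 1, 5, 4, 6, 7, 1, 3,
    2]), (5, 7, [1, 0, 1, 5, 4, 7, 6, 1, 3, 2])] (by decide +kernel) (fcons n169 (fcons n170 fnil))

theorem n172 : Lost [1, 0, 1, 5, 6, 4, 7, 1, 3, 2] := lost_of _ [] (by decide +kernel) fnil

theorem n173 : Lost [1, 0, 1, 5, 7, 4, 6, 1, 3, 2] := lost_of _ [] (by decide +kernel) fnil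

theorem n174 : Lost [1, 0, 1, 5, 0, 4, 0, 1, 3, 2] := lost_of _ [(6, 7, [1, 0, 1, 5, 6, 4, 7, 1, 3,
    2]), (4, 7, [1, 0, 1, 5, 7, 4, 6, 1, 3, 2])] (by decide +kernel) (fcons n172 (fcons n173 fnil))

theorem n175 : Lost [1, 0, 1, 5, 6, 7, 4, 1, 3, 2] := lost_of _ [] (by decide +kernel) fnil

theorem n176 : Lost [1, 0, 1, 5, 7, 6, 4, 1, 3, 2] := lost_of _ [] (by decide +kernel) fnil

theorem n177 : Lost [1, 0, 1, 5, 0, 0, 4, 1, 3, 2] := lost_of _ [(5, 7, [1, 0, 1, 5, 6, 7, 4, 1, 3,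
    2]), (4, 7, [1, 0, 1, 5, 7, 6, 4, 1, 3, 2])] (by decide +kernel) (fcons n175 (fcons n176 fnil))

theorem n178 : Lost [1, 0, 1, 0, 0, 0, 0, 1, 3, 2] := lost_of _ [(4, 5, [1, 0, 1, 4, 5, 0, 0, 1, 3,
    2]), (3, 5, [1, 0, 1, 5, 4, 0, 0, 1, 3, 2]), (3, 5, [1, 0, 1, 5, 0, 4, 0, 1, 3, 2]), (3, 5, [1,
    0, 1, 5, 0, 0, 4, 1, 3, 2])] (by decide +kernel) (fcons n168 (fcons n171 (fcons n174 (fcons n177
    fnil))))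

theorem n179 : Lost [1, 0, 1, 0, 0, 0, 0, 0, 0, 2] := lost_of _ [(6, 2, [1, 0, 1, 2, 0, 0, 2, 0, 0,
    2]), (7, 1, [1, 0, 1, 3, 0, 0, 0, 1, 0, 2]), (8, 2, [1, 0, 1, 0, 2, 0, 0, 0, 2, 2]), (6, 2, [1,
    0, 1, 0, 3, 0, 2, 0, 0, 2]), (6, 2, [1, 0, 1, 0, 0, 1, 2, 0, 0, 2]), (3, 2, [1, 0, 1, 2, 0, 2,
    0, 0, 0, 2]), (6, 3, [1, 0, 1, 0, 0, 3, 3, 0, 0, 2]), (5, 2, [1, 0, 1, 0, 0, 2, 1, 0, 0, 2]),
    (3, 2, [1, 0, 1, 2, 0, 0, 2, 0, 0, 2]), (5, 3, [1, 0, 1, 0, 0, 3, 3, 0, 0, 2]), (3, 3, [1, 0, 1,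
    3, 0, 0, 0, 1, 0, 2]), (3, 2, [1, 0, 1, 2, 0, 0, 0, 2, 0, 2]), (4, 3, [1, 0, 1, 0, 3, 0, 0, 3,
    0, 2]), (5, 1, [1, 0, 1, 0, 0, 1, 0, 0, 1, 2]), (4, 2, [1, 0, 1, 0, 2, 0, 0, 0, 2, 2]), (7, 1,
    [1, 0, 1, 0, 0, 0, 0, 1, 3, 2])] (by decide +kernel) (fcons n128 (fcons n141 (fcons n144 (fcons
    n147 (fcons n148 (fcons n151 (fcons n155 (fcons n158 (fcons n128 (fcons n155 (fcons n141 (fcons
    n161 (fcons n164 (fcons n165 (fcons n144 (fcons n178 fnil))))))))))))))))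

theorem n180 : Lost [1, 3, 2, 0, 2, 4, 5, 6, 7, 2] := lost_of _ [] (by decide +kernel) fnil

theorem n181 : Lost [1, 3, 2, 0, 2, 4, 5, 7, 6, 2] := lost_of _ [] (by decide +kernel) fnil

theorem n182 : Lost [1, 3, 2, 0, 2, 4, 5, 0, 0, 2] := lost_of _ [(8, 7, [1, 3, 2, 0, 2, 4, 5, 6, 7,
    2]), (7, 7, [1, 3, 2, 0, 2, 4, 5, 7, 6, 2])] (by decide +kernel) (fcons n180 (fcons n181 fnil))

theorem n183 : Lost [1, 3, 2, 0, 2, 5, 4, 6, 7, 2] := lost_of _ [] (by decide +kernel) fnil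

theorem n184 : Lost [1, 3, 2, 0, 2, 5, 4, 7, 6, 2] := lost_of _ [] (by decide +kernel) fnil

theorem n185 : Lost [1, 3, 2, 0, 2, 5, 4, 0, 0, 2] := lost_of _ [(8, 7, [1, 3, 2, 0, 2, 5, 4, 6, 7,
    2]), (7, 7, [1, 3, 2, 0, 2, 5, 4, 7, 6, 2])] (by decide +kernel) (fcons n183 (fcons n184 fnil))

theorem n186 : Lost [1, 3, 2, 0, 2, 5, 6, 4, 7, 2] := lost_of _ [] (by decide +kernel) fnil

theorem n187 : Lost [1, 3, 2, 0, 2, 5, 7, 4, 6, 2] := lost_of _ [] (by decide +kernel) fnil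

theorem n188 : Lost [1, 3, 2, 0, 2, 5, 0, 4, 0, 2] := lost_of _ [(8, 7, [1, 3, 2, 0, 2, 5, 6, 4, 7,
    2]), (6, 7, [1, 3, 2, 0, 2, 5, 7, 4, 6, 2])] (by decide +kernel) (fcons n186 (fcons n187 fnil))

theorem n189 : Lost [1, 3, 2, 0, 2, 5, 6, 7, 4, 2] := lost_of _ [] (by decide +kernel) fnil

theorem n190 : Lost [1, 3, 2, 0, 2, 5, 7, 6, 4, 2] := lost_of _ [] (by decide +kernel) fnil

theorem n191 : Lost [1, 3, 2, 0, 2, 5, 0, 0, 4, 2] := lost_of _ [(7, 7, [1, 3, 2, 0, 2, 5, 6, 7, 4,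
    2]), (6, 7, [1, 3, 2, 0, 2, 5, 7, 6, 4, 2])] (by decide +kernel) (fcons n189 (fcons n190 fnil))

theorem n192 : Lost [1, 3, 2, 0, 2, 0, 0, 0, 0, 2] := lost_of _ [(6, 5, [1, 3, 2, 0, 2, 4, 5, 0, 0,
    2]), (5, 5, [1, 3, 2, 0, 2, 5, 4, 0, 0, 2]), (5, 5, [1, 3, 2, 0, 2, 5, 0, 4, 0, 2]), (5, 5, [1,
    3, 2, 0, 2, 5, 0, 0, 4, 2])] (by decide +kernel) (fcons n182 (fcons n185 (fcons n188 (fcons n191
    fnil))))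

theorem n193 : Lost [1, 0, 2, 2, 0, 0, 2, 0, 0, 2] := lost_of _ [] (by decide +kernel) fnil

theorem n194 : Lost [1, 4, 2, 3, 0, 5, 2, 0, 0, 2] := lost_of _ [] (by decide +kernel) fnil

theorem n195 : Lost [1, 5, 2, 3, 0, 4, 2, 0, 0, 2] := lost_of _ [] (by decide +kernel) fnil

theorem n196 : Lost [1, 0, 2, 3, 0, 0, 2, 0, 0, 2] := lost_of _ [(5, 5, [1, 4, 2, 3, 0, 5, 2, 0, 0,
    2]), (1, 5, [1, 5, 2, 3, 0, 4, 2, 0, 0, 2])] (by decide +kernel) (fcons n194 (fcons n195 fnil))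

theorem n197 : Lost [1, 4, 2, 5, 3, 0, 3, 6, 7, 2] := lost_of _ [] (by decide +kernel) fnil

theorem n198 : Lost [1, 4, 2, 5, 3, 0, 3, 7, 6, 2] := lost_of _ [] (by decide +kernel) fnil

theorem n199 : Lost [1, 4, 2, 5, 3, 0, 3, 0, 0, 2] := lost_of _ [(8, 7, [1, 4, 2, 5, 3, 0, 3, 6, 7,
    2]), (7, 7, [1, 4, 2, 5, 3, 0, 3, 7, 6, 2])] (by decide +kernel) (fcons n197 (fcons n198 fnil))

theorem n200 : Lost [1, 5, 2, 4, 3, 0, 3, 6, 7, 2] := lost_of _ [] (by decide +kernel) fnil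

theorem n201 : Lost [1, 5, 2, 4, 3, 0, 3, 7, 6, 2] := lost_of _ [] (by decide +kernel) fnil

theorem n202 : Lost [1, 5, 2, 4, 3, 0, 3, 0, 0, 2] := lost_of _ [(8, 7, [1, 5, 2, 4, 3, 0, 3, 6, 7,
    2]), (7, 7, [1, 5, 2, 4, 3, 0, 3, 7, 6, 2])] (by decide +kernel) (fcons n200 (fcons n201 fnil))

theorem n203 : Lost [1, 5, 2, 6, 3, 0, 3, 4, 7, 2] := lost_of _ [] (by decide +kernel) fnil

theorem n204 : Lost [1, 5, 2, 7, 3, 0, 3, 4, 6, 2] := lost_of _ [] (by decide +kernel) fnil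

theorem n205 : Lost [1, 5, 2, 0, 3, 0, 3, 4, 0, 2] := lost_of _ [(8, 7, [1, 5, 2, 6, 3, 0, 3, 4, 7,
    2]), (3, 7, [1, 5, 2, 7, 3, 0, 3, 4, 6, 2])] (by decide +kernel) (fcons n203 (fcons n204 fnil))

theorem n206 : Lost [1, 5, 2, 6, 3, 0, 3, 7, 4, 2] := lost_of _ [] (by decide +kernel) fnil

theorem n207 : Lost [1, 5, 2, 7, 3, 0, 3, 6, 4, 2] := lost_of _ [] (by decide +kernel) fnil

theorem n208 : Lost [1, 5, 2, 0, 3, 0, 3, 0, 4, 2] := lost_of _ [(7, 7, [1, 5, 2, 6, 3, 0, 3, 7, 4,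
    2]), (3, 7, [1, 5, 2, 7, 3, 0, 3, 6, 4, 2])] (by decide +kernel) (fcons n206 (fcons n207 fnil))

theorem n209 : Lost [1, 0, 2, 0, 3, 0, 3, 0, 0, 2] := lost_of _ [(3, 5, [1, 4, 2, 5, 3, 0, 3, 0, 0,
    2]), (1, 5, [1, 5, 2, 4, 3, 0, 3, 0, 0, 2]), (1, 5, [1, 5, 2, 0, 3, 0, 3, 4, 0, 2]), (1, 5, [1,
    5, 2, 0, 3, 0, 3, 0, 4, 2])] (by decide +kernel) (fcons n199 (fcons n202 (fcons n205 (fcons n208
    fnil))))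

theorem n210 : Lost [1, 3, 2, 4, 5, 1, 6, 0, 2, 2] := lost_of _ [] (by decide +kernel) fnil

theorem n211 : Lost [1, 3, 2, 4, 6, 1, 5, 0, 2, 2] := lost_of _ [] (by decide +kernel) fnil

theorem n212 : Lost [1, 3, 2, 4, 0, 1, 0, 0, 2, 2] := lost_of _ [(6, 6, [1, 3, 2, 4, 5, 1, 6, 0, 2,
    2]), (4, 6, [1, 3, 2, 4, 6, 1, 5, 0, 2, 2])] (by decide +kernel) (fcons n210 (fcons n211 fnil))

theorem n213 : Lost [1, 4, 2, 3, 5, 1, 6, 0, 2, 2] := lost_of _ [] (by decide +kernel) fnil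

theorem n214 : Lost [1, 4, 2, 3, 6, 1, 5, 0, 2, 2] := lost_of _ [] (by decide +kernel) fnil

theorem n215 : Lost [1, 4, 2, 3, 0, 1, 0, 0, 2, 2] := lost_of _ [(6, 6, [1, 4, 2, 3, 5, 1, 6, 0, 2,
    2]), (4, 6, [1, 4, 2, 3, 6, 1, 5, 0, 2, 2])] (by decide +kernel) (fcons n213 (fcons n214 fnil))

theorem n216 : Lost [1, 4, 2, 5, 3, 1, 6, 0, 2, 2] := lost_of _ [] (by decide +kernel) fnil

theorem n217 : Lost [1, 4, 2, 6, 3, 1, 5, 0, 2, 2] := lost_of _ [] (by decide +kernel) fnil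

theorem n218 : Lost [1, 4, 2, 0, 3, 1, 0, 0, 2, 2] := lost_of _ [(6, 6, [1, 4, 2, 5, 3, 1, 6, 0, 2,
    2]), (3, 6, [1, 4, 2, 6, 3, 1, 5, 0, 2, 2])] (by decide +kernel) (fcons n216 (fcons n217 fnil))

theorem n219 : Lost [1, 4, 2, 5, 6, 1, 3, 0, 2, 2] := lost_of _ [] (by decide +kernel) fnil

theorem n220 : Lost [1, 4, 2, 6, 5, 1, 3, 0, 2, 2] := lost_of _ [] (by decide +kernel) fnil

theorem n221 : Lost [1, 4, 2, 0, 0, 1, 3, 0, 2, 2] := lost_of _ [(4, 6, [1, 4, 2, 5, 6, 1, 3, 0, 2,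
    2]), (3, 6, [1, 4, 2, 6, 5, 1, 3, 0, 2, 2])] (by decide +kernel) (fcons n219 (fcons n220 fnil))

theorem n222 : Lost [1, 0, 2, 0, 0, 1, 0, 0, 2, 2] := lost_of _ [(3, 4, [1, 3, 2, 4, 0, 1, 0, 0, 2,
    2]), (1, 4, [1, 4, 2, 3, 0, 1, 0, 0, 2, 2]), (1, 4, [1, 4, 2, 0, 3, 1, 0, 0, 2, 2]), (1, 4, [1,
    4, 2, 0, 0, 1, 3, 0, 2, 2])] (by decide +kernel) (fcons n212 (fcons n215 (fcons n218 (fcons n221
    fnil))))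

theorem n223 : Lost [1, 4, 2, 0, 0, 2, 3, 0, 5, 2] := lost_of _ [] (by decide +kernel) fnil

theorem n224 : Lost [1, 5, 2, 0, 0, 2, 3, 0, 4, 2] := lost_of _ [] (by decide +kernel) fnil

theorem n225 : Lost [1, 0, 2, 0, 0, 2, 3, 0, 0, 2] := lost_of _ [(8, 5, [1, 4, 2, 0, 0, 2, 3, 0, 5,
    2]), (1, 5, [1, 5, 2, 0, 0, 2, 3, 0, 4, 2])] (by decide +kernel) (fcons n223 (fcons n224 fnil))

theorem n226 : Lost [1, 4, 2, 5, 0, 3, 2, 0, 0, 2] := lost_of _ [] (by decide +kernel) fnil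

theorem n227 : Lost [1, 5, 2, 4, 0, 3, 2, 0, 0, 2] := lost_of _ [] (by decide +kernel) fnil

theorem n228 : Lost [1, 0, 2, 0, 0, 3, 2, 0, 0, 2] := lost_of _ [(3, 5, [1, 4, 2, 5, 0, 3, 2, 0, 0,
    2]), (1, 5, [1, 5, 2, 4, 0, 3, 2, 0, 0, 2])] (by decide +kernel) (fcons n226 (fcons n227 fnil))

theorem n229 : Lost [1, 4, 2, 5, 3, 6, 1, 7, 0, 2] := lost_of _ [] (by decide +kernel) fnil

theorem n230 : Lost [1, 4, 2, 5, 3, 7, 1, 6, 0, 2] := lost_of _ [] (by decide +kernel) fnil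

theorem n231 : Lost [1, 4, 2, 5, 3, 7, 1, 0, 6, 2] := lost_of _ [] (by decide +kernel) fnil

theorem n232 : Lost [1, 4, 2, 5, 3, 0, 1, 0, 0, 2] := lost_of _ [(7, 7, [1, 4, 2, 5, 3, 6, 1, 7, 0,
    2]), (5, 7, [1, 4, 2, 5, 3, 7, 1, 6, 0, 2]), (5, 7, [1, 4, 2, 5, 3, 7, 1, 0, 6, 2])]
    (by decide +kernel) (fcons n229 (fcons n230 (fcons n231 fnil)))

theorem n233 : Lost [1, 5, 2, 4, 3, 6, 1, 7, 0, 2] := lost_of _ [] (by decide +kernel) fnil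

theorem n234 : Lost [1, 5, 2, 4, 3, 7, 1, 6, 0, 2] := lost_of _ [] (by decide +kernel) fnil

theorem n235 : Lost [1, 5, 2, 4, 3, 7, 1, 0, 6, 2] := lost_of _ [] (by decide +kernel) fnil

theorem n236 : Lost [1, 5, 2, 4, 3, 0, 1, 0, 0, 2] := lost_of _ [(7, 7, [1, 5, 2, 4, 3, 6, 1, 7, 0,
    2]), (5, 7, [1, 5, 2, 4, 3, 7, 1, 6, 0, 2]), (5, 7, [1, 5, 2, 4, 3, 7, 1, 0, 6, 2])]
    (by decide +kernel) (fcons n233 (fcons n234 (fcons n235 fnil)))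

theorem n237 : Lost [1, 5, 2, 6, 3, 4, 1, 7, 0, 2] := lost_of _ [] (by decide +kernel) fnil

theorem n238 : Lost [1, 5, 2, 7, 3, 4, 1, 6, 0, 2] := lost_of _ [] (by decide +kernel) fnil

theorem n239 : Lost [1, 5, 2, 7, 3, 4, 1, 0, 6, 2] := lost_of _ [] (by decide +kernel) fnil

theorem n240 : Lost [1, 5, 2, 0, 3, 4, 1, 0, 0, 2] := lost_of _ [(7, 7, [1, 5, 2, 6, 3, 4, 1, 7, 0,
    2]), (3, 7, [1, 5, 2, 7, 3, 4, 1, 6, 0, 2]), (3, 7, [1, 5, 2, 7, 3, 4, 1, 0, 6, 2])]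
    (by decide +kernel) (fcons n237 (fcons n238 (fcons n239 fnil)))

theorem n241 : Lost [1, 5, 2, 6, 3, 7, 1, 4, 0, 2] := lost_of _ [] (by decide +kernel) fnil

theorem n242 : Lost [1, 5, 2, 7, 3, 6, 1, 4, 0, 2] := lost_of _ [] (by decide +kernel) fnil

theorem n243 : Lost [1, 5, 2, 7, 3, 0, 1, 4, 6, 2] := lost_of _ [] (by decide +kernel) fnil

theorem n244 : Lost [1, 5, 2, 0, 3, 0, 1, 4, 0, 2] := lost_of _ [(5, 7, [1, 5, 2, 6, 3, 7, 1, 4, 0,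
    2]), (3, 7, [1, 5, 2, 7, 3, 6, 1, 4, 0, 2]), (3, 7, [1, 5, 2, 7, 3, 0, 1, 4, 6, 2])]
    (by decide +kernel) (fcons n241 (fcons n242 (fcons n243 fnil)))

theorem n245 : Lost [1, 5, 2, 6, 3, 7, 1, 0, 4, 2] := lost_of _ [] (by decide +kernel) fnil

theorem n246 : Lost [1, 5, 2, 7, 3, 6, 1, 0, 4, 2] := lost_of _ [] (by decide +kernel) fnil

theorem n247 : Lost [1, 5, 2, 7, 3, 0, 1, 6, 4, 2] := lost_of _ [] (by decide +kernel) fnil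

theorem n248 : Lost [1, 5, 2, 0, 3, 0, 1, 0, 4, 2] := lost_of _ [(5, 7, [1, 5, 2, 6, 3, 7, 1, 0, 4,
    2]), (3, 7, [1, 5, 2, 7, 3, 6, 1, 0, 4, 2]), (3, 7, [1, 5, 2, 7, 3, 0, 1, 6, 4, 2])]
    (by decide +kernel) (fcons n245 (fcons n246 (fcons n247 fnil)))

theorem n249 : Lost [1, 0, 2, 0, 3, 0, 1, 0, 0, 2] := lost_of _ [(3, 5, [1, 4, 2, 5, 3, 0, 1, 0, 0,
    2]), (1, 5, [1, 5, 2, 4, 3, 0, 1, 0, 0, 2]), (1, 5, [1, 5, 2, 0, 3, 4, 1, 0, 0, 2]), (1, 5, [1,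
    5, 2, 0, 3, 0, 1, 4, 0, 2]), (1, 5, [1, 5, 2, 0, 3, 0, 1, 0, 4, 2])] (by decide +kernel) (fcons
    n232 (fcons n236 (fcons n240 (fcons n244 (fcons n248 fnil)))))

theorem n250 : Lost [1, 3, 2, 4, 5, 6, 7, 2, 0, 2] := lost_of _ [] (by decide +kernel) fnil

theorem n251 : Lost [1, 3, 2, 4, 5, 7, 6, 2, 0, 2] := lost_of _ [] (by decide +kernel) fnil

theorem n252 : Lost [1, 3, 2, 4, 5, 0, 0, 2, 0, 2] := lost_of _ [(6, 7, [1, 3, 2, 4, 5, 6, 7, 2, 0,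
    2]), (5, 7, [1, 3, 2, 4, 5, 7, 6, 2, 0, 2])] (by decide +kernel) (fcons n250 (fcons n251 fnil))

theorem n253 : Lost [1, 3, 2, 5, 4, 6, 7, 2, 0, 2] := lost_of _ [] (by decide +kernel) fnil

theorem n254 : Lost [1, 3, 2, 5, 4, 7, 6, 2, 0, 2] := lost_of _ [] (by decide +kernel) fnil

theorem n255 : Lost [1, 3, 2, 5, 4, 0, 0, 2, 0, 2] := lost_of _ [(6, 7, [1, 3, 2, 5, 4, 6, 7, 2, 0,
    2]), (5, 7, [1, 3, 2, 5, 4, 7, 6, 2, 0, 2])] (by decide +kernel) (fcons n253 (fcons n254 fnil))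

theorem n256 : Lost [1, 3, 2, 5, 6, 4, 7, 2, 0, 2] := lost_of _ [] (by decide +kernel) fnil

theorem n257 : Lost [1, 3, 2, 5, 7, 4, 6, 2, 0, 2] := lost_of _ [] (by decide +kernel) fnil

theorem n258 : Lost [1, 3, 2, 5, 0, 4, 0, 2, 0, 2] := lost_of _ [(6, 7, [1, 3, 2, 5, 6, 4, 7, 2, 0,
    2]), (4, 7, [1, 3, 2, 5, 7, 4, 6, 2, 0, 2])] (by decide +kernel) (fcons n256 (fcons n257 fnil))

theorem n259 : Lost [1, 3, 2, 5, 6, 7, 4, 2, 0, 2] := lost_of _ [] (by decide +kernel) fnil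

theorem n260 : Lost [1, 3, 2, 5, 7, 6, 4, 2, 0, 2] := lost_of _ [] (by decide +kernel) fnil

theorem n261 : Lost [1, 3, 2, 5, 0, 0, 4, 2, 0, 2] := lost_of _ [(5, 7, [1, 3, 2, 5, 6, 7, 4, 2, 0,
    2]), (4, 7, [1, 3, 2, 5, 7, 6, 4, 2, 0, 2])] (by decide +kernel) (fcons n259 (fcons n260 fnil))

theorem n262 : Lost [1, 3, 2, 0, 0, 0, 0, 2, 0, 2] := lost_of _ [(4, 5, [1, 3, 2, 4, 5, 0, 0, 2, 0,
    2]), (3, 5, [1, 3, 2, 5, 4, 0, 0, 2, 0, 2]), (3, 5, [1, 3, 2, 5, 0, 4, 0, 2, 0, 2]), (3, 5, [1,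
    3, 2, 5, 0, 0, 4, 2, 0, 2])] (by decide +kernel) (fcons n252 (fcons n255 (fcons n258 (fcons n261
    fnil))))

theorem n263 : Lost [1, 4, 2, 0, 2, 5, 6, 3, 7, 2] := lost_of _ [] (by decide +kernel) fnil

theorem n264 : Lost [1, 4, 2, 0, 2, 5, 7, 3, 6, 2] := lost_of _ [] (by decide +kernel) fnil

theorem n265 : Lost [1, 4, 2, 0, 2, 5, 0, 3, 0, 2] := lost_of _ [(8, 7, [1, 4, 2, 0, 2, 5, 6, 3, 7,
    2]), (6, 7, [1, 4, 2, 0, 2, 5, 7, 3, 6, 2])] (by decide +kernel) (fcons n263 (fcons n264 fnil))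

theorem n266 : Lost [1, 5, 2, 0, 2, 4, 6, 3, 7, 2] := lost_of _ [] (by decide +kernel) fnil

theorem n267 : Lost [1, 5, 2, 0, 2, 4, 7, 3, 6, 2] := lost_of _ [] (by decide +kernel) fnil

theorem n268 : Lost [1, 5, 2, 0, 2, 4, 0, 3, 0, 2] := lost_of _ [(8, 7, [1, 5, 2, 0, 2, 4, 6, 3, 7,
    2]), (6, 7, [1, 5, 2, 0, 2, 4, 7, 3, 6, 2])] (by decide +kernel) (fcons n266 (fcons n267 fnil))

theorem n269 : Lost [1, 5, 2, 0, 2, 6, 4, 3, 7, 2] := lost_of _ [] (by decide +kernel) fnil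

theorem n270 : Lost [1, 5, 2, 0, 2, 7, 4, 3, 6, 2] := lost_of _ [] (by decide +kernel) fnil

theorem n271 : Lost [1, 5, 2, 0, 2, 0, 4, 3, 0, 2] := lost_of _ [(8, 7, [1, 5, 2, 0, 2, 6, 4, 3, 7,
    2]), (5, 7, [1, 5, 2, 0, 2, 7, 4, 3, 6, 2])] (by decide +kernel) (fcons n269 (fcons n270 fnil))

theorem n272 : Lost [1, 5, 2, 0, 2, 6, 7, 3, 4, 2] := lost_of _ [] (by decide +kernel) fnil

theorem n273 : Lost [1, 5, 2, 0, 2, 7, 6, 3, 4, 2] := lost_of _ [] (by decide +kernel) fnil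

theorem n274 : Lost [1, 5, 2, 0, 2, 0, 0, 3, 4, 2] := lost_of _ [(6, 7, [1, 5, 2, 0, 2, 6, 7, 3, 4,
    2]), (5, 7, [1, 5, 2, 0, 2, 7, 6, 3, 4, 2])] (by decide +kernel) (fcons n272 (fcons n273 fnil))

theorem n275 : Lost [1, 0, 2, 0, 2, 0, 0, 3, 0, 2] := lost_of _ [(5, 5, [1, 4, 2, 0, 2, 5, 0, 3, 0,
    2]), (1, 5, [1, 5, 2, 0, 2, 4, 0, 3, 0, 2]), (1, 5, [1, 5, 2, 0, 2, 0, 4, 3, 0, 2]), (1, 5, [1,
    5, 2, 0, 2, 0, 0, 3, 4, 2])] (by decide +kernel) (fcons n265 (fcons n268 (fcons n271 (fcons n274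
    fnil))))

theorem n276 : Lost [1, 4, 2, 0, 0, 2, 5, 0, 3, 2] := lost_of _ [] (by decide +kernel) fnil

theorem n277 : Lost [1, 5, 2, 0, 0, 2, 4, 0, 3, 2] := lost_of _ [] (by decide +kernel) fnil

theorem n278 : Lost [1, 0, 2, 0, 0, 2, 0, 0, 3, 2] := lost_of _ [(6, 5, [1, 4, 2, 0, 0, 2, 5, 0, 3,
    2]), (1, 5, [1, 5, 2, 0, 0, 2, 4, 0, 3, 2])] (by decide +kernel) (fcons n276 (fcons n277 fnil))

theorem n279 : Lost [1, 0, 2, 0, 0, 0, 0, 0, 0, 2] := lost_of _ [(4, 2, [1, 3, 2, 0, 2, 0, 0, 0, 0,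
    2]), (6, 2, [1, 0, 2, 2, 0, 0, 2, 0, 0, 2]), (6, 2, [1, 0, 2, 3, 0, 0, 2, 0, 0, 2]), (1, 3, [1,
    3, 2, 0, 2, 0, 0, 0, 0, 2]), (6, 3, [1, 0, 2, 0, 3, 0, 3, 0, 0, 2]), (8, 2, [1, 0, 2, 0, 0, 1,
    0, 0, 2, 2]), (6, 3, [1, 0, 2, 0, 0, 2, 3, 0, 0, 2]), (6, 2, [1, 0, 2, 0, 0, 3, 2, 0, 0, 2]),
    (4, 3, [1, 0, 2, 0, 3, 0, 1, 0, 0, 2]), (3, 2, [1, 0, 2, 2, 0, 0, 2, 0, 0, 2]), (5, 2, [1, 0, 2,
    0, 0, 2, 3, 0, 0, 2]), (1, 3, [1, 3, 2, 0, 0, 0, 0, 2, 0, 2]), (4, 2, [1, 0, 2, 0, 2, 0, 0, 3,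
    0, 2]), (5, 1, [1, 0, 2, 0, 0, 1, 0, 0, 2, 2]), (5, 2, [1, 0, 2, 0, 0, 2, 0, 0, 3, 2])]
    (by decide +kernel) (fcons n192 (fcons n193 (fcons n196 (fcons n192 (fcons n209 (fcons n222
    (fcons n225 (fcons n228 (fcons n249 (fcons n193 (fcons n225 (fcons n262 (fcons n275 (fcons n222
    (fcons n278 fnil)))))))))))))))

theorem n280 : Lost [1, 0, 0, 1, 2, 3, 0, 3, 4, 5] := lost_of _ [] (by decide +kernel) fnil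

theorem n281 : Lost [1, 0, 0, 1, 2, 3, 0, 3, 5, 4] := lost_of _ [] (by decide +kernel) fnil

theorem n282 : Lost [1, 0, 0, 1, 2, 3, 0, 3, 0, 0] := lost_of _ [(9, 5, [1, 0, 0, 1, 2, 3, 0, 3, 4,
    5]), (8, 5, [1, 0, 0, 1, 2, 3, 0, 3, 5, 4])] (by decide +kernel) (fcons n280 (fcons n281 fnil))

theorem n283 : Lost [1, 0, 0, 1, 2, 0, 2, 0, 0, 2] := lost_of _ [] (by decide +kernel) fnil

theorem n284 : Lost [1, 0, 0, 1, 2, 4, 3, 0, 3, 1] := lost_of _ [] (by decide +kernel) fnil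

theorem n285 : Lost [1, 0, 0, 1, 2, 5, 3, 0, 3, 4] := lost_of _ [] (by decide +kernel) fnil

theorem n286 : Lost [1, 0, 0, 1, 2, 0, 3, 0, 3, 0] := lost_of _ [(9, 1, [1, 0, 0, 1, 2, 4, 3, 0, 3,
    1]), (5, 4, [1, 0, 0, 1, 2, 4, 3, 0, 3, 1]), (5, 5, [1, 0, 0, 1, 2, 5, 3, 0, 3, 4])]
    (by decide +kernel) (fcons n284 (fcons n284 (fcons n285 fnil)))

theorem n287 : Lost [1, 0, 0, 1, 2, 0, 0, 1, 1, 0] := lost_of _ [] (by decide +kernel) fnil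

theorem n288 : Lost [1, 0, 0, 1, 2, 0, 0, 2, 2, 0] := lost_of _ [] (by decide +kernel) fnil

theorem n289 : Lost [1, 0, 0, 1, 2, 0, 4, 1, 3, 5] := lost_of _ [] (by decide +kernel) fnil

theorem n290 : Lost [1, 0, 0, 1, 2, 0, 5, 1, 3, 4] := lost_of _ [] (by decide +kernel) fnil

theorem n291 : Lost [1, 0, 0, 1, 2, 0, 0, 1, 3, 0] := lost_of _ [(9, 5, [1, 0, 0, 1, 2, 0, 4, 1, 3,
    5]), (6, 5, [1, 0, 0, 1, 2, 0, 5, 1, 3, 4])] (by decide +kernel) (fcons n289 (fcons n290 fnil))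

theorem n292 : Lost [1, 0, 0, 1, 2, 0, 2, 3, 4, 1] := lost_of _ [] (by decide +kernel) fnil

theorem n293 : Lost [1, 0, 0, 1, 2, 0, 2, 4, 3, 1] := lost_of _ [] (by decide +kernel) fnil

theorem n294 : Lost [1, 0, 0, 1, 2, 0, 2, 0, 0, 1] := lost_of _ [(8, 4, [1, 0, 0, 1, 2, 0, 2, 3, 4,
    1]), (7, 4, [1, 0, 0, 1, 2, 0, 2, 4, 3, 1])] (by decide +kernel) (fcons n292 (fcons n293 fnil))

theorem n295 : Lost [1, 0, 0, 1, 2, 0, 4, 1, 5, 3] := lost_of _ [] (by decide +kernel) fnil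

theorem n296 : Lost [1, 0, 0, 1, 2, 0, 5, 1, 4, 3] := lost_of _ [] (by decide +kernel) fnil

theorem n297 : Lost [1, 0, 0, 1, 2, 0, 0, 1, 0, 3] := lost_of _ [(8, 5, [1, 0, 0, 1, 2, 0, 4, 1, 5,
    3]), (6, 5, [1, 0, 0, 1, 2, 0, 5, 1, 4, 3])] (by decide +kernel) (fcons n295 (fcons n296 fnil))

theorem n298 : Lost [1, 0, 0, 1, 2, 0, 0, 0, 0, 0] := lost_of _ [(7, 3, [1, 0, 0, 1, 2, 3, 0, 3, 0,
    0]), (9, 2, [1, 0, 0, 1, 2, 0, 2, 0, 0, 2]), (8, 3, [1, 0, 0, 1, 2, 0, 3, 0, 3, 0]), (8, 1, [1,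
    0, 0, 1, 2, 0, 0, 1, 1, 0]), (8, 2, [1, 0, 0, 1, 2, 0, 0, 2, 2, 0]), (5, 3, [1, 0, 0, 1, 2, 3,
    0, 3, 0, 0]), (7, 1, [1, 0, 0, 1, 2, 0, 0, 1, 1, 0]), (7, 2, [1, 0, 0, 1, 2, 0, 0, 2, 2, 0]),
    (7, 1, [1, 0, 0, 1, 2, 0, 0, 1, 3, 0]), (6, 2, [1, 0, 0, 1, 2, 0, 2, 0, 0, 1]), (6, 2, [1, 0, 0,
    1, 2, 0, 2, 0, 0, 2]), (7, 1, [1, 0, 0, 1, 2, 0, 0, 1, 0, 3])] (by decide +kernel) (fcons n282
    (fcons n283 (fcons n286 (fcons n287 (fcons n288 (fcons n282 (fcons n287 (fcons n288 (fcons n291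
    (fcons n294 (fcons n283 (fcons n297 fnil))))))))))))

theorem n299 : Lost [1, 1, 0, 2, 0, 2, 3, 0, 4, 2] := lost_of _ [] (by decide +kernel) fnil

end Q128.Ladder
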