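import Pool.Agent.Q128.LadderTree2

/-!
# The edge-distinguishing game on `T_10`: positions 300 to 449
-/

set_option autoImplicit false

namespace Q128.Ladder

theorem n300 : Lost [1, 1, 0, 2, 0, 2, 4, 0, 3, 2] := lost_of _ [] (by decide +kernel) fnil

theorem n301 : Lost [1, 1, 0, 2, 0, 2, 0, 0, 0, 2] := lost_of _ [(8, 4, [1, 1, 0, 2, 0, 2, 3, 0, 4,
    2]), (6, 4, [1, 1, 0, 2, 0, 2, 4, 0, 3, 2])] (by decide +kernel) (fcons n299 (fcons n300 fnil))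

theorem n302 : Lost [1, 3, 4, 2, 0, 2, 0, 0, 2, 1] := lost_of _ [] (by decide +kernel) fnil

theorem n303 : Lost [1, 3, 5, 2, 0, 2, 0, 0, 2, 4] := lost_of _ [] (by decide +kernel) fnil

theorem n304 : Lost [1, 3, 0, 2, 0, 2, 0, 0, 2, 0] := lost_of _ [(9, 1, [1, 3, 4, 2, 0, 2, 0, 0, 2,
    1]), (2, 4, [1, 3, 4, 2, 0, 2, 0, 0, 2, 1]), (2, 5, [1, 3, 5, 2, 0, 2, 0, 0, 2, 4])]
    (by decide +kernel) (fcons n302 (fcons n302 (fcons n303 fnil)))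

theorem n305 : Lost [1, 4, 3, 2, 0, 2, 0, 0, 2, 1] := lost_of _ [] (by decide +kernel) fnil

theorem n306 : Lost [1, 5, 3, 2, 0, 2, 0, 0, 2, 4] := lost_of _ [] (by decide +kernel) fnil

theorem n307 : Lost [1, 0, 3, 2, 0, 2, 0, 0, 2, 0] := lost_of _ [(9, 1, [1, 4, 3, 2, 0, 2, 0, 0, 2,
    1]), (1, 4, [1, 4, 3, 2, 0, 2, 0, 0, 2, 1]), (1, 5, [1, 5, 3, 2, 0, 2, 0, 0, 2, 4])]
    (by decide +kernel) (fcons n305 (fcons n305 (fcons n306 fnil)))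

theorem n308 : Lost [1, 3, 4, 2, 0, 2, 1, 0, 0, 1] := lost_of _ [] (by decide +kernel) fnil

theorem n309 : Lost [1, 4, 3, 2, 0, 2, 1, 0, 0, 1] := lost_of _ [] (by decide +kernel) fnil

theorem n310 : Lost [1, 0, 0, 2, 0, 2, 1, 0, 0, 1] := lost_of _ [(2, 4, [1, 3, 4, 2, 0, 2, 1, 0, 0,
    1]), (1, 4, [1, 4, 3, 2, 0, 2, 1, 0, 0, 1])] (by decide +kernel) (fcons n308 (fcons n309 fnil))

theorem n311 : Lost [1, 1, 0, 2, 0, 2, 3, 4, 0, 4] := lost_of _ [] (by decide +kernel) fnil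

theorem n312 : Lost [1, 5, 6, 2, 0, 2, 3, 4, 1, 7] := lost_of _ [] (by decide +kernel) fnil

theorem n313 : Lost [1, 5, 7, 2, 0, 2, 3, 4, 1, 6] := lost_of _ [] (by decide +kernel) fnil

theorem n314 : Lost [1, 5, 0, 2, 0, 2, 3, 4, 1, 0] := lost_of _ [(9, 7, [1, 5, 6, 2, 0, 2, 3, 4, 1,
    7]), (2, 7, [1, 5, 7, 2, 0, 2, 3, 4, 1, 6])] (by decide +kernel) (fcons n312 (fcons n313 fnil))

theorem n315 : Lost [1, 0, 1, 2, 0, 2, 3, 4, 0, 4] := lost_of _ [] (by decide +kernel) fnil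

theorem n316 : Lost [1, 6, 5, 2, 0, 2, 3, 4, 1, 7] := lost_of _ [] (by decide +kernel) fnil

theorem n317 : Lost [1, 7, 5, 2, 0, 2, 3, 4, 1, 6] := lost_of _ [] (by decide +kernel) fnil

theorem n318 : Lost [1, 0, 5, 2, 0, 2, 3, 4, 1, 0] := lost_of _ [(9, 7, [1, 6, 5, 2, 0, 2, 3, 4, 1,
    7]), (1, 7, [1, 7, 5, 2, 0, 2, 3, 4, 1, 6])] (by decide +kernel) (fcons n316 (fcons n317 fnil))

theorem n319 : Lost [1, 5, 6, 2, 0, 2, 3, 4, 5, 7] := lost_of _ [] (by decide +kernel) fnil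

theorem n320 : Lost [1, 5, 7, 2, 0, 2, 3, 4, 5, 6] := lost_of _ [] (by decide +kernel) fnil

theorem n321 : Lost [1, 5, 0, 2, 0, 2, 3, 4, 5, 0] := lost_of _ [(9, 7, [1, 5, 6, 2, 0, 2, 3, 4, 5,
    7]), (2, 7, [1, 5, 7, 2, 0, 2, 3, 4, 5, 6])] (by decide +kernel) (fcons n319 (fcons n320 fnil))

theorem n322 : Lost [1, 5, 6, 2, 0, 2, 3, 4, 7, 1] := lost_of _ [] (by decide +kernel) fnil

theorem n323 : Lost [1, 5, 7, 2, 0, 2, 3, 4, 6, 1] := lost_of _ [] (by decide +kernel) fnil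

theorem n324 : Lost [1, 5, 0, 2, 0, 2, 3, 4, 0, 1] := lost_of _ [(8, 7, [1, 5, 6, 2, 0, 2, 3, 4, 7,
    1]), (2, 7, [1, 5, 7, 2, 0, 2, 3, 4, 6, 1])] (by decide +kernel) (fcons n322 (fcons n323 fnil))

theorem n325 : Lost [1, 5, 6, 2, 0, 2, 3, 4, 7, 5] := lost_of _ [] (by decide +kernel) fnil

theorem n326 : Lost [1, 5, 7, 2, 0, 2, 3, 4, 6, 5] := lost_of _ [] (by decide +kernel) fnil

theorem n327 : Lost [1, 5, 0, 2, 0, 2, 3, 4, 0, 5] := lost_of _ [(8, 7, [1, 5, 6, 2, 0, 2, 3, 4, 7,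
    5]), (2, 7, [1, 5, 7, 2, 0, 2, 3, 4, 6, 5])] (by decide +kernel) (fcons n325 (fcons n326 fnil))

theorem n328 : Lost [1, 0, 0, 2, 0, 2, 3, 4, 0, 0] := lost_of _ [(9, 4, [1, 1, 0, 2, 0, 2, 3, 4, 0,
    4]), (8, 1, [1, 5, 0, 2, 0, 2, 3, 4, 1, 0]), (9, 4, [1, 0, 1, 2, 0, 2, 3, 4, 0, 4]), (8, 1, [1,
    0, 5, 2, 0, 2, 3, 4, 1, 0]), (1, 5, [1, 5, 0, 2, 0, 2, 3, 4, 1, 0]), (1, 5, [1, 5, 0, 2, 0, 2,
    3, 4, 5, 0]), (1, 5, [1, 5, 0, 2, 0, 2, 3, 4, 0, 1]), (1, 1, [1, 1, 0, 2, 0, 2, 3, 4, 0, 4]),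
    (1, 5, [1, 5, 0, 2, 0, 2, 3, 4, 0, 5])] (by decide +kernel) (fcons n311 (fcons n314 (fcons n315
    (fcons n318 (fcons n314 (fcons n321 (fcons n324 (fcons n311 (fcons n327 fnil)))))))))

theorem n329 : Lost [1, 3, 4, 2, 0, 2, 0, 1, 1, 0] := lost_of _ [] (by decide +kernel) fnil

theorem n330 : Lost [1, 4, 3, 2, 0, 2, 0, 1, 1, 0] := lost_of _ [] (by decide +kernel) fnil

theorem n331 : Lost [1, 0, 0, 2, 0, 2, 0, 1, 1, 0] := lost_of _ [(2, 4, [1, 3, 4, 2, 0, 2, 0, 1, 1,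
    0]), (1, 4, [1, 4, 3, 2, 0, 2, 0, 1, 1, 0])] (by decide +kernel) (fcons n329 (fcons n330 fnil))

theorem n332 : Lost [1, 1, 0, 2, 0, 2, 4, 3, 0, 3] := lost_of _ [] (by decide +kernel) fnil

theorem n333 : Lost [1, 5, 6, 2, 0, 2, 4, 3, 1, 7] := lost_of _ [] (by decide +kernel) fnil

theorem n334 : Lost [1, 5, 7, 2, 0, 2, 4, 3, 1, 6] := lost_of _ [] (by decide +kernel) fnil

theorem n335 : Lost [1, 5, 0, 2, 0, 2, 4, 3, 1, 0] := lost_of _ [(9, 7, [1, 5, 6, 2, 0, 2, 4, 3, 1,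
    7]), (2, 7, [1, 5, 7, 2, 0, 2, 4, 3, 1, 6])] (by decide +kernel) (fcons n333 (fcons n334 fnil))

theorem n336 : Lost [1, 0, 1, 2, 0, 2, 4, 3, 0, 3] := lost_of _ [] (by decide +kernel) fnil

theorem n337 : Lost [1, 6, 5, 2, 0, 2, 4, 3, 1, 7] := lost_of _ [] (by decide +kernel) fnil

theorem n338 : Lost [1, 7, 5, 2, 0, 2, 4, 3, 1, 6] := lost_of _ [] (by decide +kernel) fnil

theorem n339 : Lost [1, 0, 5, 2, 0, 2, 4, 3, 1, 0] := lost_of _ [(9, 7, [1, 6, 5, 2, 0, 2, 4, 3, 1,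
    7]), (1, 7, [1, 7, 5, 2, 0, 2, 4, 3, 1, 6])] (by decide +kernel) (fcons n337 (fcons n338 fnil))

theorem n340 : Lost [1, 5, 6, 2, 0, 2, 4, 3, 5, 7] := lost_of _ [] (by decide +kernel) fnil

theorem n341 : Lost [1, 5, 7, 2, 0, 2, 4, 3, 5, 6] := lost_of _ [] (by decide +kernel) fnil

theorem n342 : Lost [1, 5, 0, 2, 0, 2, 4, 3, 5, 0] := lost_of _ [(9, 7, [1, 5, 6, 2, 0, 2, 4, 3, 5,
    7]), (2, 7, [1, 5, 7, 2, 0, 2, 4, 3, 5, 6])] (by decide +kernel) (fcons n340 (fcons n341 fnil))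

theorem n343 : Lost [1, 5, 6, 2, 0, 2, 4, 3, 7, 1] := lost_of _ [] (by decide +kernel) fnil

theorem n344 : Lost [1, 5, 7, 2, 0, 2, 4, 3, 6, 1] := lost_of _ [] (by decide +kernel) fnil

theorem n345 : Lost [1, 5, 0, 2, 0, 2, 4, 3, 0, 1] := lost_of _ [(8, 7, [1, 5, 6, 2, 0, 2, 4, 3, 7,
    1]), (2, 7, [1, 5, 7, 2, 0, 2, 4, 3, 6, 1])] (by decide +kernel) (fcons n343 (fcons n344 fnil))

theorem n346 : Lost [1, 5, 6, 2, 0, 2, 4, 3, 7, 5] := lost_of _ [] (by decide +kernel) fnil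

theorem n347 : Lost [1, 5, 7, 2, 0, 2, 4, 3, 6, 5] := lost_of _ [] (by decide +kernel) fnil

theorem n348 : Lost [1, 5, 0, 2, 0, 2, 4, 3, 0, 5] := lost_of _ [(8, 7, [1, 5, 6, 2, 0, 2, 4, 3, 7,
    5]), (2, 7, [1, 5, 7, 2, 0, 2, 4, 3, 6, 5])] (by decide +kernel) (fcons n346 (fcons n347 fnil))

theorem n349 : Lost [1, 0, 0, 2, 0, 2, 4, 3, 0, 0] := lost_of _ [(9, 3, [1, 1, 0, 2, 0, 2, 4, 3, 0,
    3]), (8, 1, [1, 5, 0, 2, 0, 2, 4, 3, 1, 0]), (9, 3, [1, 0, 1, 2, 0, 2, 4, 3, 0, 3]), (8, 1, [1,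
    0, 5, 2, 0, 2, 4, 3, 1, 0]), (1, 5, [1, 5, 0, 2, 0, 2, 4, 3, 1, 0]), (1, 5, [1, 5, 0, 2, 0, 2,
    4, 3, 5, 0]), (1, 5, [1, 5, 0, 2, 0, 2, 4, 3, 0, 1]), (1, 1, [1, 1, 0, 2, 0, 2, 4, 3, 0, 3]),
    (1, 5, [1, 5, 0, 2, 0, 2, 4, 3, 0, 5])] (by decide +kernel) (fcons n332 (fcons n335 (fcons n336
    (fcons n339 (fcons n335 (fcons n342 (fcons n345 (fcons n332 (fcons n348 fnil)))))))))

theorem n350 : Lost [1, 0, 0, 2, 0, 2, 0, 0, 2, 1] := lost_of _ [(2, 4, [1, 3, 4, 2, 0, 2, 0, 0, 2,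
    1]), (1, 4, [1, 4, 3, 2, 0, 2, 0, 0, 2, 1])] (by decide +kernel) (fcons n302 (fcons n305 fnil))

theorem n351 : Lost [1, 4, 5, 2, 0, 2, 6, 1, 3, 7] := lost_of _ [] (by decide +kernel) fnil

theorem n352 : Lost [1, 4, 5, 2, 0, 2, 7, 1, 3, 6] := lost_of _ [] (by decide +kernel) fnil

theorem n353 : Lost [1, 4, 5, 2, 0, 2, 0, 1, 3, 0] := lost_of _ [(9, 7, [1, 4, 5, 2, 0, 2, 6, 1, 3,
    7]), (6, 7, [1, 4, 5, 2, 0, 2, 7, 1, 3, 6])] (by decide +kernel) (fcons n351 (fcons n352 fnil))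

theorem n354 : Lost [1, 5, 4, 2, 0, 2, 6, 1, 3, 7] := lost_of _ [] (by decide +kernel) fnil

theorem n355 : Lost [1, 5, 4, 2, 0, 2, 7, 1, 3, 6] := lost_of _ [] (by decide +kernel) fnil

theorem n356 : Lost [1, 5, 4, 2, 0, 2, 0, 1, 3, 0] := lost_of _ [(9, 7, [1, 5, 4, 2, 0, 2, 6, 1, 3,
    7]), (6, 7, [1, 5, 4, 2, 0, 2, 7, 1, 3, 6])] (by decide +kernel) (fcons n354 (fcons n355 fnil))

theorem n357 : Lost [1, 5, 6, 2, 0, 2, 4, 1, 3, 7] := lost_of _ [] (by decide +kernel) fnil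

theorem n358 : Lost [1, 5, 7, 2, 0, 2, 4, 1, 3, 6] := lost_of _ [] (by decide +kernel) fnil

theorem n359 : Lost [1, 5, 0, 2, 0, 2, 4, 1, 3, 0] := lost_of _ [(9, 7, [1, 5, 6, 2, 0, 2, 4, 1, 3,
    7]), (2, 7, [1, 5, 7, 2, 0, 2, 4, 1, 3, 6])] (by decide +kernel) (fcons n357 (fcons n358 fnil))

theorem n360 : Lost [1, 5, 6, 2, 0, 2, 7, 1, 3, 4] := lost_of _ [] (by decide +kernel) fnil

theorem n361 : Lost [1, 5, 7, 2, 0, 2, 6, 1, 3, 4] := lost_of _ [] (by decide +kernel) fnil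

theorem n362 : Lost [1, 5, 0, 2, 0, 2, 0, 1, 3, 4] := lost_of _ [(6, 7, [1, 5, 6, 2, 0, 2, 7, 1, 3,
    4]), (2, 7, [1, 5, 7, 2, 0, 2, 6, 1, 3, 4])] (by decide +kernel) (fcons n360 (fcons n361 fnil))

theorem n363 : Lost [1, 0, 0, 2, 0, 2, 0, 1, 3, 0] := lost_of _ [(2, 5, [1, 4, 5, 2, 0, 2, 0, 1, 3,
    0]), (1, 5, [1, 5, 4, 2, 0, 2, 0, 1, 3, 0]), (1, 5, [1, 5, 0, 2, 0, 2, 4, 1, 3, 0]), (1, 5, [1,
    5, 0, 2, 0, 2, 0, 1, 3, 4])] (by decide +kernel) (fcons n353 (fcons n356 (fcons n359 (fcons n362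
    fnil))))

theorem n364 : Lost [1, 4, 5, 2, 0, 2, 6, 1, 7, 3] := lost_of _ [] (by decide +kernel) fnil

theorem n365 : Lost [1, 4, 5, 2, 0, 2, 7, 1, 6, 3] := lost_of _ [] (by decide +kernel) fnil

theorem n366 : Lost [1, 4, 5, 2, 0, 2, 0, 1, 0, 3] := lost_of _ [(8, 7, [1, 4, 5, 2, 0, 2, 6, 1, 7,
    3]), (6, 7, [1, 4, 5, 2, 0, 2, 7, 1, 6, 3])] (by decide +kernel) (fcons n364 (fcons n365 fnil))

theorem n367 : Lost [1, 5, 4, 2, 0, 2, 6, 1, 7, 3] := lost_of _ [] (by decide +kernel) fnil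

theorem n368 : Lost [1, 5, 4, 2, 0, 2, 7, 1, 6, 3] := lost_of _ [] (by decide +kernel) fnil

theorem n369 : Lost [1, 5, 4, 2, 0, 2, 0, 1, 0, 3] := lost_of _ [(8, 7, [1, 5, 4, 2, 0, 2, 6, 1, 7,
    3]), (6, 7, [1, 5, 4, 2, 0, 2, 7, 1, 6, 3])] (by decide +kernel) (fcons n367 (fcons n368 fnil))

theorem n370 : Lost [1, 5, 6, 2, 0, 2, 4, 1, 7, 3] := lost_of _ [] (by decide +kernel) fnil

theorem n371 : Lost [1, 5, 7, 2, 0, 2, 4, 1, 6, 3] := lost_of _ [] (by decide +kernel) fnil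

theorem n372 : Lost [1, 5, 0, 2, 0, 2, 4, 1, 0, 3] := lost_of _ [(8, 7, [1, 5, 6, 2, 0, 2, 4, 1, 7,
    3]), (2, 7, [1, 5, 7, 2, 0, 2, 4, 1, 6, 3])] (by decide +kernel) (fcons n370 (fcons n371 fnil))

theorem n373 : Lost [1, 5, 6, 2, 0, 2, 7, 1, 4, 3] := lost_of _ [] (by decide +kernel) fnil

theorem n374 : Lost [1, 5, 7, 2, 0, 2, 6, 1, 4, 3] := lost_of _ [] (by decide +kernel) fnil

theorem n375 : Lost [1, 5, 0, 2, 0, 2, 0, 1, 4, 3] := lost_of _ [(6, 7, [1, 5, 6, 2, 0, 2, 7, 1, 4,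
    3]), (2, 7, [1, 5, 7, 2, 0, 2, 6, 1, 4, 3])] (by decide +kernel) (fcons n373 (fcons n374 fnil))

theorem n376 : Lost [1, 0, 0, 2, 0, 2, 0, 1, 0, 3] := lost_of _ [(2, 5, [1, 4, 5, 2, 0, 2, 0, 1, 0,
    3]), (1, 5, [1, 5, 4, 2, 0, 2, 0, 1, 0, 3]), (1, 5, [1, 5, 0, 2, 0, 2, 4, 1, 0, 3]), (1, 5, [1,
    5, 0, 2, 0, 2, 0, 1, 4, 3])] (by decide +kernel) (fcons n366 (fcons n369 (fcons n372 (fcons n375
    fnil))))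

theorem n377 : Lost [1, 0, 0, 2, 0, 2, 0, 0, 0, 0] := lost_of _ [(9, 2, [1, 1, 0, 2, 0, 2, 0, 0, 0,
    2]), (8, 2, [1, 3, 0, 2, 0, 2, 0, 0, 2, 0]), (9, 2, [1, 0, 1, 2, 0, 2, 0, 0, 0, 2]), (8, 2, [1,
    0, 3, 2, 0, 2, 0, 0, 2, 0]), (9, 1, [1, 0, 0, 2, 0, 2, 1, 0, 0, 1]), (7, 4, [1, 0, 0, 2, 0, 2,
    3, 4, 0, 0]), (8, 1, [1, 0, 0, 2, 0, 2, 0, 1, 1, 0]), (6, 4, [1, 0, 0, 2, 0, 2, 4, 3, 0, 0]),
    (7, 1, [1, 0, 0, 2, 0, 2, 0, 1, 1, 0]), (9, 1, [1, 0, 0, 2, 0, 2, 0, 0, 2, 1]), (7, 1, [1, 0, 0,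
    2, 0, 2, 0, 1, 3, 0]), (6, 1, [1, 0, 0, 2, 0, 2, 1, 0, 0, 1]), (1, 1, [1, 1, 0, 2, 0, 2, 0, 0,
    0, 2]), (7, 1, [1, 0, 0, 2, 0, 2, 0, 1, 0, 3])] (by decide +kernel) (fcons n301 (fcons n304
    (fcons n151 (fcons n307 (fcons n310 (fcons n328 (fcons n331 (fcons n349 (fcons n331 (fcons n350
    (fcons n363 (fcons n310 (fcons n301 (fcons n376 fnil))))))))))))))

theorem n378 : Lost [1, 1, 0, 0, 1, 2, 0, 2, 3, 4] := lost_of _ [] (by decide +kernel) fnil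

theorem n379 : Lost [1, 1, 0, 0, 1, 2, 0, 2, 4, 3] := lost_of _ [] (by decide +kernel) fnil

theorem n380 : Lost [1, 1, 0, 0, 1, 2, 0, 2, 0, 0] := lost_of _ [(9, 4, [1, 1, 0, 0, 1, 2, 0, 2, 3,
    4]), (8, 4, [1, 1, 0, 0, 1, 2, 0, 2, 4, 3])] (by decide +kernel) (fcons n378 (fcons n379 fnil))

theorem n381 : Lost [1, 2, 0, 3, 1, 4, 0, 2, 2, 0] := lost_of _ [] (by decide +kernel) fnil

theorem n382 : Lost [1, 2, 0, 4, 1, 3, 0, 2, 2, 0] := lost_of _ [] (by decide +kernel) fnil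

theorem n383 : Lost [1, 2, 0, 0, 1, 0, 0, 2, 2, 0] := lost_of _ [(5, 4, [1, 2, 0, 3, 1, 4, 0, 2, 2,
    0]), (3, 4, [1, 2, 0, 4, 1, 3, 0, 2, 2, 0])] (by decide +kernel) (fcons n381 (fcons n382 fnil))

theorem n384 : Lost [1, 3, 0, 4, 1, 0, 2, 2, 0, 3] := lost_of _ [] (by decide +kernel) fnil

theorem n385 : Lost [1, 3, 0, 4, 1, 0, 2, 2, 0, 4] := lost_of _ [] (by decide +kernel) fnil

theorem n386 : Lost [1, 3, 0, 0, 1, 0, 2, 2, 0, 0] := lost_of _ [(9, 3, [1, 3, 0, 4, 1, 0, 2, 2, 0,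
    3]), (3, 4, [1, 3, 0, 4, 1, 0, 2, 2, 0, 3]), (3, 4, [1, 3, 0, 4, 1, 0, 2, 2, 0, 4])]
    (by decide +kernel) (fcons n384 (fcons n384 (fcons n385 fnil)))

theorem n387 : Lost [1, 0, 0, 1, 1, 0, 0, 2, 2, 0] := lost_of _ [] (by decide +kernel) fnil

theorem n388 : Lost [1, 3, 0, 2, 1, 0, 4, 2, 0, 2] := lost_of _ [] (by decide +kernel) fnil

theorem n389 : Lost [1, 4, 0, 2, 1, 0, 3, 2, 0, 2] := lost_of _ [] (by decide +kernel) fnil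

theorem n390 : Lost [1, 0, 0, 2, 1, 0, 0, 2, 0, 2] := lost_of _ [(6, 4, [1, 3, 0, 2, 1, 0, 4, 2, 0,
    2]), (1, 4, [1, 4, 0, 2, 1, 0, 3, 2, 0, 2])] (by decide +kernel) (fcons n388 (fcons n389 fnil))

theorem n391 : Lost [1, 4, 0, 3, 1, 0, 2, 2, 0, 3] := lost_of _ [] (by decide +kernel) fnil

theorem n392 : Lost [1, 4, 0, 3, 1, 0, 2, 2, 0, 4] := lost_of _ [] (by decide +kernel) fnil

theorem n393 : Lost [1, 0, 0, 3, 1, 0, 2, 2, 0, 0] := lost_of _ [(9, 3, [1, 4, 0, 3, 1, 0, 2, 2, 0,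
    3]), (1, 4, [1, 4, 0, 3, 1, 0, 2, 2, 0, 3]), (1, 4, [1, 4, 0, 3, 1, 0, 2, 2, 0, 4])]
    (by decide +kernel) (fcons n391 (fcons n391 (fcons n392 fnil)))

theorem n394 : Lost [1, 3, 0, 0, 1, 1, 0, 2, 3, 4] := lost_of _ [] (by decide +kernel) fnil

theorem n395 : Lost [1, 4, 0, 0, 1, 1, 0, 2, 3, 4] := lost_of _ [] (by decide +kernel) fnil

theorem n396 : Lost [1, 0, 0, 0, 1, 1, 0, 2, 3, 0] := lost_of _ [(9, 4, [1, 3, 0, 0, 1, 1, 0, 2, 3,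
    4]), (9, 4, [1, 4, 0, 0, 1, 1, 0, 2, 3, 4]), (1, 3, [1, 3, 0, 0, 1, 1, 0, 2, 3, 4])]
    (by decide +kernel) (fcons n394 (fcons n395 (fcons n394 fnil)))

theorem n397 : Lost [1, 1, 0, 0, 1, 3, 4, 2, 0, 2] := lost_of _ [] (by decide +kernel) fnil

theorem n398 : Lost [1, 2, 0, 6, 1, 3, 4, 2, 5, 7] := lost_of _ [] (by decide +kernel) fnil

theorem n399 : Lost [1, 2, 0, 7, 1, 3, 4, 2, 5, 6] := lost_of _ [] (by decide +kernel) fnil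

theorem n400 : Lost [1, 2, 0, 0, 1, 3, 4, 2, 5, 0] := lost_of _ [(9, 7, [1, 2, 0, 6, 1, 3, 4, 2, 5,
    7]), (3, 7, [1, 2, 0, 7, 1, 3, 4, 2, 5, 6])] (by decide +kernel) (fcons n398 (fcons n399 fnil))

theorem n401 : Lost [1, 5, 0, 6, 1, 3, 4, 2, 5, 7] := lost_of _ [] (by decide +kernel) fnil

theorem n402 : Lost [1, 5, 0, 7, 1, 3, 4, 2, 5, 6] := lost_of _ [] (by decide +kernel) fnil

theorem n403 : Lost [1, 5, 0, 0, 1, 3, 4, 2, 5, 0] := lost_of _ [(9, 7, [1, 5, 0, 6, 1, 3, 4, 2, 5,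
    7]), (3, 7, [1, 5, 0, 7, 1, 3, 4, 2, 5, 6])] (by decide +kernel) (fcons n401 (fcons n402 fnil))

theorem n404 : Lost [1, 6, 0, 5, 1, 3, 4, 2, 5, 7] := lost_of _ [] (by decide +kernel) fnil

theorem n405 : Lost [1, 7, 0, 5, 1, 3, 4, 2, 5, 6] := lost_of _ [] (by decide +kernel) fnil

theorem n406 : Lost [1, 0, 0, 5, 1, 3, 4, 2, 5, 0] := lost_of _ [(9, 7, [1, 6, 0, 5, 1, 3, 4, 2, 5,
    7]), (1, 7, [1, 7, 0, 5, 1, 3, 4, 2, 5, 6])] (by decide +kernel) (fcons n404 (fcons n405 fnil))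

theorem n407 : Lost [1, 5, 0, 6, 1, 3, 4, 2, 7, 1] := lost_of _ [] (by decide +kernel) fnil

theorem n408 : Lost [1, 5, 0, 7, 1, 3, 4, 2, 6, 1] := lost_of _ [] (by decide +kernel) fnil

theorem n409 : Lost [1, 5, 0, 0, 1, 3, 4, 2, 0, 1] := lost_of _ [(8, 7, [1, 5, 0, 6, 1, 3, 4, 2, 7,
    1]), (3, 7, [1, 5, 0, 7, 1, 3, 4, 2, 6, 1])] (by decide +kernel) (fcons n407 (fcons n408 fnil))

theorem n410 : Lost [1, 2, 0, 6, 1, 3, 4, 2, 7, 5] := lost_of _ [] (by decide +kernel) fnil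

theorem n411 : Lost [1, 2, 0, 7, 1, 3, 4, 2, 6, 5] := lost_of _ [] (by decide +kernel) fnil

theorem n412 : Lost [1, 2, 0, 0, 1, 3, 4, 2, 0, 5] := lost_of _ [(8, 7, [1, 2, 0, 6, 1, 3, 4, 2, 7,
    5]), (3, 7, [1, 2, 0, 7, 1, 3, 4, 2, 6, 5])] (by decide +kernel) (fcons n410 (fcons n411 fnil))

theorem n413 : Lost [1, 0, 0, 0, 1, 3, 4, 2, 0, 0] := lost_of _ [(9, 2, [1, 1, 0, 0, 1, 3, 4, 2, 0,
    2]), (8, 5, [1, 2, 0, 0, 1, 3, 4, 2, 5, 0]), (8, 5, [1, 5, 0, 0, 1, 3, 4, 2, 5, 0]), (8, 5, [1,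
    0, 0, 5, 1, 3, 4, 2, 5, 0]), (1, 2, [1, 2, 0, 0, 1, 3, 4, 2, 5, 0]), (1, 5, [1, 5, 0, 0, 1, 3,
    4, 2, 0, 1]), (1, 1, [1, 1, 0, 0, 1, 3, 4, 2, 0, 2]), (1, 2, [1, 2, 0, 0, 1, 3, 4, 2, 0, 5])]
    (by decide +kernel) (fcons n397 (fcons n400 (fcons n403 (fcons n406 (fcons n400 (fcons n409
    (fcons n397 (fcons n412 fnil))))))))

theorem n414 : Lost [1, 3, 0, 4, 1, 0, 1, 2, 0, 2] := lost_of _ [] (by decide +kernel) fnil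

theorem n415 : Lost [1, 4, 0, 3, 1, 0, 1, 2, 0, 2] := lost_of _ [] (by decide +kernel) fnil

theorem n416 : Lost [1, 0, 0, 0, 1, 0, 1, 2, 0, 2] := lost_of _ [(3, 4, [1, 3, 0, 4, 1, 0, 1, 2, 0,
    2]), (1, 4, [1, 4, 0, 3, 1, 0, 1, 2, 0, 2])] (by decide +kernel) (fcons n414 (fcons n415 fnil))

theorem n417 : Lost [1, 1, 0, 0, 1, 4, 3, 2, 0, 2] := lost_of _ [] (by decide +kernel) fnil

theorem n418 : Lost [1, 2, 0, 6, 1, 4, 3, 2, 5, 7] := lost_of _ [] (by decide +kernel) fnil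

theorem n419 : Lost [1, 2, 0, 7, 1, 4, 3, 2, 5, 6] := lost_of _ [] (by decide +kernel) fnil

theorem n420 : Lost [1, 2, 0, 0, 1, 4, 3, 2, 5, 0] := lost_of _ [(9, 7, [1, 2, 0, 6, 1, 4, 3, 2, 5,
    7]), (3, 7, [1, 2, 0, 7, 1, 4, 3, 2, 5, 6])] (by decide +kernel) (fcons n418 (fcons n419 fnil))

theorem n421 : Lost [1, 5, 0, 6, 1, 4, 3, 2, 5, 7] := lost_of _ [] (by decide +kernel) fnil

theorem n422 : Lost [1, 5, 0, 7, 1, 4, 3, 2, 5, 6] := lost_of _ [] (by decide +kernel) fnil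

theorem n423 : Lost [1, 5, 0, 0, 1, 4, 3, 2, 5, 0] := lost_of _ [(9, 7, [1, 5, 0, 6, 1, 4, 3, 2, 5,
    7]), (3, 7, [1, 5, 0, 7, 1, 4, 3, 2, 5, 6])] (by decide +kernel) (fcons n421 (fcons n422 fnil))

theorem n424 : Lost [1, 6, 0, 5, 1, 4, 3, 2, 5, 7] := lost_of _ [] (by decide +kernel) fnil

theorem n425 : Lost [1, 7, 0, 5, 1, 4, 3, 2, 5, 6] := lost_of _ [] (by decide +kernel) fnil

theorem n426 : Lost [1, 0, 0, 5, 1, 4, 3, 2, 5, 0] := lost_of _ [(9, 7, [1, 6, 0, 5, 1, 4, 3, 2, 5,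
    7]), (1, 7, [1, 7, 0, 5, 1, 4, 3, 2, 5, 6])] (by decide +kernel) (fcons n424 (fcons n425 fnil))

theorem n427 : Lost [1, 5, 0, 6, 1, 4, 3, 2, 7, 1] := lost_of _ [] (by decide +kernel) fnil

theorem n428 : Lost [1, 5, 0, 7, 1, 4, 3, 2, 6, 1] := lost_of _ [] (by decide +kernel) fnil

theorem n429 : Lost [1, 5, 0, 0, 1, 4, 3, 2, 0, 1] := lost_of _ [(8, 7, [1, 5, 0, 6, 1, 4, 3, 2, 7,
    1]), (3, 7, [1, 5, 0, 7, 1, 4, 3, 2, 6, 1])] (by decide +kernel) (fcons n427 (fcons n428 fnil))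

theorem n430 : Lost [1, 2, 0, 6, 1, 4, 3, 2, 7, 5] := lost_of _ [] (by decide +kernel) fnil

theorem n431 : Lost [1, 2, 0, 7, 1, 4, 3, 2, 6, 5] := lost_of _ [] (by decide +kernel) fnil

theorem n432 : Lost [1, 2, 0, 0, 1, 4, 3, 2, 0, 5] := lost_of _ [(8, 7, [1, 2, 0, 6, 1, 4, 3, 2, 7,
    5]), (3, 7, [1, 2, 0, 7, 1, 4, 3, 2, 6, 5])] (by decide +kernel) (fcons n430 (fcons n431 fnil))

theorem n433 : Lost [1, 0, 0, 0, 1, 4, 3, 2, 0, 0] := lost_of _ [(9, 2, [1, 1, 0, 0, 1, 4, 3, 2, 0,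
    2]), (8, 5, [1, 2, 0, 0, 1, 4, 3, 2, 5, 0]), (8, 5, [1, 5, 0, 0, 1, 4, 3, 2, 5, 0]), (8, 5, [1,
    0, 0, 5, 1, 4, 3, 2, 5, 0]), (1, 2, [1, 2, 0, 0, 1, 4, 3, 2, 5, 0]), (1, 5, [1, 5, 0, 0, 1, 4,
    3, 2, 0, 1]), (1, 1, [1, 1, 0, 0, 1, 4, 3, 2, 0, 2]), (1, 2, [1, 2, 0, 0, 1, 4, 3, 2, 0, 5])]
    (by decide +kernel) (fcons n417 (fcons n420 (fcons n423 (fcons n426 (fcons n420 (fcons n429
    (fcons n417 (fcons n432 fnil))))))))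

theorem n434 : Lost [1, 1, 0, 0, 1, 3, 0, 2, 1, 4] := lost_of _ [] (by decide +kernel) fnil

theorem n435 : Lost [1, 1, 0, 0, 1, 4, 0, 2, 1, 3] := lost_of _ [] (by decide +kernel) fnil

theorem n436 : Lost [1, 1, 0, 0, 1, 0, 0, 2, 1, 0] := lost_of _ [(9, 4, [1, 1, 0, 0, 1, 3, 0, 2, 1,
    4]), (5, 4, [1, 1, 0, 0, 1, 4, 0, 2, 1, 3])] (by decide +kernel) (fcons n434 (fcons n435 fnil))

theorem n437 : Lost [1, 0, 0, 1, 1, 0, 4, 2, 3, 1] := lost_of _ [] (by decide +kernel) fnil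

theorem n438 : Lost [1, 0, 0, 1, 1, 0, 5, 2, 3, 4] := lost_of _ [] (by decide +kernel) fnil

theorem n439 : Lost [1, 0, 0, 1, 1, 0, 0, 2, 3, 0] := lost_of _ [(9, 1, [1, 0, 0, 1, 1, 0, 4, 2, 3,
    1]), (6, 4, [1, 0, 0, 1, 1, 0, 4, 2, 3, 1]), (6, 5, [1, 0, 0, 1, 1, 0, 5, 2, 3, 4])]
    (by decide +kernel) (fcons n437 (fcons n437 (fcons n438 fnil)))

theorem n440 : Lost [1, 0, 0, 1, 1, 0, 3, 2, 4, 1] := lost_of _ [] (by decide +kernel) fnil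

theorem n441 : Lost [1, 0, 0, 1, 1, 0, 0, 2, 0, 1] := lost_of _ [(8, 4, [1, 0, 0, 1, 1, 0, 3, 2, 4,
    1]), (6, 4, [1, 0, 0, 1, 1, 0, 4, 2, 3, 1])] (by decide +kernel) (fcons n440 (fcons n437 fnil))

theorem n442 : Lost [1, 1, 0, 0, 1, 0, 0, 2, 0, 2] := lost_of _ [(6, 4, [1, 1, 0, 0, 1, 3, 4, 2, 0,
    2]), (5, 4, [1, 1, 0, 0, 1, 4, 3, 2, 0, 2])] (by decide +kernel) (fcons n397 (fcons n417 fnil))

theorem n443 : Lost [1, 3, 0, 0, 1, 1, 0, 2, 4, 3] := lost_of _ [] (by decide +kernel) fnil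

theorem n444 : Lost [1, 4, 0, 0, 1, 1, 0, 2, 4, 3] := lost_of _ [] (by decide +kernel) fnil

theorem n445 : Lost [1, 0, 0, 0, 1, 1, 0, 2, 0, 3] := lost_of _ [(8, 4, [1, 3, 0, 0, 1, 1, 0, 2, 4,
    3]), (8, 4, [1, 4, 0, 0, 1, 1, 0, 2, 4, 3]), (1, 3, [1, 3, 0, 0, 1, 1, 0, 2, 4, 3])]
    (by decide +kernel) (fcons n443 (fcons n444 (fcons n443 fnil)))

theorem n446 : Lost [1, 0, 0, 0, 1, 0, 0, 2, 0, 0] := lost_of _ [(5, 2, [1, 1, 0, 0, 1, 2, 0, 2, 0,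
    0]), (8, 2, [1, 2, 0, 0, 1, 0, 0, 2, 2, 0]), (6, 2, [1, 3, 0, 0, 1, 0, 2, 2, 0, 0]), (8, 2, [1,
    0, 0, 1, 1, 0, 0, 2, 2, 0]), (9, 2, [1, 0, 0, 2, 1, 0, 0, 2, 0, 2]), (6, 2, [1, 0, 0, 3, 1, 0,
    2, 2, 0, 0]), (8, 3, [1, 0, 0, 0, 1, 1, 0, 2, 3, 0]), (1, 1, [1, 1, 0, 0, 1, 2, 0, 2, 0, 0]),
    (6, 4, [1, 0, 0, 0, 1, 3, 4, 2, 0, 0]), (9, 2, [1, 0, 0, 0, 1, 0, 1, 2, 0, 2]), (1, 3, [1, 3, 0,
    0, 1, 0, 2, 2, 0, 0]), (5, 4, [1, 0, 0, 0, 1, 4, 3, 2, 0, 0]), (1, 1, [1, 1, 0, 0, 1, 0, 0, 2,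
    1, 0]), (3, 1, [1, 0, 0, 1, 1, 0, 0, 2, 2, 0]), (3, 1, [1, 0, 0, 1, 1, 0, 0, 2, 3, 0]), (3, 1,
    [1, 0, 0, 1, 1, 0, 0, 2, 0, 1]), (1, 1, [1, 1, 0, 0, 1, 0, 0, 2, 0, 2]), (5, 1, [1, 0, 0, 0, 1,
    1, 0, 2, 0, 3])] (by decide +kernel) (fcons n380 (fcons n383 (fcons n386 (fcons n387 (fcons n390
    (fcons n393 (fcons n396 (fcons n380 (fcons n413 (fcons n416 (fcons n386 (fcons n433 (fcons n436
    (fcons n387 (fcons n439 (fcons n441 (fcons n442 (fcons n445 fnil))))))))))))))))))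

theorem n447 : Lost [1, 3, 2, 4, 5, 1, 0, 1, 6, 7] := lost_of _ [] (by decide +kernel) fnil

theorem n448 : Lost [1, 3, 2, 4, 5, 1, 0, 1, 7, 6] := lost_of _ [] (by decide +kernel) fnil

theorem n449 : Lost [1, 3, 2, 4, 5, 1, 0, 1, 0, 0] := lost_of _ [(9, 7, [1, 3, 2, 4, 5, 1, 0, 1, 6,
    7]), (8, 7, [1, 3, 2, 4, 5, 1, 0, 1, 7, 6])] (by decide +kernel) (fcons n447 (fcons n448 fnil))

end Q128.Ladder
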