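import Pool.Agent.Q128.LadderTree3

/-!
# The edge-distinguishing game on `T_10`: positions 450 to 599
-/

set_option autoImplicit false

namespace Q128.Ladder

theorem n450 : Lost [1, 3, 2, 5, 4, 1, 0, 1, 6, 7] := lost_of _ [] (by decide +kernel) fnil

theorem n451 : Lost [1, 3, 2, 5, 4, 1, 0, 1, 7, 6] := lost_of _ [] (by decide +kernel) fnil

theorem n452 : Lost [1, 3, 2, 5, 4, 1, 0, 1, 0, 0] := lost_of _ [(9, 7, [1, 3, 2, 5, 4, 1, 0, 1, 6,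
    7]), (8, 7, [1, 3, 2, 5, 4, 1, 0, 1, 7, 6])] (by decide +kernel) (fcons n450 (fcons n451 fnil))

theorem n453 : Lost [1, 3, 2, 5, 6, 1, 0, 1, 4, 7] := lost_of _ [] (by decide +kernel) fnil

theorem n454 : Lost [1, 3, 2, 5, 7, 1, 0, 1, 4, 6] := lost_of _ [] (by decide +kernel) fnil

theorem n455 : Lost [1, 3, 2, 5, 0, 1, 0, 1, 4, 0] := lost_of _ [(9, 7, [1, 3, 2, 5, 6, 1, 0, 1, 4,
    7]), (4, 7, [1, 3, 2, 5, 7, 1, 0, 1, 4, 6])] (by decide +kernel) (fcons n453 (fcons n454 fnil))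

theorem n456 : Lost [1, 3, 2, 5, 6, 1, 0, 1, 7, 4] := lost_of _ [] (by decide +kernel) fnil

theorem n457 : Lost [1, 3, 2, 5, 7, 1, 0, 1, 6, 4] := lost_of _ [] (by decide +kernel) fnil

theorem n458 : Lost [1, 3, 2, 5, 0, 1, 0, 1, 0, 4] := lost_of _ [(8, 7, [1, 3, 2, 5, 6, 1, 0, 1, 7,
    4]), (4, 7, [1, 3, 2, 5, 7, 1, 0, 1, 6, 4])] (by decide +kernel) (fcons n456 (fcons n457 fnil))

theorem n459 : Lost [1, 3, 2, 0, 0, 1, 0, 1, 0, 0] := lost_of _ [(4, 5, [1, 3, 2, 4, 5, 1, 0, 1, 0,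
    0]), (3, 5, [1, 3, 2, 5, 4, 1, 0, 1, 0, 0]), (3, 5, [1, 3, 2, 5, 0, 1, 0, 1, 4, 0]), (3, 5, [1,
    3, 2, 5, 0, 1, 0, 1, 0, 4])] (by decide +kernel) (fcons n449 (fcons n452 (fcons n455 (fcons n458
    fnil))))

theorem n460 : Lost [1, 3, 4, 2, 5, 1, 0, 1, 6, 7] := lost_of _ [] (by decide +kernel) fnil

theorem n461 : Lost [1, 3, 4, 2, 5, 1, 0, 1, 7, 6] := lost_of _ [] (by decide +kernel) fnil

theorem n462 : Lost [1, 3, 4, 2, 5, 1, 0, 1, 0, 0] := lost_of _ [(9, 7, [1, 3, 4, 2, 5, 1, 0, 1, 6,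
    7]), (8, 7, [1, 3, 4, 2, 5, 1, 0, 1, 7, 6])] (by decide +kernel) (fcons n460 (fcons n461 fnil))

theorem n463 : Lost [1, 3, 5, 2, 4, 1, 0, 1, 6, 7] := lost_of _ [] (by decide +kernel) fnil

theorem n464 : Lost [1, 3, 5, 2, 4, 1, 0, 1, 7, 6] := lost_of _ [] (by decide +kernel) fnil

theorem n465 : Lost [1, 3, 5, 2, 4, 1, 0, 1, 0, 0] := lost_of _ [(9, 7, [1, 3, 5, 2, 4, 1, 0, 1, 6,
    7]), (8, 7, [1, 3, 5, 2, 4, 1, 0, 1, 7, 6])] (by decide +kernel) (fcons n463 (fcons n464 fnil))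

theorem n466 : Lost [1, 3, 5, 2, 6, 1, 0, 1, 4, 7] := lost_of _ [] (by decide +kernel) fnil

theorem n467 : Lost [1, 3, 5, 2, 7, 1, 0, 1, 4, 6] := lost_of _ [] (by decide +kernel) fnil

theorem n468 : Lost [1, 3, 5, 2, 0, 1, 0, 1, 4, 0] := lost_of _ [(9, 7, [1, 3, 5, 2, 6, 1, 0, 1, 4,
    7]), (4, 7, [1, 3, 5, 2, 7, 1, 0, 1, 4, 6])] (by decide +kernel) (fcons n466 (fcons n467 fnil))

theorem n469 : Lost [1, 3, 5, 2, 6, 1, 0, 1, 7, 4] := lost_of _ [] (by decide +kernel) fnil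

theorem n470 : Lost [1, 3, 5, 2, 7, 1, 0, 1, 6, 4] := lost_of _ [] (by decide +kernel) fnil

theorem n471 : Lost [1, 3, 5, 2, 0, 1, 0, 1, 0, 4] := lost_of _ [(8, 7, [1, 3, 5, 2, 6, 1, 0, 1, 7,
    4]), (4, 7, [1, 3, 5, 2, 7, 1, 0, 1, 6, 4])] (by decide +kernel) (fcons n469 (fcons n470 fnil))

theorem n472 : Lost [1, 3, 0, 2, 0, 1, 0, 1, 0, 0] := lost_of _ [(4, 5, [1, 3, 4, 2, 5, 1, 0, 1, 0,
    0]), (2, 5, [1, 3, 5, 2, 4, 1, 0, 1, 0, 0]), (2, 5, [1, 3, 5, 2, 0, 1, 0, 1, 4, 0]), (2, 5, [1,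
    3, 5, 2, 0, 1, 0, 1, 0, 4])] (by decide +kernel) (fcons n462 (fcons n465 (fcons n468 (fcons n471
    fnil))))

theorem n473 : Lost [1, 3, 4, 5, 2, 1, 0, 1, 6, 7] := lost_of _ [] (by decide +kernel) fnil

theorem n474 : Lost [1, 3, 4, 5, 2, 1, 0, 1, 7, 6] := lost_of _ [] (by decide +kernel) fnil

theorem n475 : Lost [1, 3, 4, 5, 2, 1, 0, 1, 0, 0] := lost_of _ [(9, 7, [1, 3, 4, 5, 2, 1, 0, 1, 6,
    7]), (8, 7, [1, 3, 4, 5, 2, 1, 0, 1, 7, 6])] (by decide +kernel) (fcons n473 (fcons n474 fnil))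

theorem n476 : Lost [1, 3, 5, 4, 2, 1, 0, 1, 6, 7] := lost_of _ [] (by decide +kernel) fnil

theorem n477 : Lost [1, 3, 5, 4, 2, 1, 0, 1, 7, 6] := lost_of _ [] (by decide +kernel) fnil

theorem n478 : Lost [1, 3, 5, 4, 2, 1, 0, 1, 0, 0] := lost_of _ [(9, 7, [1, 3, 5, 4, 2, 1, 0, 1, 6,
    7]), (8, 7, [1, 3, 5, 4, 2, 1, 0, 1, 7, 6])] (by decide +kernel) (fcons n476 (fcons n477 fnil))

theorem n479 : Lost [1, 3, 5, 6, 2, 1, 0, 1, 4, 7] := lost_of _ [] (by decide +kernel) fnil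

theorem n480 : Lost [1, 3, 5, 7, 2, 1, 0, 1, 4, 6] := lost_of _ [] (by decide +kernel) fnil

theorem n481 : Lost [1, 3, 5, 0, 2, 1, 0, 1, 4, 0] := lost_of _ [(9, 7, [1, 3, 5, 6, 2, 1, 0, 1, 4,
    7]), (3, 7, [1, 3, 5, 7, 2, 1, 0, 1, 4, 6])] (by decide +kernel) (fcons n479 (fcons n480 fnil))

theorem n482 : Lost [1, 3, 5, 6, 2, 1, 0, 1, 7, 4] := lost_of _ [] (by decide +kernel) fnil

theorem n483 : Lost [1, 3, 5, 7, 2, 1, 0, 1, 6, 4] := lost_of _ [] (by decide +kernel) fnil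

theorem n484 : Lost [1, 3, 5, 0, 2, 1, 0, 1, 0, 4] := lost_of _ [(8, 7, [1, 3, 5, 6, 2, 1, 0, 1, 7,
    4]), (3, 7, [1, 3, 5, 7, 2, 1, 0, 1, 6, 4])] (by decide +kernel) (fcons n482 (fcons n483 fnil))

theorem n485 : Lost [1, 3, 0, 0, 2, 1, 0, 1, 0, 0] := lost_of _ [(3, 5, [1, 3, 4, 5, 2, 1, 0, 1, 0,
    0]), (2, 5, [1, 3, 5, 4, 2, 1, 0, 1, 0, 0]), (2, 5, [1, 3, 5, 0, 2, 1, 0, 1, 4, 0]), (2, 5, [1,
    3, 5, 0, 2, 1, 0, 1, 0, 4])] (by decide +kernel) (fcons n475 (fcons n478 (fcons n481 (fcons n484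
    fnil))))

theorem n486 : Lost [1, 3, 4, 5, 6, 1, 0, 1, 2, 7] := lost_of _ [] (by decide +kernel) fnil

theorem n487 : Lost [1, 3, 4, 5, 7, 1, 0, 1, 2, 6] := lost_of _ [] (by decide +kernel) fnil

theorem n488 : Lost [1, 3, 4, 5, 0, 1, 0, 1, 2, 0] := lost_of _ [(9, 7, [1, 3, 4, 5, 6, 1, 0, 1, 2,
    7]), (4, 7, [1, 3, 4, 5, 7, 1, 0, 1, 2, 6])] (by decide +kernel) (fcons n486 (fcons n487 fnil))

theorem n489 : Lost [1, 3, 5, 4, 6, 1, 0, 1, 2, 7] := lost_of _ [] (by decide +kernel) fnil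

theorem n490 : Lost [1, 3, 5, 4, 7, 1, 0, 1, 2, 6] := lost_of _ [] (by decide +kernel) fnil

theorem n491 : Lost [1, 3, 5, 4, 0, 1, 0, 1, 2, 0] := lost_of _ [(9, 7, [1, 3, 5, 4, 6, 1, 0, 1, 2,
    7]), (4, 7, [1, 3, 5, 4, 7, 1, 0, 1, 2, 6])] (by decide +kernel) (fcons n489 (fcons n490 fnil))

theorem n492 : Lost [1, 3, 5, 6, 4, 1, 0, 1, 2, 7] := lost_of _ [] (by decide +kernel) fnil

theorem n493 : Lost [1, 3, 5, 7, 4, 1, 0, 1, 2, 6] := lost_of _ [] (by decide +kernel) fnil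

theorem n494 : Lost [1, 3, 5, 0, 4, 1, 0, 1, 2, 0] := lost_of _ [(9, 7, [1, 3, 5, 6, 4, 1, 0, 1, 2,
    7]), (3, 7, [1, 3, 5, 7, 4, 1, 0, 1, 2, 6])] (by decide +kernel) (fcons n492 (fcons n493 fnil))

theorem n495 : Lost [1, 3, 5, 6, 7, 1, 0, 1, 2, 4] := lost_of _ [] (by decide +kernel) fnil

theorem n496 : Lost [1, 3, 5, 7, 6, 1, 0, 1, 2, 4] := lost_of _ [] (by decide +kernel) fnil

theorem n497 : Lost [1, 3, 5, 0, 0, 1, 0, 1, 2, 4] := lost_of _ [(4, 7, [1, 3, 5, 6, 7, 1, 0, 1, 2,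
    4]), (3, 7, [1, 3, 5, 7, 6, 1, 0, 1, 2, 4])] (by decide +kernel) (fcons n495 (fcons n496 fnil))

theorem n498 : Lost [1, 3, 0, 0, 0, 1, 0, 1, 2, 0] := lost_of _ [(3, 5, [1, 3, 4, 5, 0, 1, 0, 1, 2,
    0]), (2, 5, [1, 3, 5, 4, 0, 1, 0, 1, 2, 0]), (2, 5, [1, 3, 5, 0, 4, 1, 0, 1, 2, 0]), (2, 5, [1,
    3, 5, 0, 0, 1, 0, 1, 2, 4])] (by decide +kernel) (fcons n488 (fcons n491 (fcons n494 (fcons n497
    fnil))))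

theorem n499 : Lost [1, 3, 4, 5, 6, 1, 0, 1, 7, 2] := lost_of _ [] (by decide +kernel) fnil

theorem n500 : Lost [1, 3, 4, 5, 7, 1, 0, 1, 6, 2] := lost_of _ [] (by decide +kernel) fnil

theorem n501 : Lost [1, 3, 4, 5, 0, 1, 0, 1, 0, 2] := lost_of _ [(8, 7, [1, 3, 4, 5, 6, 1, 0, 1, 7,
    2]), (4, 7, [1, 3, 4, 5, 7, 1, 0, 1, 6, 2])] (by decide +kernel) (fcons n499 (fcons n500 fnil))

theorem n502 : Lost [1, 3, 5, 4, 6, 1, 0, 1, 7, 2] := lost_of _ [] (by decide +kernel) fnil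

theorem n503 : Lost [1, 3, 5, 4, 7, 1, 0, 1, 6, 2] := lost_of _ [] (by decide +kernel) fnil

theorem n504 : Lost [1, 3, 5, 4, 0, 1, 0, 1, 0, 2] := lost_of _ [(8, 7, [1, 3, 5, 4, 6, 1, 0, 1, 7,
    2]), (4, 7, [1, 3, 5, 4, 7, 1, 0, 1, 6, 2])] (by decide +kernel) (fcons n502 (fcons n503 fnil))

theorem n505 : Lost [1, 3, 5, 6, 4, 1, 0, 1, 7, 2] := lost_of _ [] (by decide +kernel) fnil

theorem n506 : Lost [1, 3, 5, 7, 4, 1, 0, 1, 6, 2] := lost_of _ [] (by decide +kernel) fnil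

theorem n507 : Lost [1, 3, 5, 0, 4, 1, 0, 1, 0, 2] := lost_of _ [(8, 7, [1, 3, 5, 6, 4, 1, 0, 1, 7,
    2]), (3, 7, [1, 3, 5, 7, 4, 1, 0, 1, 6, 2])] (by decide +kernel) (fcons n505 (fcons n506 fnil))

theorem n508 : Lost [1, 3, 5, 6, 7, 1, 0, 1, 4, 2] := lost_of _ [] (by decide +kernel) fnil

theorem n509 : Lost [1, 3, 5, 7, 6, 1, 0, 1, 4, 2] := lost_of _ [] (by decide +kernel) fnil

theorem n510 : Lost [1, 3, 5, 0, 0, 1, 0, 1, 4, 2] := lost_of _ [(4, 7, [1, 3, 5, 6, 7, 1, 0, 1, 4,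
    2]), (3, 7, [1, 3, 5, 7, 6, 1, 0, 1, 4, 2])] (by decide +kernel) (fcons n508 (fcons n509 fnil))

theorem n511 : Lost [1, 3, 0, 0, 0, 1, 0, 1, 0, 2] := lost_of _ [(3, 5, [1, 3, 4, 5, 0, 1, 0, 1, 0,
    2]), (2, 5, [1, 3, 5, 4, 0, 1, 0, 1, 0, 2]), (2, 5, [1, 3, 5, 0, 4, 1, 0, 1, 0, 2]), (2, 5, [1,
    3, 5, 0, 0, 1, 0, 1, 4, 2])] (by decide +kernel) (fcons n501 (fcons n504 (fcons n507 (fcons n510
    fnil))))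

theorem n512 : Lost [1, 0, 0, 0, 0, 1, 0, 1, 0, 0] := lost_of _ [(2, 3, [1, 2, 3, 0, 0, 1, 0, 1, 0,
    0]), (1, 3, [1, 3, 2, 0, 0, 1, 0, 1, 0, 0]), (1, 3, [1, 3, 0, 2, 0, 1, 0, 1, 0, 0]), (1, 3, [1,
    3, 0, 0, 2, 1, 0, 1, 0, 0]), (1, 3, [1, 3, 0, 0, 0, 1, 0, 1, 2, 0]), (1, 3, [1, 3, 0, 0, 0, 1,
    0, 1, 0, 2])] (by decide +kernel) (fcons n94 (fcons n459 (fcons n472 (fcons n485 (fcons n498
    (fcons n511 fnil))))))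

theorem n513 : Lost [1, 1, 0, 3, 4, 2, 0, 0, 2, 1] := lost_of _ [] (by decide +kernel) fnil

theorem n514 : Lost [1, 1, 0, 3, 4, 2, 0, 0, 2, 2] := lost_of _ [] (by decide +kernel) fnil

theorem n515 : Lost [1, 1, 0, 3, 5, 2, 0, 0, 2, 4] := lost_of _ [] (by decide +kernel) fnil

theorem n516 : Lost [1, 1, 0, 3, 0, 2, 0, 0, 2, 0] := lost_of _ [(9, 1, [1, 1, 0, 3, 4, 2, 0, 0, 2,
    1]), (4, 4, [1, 1, 0, 3, 4, 2, 0, 0, 2, 1]), (4, 4, [1, 1, 0, 3, 4, 2, 0, 0, 2, 2]), (4, 5, [1,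
    1, 0, 3, 5, 2, 0, 0, 2, 4])] (by decide +kernel) (fcons n513 (fcons n513 (fcons n514 (fcons n515
    fnil))))

theorem n517 : Lost [1, 1, 0, 0, 2, 2, 0, 1, 3, 4] := lost_of _ [] (by decide +kernel) fnil

theorem n518 : Lost [1, 1, 0, 0, 2, 2, 0, 1, 4, 3] := lost_of _ [] (by decide +kernel) fnil

theorem n519 : Lost [1, 1, 0, 0, 2, 2, 0, 1, 0, 0] := lost_of _ [(9, 4, [1, 1, 0, 0, 2, 2, 0, 1, 3,
    4]), (8, 4, [1, 1, 0, 0, 2, 2, 0, 1, 4, 3])] (by decide +kernel) (fcons n517 (fcons n518 fnil))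

theorem n520 : Lost [1, 1, 0, 4, 3, 2, 0, 0, 2, 1] := lost_of _ [] (by decide +kernel) fnil

theorem n521 : Lost [1, 1, 0, 4, 3, 2, 0, 0, 2, 2] := lost_of _ [] (by decide +kernel) fnil

theorem n522 : Lost [1, 1, 0, 5, 3, 2, 0, 0, 2, 4] := lost_of _ [] (by decide +kernel) fnil

theorem n523 : Lost [1, 1, 0, 0, 3, 2, 0, 0, 2, 0] := lost_of _ [(9, 1, [1, 1, 0, 4, 3, 2, 0, 0, 2,
    1]), (3, 4, [1, 1, 0, 4, 3, 2, 0, 0, 2, 1]), (3, 4, [1, 1, 0, 4, 3, 2, 0, 0, 2, 2]), (3, 5, [1,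
    1, 0, 5, 3, 2, 0, 0, 2, 4])] (by decide +kernel) (fcons n520 (fcons n520 (fcons n521 (fcons n522
    fnil))))

theorem n524 : Lost [1, 1, 0, 3, 0, 2, 2, 0, 1, 4] := lost_of _ [] (by decide +kernel) fnil

theorem n525 : Lost [1, 1, 0, 4, 0, 2, 2, 0, 1, 3] := lost_of _ [] (by decide +kernel) fnil

theorem n526 : Lost [1, 1, 0, 0, 0, 2, 2, 0, 1, 0] := lost_of _ [(9, 4, [1, 1, 0, 3, 0, 2, 2, 0, 1,
    4]), (3, 4, [1, 1, 0, 4, 0, 2, 2, 0, 1, 3])] (by decide +kernel) (fcons n524 (fcons n525 fnil))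

theorem n527 : Lost [1, 1, 0, 4, 6, 2, 3, 1, 5, 6] := lost_of _ [] (by decide +kernel) fnil

theorem n528 : Lost [1, 1, 0, 4, 0, 2, 3, 1, 5, 0] := lost_of _ [(9, 6, [1, 1, 0, 4, 6, 2, 3, 1, 5,
    6]), (4, 6, [1, 1, 0, 4, 6, 2, 3, 1, 5, 6])] (by decide +kernel) (fcons n527 (fcons n527 fnil))

theorem n529 : Lost [1, 1, 0, 5, 4, 2, 3, 1, 6, 4] := lost_of _ [] (by decide +kernel) fnil

theorem n530 : Lost [1, 1, 0, 6, 4, 2, 3, 1, 5, 4] := lost_of _ [] (by decide +kernel) fnil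

theorem n531 : Lost [1, 1, 0, 0, 4, 2, 3, 1, 0, 4] := lost_of _ [(8, 6, [1, 1, 0, 5, 4, 2, 3, 1, 6,
    4]), (3, 6, [1, 1, 0, 6, 4, 2, 3, 1, 5, 4])] (by decide +kernel) (fcons n529 (fcons n530 fnil))

theorem n532 : Lost [1, 1, 0, 5, 6, 2, 3, 1, 4, 6] := lost_of _ [] (by decide +kernel) fnil

theorem n533 : Lost [1, 1, 0, 5, 0, 2, 3, 1, 4, 0] := lost_of _ [(9, 6, [1, 1, 0, 5, 6, 2, 3, 1, 4,
    6]), (4, 6, [1, 1, 0, 5, 6, 2, 3, 1, 4, 6])] (by decide +kernel) (fcons n532 (fcons n532 fnil))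

theorem n534 : Lost [1, 1, 0, 0, 0, 2, 3, 1, 0, 0] := lost_of _ [(8, 5, [1, 1, 0, 4, 0, 2, 3, 1, 5,
    0]), (9, 4, [1, 1, 0, 0, 4, 2, 3, 1, 0, 4]), (3, 5, [1, 1, 0, 5, 0, 2, 3, 1, 4, 0]), (4, 4, [1,
    1, 0, 0, 4, 2, 3, 1, 0, 4])] (by decide +kernel) (fcons n528 (fcons n531 (fcons n533 (fcons n531
    fnil))))

theorem n535 : Lost [1, 1, 0, 5, 6, 2, 4, 3, 1, 6] := lost_of _ [] (by decide +kernel) fnil

theorem n536 : Lost [1, 1, 0, 5, 0, 2, 4, 3, 1, 0] := lost_of _ [(9, 6, [1, 1, 0, 5, 6, 2, 4, 3, 1,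
    6]), (4, 6, [1, 1, 0, 5, 6, 2, 4, 3, 1, 6])] (by decide +kernel) (fcons n535 (fcons n535 fnil))

theorem n537 : Lost [1, 1, 0, 0, 1, 2, 4, 3, 0, 3] := lost_of _ [] (by decide +kernel) fnil

theorem n538 : Lost [1, 1, 0, 6, 5, 2, 4, 3, 7, 1] := lost_of _ [] (by decide +kernel) fnil

theorem n539 : Lost [1, 1, 0, 7, 5, 2, 4, 3, 6, 1] := lost_of _ [] (by decide +kernel) fnil

theorem n540 : Lost [1, 1, 0, 0, 5, 2, 4, 3, 0, 1] := lost_of _ [(8, 7, [1, 1, 0, 6, 5, 2, 4, 3, 7,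
    1]), (3, 7, [1, 1, 0, 7, 5, 2, 4, 3, 6, 1])] (by decide +kernel) (fcons n538 (fcons n539 fnil))

theorem n541 : Lost [1, 1, 0, 5, 6, 2, 4, 3, 5, 7] := lost_of _ [] (by decide +kernel) fnil

theorem n542 : Lost [1, 1, 0, 5, 7, 2, 4, 3, 5, 6] := lost_of _ [] (by decide +kernel) fnil

theorem n543 : Lost [1, 1, 0, 5, 0, 2, 4, 3, 5, 0] := lost_of _ [(9, 7, [1, 1, 0, 5, 6, 2, 4, 3, 5,
    7]), (4, 7, [1, 1, 0, 5, 7, 2, 4, 3, 5, 6])] (by decide +kernel) (fcons n541 (fcons n542 fnil))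

theorem n544 : Lost [1, 1, 0, 5, 6, 2, 4, 3, 7, 1] := lost_of _ [] (by decide +kernel) fnil

theorem n545 : Lost [1, 1, 0, 5, 7, 2, 4, 3, 6, 1] := lost_of _ [] (by decide +kernel) fnil

theorem n546 : Lost [1, 1, 0, 5, 0, 2, 4, 3, 0, 1] := lost_of _ [(8, 7, [1, 1, 0, 5, 6, 2, 4, 3, 7,
    1]), (4, 7, [1, 1, 0, 5, 7, 2, 4, 3, 6, 1])] (by decide +kernel) (fcons n544 (fcons n545 fnil))

theorem n547 : Lost [1, 1, 0, 5, 6, 2, 4, 3, 7, 5] := lost_of _ [] (by decide +kernel) fnil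

theorem n548 : Lost [1, 1, 0, 5, 7, 2, 4, 3, 6, 5] := lost_of _ [] (by decide +kernel) fnil

theorem n549 : Lost [1, 1, 0, 5, 0, 2, 4, 3, 0, 5] := lost_of _ [(8, 7, [1, 1, 0, 5, 6, 2, 4, 3, 7,
    5]), (4, 7, [1, 1, 0, 5, 7, 2, 4, 3, 6, 5])] (by decide +kernel) (fcons n547 (fcons n548 fnil))

theorem n550 : Lost [1, 1, 0, 0, 0, 2, 4, 3, 0, 0] := lost_of _ [(9, 3, [1, 1, 0, 2, 0, 2, 4, 3, 0,
    3]), (8, 1, [1, 1, 0, 5, 0, 2, 4, 3, 1, 0]), (9, 3, [1, 1, 0, 0, 1, 2, 4, 3, 0, 3]), (9, 1, [1,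
    1, 0, 0, 5, 2, 4, 3, 0, 1]), (3, 5, [1, 1, 0, 5, 0, 2, 4, 3, 1, 0]), (3, 5, [1, 1, 0, 5, 0, 2,
    4, 3, 5, 0]), (3, 5, [1, 1, 0, 5, 0, 2, 4, 3, 0, 1]), (3, 2, [1, 1, 0, 2, 0, 2, 4, 3, 0, 3]),
    (3, 5, [1, 1, 0, 5, 0, 2, 4, 3, 0, 5])] (by decide +kernel) (fcons n332 (fcons n536 (fcons n537
    (fcons n540 (fcons n536 (fcons n543 (fcons n546 (fcons n332 (fcons n549 fnil)))))))))

theorem n551 : Lost [1, 1, 0, 0, 1, 2, 0, 3, 1, 4] := lost_of _ [] (by decide +kernel) fnil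

theorem n552 : Lost [1, 1, 0, 0, 1, 2, 0, 4, 1, 3] := lost_of _ [] (by decide +kernel) fnil

theorem n553 : Lost [1, 1, 0, 0, 1, 2, 0, 0, 1, 0] := lost_of _ [(9, 4, [1, 1, 0, 0, 1, 2, 0, 3, 1,
    4]), (7, 4, [1, 1, 0, 0, 1, 2, 0, 4, 1, 3])] (by decide +kernel) (fcons n551 (fcons n552 fnil))

theorem n554 : Lost [1, 1, 0, 4, 0, 2, 2, 0, 3, 1] := lost_of _ [] (by decide +kernel) fnil

theorem n555 : Lost [1, 1, 0, 4, 0, 2, 2, 0, 3, 3] := lost_of _ [] (by decide +kernel) fnil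

theorem n556 : Lost [1, 1, 0, 4, 0, 2, 2, 0, 3, 4] := lost_of _ [] (by decide +kernel) fnil

theorem n557 : Lost [1, 1, 0, 0, 0, 2, 2, 0, 3, 0] := lost_of _ [(9, 1, [1, 1, 0, 4, 0, 2, 2, 0, 3,
    1]), (3, 4, [1, 1, 0, 4, 0, 2, 2, 0, 3, 1]), (3, 4, [1, 1, 0, 4, 0, 2, 2, 0, 3, 3]), (3, 4, [1,
    1, 0, 4, 0, 2, 2, 0, 3, 4])] (by decide +kernel) (fcons n554 (fcons n554 (fcons n555 (fcons n556
    fnil))))

theorem n558 : Lost [1, 1, 0, 3, 0, 2, 2, 0, 4, 3] := lost_of _ [] (by decide +kernel) fnil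

theorem n559 : Lost [1, 1, 0, 0, 0, 2, 2, 0, 0, 3] := lost_of _ [(8, 4, [1, 1, 0, 3, 0, 2, 2, 0, 4,
    3]), (8, 1, [1, 1, 0, 4, 0, 2, 2, 0, 1, 3]), (3, 4, [1, 1, 0, 4, 0, 2, 2, 0, 1, 3]), (3, 4, [1,
    1, 0, 4, 0, 2, 2, 0, 3, 3]), (3, 3, [1, 1, 0, 3, 0, 2, 2, 0, 4, 3])] (by decide +kernel) (fcons
    n558 (fcons n525 (fcons n525 (fcons n555 (fcons n558 fnil)))))

theorem n560 : Lost [1, 1, 0, 0, 0, 2, 0, 0, 0, 0] := lost_of _ [(9, 2, [1, 1, 0, 2, 0, 2, 0, 0, 0,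
    2]), (8, 2, [1, 1, 0, 3, 0, 2, 0, 0, 2, 0]), (7, 2, [1, 1, 0, 0, 1, 2, 0, 2, 0, 0]), (7, 1, [1,
    1, 0, 0, 2, 2, 0, 1, 0, 0]), (8, 2, [1, 1, 0, 0, 3, 2, 0, 0, 2, 0]), (9, 1, [1, 1, 0, 0, 0, 2,
    1, 0, 0, 1]), (8, 1, [1, 1, 0, 0, 0, 2, 2, 0, 1, 0]), (7, 1, [1, 1, 0, 0, 0, 2, 3, 1, 0, 0]),
    (4, 2, [1, 1, 0, 0, 2, 2, 0, 1, 0, 0]), (4, 1, [1, 1, 0, 0, 1, 2, 0, 2, 0, 0]), (6, 4, [1, 1, 0,
    0, 0, 2, 4, 3, 0, 0]), (4, 1, [1, 1, 0, 0, 1, 2, 0, 0, 1, 0]), (3, 3, [1, 1, 0, 3, 0, 2, 0, 0,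
    2, 0]), (6, 2, [1, 1, 0, 0, 0, 2, 2, 0, 3, 0]), (6, 1, [1, 1, 0, 0, 0, 2, 1, 0, 0, 1]), (3, 2,
    [1, 1, 0, 2, 0, 2, 0, 0, 0, 2]), (6, 2, [1, 1, 0, 0, 0, 2, 2, 0, 0, 3])] (by decide +kernel)
    (fcons n301 (fcons n516 (fcons n380 (fcons n519 (fcons n523 (fcons n8 (fcons n526 (fcons n534
    (fcons n519 (fcons n380 (fcons n550 (fcons n553 (fcons n516 (fcons n557 (fcons n8 (fcons n301
    (fcons n559 fnil)))))))))))))))))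

theorem n561 : Lost [1, 2, 3, 4, 5, 6, 1, 0, 1, 4] := lost_of _ [] (by decide +kernel) fnil

theorem n562 : Lost [1, 2, 3, 4, 6, 5, 1, 0, 1, 4] := lost_of _ [] (by decide +kernel) fnil

theorem n563 : Lost [1, 2, 3, 4, 0, 0, 1, 0, 1, 4] := lost_of _ [(5, 6, [1, 2, 3, 4, 5, 6, 1, 0, 1,
    4]), (4, 6, [1, 2, 3, 4, 6, 5, 1, 0, 1, 4])] (by decide +kernel) (fcons n561 (fcons n562 fnil))

theorem n564 : Lost [1, 2, 3, 6, 4, 5, 1, 0, 1, 6] := lost_of _ [] (by decide +kernel) fnil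

theorem n565 : Lost [1, 2, 3, 0, 4, 5, 1, 0, 1, 0] := lost_of _ [(9, 6, [1, 2, 3, 6, 4, 5, 1, 0, 1,
    6]), (3, 6, [1, 2, 3, 6, 4, 5, 1, 0, 1, 6])] (by decide +kernel) (fcons n564 (fcons n564 fnil))

theorem n566 : Lost [1, 2, 3, 6, 5, 4, 1, 0, 1, 6] := lost_of _ [] (by decide +kernel) fnil

theorem n567 : Lost [1, 2, 3, 0, 5, 4, 1, 0, 1, 0] := lost_of _ [(9, 6, [1, 2, 3, 6, 5, 4, 1, 0, 1,
    6]), (3, 6, [1, 2, 3, 6, 5, 4, 1, 0, 1, 6])] (by decide +kernel) (fcons n566 (fcons n566 fnil))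

theorem n568 : Lost [1, 2, 3, 0, 0, 0, 1, 0, 1, 0] := lost_of _ [(9, 4, [1, 2, 3, 4, 0, 0, 1, 0, 1,
    4]), (5, 5, [1, 2, 3, 0, 4, 5, 1, 0, 1, 0]), (4, 5, [1, 2, 3, 0, 5, 4, 1, 0, 1, 0]), (3, 4, [1,
    2, 3, 4, 0, 0, 1, 0, 1, 4])] (by decide +kernel) (fcons n563 (fcons n565 (fcons n567 (fcons n563
    fnil))))

theorem n569 : Lost [1, 0, 2, 2, 0, 3, 1, 0, 1, 4] := lost_of _ [] (by decide +kernel) fnil

theorem n570 : Lost [1, 0, 2, 2, 0, 4, 1, 0, 1, 3] := lost_of _ [] (by decide +kernel) fnil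

theorem n571 : Lost [1, 0, 2, 2, 0, 0, 1, 0, 1, 0] := lost_of _ [(9, 4, [1, 0, 2, 2, 0, 3, 1, 0, 1,
    4]), (5, 4, [1, 0, 2, 2, 0, 4, 1, 0, 1, 3])] (by decide +kernel) (fcons n569 (fcons n570 fnil))

theorem n572 : Lost [1, 0, 0, 1, 0, 0, 1, 0, 1, 2] := lost_of _ [] (by decide +kernel) fnil

theorem n573 : Lost [1, 3, 0, 2, 2, 0, 1, 0, 1, 4] := lost_of _ [] (by decide +kernel) fnil

theorem n574 : Lost [1, 4, 0, 2, 2, 0, 1, 0, 1, 3] := lost_of _ [] (by decide +kernel) fnil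

theorem n575 : Lost [1, 0, 0, 2, 2, 0, 1, 0, 1, 0] := lost_of _ [(9, 4, [1, 3, 0, 2, 2, 0, 1, 0, 1,
    4]), (1, 4, [1, 4, 0, 2, 2, 0, 1, 0, 1, 3])] (by decide +kernel) (fcons n573 (fcons n574 fnil))

theorem n576 : Lost [1, 4, 5, 6, 3, 2, 1, 0, 1, 6] := lost_of _ [] (by decide +kernel) fnil

theorem n577 : Lost [1, 4, 5, 0, 3, 2, 1, 0, 1, 0] := lost_of _ [(9, 6, [1, 4, 5, 6, 3, 2, 1, 0, 1,
    6]), (3, 6, [1, 4, 5, 6, 3, 2, 1, 0, 1, 6])] (by decide +kernel) (fcons n576 (fcons n576 fnil))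

theorem n578 : Lost [1, 5, 4, 6, 3, 2, 1, 0, 1, 6] := lost_of _ [] (by decide +kernel) fnil

theorem n579 : Lost [1, 5, 4, 0, 3, 2, 1, 0, 1, 0] := lost_of _ [(9, 6, [1, 5, 4, 6, 3, 2, 1, 0, 1,
    6]), (3, 6, [1, 5, 4, 6, 3, 2, 1, 0, 1, 6])] (by decide +kernel) (fcons n578 (fcons n578 fnil))

theorem n580 : Lost [1, 5, 6, 4, 3, 2, 1, 0, 1, 4] := lost_of _ [] (by decide +kernel) fnil

theorem n581 : Lost [1, 6, 5, 4, 3, 2, 1, 0, 1, 4] := lost_of _ [] (by decide +kernel) fnil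

theorem n582 : Lost [1, 0, 0, 4, 3, 2, 1, 0, 1, 4] := lost_of _ [(2, 6, [1, 5, 6, 4, 3, 2, 1, 0, 1,
    4]), (1, 6, [1, 6, 5, 4, 3, 2, 1, 0, 1, 4])] (by decide +kernel) (fcons n580 (fcons n581 fnil))

theorem n583 : Lost [1, 0, 0, 0, 3, 2, 1, 0, 1, 0] := lost_of _ [(2, 5, [1, 4, 5, 0, 3, 2, 1, 0, 1,
    0]), (1, 5, [1, 5, 4, 0, 3, 2, 1, 0, 1, 0]), (9, 4, [1, 0, 0, 4, 3, 2, 1, 0, 1, 4]), (3, 4, [1,
    0, 0, 4, 3, 2, 1, 0, 1, 4])] (by decide +kernel) (fcons n577 (fcons n579 (fcons n582 (fcons n582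
    fnil))))

theorem n584 : Lost [1, 0, 0, 0, 0, 0, 1, 0, 1, 0] := lost_of _ [(2, 3, [1, 2, 3, 0, 0, 0, 1, 0, 1,
    0]), (3, 2, [1, 0, 2, 2, 0, 0, 1, 0, 1, 0]), (9, 2, [1, 0, 0, 1, 0, 0, 1, 0, 1, 2]), (2, 2, [1,
    0, 2, 2, 0, 0, 1, 0, 1, 0]), (3, 2, [1, 0, 0, 2, 2, 0, 1, 0, 1, 0]), (4, 3, [1, 0, 0, 0, 3, 2,
    1, 0, 1, 0]), (3, 1, [1, 0, 0, 1, 0, 0, 1, 0, 1, 2])] (by decide +kernel) (fcons n568 (fcons
    n571 (fcons n572 (fcons n571 (fcons n575 (fcons n583 (fcons n572 fnil)))))))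

theorem n585 : Lost [1, 1, 0, 2, 0, 0, 2, 0, 0, 2] := lost_of _ [] (by decide +kernel) fnil

theorem n586 : Lost [1, 2, 0, 2, 0, 0, 2, 0, 0, 2] := lost_of _ [] (by decide +kernel) fnil

theorem n587 : Lost [1, 3, 0, 4, 1, 5, 2, 0, 0, 2] := lost_of _ [] (by decide +kernel) fnil

theorem n588 : Lost [1, 3, 0, 5, 1, 4, 2, 0, 0, 2] := lost_of _ [] (by decide +kernel) fnil

theorem n589 : Lost [1, 3, 0, 0, 1, 0, 2, 0, 0, 2] := lost_of _ [(5, 5, [1, 3, 0, 4, 1, 5, 2, 0, 0,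
    2]), (3, 5, [1, 3, 0, 5, 1, 4, 2, 0, 0, 2])] (by decide +kernel) (fcons n587 (fcons n588 fnil))

theorem n590 : Lost [1, 4, 3, 5, 2, 0, 2, 0, 0, 2] := lost_of _ [] (by decide +kernel) fnil

theorem n591 : Lost [1, 5, 3, 4, 2, 0, 2, 0, 0, 2] := lost_of _ [] (by decide +kernel) fnil

theorem n592 : Lost [1, 0, 3, 0, 2, 0, 2, 0, 0, 2] := lost_of _ [(3, 5, [1, 4, 3, 5, 2, 0, 2, 0, 0,
    2]), (1, 5, [1, 5, 3, 4, 2, 0, 2, 0, 0, 2])] (by decide +kernel) (fcons n590 (fcons n591 fnil))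

theorem n593 : Lost [1, 0, 0, 1, 1, 0, 2, 0, 0, 2] := lost_of _ [] (by decide +kernel) fnil

theorem n594 : Lost [1, 2, 0, 0, 2, 0, 2, 0, 0, 2] := lost_of _ [] (by decide +kernel) fnil

theorem n595 : Lost [1, 0, 0, 1, 0, 2, 2, 0, 0, 2] := lost_of _ [] (by decide +kernel) fnil

theorem n596 : Lost [1, 3, 4, 0, 5, 3, 2, 0, 0, 2] := lost_of _ [] (by decide +kernel) fnil

theorem n597 : Lost [1, 3, 5, 0, 4, 3, 2, 0, 0, 2] := lost_of _ [] (by decide +kernel) fnil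

theorem n598 : Lost [1, 3, 0, 0, 0, 3, 2, 0, 0, 2] := lost_of _ [(4, 5, [1, 3, 4, 0, 5, 3, 2, 0, 0,
    2]), (2, 5, [1, 3, 5, 0, 4, 3, 2, 0, 0, 2])] (by decide +kernel) (fcons n596 (fcons n597 fnil))

theorem n599 : Lost [1, 0, 0, 0, 0, 0, 2, 0, 0, 2] := lost_of _ [(3, 2, [1, 1, 0, 2, 0, 0, 2, 0, 0,
    2]), (3, 2, [1, 2, 0, 2, 0, 0, 2, 0, 0, 2]), (4, 1, [1, 3, 0, 0, 1, 0, 2, 0, 0, 2]), (3, 2, [1,
    0, 1, 2, 0, 0, 2, 0, 0, 2]), (3, 2, [1, 0, 2, 2, 0, 0, 2, 0, 0, 2]), (4, 2, [1, 0, 3, 0, 2, 0,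
    2, 0, 0, 2]), (4, 1, [1, 0, 0, 1, 1, 0, 2, 0, 0, 2]), (1, 1, [1, 1, 0, 2, 0, 0, 2, 0, 0, 2]),
    (2, 2, [1, 0, 2, 3, 0, 0, 2, 0, 0, 2]), (3, 1, [1, 0, 0, 1, 1, 0, 2, 0, 0, 2]), (1, 2, [1, 2, 0,
    0, 2, 0, 2, 0, 0, 2]), (2, 1, [1, 0, 1, 0, 3, 0, 2, 0, 0, 2]), (2, 1, [1, 0, 1, 0, 0, 1, 2, 0,
    0, 2]), (3, 1, [1, 0, 0, 1, 0, 2, 2, 0, 0, 2]), (1, 3, [1, 3, 0, 0, 0, 3, 2, 0, 0, 2])]
    (by decide +kernel) (fcons n585 (fcons n586 (fcons n589 (fcons n128 (fcons n193 (fcons n592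
    (fcons n593 (fcons n585 (fcons n196 (fcons n593 (fcons n594 (fcons n147 (fcons n148 (fcons n595
    (fcons n598 fnil)))))))))))))))

end Q128.Ladder
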