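import Pool.Agent.Q128.LadderTree4

/-!
# The edge-distinguishing game on `T_10`: positions 600 to 749
-/

set_option autoImplicit false

namespace Q128.Ladder

theorem n600 : Lost [1, 0, 1, 2, 3, 4, 5, 1, 6, 7] := lost_of _ [] (by decide +kernel) fnil

theorem n601 : Lost [1, 0, 1, 2, 3, 4, 5, 1, 7, 6] := lost_of _ [] (by decide +kernel) fnil

theorem n602 : Lost [1, 0, 1, 2, 3, 4, 5, 1, 0, 0] := lost_of _ [(9, 7, [1, 0, 1, 2, 3, 4, 5, 1, 6,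
    7]), (8, 7, [1, 0, 1, 2, 3, 4, 5, 1, 7, 6])] (by decide +kernel) (fcons n600 (fcons n601 fnil))

theorem n603 : Lost [1, 0, 1, 2, 3, 5, 4, 1, 6, 7] := lost_of _ [] (by decide +kernel) fnil

theorem n604 : Lost [1, 0, 1, 2, 3, 5, 4, 1, 7, 6] := lost_of _ [] (by decide +kernel) fnil

theorem n605 : Lost [1, 0, 1, 2, 3, 5, 4, 1, 0, 0] := lost_of _ [(9, 7, [1, 0, 1, 2, 3, 5, 4, 1, 6,
    7]), (8, 7, [1, 0, 1, 2, 3, 5, 4, 1, 7, 6])] (by decide +kernel) (fcons n603 (fcons n604 fnil))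

theorem n606 : Lost [1, 0, 1, 2, 3, 5, 6, 1, 4, 7] := lost_of _ [] (by decide +kernel) fnil

theorem n607 : Lost [1, 0, 1, 2, 3, 5, 7, 1, 4, 6] := lost_of _ [] (by decide +kernel) fnil

theorem n608 : Lost [1, 0, 1, 2, 3, 5, 0, 1, 4, 0] := lost_of _ [(9, 7, [1, 0, 1, 2, 3, 5, 6, 1, 4,
    7]), (6, 7, [1, 0, 1, 2, 3, 5, 7, 1, 4, 6])] (by decide +kernel) (fcons n606 (fcons n607 fnil))

theorem n609 : Lost [1, 0, 1, 2, 3, 5, 6, 1, 7, 4] := lost_of _ [] (by decide +kernel) fnil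

theorem n610 : Lost [1, 0, 1, 2, 3, 5, 7, 1, 6, 4] := lost_of _ [] (by decide +kernel) fnil

theorem n611 : Lost [1, 0, 1, 2, 3, 5, 0, 1, 0, 4] := lost_of _ [(8, 7, [1, 0, 1, 2, 3, 5, 6, 1, 7,
    4]), (6, 7, [1, 0, 1, 2, 3, 5, 7, 1, 6, 4])] (by decide +kernel) (fcons n609 (fcons n610 fnil))

theorem n612 : Lost [1, 0, 1, 2, 3, 0, 0, 1, 0, 0] := lost_of _ [(6, 5, [1, 0, 1, 2, 3, 4, 5, 1, 0,
    0]), (5, 5, [1, 0, 1, 2, 3, 5, 4, 1, 0, 0]), (5, 5, [1, 0, 1, 2, 3, 5, 0, 1, 4, 0]), (5, 5, [1,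
    0, 1, 2, 3, 5, 0, 1, 0, 4])] (by decide +kernel) (fcons n602 (fcons n605 (fcons n608 (fcons n611
    fnil))))

theorem n613 : Lost [1, 0, 1, 3, 2, 4, 5, 1, 6, 7] := lost_of _ [] (by decide +kernel) fnil

theorem n614 : Lost [1, 0, 1, 3, 2, 4, 5, 1, 7, 6] := lost_of _ [] (by decide +kernel) fnil

theorem n615 : Lost [1, 0, 1, 3, 2, 4, 5, 1, 0, 0] := lost_of _ [(9, 7, [1, 0, 1, 3, 2, 4, 5, 1, 6,
    7]), (8, 7, [1, 0, 1, 3, 2, 4, 5, 1, 7, 6])] (by decide +kernel) (fcons n613 (fcons n614 fnil))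

theorem n616 : Lost [1, 0, 1, 3, 2, 5, 4, 1, 6, 7] := lost_of _ [] (by decide +kernel) fnil

theorem n617 : Lost [1, 0, 1, 3, 2, 5, 4, 1, 7, 6] := lost_of _ [] (by decide +kernel) fnil

theorem n618 : Lost [1, 0, 1, 3, 2, 5, 4, 1, 0, 0] := lost_of _ [(9, 7, [1, 0, 1, 3, 2, 5, 4, 1, 6,
    7]), (8, 7, [1, 0, 1, 3, 2, 5, 4, 1, 7, 6])] (by decide +kernel) (fcons n616 (fcons n617 fnil))

theorem n619 : Lost [1, 0, 1, 3, 2, 5, 6, 1, 4, 7] := lost_of _ [] (by decide +kernel) fnil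

theorem n620 : Lost [1, 0, 1, 3, 2, 5, 7, 1, 4, 6] := lost_of _ [] (by decide +kernel) fnil

theorem n621 : Lost [1, 0, 1, 3, 2, 5, 0, 1, 4, 0] := lost_of _ [(9, 7, [1, 0, 1, 3, 2, 5, 6, 1, 4,
    7]), (6, 7, [1, 0, 1, 3, 2, 5, 7, 1, 4, 6])] (by decide +kernel) (fcons n619 (fcons n620 fnil))

theorem n622 : Lost [1, 0, 1, 3, 2, 5, 6, 1, 7, 4] := lost_of _ [] (by decide +kernel) fnil

theorem n623 : Lost [1, 0, 1, 3, 2, 5, 7, 1, 6, 4] := lost_of _ [] (by decide +kernel) fnil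

theorem n624 : Lost [1, 0, 1, 3, 2, 5, 0, 1, 0, 4] := lost_of _ [(8, 7, [1, 0, 1, 3, 2, 5, 6, 1, 7,
    4]), (6, 7, [1, 0, 1, 3, 2, 5, 7, 1, 6, 4])] (by decide +kernel) (fcons n622 (fcons n623 fnil))

theorem n625 : Lost [1, 0, 1, 3, 2, 0, 0, 1, 0, 0] := lost_of _ [(6, 5, [1, 0, 1, 3, 2, 4, 5, 1, 0,
    0]), (5, 5, [1, 0, 1, 3, 2, 5, 4, 1, 0, 0]), (5, 5, [1, 0, 1, 3, 2, 5, 0, 1, 4, 0]), (5, 5, [1,
    0, 1, 3, 2, 5, 0, 1, 0, 4])] (by decide +kernel) (fcons n615 (fcons n618 (fcons n621 (fcons n624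
    fnil))))

theorem n626 : Lost [1, 0, 1, 3, 4, 2, 5, 1, 6, 7] := lost_of _ [] (by decide +kernel) fnil

theorem n627 : Lost [1, 0, 1, 3, 4, 2, 5, 1, 7, 6] := lost_of _ [] (by decide +kernel) fnil

theorem n628 : Lost [1, 0, 1, 3, 4, 2, 5, 1, 0, 0] := lost_of _ [(9, 7, [1, 0, 1, 3, 4, 2, 5, 1, 6,
    7]), (8, 7, [1, 0, 1, 3, 4, 2, 5, 1, 7, 6])] (by decide +kernel) (fcons n626 (fcons n627 fnil))

theorem n629 : Lost [1, 0, 1, 3, 5, 2, 4, 1, 6, 7] := lost_of _ [] (by decide +kernel) fnil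

theorem n630 : Lost [1, 0, 1, 3, 5, 2, 4, 1, 7, 6] := lost_of _ [] (by decide +kernel) fnil

theorem n631 : Lost [1, 0, 1, 3, 5, 2, 4, 1, 0, 0] := lost_of _ [(9, 7, [1, 0, 1, 3, 5, 2, 4, 1, 6,
    7]), (8, 7, [1, 0, 1, 3, 5, 2, 4, 1, 7, 6])] (by decide +kernel) (fcons n629 (fcons n630 fnil))

theorem n632 : Lost [1, 0, 1, 3, 5, 2, 6, 1, 4, 7] := lost_of _ [] (by decide +kernel) fnil

theorem n633 : Lost [1, 0, 1, 3, 5, 2, 7, 1, 4, 6] := lost_of _ [] (by decide +kernel) fnil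

theorem n634 : Lost [1, 0, 1, 3, 5, 2, 0, 1, 4, 0] := lost_of _ [(9, 7, [1, 0, 1, 3, 5, 2, 6, 1, 4,
    7]), (6, 7, [1, 0, 1, 3, 5, 2, 7, 1, 4, 6])] (by decide +kernel) (fcons n632 (fcons n633 fnil))

theorem n635 : Lost [1, 0, 1, 3, 5, 2, 6, 1, 7, 4] := lost_of _ [] (by decide +kernel) fnil

theorem n636 : Lost [1, 0, 1, 3, 5, 2, 7, 1, 6, 4] := lost_of _ [] (by decide +kernel) fnil

theorem n637 : Lost [1, 0, 1, 3, 5, 2, 0, 1, 0, 4] := lost_of _ [(8, 7, [1, 0, 1, 3, 5, 2, 6, 1, 7,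
    4]), (6, 7, [1, 0, 1, 3, 5, 2, 7, 1, 6, 4])] (by decide +kernel) (fcons n635 (fcons n636 fnil))

theorem n638 : Lost [1, 0, 1, 3, 0, 2, 0, 1, 0, 0] := lost_of _ [(6, 5, [1, 0, 1, 3, 4, 2, 5, 1, 0,
    0]), (4, 5, [1, 0, 1, 3, 5, 2, 4, 1, 0, 0]), (4, 5, [1, 0, 1, 3, 5, 2, 0, 1, 4, 0]), (4, 5, [1,
    0, 1, 3, 5, 2, 0, 1, 0, 4])] (by decide +kernel) (fcons n628 (fcons n631 (fcons n634 (fcons n637
    fnil))))

theorem n639 : Lost [1, 0, 1, 3, 4, 5, 2, 1, 6, 7] := lost_of _ [] (by decide +kernel) fnil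

theorem n640 : Lost [1, 0, 1, 3, 4, 5, 2, 1, 7, 6] := lost_of _ [] (by decide +kernel) fnil

theorem n641 : Lost [1, 0, 1, 3, 4, 5, 2, 1, 0, 0] := lost_of _ [(9, 7, [1, 0, 1, 3, 4, 5, 2, 1, 6,
    7]), (8, 7, [1, 0, 1, 3, 4, 5, 2, 1, 7, 6])] (by decide +kernel) (fcons n639 (fcons n640 fnil))

theorem n642 : Lost [1, 0, 1, 3, 5, 4, 2, 1, 6, 7] := lost_of _ [] (by decide +kernel) fnil

theorem n643 : Lost [1, 0, 1, 3, 5, 4, 2, 1, 7, 6] := lost_of _ [] (by decide +kernel) fnil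

theorem n644 : Lost [1, 0, 1, 3, 5, 4, 2, 1, 0, 0] := lost_of _ [(9, 7, [1, 0, 1, 3, 5, 4, 2, 1, 6,
    7]), (8, 7, [1, 0, 1, 3, 5, 4, 2, 1, 7, 6])] (by decide +kernel) (fcons n642 (fcons n643 fnil))

theorem n645 : Lost [1, 0, 1, 3, 5, 6, 2, 1, 4, 7] := lost_of _ [] (by decide +kernel) fnil

theorem n646 : Lost [1, 0, 1, 3, 5, 7, 2, 1, 4, 6] := lost_of _ [] (by decide +kernel) fnil

theorem n647 : Lost [1, 0, 1, 3, 5, 0, 2, 1, 4, 0] := lost_of _ [(9, 7, [1, 0, 1, 3, 5, 6, 2, 1, 4,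
    7]), (5, 7, [1, 0, 1, 3, 5, 7, 2, 1, 4, 6])] (by decide +kernel) (fcons n645 (fcons n646 fnil))

theorem n648 : Lost [1, 0, 1, 3, 5, 6, 2, 1, 7, 4] := lost_of _ [] (by decide +kernel) fnil

theorem n649 : Lost [1, 0, 1, 3, 5, 7, 2, 1, 6, 4] := lost_of _ [] (by decide +kernel) fnil

theorem n650 : Lost [1, 0, 1, 3, 5, 0, 2, 1, 0, 4] := lost_of _ [(8, 7, [1, 0, 1, 3, 5, 6, 2, 1, 7,
    4]), (5, 7, [1, 0, 1, 3, 5, 7, 2, 1, 6, 4])] (by decide +kernel) (fcons n648 (fcons n649 fnil))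

theorem n651 : Lost [1, 0, 1, 3, 0, 0, 2, 1, 0, 0] := lost_of _ [(5, 5, [1, 0, 1, 3, 4, 5, 2, 1, 0,
    0]), (4, 5, [1, 0, 1, 3, 5, 4, 2, 1, 0, 0]), (4, 5, [1, 0, 1, 3, 5, 0, 2, 1, 4, 0]), (4, 5, [1,
    0, 1, 3, 5, 0, 2, 1, 0, 4])] (by decide +kernel) (fcons n641 (fcons n644 (fcons n647 (fcons n650
    fnil))))

theorem n652 : Lost [1, 0, 1, 3, 4, 5, 6, 1, 2, 7] := lost_of _ [] (by decide +kernel) fnil

theorem n653 : Lost [1, 0, 1, 3, 4, 5, 7, 1, 2, 6] := lost_of _ [] (by decide +kernel) fnil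

theorem n654 : Lost [1, 0, 1, 3, 4, 5, 0, 1, 2, 0] := lost_of _ [(9, 7, [1, 0, 1, 3, 4, 5, 6, 1, 2,
    7]), (6, 7, [1, 0, 1, 3, 4, 5, 7, 1, 2, 6])] (by decide +kernel) (fcons n652 (fcons n653 fnil))

theorem n655 : Lost [1, 0, 1, 3, 5, 4, 6, 1, 2, 7] := lost_of _ [] (by decide +kernel) fnil

theorem n656 : Lost [1, 0, 1, 3, 5, 4, 7, 1, 2, 6] := lost_of _ [] (by decide +kernel) fnil

theorem n657 : Lost [1, 0, 1, 3, 5, 4, 0, 1, 2, 0] := lost_of _ [(9, 7, [1, 0, 1, 3, 5, 4, 6, 1, 2,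
    7]), (6, 7, [1, 0, 1, 3, 5, 4, 7, 1, 2, 6])] (by decide +kernel) (fcons n655 (fcons n656 fnil))

theorem n658 : Lost [1, 0, 1, 3, 5, 6, 4, 1, 2, 7] := lost_of _ [] (by decide +kernel) fnil

theorem n659 : Lost [1, 0, 1, 3, 5, 7, 4, 1, 2, 6] := lost_of _ [] (by decide +kernel) fnil

theorem n660 : Lost [1, 0, 1, 3, 5, 0, 4, 1, 2, 0] := lost_of _ [(9, 7, [1, 0, 1, 3, 5, 6, 4, 1, 2,
    7]), (5, 7, [1, 0, 1, 3, 5, 7, 4, 1, 2, 6])] (by decide +kernel) (fcons n658 (fcons n659 fnil))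

theorem n661 : Lost [1, 0, 1, 3, 5, 6, 7, 1, 2, 4] := lost_of _ [] (by decide +kernel) fnil

theorem n662 : Lost [1, 0, 1, 3, 5, 7, 6, 1, 2, 4] := lost_of _ [] (by decide +kernel) fnil

theorem n663 : Lost [1, 0, 1, 3, 5, 0, 0, 1, 2, 4] := lost_of _ [(6, 7, [1, 0, 1, 3, 5, 6, 7, 1, 2,
    4]), (5, 7, [1, 0, 1, 3, 5, 7, 6, 1, 2, 4])] (by decide +kernel) (fcons n661 (fcons n662 fnil))

theorem n664 : Lost [1, 0, 1, 3, 0, 0, 0, 1, 2, 0] := lost_of _ [(5, 5, [1, 0, 1, 3, 4, 5, 0, 1, 2,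
    0]), (4, 5, [1, 0, 1, 3, 5, 4, 0, 1, 2, 0]), (4, 5, [1, 0, 1, 3, 5, 0, 4, 1, 2, 0]), (4, 5, [1,
    0, 1, 3, 5, 0, 0, 1, 2, 4])] (by decide +kernel) (fcons n654 (fcons n657 (fcons n660 (fcons n663
    fnil))))

theorem n665 : Lost [1, 0, 1, 0, 0, 0, 0, 1, 0, 0] := lost_of _ [(4, 3, [1, 0, 1, 2, 3, 0, 0, 1, 0,
    0]), (3, 3, [1, 0, 1, 3, 2, 0, 0, 1, 0, 0]), (3, 3, [1, 0, 1, 3, 0, 2, 0, 1, 0, 0]), (3, 3, [1,
    0, 1, 3, 0, 0, 2, 1, 0, 0]), (3, 3, [1, 0, 1, 3, 0, 0, 0, 1, 2, 0]), (3, 3, [1, 0, 1, 3, 0, 0,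
    0, 1, 0, 2])] (by decide +kernel) (fcons n612 (fcons n625 (fcons n638 (fcons n651 (fcons n664
    (fcons n141 fnil))))))

theorem n666 : Lost [1, 1, 0, 2, 3, 0, 4, 2, 0, 2] := lost_of _ [] (by decide +kernel) fnil

theorem n667 : Lost [1, 1, 0, 2, 4, 0, 3, 2, 0, 2] := lost_of _ [] (by decide +kernel) fnil

theorem n668 : Lost [1, 1, 0, 2, 0, 0, 0, 2, 0, 2] := lost_of _ [(6, 4, [1, 1, 0, 2, 3, 0, 4, 2, 0,
    2]), (4, 4, [1, 1, 0, 2, 4, 0, 3, 2, 0, 2])] (by decide +kernel) (fcons n666 (fcons n667 fnil))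

theorem n669 : Lost [1, 2, 0, 0, 2, 0, 0, 2, 0, 2] := lost_of _ [] (by decide +kernel) fnil

theorem n670 : Lost [1, 4, 3, 5, 2, 0, 0, 2, 0, 2] := lost_of _ [] (by decide +kernel) fnil

theorem n671 : Lost [1, 5, 3, 4, 2, 0, 0, 2, 0, 2] := lost_of _ [] (by decide +kernel) fnil

theorem n672 : Lost [1, 0, 3, 0, 2, 0, 0, 2, 0, 2] := lost_of _ [(3, 5, [1, 4, 3, 5, 2, 0, 0, 2, 0,
    2]), (1, 5, [1, 5, 3, 4, 2, 0, 0, 2, 0, 2])] (by decide +kernel) (fcons n670 (fcons n671 fnil))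

theorem n673 : Lost [1, 0, 0, 1, 2, 0, 0, 2, 0, 2] := lost_of _ [] (by decide +kernel) fnil

theorem n674 : Lost [1, 1, 0, 3, 3, 0, 4, 2, 0, 2] := lost_of _ [] (by decide +kernel) fnil

theorem n675 : Lost [1, 2, 0, 3, 3, 0, 4, 2, 0, 2] := lost_of _ [] (by decide +kernel) fnil

theorem n676 : Lost [1, 4, 0, 3, 3, 0, 1, 2, 0, 2] := lost_of _ [] (by decide +kernel) fnil

theorem n677 : Lost [1, 0, 0, 3, 3, 0, 0, 2, 0, 2] := lost_of _ [(6, 4, [1, 1, 0, 3, 3, 0, 4, 2, 0,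
    2]), (6, 4, [1, 2, 0, 3, 3, 0, 4, 2, 0, 2]), (6, 1, [1, 4, 0, 3, 3, 0, 1, 2, 0, 2]), (1, 4, [1,
    4, 0, 3, 3, 0, 1, 2, 0, 2]), (1, 1, [1, 1, 0, 3, 3, 0, 4, 2, 0, 2])] (by decide +kernel) (fcons
    n674 (fcons n675 (fcons n676 (fcons n676 (fcons n674 fnil)))))

theorem n678 : Lost [1, 1, 0, 0, 3, 1, 4, 2, 0, 2] := lost_of _ [] (by decide +kernel) fnil

theorem n679 : Lost [1, 1, 0, 0, 4, 1, 3, 2, 0, 2] := lost_of _ [] (by decide +kernel) fnil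

theorem n680 : Lost [1, 1, 0, 0, 0, 1, 0, 2, 0, 2] := lost_of _ [(6, 4, [1, 1, 0, 0, 3, 1, 4, 2, 0,
    2]), (4, 4, [1, 1, 0, 0, 4, 1, 3, 2, 0, 2])] (by decide +kernel) (fcons n678 (fcons n679 fnil))

theorem n681 : Lost [1, 4, 3, 0, 0, 3, 5, 2, 0, 2] := lost_of _ [] (by decide +kernel) fnil

theorem n682 : Lost [1, 5, 3, 0, 0, 3, 4, 2, 0, 2] := lost_of _ [] (by decide +kernel) fnil

theorem n683 : Lost [1, 0, 3, 0, 0, 3, 0, 2, 0, 2] := lost_of _ [(6, 5, [1, 4, 3, 0, 0, 3, 5, 2, 0,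
    2]), (1, 5, [1, 5, 3, 0, 0, 3, 4, 2, 0, 2])] (by decide +kernel) (fcons n681 (fcons n682 fnil))

theorem n684 : Lost [1, 0, 0, 1, 0, 0, 1, 2, 0, 2] := lost_of _ [] (by decide +kernel) fnil

theorem n685 : Lost [1, 4, 2, 5, 6, 7, 3, 2, 0, 2] := lost_of _ [] (by decide +kernel) fnil

theorem n686 : Lost [1, 4, 2, 5, 7, 6, 3, 2, 0, 2] := lost_of _ [] (by decide +kernel) fnil

theorem n687 : Lost [1, 4, 2, 5, 0, 0, 3, 2, 0, 2] := lost_of _ [(5, 7, [1, 4, 2, 5, 6, 7, 3, 2, 0,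
    2]), (4, 7, [1, 4, 2, 5, 7, 6, 3, 2, 0, 2])] (by decide +kernel) (fcons n685 (fcons n686 fnil))

theorem n688 : Lost [1, 5, 2, 4, 6, 7, 3, 2, 0, 2] := lost_of _ [] (by decide +kernel) fnil

theorem n689 : Lost [1, 5, 2, 4, 7, 6, 3, 2, 0, 2] := lost_of _ [] (by decide +kernel) fnil

theorem n690 : Lost [1, 5, 2, 4, 0, 0, 3, 2, 0, 2] := lost_of _ [(5, 7, [1, 5, 2, 4, 6, 7, 3, 2, 0,
    2]), (4, 7, [1, 5, 2, 4, 7, 6, 3, 2, 0, 2])] (by decide +kernel) (fcons n688 (fcons n689 fnil))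

theorem n691 : Lost [1, 5, 2, 6, 4, 7, 3, 2, 0, 2] := lost_of _ [] (by decide +kernel) fnil

theorem n692 : Lost [1, 5, 2, 7, 4, 6, 3, 2, 0, 2] := lost_of _ [] (by decide +kernel) fnil

theorem n693 : Lost [1, 5, 2, 0, 4, 0, 3, 2, 0, 2] := lost_of _ [(5, 7, [1, 5, 2, 6, 4, 7, 3, 2, 0,
    2]), (3, 7, [1, 5, 2, 7, 4, 6, 3, 2, 0, 2])] (by decide +kernel) (fcons n691 (fcons n692 fnil))

theorem n694 : Lost [1, 5, 2, 6, 7, 4, 3, 2, 0, 2] := lost_of _ [] (by decide +kernel) fnil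

theorem n695 : Lost [1, 5, 2, 7, 6, 4, 3, 2, 0, 2] := lost_of _ [] (by decide +kernel) fnil

theorem n696 : Lost [1, 5, 2, 0, 0, 4, 3, 2, 0, 2] := lost_of _ [(4, 7, [1, 5, 2, 6, 7, 4, 3, 2, 0,
    2]), (3, 7, [1, 5, 2, 7, 6, 4, 3, 2, 0, 2])] (by decide +kernel) (fcons n694 (fcons n695 fnil))

theorem n697 : Lost [1, 0, 2, 0, 0, 0, 3, 2, 0, 2] := lost_of _ [(3, 5, [1, 4, 2, 5, 0, 0, 3, 2, 0,
    2]), (1, 5, [1, 5, 2, 4, 0, 0, 3, 2, 0, 2]), (1, 5, [1, 5, 2, 0, 4, 0, 3, 2, 0, 2]), (1, 5, [1,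
    5, 2, 0, 0, 4, 3, 2, 0, 2])] (by decide +kernel) (fcons n687 (fcons n690 (fcons n693 (fcons n696
    fnil))))

theorem n698 : Lost [1, 0, 0, 0, 0, 0, 0, 2, 0, 2] := lost_of _ [(3, 2, [1, 1, 0, 2, 0, 0, 0, 2, 0,
    2]), (4, 2, [1, 2, 0, 0, 2, 0, 0, 2, 0, 2]), (2, 2, [1, 3, 2, 0, 0, 0, 0, 2, 0, 2]), (3, 2, [1,
    0, 1, 2, 0, 0, 0, 2, 0, 2]), (1, 3, [1, 3, 2, 0, 0, 0, 0, 2, 0, 2]), (4, 2, [1, 0, 3, 0, 2, 0,
    0, 2, 0, 2]), (4, 2, [1, 0, 0, 1, 2, 0, 0, 2, 0, 2]), (1, 1, [1, 1, 0, 2, 0, 0, 0, 2, 0, 2]),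
    (4, 3, [1, 0, 0, 3, 3, 0, 0, 2, 0, 2]), (1, 1, [1, 1, 0, 0, 1, 0, 0, 2, 0, 2]), (1, 2, [1, 2, 0,
    0, 2, 0, 0, 2, 0, 2]), (3, 3, [1, 0, 0, 3, 3, 0, 0, 2, 0, 2]), (1, 1, [1, 1, 0, 0, 0, 1, 0, 2,
    0, 2]), (2, 3, [1, 0, 3, 0, 0, 3, 0, 2, 0, 2]), (3, 1, [1, 0, 0, 1, 0, 0, 1, 2, 0, 2]), (2, 2,
    [1, 0, 2, 0, 0, 0, 3, 2, 0, 2])] (by decide +kernel) (fcons n668 (fcons n669 (fcons n262 (fcons
    n161 (fcons n262 (fcons n672 (fcons n673 (fcons n668 (fcons n677 (fcons n442 (fcons n669 (fcons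
    n677 (fcons n680 (fcons n683 (fcons n684 (fcons n697 fnil))))))))))))))))

theorem n699 : Lost [1, 1, 0, 0, 1, 3, 2, 0, 2, 4] := lost_of _ [] (by decide +kernel) fnil

theorem n700 : Lost [1, 1, 0, 0, 1, 4, 2, 0, 2, 3] := lost_of _ [] (by decide +kernel) fnil

theorem n701 : Lost [1, 1, 0, 0, 1, 0, 2, 0, 2, 0] := lost_of _ [(9, 4, [1, 1, 0, 0, 1, 3, 2, 0, 2,
    4]), (5, 4, [1, 1, 0, 0, 1, 4, 2, 0, 2, 3])] (by decide +kernel) (fcons n699 (fcons n700 fnil))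

theorem n702 : Lost [1, 3, 0, 4, 1, 0, 0, 1, 2, 5] := lost_of _ [] (by decide +kernel) fnil

theorem n703 : Lost [1, 3, 0, 5, 1, 0, 0, 1, 2, 4] := lost_of _ [] (by decide +kernel) fnil

theorem n704 : Lost [1, 3, 0, 0, 1, 0, 0, 1, 2, 0] := lost_of _ [(9, 5, [1, 3, 0, 4, 1, 0, 0, 1, 2,
    5]), (3, 5, [1, 3, 0, 5, 1, 0, 0, 1, 2, 4])] (by decide +kernel) (fcons n702 (fcons n703 fnil))

theorem n705 : Lost [1, 4, 0, 2, 1, 5, 6, 3, 2, 7] := lost_of _ [] (by decide +kernel) fnil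

theorem n706 : Lost [1, 4, 0, 2, 1, 5, 7, 3, 2, 6] := lost_of _ [] (by decide +kernel) fnil

theorem n707 : Lost [1, 4, 0, 2, 1, 5, 0, 3, 2, 0] := lost_of _ [(9, 7, [1, 4, 0, 2, 1, 5, 6, 3, 2,
    7]), (6, 7, [1, 4, 0, 2, 1, 5, 7, 3, 2, 6])] (by decide +kernel) (fcons n705 (fcons n706 fnil))

theorem n708 : Lost [1, 5, 0, 2, 1, 4, 6, 3, 2, 7] := lost_of _ [] (by decide +kernel) fnil

theorem n709 : Lost [1, 5, 0, 2, 1, 4, 7, 3, 2, 6] := lost_of _ [] (by decide +kernel) fnil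

theorem n710 : Lost [1, 5, 0, 2, 1, 4, 0, 3, 2, 0] := lost_of _ [(9, 7, [1, 5, 0, 2, 1, 4, 6, 3, 2,
    7]), (6, 7, [1, 5, 0, 2, 1, 4, 7, 3, 2, 6])] (by decide +kernel) (fcons n708 (fcons n709 fnil))

theorem n711 : Lost [1, 5, 0, 2, 1, 6, 4, 3, 2, 7] := lost_of _ [] (by decide +kernel) fnil

theorem n712 : Lost [1, 5, 0, 2, 1, 7, 4, 3, 2, 6] := lost_of _ [] (by decide +kernel) fnil

theorem n713 : Lost [1, 5, 0, 2, 1, 0, 4, 3, 2, 0] := lost_of _ [(9, 7, [1, 5, 0, 2, 1, 6, 4, 3, 2,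
    7]), (5, 7, [1, 5, 0, 2, 1, 7, 4, 3, 2, 6])] (by decide +kernel) (fcons n711 (fcons n712 fnil))

theorem n714 : Lost [1, 5, 0, 2, 1, 6, 7, 3, 2, 4] := lost_of _ [] (by decide +kernel) fnil

theorem n715 : Lost [1, 5, 0, 2, 1, 7, 6, 3, 2, 4] := lost_of _ [] (by decide +kernel) fnil

theorem n716 : Lost [1, 5, 0, 2, 1, 0, 0, 3, 2, 4] := lost_of _ [(6, 7, [1, 5, 0, 2, 1, 6, 7, 3, 2,
    4]), (5, 7, [1, 5, 0, 2, 1, 7, 6, 3, 2, 4])] (by decide +kernel) (fcons n714 (fcons n715 fnil))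

theorem n717 : Lost [1, 0, 0, 2, 1, 0, 0, 3, 2, 0] := lost_of _ [(5, 5, [1, 4, 0, 2, 1, 5, 0, 3, 2,
    0]), (1, 5, [1, 5, 0, 2, 1, 4, 0, 3, 2, 0]), (1, 5, [1, 5, 0, 2, 1, 0, 4, 3, 2, 0]), (1, 5, [1,
    5, 0, 2, 1, 0, 0, 3, 2, 4])] (by decide +kernel) (fcons n707 (fcons n710 (fcons n713 (fcons n716
    fnil))))

theorem n718 : Lost [1, 4, 0, 3, 1, 0, 0, 1, 2, 5] := lost_of _ [] (by decide +kernel) fnil

theorem n719 : Lost [1, 5, 0, 3, 1, 0, 0, 1, 2, 4] := lost_of _ [] (by decide +kernel) fnil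

theorem n720 : Lost [1, 0, 0, 3, 1, 0, 0, 1, 2, 0] := lost_of _ [(9, 5, [1, 4, 0, 3, 1, 0, 0, 1, 2,
    5]), (1, 5, [1, 5, 0, 3, 1, 0, 0, 1, 2, 4])] (by decide +kernel) (fcons n718 (fcons n719 fnil))

theorem n721 : Lost [1, 2, 0, 0, 1, 1, 0, 3, 2, 4] := lost_of _ [] (by decide +kernel) fnil

theorem n722 : Lost [1, 4, 0, 0, 1, 1, 0, 3, 2, 4] := lost_of _ [] (by decide +kernel) fnil

theorem n723 : Lost [1, 0, 0, 0, 1, 1, 0, 3, 2, 0] := lost_of _ [(9, 4, [1, 2, 0, 0, 1, 1, 0, 3, 2,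
    4]), (9, 4, [1, 4, 0, 0, 1, 1, 0, 3, 2, 4]), (1, 2, [1, 2, 0, 0, 1, 1, 0, 3, 2, 4])]
    (by decide +kernel) (fcons n721 (fcons n722 (fcons n721 fnil)))

theorem n724 : Lost [1, 4, 0, 3, 1, 2, 0, 0, 2, 2] := lost_of _ [] (by decide +kernel) fnil

theorem n725 : Lost [1, 4, 0, 3, 1, 2, 0, 0, 2, 4] := lost_of _ [] (by decide +kernel) fnil

theorem n726 : Lost [1, 0, 0, 3, 1, 2, 0, 0, 2, 0] := lost_of _ [(9, 2, [1, 4, 0, 3, 1, 2, 0, 0, 2,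
    2]), (1, 4, [1, 4, 0, 3, 1, 2, 0, 0, 2, 2]), (1, 4, [1, 4, 0, 3, 1, 2, 0, 0, 2, 4])]
    (by decide +kernel) (fcons n724 (fcons n724 (fcons n725 fnil)))

theorem n727 : Lost [1, 1, 0, 0, 1, 3, 4, 0, 2, 2] := lost_of _ [] (by decide +kernel) fnil

theorem n728 : Lost [1, 2, 0, 6, 1, 3, 4, 5, 2, 7] := lost_of _ [] (by decide +kernel) fnil

theorem n729 : Lost [1, 2, 0, 7, 1, 3, 4, 5, 2, 6] := lost_of _ [] (by decide +kernel) fnil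

theorem n730 : Lost [1, 2, 0, 0, 1, 3, 4, 5, 2, 0] := lost_of _ [(9, 7, [1, 2, 0, 6, 1, 3, 4, 5, 2,
    7]), (3, 7, [1, 2, 0, 7, 1, 3, 4, 5, 2, 6])] (by decide +kernel) (fcons n728 (fcons n729 fnil))

theorem n731 : Lost [1, 5, 0, 6, 1, 3, 4, 5, 2, 7] := lost_of _ [] (by decide +kernel) fnil

theorem n732 : Lost [1, 5, 0, 7, 1, 3, 4, 5, 2, 6] := lost_of _ [] (by decide +kernel) fnil

theorem n733 : Lost [1, 5, 0, 0, 1, 3, 4, 5, 2, 0] := lost_of _ [(9, 7, [1, 5, 0, 6, 1, 3, 4, 5, 2,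
    7]), (3, 7, [1, 5, 0, 7, 1, 3, 4, 5, 2, 6])] (by decide +kernel) (fcons n731 (fcons n732 fnil))

theorem n734 : Lost [1, 6, 0, 2, 1, 3, 4, 5, 2, 7] := lost_of _ [] (by decide +kernel) fnil

theorem n735 : Lost [1, 7, 0, 2, 1, 3, 4, 5, 2, 6] := lost_of _ [] (by decide +kernel) fnil

theorem n736 : Lost [1, 0, 0, 2, 1, 3, 4, 5, 2, 0] := lost_of _ [(9, 7, [1, 6, 0, 2, 1, 3, 4, 5, 2,
    7]), (1, 7, [1, 7, 0, 2, 1, 3, 4, 5, 2, 6])] (by decide +kernel) (fcons n734 (fcons n735 fnil))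

theorem n737 : Lost [1, 6, 0, 5, 1, 3, 4, 7, 2, 1] := lost_of _ [] (by decide +kernel) fnil

theorem n738 : Lost [1, 7, 0, 5, 1, 3, 4, 6, 2, 1] := lost_of _ [] (by decide +kernel) fnil

theorem n739 : Lost [1, 0, 0, 5, 1, 3, 4, 0, 2, 1] := lost_of _ [(7, 7, [1, 6, 0, 5, 1, 3, 4, 7, 2,
    1]), (1, 7, [1, 7, 0, 5, 1, 3, 4, 6, 2, 1])] (by decide +kernel) (fcons n737 (fcons n738 fnil))

theorem n740 : Lost [1, 5, 0, 6, 1, 3, 4, 7, 2, 1] := lost_of _ [] (by decide +kernel) fnil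

theorem n741 : Lost [1, 5, 0, 7, 1, 3, 4, 6, 2, 1] := lost_of _ [] (by decide +kernel) fnil

theorem n742 : Lost [1, 5, 0, 0, 1, 3, 4, 0, 2, 1] := lost_of _ [(7, 7, [1, 5, 0, 6, 1, 3, 4, 7, 2,
    1]), (3, 7, [1, 5, 0, 7, 1, 3, 4, 6, 2, 1])] (by decide +kernel) (fcons n740 (fcons n741 fnil))

theorem n743 : Lost [1, 1, 0, 0, 1, 3, 4, 0, 2, 3] := lost_of _ [] (by decide +kernel) fnil

theorem n744 : Lost [1, 2, 0, 6, 1, 3, 4, 7, 2, 5] := lost_of _ [] (by decide +kernel) fnil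

theorem n745 : Lost [1, 2, 0, 7, 1, 3, 4, 6, 2, 5] := lost_of _ [] (by decide +kernel) fnil

theorem n746 : Lost [1, 2, 0, 0, 1, 3, 4, 0, 2, 5] := lost_of _ [(7, 7, [1, 2, 0, 6, 1, 3, 4, 7, 2,
    5]), (3, 7, [1, 2, 0, 7, 1, 3, 4, 6, 2, 5])] (by decide +kernel) (fcons n744 (fcons n745 fnil))

theorem n747 : Lost [1, 0, 0, 0, 1, 3, 4, 0, 2, 0] := lost_of _ [(9, 2, [1, 1, 0, 0, 1, 3, 4, 0, 2,
    2]), (7, 5, [1, 2, 0, 0, 1, 3, 4, 5, 2, 0]), (7, 5, [1, 5, 0, 0, 1, 3, 4, 5, 2, 0]), (7, 5, [1,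
    0, 0, 2, 1, 3, 4, 5, 2, 0]), (9, 1, [1, 0, 0, 5, 1, 3, 4, 0, 2, 1]), (1, 2, [1, 2, 0, 0, 1, 3,
    4, 5, 2, 0]), (1, 5, [1, 5, 0, 0, 1, 3, 4, 0, 2, 1]), (1, 1, [1, 1, 0, 0, 1, 3, 4, 0, 2, 2]),
    (1, 1, [1, 1, 0, 0, 1, 3, 4, 0, 2, 3]), (1, 2, [1, 2, 0, 0, 1, 3, 4, 0, 2, 5])]
    (by decide +kernel) (fcons n727 (fcons n730 (fcons n733 (fcons n736 (fcons n739 (fcons n730
    (fcons n742 (fcons n727 (fcons n743 (fcons n746 fnil))))))))))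

theorem n748 : Lost [1, 3, 0, 4, 1, 0, 1, 0, 2, 2] := lost_of _ [] (by decide +kernel) fnil

theorem n749 : Lost [1, 4, 0, 3, 1, 0, 1, 0, 2, 2] := lost_of _ [] (by decide +kernel) fnil

end Q128.Ladder
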