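import Pool.Agent.Q128.LadderTree5

/-!
# The edge-distinguishing game on `T_10`: positions 750 to 881
-/

set_option autoImplicit false

namespace Q128.Ladder

theorem n750 : Lost [1, 0, 0, 0, 1, 0, 1, 0, 2, 2] := lost_of _ [(3, 4, [1, 3, 0, 4, 1, 0, 1, 0, 2,
    2]), (1, 4, [1, 4, 0, 3, 1, 0, 1, 0, 2, 2])] (by decide +kernel) (fcons n748 (fcons n749 fnil))

theorem n751 : Lost [1, 1, 0, 0, 1, 4, 3, 0, 2, 2] := lost_of _ [] (by decide +kernel) fnil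

theorem n752 : Lost [1, 2, 0, 6, 1, 4, 3, 5, 2, 7] := lost_of _ [] (by decide +kernel) fnil

theorem n753 : Lost [1, 2, 0, 7, 1, 4, 3, 5, 2, 6] := lost_of _ [] (by decide +kernel) fnil

theorem n754 : Lost [1, 2, 0, 0, 1, 4, 3, 5, 2, 0] := lost_of _ [(9, 7, [1, 2, 0, 6, 1, 4, 3, 5, 2,
    7]), (3, 7, [1, 2, 0, 7, 1, 4, 3, 5, 2, 6])] (by decide +kernel) (fcons n752 (fcons n753 fnil))

theorem n755 : Lost [1, 5, 0, 6, 1, 4, 3, 5, 2, 7] := lost_of _ [] (by decide +kernel) fnil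

theorem n756 : Lost [1, 5, 0, 7, 1, 4, 3, 5, 2, 6] := lost_of _ [] (by decide +kernel) fnil

theorem n757 : Lost [1, 5, 0, 0, 1, 4, 3, 5, 2, 0] := lost_of _ [(9, 7, [1, 5, 0, 6, 1, 4, 3, 5, 2,
    7]), (3, 7, [1, 5, 0, 7, 1, 4, 3, 5, 2, 6])] (by decide +kernel) (fcons n755 (fcons n756 fnil))

theorem n758 : Lost [1, 6, 0, 2, 1, 4, 3, 5, 2, 7] := lost_of _ [] (by decide +kernel) fnil

theorem n759 : Lost [1, 7, 0, 2, 1, 4, 3, 5, 2, 6] := lost_of _ [] (by decide +kernel) fnil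

theorem n760 : Lost [1, 0, 0, 2, 1, 4, 3, 5, 2, 0] := lost_of _ [(9, 7, [1, 6, 0, 2, 1, 4, 3, 5, 2,
    7]), (1, 7, [1, 7, 0, 2, 1, 4, 3, 5, 2, 6])] (by decide +kernel) (fcons n758 (fcons n759 fnil))

theorem n761 : Lost [1, 6, 0, 5, 1, 4, 3, 7, 2, 1] := lost_of _ [] (by decide +kernel) fnil

theorem n762 : Lost [1, 7, 0, 5, 1, 4, 3, 6, 2, 1] := lost_of _ [] (by decide +kernel) fnil

theorem n763 : Lost [1, 0, 0, 5, 1, 4, 3, 0, 2, 1] := lost_of _ [(7, 7, [1, 6, 0, 5, 1, 4, 3, 7, 2,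
    1]), (1, 7, [1, 7, 0, 5, 1, 4, 3, 6, 2, 1])] (by decide +kernel) (fcons n761 (fcons n762 fnil))

theorem n764 : Lost [1, 5, 0, 6, 1, 4, 3, 7, 2, 1] := lost_of _ [] (by decide +kernel) fnil

theorem n765 : Lost [1, 5, 0, 7, 1, 4, 3, 6, 2, 1] := lost_of _ [] (by decide +kernel) fnil

theorem n766 : Lost [1, 5, 0, 0, 1, 4, 3, 0, 2, 1] := lost_of _ [(7, 7, [1, 5, 0, 6, 1, 4, 3, 7, 2,
    1]), (3, 7, [1, 5, 0, 7, 1, 4, 3, 6, 2, 1])] (by decide +kernel) (fcons n764 (fcons n765 fnil))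

theorem n767 : Lost [1, 1, 0, 0, 1, 4, 3, 0, 2, 4] := lost_of _ [] (by decide +kernel) fnil

theorem n768 : Lost [1, 2, 0, 6, 1, 4, 3, 7, 2, 5] := lost_of _ [] (by decide +kernel) fnil

theorem n769 : Lost [1, 2, 0, 7, 1, 4, 3, 6, 2, 5] := lost_of _ [] (by decide +kernel) fnil

theorem n770 : Lost [1, 2, 0, 0, 1, 4, 3, 0, 2, 5] := lost_of _ [(7, 7, [1, 2, 0, 6, 1, 4, 3, 7, 2,
    5]), (3, 7, [1, 2, 0, 7, 1, 4, 3, 6, 2, 5])] (by decide +kernel) (fcons n768 (fcons n769 fnil))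

theorem n771 : Lost [1, 0, 0, 0, 1, 4, 3, 0, 2, 0] := lost_of _ [(9, 2, [1, 1, 0, 0, 1, 4, 3, 0, 2,
    2]), (7, 5, [1, 2, 0, 0, 1, 4, 3, 5, 2, 0]), (7, 5, [1, 5, 0, 0, 1, 4, 3, 5, 2, 0]), (7, 5, [1,
    0, 0, 2, 1, 4, 3, 5, 2, 0]), (9, 1, [1, 0, 0, 5, 1, 4, 3, 0, 2, 1]), (1, 2, [1, 2, 0, 0, 1, 4,
    3, 5, 2, 0]), (1, 5, [1, 5, 0, 0, 1, 4, 3, 0, 2, 1]), (1, 1, [1, 1, 0, 0, 1, 4, 3, 0, 2, 2]),
    (1, 1, [1, 1, 0, 0, 1, 4, 3, 0, 2, 4]), (1, 2, [1, 2, 0, 0, 1, 4, 3, 0, 2, 5])]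
    (by decide +kernel) (fcons n751 (fcons n754 (fcons n757 (fcons n760 (fcons n763 (fcons n754
    (fcons n766 (fcons n751 (fcons n767 (fcons n770 fnil))))))))))

theorem n772 : Lost [1, 0, 0, 1, 1, 0, 4, 3, 2, 1] := lost_of _ [] (by decide +kernel) fnil

theorem n773 : Lost [1, 0, 0, 1, 1, 0, 5, 3, 2, 4] := lost_of _ [] (by decide +kernel) fnil

theorem n774 : Lost [1, 0, 0, 1, 1, 0, 0, 3, 2, 0] := lost_of _ [(9, 1, [1, 0, 0, 1, 1, 0, 4, 3, 2,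
    1]), (6, 4, [1, 0, 0, 1, 1, 0, 4, 3, 2, 1]), (6, 5, [1, 0, 0, 1, 1, 0, 5, 3, 2, 4])]
    (by decide +kernel) (fcons n772 (fcons n772 (fcons n773 fnil)))

theorem n775 : Lost [1, 0, 0, 1, 1, 0, 3, 4, 2, 1] := lost_of _ [] (by decide +kernel) fnil

theorem n776 : Lost [1, 0, 0, 1, 1, 0, 0, 0, 2, 1] := lost_of _ [(7, 4, [1, 0, 0, 1, 1, 0, 3, 4, 2,
    1]), (6, 4, [1, 0, 0, 1, 1, 0, 4, 3, 2, 1])] (by decide +kernel) (fcons n775 (fcons n772 fnil))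

theorem n777 : Lost [1, 2, 0, 0, 1, 1, 0, 4, 2, 3] := lost_of _ [] (by decide +kernel) fnil

theorem n778 : Lost [1, 3, 0, 0, 1, 1, 0, 4, 2, 3] := lost_of _ [] (by decide +kernel) fnil

theorem n779 : Lost [1, 4, 0, 0, 1, 1, 0, 5, 2, 3] := lost_of _ [] (by decide +kernel) fnil

theorem n780 : Lost [1, 0, 0, 0, 1, 1, 0, 0, 2, 3] := lost_of _ [(7, 4, [1, 2, 0, 0, 1, 1, 0, 4, 2,
    3]), (7, 4, [1, 3, 0, 0, 1, 1, 0, 4, 2, 3]), (7, 5, [1, 4, 0, 0, 1, 1, 0, 5, 2, 3]), (1, 2, [1,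
    2, 0, 0, 1, 1, 0, 4, 2, 3])] (by decide +kernel) (fcons n777 (fcons n778 (fcons n779 (fcons n777
    fnil))))

theorem n781 : Lost [1, 0, 0, 0, 1, 0, 0, 0, 2, 0] := lost_of _ [(6, 2, [1, 1, 0, 0, 1, 0, 2, 0, 2,
    0]), (7, 2, [1, 2, 0, 0, 1, 0, 0, 2, 2, 0]), (7, 1, [1, 3, 0, 0, 1, 0, 0, 1, 2, 0]), (7, 2, [1,
    0, 0, 1, 1, 0, 0, 2, 2, 0]), (7, 3, [1, 0, 0, 2, 1, 0, 0, 3, 2, 0]), (7, 1, [1, 0, 0, 3, 1, 0,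
    0, 1, 2, 0]), (7, 3, [1, 0, 0, 0, 1, 1, 0, 3, 2, 0]), (3, 3, [1, 0, 0, 3, 1, 2, 0, 0, 2, 0]),
    (6, 4, [1, 0, 0, 0, 1, 3, 4, 0, 2, 0]), (9, 2, [1, 0, 0, 0, 1, 0, 1, 0, 2, 2]), (1, 1, [1, 1, 0,
    0, 1, 0, 2, 0, 2, 0]), (5, 4, [1, 0, 0, 0, 1, 4, 3, 0, 2, 0]), (1, 3, [1, 3, 0, 0, 1, 0, 0, 1,
    2, 0]), (3, 1, [1, 0, 0, 1, 1, 0, 0, 2, 2, 0]), (3, 1, [1, 0, 0, 1, 1, 0, 0, 3, 2, 0]), (3, 1,
    [1, 0, 0, 1, 1, 0, 0, 0, 2, 1]), (6, 1, [1, 0, 0, 0, 1, 0, 1, 0, 2, 2]), (5, 1, [1, 0, 0, 0, 1,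
    1, 0, 0, 2, 3])] (by decide +kernel) (fcons n701 (fcons n383 (fcons n704 (fcons n387 (fcons n717
    (fcons n720 (fcons n723 (fcons n726 (fcons n747 (fcons n750 (fcons n701 (fcons n771 (fcons n704
    (fcons n387 (fcons n774 (fcons n776 (fcons n750 (fcons n780 fnil))))))))))))))))))

theorem n782 : Lost [1, 2, 3, 4, 0, 5, 3, 6, 7, 1] := lost_of _ [] (by decide +kernel) fnil

theorem n783 : Lost [1, 2, 3, 4, 0, 5, 3, 7, 6, 1] := lost_of _ [] (by decide +kernel) fnil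

theorem n784 : Lost [1, 2, 3, 4, 0, 5, 3, 0, 0, 1] := lost_of _ [(8, 7, [1, 2, 3, 4, 0, 5, 3, 6, 7,
    1]), (7, 7, [1, 2, 3, 4, 0, 5, 3, 7, 6, 1])] (by decide +kernel) (fcons n782 (fcons n783 fnil))

theorem n785 : Lost [1, 2, 3, 0, 0, 3, 3, 0, 4, 1] := lost_of _ [] (by decide +kernel) fnil

theorem n786 : Lost [1, 2, 3, 5, 0, 4, 3, 6, 7, 1] := lost_of _ [] (by decide +kernel) fnil

theorem n787 : Lost [1, 2, 3, 5, 0, 4, 3, 7, 6, 1] := lost_of _ [] (by decide +kernel) fnil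

theorem n788 : Lost [1, 2, 3, 5, 0, 4, 3, 0, 0, 1] := lost_of _ [(8, 7, [1, 2, 3, 5, 0, 4, 3, 6, 7,
    1]), (7, 7, [1, 2, 3, 5, 0, 4, 3, 7, 6, 1])] (by decide +kernel) (fcons n786 (fcons n787 fnil))

theorem n789 : Lost [1, 2, 3, 5, 0, 6, 3, 4, 7, 1] := lost_of _ [] (by decide +kernel) fnil

theorem n790 : Lost [1, 2, 3, 5, 0, 7, 3, 4, 6, 1] := lost_of _ [] (by decide +kernel) fnil

theorem n791 : Lost [1, 2, 3, 5, 0, 0, 3, 4, 0, 1] := lost_of _ [(8, 7, [1, 2, 3, 5, 0, 6, 3, 4, 7,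
    1]), (5, 7, [1, 2, 3, 5, 0, 7, 3, 4, 6, 1])] (by decide +kernel) (fcons n789 (fcons n790 fnil))

theorem n792 : Lost [1, 2, 3, 0, 0, 0, 3, 0, 0, 1] := lost_of _ [(5, 5, [1, 2, 3, 4, 0, 5, 3, 0, 0,
    1]), (8, 4, [1, 2, 3, 0, 0, 3, 3, 0, 4, 1]), (3, 5, [1, 2, 3, 5, 0, 4, 3, 0, 0, 1]), (3, 5, [1,
    2, 3, 5, 0, 0, 3, 4, 0, 1]), (5, 3, [1, 2, 3, 0, 0, 3, 3, 0, 4, 1])] (by decide +kernel) (fcons
    n784 (fcons n785 (fcons n788 (fcons n791 (fcons n785 fnil)))))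

theorem n793 : Lost [1, 2, 0, 2, 3, 4, 1, 0, 0, 1] := lost_of _ [] (by decide +kernel) fnil

theorem n794 : Lost [1, 2, 0, 2, 4, 3, 1, 0, 0, 1] := lost_of _ [] (by decide +kernel) fnil

theorem n795 : Lost [1, 2, 0, 2, 0, 0, 1, 0, 0, 1] := lost_of _ [(5, 4, [1, 2, 0, 2, 3, 4, 1, 0, 0,
    1]), (4, 4, [1, 2, 0, 2, 4, 3, 1, 0, 0, 1])] (by decide +kernel) (fcons n793 (fcons n794 fnil))

theorem n796 : Lost [1, 2, 4, 3, 0, 0, 3, 3, 0, 1] := lost_of _ [] (by decide +kernel) fnil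

theorem n797 : Lost [1, 2, 0, 3, 3, 0, 0, 3, 4, 1] := lost_of _ [] (by decide +kernel) fnil

theorem n798 : Lost [1, 2, 5, 3, 4, 0, 6, 3, 7, 1] := lost_of _ [] (by decide +kernel) fnil

theorem n799 : Lost [1, 2, 5, 3, 4, 0, 7, 3, 6, 1] := lost_of _ [] (by decide +kernel) fnil

theorem n800 : Lost [1, 2, 5, 3, 4, 0, 0, 3, 0, 1] := lost_of _ [(8, 7, [1, 2, 5, 3, 4, 0, 6, 3, 7,
    1]), (6, 7, [1, 2, 5, 3, 4, 0, 7, 3, 6, 1])] (by decide +kernel) (fcons n798 (fcons n799 fnil))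

theorem n801 : Lost [1, 2, 5, 3, 6, 0, 4, 3, 7, 1] := lost_of _ [] (by decide +kernel) fnil

theorem n802 : Lost [1, 2, 5, 3, 7, 0, 4, 3, 6, 1] := lost_of _ [] (by decide +kernel) fnil

theorem n803 : Lost [1, 2, 5, 3, 0, 0, 4, 3, 0, 1] := lost_of _ [(8, 7, [1, 2, 5, 3, 6, 0, 4, 3, 7,
    1]), (4, 7, [1, 2, 5, 3, 7, 0, 4, 3, 6, 1])] (by decide +kernel) (fcons n801 (fcons n802 fnil))

theorem n804 : Lost [1, 2, 0, 3, 0, 0, 0, 3, 0, 1] := lost_of _ [(6, 3, [1, 2, 4, 3, 0, 0, 3, 3, 0,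
    1]), (8, 4, [1, 2, 0, 3, 3, 0, 0, 3, 4, 1]), (2, 5, [1, 2, 5, 3, 4, 0, 0, 3, 0, 1]), (2, 4, [1,
    2, 4, 3, 0, 0, 3, 3, 0, 1]), (2, 5, [1, 2, 5, 3, 0, 0, 4, 3, 0, 1]), (4, 3, [1, 2, 0, 3, 3, 0,
    0, 3, 4, 1])] (by decide +kernel) (fcons n796 (fcons n797 (fcons n800 (fcons n796 (fcons n803
    (fcons n797 fnil))))))

theorem n805 : Lost [1, 2, 0, 3, 1, 4, 0, 0, 1, 1] := lost_of _ [] (by decide +kernel) fnil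

theorem n806 : Lost [1, 2, 0, 4, 1, 3, 0, 0, 1, 1] := lost_of _ [] (by decide +kernel) fnil

theorem n807 : Lost [1, 2, 0, 0, 1, 0, 0, 0, 1, 1] := lost_of _ [(5, 4, [1, 2, 0, 3, 1, 4, 0, 0, 1,
    1]), (3, 4, [1, 2, 0, 4, 1, 3, 0, 0, 1, 1])] (by decide +kernel) (fcons n805 (fcons n806 fnil))

theorem n808 : Lost [1, 2, 0, 0, 2, 0, 2, 3, 4, 1] := lost_of _ [] (by decide +kernel) fnil

theorem n809 : Lost [1, 2, 0, 0, 2, 0, 2, 4, 3, 1] := lost_of _ [] (by decide +kernel) fnil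

theorem n810 : Lost [1, 2, 0, 0, 2, 0, 2, 0, 0, 1] := lost_of _ [(8, 4, [1, 2, 0, 0, 2, 0, 2, 3, 4,
    1]), (7, 4, [1, 2, 0, 0, 2, 0, 2, 4, 3, 1])] (by decide +kernel) (fcons n808 (fcons n809 fnil))

theorem n811 : Lost [1, 2, 4, 6, 3, 0, 3, 5, 7, 1] := lost_of _ [] (by decide +kernel) fnil

theorem n812 : Lost [1, 2, 4, 7, 3, 0, 3, 5, 6, 1] := lost_of _ [] (by decide +kernel) fnil

theorem n813 : Lost [1, 2, 4, 0, 3, 0, 3, 5, 0, 1] := lost_of _ [(8, 7, [1, 2, 4, 6, 3, 0, 3, 5, 7,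
    1]), (3, 7, [1, 2, 4, 7, 3, 0, 3, 5, 6, 1])] (by decide +kernel) (fcons n811 (fcons n812 fnil))

theorem n814 : Lost [1, 2, 6, 4, 3, 0, 3, 5, 7, 1] := lost_of _ [] (by decide +kernel) fnil

theorem n815 : Lost [1, 2, 7, 4, 3, 0, 3, 5, 6, 1] := lost_of _ [] (by decide +kernel) fnil

theorem n816 : Lost [1, 2, 0, 4, 3, 0, 3, 5, 0, 1] := lost_of _ [(8, 7, [1, 2, 6, 4, 3, 0, 3, 5, 7,
    1]), (2, 7, [1, 2, 7, 4, 3, 0, 3, 5, 6, 1])] (by decide +kernel) (fcons n814 (fcons n815 fnil))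

theorem n817 : Lost [1, 2, 5, 6, 3, 0, 3, 4, 7, 1] := lost_of _ [] (by decide +kernel) fnil

theorem n818 : Lost [1, 2, 5, 7, 3, 0, 3, 4, 6, 1] := lost_of _ [] (by decide +kernel) fnil

theorem n819 : Lost [1, 2, 5, 0, 3, 0, 3, 4, 0, 1] := lost_of _ [(8, 7, [1, 2, 5, 6, 3, 0, 3, 4, 7,
    1]), (3, 7, [1, 2, 5, 7, 3, 0, 3, 4, 6, 1])] (by decide +kernel) (fcons n817 (fcons n818 fnil))

theorem n820 : Lost [1, 2, 0, 2, 3, 0, 3, 0, 1, 1] := lost_of _ [] (by decide +kernel) fnil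

theorem n821 : Lost [1, 2, 5, 6, 3, 0, 3, 7, 4, 1] := lost_of _ [] (by decide +kernel) fnil

theorem n822 : Lost [1, 2, 5, 7, 3, 0, 3, 6, 4, 1] := lost_of _ [] (by decide +kernel) fnil

theorem n823 : Lost [1, 2, 5, 0, 3, 0, 3, 0, 4, 1] := lost_of _ [(7, 7, [1, 2, 5, 6, 3, 0, 3, 7, 4,
    1]), (3, 7, [1, 2, 5, 7, 3, 0, 3, 6, 4, 1])] (by decide +kernel) (fcons n821 (fcons n822 fnil))

theorem n824 : Lost [1, 2, 0, 0, 3, 0, 3, 0, 0, 1] := lost_of _ [(7, 5, [1, 2, 4, 0, 3, 0, 3, 5, 0,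
    1]), (7, 1, [1, 2, 0, 2, 3, 0, 3, 1, 0, 1]), (7, 5, [1, 2, 0, 4, 3, 0, 3, 5, 0, 1]), (3, 2, [1,
    2, 0, 2, 3, 0, 3, 1, 0, 1]), (2, 5, [1, 2, 5, 0, 3, 0, 3, 4, 0, 1]), (3, 2, [1, 2, 0, 2, 3, 0,
    3, 0, 1, 1]), (2, 5, [1, 2, 5, 0, 3, 0, 3, 0, 4, 1])] (by decide +kernel) (fcons n813 (fcons
    n118 (fcons n816 (fcons n118 (fcons n819 (fcons n820 (fcons n823 fnil)))))))

theorem n825 : Lost [1, 2, 3, 4, 0, 1, 1, 0, 0, 1] := lost_of _ [] (by decide +kernel) fnil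

theorem n826 : Lost [1, 2, 4, 3, 0, 1, 1, 0, 0, 1] := lost_of _ [] (by decide +kernel) fnil

theorem n827 : Lost [1, 2, 0, 0, 0, 1, 1, 0, 0, 1] := lost_of _ [(3, 4, [1, 2, 3, 4, 0, 1, 1, 0, 0,
    1]), (2, 4, [1, 2, 4, 3, 0, 1, 1, 0, 0, 1])] (by decide +kernel) (fcons n825 (fcons n826 fnil))

theorem n828 : Lost [1, 2, 3, 0, 0, 2, 2, 0, 4, 1] := lost_of _ [] (by decide +kernel) fnil

theorem n829 : Lost [1, 2, 4, 0, 0, 2, 2, 0, 3, 1] := lost_of _ [] (by decide +kernel) fnil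

theorem n830 : Lost [1, 2, 0, 0, 0, 2, 2, 0, 0, 1] := lost_of _ [(8, 4, [1, 2, 3, 0, 0, 2, 2, 0, 4,
    1]), (2, 4, [1, 2, 4, 0, 0, 2, 2, 0, 3, 1])] (by decide +kernel) (fcons n828 (fcons n829 fnil))

theorem n831 : Lost [1, 2, 0, 5, 1, 3, 4, 6, 7, 1] := lost_of _ [] (by decide +kernel) fnil

theorem n832 : Lost [1, 2, 0, 5, 1, 3, 4, 7, 6, 1] := lost_of _ [] (by decide +kernel) fnil

theorem n833 : Lost [1, 2, 0, 5, 1, 3, 4, 0, 0, 1] := lost_of _ [(8, 7, [1, 2, 0, 5, 1, 3, 4, 6, 7,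
    1]), (7, 7, [1, 2, 0, 5, 1, 3, 4, 7, 6, 1])] (by decide +kernel) (fcons n831 (fcons n832 fnil))

theorem n834 : Lost [1, 2, 0, 5, 1, 3, 6, 4, 7, 1] := lost_of _ [] (by decide +kernel) fnil

theorem n835 : Lost [1, 2, 0, 5, 1, 3, 7, 4, 6, 1] := lost_of _ [] (by decide +kernel) fnil

theorem n836 : Lost [1, 2, 0, 5, 1, 3, 0, 4, 0, 1] := lost_of _ [(8, 7, [1, 2, 0, 5, 1, 3, 6, 4, 7,
    1]), (6, 7, [1, 2, 0, 5, 1, 3, 7, 4, 6, 1])] (by decide +kernel) (fcons n834 (fcons n835 fnil))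

theorem n837 : Lost [1, 2, 0, 5, 1, 3, 6, 7, 4, 1] := lost_of _ [] (by decide +kernel) fnil

theorem n838 : Lost [1, 2, 0, 5, 1, 3, 7, 6, 4, 1] := lost_of _ [] (by decide +kernel) fnil

theorem n839 : Lost [1, 2, 0, 5, 1, 3, 0, 0, 4, 1] := lost_of _ [(7, 7, [1, 2, 0, 5, 1, 3, 6, 7, 4,
    1]), (6, 7, [1, 2, 0, 5, 1, 3, 7, 6, 4, 1])] (by decide +kernel) (fcons n837 (fcons n838 fnil))

theorem n840 : Lost [1, 2, 0, 0, 1, 3, 0, 0, 0, 1] := lost_of _ [(8, 1, [1, 2, 0, 4, 1, 3, 0, 0, 1,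
    1]), (3, 5, [1, 2, 0, 5, 1, 3, 4, 0, 0, 1]), (3, 5, [1, 2, 0, 5, 1, 3, 0, 4, 0, 1]), (3, 4, [1,
    2, 0, 4, 1, 3, 0, 0, 1, 1]), (3, 5, [1, 2, 0, 5, 1, 3, 0, 0, 4, 1])] (by decide +kernel) (fcons
    n806 (fcons n833 (fcons n836 (fcons n806 (fcons n839 fnil)))))

theorem n841 : Lost [1, 2, 0, 2, 0, 0, 2, 3, 4, 1] := lost_of _ [] (by decide +kernel) fnil

theorem n842 : Lost [1, 2, 0, 2, 0, 0, 2, 4, 3, 1] := lost_of _ [] (by decide +kernel) fnil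

theorem n843 : Lost [1, 2, 0, 2, 0, 0, 2, 0, 0, 1] := lost_of _ [(8, 4, [1, 2, 0, 2, 0, 0, 2, 3, 4,
    1]), (7, 4, [1, 2, 0, 2, 0, 0, 2, 4, 3, 1])] (by decide +kernel) (fcons n841 (fcons n842 fnil))

theorem n844 : Lost [1, 2, 4, 3, 0, 3, 0, 0, 3, 1] := lost_of _ [] (by decide +kernel) fnil

theorem n845 : Lost [1, 2, 0, 3, 3, 0, 0, 4, 3, 1] := lost_of _ [] (by decide +kernel) fnil

theorem n846 : Lost [1, 2, 5, 3, 4, 6, 7, 0, 3, 1] := lost_of _ [] (by decide +kernel) fnil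

theorem n847 : Lost [1, 2, 5, 3, 4, 7, 6, 0, 3, 1] := lost_of _ [] (by decide +kernel) fnil

theorem n848 : Lost [1, 2, 5, 3, 4, 7, 0, 6, 3, 1] := lost_of _ [] (by decide +kernel) fnil

theorem n849 : Lost [1, 2, 5, 3, 4, 0, 0, 0, 3, 1] := lost_of _ [(6, 7, [1, 2, 5, 3, 4, 6, 7, 0, 3,
    1]), (5, 7, [1, 2, 5, 3, 4, 7, 6, 0, 3, 1]), (5, 7, [1, 2, 5, 3, 4, 7, 0, 6, 3, 1])]
    (by decide +kernel) (fcons n846 (fcons n847 (fcons n848 fnil)))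

theorem n850 : Lost [1, 2, 5, 3, 6, 4, 7, 0, 3, 1] := lost_of _ [] (by decide +kernel) fnil

theorem n851 : Lost [1, 2, 5, 3, 7, 4, 6, 0, 3, 1] := lost_of _ [] (by decide +kernel) fnil

theorem n852 : Lost [1, 2, 5, 3, 7, 4, 0, 6, 3, 1] := lost_of _ [] (by decide +kernel) fnil

theorem n853 : Lost [1, 2, 5, 3, 0, 4, 0, 0, 3, 1] := lost_of _ [(6, 7, [1, 2, 5, 3, 6, 4, 7, 0, 3,
    1]), (4, 7, [1, 2, 5, 3, 7, 4, 6, 0, 3, 1]), (4, 7, [1, 2, 5, 3, 7, 4, 0, 6, 3, 1])]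
    (by decide +kernel) (fcons n850 (fcons n851 (fcons n852 fnil)))

theorem n854 : Lost [1, 2, 4, 3, 0, 0, 3, 0, 3, 1] := lost_of _ [] (by decide +kernel) fnil

theorem n855 : Lost [1, 2, 5, 3, 6, 7, 4, 0, 3, 1] := lost_of _ [] (by decide +kernel) fnil

theorem n856 : Lost [1, 2, 5, 3, 7, 6, 4, 0, 3, 1] := lost_of _ [] (by decide +kernel) fnil

theorem n857 : Lost [1, 2, 5, 3, 7, 0, 4, 6, 3, 1] := lost_of _ [] (by decide +kernel) fnil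

theorem n858 : Lost [1, 2, 5, 3, 0, 0, 4, 0, 3, 1] := lost_of _ [(5, 7, [1, 2, 5, 3, 6, 7, 4, 0, 3,
    1]), (4, 7, [1, 2, 5, 3, 7, 6, 4, 0, 3, 1]), (4, 7, [1, 2, 5, 3, 7, 0, 4, 6, 3, 1])]
    (by decide +kernel) (fcons n855 (fcons n856 (fcons n857 fnil)))

theorem n859 : Lost [1, 2, 0, 3, 0, 0, 0, 0, 3, 1] := lost_of _ [(5, 3, [1, 2, 4, 3, 0, 3, 0, 0, 3,
    1]), (7, 4, [1, 2, 0, 3, 3, 0, 0, 4, 3, 1]), (2, 5, [1, 2, 5, 3, 4, 0, 0, 0, 3, 1]), (2, 4, [1,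
    2, 4, 3, 0, 3, 0, 0, 3, 1]), (2, 5, [1, 2, 5, 3, 0, 4, 0, 0, 3, 1]), (2, 4, [1, 2, 4, 3, 0, 0,
    3, 0, 3, 1]), (2, 5, [1, 2, 5, 3, 0, 0, 4, 0, 3, 1]), (4, 3, [1, 2, 0, 3, 3, 0, 0, 4, 3, 1])]
    (by decide +kernel) (fcons n844 (fcons n845 (fcons n849 (fcons n844 (fcons n853 (fcons n854
    (fcons n858 (fcons n845 fnil))))))))

theorem n860 : Lost [1, 2, 0, 0, 0, 0, 0, 0, 0, 1] := lost_of _ [(6, 3, [1, 2, 3, 0, 0, 0, 3, 0, 0,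
    1]), (6, 1, [1, 2, 0, 2, 0, 0, 1, 0, 0, 1]), (7, 3, [1, 2, 0, 3, 0, 0, 0, 3, 0, 1]), (8, 1, [1,
    2, 0, 0, 1, 0, 0, 0, 1, 1]), (6, 2, [1, 2, 0, 0, 2, 0, 2, 0, 0, 1]), (6, 3, [1, 2, 0, 0, 3, 0,
    3, 0, 0, 1]), (6, 1, [1, 2, 0, 0, 0, 1, 1, 0, 0, 1]), (6, 2, [1, 2, 0, 0, 0, 2, 2, 0, 0, 1]),
    (4, 1, [1, 2, 0, 0, 1, 3, 0, 0, 0, 1]), (3, 2, [1, 2, 0, 2, 0, 0, 1, 0, 0, 1]), (3, 2, [1, 2, 0,
    2, 0, 0, 2, 0, 0, 1]), (7, 1, [1, 2, 0, 0, 0, 0, 3, 1, 0, 1]), (4, 2, [1, 2, 0, 0, 2, 0, 0, 1,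
    0, 1]), (3, 3, [1, 2, 0, 3, 0, 0, 0, 3, 0, 1]), (4, 1, [1, 2, 0, 0, 1, 0, 0, 0, 1, 1]), (3, 3,
    [1, 2, 0, 3, 0, 0, 0, 0, 3, 1])] (by decide +kernel) (fcons n792 (fcons n795 (fcons n804 (fcons
    n807 (fcons n810 (fcons n824 (fcons n827 (fcons n830 (fcons n840 (fcons n795 (fcons n843 (fcons
    n120 (fcons n68 (fcons n804 (fcons n807 (fcons n859 fnil))))))))))))))))

theorem n861 : Lost [1, 0, 0, 1, 3, 0, 4, 1, 5, 2] := lost_of _ [] (by decide +kernel) fnil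

theorem n862 : Lost [1, 0, 0, 1, 3, 0, 5, 1, 4, 2] := lost_of _ [] (by decide +kernel) fnil

theorem n863 : Lost [1, 0, 0, 1, 3, 0, 0, 1, 0, 2] := lost_of _ [(8, 5, [1, 0, 0, 1, 3, 0, 4, 1, 5,
    2]), (6, 5, [1, 0, 0, 1, 3, 0, 5, 1, 4, 2])] (by decide +kernel) (fcons n861 (fcons n862 fnil))

theorem n864 : Lost [1, 0, 0, 1, 0, 1, 2, 0, 0, 2] := lost_of _ [] (by decide +kernel) fnil

theorem n865 : Lost [1, 0, 0, 1, 4, 3, 5, 2, 0, 2] := lost_of _ [] (by decide +kernel) fnil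

theorem n866 : Lost [1, 0, 0, 1, 5, 3, 4, 2, 0, 2] := lost_of _ [] (by decide +kernel) fnil

theorem n867 : Lost [1, 0, 0, 1, 0, 3, 0, 2, 0, 2] := lost_of _ [(6, 5, [1, 0, 0, 1, 4, 3, 5, 2, 0,
    2]), (4, 5, [1, 0, 0, 1, 5, 3, 4, 2, 0, 2])] (by decide +kernel) (fcons n865 (fcons n866 fnil))

theorem n868 : Lost [1, 0, 0, 1, 0, 0, 1, 1, 0, 2] := lost_of _ [] (by decide +kernel) fnil

theorem n869 : Lost [1, 0, 0, 1, 4, 2, 3, 0, 5, 2] := lost_of _ [] (by decide +kernel) fnil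

theorem n870 : Lost [1, 0, 0, 1, 5, 2, 3, 0, 4, 2] := lost_of _ [] (by decide +kernel) fnil

theorem n871 : Lost [1, 0, 0, 1, 0, 2, 3, 0, 0, 2] := lost_of _ [(8, 5, [1, 0, 0, 1, 4, 2, 3, 0, 5,
    2]), (4, 5, [1, 0, 0, 1, 5, 2, 3, 0, 4, 2])] (by decide +kernel) (fcons n869 (fcons n870 fnil))

theorem n872 : Lost [1, 0, 0, 1, 0, 1, 4, 3, 5, 2] := lost_of _ [] (by decide +kernel) fnil

theorem n873 : Lost [1, 0, 0, 1, 0, 1, 5, 3, 4, 2] := lost_of _ [] (by decide +kernel) fnil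

theorem n874 : Lost [1, 0, 0, 1, 0, 1, 0, 3, 0, 2] := lost_of _ [(8, 5, [1, 0, 0, 1, 0, 1, 4, 3, 5,
    2]), (6, 5, [1, 0, 0, 1, 0, 1, 5, 3, 4, 2])] (by decide +kernel) (fcons n872 (fcons n873 fnil))

theorem n875 : Lost [1, 0, 0, 1, 0, 1, 0, 0, 1, 2] := lost_of _ [] (by decide +kernel) fnil

theorem n876 : Lost [1, 0, 0, 1, 0, 0, 1, 0, 2, 2] := lost_of _ [] (by decide +kernel) fnil

theorem n877 : Lost [1, 0, 0, 1, 3, 4, 0, 5, 3, 2] := lost_of _ [] (by decide +kernel) fnil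

theorem n878 : Lost [1, 0, 0, 1, 3, 5, 0, 4, 3, 2] := lost_of _ [] (by decide +kernel) fnil

theorem n879 : Lost [1, 0, 0, 1, 3, 0, 0, 0, 3, 2] := lost_of _ [(7, 5, [1, 0, 0, 1, 3, 4, 0, 5, 3,
    2]), (5, 5, [1, 0, 0, 1, 3, 5, 0, 4, 3, 2])] (by decide +kernel) (fcons n877 (fcons n878 fnil))

theorem n880 : Lost [1, 0, 0, 1, 0, 0, 0, 0, 0, 2] := lost_of _ [(6, 2, [1, 0, 0, 1, 1, 0, 2, 0, 0,
    2]), (6, 2, [1, 0, 0, 1, 2, 0, 2, 0, 0, 2]), (7, 1, [1, 0, 0, 1, 3, 0, 0, 1, 0, 2]), (6, 2, [1,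
    0, 0, 1, 0, 1, 2, 0, 0, 2]), (6, 2, [1, 0, 0, 1, 0, 2, 2, 0, 0, 2]), (7, 2, [1, 0, 0, 1, 0, 3,
    0, 2, 0, 2]), (7, 1, [1, 0, 0, 1, 0, 0, 1, 1, 0, 2]), (4, 1, [1, 0, 0, 1, 1, 0, 2, 0, 0, 2]),
    (5, 2, [1, 0, 0, 1, 0, 2, 3, 0, 0, 2]), (6, 1, [1, 0, 0, 1, 0, 0, 1, 1, 0, 2]), (4, 2, [1, 0, 0,
    1, 2, 0, 0, 2, 0, 2]), (5, 1, [1, 0, 0, 1, 0, 1, 0, 3, 0, 2]), (5, 1, [1, 0, 0, 1, 0, 1, 0, 0,
    1, 2]), (6, 1, [1, 0, 0, 1, 0, 0, 1, 0, 2, 2]), (4, 3, [1, 0, 0, 1, 3, 0, 0, 0, 3, 2])]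
    (by decide +kernel) (fcons n593 (fcons n283 (fcons n863 (fcons n864 (fcons n595 (fcons n867
    (fcons n868 (fcons n593 (fcons n871 (fcons n868 (fcons n673 (fcons n874 (fcons n875 (fcons n876
    (fcons n879 fnil)))))))))))))))

theorem n881 : Lost [1, 0, 0, 0, 0, 0, 0, 0, 0, 0] := lost_of _ [(6, 1, [1, 1, 0, 0, 0, 0, 1, 0, 0,
    0]), (7, 1, [1, 2, 0, 0, 0, 0, 0, 1, 0, 0]), (9, 2, [1, 0, 1, 0, 0, 0, 0, 0, 0, 2]), (9, 2, [1,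
    0, 2, 0, 0, 0, 0, 0, 0, 2]), (4, 2, [1, 0, 0, 1, 2, 0, 0, 0, 0, 0]), (5, 2, [1, 0, 0, 2, 0, 2,
    0, 0, 0, 0]), (7, 2, [1, 0, 0, 0, 1, 0, 0, 2, 0, 0]), (3, 1, [1, 0, 0, 1, 2, 0, 0, 0, 0, 0]),
    (7, 1, [1, 0, 0, 0, 0, 1, 0, 1, 0, 0]), (1, 1, [1, 1, 0, 0, 0, 2, 0, 0, 0, 0]), (8, 1, [1, 0, 0,
    0, 0, 0, 1, 0, 1, 0]), (9, 2, [1, 0, 0, 0, 0, 0, 2, 0, 0, 2]), (2, 1, [1, 0, 1, 0, 0, 0, 0, 1,
    0, 0]), (9, 2, [1, 0, 0, 0, 0, 0, 0, 2, 0, 2]), (6, 1, [1, 0, 0, 0, 0, 0, 1, 0, 1, 0]), (4, 1,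
    [1, 0, 0, 0, 1, 0, 0, 0, 2, 0]), (1, 2, [1, 2, 0, 0, 0, 0, 0, 0, 0, 1]), (3, 1, [1, 0, 0, 1, 0,
    0, 0, 0, 0, 2])] (by decide +kernel) (fcons n42 (fcons n127 (fcons n179 (fcons n279 (fcons n298
    (fcons n377 (fcons n446 (fcons n298 (fcons n512 (fcons n560 (fcons n584 (fcons n599 (fcons n665
    (fcons n698 (fcons n584 (fcons n781 (fcons n860 (fcons n880 fnil))))))))))))))))))

end Q128.Ladder
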