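import Pool.Agent.Q128.Mixing

/-!
# Mixing is constant between critical ratios

Let `N ≥ |V(G)| + 1`. If no fraction `L / w` with `L ≤ N` lies between `k / q` and `k' / q'` (ends
included), then `G` is `(k, q)`-mixing if and only if it is `(k', q')`-mixing.
-/

set_option autoImplicit false

namespace Q128.MixTransfer

open SimpleGraph Relation Q128.Mixing

/-- the pairs `(k, q)` and `(k', q')` lie on the same side of all the fractions `L / w`, `L ≤ N` -/
def Same (N k q k' q' : ℕ) : Prop :=
  ∀ L w : ℕ, 1 ≤ L → L ≤ N → (w * k < L * q ∧ w * k' < L * q') ∨ (L * q < w * k ∧ L * q' < w * k')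

theorem Same.symm {N k q k' q' : ℕ} (h : Same N k q k' q') : Same N k' q' k q := by
  intro L w h1 h2
  rcases h L w h1 h2 with h3 | h3
  · exact Or.inl h3.symm
  · exact Or.inr h3.symm

theorem Same.ne {N k q k' q' : ℕ} (h : Same N k q k' q') {L w : ℕ} (h1 : 1 ≤ L) (h2 : L ≤ N) :
    w * k ≠ L * q := by
  rcases h L w h1 h2 with h3 | h3 <;> omega

/-- signs of small integer combinations of `q` and `k` -/
theorem Same.sign {N k q k' q' : ℕ} (h : Same N k q k' q') (hk : 1 ≤ k) {A B : ℤ}
    (hA : |A| ≤ N) (h0 : 0 ≤ A * q - B * k) : 0 ≤ A * q' - B * k' := by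
  rw [abs_le] at hA
  rcases lt_trichotomy A 0 with hA0 | hA0 | hA0
  · -- `A < 0`
    by_cases hB : 0 ≤ B
    · exfalso
      obtain ⟨a, ha⟩ : ∃ a : ℕ, A = -(a : ℤ) := ⟨(-A).toNat, by omega⟩
      obtain ⟨b, hb⟩ : ∃ b : ℕ, B = b := ⟨B.toNat, by omega⟩
      subst ha hb
      have h1 : (a : ℤ) * q + b * k ≤ 0 := by linarith
      have h2 : a * q + b * k ≤ 0 := by exact_mod_cast h1
      have h3 : a * q = 0 := by omega
      have h5 := h.ne (L := a) (w := 0) (by omega) (by omega)
      rw [h3, zero_mul] at h5
      exact h5 rfl
    · obtain ⟨a, ha⟩ : ∃ a : ℕ, A = -(a : ℤ) := ⟨(-A).toNat, by omega⟩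
      obtain ⟨b, hb⟩ : ∃ b : ℕ, B = -(b : ℤ) := ⟨(-B).toNat, by omega⟩
      subst ha hb
      have h1 : (a : ℤ) * q ≤ b * k := by linarith
      have h2 : a * q ≤ b * k := by exact_mod_cast h1
      have h3 : a * q' ≤ b * k' := by
        rcases h a b (by omega) (by omega) with h4 | h4
        · omega
        · exact h4.2.le
      have h4 : (a : ℤ) * q' ≤ b * k' := by exact_mod_cast h3
      linarith
  · subst hA0
    rw [zero_mul, zero_sub] at h0 ⊢
    by_contra hcon
    push Not at hcon
    have hB : 0 < B := by
      by_contra hB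
      push Not at hB
      have : B * (k' : ℤ) ≤ 0 := mul_nonpos_of_nonpos_of_nonneg hB (by positivity)
      linarith
    have : 0 < B * (k : ℤ) := mul_pos hB (by exact_mod_cast hk)
    linarith
  · by_cases hB : B ≤ 0
    · have : B * (k' : ℤ) ≤ 0 := mul_nonpos_of_nonpos_of_nonneg hB (by positivity)
      have : 0 ≤ A * (q' : ℤ) := by positivity
      linarith
    · obtain ⟨a, ha⟩ : ∃ a : ℕ, A = a := ⟨A.toNat, by omega⟩
      obtain ⟨b, hb⟩ : ∃ b : ℕ, B = b := ⟨B.toNat, by omega⟩
      subst ha hb
      have h1 : (b : ℤ) * k ≤ a * q := by linarith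
      have h2 : b * k ≤ a * q := by exact_mod_cast h1
      have h3 : b * k' ≤ a * q' := by
        rcases h a b (by omega) (by omega) with h4 | h4
        · exact h4.2.le
        · omega
      have h4 : (b : ℤ) * k' ≤ a * q' := by exact_mod_cast h3
      linarith

/-! ### Cycles of pointers -/

theorem iterate_sum {W : Type*} {k q : ℕ} (f : W → ℕ) (p : W → W) (v : W) (n : ℕ)
    (h : ∀ i, i < n → f (p^[i] v) = f (p^[i + 1] v) + q ∨ f (p^[i] v) + k = f (p^[i + 1] v) + q) :
    ∃ w, f v + w * k = f (p^[n] v) + n * q := by
  induction n with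
  | zero => exact ⟨0, by simp⟩
  | succ n ih =>
    obtain ⟨w, hw⟩ := ih fun i hi => h i (by omega)
    rcases h n (by omega) with h1 | h1
    · refine ⟨w, ?_⟩
      rw [hw, h1]; ring
    · refine ⟨w + 1, ?_⟩
      have : f v + (w + 1) * k = (f v + w * k) + k := by ring
      rw [this, hw]
      have : f (p^[n] v) + n * q + k = (f (p^[n] v) + k) + n * q := by ring
      rw [this, h1]; ring

/-- an infinite sequence of pointers gives a fraction `L / w = k / q` with small `L` -/
theorem pointer_cycle {W : Type*} [Fintype W] {k q : ℕ} (f : W → ℕ) (p : W → W) (v : W)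
    (h : ∀ i, f (p^[i] v) = f (p^[i + 1] v) + q ∨ f (p^[i] v) + k = f (p^[i + 1] v) + q) :
    ∃ L w, 1 ≤ L ∧ L ≤ Fintype.card W ∧ w * k = L * q := by
  classical
  obtain ⟨i, hi, j, hj, hij, he⟩ := Finset.exists_ne_map_eq_of_card_lt_of_maps_to
    (s := Finset.range (Fintype.card W + 1)) (t := Finset.univ)
    (by rw [Finset.card_univ, Finset.card_range]; omega) (f := fun i => p^[i] v)
    (fun _ _ => Finset.mem_coe.2 (Finset.mem_univ _))
  rw [Finset.mem_range] at hi hj
  have key : ∀ i j, i < j → j < Fintype.card W + 1 → p^[i] v = p^[j] v →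
      ∃ L w, 1 ≤ L ∧ L ≤ Fintype.card W ∧ w * k = L * q := by
    intro i j hij hj he
    obtain ⟨w, hw⟩ := iterate_sum (k := k) (q := q) f p (p^[i] v) (j - i) (fun l _ => by
      rw [← Function.iterate_add_apply, ← Function.iterate_add_apply]
      have := h (l + i)
      rwa [show l + i + 1 = l + 1 + i by ring] at this)
    rw [← Function.iterate_add_apply, show j - i + i = j by omega, ← he] at hw
    exact ⟨j - i, w, by omega, by omega, by omega⟩
  rcases lt_or_gt_of_ne hij with h1 | h1
  · exact key i j h1 hj he
  · exact key j i h1 hi he.symm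

/-! ### Systems of inequalities -/

section

variable {W : Type*} {k q : ℕ}

/-- `f` satisfies the inequalities given by the orientation `ω` -/
def Sat (ω : W → W → Prop) (k q : ℕ) (f : W → ℕ) : Prop :=
  (∀ v, f v < k) ∧ ∀ u v, ω u v → f u + q ≤ f v ∧ f v + q ≤ f u + k

theorem blocked [DecidableEq W] {ω : W → W → Prop} (hq : 1 ≤ q) {f : W → ℕ} (hf : Sat ω k q f) (v : W)
    (hv : f v ≠ 0) (hn : ¬ Sat ω k q (Function.update f v (f v - 1))) :
    (∃ u, ω u v ∧ f v = f u + q) ∨ (∃ w, ω v w ∧ f v + k = f w + q) := by
  by_contra hcon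
  push Not at hcon
  apply hn
  refine ⟨fun u => ?_, fun a b hab => ?_⟩
  · by_cases hu : u = v
    · subst hu
      rw [Function.update_self]
      have := hf.1 u
      omega
    · rw [Function.update_of_ne hu]
      exact hf.1 u
  · have h1 := hf.2 a b hab
    by_cases ha : a = v
    · by_cases hb : b = v
      · subst ha hb
        omega
      · subst ha
        rw [Function.update_self, Function.update_of_ne hb]
        have := hcon.2 b hab
        omega
    · by_cases hb : b = v
      · subst hb
        rw [Function.update_self, Function.update_of_ne ha]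
        have := hcon.1 a hab
        omega
      · rw [Function.update_of_ne ha, Function.update_of_ne hb]
        exact h1

theorem sum_update_lt [Fintype W] [DecidableEq W] (f : W → ℕ) (v : W) (hv : f v ≠ 0) :
    ∑ u, Function.update f v (f v - 1) u < ∑ u, f u := by
  apply Finset.sum_lt_sum
  · intro u _
    by_cases hu : u = v
    · subst hu
      rw [Function.update_self]; omega
    · rw [Function.update_of_ne hu]
  · exact ⟨v, Finset.mem_univ v, by rw [Function.update_self]; omega⟩

/-- a solution all of whose positive values are blocked -/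
theorem exists_stuck [Fintype W] {ω : W → W → Prop} (hq : 1 ≤ q) (n : ℕ) : ∀ f : W → ℕ, Sat ω k q f →
    ∑ u, f u ≤ n → ∃ g : W → ℕ, Sat ω k q g ∧ ∀ v, g v = 0 ∨
      ((∃ u, ω u v ∧ g v = g u + q) ∨ (∃ w, ω v w ∧ g v + k = g w + q)) := by
  classical
  induction n with
  | zero =>
    intro f hf hn
    refine ⟨f, hf, fun v => Or.inl ?_⟩
    have := Finset.single_le_sum (f := f) (fun _ _ => Nat.zero_le _) (Finset.mem_univ v)
    omega
  | succ n ih =>
    intro f hf hn
    by_cases h : ∀ v, f v = 0 ∨ ¬ Sat ω k q (Function.update f v (f v - 1))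
    · refine ⟨f, hf, fun v => ?_⟩
      rcases h v with h1 | h1
      · exact Or.inl h1
      · by_cases h0 : f v = 0
        · exact Or.inl h0
        · exact Or.inr (blocked hq hf v h0 h1)
    · push Not at h
      obtain ⟨v, hv, hs⟩ := h
      exact ih _ hs (by have := sum_update_lt f v hv; omega)

/-- the values of a stuck solution are small combinations of `q` and `k` -/
theorem stuck_rep [Fintype W] {N : ℕ} (hN : Fintype.card W ≤ N)
    (hnc : ∀ L w : ℕ, 1 ≤ L → L ≤ N → w * k ≠ L * q) {ω : W → W → Prop} (f : W → ℕ)
    (hf : ∀ v, f v = 0 ∨ ((∃ u, ω u v ∧ f v = f u + q) ∨ (∃ w, ω v w ∧ f v + k = f w + q))) :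
    ∀ v, ∃ A B : ℕ, A + 1 ≤ N ∧ f v + B * k = A * q := by
  classical
  have hp : ∀ v, ∃ u, f v = 0 ∨ (f v = f u + q ∨ f v + k = f u + q) := by
    intro v
    rcases hf v with h | ⟨u, -, h⟩ | ⟨u, -, h⟩
    · exact ⟨v, Or.inl h⟩
    · exact ⟨u, Or.inr (Or.inl h)⟩
    · exact ⟨u, Or.inr (Or.inr h)⟩
  choose p hp using hp
  intro v
  have hz : ∃ i, f (p^[i] v) = 0 := by
    by_contra hcon
    push Not at hcon
    obtain ⟨L, w, h1, h2, h3⟩ := pointer_cycle (k := k) (q := q) f p v (fun i => by
      rw [Function.iterate_succ_apply']
      exact (hp (p^[i] v)).resolve_left (hcon i))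
    exact hnc L w h1 (h2.trans hN) h3
  set i := Nat.find hz with hi
  have hzi : f (p^[i] v) = 0 := Nat.find_spec hz
  have hmin : ∀ j, j < i → f (p^[j] v) ≠ 0 := fun j hj => Nat.find_min hz hj
  obtain ⟨w, hw⟩ := iterate_sum (k := k) (q := q) f p v i (fun j hj => by
    rw [Function.iterate_succ_apply']
    exact (hp (p^[j] v)).resolve_left (hmin j hj))
  refine ⟨i, w, ?_, by rw [hw, hzi, zero_add]⟩
  -- the first `i + 1` iterates are distinct
  refine le_trans ?_ hN
  by_contra hlt
  push Not at hlt
  obtain ⟨a, ha, b, hb, hab, he⟩ := Finset.exists_ne_map_eq_of_card_lt_of_maps_to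
    (s := Finset.range (i + 1)) (t := Finset.univ)
    (by rw [Finset.card_univ, Finset.card_range]; omega) (f := fun i => p^[i] v)
    (fun _ _ => Finset.mem_coe.2 (Finset.mem_univ _))
  rw [Finset.mem_range] at ha hb
  have key : ∀ a b, a < b → b < i + 1 → p^[a] v = p^[b] v → False := by
    intro a b hab hb he
    have h1 : p^[i - b + a] v = p^[i - b + b] v := by
      rw [Function.iterate_add_apply, Function.iterate_add_apply, he]
    rw [show i - b + b = i by omega] at h1
    apply hmin (i - b + a) (by omega)
    rw [h1, hzi]
  rcases lt_or_gt_of_ne hab with h1 | h1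
  · exact key a b h1 hb he
  · exact key b a h1 ha he.symm

/-- the system is solvable for `(k', q')` if it is solvable for `(k, q)` -/
theorem transfer [Fintype W] {N k' q' : ℕ} (hN : Fintype.card W ≤ N) (hs : Same N k q k' q')
    (hk : 1 ≤ k) (hk' : 1 ≤ k') (hq : 1 ≤ q) {ω : W → W → Prop} (f : W → ℕ) (hf : Sat ω k q f) :
    ∃ g : W → ℕ, Sat ω k' q' g := by
  obtain ⟨g, hg, hst⟩ := exists_stuck hq _ f hf le_rfl
  have hrep := stuck_rep (q := q) hN (fun L w h1 h2 => hs.ne h1 h2) g hst
  choose A B hA hAB using hrep
  have hz : ∀ v, (g v : ℤ) = A v * q - B v * k := fun v => by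
    have : ((g v + B v * k : ℕ) : ℤ) = ((A v * q : ℕ) : ℤ) := by rw [hAB v]
    push_cast at this
    linarith
  have hnn : ∀ v, 0 ≤ (A v : ℤ) * q' - B v * k' := by
    intro v
    apply hs.sign hk
    · have := hA v
      rw [abs_le]; omega
    · rw [← hz v]; positivity
  refine ⟨fun v => ((A v : ℤ) * q' - B v * k').toNat, fun v => ?_, fun u v huv => ?_⟩
  · -- the upper bound
    have h1 := hg.1 v
    have h2 : ¬ (0 ≤ (A v : ℤ) * q' - (B v + 1 : ℤ) * k') := by
      intro hcon
      have h3 := hs.symm.sign hk' (A := A v) (B := B v + 1) (by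
        have := hA v
        rw [abs_le]; omega) hcon
      have h4 := hz v
      have h5 : (g v : ℤ) < k := by exact_mod_cast h1
      linarith
    have h3 := hnn v
    have h4 : (A v : ℤ) * q' - B v * k' < k' := by linarith
    beta_reduce
    omega
  · have h1 := hg.2 u v huv
    have e1 := hz u
    have e2 := hz v
    have l1 := hs.sign hk (A := A v - A u - 1) (B := B v - B u) (by
        have := hA v
        have := hA u
        rw [abs_le]; omega) (by
        have : (g u : ℤ) + q ≤ g v := by exact_mod_cast h1.1
        rw [e1, e2] at this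
        linarith)
    have l2 := hs.sign hk (A := A u - A v - 1) (B := B u - B v - 1) (by
        have := hA v
        have := hA u
        rw [abs_le]; omega) (by
        have : (g v : ℤ) + q ≤ g u + k := by exact_mod_cast h1.2
        rw [e1, e2] at this
        linarith)
    have h3 := hnn u
    have h4 := hnn v
    have l1' : ((A u : ℤ) * q' - B u * k') + q' ≤ (A v : ℤ) * q' - B v * k' := by linarith
    have l2' : ((A v : ℤ) * q' - B v * k') + q' ≤ (A u : ℤ) * q' - B u * k' + k' := by linarith
    dsimp only
    omega

end

/-! ### Colourings with the same orientation -/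

section

variable {V : Type*} {G : SimpleGraph V} {k q : ℕ}

/-- the orientation given by a colouring -/
def ori (G : SimpleGraph V) {k : ℕ} (f : V → Fin k) (u v : V) : Prop :=
  G.Adj u v ∧ (f u).val < (f v).val

theorem sat_of_col {f : V → Fin k} (hf : IsCol G k q f) : Sat (ori G f) k q (fun v => (f v).val) := by
  refine ⟨fun v => (f v).isLt, fun u v huv => ?_⟩
  have h1 := hf u v huv.1
  have h2 := huv.2
  rw [apart_iff] at h1
  beta_reduce
  omega

theorem col_of_sat (hq : 1 ≤ q) {k' q' : ℕ} {f : V → Fin k} (hf : IsCol G k q f) {g : V → Fin k'}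
    (hg : Sat (ori G f) k' q' (fun v => (g v).val)) : IsCol G k' q' g := by
  intro u v huv
  have h1 := hf u v huv
  rw [apart_iff] at h1 ⊢
  rcases lt_trichotomy (f u).val (f v).val with h | h | h
  · have := hg.2 u v ⟨huv, h⟩
    beta_reduce at this
    omega
  · omega
  · have := hg.2 v u ⟨huv.symm, h⟩
    beta_reduce at this
    omega

/-- `f` and `g` orient the edges in the same way -/
def SameOri (G : SimpleGraph V) {k k' : ℕ} (f : V → Fin k) (g : V → Fin k') : Prop :=
  ∀ u v, ori G f u v ↔ ori G g u v

theorem sameOri_of_sat (hq : 1 ≤ q) {k' q' : ℕ} (hq' : 1 ≤ q') {f : V → Fin k}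
    (hf : IsCol G k q f) {g : V → Fin k'} (hg : Sat (ori G f) k' q' (fun v => (g v).val)) :
    SameOri G f g := by
  intro u v
  constructor
  · intro h
    have := hg.2 u v h
    beta_reduce at this
    exact ⟨h.1, by omega⟩
  · intro h
    refine ⟨h.1, ?_⟩
    have h1 := hf u v h.1
    rw [apart_iff] at h1
    have h2 := h.2
    by_contra hcon
    have h3 := hg.2 v u ⟨h.1.symm, by omega⟩
    beta_reduce at h3
    omega

theorem transfer_col [Fintype V] {N k' q' : ℕ} (hN : Fintype.card V ≤ N) (hs : Same N k q k' q')
    (hk : 1 ≤ k) (hk' : 1 ≤ k') (hq : 1 ≤ q) (hq' : 1 ≤ q') {f : V → Fin k} (hf : IsCol G k q f) :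
    ∃ g : V → Fin k', IsCol G k' q' g ∧ SameOri G f g := by
  obtain ⟨g, hg⟩ := transfer hN hs hk hk' hq _ (sat_of_col hf)
  have hg' : Sat (ori G f) k' q' (fun v => ((⟨g v, hg.1 v⟩ : Fin k')).val) := hg
  exact ⟨fun v => ⟨g v, hg.1 v⟩, col_of_sat hq hf hg', sameOri_of_sat hq hq' hf hg'⟩

/-- going down to a smaller solution -/
theorem descend [Fintype V] (hq : 1 ≤ q) {N : ℕ} (hN : Fintype.card V ≤ N)
    (hnc : ∀ L w : ℕ, 1 ≤ L → L ≤ N → w * k ≠ L * q) {ω : V → V → Prop}
    (hω : ∀ f : V → Fin k, Sat ω k q (fun v => (f v).val) → IsCol G k q f) (m : V → Fin k)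
    (hm : Sat ω k q (fun v => (m v).val)) (n : ℕ) :
    ∀ f : V → Fin k, Sat ω k q (fun v => (f v).val) → (∀ v, (m v).val ≤ (f v).val) →
      ∑ v, (f v).val ≤ n → ReflTransGen (Step G k q) f m := by
  classical
  induction n with
  | zero =>
    intro f hf hle hn
    have : f = m := by
      funext v
      have h1 := Finset.single_le_sum (f := fun v => (f v).val) (fun _ _ => Nat.zero_le _)
        (Finset.mem_univ v)
      have h2 := hle v
      apply Fin.ext
      omega
    rw [this]
  | succ n ih =>
    intro f hf hle hn
    by_cases hfm : f = m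
    · rw [hfm]
    -- some vertex above `m` can be decreased
    have hex : ∃ v, (m v).val < (f v).val ∧
        Sat ω k q (Function.update (fun v => (f v).val) v ((f v).val - 1)) := by
      by_contra hcon
      push Not at hcon
      obtain ⟨v0, hv0⟩ : ∃ v, (m v).val < (f v).val := by
        by_contra hno
        push Not at hno
        exact hfm (funext fun v => Fin.ext (le_antisymm (hno v) (hle v)))
      have hp : ∀ v, ∃ u, (m v).val < (f v).val → (m u).val < (f u).val ∧
          ((f v).val = (f u).val + q ∨ (f v).val + k = (f u).val + q) := by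
        intro v
        by_cases hv : (m v).val < (f v).val
        · rcases blocked hq hf v (by omega) (hcon v hv) with ⟨u, hu, he⟩ | ⟨u, hu, he⟩
          · refine ⟨u, fun _ => ⟨?_, Or.inl he⟩⟩
            have := (hm.2 u v hu).1
            dsimp only at this he
            omega
          · refine ⟨u, fun _ => ⟨?_, Or.inr he⟩⟩
            have := (hm.2 v u hu).2
            dsimp only at this he
            omega
        · exact ⟨v, fun h => absurd h hv⟩
      choose p hp using hp
      have hall : ∀ i, (m (p^[i] v0)).val < (f (p^[i] v0)).val := by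
        intro i
        induction i with
        | zero => exact hv0
        | succ i ih =>
          rw [Function.iterate_succ_apply']
          exact (hp _ ih).1
      obtain ⟨L, w, h1, h2, h3⟩ := pointer_cycle (k := k) (q := q) (fun v => (f v).val) p v0
        (fun i => by
          rw [Function.iterate_succ_apply']
          exact (hp _ (hall i)).2)
      exact hnc L w h1 (h2.trans hN) h3
    obtain ⟨v, hv, hs⟩ := hex
    have hlt : (f v).val - 1 < k := by have := (f v).isLt; omega
    set f' : V → Fin k := Function.update f v ⟨(f v).val - 1, hlt⟩ with hf'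
    have hval : (fun u => (f' u).val) = Function.update (fun v => (f v).val) v ((f v).val - 1) := by
      funext u
      by_cases hu : u = v
      · subst hu
        rw [hf', Function.update_self, Function.update_self]
      · rw [hf', Function.update_of_ne hu, Function.update_of_ne hu]
    have hs' : Sat ω k q (fun u => (f' u).val) := by rw [hval]; exact hs
    have hstep : Step G k q f f' := by
      refine ⟨hω _ hf, hω _ hs', v, ?_, fun u hu => ?_⟩
      · rw [hf', Function.update_self]
        intro e
        have := congrArg Fin.val e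
        dsimp only at this
        omega
      · rw [hf', Function.update_of_ne hu]
    refine ReflTransGen.head hstep (ih f' hs' (fun u => ?_) ?_)
    · by_cases hu : u = v
      · subst hu
        rw [hf', Function.update_self]
        dsimp only
        omega
      · rw [hf', Function.update_of_ne hu]
        exact hle u
    · have h1 := sum_update_lt (fun v => (f v).val) v (by omega)
      have h2 : ∑ u, (f' u).val = ∑ u, Function.update (fun v => (f v).val) v ((f v).val - 1) u := by
        rw [← hval]
      omega

/-- two colourings with the same orientation are joined -/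
theorem same_joined [Fintype V] (hq : 1 ≤ q) {N : ℕ} (hN : Fintype.card V ≤ N)
    (hnc : ∀ L w : ℕ, 1 ≤ L → L ≤ N → w * k ≠ L * q) {f g : V → Fin k} (hf : IsCol G k q f)
    (hg : IsCol G k q g) (h : SameOri G f g) : ReflTransGen (Step G k q) f g := by
  have h1 := sat_of_col hf
  have h2 : Sat (ori G f) k q (fun v => (g v).val) := by
    refine ⟨fun v => (g v).isLt, fun u v huv => ?_⟩
    exact (sat_of_col hg).2 u v ((h u v).1 huv)
  set m : V → Fin k := fun v => if (f v).val ≤ (g v).val then f v else g v with hm
  have hmv : ∀ v, (m v).val = min (f v).val (g v).val := by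
    intro v
    rw [hm]
    dsimp only
    split_ifs <;> omega
  have h3 : Sat (ori G f) k q (fun v => (m v).val) := by
    refine ⟨fun v => (m v).isLt, fun u v huv => ?_⟩
    have e1 := h1.2 u v huv
    have e2 := h2.2 u v huv
    dsimp only at e1 e2 ⊢
    rw [hmv, hmv]
    omega
  have hω : ∀ f' : V → Fin k, Sat (ori G f) k q (fun v => (f' v).val) → IsCol G k q f' :=
    fun f' h => col_of_sat hq hf h
  have r1 := descend hq hN hnc hω m h3 _ f h1 (fun v => by rw [hmv]; omega) le_rfl
  have r2 := descend hq hN hnc hω m h3 _ g h2 (fun v => by rw [hmv]; omega) le_rfl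
  exact r1.trans (reach_symm r2)

/-- mixing is constant between critical ratios -/
theorem mixing_transfer [Fintype V] {N k' q' : ℕ} (hN : Fintype.card V + 1 ≤ N)
    (hs : Same N k q k' q') (hk : 1 ≤ k) (hk' : 1 ≤ k') (hq : 1 ≤ q) (hq' : 1 ≤ q')
    (hmix : IsMixing G k q) : IsMixing G k' q' := by
  classical
  have hnc' : ∀ L w : ℕ, 1 ≤ L → L ≤ N → w * k' ≠ L * q' := fun L w h1 h2 => hs.symm.ne h1 h2
  -- a path for `(k, q)` gives one for `(k', q')`
  have key : ∀ f g : V → Fin k, ReflTransGen (Step G k q) f g → IsCol G k q f →
      ∀ f' g' : V → Fin k', IsCol G k' q' f' → IsCol G k' q' g' → SameOri G f f' → SameOri G g g' →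
      ReflTransGen (Step G k' q') f' g' := by
    intro f g hfg hf
    induction hfg with
    | refl =>
      intro f' g' hf' hg' h1 h2
      exact same_joined hq' (by omega) hnc' hf' hg' fun u v => (h1 u v).symm.trans (h2 u v)
    | @tail b c _ hstep ih =>
      intro f' g' hf' hg' h1 h2
      obtain ⟨hb, hc, v, hv, hrest⟩ := hstep
      -- the graph with the vertex `v` doubled
      let r : Option V → V := fun x => x.getD v
      let H : SimpleGraph (Option V) := G.comap r
      let F : Option V → Fin k := fun x => match x with
        | none => c v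
        | some u => b u
      have hF : IsCol H k q F := by
        rintro (_ | x) (_ | y) hxy
        · exact absurd hxy (G.loopless.irrefl v)
        · have hxy' : G.Adj v y := hxy
          change Apart k q (c v) (b y)
          rw [hrest y hxy'.ne']
          exact hc v y hxy'
        · have hxy' : G.Adj x v := hxy
          change Apart k q (b x) (c v)
          rw [hrest x hxy'.ne]
          exact hc x v hxy'
        · exact hb x y hxy
      obtain ⟨F', hF', hor⟩ := transfer_col (N := N) (by rw [Fintype.card_option]; exact hN) hs hk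
        hk' hq hq' hF
      let b' : V → Fin k' := fun u => F' (some u)
      let c' : V → Fin k' := fun u => if u = v then F' none else F' (some u)
      have hb' : IsCol G k' q' b' := fun x y hxy => hF' (some x) (some y) hxy
      have hc' : IsCol G k' q' c' := by
        intro x y hxy
        by_cases hx : x = v
        · subst hx
          have hy : y ≠ x := hxy.ne'
          simp only [c', if_true, hy, if_false]
          exact hF' none (some y) hxy
        · by_cases hy : y = v
          · subst hy
            simp only [c', if_true, hx, if_false]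
            exact hF' (some x) none hxy
          · simp only [c', hx, hy, if_false]
            exact hF' (some x) (some y) hxy
      have ob : SameOri G b b' := fun x y => hor (some x) (some y)
      have oc : SameOri G c c' := by
        intro x y
        by_cases hx : x = v
        · subst hx
          by_cases hy : y = x
          · subst hy
            exact ⟨fun h => absurd h.1 (G.loopless.irrefl y), fun h => absurd h.1 (G.loopless.irrefl y)⟩
          · have := hor none (some y)
            simp only [ori, c', if_true, hy, if_false, ← hrest y hy]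
            exact this
        · by_cases hy : y = v
          · subst hy
            have := hor (some x) none
            simp only [ori, c', if_true, hx, if_false, ← hrest x hx]
            exact this
          · have := hor (some x) (some y)
            simp only [ori, c', hx, hy, if_false, ← hrest x hx, ← hrest y hy]
            exact this
      have s1 := ih f' b' hf' hb' h1 ob
      have s2 : ReflTransGen (Step G k' q') b' c' := by
        by_cases he : b' v = c' v
        · have : b' = c' := by
            funext u
            by_cases hu : u = v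
            · rw [hu, he]
            · simp only [b', c', hu, if_false]
          rw [this]
        · exact ReflTransGen.single ⟨hb', hc', v, he, fun u hu => by simp only [b', c', hu, if_false]⟩
      have s3 := same_joined (G := G) hq' (by omega) hnc' hc' hg' fun u w =>
        (oc u w).symm.trans (h2 u w)
      exact s1.trans (s2.trans s3)
  intro f' g' hf' hg'
  obtain ⟨f, hf, hof⟩ := transfer_col (by omega) hs.symm hk' hk hq' hq hf'
  obtain ⟨g, hg, hog⟩ := transfer_col (by omega) hs.symm hk' hk hq' hq hg'
  exact key f g (hmix f g hf hg) hf f' g' hf' hg' (fun u v => (hof u v).symm) fun u v =>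
    (hog u v).symm

end

end Q128.MixTransfer
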