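import Pool.Agent.Q128.MixingDefs

/-!
# Circular colourings and mixing: the cube with a triangle

The
graph `Ex` is the cube `K_{4,4} - 4 K_2` joined by an edge to a triangle; it is `(k, q)`-mixing
whenever `k > 4 q`, and it is not `(4, 1)`-mixing.
-/

set_option autoImplicit false

namespace Q128.Mixing

open SimpleGraph Relation

/-! ### Arithmetic of the colours -/

theorem apart_iff {k q : ℕ} {x y : Fin k} : Apart k q x y ↔
    (x.val + q ≤ y.val ∧ y.val + q ≤ x.val + k) ∨ (y.val + q ≤ x.val ∧ x.val + q ≤ y.val + k) := by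
  unfold Apart
  have := x.isLt
  have := y.isLt
  rcases le_total x.val y.val with h | h
  · rw [abs_of_nonpos (by omega)]
    omega
  · rw [abs_of_nonneg (by omega)]
    omega

theorem Apart.symm {k q : ℕ} {x y : Fin k} (h : Apart k q x y) : Apart k q y x := by
  rw [apart_iff] at h ⊢
  omega

/-- the forward distance -/
def fd {k : ℕ} (x y : Fin k) : ℕ := if x.val ≤ y.val then y.val - x.val else y.val + k - x.val

/-- the shift -/
def sh {k : ℕ} (x : Fin k) (a : ℕ) : Fin k := ⟨(x.val + a) % k, Nat.mod_lt _ x.pos⟩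

theorem sh_val {k : ℕ} (x : Fin k) (a : ℕ) (ha : a ≤ k) :
    ((sh x a).val = x.val + a ∧ x.val + a < k) ∨ ((sh x a).val + k = x.val + a) := by
  have := x.isLt
  unfold sh
  by_cases h : x.val + a < k
  · left
    exact ⟨Nat.mod_eq_of_lt h, h⟩
  · right
    have h1 : (x.val + a) % k = x.val + a - k := by
      rw [Nat.mod_eq_sub_mod (by omega)]
      apply Nat.mod_eq_of_lt
      omega
    change (x.val + a) % k + k = x.val + a
    omega

theorem apart_fd {k q : ℕ} (hq : 1 ≤ q) {x y : Fin k} :
    Apart k q x y ↔ q ≤ fd x y ∧ fd x y + q ≤ k := by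
  rw [apart_iff]
  have := x.isLt
  have := y.isLt
  unfold fd
  split_ifs <;> omega

theorem fd_lt {k : ℕ} (x y : Fin k) : fd x y < k := by
  have := x.isLt
  have := y.isLt
  unfold fd
  split_ifs <;> omega

theorem fd_self {k : ℕ} (x : Fin k) : fd x x = 0 := by
  unfold fd
  simp

theorem fd_comm {k : ℕ} (x y : Fin k) : fd x y + fd y x = k ∨ (fd x y = 0 ∧ fd y x = 0) := by
  have := x.isLt
  have := y.isLt
  unfold fd
  split_ifs <;> omega

theorem fd_add {k : ℕ} (x y z : Fin k) : fd x y + fd y z = fd x z ∨ fd x y + fd y z = fd x z + k := by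
  have := x.isLt
  have := y.isLt
  have := z.isLt
  unfold fd
  split_ifs <;> omega

theorem fd_sh {k : ℕ} (x : Fin k) (a : ℕ) (ha : a < k) : fd x (sh x a) = a := by
  have := x.isLt
  have := (sh x a).isLt
  rcases sh_val x a ha.le with h | h <;> unfold fd <;> split_ifs <;> omega

theorem sh_fd {k : ℕ} (x y : Fin k) : sh x (fd x y) = y := by
  have h1 := fd_lt x y
  have := x.isLt
  have := y.isLt
  have h2 := fd_sh x (fd x y) h1
  apply Fin.ext
  have := (sh x (fd x y)).isLt
  unfold fd at h2 ⊢
  split_ifs at h2 ⊢ <;> omega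

/-! ### Moves -/

section

variable {V : Type*} {G : SimpleGraph V} {k q : ℕ}

theorem Step.symm {f g : V → Fin k} (h : Step G k q f g) : Step G k q g f := by
  obtain ⟨h1, h2, v, h3, h4⟩ := h
  exact ⟨h2, h1, v, h3.symm, fun u hu => (h4 u hu).symm⟩

theorem reach_symm {f g : V → Fin k} (h : ReflTransGen (Step G k q) f g) :
    ReflTransGen (Step G k q) g f := by
  induction h with
  | refl => exact ReflTransGen.refl
  | tail _ h ih => exact ReflTransGen.head h.symm ih

theorem reach_isCol {f g : V → Fin k} (h : ReflTransGen (Step G k q) f g) (hf : IsCol G k q f) :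
    IsCol G k q g := by
  induction h with
  | refl => exact hf
  | tail _ h _ => exact h.2.1

theorem upd [DecidableEq V] {f : V → Fin k} (hf : IsCol G k q f) (v : V) (x : Fin k)
    (h : ∀ u, G.Adj v u → Apart k q x (f u)) :
    IsCol G k q (Function.update f v x) ∧
      ReflTransGen (Step G k q) f (Function.update f v x) := by
  have h1 : IsCol G k q (Function.update f v x) := by
    intro a b hab
    by_cases ha : a = v
    · subst ha
      rw [Function.update_self, Function.update_of_ne hab.ne']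
      exact h b hab
    · by_cases hb : b = v
      · subst hb
        rw [Function.update_self, Function.update_of_ne ha]
        exact (h a hab.symm).symm
      · rw [Function.update_of_ne ha, Function.update_of_ne hb]
        exact hf a b hab
  refine ⟨h1, ?_⟩
  by_cases hx : f v = x
  · rw [← hx, Function.update_eq_self]
  · apply ReflTransGen.single
    refine ⟨hf, h1, v, ?_, fun u hu => ?_⟩
    · rw [Function.update_self]; exact hx
    · rw [Function.update_of_ne hu]

/-- give the colour `x` to all the vertices of an independent set -/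
theorem setAll [DecidableEq V] {f : V → Fin k} (hf : IsCol G k q f) (S : Finset V) (x : Fin k)
    (h : ∀ u ∈ S, ∀ v, G.Adj u v → v ∉ S ∧ Apart k q x (f v)) :
    IsCol G k q (fun v => if v ∈ S then x else f v) ∧
      ReflTransGen (Step G k q) f (fun v => if v ∈ S then x else f v) := by
  induction S using Finset.induction_on with
  | empty => simpa using ⟨hf, ReflTransGen.refl⟩
  | insert a S ha ih =>
    obtain ⟨h1, h2⟩ := ih (fun u hu v huv =>
      ⟨fun hv => (h u (Finset.mem_insert_of_mem hu) v huv).1 (Finset.mem_insert_of_mem hv),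
        (h u (Finset.mem_insert_of_mem hu) v huv).2⟩)
    obtain ⟨h3, h4⟩ := upd h1 a x (fun u hu => by
      have := h a (Finset.mem_insert_self a S) u hu
      rw [if_neg (fun hS => this.1 (Finset.mem_insert_of_mem hS))]
      exact this.2)
    have heq : Function.update (fun v => if v ∈ S then x else f v) a x =
        fun v => if v ∈ insert a S then x else f v := by
      funext v
      by_cases hv : v = a
      · subst hv; simp
      · rw [Function.update_of_ne hv]
        simp [Finset.mem_insert, hv]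
    rw [heq] at h3 h4
    exact ⟨h3, h2.trans h4⟩

/-- automorphisms -/
theorem reach_comp (φ : G ≃g G) {f g : V → Fin k} (h : ReflTransGen (Step G k q) f g) :
    ReflTransGen (Step G k q) (f ∘ φ) (g ∘ φ) := by
  have hc : ∀ f : V → Fin k, IsCol G k q f → IsCol G k q (f ∘ φ) :=
    fun f hf u v huv => hf _ _ (φ.map_adj_iff.2 huv)
  induction h with
  | refl => exact ReflTransGen.refl
  | tail _ h ih =>
    refine ih.tail ?_
    obtain ⟨h1, h2, v, h3, h4⟩ := h
    refine ⟨hc _ h1, hc _ h2, φ.symm v, ?_, fun u hu => ?_⟩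
    · simpa using h3
    · apply h4
      intro e
      apply hu
      rw [← e]; simp

end

/-! ### The cube -/

/-- the cube as `K_{4,4}` minus a perfect matching -/
def Cube : SimpleGraph (Bool × Fin 4) where
  Adj u v := u.1 ≠ v.1 ∧ u.2 ≠ v.2
  symm := ⟨fun _ _ h => ⟨h.1.symm, h.2.symm⟩⟩
  loopless := ⟨fun _ h => h.1 rfl⟩

instance : DecidableRel Cube.Adj := fun u v => inferInstanceAs (Decidable (u.1 ≠ v.1 ∧ u.2 ≠ v.2))

section

variable {k q : ℕ}

/-- the colouring with the colour `x` on one side and the colour `y` on the other side -/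
def std (x y : Fin k) : Bool × Fin 4 → Fin k := fun v => if v.1 then x else y

theorem std_isCol {x y : Fin k} (h : Apart k q x y) : IsCol Cube k q (std x y) := by
  rintro ⟨s, i⟩ ⟨t, j⟩ ⟨h1, -⟩
  cases s <;> cases t
  · exact absurd rfl h1
  · exact h.symm
  · exact h
  · exact absurd rfl h1

theorem std_fst {x y x' : Fin k} (h : Apart k q x y) (h' : Apart k q x' y) :
    ReflTransGen (Step Cube k q) (std x y) (std x' y) := by
  have := (setAll (std_isCol h) (Finset.univ.filter fun v : Bool × Fin 4 => v.1 = true) x'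
    (by
      rintro ⟨s, i⟩ hs ⟨t, j⟩ ⟨h1, -⟩
      simp only [Finset.mem_filter, Finset.mem_univ, true_and] at hs ⊢
      subst hs
      cases t
      · exact ⟨by simp, h'⟩
      · exact absurd rfl h1)).2
  convert this using 1
  funext v
  obtain ⟨s, i⟩ := v
  cases s <;> simp [std]

theorem std_snd {x y y' : Fin k} (h : Apart k q x y) (h' : Apart k q x y') :
    ReflTransGen (Step Cube k q) (std x y) (std x y') := by
  have := (setAll (std_isCol h) (Finset.univ.filter fun v : Bool × Fin 4 => v.1 = false) y'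
    (by
      rintro ⟨s, i⟩ hs ⟨t, j⟩ ⟨h1, -⟩
      simp only [Finset.mem_filter, Finset.mem_univ, true_and] at hs ⊢
      subst hs
      cases t
      · exact absurd rfl h1
      · exact ⟨by simp, h'.symm⟩)).2
  convert this using 1
  funext v
  obtain ⟨s, i⟩ := v
  cases s <;> simp [std]

/-- every standard colouring reaches one with `x = 0`, `y = q` -/
theorem std_zero (hq : 1 ≤ q) (hk : 2 * q < k) (n : ℕ) : ∀ x y : Fin k, x.val = n → Apart k q x y →
    ReflTransGen (Step Cube k q) (std x y) (std ⟨0, by omega⟩ ⟨q, by omega⟩) := by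
  induction n with
  | zero =>
    intro x y hx hxy
    have h0 : x = ⟨0, by omega⟩ := Fin.ext hx
    rw [h0] at hxy ⊢
    apply std_snd hxy
    rw [apart_iff]
    dsimp only
    omega
  | succ n ih =>
    intro x y hx hxy
    have hlt := x.isLt
    have h1 : Apart k q x (sh x q) := by
      rw [apart_fd hq, fd_sh x q (by omega)]; omega
    have h2 : Apart k q ⟨n, by omega⟩ (sh x q) := by
      have e1 := fd_add (⟨n, by omega⟩ : Fin k) x (sh x q)
      have e2 : fd (⟨n, by omega⟩ : Fin k) x = 1 := by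
        unfold fd; dsimp only; split_ifs <;> omega
      rw [apart_fd hq]
      have e3 := fd_sh x q (by omega)
      have e4 := fd_lt (⟨n, by omega⟩ : Fin k) (sh x q)
      omega
    exact (std_snd hxy h1).trans ((std_fst h1 h2).trans (ih _ _ rfl h2))

theorem std_std (hq : 1 ≤ q) (hk : 2 * q < k) {x y x' y' : Fin k} (h : Apart k q x y)
    (h' : Apart k q x' y') : ReflTransGen (Step Cube k q) (std x y) (std x' y') :=
  (std_zero hq hk _ x y rfl h).trans (reach_symm (std_zero hq hk _ x' y' rfl h'))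

/-- `f` can be transformed to a standard colouring -/
def Good (k q : ℕ) (f : Bool × Fin 4 → Fin k) : Prop :=
  ∃ x y, Apart k q x y ∧ ReflTransGen (Step Cube k q) f (std x y)

/-- a colour which is apart from all the colours of one side -/
theorem good_of_free (hq : 1 ≤ q) (hk : 2 * q < k) {f : Bool × Fin 4 → Fin k}
    (hf : IsCol Cube k q f) (s : Bool) (x : Fin k) (h : ∀ i, Apart k q x (f (!s, i))) :
    Good k q f := by
  obtain ⟨h1, h2⟩ := setAll hf (Finset.univ.filter fun v : Bool × Fin 4 => v.1 = s) x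
    (by
      rintro ⟨s', i⟩ hs ⟨t, j⟩ ⟨h1, -⟩
      simp only [Finset.mem_filter, Finset.mem_univ, true_and] at hs ⊢
      subst hs
      have ht : t = !s' := by
        cases s' <;> cases t <;> first | rfl | exact absurd rfl h1
      subst ht
      exact ⟨by simp, h j⟩)
  obtain ⟨h3, h4⟩ := setAll h1 (Finset.univ.filter fun v : Bool × Fin 4 => v.1 = !s) (sh x q)
    (by
      rintro ⟨s', i⟩ hs ⟨t, j⟩ ⟨h1, -⟩
      simp only [Finset.mem_filter, Finset.mem_univ, true_and] at hs ⊢
      subst hs
      have ht : t = s := by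
        cases s <;> cases t <;> first | rfl | exact absurd rfl h1
      subst ht
      refine ⟨by simp, ?_⟩
      simp only [if_true]
      apply Apart.symm
      rw [apart_fd hq, fd_sh x q (by omega)]
      omega)
  have hxy : Apart k q x (sh x q) := by
    rw [apart_fd hq, fd_sh x q (by omega)]; omega
  cases s
  · refine ⟨sh x q, x, hxy.symm, ?_⟩
    refine h2.trans ?_
    convert h4 using 1
    funext v
    obtain ⟨t, i⟩ := v
    cases t <;> simp [std]
  · refine ⟨x, sh x q, hxy, ?_⟩
    refine h2.trans ?_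
    convert h4 using 1
    funext v
    obtain ⟨t, i⟩ := v
    cases t <;> simp [std]

/-- the two disjoint 4-cycles of the cube -/
def cyc (s : Bool) (j : Fin 4) : Bool × Fin 4 := (if j.val % 2 = 0 then s else !s, j)

/-- the sum of the forward distances around a 4-cycle -/
def rot (f : Bool × Fin 4 → Fin k) (s : Bool) : ℕ :=
  fd (f (cyc s 0)) (f (cyc s 1)) + fd (f (cyc s 1)) (f (cyc s 2)) + fd (f (cyc s 2)) (f (cyc s 3)) +
    fd (f (cyc s 3)) (f (cyc s 0))

/-- the potential -/
def pot (f : Bool × Fin 4 → Fin k) : ℕ :=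
  fd (f (cyc true 0)) (f (cyc false 2)) + fd (f (cyc true 1)) (f (cyc false 3)) +
    fd (f (cyc true 2)) (f (cyc false 0)) + fd (f (cyc true 3)) (f (cyc false 1))

theorem fd_succ {v y : Fin k} (h : 1 ≤ fd v y) (hk : 1 < k) : fd (sh v 1) y + 1 = fd v y := by
  have e1 := fd_add v (sh v 1) y
  have e2 := fd_sh v 1 hk
  have e3 := fd_lt (sh v 1) y
  omega

theorem fd_succ' {v y : Fin k} (h : fd y v + 1 < k) (hk : 1 < k) : fd y (sh v 1) = fd y v + 1 := by
  have e1 := fd_add y v (sh v 1)
  have e2 := fd_sh v 1 hk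
  have e3 := fd_lt y (sh v 1)
  omega

/-- the effect of moving `v` forward by one, where `v, n, w, p` is a 4-cycle going around once, `o` is
the third neighbour of `v`, and `v` has room ahead -/
theorem move_arith (hq : 1 ≤ q) {v n w p o : Fin k}
    (hsum : fd v n + fd n w + fd w p + fd p v = k) (h1 : q < fd v n) (h2 : q ≤ fd n w)
    (h3 : q ≤ fd w p) (h4 : q ≤ fd p v) (ho : Apart k q v o) (ho' : fd v o ≠ q) :
    Apart k q (sh v 1) n ∧ Apart k q (sh v 1) p ∧ Apart k q (sh v 1) o ∧
    fd (sh v 1) n + fd n w + fd w p + fd p (sh v 1) = k ∧ fd (sh v 1) o < fd v o := by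
  have hk : 1 < k := by omega
  rw [apart_fd hq] at ho
  have e1 := fd_succ (v := v) (y := n) (by omega) hk
  have e2 := fd_succ (v := v) (y := o) (by omega) hk
  have e3 := fd_succ' (v := v) (y := p) (by omega) hk
  have e4 := fd_comm p (sh v 1)
  refine ⟨?_, ?_, ?_, by omega, by omega⟩
  · rw [apart_fd hq]; omega
  · apply Apart.symm
    rw [apart_fd hq]; omega
  · rw [apart_fd hq]; omega

/-- if `v` is blocked by the third neighbour `o`, then `v` is apart from the colour `t` of the
remaining vertex of the other side; here `t, z, o, z'` is a 4-cycle going around once -/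
theorem free_arith (hq : 1 ≤ q) {v t z o z' : Fin k}
    (hsum : fd t z + fd z o + fd o z' + fd z' t = k) (h1 : q ≤ fd t z) (h2 : q ≤ fd z o)
    (h3 : q ≤ fd o z') (h4 : q ≤ fd z' t) (ho : fd v o = q) : Apart k q v t := by
  rw [apart_fd hq]
  have e1 := fd_add t z o
  have e2 := fd_add o z' t
  have e3 := fd_comm t o
  have e4 := fd_add v o t
  have e5 := fd_lt v t
  omega

theorem cyc_adj : ∀ (s : Bool) (j : Fin 4), Cube.Adj (cyc s j) (cyc s (j + 1)) := by decide

theorem cyc_opp : ∀ (s : Bool) (j : Fin 4), Cube.Adj (cyc s j) (cyc (!s) (j + 2)) := by decide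

theorem fin4_add : ∀ j : Fin 4, j + 1 + 1 = j + 2 ∧ j + 2 + 1 = j + 3 ∧ j + 3 + 1 = j := by decide

theorem fin4_ne : ∀ j : Fin 4, j + 1 ≠ j ∧ j + 2 ≠ j ∧ j + 3 ≠ j := by decide

theorem cyc_nbr : ∀ (s : Bool) (j : Fin 4) (u : Bool × Fin 4), Cube.Adj (cyc s j) u →
    u = cyc s (j + 1) ∨ u = cyc s (j + 3) ∨ u = cyc (!s) (j + 2) := by decide

theorem cyc_inj : ∀ (s t : Bool) (i j : Fin 4), cyc s i = cyc t j → s = t ∧ i = j := by decide

theorem cyc_side : ∀ (s : Bool) (j : Fin 4) (i : Fin 4), (!(cyc s j).1, i) = cyc s (j + 1) ∨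
    (!(cyc s j).1, i) = cyc s (j + 3) ∨ (!(cyc s j).1, i) = cyc (!s) (j + 2) ∨
    (!(cyc s j).1, i) = cyc (!s) j := by decide

theorem rot_cyc (f : Bool × Fin 4 → Fin k) (s : Bool) (j : Fin 4) :
    rot f s = fd (f (cyc s j)) (f (cyc s (j + 1))) + fd (f (cyc s (j + 1))) (f (cyc s (j + 2))) +
      fd (f (cyc s (j + 2))) (f (cyc s (j + 3))) + fd (f (cyc s (j + 3))) (f (cyc s j)) := by
  unfold rot
  fin_cases j
  · rfl
  · change _ = fd (f (cyc s 1)) (f (cyc s 2)) + fd (f (cyc s 2)) (f (cyc s 3)) +
      fd (f (cyc s 3)) (f (cyc s 0)) + fd (f (cyc s 0)) (f (cyc s 1))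
    omega
  · change _ = fd (f (cyc s 2)) (f (cyc s 3)) + fd (f (cyc s 3)) (f (cyc s 0)) +
      fd (f (cyc s 0)) (f (cyc s 1)) + fd (f (cyc s 1)) (f (cyc s 2))
    omega
  · change _ = fd (f (cyc s 3)) (f (cyc s 0)) + fd (f (cyc s 0)) (f (cyc s 1)) +
      fd (f (cyc s 1)) (f (cyc s 2)) + fd (f (cyc s 2)) (f (cyc s 3))
    omega

theorem pot_cyc (f : Bool × Fin 4 → Fin k) (j : Fin 4) :
    pot f = fd (f (cyc true j)) (f (cyc false (j + 2))) +
      fd (f (cyc true (j + 1))) (f (cyc false (j + 3))) +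
      fd (f (cyc true (j + 2))) (f (cyc false j)) +
      fd (f (cyc true (j + 3))) (f (cyc false (j + 1))) := by
  unfold pot
  fin_cases j
  · rfl
  · change _ = fd (f (cyc true 1)) (f (cyc false 3)) + fd (f (cyc true 2)) (f (cyc false 0)) +
      fd (f (cyc true 3)) (f (cyc false 1)) + fd (f (cyc true 0)) (f (cyc false 2))
    omega
  · change _ = fd (f (cyc true 2)) (f (cyc false 0)) + fd (f (cyc true 3)) (f (cyc false 1)) +
      fd (f (cyc true 0)) (f (cyc false 2)) + fd (f (cyc true 1)) (f (cyc false 3))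
    omega
  · change _ = fd (f (cyc true 3)) (f (cyc false 1)) + fd (f (cyc true 0)) (f (cyc false 2)) +
      fd (f (cyc true 1)) (f (cyc false 3)) + fd (f (cyc true 2)) (f (cyc false 0))
    omega

theorem good_of_rot (hq : 1 ≤ q) (hk : 4 * q < k) (n : ℕ) : ∀ f : Bool × Fin 4 → Fin k,
    IsCol Cube k q f → rot f true = k → rot f false = k → pot f ≤ n → Good k q f := by
  induction n with
  | zero =>
    intro f hf h1 h2 hp
    have h3 := hf _ _ (show Cube.Adj (cyc true 0) (cyc false 2) by decide)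
    rw [apart_fd hq] at h3
    unfold pot at hp
    omega
  | succ n ih =>
    intro f hf h1 h2 hp
    -- consecutive vertices of the 4-cycles are apart
    have hcons : ∀ (s : Bool) (j : Fin 4), q ≤ fd (f (cyc s j)) (f (cyc s (j + 1))) := by
      intro s j
      have := hf _ _ (cyc_adj s j)
      rw [apart_fd hq] at this
      exact this.1
    -- if a vertex of the first cycle is blocked by the second cycle, we are done
    by_cases hblock : ∃ j : Fin 4, fd (f (cyc true j)) (f (cyc false (j + 2))) = q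
    · obtain ⟨j, hj⟩ := hblock
      have e := rot_cyc f false j
      have c0 := hcons false j
      have c1 := hcons false (j + 1)
      have c2 := hcons false (j + 2)
      have c3 := hcons false (j + 3)
      have a1 := (fin4_add j).1
      have a2 := (fin4_add j).2.1
      have a3 := (fin4_add j).2.2
      rw [a1] at c1
      rw [a2] at c2
      rw [a3] at c3
      have hfree := free_arith hq (by rw [← e]; exact h2) c0 c1 c2 c3 hj
      apply good_of_free hq (by omega) hf (cyc true j).1 (f (cyc true j))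
      intro i
      rcases cyc_side true j i with h | h | h | h
      · rw [h]; exact hf _ _ (cyc_adj true j)
      · rw [h]
        have := hf _ _ (cyc_adj true (j + 3))
        rw [a3] at this
        exact this.symm
      · rw [h]
        exact hf _ _ (cyc_opp true j)
      · rw [h]; exact hfree
    · push Not at hblock
      -- some vertex of the first cycle has room ahead
      have hroom : ∃ j : Fin 4, q < fd (f (cyc true j)) (f (cyc true (j + 1))) := by
        by_contra hno
        push Not at hno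
        have g0 := hno 0
        have g1 := hno 1
        have g2 := hno 2
        have g3 := hno 3
        have e := rot_cyc f true 0
        change _ = fd (f (cyc true 0)) (f (cyc true 1)) + fd (f (cyc true 1)) (f (cyc true 2)) +
          fd (f (cyc true 2)) (f (cyc true 3)) + fd (f (cyc true 3)) (f (cyc true 0)) at e
        change fd (f (cyc true 0)) (f (cyc true 1)) ≤ q at g0
        change fd (f (cyc true 1)) (f (cyc true 2)) ≤ q at g1
        change fd (f (cyc true 2)) (f (cyc true 3)) ≤ q at g2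
        change fd (f (cyc true 3)) (f (cyc true 0)) ≤ q at g3
        omega
      obtain ⟨j, hj⟩ := hroom
      have e := rot_cyc f true j
      have c1 := hcons true (j + 1)
      have c2 := hcons true (j + 2)
      have c3 := hcons true (j + 3)
      have a1 := (fin4_add j).1
      have a2 := (fin4_add j).2.1
      have a3 := (fin4_add j).2.2
      rw [a1] at c1
      rw [a2] at c2
      rw [a3] at c3
      have hopp : Apart k q (f (cyc true j)) (f (cyc false (j + 2))) := hf _ _ (cyc_opp true j)
      obtain ⟨m1, m2, m3, m4, m5⟩ := move_arith hq (by rw [← e]; exact h1) hj c1 c2 c3 hopp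
        (hblock j)
      obtain ⟨r1, r2⟩ := upd hf (cyc true j) (sh (f (cyc true j)) 1) (fun u hu => by
        rcases cyc_nbr true j u hu with h | h | h
        · rw [h]; exact m1
        · rw [h]; exact m2
        · rw [h]; exact m3)
      set g := Function.update f (cyc true j) (sh (f (cyc true j)) 1) with hg
      have gj : g (cyc true j) = sh (f (cyc true j)) 1 := by rw [hg, Function.update_self]
      have gt : ∀ i, i ≠ j → g (cyc true i) = f (cyc true i) := fun i hi => by
        rw [hg, Function.update_of_ne (fun h => hi (cyc_inj _ _ _ _ h).2)]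
      have gf : ∀ i, g (cyc false i) = f (cyc false i) := fun i => by
        rw [hg, Function.update_of_ne (fun h => absurd (cyc_inj _ _ _ _ h).1 (by decide))]
      have n1 := (fin4_ne j).1
      have n2 := (fin4_ne j).2.1
      have n3 := (fin4_ne j).2.2
      have s1 : rot g true = k := by
        rw [rot_cyc g true j, gj, gt _ n1, gt _ n2, gt _ n3]
        exact m4
      have s2 : rot g false = k := by
        refine Eq.trans ?_ h2
        unfold rot
        rw [gf, gf, gf, gf]
      have s3 : pot g ≤ n := by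
        have p1 := pot_cyc g j
        have p2 := pot_cyc f j
        rw [gj, gt _ n1, gt _ n2, gt _ n3, gf, gf, gf, gf] at p1
        omega
      obtain ⟨x, y, hxy, hr⟩ := ih g r1 s1 s2 s3
      exact ⟨x, y, hxy, r2.trans hr⟩

/-- passing a vertex `x` which is near to `y` -/
theorem near_arith (hq : 1 ≤ q) {x y u w : Fin k} (h1 : Apart k q u x) (h2 : Apart k q x w)
    (h3 : ¬ Apart k q x y) : fd u x + fd x w = fd u y + fd y w := by
  rw [apart_fd hq] at h1 h2 h3
  have e1 := fd_comm x y
  have e2 := fd_add u x y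
  have e3 := fd_add u y x
  have e4 := fd_add x y w
  have e5 := fd_add y x w
  have e6 := fd_lt u y
  have e7 := fd_lt y w
  have e8 := fd_lt x y
  have e9 := fd_lt y x
  omega

theorem sorted_arith {b0 b1 b2 b3 : Fin k} (h1 : b0.val ≤ b1.val) (h2 : b1.val ≤ b2.val)
    (h3 : b2.val ≤ b3.val) (h4 : b0.val ≠ b3.val) :
    fd b0 b1 + fd b1 b2 + fd b2 b3 + fd b3 b0 = k := by
  have := b3.isLt
  unfold fd
  rw [if_pos h1, if_pos h2, if_pos h3, if_neg (by omega)]
  omega

/-- the automorphism of the cube given by a permutation -/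
def permAut (σ : Equiv.Perm (Fin 4)) : Cube ≃g Cube where
  toEquiv := Equiv.prodCongr (Equiv.refl Bool) σ
  map_rel_iff' := by
    rintro ⟨s, i⟩ ⟨t, j⟩
    change (s ≠ t ∧ σ i ≠ σ j) ↔ (s ≠ t ∧ i ≠ j)
    rw [σ.injective.ne_iff]

theorem good_all (hq : 1 ≤ q) (hk : 4 * q < k) (f : Bool × Fin 4 → Fin k)
    (hf : IsCol Cube k q f) : Good k q f := by
  by_cases hfree : ∃ i, Apart k q (f (true, i)) (f (false, i))
  · obtain ⟨i, hi⟩ := hfree
    apply good_of_free hq (by omega) hf true (f (true, i))
    intro j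
    by_cases hij : i = j
    · subst hij; exact hi
    · exact hf (true, i) (false, j) ⟨Bool.noConfusion, hij⟩
  · push Not at hfree
    set σ := Tuple.sort (fun i => f (false, i)) with hσ
    have hmono : Monotone ((fun i => f (false, i)) ∘ σ) := Tuple.monotone_sort _
    have m01 : (f (false, σ 0)).val ≤ (f (false, σ 1)).val := hmono (show (0 : Fin 4) ≤ 1 by decide)
    have m12 : (f (false, σ 1)).val ≤ (f (false, σ 2)).val := hmono (show (1 : Fin 4) ≤ 2 by decide)
    have m23 : (f (false, σ 2)).val ≤ (f (false, σ 3)).val := hmono (show (2 : Fin 4) ≤ 3 by decide)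
    have hadj : ∀ i j : Fin 4, i ≠ j → Apart k q (f (true, σ i)) (f (false, σ j)) := fun i j hij =>
      hf (true, σ i) (false, σ j) ⟨Bool.noConfusion, fun h => hij (σ.injective h)⟩
    have m03 : (f (false, σ 0)).val ≠ (f (false, σ 3)).val := by
      intro h
      apply hfree (σ 0)
      rw [show f (false, σ 0) = f (false, σ 3) from Fin.ext h]
      exact hadj 0 3 (by decide)
    have hsort := sorted_arith m01 m12 m23 m03
    have n0 := near_arith hq (hadj 0 3 (by decide)).symm (hadj 0 1 (by decide)) (hfree (σ 0))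
    have n2 := near_arith hq (hadj 2 1 (by decide)).symm (hadj 2 3 (by decide)) (hfree (σ 2))
    have n1 := near_arith hq (hadj 1 0 (by decide)).symm (hadj 1 2 (by decide)) (hfree (σ 1))
    have n3 := near_arith hq (hadj 3 2 (by decide)).symm (hadj 3 0 (by decide)) (hfree (σ 3))
    have hg : IsCol Cube k q (f ∘ permAut σ) := fun u v huv =>
      hf _ _ ((permAut σ).map_adj_iff.2 huv)
    have r1 : rot (f ∘ permAut σ) true = k := by
      change fd (f (true, σ 0)) (f (false, σ 1)) + fd (f (false, σ 1)) (f (true, σ 2)) +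
        fd (f (true, σ 2)) (f (false, σ 3)) + fd (f (false, σ 3)) (f (true, σ 0)) = k
      omega
    have r2 : rot (f ∘ permAut σ) false = k := by
      change fd (f (false, σ 0)) (f (true, σ 1)) + fd (f (true, σ 1)) (f (false, σ 2)) +
        fd (f (false, σ 2)) (f (true, σ 3)) + fd (f (true, σ 3)) (f (false, σ 0)) = k
      omega
    obtain ⟨x, y, hxy, hr⟩ := good_of_rot hq hk _ _ hg r1 r2 le_rfl
    refine ⟨x, y, hxy, ?_⟩
    have h1 := reach_comp (permAut σ).symm hr
    have e1 : (f ∘ permAut σ) ∘ (permAut σ).symm = f := by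
      funext v
      simp
    have e2 : std x y ∘ (permAut σ).symm = std x y := by
      funext ⟨s, i⟩
      rfl
    rw [e1, e2] at h1
    exact h1

/-- the cube is `(k, q)`-mixing whenever `k > 4 q` -/
theorem cube_mixing (hq : 1 ≤ q) (hk : 4 * q < k) : IsMixing Cube k q := by
  intro f g hf hg
  obtain ⟨x, y, hxy, h1⟩ := good_all hq hk f hf
  obtain ⟨x', y', hxy', h2⟩ := good_all hq hk g hg
  exact h1.trans ((std_std hq (by omega) hxy hxy').trans (reach_symm h2))

end

/-! ### Attaching a triangle by an edge -/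

section

variable {V : Type*} {G : SimpleGraph V} {k q : ℕ}

/-- a triangle is joined to the vertex `u₀` by an edge -/
def attach (G : SimpleGraph V) (u₀ : V) : SimpleGraph (V ⊕ Fin 3) where
  Adj x y := match x, y with
    | Sum.inl a, Sum.inl b => G.Adj a b
    | Sum.inr i, Sum.inr j => i ≠ j
    | Sum.inl a, Sum.inr i => a = u₀ ∧ i = 0
    | Sum.inr i, Sum.inl a => a = u₀ ∧ i = 0
  symm := ⟨fun x y h => by
    rcases x with x | x <;> rcases y with y | y
    · exact SimpleGraph.Adj.symm h
    · exact h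
    · exact h
    · exact Ne.symm h⟩
  loopless := ⟨fun x h => by
    rcases x with x | x
    · exact G.loopless.irrefl x h
    · exact h rfl⟩

/-- the colouring with the colours `x`, `y`, `z` on the triangle -/
def ext3 (f : V → Fin k) (x y z : Fin k) : V ⊕ Fin 3 → Fin k := Sum.elim f ![x, y, z]

theorem ext3_isCol {u₀ : V} {f : V → Fin k} {x y z : Fin k} : IsCol (attach G u₀) k q (ext3 f x y z) ↔
    IsCol G k q f ∧ Apart k q (f u₀) x ∧ Apart k q x y ∧ Apart k q x z ∧ Apart k q y z := by
  constructor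
  · intro h
    exact ⟨fun u v huv => h (Sum.inl u) (Sum.inl v) huv, h (Sum.inl u₀) (Sum.inr 0) ⟨rfl, rfl⟩,
      h (Sum.inr 0) (Sum.inr 1) (show (0 : Fin 3) ≠ 1 by decide),
      h (Sum.inr 0) (Sum.inr 2) (show (0 : Fin 3) ≠ 2 by decide),
      h (Sum.inr 1) (Sum.inr 2) (show (1 : Fin 3) ≠ 2 by decide)⟩
  · rintro ⟨h1, h2, h3, h4, h5⟩ u v huv
    rcases u with u | i <;> rcases v with v | j
    · exact h1 u v huv
    · obtain ⟨rfl, rfl⟩ := huv
      exact h2
    · obtain ⟨rfl, rfl⟩ := huv
      exact h2.symm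
    · have hij : i ≠ j := huv
      fin_cases i <;> fin_cases j <;> first
        | exact absurd rfl hij | exact h3 | exact h4 | exact h5
        | exact h3.symm | exact h4.symm | exact h5.symm

theorem ext3_surj (F : V ⊕ Fin 3 → Fin k) :
    F = ext3 (F ∘ Sum.inl) (F (Sum.inr 0)) (F (Sum.inr 1)) (F (Sum.inr 2)) := by
  funext v
  rcases v with v | i
  · rfl
  · fin_cases i <;> rfl

theorem move_x {u₀ : V} {f : V → Fin k} {x y z x' : Fin k}
    (h : IsCol (attach G u₀) k q (ext3 f x y z)) (h1 : Apart k q (f u₀) x') (h2 : Apart k q x' y)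
    (h3 : Apart k q x' z) : IsCol (attach G u₀) k q (ext3 f x' y z) ∧
      ReflTransGen (Step (attach G u₀) k q) (ext3 f x y z) (ext3 f x' y z) := by
  have hc := ext3_isCol.1 h
  have h' : IsCol (attach G u₀) k q (ext3 f x' y z) := ext3_isCol.2 ⟨hc.1, h1, h2, h3, hc.2.2.2.2⟩
  refine ⟨h', ?_⟩
  by_cases hx : x = x'
  · rw [hx]
  · apply ReflTransGen.single
    refine ⟨h, h', Sum.inr 0, hx, ?_⟩
    rintro (v | i) hv
    · rfl
    · fin_cases i
      · exact absurd rfl hv
      · rfl
      · rfl

theorem move_y {u₀ : V} {f : V → Fin k} {x y z y' : Fin k}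
    (h : IsCol (attach G u₀) k q (ext3 f x y z)) (h2 : Apart k q x y')
    (h3 : Apart k q y' z) : IsCol (attach G u₀) k q (ext3 f x y' z) ∧
      ReflTransGen (Step (attach G u₀) k q) (ext3 f x y z) (ext3 f x y' z) := by
  have hc := ext3_isCol.1 h
  have h' : IsCol (attach G u₀) k q (ext3 f x y' z) :=
    ext3_isCol.2 ⟨hc.1, hc.2.1, h2, hc.2.2.2.1, h3⟩
  refine ⟨h', ?_⟩
  by_cases hx : y = y'
  · rw [hx]
  · apply ReflTransGen.single
    refine ⟨h, h', Sum.inr 1, hx, ?_⟩
    rintro (v | i) hv
    · rfl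
    · fin_cases i
      · rfl
      · exact absurd rfl hv
      · rfl

theorem move_z {u₀ : V} {f : V → Fin k} {x y z z' : Fin k}
    (h : IsCol (attach G u₀) k q (ext3 f x y z)) (h2 : Apart k q x z')
    (h3 : Apart k q y z') : IsCol (attach G u₀) k q (ext3 f x y z') ∧
      ReflTransGen (Step (attach G u₀) k q) (ext3 f x y z) (ext3 f x y z') := by
  have hc := ext3_isCol.1 h
  have h' : IsCol (attach G u₀) k q (ext3 f x y z') :=
    ext3_isCol.2 ⟨hc.1, hc.2.1, hc.2.2.1, h2, h3⟩
  refine ⟨h', ?_⟩
  by_cases hx : z = z'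
  · rw [hx]
  · apply ReflTransGen.single
    refine ⟨h, h', Sum.inr 2, hx, ?_⟩
    rintro (v | i) hv
    · rfl
    · fin_cases i
      · rfl
      · rfl
      · exact absurd rfl hv

/-- offsets -/
theorem apart_sh (x : Fin k) {a b : ℕ} (ha : a < k) (hb : b < k) : Apart k q (sh x a) (sh x b) ↔
    (a + q ≤ b ∧ b + q ≤ a + k) ∨ (b + q ≤ a ∧ a + q ≤ b + k) := by
  rw [apart_iff]
  have := (sh x a).isLt
  have := (sh x b).isLt
  rcases sh_val x a ha.le with h1 | h1 <;> rcases sh_val x b hb.le with h2 | h2 <;> omega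

theorem sh_zero (x : Fin k) : sh x 0 = x := by
  apply Fin.ext
  have := x.isLt
  have := (sh x 0).isLt
  rcases sh_val x 0 (Nat.zero_le _) with h | h <;> omega

theorem apart_sh' (x : Fin k) {b : ℕ} (hb : b < k) (h1 : q ≤ b) (h2 : b + q ≤ k) :
    Apart k q x (sh x b) := by
  have := (apart_sh (q := q) x (a := 0) (b := b) (by omega) hb).2 (by omega)
  rwa [sh_zero] at this

/-- the triangle with the first vertex fixed -/
theorem tri_fixed (hq : 1 ≤ q) (hk : 4 * q ≤ k) {u₀ : V} {f : V → Fin k} {x y z : Fin k}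
    (h : IsCol (attach G u₀) k q (ext3 f x y z)) :
    ReflTransGen (Step (attach G u₀) k q) (ext3 f x y z) (ext3 f x (sh x q) (sh x (2 * q))) := by
  have hc := ext3_isCol.1 h
  obtain ⟨-, -, hxy, hxz, hyz⟩ := hc
  have ey := sh_fd x y
  have ez := sh_fd x z
  have ly := fd_lt x y
  have lz := fd_lt x z
  rw [apart_fd hq] at hxy hxz
  set a := fd x y with ha
  set b := fd x z with hb
  have hab : (a + q ≤ b ∧ b + q ≤ a + k) ∨ (b + q ≤ a ∧ a + q ≤ b + k) := by
    rw [← apart_sh (q := q) x ly lz, ey, ez]; exact hyz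
  rcases lt_or_ge a b with hlt | hge
  · obtain ⟨c1, r1⟩ := move_y h (apart_sh' x (by omega : q < k) le_rfl (by omega)) (by
      rw [← ez, apart_sh x (by omega) lz]; omega)
    obtain ⟨c2, r2⟩ := move_z c1 (apart_sh' x (by omega : 2 * q < k) (by omega) (by omega)) (by
      rw [apart_sh x (by omega) (by omega)]; omega)
    exact r1.trans r2
  · obtain ⟨c1, r1⟩ := move_z h (apart_sh' x (by omega : q < k) le_rfl (by omega)) (by
      rw [← ey, apart_sh x ly (by omega)]; omega)
    obtain ⟨c2, r2⟩ := move_y c1 (apart_sh' x (by omega : 2 * q < k) (by omega) (by omega)) (by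
      rw [apart_sh x (by omega) (by omega)]; omega)
    obtain ⟨c3, r3⟩ := move_z c2 (apart_sh' x (by omega : 3 * q < k) (by omega) (by omega)) (by
      rw [apart_sh x (by omega) (by omega)]; omega)
    obtain ⟨c4, r4⟩ := move_y c3 (apart_sh' x (by omega : q < k) le_rfl (by omega)) (by
      rw [apart_sh x (by omega) (by omega)]; omega)
    obtain ⟨c5, r5⟩ := move_z c4 (apart_sh' x (by omega : 2 * q < k) (by omega) (by omega)) (by
      rw [apart_sh x (by omega) (by omega)]; omega)
    exact r1.trans (r2.trans (r3.trans (r4.trans r5)))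

/-- the triangle, the rest of the graph being fixed -/
theorem tri_slide (hq : 1 ≤ q) (hk : 4 * q ≤ k) {u₀ : V} {f : V → Fin k} (n : ℕ) :
    ∀ x y z : Fin k, fd (f u₀) x ≤ q + n → IsCol (attach G u₀) k q (ext3 f x y z) →
    ReflTransGen (Step (attach G u₀) k q) (ext3 f x y z)
      (ext3 f (sh (f u₀) q) (sh (sh (f u₀) q) q) (sh (sh (f u₀) q) (2 * q))) := by
  induction n with
  | zero =>
    intro x y z hx h
    have hc := (ext3_isCol.1 h).2.1
    rw [apart_fd hq] at hc
    have h1 : x = sh (f u₀) q := by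
      rw [← sh_fd (f u₀) x, show fd (f u₀) x = q by omega]
    have h2 := tri_fixed hq hk h
    rwa [h1] at h2 ⊢
  | succ n ih =>
    intro x y z hx h
    by_cases hx' : fd (f u₀) x ≤ q + n
    · exact ih x y z hx' h
    · have hc := (ext3_isCol.1 h).2.1
      rw [apart_fd hq] at hc
      have h2 := tri_fixed hq hk h
      have c2 := reach_isCol h2 h
      -- the new position of the first vertex
      have e0 : fd (f u₀) (sh (f u₀) (q + n)) = q + n := fd_sh _ _ (by omega)
      have e1 : fd (sh (f u₀) (q + n)) x = 1 := by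
        have := fd_add (f u₀) (sh (f u₀) (q + n)) x
        have := fd_lt (sh (f u₀) (q + n)) x
        omega
      have e2 : fd x (sh x q) = q := fd_sh _ _ (by omega)
      have e3 : fd x (sh x (2 * q)) = 2 * q := fd_sh _ _ (by omega)
      have e4 := fd_add (sh (f u₀) (q + n)) x (sh x q)
      have e5 := fd_add (sh (f u₀) (q + n)) x (sh x (2 * q))
      have e6 := fd_lt (sh (f u₀) (q + n)) (sh x q)
      have e7 := fd_lt (sh (f u₀) (q + n)) (sh x (2 * q))
      obtain ⟨c3, r3⟩ := move_x c2 (x' := sh (f u₀) (q + n)) (by rw [apart_fd hq]; omega)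
        (by rw [apart_fd hq]; omega) (by rw [apart_fd hq]; omega)
      exact h2.trans (r3.trans (ih _ _ _ (by omega) c3))

theorem tri_reach (hq : 1 ≤ q) (hk : 4 * q ≤ k) {u₀ : V} {f : V → Fin k} {x y z x' y' z' : Fin k}
    (h : IsCol (attach G u₀) k q (ext3 f x y z)) (h' : IsCol (attach G u₀) k q (ext3 f x' y' z')) :
    ReflTransGen (Step (attach G u₀) k q) (ext3 f x y z) (ext3 f x' y' z') :=
  (tri_slide hq hk _ x y z (Nat.le_add_left _ _) h).trans
    (reach_symm (tri_slide hq hk _ x' y' z' (Nat.le_add_left _ _) h'))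

theorem lift_step (hq : 1 ≤ q) (hk : 4 * q ≤ k) {u₀ : V} {f g : V → Fin k} (hfg : Step G k q f g)
    {x y z : Fin k} (h : IsCol (attach G u₀) k q (ext3 f x y z)) :
    ∃ x' y' z', ReflTransGen (Step (attach G u₀) k q) (ext3 f x y z) (ext3 g x' y' z') := by
  obtain ⟨hf, hg, v, hv, hrest⟩ := hfg
  -- a colour for the first vertex of the triangle that is apart from both colours of `u₀`
  have hex : ∃ x', Apart k q (f u₀) x' ∧ Apart k q (g u₀) x' := by
    have e1 := sh_fd (f u₀) (g u₀)
    have e2 := fd_lt (f u₀) (g u₀)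
    by_cases hd : 2 * q ≤ fd (f u₀) (g u₀) ∨ fd (f u₀) (g u₀) = 0
    · refine ⟨sh (f u₀) q, apart_sh' _ (by omega) le_rfl (by omega), ?_⟩
      rw [← e1, apart_sh _ (by omega) (by omega)]
      omega
    · refine ⟨sh (f u₀) (k - q), apart_sh' _ (by omega) (by omega) (by omega), ?_⟩
      rw [← e1, apart_sh _ (by omega) (by omega)]
      omega
  obtain ⟨x', h1, h2⟩ := hex
  have a1 : Apart k q x' (sh x' q) := apart_sh' _ (by omega) le_rfl (by omega)
  have a2 : Apart k q x' (sh x' (2 * q)) := apart_sh' _ (by omega) (by omega) (by omega)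
  have a3 : Apart k q (sh x' q) (sh x' (2 * q)) := by
    rw [apart_sh _ (by omega) (by omega)]; omega
  have c1 : IsCol (attach G u₀) k q (ext3 f x' (sh x' q) (sh x' (2 * q))) :=
    ext3_isCol.2 ⟨hf, h1, a1, a2, a3⟩
  have c2 : IsCol (attach G u₀) k q (ext3 g x' (sh x' q) (sh x' (2 * q))) :=
    ext3_isCol.2 ⟨hg, h2, a1, a2, a3⟩
  refine ⟨_, _, _, (tri_reach hq hk h c1).tail ⟨c1, c2, Sum.inl v, hv, ?_⟩⟩
  rintro (u | i) hu
  · exact hrest u (fun e => hu (by rw [e]))
  · rfl

theorem attach_mixing (hq : 1 ≤ q) (hk : 4 * q ≤ k) (u₀ : V) (hG : IsMixing G k q) :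
    IsMixing (attach G u₀) k q := by
  have lift : ∀ f g : V → Fin k, ReflTransGen (Step G k q) f g → ∀ x y z,
      IsCol (attach G u₀) k q (ext3 f x y z) →
      ∃ x' y' z', ReflTransGen (Step (attach G u₀) k q) (ext3 f x y z) (ext3 g x' y' z') := by
    intro f g hfg x y z h
    induction hfg with
    | refl => exact ⟨x, y, z, ReflTransGen.refl⟩
    | tail _ hs ih =>
      obtain ⟨x', y', z', h1⟩ := ih
      obtain ⟨x'', y'', z'', h2⟩ := lift_step hq hk hs (reach_isCol h1 h)
      exact ⟨x'', y'', z'', h1.trans h2⟩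
  intro F F' hF hF'
  rw [ext3_surj F] at hF ⊢
  rw [ext3_surj F'] at hF' ⊢
  obtain ⟨x', y', z', h1⟩ := lift _ _ (hG _ _ (ext3_isCol.1 hF).1 (ext3_isCol.1 hF').1) _ _ _ hF
  exact h1.trans (tri_reach hq hk (reach_isCol h1 hF) hF')

end

/-! ### The example -/

/-- the cube with a triangle joined to it by an edge -/
def Ex : SimpleGraph ((Bool × Fin 4) ⊕ Fin 3) := attach Cube (true, 0)

theorem ex_mixing {k q : ℕ} (hq : 1 ≤ q) (hk : 4 * q < k) : IsMixing Ex k q :=
  attach_mixing hq hk.le _ (cube_mixing hq hk)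

theorem ex_not_mixing : ¬ IsMixing Ex 4 1 := by
  intro h
  let F : (Bool × Fin 4) ⊕ Fin 3 → Fin 4 := ext3 (fun v => v.2) 1 2 3
  let F' : (Bool × Fin 4) ⊕ Fin 3 → Fin 4 := ext3 (std 0 1) 1 2 3
  have hne : ∀ x y : Fin 4, Apart 4 1 x y ↔ x ≠ y := by
    intro x y
    rw [apart_iff]
    have := x.isLt
    have := y.isLt
    rw [Ne, Fin.ext_iff]
    omega
  have hF : IsCol Ex 4 1 F := by
    refine ext3_isCol.2 ⟨fun u v huv => (hne _ _).2 huv.2, ?_⟩
    simp only [hne]
    decide
  have hF' : IsCol Ex 4 1 F' := by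
    refine ext3_isCol.2 ⟨std_isCol ((hne _ _).2 (by decide)), ?_⟩
    simp only [hne]
    decide
  have hr := h F F' hF hF'
  have inv : ∀ H, ReflTransGen (Step Ex 4 1) F H → ∀ v, H (Sum.inl v) = v.2 := by
    intro H hH
    induction hH with
    | refl => intro v; rfl
    | @tail H₁ H₂ _ hs ih =>
      obtain ⟨-, h2, w, h3, h4⟩ := hs
      intro v
      by_cases hv : Sum.inl v = w
      · subst hv
        exfalso
        apply h3
        rw [ih v]
        by_contra hcon
        -- the neighbour with the new colour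
        have hadj : Ex.Adj (Sum.inl v) (Sum.inl (!v.1, H₂ (Sum.inl v))) :=
          show Cube.Adj v (!v.1, H₂ (Sum.inl v)) from
            ⟨(Bool.not_ne_self v.1).symm, hcon⟩
        have h5 := (hne _ _).1 (h2 _ _ hadj)
        apply h5
        rw [← h4 (Sum.inl (!v.1, H₂ (Sum.inl v))) hadj.ne', ih]
      · rw [← h4 _ hv, ih]
  have h1 := inv F' hr (true, 1)
  exact absurd h1 (by decide)

theorem ex_not_colorable : ¬ Ex.Colorable 2 := by
  rintro ⟨c⟩
  have h01 : c (Sum.inr 0) ≠ c (Sum.inr 1) := c.valid (show (0 : Fin 3) ≠ 1 by decide)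
  have h02 : c (Sum.inr 0) ≠ c (Sum.inr 2) := c.valid (show (0 : Fin 3) ≠ 2 by decide)
  have h12 : c (Sum.inr 1) ≠ c (Sum.inr 2) := c.valid (show (1 : Fin 3) ≠ 2 by decide)
  have key : ∀ x y z : Fin 2, x ≠ y → x ≠ z → y ≠ z → False := by decide
  exact key _ _ _ h01 h02 h12

theorem cube_dist : ∀ v : Bool × Fin 4, v = (true, 0) ∨ Cube.Adj (true, 0) v ∨
    (∃ w, Cube.Adj (true, 0) w ∧ Cube.Adj w v) ∨
    (∃ w, Cube.Adj (true, 0) w ∧ ∃ w', Cube.Adj w w' ∧ Cube.Adj w' v) := by decide

theorem ex_connected : Ex.Connected := by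
  have hadj : ∀ {u v : Bool × Fin 4}, Cube.Adj u v → Ex.Reachable (Sum.inl u) (Sum.inl v) :=
    fun {u v} h => Adj.reachable (show Ex.Adj (Sum.inl u) (Sum.inl v) from h)
  have hall : ∀ v, Ex.Reachable (Sum.inl (true, 0)) v := by
    rintro (v | i)
    · rcases cube_dist v with h | h | ⟨w, h1, h2⟩ | ⟨w, h1, w', h2, h3⟩
      · rw [h]
      · exact hadj h
      · exact (hadj h1).trans (hadj h2)
      · exact ((hadj h1).trans (hadj h2)).trans (hadj h3)
    · have h0 : Ex.Reachable (Sum.inl (true, 0)) (Sum.inr 0) :=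
        Adj.reachable (show Ex.Adj (Sum.inl (true, 0)) (Sum.inr 0) from ⟨rfl, rfl⟩)
      by_cases hi : i = 0
      · rw [hi]; exact h0
      · exact h0.trans (Adj.reachable (show Ex.Adj (Sum.inr 0) (Sum.inr i) from Ne.symm hi))
  have : Nonempty ((Bool × Fin 4) ⊕ Fin 3) := ⟨Sum.inl (true, 0)⟩
  exact ⟨fun u v => (hall u).symm.trans (hall v)⟩

theorem not_mem_of_le {x : ℝ} (hx : x ≤ 4) : x ∉ mixingRatios Ex := by
  rintro ⟨l, rfl, hl⟩
  apply ex_not_mixing
  apply hl 4 1 (by norm_num) le_rfl
  have : (l : ℝ) ≤ ((4 : ℚ) : ℝ) := by exact_mod_cast hx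
  have h2 : l ≤ 4 := by exact_mod_cast this
  simpa using h2

theorem ex_circular : circularMixingThreshold Ex = 4 := by
  unfold circularMixingThreshold
  apply le_antisymm
  · apply le_of_forall_pos_lt_add
    intro ε hε
    obtain ⟨l, h1, h2⟩ := exists_rat_btwn (show (4 : ℝ) < 4 + ε by linarith)
    have hmem : (l : ℝ) ∈ mixingRatios Ex := by
      refine ⟨l, rfl, fun k q hk hq hlq => ex_mixing hq ?_⟩
      have h3 : (4 : ℚ) < l := by exact_mod_cast h1
      have hq' : (0 : ℚ) < q := by exact_mod_cast hq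
      have h4 : (4 : ℚ) < (k : ℚ) / q := lt_of_lt_of_le h3 hlq
      rw [lt_div_iff₀ hq'] at h4
      exact_mod_cast h4
    exact lt_of_le_of_lt (csInf_le ⟨4, fun x hx => le_of_not_ge fun h => not_mem_of_le h hx⟩ hmem) h2
  · apply le_csInf
    · refine ⟨((5 : ℚ) : ℝ), 5, rfl, fun k q hk hq hlq => ex_mixing hq ?_⟩
      have hq' : (0 : ℚ) < q := by exact_mod_cast hq
      rw [le_div_iff₀ hq'] at hlq
      have h4 : (4 : ℚ) * q < k := by linarith
      exact_mod_cast h4
    · intro x hx
      exact le_of_not_ge fun h => not_mem_of_le h hx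

theorem ex_threshold : mixingThreshold Ex = 5 := by
  unfold mixingThreshold
  have hmem : (5 : ℕ) ∈ {l : ℕ | ∀ k : ℕ, 1 ≤ k → l ≤ k → IsMixing Ex k 1} :=
    fun k _ hk => ex_mixing le_rfl (by omega)
  apply le_antisymm (Nat.sInf_le hmem)
  by_contra hlt
  push Not at hlt
  have h1 := Nat.sInf_mem ⟨5, hmem⟩
  exact ex_not_mixing (h1 4 (by norm_num) (by omega))

end Q128.Mixing
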