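import Mathlib

/-!
# Circular colourings and mixing: definitions

`(k, q)`-colourings, `(k, q)`-mixing, the mixing threshold and the circular mixing threshold.
-/

set_option autoImplicit false

namespace Q128.Mixing

open SimpleGraph Relation

/-- the colours `x` and `y` may be given to adjacent vertices: `q ≤ |x - y| ≤ k - q` -/
def Apart (k q : ℕ) (x y : Fin k) : Prop :=
  (q : ℤ) ≤ |(x.val : ℤ) - (y.val : ℤ)| ∧ |(x.val : ℤ) - (y.val : ℤ)| ≤ (k : ℤ) - (q : ℤ)

/-- `f` is a `(k, q)`-colouring of `G` -/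
def IsCol {V : Type*} (G : SimpleGraph V) (k q : ℕ) (f : V → Fin k) : Prop :=
  ∀ u v, G.Adj u v → Apart k q (f u) (f v)

/-- `f` and `g` are `(k, q)`-colourings which differ at exactly one vertex -/
def Step {V : Type*} (G : SimpleGraph V) (k q : ℕ) (f g : V → Fin k) : Prop :=
  IsCol G k q f ∧ IsCol G k q g ∧ ∃ v, f v ≠ g v ∧ ∀ u, u ≠ v → f u = g u

/-- `G` is `(k, q)`-mixing -/
def IsMixing {V : Type*} (G : SimpleGraph V) (k q : ℕ) : Prop :=
  ∀ f g : V → Fin k, IsCol G k q f → IsCol G k q g → ReflTransGen (Step G k q) f g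

/-- the mixing threshold `M(G)` -/
noncomputable def mixingThreshold {V : Type*} (G : SimpleGraph V) : ℕ :=
  sInf {l : ℕ | ∀ k : ℕ, 1 ≤ k → l ≤ k → IsMixing G k 1}

/-- the set `R(G)` of the rationals `l` such that `G` is `(k, q)`-mixing for all positive integers
`k, q` with `k / q ≥ l`, as a set of real numbers -/
def mixingRatios {V : Type*} (G : SimpleGraph V) : Set ℝ :=
  {x | ∃ l : ℚ, x = l ∧ ∀ k q : ℕ, 1 ≤ k → 1 ≤ q → l ≤ (k : ℚ) / (q : ℚ) → IsMixing G k q}

/-- the circular mixing threshold `M_c(G)`, the infimum of `R(G)` -/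
noncomputable def circularMixingThreshold {V : Type*} (G : SimpleGraph V) : ℝ :=
  sInf (mixingRatios G)

end Q128.Mixing
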