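import Pool.Agent.Q128.Mixing
import Pool.Agent.Q128.CircChromDefs

/-!
# The Mycielski graph of the triangle

The graph `My` has the vertices `t_0, t_1, t_2` (a triangle), `x_0, x_1, x_2`, where `x_i` is adjacent
to the `t_j` with `j ≠ i`, and `o`, which is adjacent to the `x_i`. It has no `(k, q)`-colouring for
`k < 4 q`, it is `(k, q)`-mixing for all `k > 4 q`, and it is not `(4, 1)`-mixing.
-/

set_option autoImplicit false

namespace Q128.Myc

open SimpleGraph Relation Q128.Mixing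

/-- the vertices -/
inductive Vt : Type
  | t0 | t1 | t2 | x0 | x1 | x2 | o
  deriving DecidableEq, Fintype

/-- the edges -/
def E : List (Vt × Vt) :=
  [(.t0, .t1), (.t0, .t2), (.t1, .t2), (.x0, .t1), (.x0, .t2), (.x1, .t0), (.x1, .t2),
    (.x2, .t0), (.x2, .t1), (.o, .x0), (.o, .x1), (.o, .x2)]

/-- the Mycielski graph of the triangle -/
def My : SimpleGraph Vt := SimpleGraph.fromRel fun i j => (i, j) ∈ E

instance : DecidableRel My.Adj := fun i j =>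
  inferInstanceAs (Decidable (i ≠ j ∧ ((i, j) ∈ E ∨ (j, i) ∈ E)))

section

variable {k q : ℕ}

/-- the colouring with the given colours -/
def cfg (t0 t1 t2 x0 x1 x2 o : Fin k) : Vt → Fin k
  | .t0 => t0
  | .t1 => t1
  | .t2 => t2
  | .x0 => x0
  | .x1 => x1
  | .x2 => x2
  | .o => o

theorem cfg_surj (F : Vt → Fin k) :
    F = cfg (F .t0) (F .t1) (F .t2) (F .x0) (F .x1) (F .x2) (F .o) := by
  funext u
  cases u <;> rfl

theorem col_iff {t0 t1 t2 x0 x1 x2 o : Fin k} : IsCol My k q (cfg t0 t1 t2 x0 x1 x2 o) ↔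
    (Apart k q t0 t1 ∧ Apart k q t0 t2 ∧ Apart k q t1 t2) ∧
    (Apart k q x0 t1 ∧ Apart k q x0 t2) ∧ (Apart k q x1 t0 ∧ Apart k q x1 t2) ∧
    (Apart k q x2 t0 ∧ Apart k q x2 t1) ∧ (Apart k q o x0 ∧ Apart k q o x1 ∧ Apart k q o x2) := by
  constructor
  · intro h
    exact ⟨⟨h .t0 .t1 (by decide), h .t0 .t2 (by decide), h .t1 .t2 (by decide)⟩,
      ⟨h .x0 .t1 (by decide), h .x0 .t2 (by decide)⟩, ⟨h .x1 .t0 (by decide), h .x1 .t2 (by decide)⟩,
      ⟨h .x2 .t0 (by decide), h .x2 .t1 (by decide)⟩,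
      ⟨h .o .x0 (by decide), h .o .x1 (by decide), h .o .x2 (by decide)⟩⟩
  · rintro ⟨⟨h01, h02, h12⟩, ⟨h31, h32⟩, ⟨h40, h42⟩, ⟨h50, h51⟩, ⟨h63, h64, h65⟩⟩ u v huv
    have key : (u, v) ∈ E ∨ (v, u) ∈ E := huv.2
    simp only [E, List.mem_cons, Prod.mk.injEq, List.not_mem_nil, or_false] at key
    rcases key with h | h
    · rcases h with ⟨rfl, rfl⟩ | ⟨rfl, rfl⟩ | ⟨rfl, rfl⟩ | ⟨rfl, rfl⟩ | ⟨rfl, rfl⟩ | ⟨rfl, rfl⟩ |
        ⟨rfl, rfl⟩ | ⟨rfl, rfl⟩ | ⟨rfl, rfl⟩ | ⟨rfl, rfl⟩ | ⟨rfl, rfl⟩ | ⟨rfl, rfl⟩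
      · exact h01
      · exact h02
      · exact h12
      · exact h31
      · exact h32
      · exact h40
      · exact h42
      · exact h50
      · exact h51
      · exact h63
      · exact h64
      · exact h65
    · rcases h with ⟨rfl, rfl⟩ | ⟨rfl, rfl⟩ | ⟨rfl, rfl⟩ | ⟨rfl, rfl⟩ | ⟨rfl, rfl⟩ | ⟨rfl, rfl⟩ |
        ⟨rfl, rfl⟩ | ⟨rfl, rfl⟩ | ⟨rfl, rfl⟩ | ⟨rfl, rfl⟩ | ⟨rfl, rfl⟩ | ⟨rfl, rfl⟩
      · exact h01.symm
      · exact h02.symm
      · exact h12.symm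
      · exact h31.symm
      · exact h32.symm
      · exact h40.symm
      · exact h42.symm
      · exact h50.symm
      · exact h51.symm
      · exact h63.symm
      · exact h64.symm
      · exact h65.symm

theorem mv {F F' : Vt → Fin k} (hF : IsCol My k q F) (hF' : IsCol My k q F') (v : Vt)
    (h : ∀ u, u ≠ v → F u = F' u) : ReflTransGen (Step My k q) F F' := by
  by_cases hv : F v = F' v
  · have : F = F' := by
      funext u
      by_cases hu : u = v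
      · rw [hu, hv]
      · exact h u hu
    rw [this]
  · exact ReflTransGen.single ⟨hF, hF', v, hv, h⟩

variable {t0 t1 t2 x0 x1 x2 o y : Fin k}

theorem mv0 (h : IsCol My k q (cfg t0 t1 t2 x0 x1 x2 o)) (h' : IsCol My k q (cfg y t1 t2 x0 x1 x2 o)) :
    ReflTransGen (Step My k q) (cfg t0 t1 t2 x0 x1 x2 o) (cfg y t1 t2 x0 x1 x2 o) :=
  mv h h' .t0 fun u hu => by
    cases u
    · exact absurd rfl hu
    · rfl
    · rfl
    · rfl
    · rfl
    · rfl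
    · rfl

theorem mv1 (h : IsCol My k q (cfg t0 t1 t2 x0 x1 x2 o)) (h' : IsCol My k q (cfg t0 y t2 x0 x1 x2 o)) :
    ReflTransGen (Step My k q) (cfg t0 t1 t2 x0 x1 x2 o) (cfg t0 y t2 x0 x1 x2 o) :=
  mv h h' .t1 fun u hu => by
    cases u
    · rfl
    · exact absurd rfl hu
    · rfl
    · rfl
    · rfl
    · rfl
    · rfl

theorem mv2 (h : IsCol My k q (cfg t0 t1 t2 x0 x1 x2 o)) (h' : IsCol My k q (cfg t0 t1 y x0 x1 x2 o)) :
    ReflTransGen (Step My k q) (cfg t0 t1 t2 x0 x1 x2 o) (cfg t0 t1 y x0 x1 x2 o) :=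
  mv h h' .t2 fun u hu => by
    cases u
    · rfl
    · rfl
    · exact absurd rfl hu
    · rfl
    · rfl
    · rfl
    · rfl

theorem mv3 (h : IsCol My k q (cfg t0 t1 t2 x0 x1 x2 o)) (h' : IsCol My k q (cfg t0 t1 t2 y x1 x2 o)) :
    ReflTransGen (Step My k q) (cfg t0 t1 t2 x0 x1 x2 o) (cfg t0 t1 t2 y x1 x2 o) :=
  mv h h' .x0 fun u hu => by
    cases u
    · rfl
    · rfl
    · rfl
    · exact absurd rfl hu
    · rfl
    · rfl
    · rfl

theorem mv4 (h : IsCol My k q (cfg t0 t1 t2 x0 x1 x2 o)) (h' : IsCol My k q (cfg t0 t1 t2 x0 y x2 o)) :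
    ReflTransGen (Step My k q) (cfg t0 t1 t2 x0 x1 x2 o) (cfg t0 t1 t2 x0 y x2 o) :=
  mv h h' .x1 fun u hu => by
    cases u
    · rfl
    · rfl
    · rfl
    · rfl
    · exact absurd rfl hu
    · rfl
    · rfl

theorem mv5 (h : IsCol My k q (cfg t0 t1 t2 x0 x1 x2 o)) (h' : IsCol My k q (cfg t0 t1 t2 x0 x1 y o)) :
    ReflTransGen (Step My k q) (cfg t0 t1 t2 x0 x1 x2 o) (cfg t0 t1 t2 x0 x1 y o) :=
  mv h h' .x2 fun u hu => by
    cases u
    · rfl
    · rfl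
    · rfl
    · rfl
    · rfl
    · exact absurd rfl hu
    · rfl

theorem mv6 (h : IsCol My k q (cfg t0 t1 t2 x0 x1 x2 o)) (h' : IsCol My k q (cfg t0 t1 t2 x0 x1 x2 y)) :
    ReflTransGen (Step My k q) (cfg t0 t1 t2 x0 x1 x2 o) (cfg t0 t1 t2 x0 x1 x2 y) :=
  mv h h' .o fun u hu => by
    cases u
    · rfl
    · rfl
    · rfl
    · rfl
    · rfl
    · rfl
    · exact absurd rfl hu

/-! ### Reduction to colourings with `x_i = t_i` -/

/-- four pairwise apart colours -/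
def K4 (k q : ℕ) (a b c d : Fin k) : Prop :=
  (Apart k q a b ∧ Apart k q a c ∧ Apart k q b c) ∧ (Apart k q a d ∧ Apart k q b d ∧ Apart k q c d)

/-- the colouring with `x_i = t_i` -/
def AA (a b c d : Fin k) : Vt → Fin k := cfg a b c a b c d

theorem aa_col {a b c d : Fin k} (h : K4 k q a b c d) : IsCol My k q (AA a b c d) := by
  obtain ⟨⟨h1, h2, h3⟩, h4, h5, h6⟩ := h
  exact col_iff.2 ⟨⟨h1, h2, h3⟩, ⟨h1, h2⟩, ⟨h1.symm, h3⟩, ⟨h2.symm, h3.symm⟩, ⟨h4.symm, h5.symm, h6.symm⟩⟩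

/-- a colouring with `x_i = t_i` can be reached -/
def Good (k q : ℕ) (F : Vt → Fin k) : Prop :=
  ∃ a b c d, K4 k q a b c d ∧ ReflTransGen (Step My k q) F (AA a b c d)

theorem Good.of_reach {F F' : Vt → Fin k} (h : ReflTransGen (Step My k q) F F')
    (h' : Good k q F') : Good k q F := by
  obtain ⟨a, b, c, d, h1, h2⟩ := h'
  exact ⟨a, b, c, d, h1, h.trans h2⟩

theorem near0 (h : IsCol My k q (cfg t0 t1 t2 x0 x1 x2 o)) (h1 : Apart k q o t1)
    (h2 : Apart k q o t2) : Good k q (cfg t0 t1 t2 x0 x1 x2 o) := by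
  obtain ⟨⟨h01, h02, h12⟩, ⟨h31, h32⟩, ⟨h40, h42⟩, ⟨h50, h51⟩, ⟨h63, h64, h65⟩⟩ := col_iff.1 h
  have c1 : IsCol My k q (cfg t0 t1 t2 x0 t1 x2 o) :=
    col_iff.2 ⟨⟨h01, h02, h12⟩, ⟨h31, h32⟩, ⟨h01.symm, h12⟩, ⟨h50, h51⟩, ⟨h63, h1, h65⟩⟩
  have c2 : IsCol My k q (cfg t0 t1 t2 x0 t1 t2 o) :=
    col_iff.2 ⟨⟨h01, h02, h12⟩, ⟨h31, h32⟩, ⟨h01.symm, h12⟩, ⟨h02.symm, h12.symm⟩, ⟨h63, h1, h2⟩⟩
  have k3 : K4 k q x0 t1 t2 o := ⟨⟨h31, h32, h12⟩, h63.symm, h1.symm, h2.symm⟩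
  exact ⟨x0, t1, t2, o, k3, (mv4 h c1).trans ((mv5 c1 c2).trans (mv0 c2 (aa_col k3)))⟩

/-- exchanging the indices `0` and `1` -/
def aut01 : My ≃g My where
  toEquiv := Equiv.swap Vt.t0 Vt.t1 * Equiv.swap Vt.x0 Vt.x1
  map_rel_iff' := by
    intro a b
    revert a b
    decide

/-- exchanging the indices `1` and `2` -/
def aut12 : My ≃g My where
  toEquiv := Equiv.swap Vt.t1 Vt.t2 * Equiv.swap Vt.x1 Vt.x2
  map_rel_iff' := by
    intro a b
    revert a b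
    decide

theorem comp01 : cfg t1 t0 t2 x1 x0 x2 o ∘ aut01 = cfg t0 t1 t2 x0 x1 x2 o := by
  funext u
  cases u <;> rfl

theorem comp12 : cfg t0 t2 t1 x0 x2 x1 o ∘ aut12 = cfg t0 t1 t2 x0 x1 x2 o := by
  funext u
  cases u <;> rfl

theorem good01 (h : Good k q (cfg t1 t0 t2 x1 x0 x2 o)) : Good k q (cfg t0 t1 t2 x0 x1 x2 o) := by
  obtain ⟨a, b, c, d, ⟨⟨h1, h2, h3⟩, h4, h5, h6⟩, hr⟩ := h
  have h7 := reach_comp aut01 hr
  rw [AA, comp01, comp01] at h7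
  exact ⟨b, a, c, d, ⟨⟨h1.symm, h3, h2⟩, h5, h4, h6⟩, h7⟩

theorem good12 (h : Good k q (cfg t0 t2 t1 x0 x2 x1 o)) : Good k q (cfg t0 t1 t2 x0 x1 x2 o) := by
  obtain ⟨a, b, c, d, ⟨⟨h1, h2, h3⟩, h4, h5, h6⟩, hr⟩ := h
  have h7 := reach_comp aut12 hr
  rw [AA, comp12, comp12] at h7
  exact ⟨a, c, b, d, ⟨⟨h2, h1, h3.symm⟩, h4, h6, h5⟩, h7⟩

theorem col01 (h : IsCol My k q (cfg t0 t1 t2 x0 x1 x2 o)) :
    IsCol My k q (cfg t1 t0 t2 x1 x0 x2 o) := by
  obtain ⟨⟨h01, h02, h12⟩, ⟨h31, h32⟩, ⟨h40, h42⟩, ⟨h50, h51⟩, ⟨h63, h64, h65⟩⟩ := col_iff.1 h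
  exact col_iff.2 ⟨⟨h01.symm, h12, h02⟩, ⟨h40, h42⟩, ⟨h31, h32⟩, ⟨h51, h50⟩, ⟨h64, h63, h65⟩⟩

theorem col12 (h : IsCol My k q (cfg t0 t1 t2 x0 x1 x2 o)) :
    IsCol My k q (cfg t0 t2 t1 x0 x2 x1 o) := by
  obtain ⟨⟨h01, h02, h12⟩, ⟨h31, h32⟩, ⟨h40, h42⟩, ⟨h50, h51⟩, ⟨h63, h64, h65⟩⟩ := col_iff.1 h
  exact col_iff.2 ⟨⟨h02, h01, h12.symm⟩, ⟨h32, h31⟩, ⟨h50, h51⟩, ⟨h40, h42⟩, ⟨h63, h65, h64⟩⟩

theorem near1 (h : IsCol My k q (cfg t0 t1 t2 x0 x1 x2 o)) (h0 : Apart k q o t0)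
    (h2 : Apart k q o t2) : Good k q (cfg t0 t1 t2 x0 x1 x2 o) :=
  good01 (near0 (col01 h) h0 h2)

theorem three_near (h01 : Apart k q t0 t1) (h02 : Apart k q t0 t2) (h12 : Apart k q t1 t2)
    (n0 : ¬ Apart k q o t0) (n1 : ¬ Apart k q o t1) : Apart k q o t2 := by
  rw [apart_iff] at h01 h02 h12 n0 n1 ⊢
  have := o.isLt
  have := t0.isLt
  have := t1.isLt
  have := t2.isLt
  omega

theorem arith_c (hq : 1 ≤ q) (h01 : Apart k q t0 t1) (h02 : Apart k q t0 t2) (h12 : Apart k q t1 t2)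
    (h31 : Apart k q x0 t1) (h32 : Apart k q x0 t2) (h40 : Apart k q x1 t0) (h42 : Apart k q x1 t2)
    (h62 : Apart k q o t2) (h63 : Apart k q o x0) (h64 : Apart k q o x1)
    (n0 : ¬ Apart k q o t0) (n1 : ¬ Apart k q o t1) (m0 : ¬ Apart k q t0 x0)
    (m1 : ¬ Apart k q t1 x1) :
    ∃ y, Apart k q y t1 ∧ Apart k q y t2 ∧ Apart k q x1 y ∧ Apart k q o y := by
  obtain ⟨a0, ha0, e0⟩ : ∃ a, a < k ∧ t0 = sh t2 a := ⟨fd t2 t0, fd_lt _ _, (sh_fd _ _).symm⟩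
  obtain ⟨a1, ha1, e1⟩ : ∃ a, a < k ∧ t1 = sh t2 a := ⟨fd t2 t1, fd_lt _ _, (sh_fd _ _).symm⟩
  obtain ⟨b0, hb0, f0⟩ : ∃ a, a < k ∧ x0 = sh t2 a := ⟨fd t2 x0, fd_lt _ _, (sh_fd _ _).symm⟩
  obtain ⟨b1, hb1, f1⟩ : ∃ a, a < k ∧ x1 = sh t2 a := ⟨fd t2 x1, fd_lt _ _, (sh_fd _ _).symm⟩
  obtain ⟨c, hc, g⟩ : ∃ a, a < k ∧ o = sh t2 a := ⟨fd t2 o, fd_lt _ _, (sh_fd _ _).symm⟩
  have hk : 0 < k := by omega
  have z : t2 = sh t2 0 := (sh_zero t2).symm
  have h02' : Apart k q (sh t2 a0) (sh t2 0) := by rw [← e0, ← z]; exact h02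
  have h12' : Apart k q (sh t2 a1) (sh t2 0) := by rw [← e1, ← z]; exact h12
  have h32' : Apart k q (sh t2 b0) (sh t2 0) := by rw [← f0, ← z]; exact h32
  have h42' : Apart k q (sh t2 b1) (sh t2 0) := by rw [← f1, ← z]; exact h42
  have h62' : Apart k q (sh t2 c) (sh t2 0) := by rw [← g, ← z]; exact h62
  rw [e0, e1, apart_sh _ ha0 ha1] at h01
  rw [f0, e1, apart_sh _ hb0 ha1] at h31
  rw [f1, e0, apart_sh _ hb1 ha0] at h40
  rw [g, f0, apart_sh _ hc hb0] at h63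
  rw [g, f1, apart_sh _ hc hb1] at h64
  rw [g, e0, apart_sh _ hc ha0] at n0
  rw [g, e1, apart_sh _ hc ha1] at n1
  rw [e0, f0, apart_sh _ ha0 hb0] at m0
  rw [e1, f1, apart_sh _ ha1 hb1] at m1
  rw [apart_sh _ ha0 hk] at h02'
  rw [apart_sh _ ha1 hk] at h12'
  rw [apart_sh _ hb0 hk] at h32'
  rw [apart_sh _ hb1 hk] at h42'
  rw [apart_sh _ hc hk] at h62'
  by_cases hlt : a0 < c
  · refine ⟨sh t2 q, ?_, ?_, ?_, ?_⟩
    · rw [e1, apart_sh _ (by omega) ha1]; omega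
    · exact (apart_sh' t2 (by omega) le_rfl (by omega)).symm
    · rw [f1, apart_sh _ hb1 (by omega)]; omega
    · rw [g, apart_sh _ hc (by omega)]; omega
  · refine ⟨sh t2 (k - q), ?_, ?_, ?_, ?_⟩
    · rw [e1, apart_sh _ (by omega) ha1]; omega
    · exact (apart_sh' t2 (by omega) (by omega) (by omega)).symm
    · rw [f1, apart_sh _ hb1 (by omega)]; omega
    · rw [g, apart_sh _ hc (by omega)]; omega

theorem near01 (hq : 1 ≤ q) (h : IsCol My k q (cfg t0 t1 t2 x0 x1 x2 o)) (n0 : ¬ Apart k q o t0)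
    (n1 : ¬ Apart k q o t1) : Good k q (cfg t0 t1 t2 x0 x1 x2 o) := by
  obtain ⟨⟨h01, h02, h12⟩, ⟨h31, h32⟩, ⟨h40, h42⟩, ⟨h50, h51⟩, ⟨h63, h64, h65⟩⟩ := col_iff.1 h
  have h62 := three_near h01 h02 h12 n0 n1
  have c1 : IsCol My k q (cfg t0 t1 t2 x0 x1 t2 o) :=
    col_iff.2 ⟨⟨h01, h02, h12⟩, ⟨h31, h32⟩, ⟨h40, h42⟩, ⟨h02.symm, h12.symm⟩, ⟨h63, h64, h62⟩⟩
  refine Good.of_reach (mv5 h c1) ?_
  by_cases m0 : Apart k q t0 x0
  · have c2 : IsCol My k q (cfg t0 t1 t2 x0 x1 t2 t0) :=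
      col_iff.2 ⟨⟨h01, h02, h12⟩, ⟨h31, h32⟩, ⟨h40, h42⟩, ⟨h02.symm, h12.symm⟩,
        ⟨m0, h40.symm, h02⟩⟩
    exact Good.of_reach (mv6 c1 c2) (near0 c2 h01 h02)
  · by_cases m1 : Apart k q t1 x1
    · have c2 : IsCol My k q (cfg t0 t1 t2 x0 x1 t2 t1) :=
        col_iff.2 ⟨⟨h01, h02, h12⟩, ⟨h31, h32⟩, ⟨h40, h42⟩, ⟨h02.symm, h12.symm⟩,
          ⟨h31.symm, m1, h12⟩⟩
      exact Good.of_reach (mv6 c1 c2) (near1 c2 h01.symm h12)
    · obtain ⟨y, y1, y2, y3, y4⟩ := arith_c hq h01 h02 h12 h31 h32 h40 h42 h62 h63 h64 n0 n1 m0 m1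
      have c2 : IsCol My k q (cfg y t1 t2 x0 x1 t2 o) :=
        col_iff.2 ⟨⟨y1, y2, h12⟩, ⟨h31, h32⟩, ⟨y3, h42⟩, ⟨y2.symm, h12.symm⟩, ⟨h63, h64, h62⟩⟩
      exact Good.of_reach (mv0 c1 c2) (near1 c2 y4 h62)

theorem good_all (hq : 1 ≤ q) (F : Vt → Fin k) (h : IsCol My k q F) : Good k q F := by
  rw [cfg_surj F] at h ⊢
  by_cases h0 : Apart k q (F .o) (F .t0)
  · by_cases h1 : Apart k q (F .o) (F .t1)
    · by_cases h2 : Apart k q (F .o) (F .t2)
      · exact near0 h h1 h2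
      · exact good12 (near1 (col12 h) h0 h1)
    · by_cases h2 : Apart k q (F .o) (F .t2)
      · exact near1 h h0 h2
      · exact good12 (good01 (good12 (near01 hq (col12 (col01 (col12 h))) h2 h1)))
  · by_cases h1 : Apart k q (F .o) (F .t1)
    · by_cases h2 : Apart k q (F .o) (F .t2)
      · exact near0 h h1 h2
      · exact good12 (near01 hq (col12 h) h0 h2)
    · exact near01 hq h h0 h1

theorem k4_le (hq : 1 ≤ q) {a b c d : Fin k} (h : K4 k q a b c d) : 4 * q ≤ k := by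
  obtain ⟨⟨h1, h2, h3⟩, h4, h5, h6⟩ := h
  rw [apart_iff] at h1 h2 h3 h4 h5 h6
  omega

/-! ### Moves of colourings with `x_i = t_i` -/

variable {a b c d a' b' c' d' : Fin k}

theorem kmove0 (h : K4 k q a b c d) (h' : K4 k q a' b c d) :
    ReflTransGen (Step My k q) (AA a b c d) (AA a' b c d) := by
  have c0 := aa_col h
  have c2 := aa_col h'
  obtain ⟨⟨h1, h2, h3⟩, h4, h5, h6⟩ := h
  obtain ⟨⟨h1', h2', h3'⟩, h4', h5', h6'⟩ := h'
  have c1 : IsCol My k q (cfg a' b c a b c d) := col_iff.2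
    ⟨⟨h1', h2', h3⟩, ⟨h1, h2⟩, ⟨h1'.symm, h3⟩, ⟨h2'.symm, h3.symm⟩, ⟨h4.symm, h5.symm, h6.symm⟩⟩
  exact (mv0 c0 c1).trans (mv3 c1 c2)

theorem kmove1 (h : K4 k q a b c d) (h' : K4 k q a b' c d) :
    ReflTransGen (Step My k q) (AA a b c d) (AA a b' c d) := by
  have c0 := aa_col h
  have c2 := aa_col h'
  obtain ⟨⟨h1, h2, h3⟩, h4, h5, h6⟩ := h
  obtain ⟨⟨h1', h2', h3'⟩, h4', h5', h6'⟩ := h'
  have c1 : IsCol My k q (cfg a b' c a b c d) := col_iff.2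
    ⟨⟨h1', h2, h3'⟩, ⟨h1', h2⟩, ⟨h1.symm, h3⟩, ⟨h2.symm, h3'.symm⟩, ⟨h4.symm, h5.symm, h6.symm⟩⟩
  exact (mv1 c0 c1).trans (mv4 c1 c2)

theorem kmove2 (h : K4 k q a b c d) (h' : K4 k q a b c' d) :
    ReflTransGen (Step My k q) (AA a b c d) (AA a b c' d) := by
  have c0 := aa_col h
  have c2 := aa_col h'
  obtain ⟨⟨h1, h2, h3⟩, h4, h5, h6⟩ := h
  obtain ⟨⟨h1', h2', h3'⟩, h4', h5', h6'⟩ := h'
  have c1 : IsCol My k q (cfg a b c' a b c d) := col_iff.2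
    ⟨⟨h1', h2', h3'⟩, ⟨h1, h2'⟩, ⟨h1.symm, h3'⟩, ⟨h2.symm, h3.symm⟩, ⟨h4.symm, h5.symm, h6.symm⟩⟩
  exact (mv2 c0 c1).trans (mv5 c1 c2)

theorem kmove3 (h : K4 k q a b c d) (h' : K4 k q a b c d') :
    ReflTransGen (Step My k q) (AA a b c d) (AA a b c d') :=
  mv6 (aa_col h) (aa_col h')

/-- a cyclic permutation of the colours of `t_0`, `t_1`, `o` -/
theorem opX (h : K4 k q a b c d) : ReflTransGen (Step My k q) (AA a b c d) (AA d a c b) := by
  have c0 := aa_col h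
  obtain ⟨⟨h1, h2, h3⟩, h4, h5, h6⟩ := h
  have c1 : IsCol My k q (cfg d b c a b c d) := col_iff.2
    ⟨⟨h5.symm, h6.symm, h3⟩, ⟨h1, h2⟩, ⟨h5, h3⟩, ⟨h6, h3.symm⟩, ⟨h4.symm, h5.symm, h6.symm⟩⟩
  have c2 : IsCol My k q (cfg d b c a a c d) := col_iff.2
    ⟨⟨h5.symm, h6.symm, h3⟩, ⟨h1, h2⟩, ⟨h4, h2⟩, ⟨h6, h3.symm⟩, ⟨h4.symm, h4.symm, h6.symm⟩⟩
  have c3 : IsCol My k q (cfg d b c a a c b) := col_iff.2
    ⟨⟨h5.symm, h6.symm, h3⟩, ⟨h1, h2⟩, ⟨h4, h2⟩, ⟨h6, h3.symm⟩, ⟨h1.symm, h1.symm, h3⟩⟩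
  have c4 : IsCol My k q (cfg d b c d a c b) := col_iff.2
    ⟨⟨h5.symm, h6.symm, h3⟩, ⟨h5.symm, h6.symm⟩, ⟨h4, h2⟩, ⟨h6, h3.symm⟩, ⟨h5, h1.symm, h3⟩⟩
  have c5 : IsCol My k q (cfg d a c d a c b) := col_iff.2
    ⟨⟨h4.symm, h6.symm, h2⟩, ⟨h4.symm, h6.symm⟩, ⟨h4, h2⟩, ⟨h6, h2.symm⟩, ⟨h5, h1.symm, h3⟩⟩
  exact (mv0 c0 c1).trans ((mv4 c1 c2).trans ((mv6 c2 c3).trans ((mv3 c3 c4).trans (mv1 c4 c5))))

/-- a cyclic permutation of the colours of `t_0`, `t_2`, `o` -/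
theorem opY (h : K4 k q a b c d) : ReflTransGen (Step My k q) (AA a b c d) (AA d b a c) := by
  obtain ⟨⟨h1, h2, h3⟩, h4, h5, h6⟩ := h
  have h7 := reach_comp aut12 (opX (k := k) (q := q) (a := a) (b := c) (c := b) (d := d)
    ⟨⟨h2, h1, h3.symm⟩, h4, h6, h5⟩)
  rw [AA, AA, comp12, comp12] at h7
  exact h7

/-! ### Sliding -/

/-- the colouring where the label `l` has the position of rank `s l` -/
def AS (s : Fin 4 → Fin 4) (p : Fin 4 → Fin k) : Vt → Fin k :=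
  AA (p (s 0)) (p (s 1)) (p (s 2)) (p (s 3))

theorem k4_of {s : Fin 4 → Fin 4} (hs : Function.Injective s) {p : Fin 4 → Fin k}
    (hp : ∀ i j, i ≠ j → Apart k q (p i) (p j)) :
    K4 k q (p (s 0)) (p (s 1)) (p (s 2)) (p (s 3)) :=
  ⟨⟨hp _ _ (hs.ne (by decide)), hp _ _ (hs.ne (by decide)), hp _ _ (hs.ne (by decide))⟩,
    hp _ _ (hs.ne (by decide)), hp _ _ (hs.ne (by decide)), hp _ _ (hs.ne (by decide))⟩

theorem as_move {s : Fin 4 → Fin 4} (hs : Function.Injective s) {p p' : Fin 4 → Fin k}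
    (hp : ∀ i j, i ≠ j → Apart k q (p i) (p j)) (hp' : ∀ i j, i ≠ j → Apart k q (p' i) (p' j))
    (j : Fin 4) (h : ∀ i, i ≠ j → p i = p' i) :
    ReflTransGen (Step My k q) (AS s p) (AS s p') := by
  have hk := k4_of (q := q) hs hp
  have hk' := k4_of (q := q) hs hp'
  obtain ⟨l, rfl⟩ := (Finite.injective_iff_surjective.1 hs) j
  have he : ∀ l', l' ≠ l → p (s l') = p' (s l') := fun l' hl => h _ (hs.ne hl)
  unfold AS
  fin_cases l
  · rw [← he 1 (by decide), ← he 2 (by decide), ← he 3 (by decide)] at hk' ⊢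
    exact kmove0 hk hk'
  · rw [← he 0 (by decide), ← he 2 (by decide), ← he 3 (by decide)] at hk' ⊢
    exact kmove1 hk hk'
  · rw [← he 0 (by decide), ← he 1 (by decide), ← he 3 (by decide)] at hk' ⊢
    exact kmove2 hk hk'
  · rw [← he 0 (by decide), ← he 1 (by decide), ← he 2 (by decide)] at hk' ⊢
    exact kmove3 hk hk'

/-- four positions given by numbers -/
def ps (k p0 p1 p2 p3 : ℕ) (h0 : p0 < k) (h1 : p1 < k) (h2 : p2 < k) (h3 : p3 < k) :
    Fin 4 → Fin k := ![⟨p0, h0⟩, ⟨p1, h1⟩, ⟨p2, h2⟩, ⟨p3, h3⟩]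

theorem ps_apart {p0 p1 p2 p3 : ℕ} (h0 : p0 < k) (h1 : p1 < k) (h2 : p2 < k) (h3 : p3 < k)
    (e01 : p0 + q ≤ p1) (e12 : p1 + q ≤ p2) (e23 : p2 + q ≤ p3) (e30 : p3 + q ≤ p0 + k) :
    ∀ i j, i ≠ j → Apart k q (ps k p0 p1 p2 p3 h0 h1 h2 h3 i) (ps k p0 p1 p2 p3 h0 h1 h2 h3 j) := by
  have a01 : Apart k q ⟨p0, h0⟩ ⟨p1, h1⟩ := by rw [apart_iff]; dsimp only; omega
  have a02 : Apart k q ⟨p0, h0⟩ ⟨p2, h2⟩ := by rw [apart_iff]; dsimp only; omega
  have a03 : Apart k q ⟨p0, h0⟩ ⟨p3, h3⟩ := by rw [apart_iff]; dsimp only; omega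
  have a12 : Apart k q ⟨p1, h1⟩ ⟨p2, h2⟩ := by rw [apart_iff]; dsimp only; omega
  have a13 : Apart k q ⟨p1, h1⟩ ⟨p3, h3⟩ := by rw [apart_iff]; dsimp only; omega
  have a23 : Apart k q ⟨p2, h2⟩ ⟨p3, h3⟩ := by rw [apart_iff]; dsimp only; omega
  intro i j hij
  fin_cases i <;> fin_cases j
  · exact absurd rfl hij
  · exact a01
  · exact a02
  · exact a03
  · exact a01.symm
  · exact absurd rfl hij
  · exact a12
  · exact a13
  · exact a02.symm
  · exact a12.symm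
  · exact absurd rfl hij
  · exact a23
  · exact a03.symm
  · exact a13.symm
  · exact a23.symm
  · exact absurd rfl hij

/-- every sorted configuration slides down to `0, q, 2 q, 3 q` -/
theorem slide (hq : 1 ≤ q) (hk : 4 * q < k) {s : Fin 4 → Fin 4} (hs : Function.Injective s) (n : ℕ) :
    ∀ (p1 p2 p3 : ℕ) (h0 : n < k) (h1 : p1 < k) (h2 : p2 < k) (h3 : p3 < k),
    n + q ≤ p1 → p1 + q ≤ p2 → p2 + q ≤ p3 → p3 + q ≤ n + k →
    ReflTransGen (Step My k q) (AS s (ps k n p1 p2 p3 h0 h1 h2 h3))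
      (AS s (ps k 0 q (2 * q) (3 * q) (by omega) (by omega) (by omega) (by omega))) := by
  induction n with
  | zero =>
    intro p1 p2 p3 h0 h1 h2 h3 e01 e12 e23 e30
    have a0 := ps_apart (q := q) h0 h1 h2 h3 e01 e12 e23 e30
    have a1 := ps_apart (q := q) (p0 := 0) (p1 := q) (p2 := p2) (p3 := p3) h0 (by omega) h2 h3
      (by omega) (by omega) e23 e30
    have a2 := ps_apart (q := q) (p0 := 0) (p1 := q) (p2 := 2 * q) (p3 := p3) h0 (by omega)
      (by omega) h3 (by omega) (by omega) (by omega) e30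
    have a3 := ps_apart (q := q) (p0 := 0) (p1 := q) (p2 := 2 * q) (p3 := 3 * q) h0 (by omega)
      (by omega) (by omega) (by omega) (by omega) (by omega) (by omega)
    refine (as_move hs a0 a1 1 ?_).trans ((as_move hs a1 a2 2 ?_).trans (as_move hs a2 a3 3 ?_))
    · intro i hi
      fin_cases i
      · rfl
      · exact absurd rfl hi
      · rfl
      · rfl
    · intro i hi
      fin_cases i
      · rfl
      · rfl
      · exact absurd rfl hi
      · rfl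
    · intro i hi
      fin_cases i
      · rfl
      · rfl
      · rfl
      · exact absurd rfl hi
  | succ n ih =>
    intro p1 p2 p3 h0 h1 h2 h3 e01 e12 e23 e30
    have a0 := ps_apart (q := q) h0 h1 h2 h3 e01 e12 e23 e30
    have a1 := ps_apart (q := q) (p0 := n + 1) (p1 := n + 1 + q) (p2 := p2) (p3 := p3) h0 (by omega)
      h2 h3 (by omega) (by omega) e23 e30
    have a2 := ps_apart (q := q) (p0 := n + 1) (p1 := n + 1 + q) (p2 := n + 1 + 2 * q) (p3 := p3) h0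
      (by omega) (by omega) h3 (by omega) (by omega) (by omega) e30
    have a3 := ps_apart (q := q) (p0 := n + 1) (p1 := n + 1 + q) (p2 := n + 1 + 2 * q)
      (p3 := n + 1 + 3 * q) h0 (by omega)
      (by omega) (by omega) (by omega) (by omega) (by omega) (by omega)
    have a4 := ps_apart (k := k) (q := q) (p0 := n) (p1 := n + 1 + q) (p2 := n + 1 + 2 * q)
      (p3 := n + 1 + 3 * q) (by omega) (by omega)
      (by omega) (by omega) (by omega) (by omega) (by omega) (by omega)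
    refine (as_move hs a0 a1 1 ?_).trans ((as_move hs a1 a2 2 ?_).trans ((as_move hs a2 a3 3 ?_).trans
      ((as_move hs a3 a4 0 ?_).trans (ih (n + 1 + q) (n + 1 + 2 * q) (n + 1 + 3 * q) (by omega)
        (by omega) (by omega) (by omega) (by omega) (by omega) (by omega) (by omega)))))
    · intro i hi
      fin_cases i
      · rfl
      · exact absurd rfl hi
      · rfl
      · rfl
    · intro i hi
      fin_cases i
      · rfl
      · rfl
      · exact absurd rfl hi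
      · rfl
    · intro i hi
      fin_cases i
      · rfl
      · rfl
      · rfl
      · exact absurd rfl hi
    · intro i hi
      fin_cases i
      · exact absurd rfl hi
      · rfl
      · rfl
      · rfl

/-- the standard positions -/
def st (q : ℕ) (hk : 4 * q < k) : Fin 4 → Fin k :=
  ps k 0 q (2 * q) (3 * q) (by omega) (by omega) (by omega) (by omega)

theorem st_apart (hk : 4 * q < k) : ∀ i j, i ≠ j → Apart k q (st q hk i) (st q hk j) :=
  ps_apart _ _ _ _ (by omega) (by omega) (by omega) (by omega)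

/-- rotation of the positions -/
theorem rotate (hq : 1 ≤ q) (hk : 4 * q < k) {s : Fin 4 → Fin 4} (hs : Function.Injective s) :
    ReflTransGen (Step My k q) (AS s (st q hk)) (AS (fun l => s l + 1) (st q hk)) := by
  have r1 := slide hq hk hs q (2 * q) (3 * q) (k - 1) (by omega) (by omega) (by omega) (by omega)
    (by omega) (by omega) (by omega) (by omega)
  have a1 := ps_apart (q := q) (k := k) (p0 := q) (p1 := 2 * q) (p2 := 3 * q) (p3 := k - 1)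
    (by omega) (by omega) (by omega) (by omega) (by omega) (by omega) (by omega) (by omega)
  let p' : Fin 4 → Fin k := fun j => st q hk (j + 1)
  have a2 : ∀ i j, i ≠ j → Apart k q (p' i) (p' j) := by
    intro i j hij
    apply st_apart hk
    intro e
    exact hij (add_right_cancel e)
  refine (reach_symm r1).trans (as_move hs a1 a2 3 ?_)
  intro i hi
  fin_cases i
  · rfl
  · rfl
  · rfl
  · exact absurd rfl hi

/-! ### The 24 arrangements -/

/-- the arrangement with the given ranks can be transformed to the arrangement `0, 1, 2, 3` -/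
def P (q : ℕ) (hk : 4 * q < k) (s : Fin 4 × Fin 4 × Fin 4 × Fin 4) : Prop :=
  Function.Injective ![s.1, s.2.1, s.2.2.1, s.2.2.2] →
  ReflTransGen (Step My k q) (AS ![s.1, s.2.1, s.2.2.1, s.2.2.2] (st q hk))
    (AS ![0, 1, 2, 3] (st q hk))

/-- a search for a sequence of operations -/
def srch : ℕ → Fin 4 × Fin 4 × Fin 4 × Fin 4 → Bool
  | 0, s => s == (0, 1, 2, 3)
  | n + 1, s => srch n (s.2.2.2, s.1, s.2.2.1, s.2.1) || srch n (s.2.2.2, s.2.1, s.1, s.2.2.1) ||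
      srch n (s.1 + 1, s.2.1 + 1, s.2.2.1 + 1, s.2.2.2 + 1) || s == (0, 1, 2, 3)

theorem srch_sound (hq : 1 ≤ q) (hk : 4 * q < k) (n : ℕ) : ∀ s, srch n s = true → P q hk s := by
  induction n with
  | zero =>
    intro s hs _
    have : s = (0, 1, 2, 3) := by simpa [srch] using hs
    subst this
    exact ReflTransGen.refl
  | succ n ih =>
    rintro ⟨s0, s1, s2, s3⟩ hs hinj
    have i01 : s0 ≠ s1 := hinj.ne (show (0 : Fin 4) ≠ 1 by decide)
    have i02 : s0 ≠ s2 := hinj.ne (show (0 : Fin 4) ≠ 2 by decide)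
    have i03 : s0 ≠ s3 := hinj.ne (show (0 : Fin 4) ≠ 3 by decide)
    have i12 : s1 ≠ s2 := hinj.ne (show (1 : Fin 4) ≠ 2 by decide)
    have i13 : s1 ≠ s3 := hinj.ne (show (1 : Fin 4) ≠ 3 by decide)
    have i23 : s2 ≠ s3 := hinj.ne (show (2 : Fin 4) ≠ 3 by decide)
    have hk4 := k4_of (q := q) hinj (st_apart hk)
    simp only [srch, Bool.or_eq_true] at hs
    rcases hs with ((hs | hs) | hs) | hs
    · have h1 := ih _ hs (by
        intro i j hij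
        fin_cases i <;> fin_cases j <;> first | rfl | exact absurd hij (by assumption) | exact absurd hij.symm (by assumption))
      exact (opX hk4).trans h1
    · have h1 := ih _ hs (by
        intro i j hij
        fin_cases i <;> fin_cases j <;> first | rfl | exact absurd hij (by assumption) | exact absurd hij.symm (by assumption))
      exact (opY hk4).trans h1
    · have hinj' : Function.Injective ![s0 + 1, s1 + 1, s2 + 1, s3 + 1] := by
        intro i j hij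
        have e : ∀ l, ![s0 + 1, s1 + 1, s2 + 1, s3 + 1] l = ![s0, s1, s2, s3] l + 1 := by
          intro l
          fin_cases l <;> rfl
        rw [e, e] at hij
        exact hinj (add_right_cancel hij)
      have h1 := ih _ hs hinj'
      exact (rotate hq hk hinj).trans h1
    · have : (s0, s1, s2, s3) = ((0, 1, 2, 3) : Fin 4 × Fin 4 × Fin 4 × Fin 4) := by
        simpa using hs
      rw [Prod.mk.injEq, Prod.mk.injEq, Prod.mk.injEq] at this
      obtain ⟨rfl, rfl, rfl, rfl⟩ := this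
      exact ReflTransGen.refl

theorem srch_all' : ∀ s0 s1 s2 s3 : Fin 4, (s0 == s1 || s0 == s2 || s0 == s3 || s1 == s2 ||
    s1 == s3 || s2 == s3 || srch 5 (s0, s1, s2, s3)) = true := by decide +kernel

theorem srch_all (s0 s1 s2 s3 : Fin 4) (h1 : s0 ≠ s1) (h2 : s0 ≠ s2) (h3 : s0 ≠ s3) (h4 : s1 ≠ s2)
    (h5 : s1 ≠ s3) (h6 : s2 ≠ s3) : srch 5 (s0, s1, s2, s3) = true := by
  have h := srch_all' s0 s1 s2 s3
  simpa [h1, h2, h3, h4, h5, h6] using h

theorem all_arr (hq : 1 ≤ q) (hk : 4 * q < k) {s : Fin 4 → Fin 4} (hs : Function.Injective s) :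
    ReflTransGen (Step My k q) (AS s (st q hk)) (AS ![0, 1, 2, 3] (st q hk)) := by
  have h := srch_all (s 0) (s 1) (s 2) (s 3) (hs.ne (by decide)) (hs.ne (by decide))
    (hs.ne (by decide)) (hs.ne (by decide)) (hs.ne (by decide)) (hs.ne (by decide))
  have e : ![s 0, s 1, s 2, s 3] = s := by
    funext l
    fin_cases l <;> rfl
  have h1 := srch_sound hq hk 5 _ h
  unfold P at h1
  dsimp only at h1
  rw [e] at h1
  exact h1 hs

theorem aa_reach (hq : 1 ≤ q) (hk : 4 * q < k) (h : K4 k q a b c d) :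
    ReflTransGen (Step My k q) (AA a b c d) (AS ![0, 1, 2, 3] (st q hk)) := by
  have hg : ∀ i j, i ≠ j → Apart k q (![a, b, c, d] i) (![a, b, c, d] j) := by
    obtain ⟨⟨h1, h2, h3⟩, h4, h5, h6⟩ := h
    intro i j hij
    fin_cases i <;> fin_cases j
    · exact absurd rfl hij
    · exact h1
    · exact h2
    · exact h4
    · exact h1.symm
    · exact absurd rfl hij
    · exact h3
    · exact h5
    · exact h2.symm
    · exact h3.symm
    · exact absurd rfl hij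
    · exact h6
    · exact h4.symm
    · exact h5.symm
    · exact h6.symm
    · exact absurd rfl hij
  set σ := Tuple.sort ![a, b, c, d] with hσ
  have hmono : Monotone (![a, b, c, d] ∘ σ) := Tuple.monotone_sort _
  set p := ![a, b, c, d] ∘ σ with hp
  have hpa : ∀ i j, i ≠ j → Apart k q (p i) (p j) := fun i j hij =>
    hg _ _ (σ.injective.ne hij)
  have m01 : (p 0).val ≤ (p 1).val := hmono (show (0 : Fin 4) ≤ 1 by decide)
  have m12 : (p 1).val ≤ (p 2).val := hmono (show (1 : Fin 4) ≤ 2 by decide)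
  have m23 : (p 2).val ≤ (p 3).val := hmono (show (2 : Fin 4) ≤ 3 by decide)
  have a01 := hpa 0 1 (by decide)
  have a12 := hpa 1 2 (by decide)
  have a23 := hpa 2 3 (by decide)
  have a03 := hpa 0 3 (by decide)
  rw [apart_iff] at a01 a12 a23 a03
  have hps : p = ps k (p 0).val (p 1).val (p 2).val (p 3).val (p 0).isLt (p 1).isLt (p 2).isLt
      (p 3).isLt := by
    funext j
    fin_cases j <;> rfl
  have h1 := slide hq hk (s := fun l => σ.symm l) σ.symm.injective (p 0).val (p 1).val (p 2).val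
    (p 3).val (p 0).isLt (p 1).isLt (p 2).isLt (p 3).isLt (by omega) (by omega) (by omega) (by omega)
  rw [← hps] at h1
  have e : AS (fun l => σ.symm l) p = AA a b c d := by
    have e' : ∀ l, p (σ.symm l) = ![a, b, c, d] l := fun l => by
      rw [hp, Function.comp_apply, Equiv.apply_symm_apply]
    unfold AS
    rw [e', e', e', e']
    rfl
  rw [e] at h1
  exact h1.trans (all_arr hq hk σ.symm.injective)

theorem my_mixing (hq : 1 ≤ q) (hk : 4 * q < k) : IsMixing My k q := by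
  intro F F' hF hF'
  obtain ⟨a, b, c, d, h1, h2⟩ := good_all hq F hF
  obtain ⟨a', b', c', d', h1', h2'⟩ := good_all hq F' hF'
  exact (h2.trans (aa_reach hq hk h1)).trans (reach_symm (h2'.trans (aa_reach hq hk h1')))

theorem my_le (hq : 1 ≤ q) (F : Vt → Fin k) (hF : IsCol My k q F) : 4 * q ≤ k := by
  obtain ⟨a, b, c, d, h1, h2⟩ := good_all hq F hF
  exact k4_le hq h1

end

end Q128.Myc
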