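import Pool.Agent.Q128.Myc

/-!
# The Mycielski graph of the triangle is not `(4, 1)`-mixing; its thresholds

For a 4-colouring let `m` be the colour missing on the triangle. The parity of the permutation
`(t_0, t_1, t_2, m)`, changed if `o` has the colour `m`, does not change when a vertex is recoloured.
-/

set_option autoImplicit false

namespace Q128.Myc

open SimpleGraph Relation Q128.Mixing

/-- the invariant -/
def inv (t0 t1 t2 o : Fin 4) : ℕ :=
  ((t1.val.blt t0.val).toNat + (t2.val.blt t0.val).toNat + (t2.val.blt t1.val).toNat +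
    ((6 - t0.val - t1.val - t2.val).blt t0.val).toNat +
    ((6 - t0.val - t1.val - t2.val).blt t1.val).toNat +
    ((6 - t0.val - t1.val - t2.val).blt t2.val).toNat +
    (o.val.beq (6 - t0.val - t1.val - t2.val)).toNat) % 2

theorem inv_t0 : ∀ t0 t1 t2 y : Fin 4, (t0 == t1 || t0 == t2 || t1 == t2 || y == t1 || y == t2 ||
    decide (∀ x1 x2 : Fin 4, (x1 == t0 || x1 == y || x1 == t2 || x2 == t0 || x2 == y || x2 == t1 ||
    decide (∀ o : Fin 4, (o == x1 || o == x2 ||
      (inv t0 t1 t2 o).beq (inv y t1 t2 o)) = true)) = true)) = true := by decide +kernel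

theorem inv_t1 : ∀ t0 t1 t2 y : Fin 4, (t0 == t1 || t0 == t2 || t1 == t2 || y == t0 || y == t2 ||
    decide (∀ x0 x2 : Fin 4, (x0 == t1 || x0 == y || x0 == t2 || x2 == t1 || x2 == y || x2 == t0 ||
    decide (∀ o : Fin 4, (o == x0 || o == x2 ||
      (inv t0 t1 t2 o).beq (inv t0 y t2 o)) = true)) = true)) = true := by decide +kernel

theorem inv_t2 : ∀ t0 t1 t2 y : Fin 4, (t0 == t1 || t0 == t2 || t1 == t2 || y == t0 || y == t1 ||
    decide (∀ x0 x1 : Fin 4, (x0 == t2 || x0 == y || x0 == t1 || x1 == t2 || x1 == y || x1 == t0 ||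
    decide (∀ o : Fin 4, (o == x0 || o == x1 ||
      (inv t0 t1 t2 o).beq (inv t0 t1 y o)) = true)) = true)) = true := by decide +kernel

theorem inv_o : ∀ t0 t1 t2 : Fin 4, (t0 == t1 || t0 == t2 || t1 == t2 ||
    decide (∀ x0 x1 x2 : Fin 4, (x0 == t1 || x0 == t2 || x1 == t0 || x1 == t2 || x2 == t0 ||
      x2 == t1 || decide (∀ o y : Fin 4, (o == x0 || o == x1 || o == x2 || y == x0 || y == x1 ||
        y == x2 || (inv t0 t1 t2 o).beq (inv t0 t1 t2 y)) = true)) = true)) = true := by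
  decide +kernel

theorem apart_four {x y : Fin 4} : Apart 4 1 x y ↔ x ≠ y := by
  rw [apart_iff]
  have := x.isLt
  have := y.isLt
  rw [Ne, Fin.ext_iff]
  omega

theorem inv_step {F F' : Vt → Fin 4} (h : Step My 4 1 F F') :
    inv (F .t0) (F .t1) (F .t2) (F .o) = inv (F' .t0) (F' .t1) (F' .t2) (F' .o) := by
  obtain ⟨h1, h2, v, h3, h4⟩ := h
  rw [cfg_surj F] at h1
  rw [cfg_surj F'] at h2
  rw [col_iff] at h1 h2
  simp only [apart_four] at h1 h2
  obtain ⟨⟨h01, h02, h12⟩, ⟨h31, h32⟩, ⟨h40, h42⟩, ⟨h50, h51⟩, ⟨h63, h64, h65⟩⟩ := h1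
  obtain ⟨⟨k01, k02, k12⟩, ⟨k31, k32⟩, ⟨k40, k42⟩, ⟨k50, k51⟩, ⟨k63, k64, k65⟩⟩ := h2
  cases v
  · rw [← h4 .t1 (by decide), ← h4 .t2 (by decide), ← h4 .o (by decide)]
    rw [← h4 .t1 (by decide)] at k01
    rw [← h4 .t2 (by decide)] at k02
    rw [← h4 .x1 (by decide)] at k40
    rw [← h4 .x2 (by decide)] at k50
    have h := inv_t0 (F .t0) (F .t1) (F .t2) (F' .t0)
    simp only [beq_eq_false_iff_ne.2 h01, beq_eq_false_iff_ne.2 h02, beq_eq_false_iff_ne.2 h12,
      beq_eq_false_iff_ne.2 k01, beq_eq_false_iff_ne.2 k02, Bool.false_or, decide_eq_true_eq] at h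
    have h := h (F .x1) (F .x2)
    simp only [beq_eq_false_iff_ne.2 h40, beq_eq_false_iff_ne.2 k40, beq_eq_false_iff_ne.2 h42,
      beq_eq_false_iff_ne.2 h50, beq_eq_false_iff_ne.2 k50, beq_eq_false_iff_ne.2 h51,
      Bool.false_or, decide_eq_true_eq] at h
    have h := h (F .o)
    simp only [beq_eq_false_iff_ne.2 h64, beq_eq_false_iff_ne.2 h65, Bool.false_or] at h
    exact Nat.eq_of_beq_eq_true h
  · rw [← h4 .t0 (by decide), ← h4 .t2 (by decide), ← h4 .o (by decide)]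
    rw [← h4 .t0 (by decide)] at k01
    rw [← h4 .t2 (by decide)] at k12
    rw [← h4 .x0 (by decide)] at k31
    rw [← h4 .x2 (by decide)] at k51
    have h := inv_t1 (F .t0) (F .t1) (F .t2) (F' .t1)
    simp only [beq_eq_false_iff_ne.2 h01, beq_eq_false_iff_ne.2 h02, beq_eq_false_iff_ne.2 h12,
      beq_eq_false_iff_ne.2 k01.symm, beq_eq_false_iff_ne.2 k12, Bool.false_or,
      decide_eq_true_eq] at h
    have h := h (F .x0) (F .x2)
    simp only [beq_eq_false_iff_ne.2 h31, beq_eq_false_iff_ne.2 k31, beq_eq_false_iff_ne.2 h32,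
      beq_eq_false_iff_ne.2 h51, beq_eq_false_iff_ne.2 k51, beq_eq_false_iff_ne.2 h50,
      Bool.false_or, decide_eq_true_eq] at h
    have h := h (F .o)
    simp only [beq_eq_false_iff_ne.2 h63, beq_eq_false_iff_ne.2 h65, Bool.false_or] at h
    exact Nat.eq_of_beq_eq_true h
  · rw [← h4 .t0 (by decide), ← h4 .t1 (by decide), ← h4 .o (by decide)]
    rw [← h4 .t0 (by decide)] at k02
    rw [← h4 .t1 (by decide)] at k12
    rw [← h4 .x0 (by decide)] at k32
    rw [← h4 .x1 (by decide)] at k42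
    have h := inv_t2 (F .t0) (F .t1) (F .t2) (F' .t2)
    simp only [beq_eq_false_iff_ne.2 h01, beq_eq_false_iff_ne.2 h02, beq_eq_false_iff_ne.2 h12,
      beq_eq_false_iff_ne.2 k02.symm, beq_eq_false_iff_ne.2 k12.symm, Bool.false_or,
      decide_eq_true_eq] at h
    have h := h (F .x0) (F .x1)
    simp only [beq_eq_false_iff_ne.2 h32, beq_eq_false_iff_ne.2 k32, beq_eq_false_iff_ne.2 h31,
      beq_eq_false_iff_ne.2 h42, beq_eq_false_iff_ne.2 k42, beq_eq_false_iff_ne.2 h40,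
      Bool.false_or, decide_eq_true_eq] at h
    have h := h (F .o)
    simp only [beq_eq_false_iff_ne.2 h63, beq_eq_false_iff_ne.2 h64, Bool.false_or] at h
    exact Nat.eq_of_beq_eq_true h
  · rw [← h4 .t0 (by decide), ← h4 .t1 (by decide), ← h4 .t2 (by decide), ← h4 .o (by decide)]
  · rw [← h4 .t0 (by decide), ← h4 .t1 (by decide), ← h4 .t2 (by decide), ← h4 .o (by decide)]
  · rw [← h4 .t0 (by decide), ← h4 .t1 (by decide), ← h4 .t2 (by decide), ← h4 .o (by decide)]
  · rw [← h4 .t0 (by decide), ← h4 .t1 (by decide), ← h4 .t2 (by decide)]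
    rw [← h4 .x0 (by decide)] at k63
    rw [← h4 .x1 (by decide)] at k64
    rw [← h4 .x2 (by decide)] at k65
    have h := inv_o (F .t0) (F .t1) (F .t2)
    simp only [beq_eq_false_iff_ne.2 h01, beq_eq_false_iff_ne.2 h02, beq_eq_false_iff_ne.2 h12,
      Bool.false_or, decide_eq_true_eq] at h
    have h := h (F .x0) (F .x1) (F .x2)
    simp only [beq_eq_false_iff_ne.2 h31, beq_eq_false_iff_ne.2 h32, beq_eq_false_iff_ne.2 h40,
      beq_eq_false_iff_ne.2 h42, beq_eq_false_iff_ne.2 h50, beq_eq_false_iff_ne.2 h51,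
      Bool.false_or, decide_eq_true_eq] at h
    have h := h (F .o) (F' .o)
    simp only [beq_eq_false_iff_ne.2 h63, beq_eq_false_iff_ne.2 h64, beq_eq_false_iff_ne.2 h65,
      beq_eq_false_iff_ne.2 k63, beq_eq_false_iff_ne.2 k64, beq_eq_false_iff_ne.2 k65,
      Bool.false_or] at h
    exact Nat.eq_of_beq_eq_true h

theorem my_not_mixing : ¬ IsMixing My 4 1 := by
  intro h
  have k1 : K4 4 1 (0 : Fin 4) 1 2 3 := by
    unfold K4
    simp only [apart_four]
    decide
  have k2 : K4 4 1 (1 : Fin 4) 0 2 3 := by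
    unfold K4
    simp only [apart_four]
    decide
  have hr := h _ _ (aa_col k1) (aa_col k2)
  have key : ∀ F F' : Vt → Fin 4, ReflTransGen (Step My 4 1) F F' →
      inv (F .t0) (F .t1) (F .t2) (F .o) = inv (F' .t0) (F' .t1) (F' .t2) (F' .o) := by
    intro F F' hF
    induction hF with
    | refl => rfl
    | tail _ hs ih => exact ih.trans (inv_step hs)
  have h1 := key _ _ hr
  change inv 0 1 2 3 = inv 1 0 2 3 at h1
  exact absurd h1 (by decide)

theorem my_not_colorable : ¬ My.Colorable 2 := by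
  rintro ⟨c⟩
  have h01 : c .t0 ≠ c .t1 := c.valid (show My.Adj .t0 .t1 by decide)
  have h02 : c .t0 ≠ c .t2 := c.valid (show My.Adj .t0 .t2 by decide)
  have h12 : c .t1 ≠ c .t2 := c.valid (show My.Adj .t1 .t2 by decide)
  have key : ∀ x y z : Fin 2, x ≠ y → x ≠ z → y ≠ z → False := by decide
  exact key _ _ _ h01 h02 h12

theorem my_dist : ∀ v : Vt, v = .t0 ∨ My.Adj .t0 v ∨ ∃ w, My.Adj .t0 w ∧ My.Adj w v := by decide

theorem my_connected : My.Connected := by
  have hall : ∀ v, My.Reachable .t0 v := by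
    intro v
    rcases my_dist v with h | h | ⟨w, h1, h2⟩
    · rw [h]
    · exact h.reachable
    · exact h1.reachable.trans h2.reachable
  have : Nonempty Vt := ⟨.t0⟩
  exact ⟨fun u v => (hall u).symm.trans (hall v)⟩

theorem not_mem_of_le {x : ℝ} (hx : x ≤ 4) : x ∉ mixingRatios My := by
  rintro ⟨l, rfl, hl⟩
  apply my_not_mixing
  apply hl 4 1 (by norm_num) le_rfl
  have : (l : ℝ) ≤ ((4 : ℚ) : ℝ) := by exact_mod_cast hx
  have h2 : l ≤ 4 := by exact_mod_cast this
  simpa using h2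

theorem my_circular : circularMixingThreshold My = 4 := by
  unfold circularMixingThreshold
  apply le_antisymm
  · apply le_of_forall_pos_lt_add
    intro ε hε
    obtain ⟨l, h1, h2⟩ := exists_rat_btwn (show (4 : ℝ) < 4 + ε by linarith)
    have hmem : (l : ℝ) ∈ mixingRatios My := by
      refine ⟨l, rfl, fun k q hk hq hlq => my_mixing hq ?_⟩
      have h3 : (4 : ℚ) < l := by exact_mod_cast h1
      have hq' : (0 : ℚ) < q := by exact_mod_cast hq
      have h4 : (4 : ℚ) < (k : ℚ) / q := lt_of_lt_of_le h3 hlq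
      rw [lt_div_iff₀ hq'] at h4
      exact_mod_cast h4
    exact lt_of_le_of_lt (csInf_le ⟨4, fun x hx => le_of_not_ge fun h => not_mem_of_le h hx⟩ hmem) h2
  · apply le_csInf
    · refine ⟨((5 : ℚ) : ℝ), 5, rfl, fun k q hk hq hlq => my_mixing hq ?_⟩
      have hq' : (0 : ℚ) < q := by exact_mod_cast hq
      rw [le_div_iff₀ hq'] at hlq
      have h4 : (4 : ℚ) * q < k := by linarith
      exact_mod_cast h4
    · intro x hx
      exact le_of_not_ge fun h => not_mem_of_le h hx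

theorem my_circChrom : circularChromaticNumber My = 4 := by
  have k1 : K4 4 1 (0 : Fin 4) 1 2 3 := by
    unfold K4
    simp only [apart_four]
    decide
  have hmem : (4 : ℝ) ∈ {x : ℝ | ∃ k q : ℕ, 1 ≤ k ∧ 1 ≤ q ∧ x = (k : ℝ) / (q : ℝ) ∧
      ∃ f : Vt → Fin k, IsCol My k q f} :=
    ⟨4, 1, by norm_num, le_rfl, by norm_num, _, aa_col k1⟩
  have hlow : ∀ x ∈ {x : ℝ | ∃ k q : ℕ, 1 ≤ k ∧ 1 ≤ q ∧ x = (k : ℝ) / (q : ℝ) ∧
      ∃ f : Vt → Fin k, IsCol My k q f}, (4 : ℝ) ≤ x := by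
    rintro x ⟨k, q, hk, hq, rfl, f, hf⟩
    have h1 := my_le hq f hf
    have hq' : (0 : ℝ) < q := by exact_mod_cast hq
    rw [le_div_iff₀ hq']
    exact_mod_cast h1
  exact le_antisymm (csInf_le ⟨4, hlow⟩ hmem) (le_csInf ⟨4, hmem⟩ hlow)

end Q128.Myc
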