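import Mathlib

/-!
# Sequential choice of distinct colours with potential functions
-/

set_option autoImplicit false

namespace Q128.Ohba

open Finset

/-- One pass over a list of indices, choosing distinct colours from the lists `M i` such that the
potential does not increase. -/
theorem seq_pass {ι : Type*} [DecidableEq ι] (M : ι → Finset ℕ) (Φ : List ι → Finset ℕ → ℝ)
    (valid : List ι → Finset ℕ → Prop)
    (hstep : ∀ i l used, valid (i :: l) used →
      (M i \ used).Nonempty ∧
      (∑ c ∈ M i \ used, Φ l (insert c used) ≤ ((M i \ used).card : ℝ) * Φ (i :: l) used) ∧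
      ∀ c ∈ M i \ used, valid l (insert c used)) :
    ∀ (l : List ι) (used : Finset ℕ), l.Nodup → valid l used →
      ∃ f : ι → ℕ, (∀ i ∈ l, f i ∈ M i ∧ f i ∉ used) ∧
        (∀ i ∈ l, ∀ j ∈ l, i ≠ j → f i ≠ f j) ∧
        Φ [] (used ∪ l.toFinset.image f) ≤ Φ l used := by
  intro l
  induction l with
  | nil =>
    intro used _ _
    exact ⟨fun _ => 0, by simp, by simp, by simp⟩
  | cons i l ih =>
    intro used hnd hv
    obtain ⟨hne, hsum, hval⟩ := hstep i l used hv
    have hnd' : i ∉ l ∧ l.Nodup := by simpa using hnd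
    have hex : ∃ c ∈ M i \ used, Φ l (insert c used) ≤ Φ (i :: l) used := by
      apply Finset.exists_le_of_sum_le hne
      rw [Finset.sum_const, nsmul_eq_mul]
      exact hsum
    obtain ⟨c, hc, hcle⟩ := hex
    obtain ⟨f, hf1, hf2, hf3⟩ := ih (insert c used) hnd'.2 (hval c hc)
    have hc' := Finset.mem_sdiff.1 hc
    have hupd : ∀ j ∈ l, Function.update f i c j = f j := by
      intro j hj
      apply Function.update_of_ne
      rintro rfl
      exact hnd'.1 hj
    refine ⟨Function.update f i c, ?_, ?_, ?_⟩
    · intro j hj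
      rcases List.mem_cons.1 hj with rfl | hj
      · simpa using hc'
      · rw [hupd j hj]
        refine ⟨(hf1 j hj).1, fun h => (hf1 j hj).2 (Finset.mem_insert_of_mem h)⟩
    · intro j hj j' hj' hne'
      rcases List.mem_cons.1 hj with rfl | hj
      · rcases List.mem_cons.1 hj' with rfl | hj'
        · exact absurd rfl hne'
        · rw [hupd j' hj', Function.update_self]
          intro h
          exact (hf1 j' hj').2 (by rw [← h]; exact Finset.mem_insert_self _ _)
      · rcases List.mem_cons.1 hj' with hj'e | hj'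
        · rw [hj'e, hupd j hj, Function.update_self]
          intro h
          exact (hf1 j hj).2 (by rw [h]; exact Finset.mem_insert_self _ _)
        · rw [hupd j hj, hupd j' hj']
          exact hf2 j hj j' hj' hne'
    · have himg : used ∪ (i :: l).toFinset.image (Function.update f i c) =
          insert c used ∪ l.toFinset.image f := by
        rw [List.toFinset_cons, Finset.image_insert, Function.update_self]
        have : l.toFinset.image (Function.update f i c) = l.toFinset.image f := by
          apply Finset.image_congr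
          intro j hj
          exact hupd j (by simpa using hj)
        rw [this]
        ext x
        simp only [Finset.mem_union, Finset.mem_insert]
        tauto
      rw [himg]
      exact hf3.trans hcle

/-! ### Phase 1 -/

/-- the single-set potential of phase 1 -/
noncomputable def φ (a : ℕ) (S used : Finset ℕ) : ℝ :=
  if (used \ S).card ≤ a then (1 / 2 : ℝ) ^ (used \ S).card else 0

theorem φ_nonneg (a : ℕ) (S used : Finset ℕ) : 0 ≤ φ a S used := by
  unfold φ
  split_ifs <;> positivity

theorem φ_step (a k : ℕ) (hk : 0 < k) (S L F used : Finset ℕ) (hL : L.card = k) (hF : F.card ≤ a) :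
    ∑ c ∈ (L \ F) \ used, φ a S (insert c used) ≤
      (((L \ F) \ used).card : ℝ) *
        (φ a S used * (1 - (((L \ S).card - 2 * a : ℕ) : ℝ) / (2 * k))) := by
  set M := (L \ F) \ used with hM
  by_cases hX : (used \ S).card ≤ a
  swap
  · have h0 : ∀ c ∈ M, φ a S (insert c used) = 0 := by
      intro c _
      unfold φ
      rw [if_neg]
      have : (used \ S).card ≤ (insert c used \ S).card :=
        Finset.card_le_card (Finset.sdiff_subset_sdiff (Finset.subset_insert _ _) le_rfl)
      omega
    rw [Finset.sum_eq_zero h0]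
    have : φ a S used = 0 := by
      unfold φ
      rw [if_neg hX]
    rw [this]
    simp
  · have hφ : φ a S used = (1 / 2 : ℝ) ^ (used \ S).card := by
      unfold φ
      rw [if_pos hX]
    have hin : ∀ c ∈ M ∩ S, φ a S (insert c used) = φ a S used := by
      intro c hc
      have hcS : c ∈ S := (Finset.mem_inter.1 hc).2
      unfold φ
      rw [Finset.insert_sdiff_of_mem _ hcS]
    have hout : ∀ c ∈ M \ S, φ a S (insert c used) ≤ φ a S used * (1 / 2) := by
      intro c hc
      have hc1 := Finset.mem_sdiff.1 hc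
      have hcu : c ∉ used := (Finset.mem_sdiff.1 hc1.1).2
      rw [hφ]
      unfold φ
      rw [Finset.insert_sdiff_of_notMem _ hc1.2, Finset.card_insert_of_notMem (by
        intro h
        exact hcu (Finset.mem_sdiff.1 h).1)]
      split_ifs
      · rw [pow_succ]
      · positivity
    have hsplit : ∑ c ∈ M, φ a S (insert c used) =
        ∑ c ∈ M ∩ S, φ a S (insert c used) + ∑ c ∈ M \ S, φ a S (insert c used) := by
      rw [← Finset.sum_union]
      · congr 1
        ext x
        simp only [Finset.mem_union, Finset.mem_inter, Finset.mem_sdiff]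
        tauto
      · rw [Finset.disjoint_left]
        intro x hx hx'
        exact (Finset.mem_sdiff.1 hx').2 (Finset.mem_inter.1 hx).2
    have hcard : (M.card : ℝ) = (M ∩ S).card + (M \ S).card := by
      have := Finset.card_inter_add_card_sdiff M S
      exact_mod_cast this.symm
    have hdiff : (L \ S).card - 2 * a ≤ (M \ S).card := by
      have h1 : L \ S ⊆ (M \ S) ∪ (F ∪ (used \ S)) := by
        intro x hx
        have hx := Finset.mem_sdiff.1 hx
        simp only [hM, Finset.mem_union, Finset.mem_sdiff]
        tauto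
      have h2 := Finset.card_le_card h1
      have h3 := Finset.card_union_le (M \ S) (F ∪ (used \ S))
      have h4 := Finset.card_union_le F (used \ S)
      omega
    have hMk : (M.card : ℝ) ≤ k := by
      have : M.card ≤ L.card := Finset.card_le_card (Finset.sdiff_subset.trans Finset.sdiff_subset)
      rw [hL] at this
      exact_mod_cast this
    set h : ℝ := (((L \ S).card - 2 * a : ℕ) : ℝ) with hh
    have hh0 : 0 ≤ h := by positivity
    have hhM : h ≤ ((M \ S).card : ℝ) := by
      rw [hh]
      exact_mod_cast hdiff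
    have hφ0 : 0 ≤ φ a S used := φ_nonneg _ _ _
    calc ∑ c ∈ M, φ a S (insert c used)
        = ∑ c ∈ M ∩ S, φ a S (insert c used) + ∑ c ∈ M \ S, φ a S (insert c used) := hsplit
      _ ≤ ∑ c ∈ M ∩ S, φ a S used + ∑ c ∈ M \ S, φ a S used * (1 / 2) := by
          apply add_le_add
          · exact le_of_eq (Finset.sum_congr rfl hin)
          · exact Finset.sum_le_sum hout
      _ = φ a S used * ((M ∩ S).card + (M \ S).card / 2) := by
          rw [Finset.sum_const, Finset.sum_const, nsmul_eq_mul, nsmul_eq_mul]
          ring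
      _ ≤ φ a S used * ((M.card : ℝ) * (1 - h / (2 * k))) := by
          apply mul_le_mul_of_nonneg_left _ hφ0
          have hk' : (0 : ℝ) < k := by exact_mod_cast hk
          have : (M.card : ℝ) * (h / (2 * k)) ≤ h / 2 := by
            have : (M.card : ℝ) * (h / (2 * k)) ≤ (k : ℝ) * (h / (2 * k)) :=
              mul_le_mul_of_nonneg_right hMk (by positivity)
            calc (M.card : ℝ) * (h / (2 * k)) ≤ (k : ℝ) * (h / (2 * k)) := this
              _ = h / 2 := by field_simp
          have e : (M.card : ℝ) * (1 - h / (2 * k)) = M.card - M.card * (h / (2 * k)) := by ring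
          rw [e, hcard] at *
          linarith
      _ = _ := by ring

/-! ### Phase 2 -/

/-- the probability that `n` random choices out of `n + q` objects contain `p` given ones -/
noncomputable def g (q n p : ℕ) : ℝ :=
  if p ≤ n then ((n - p + q).choose q : ℝ) / ((n + q).choose q) else 0

theorem g_nonneg (q n p : ℕ) : 0 ≤ g q n p := by
  unfold g
  split_ifs <;> positivity

theorem g_anti (q n p : ℕ) : g q n (p + 1) ≤ g q n p := by
  unfold g
  by_cases h : p + 1 ≤ n
  · rw [if_pos h, if_pos (by omega)]
    apply div_le_div_of_nonneg_right _ (by positivity)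
    have : (n - (p + 1) + q).choose q ≤ (n - p + q).choose q := Nat.choose_le_choose q (by omega)
    exact_mod_cast this
  · rw [if_neg h]
    exact g_nonneg q n p

theorem choose_aux (q n : ℕ) :
    ((n + 1 + q).choose q : ℝ) * (n + 1) = (n + 1 + q) * ((n + q).choose q) := by
  have h2 := Nat.choose_mul_succ_eq (n + q) q
  have h3 : n + q + 1 - q = n + 1 := by omega
  rw [h3] at h2
  have h4 : n + q + 1 = n + 1 + q := by omega
  rw [h4] at h2
  have h5 : ((n + q).choose q : ℝ) * ((n + 1 + q : ℕ) : ℝ) =
      ((n + 1 + q).choose q : ℝ) * ((n + 1 : ℕ) : ℝ) := by exact_mod_cast h2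
  push_cast at h5 ⊢
  linarith

theorem g_rec (q n p : ℕ) :
    ((n + 1 + q : ℕ) : ℝ) * g q (n + 1) (p + 1) =
      (p + 1 : ℕ) * g q n p + (((n + 1 + q : ℕ) : ℝ) - ((p + 1 : ℕ) : ℝ)) * g q n (p + 1) := by
  unfold g
  by_cases h : p ≤ n
  swap
  · rw [if_neg (by omega), if_neg h, if_neg (by omega)]
    ring
  rw [if_pos (by omega : p + 1 ≤ n + 1), if_pos h]
  have hc1 := choose_aux q n
  have hpos : (0 : ℝ) < ((n + q).choose q : ℝ) := by
    exact_mod_cast Nat.choose_pos (by omega)
  have hpos1 : (0 : ℝ) < ((n + 1 + q).choose q : ℝ) := by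
    exact_mod_cast Nat.choose_pos (by omega)
  have e1 : n + 1 - (p + 1) + q = n - p + q := by omega
  rw [e1]
  have hL : ∀ D : ℝ, ((n + 1 + q : ℕ) : ℝ) * (D / ((n + 1 + q).choose q : ℝ)) =
      (n + 1) * (D / ((n + q).choose q : ℝ)) := by
    intro D
    field_simp
    push_cast
    linear_combination (-D) * hc1
  rw [hL]
  by_cases h' : p + 1 ≤ n
  · rw [if_pos h']
    obtain ⟨r, rfl⟩ : ∃ r, n = p + 1 + r := ⟨n - (p + 1), by omega⟩
    have e2 : p + 1 + r - p + q = r + 1 + q := by omega
    have e3 : p + 1 + r - (p + 1) + q = r + q := by omega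
    rw [e2, e3]
    have hc2 := choose_aux q r
    field_simp
    push_cast
    linear_combination hc2
  · rw [if_neg h']
    have : p = n := by omega
    subst this
    push_cast
    ring

theorem g_zero (q n : ℕ) : g q n 0 = 1 := by
  unfold g
  rw [if_pos (Nat.zero_le _)]
  have hpos : (0 : ℝ) < ((n + q).choose q : ℝ) := by
    exact_mod_cast Nat.choose_pos (by omega)
  rw [Nat.sub_zero, div_self hpos.ne']

theorem g_succ (q n p : ℕ) : g q n p ≤ g q (n + 1) p := by
  rcases Nat.eq_zero_or_pos p with rfl | hp
  · rw [g_zero, g_zero]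
  obtain ⟨p, rfl⟩ : ∃ p', p = p' + 1 := ⟨p - 1, by omega⟩
  by_cases h : p + 1 ≤ n
  · have h1 := g_rec q n p
    have h2 := g_anti q n p
    have h3 : (0 : ℝ) < ((n + 1 + q : ℕ) : ℝ) := by positivity
    have h4 : (0 : ℝ) ≤ ((p + 1 : ℕ) : ℝ) := by positivity
    have h5 := mul_le_mul_of_nonneg_left h2 h4
    have h6 : ((n + 1 + q : ℕ) : ℝ) * g q n (p + 1) ≤ ((n + 1 + q : ℕ) : ℝ) * g q (n + 1) (p + 1) := by
      rw [h1]
      linarith
    exact le_of_mul_le_mul_left h6 h3
  · have : g q n (p + 1) = 0 := by
      unfold g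
      rw [if_neg h]
    rw [this]
    exact g_nonneg _ _ _

theorem g_step (q n : ℕ) (S F L used : Finset ℕ) (hM : n + 1 + q ≤ ((L \ F) \ used).card) :
    ∑ c ∈ (L \ F) \ used, g q n ((S \ F) \ insert c used).card ≤
      (((L \ F) \ used).card : ℝ) * g q (n + 1) ((S \ F) \ used).card := by
  set M := (L \ F) \ used with hMd
  set p := ((S \ F) \ used).card with hp
  have hin : ∀ c ∈ M ∩ S, g q n ((S \ F) \ insert c used).card = g q n (p - 1) := by
    intro c hc
    have h1 := Finset.mem_inter.1 hc
    have h2 := Finset.mem_sdiff.1 h1.1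
    have h3 := Finset.mem_sdiff.1 h2.1
    have hmem : c ∈ (S \ F) \ used := by
      simp only [Finset.mem_sdiff]
      exact ⟨⟨h1.2, h3.2⟩, h2.2⟩
    have : (S \ F) \ insert c used = ((S \ F) \ used).erase c := by
      ext x
      simp only [Finset.mem_sdiff, Finset.mem_insert, Finset.mem_erase]
      tauto
    rw [this, Finset.card_erase_of_mem hmem]
  have hout : ∀ c ∈ M \ S, g q n ((S \ F) \ insert c used).card = g q n p := by
    intro c hc
    have h1 := Finset.mem_sdiff.1 hc
    have : (S \ F) \ insert c used = (S \ F) \ used := by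
      ext x
      simp only [Finset.mem_sdiff, Finset.mem_insert]
      constructor
      · tauto
      · rintro ⟨h3, h4⟩
        refine ⟨h3, ?_⟩
        rintro (h5 | h5)
        · exact h1.2 (h5 ▸ h3.1)
        · exact h4 h5
    rw [this]
  have hsplit : ∑ c ∈ M, g q n ((S \ F) \ insert c used).card =
      ((M ∩ S).card : ℝ) * g q n (p - 1) + ((M \ S).card : ℝ) * g q n p := by
    have e1 : ∑ c ∈ M ∩ S, g q n ((S \ F) \ insert c used).card =
        ((M ∩ S).card : ℝ) * g q n (p - 1) := by
      rw [Finset.sum_congr rfl hin, Finset.sum_const, nsmul_eq_mul]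
    have e2 : ∑ c ∈ M \ S, g q n ((S \ F) \ insert c used).card =
        ((M \ S).card : ℝ) * g q n p := by
      rw [Finset.sum_congr rfl hout, Finset.sum_const, nsmul_eq_mul]
    rw [← e1, ← e2, ← Finset.sum_union]
    · congr 1
      ext x
      simp only [Finset.mem_union, Finset.mem_inter, Finset.mem_sdiff]
      tauto
    · rw [Finset.disjoint_left]
      intro x hx hx'
      exact (Finset.mem_sdiff.1 hx').2 (Finset.mem_inter.1 hx).2
  have hcard : (M.card : ℝ) = (M ∩ S).card + (M \ S).card := by
    have := Finset.card_inter_add_card_sdiff M S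
    exact_mod_cast this.symm
  have hA : (M ∩ S).card ≤ p := by
    apply Finset.card_le_card
    intro x hx
    have h1 := Finset.mem_inter.1 hx
    have h2 := Finset.mem_sdiff.1 h1.1
    have h3 := Finset.mem_sdiff.1 h2.1
    simp only [Finset.mem_sdiff]
    exact ⟨⟨h1.2, h3.2⟩, h2.2⟩
  rw [hsplit]
  rcases Nat.eq_zero_or_pos p with hp0 | hp0
  · have h0 : (M ∩ S).card = 0 := by omega
    rw [hp0, h0, g_zero, g_zero]
    rw [h0] at hcard
    rw [hcard]
    simp
  · obtain ⟨p', hp'⟩ : ∃ p', p = p' + 1 := ⟨p - 1, by omega⟩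
    rw [hp', Nat.add_sub_cancel]
    rw [hp'] at hA
    have h1 := g_rec q n p'
    have h2 := g_anti q n p'
    have h3 := g_succ q n (p' + 1)
    have hMr : ((n + 1 + q : ℕ) : ℝ) ≤ M.card := by exact_mod_cast hM
    have hAr : ((M ∩ S).card : ℝ) ≤ ((p' + 1 : ℕ) : ℝ) := by exact_mod_cast hA
    have h4 := mul_nonneg (sub_nonneg.2 hAr) (sub_nonneg.2 h2)
    have h5 := mul_nonneg (sub_nonneg.2 hMr) (sub_nonneg.2 h3)
    have h6 : ((M \ S).card : ℝ) = M.card - (M ∩ S).card := by rw [hcard]; ring
    rw [h6]
    nlinarith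

/-! ### The two phases -/

/-- rate of phase 1 -/
noncomputable def δ (a k : ℕ) (L S : Finset ℕ) : ℝ := (((L \ S).card - 2 * a : ℕ) : ℝ) / (2 * k)

theorem δ_le (a k : ℕ) (L S : Finset ℕ) (hL : L.card = k) : δ a k L S ≤ 1 := by
  unfold δ
  rcases Nat.eq_zero_or_pos k with rfl | hk
  · simp
  rw [div_le_one (by positivity)]
  have : (L \ S).card - 2 * a ≤ 2 * k := by
    have := Finset.card_le_card (Finset.sdiff_subset (s := L) (t := S))
    omega
  exact_mod_cast this

theorem phase1 {ι J : Type*} [DecidableEq ι] (a k : ℕ) (hk : 0 < k) (L : ι → Finset ℕ)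
    (hL : ∀ i, (L i).card = k) (F : Finset ℕ) (hF : F.card ≤ a) (S : J → Finset ℕ) (A : Finset J)
    (l : List ι) (hl : l.Nodup) (hlen : F.card + l.length ≤ k) :
    ∃ f : ι → ℕ, (∀ i ∈ l, f i ∈ L i \ F) ∧ (∀ i ∈ l, ∀ j ∈ l, i ≠ j → f i ≠ f j) ∧
      ∑ j ∈ A, φ a (S j) (l.toFinset.image f) ≤
        ∑ j ∈ A, (l.map (fun i => 1 - δ a k (L i) (S j))).prod := by
  have hprod : ∀ (l : List ι) (j : J), 0 ≤ (l.map (fun i => 1 - δ a k (L i) (S j))).prod := by
    intro l j
    apply List.prod_nonneg
    intro x hx
    obtain ⟨i, _, rfl⟩ := List.mem_map.1 hx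
    have := δ_le a k (L i) (S j) (hL i)
    linarith
  obtain ⟨f, hf1, hf2, hf3⟩ := seq_pass (fun i => L i \ F)
    (fun l used => ∑ j ∈ A, φ a (S j) used * (l.map (fun i => 1 - δ a k (L i) (S j))).prod)
    (fun l' used => used.card + l'.length ≤ l.length) (by
      intro i l' used hv
      have hcard : F.card + used.card + ((L i \ F) \ used).card ≥ k := by
        have h1 : L i ⊆ ((L i \ F) \ used) ∪ (F ∪ used) := by
          intro x hx
          simp only [Finset.mem_union, Finset.mem_sdiff]
          tauto
        have h2 := Finset.card_le_card h1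
        have h3 := Finset.card_union_le ((L i \ F) \ used) (F ∪ used)
        have h4 := Finset.card_union_le F used
        rw [hL i] at h2
        omega
      rw [List.length_cons] at hv
      refine ⟨?_, ?_, ?_⟩
      · rw [← Finset.card_pos]
        omega
      · rw [Finset.sum_comm, Finset.mul_sum]
        apply Finset.sum_le_sum
        intro j _
        rw [← Finset.sum_mul, List.map_cons, List.prod_cons]
        have := φ_step a k hk (S j) (L i) F used (hL i) hF
        calc _ ≤ ((((L i \ F) \ used).card : ℝ) *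
              (φ a (S j) used * (1 - (((L i \ S j).card - 2 * a : ℕ) : ℝ) / (2 * k)))) * _ :=
              mul_le_mul_of_nonneg_right this (hprod l' j)
          _ = _ := by
            unfold δ
            ring
      · intro c hc
        rw [Finset.card_insert_of_notMem (Finset.mem_sdiff.1 hc).2]
        omega) l ∅ hl (by simp)
  refine ⟨f, fun i hi => (hf1 i hi).1, hf2, ?_⟩
  simp only [Finset.empty_union, List.map_nil, List.prod_nil, mul_one] at hf3
  refine hf3.trans ?_
  apply Finset.sum_le_sum
  intro j _
  have : φ a (S j) ∅ = 1 := by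
    unfold φ
    simp
  rw [this, one_mul]

theorem phase2 {ι J : Type*} [DecidableEq ι] (q t k : ℕ) (hk : k = t + q + 1) (L : ι → Finset ℕ)
    (hL : ∀ i, (L i).card = k) (F : Finset ℕ) (S : J → Finset ℕ) (A : Finset J)
    (l : List ι) (hl : l.Nodup) (used0 : Finset ℕ) (hlen : used0.card + l.length ≤ t)
    (hLF : ∀ i ∈ l, (L i ∩ F).card ≤ 1) :
    ∃ f : ι → ℕ, (∀ i ∈ l, f i ∈ L i \ F ∧ f i ∉ used0) ∧
      (∀ i ∈ l, ∀ j ∈ l, i ≠ j → f i ≠ f j) ∧
      ∑ j ∈ A, g q 0 ((S j \ F) \ (used0 ∪ l.toFinset.image f)).card ≤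
        ∑ j ∈ A, g q l.length ((S j \ F) \ used0).card := by
  obtain ⟨f, hf1, hf2, hf3⟩ := seq_pass (fun i => L i \ F)
    (fun l used => ∑ j ∈ A, g q l.length ((S j \ F) \ used).card)
    (fun l' used => used.card + l'.length ≤ t ∧ ∀ i ∈ l', (L i ∩ F).card ≤ 1) (by
      intro i l' used hv
      obtain ⟨hv, hv'⟩ := hv
      have hcard : 1 + used.card + ((L i \ F) \ used).card ≥ k := by
        have h1 : L i ⊆ ((L i \ F) \ used) ∪ ((L i ∩ F) ∪ used) := by
          intro x hx
          simp only [Finset.mem_union, Finset.mem_sdiff, Finset.mem_inter]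
          tauto
        have h2 := Finset.card_le_card h1
        have h3 := Finset.card_union_le ((L i \ F) \ used) ((L i ∩ F) ∪ used)
        have h4 := Finset.card_union_le (L i ∩ F) used
        have h5 := hv' i (by simp)
        rw [hL i] at h2
        omega
      rw [List.length_cons] at hv
      refine ⟨?_, ?_, ?_⟩
      · rw [← Finset.card_pos]
        omega
      · rw [Finset.sum_comm, Finset.mul_sum]
        apply Finset.sum_le_sum
        intro j _
        rw [List.length_cons]
        exact g_step q l'.length (S j) F (L i) used (by omega)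
      · intro c hc
        rw [Finset.card_insert_of_notMem (Finset.mem_sdiff.1 hc).2]
        exact ⟨by omega, fun i' hi' => hv' i' (by simp [hi'])⟩) l used0 hl ⟨hlen, hLF⟩
  exact ⟨f, hf1, hf2, hf3⟩

end Q128.Ohba
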