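import Mathlib
import Pool.Agent.Q128.OhbaSeq

/-!
# Colouring the complete part
-/

set_option autoImplicit false

namespace Q128.Ohba

open Finset

theorem g_le_φ (a q t k n₁ n₂ : ℕ) (hk : k = t + q + 1) (hn : n₁ + n₂ = t) (S F used : Finset ℕ)
    (hS : S.card = k) (hF : F.card ≤ a) (hu : used.card ≤ n₁) :
    g q n₂ ((S \ F) \ used).card ≤
      (2 : ℝ) ^ a * (a.choose q) / ((n₂ + q).choose q) * φ a S used := by
  have hpos : (0 : ℝ) < ((n₂ + q).choose q : ℝ) := by
    exact_mod_cast Nat.choose_pos (by omega)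
  have h1 : S.card ≤ ((S \ F) \ used).card + (F.card + (used ∩ S).card) := by
    have h1 : S ⊆ ((S \ F) \ used) ∪ (F ∪ (used ∩ S)) := by
      intro x hx
      simp only [Finset.mem_union, Finset.mem_sdiff, Finset.mem_inter]
      tauto
    have h2 := Finset.card_le_card h1
    have h3 := Finset.card_union_le ((S \ F) \ used) (F ∪ (used ∩ S))
    have h4 := Finset.card_union_le F (used ∩ S)
    omega
  have h2 : (used ∩ S).card + (used \ S).card = used.card := Finset.card_inter_add_card_sdiff used S
  set p := ((S \ F) \ used).card with hp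
  set X := (used \ S).card with hX
  by_cases hXa : X ≤ a
  · have hφ : φ a S used = (1 / 2 : ℝ) ^ X := by
      unfold φ
      rw [if_pos hXa]
    rw [hφ]
    by_cases hpn : p ≤ n₂
    · unfold g
      rw [if_pos hpn]
      have h3 : n₂ - p + q ≤ a := by omega
      have h4 : ((n₂ - p + q).choose q : ℝ) ≤ (a.choose q : ℝ) := by
        exact_mod_cast Nat.choose_le_choose q h3
      have h5 : (1 : ℝ) ≤ 2 ^ a * (1 / 2 : ℝ) ^ X := by
        have : (2 : ℝ) ^ a = 2 ^ (a - X) * 2 ^ X := by
          rw [← pow_add]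
          congr 1
          omega
        rw [this, mul_assoc, ← mul_pow]
        norm_num
        exact one_le_pow₀ (by norm_num)
      calc ((n₂ - p + q).choose q : ℝ) / ((n₂ + q).choose q : ℝ)
          ≤ (a.choose q : ℝ) / ((n₂ + q).choose q : ℝ) :=
            div_le_div_of_nonneg_right h4 hpos.le
        _ = 1 * ((a.choose q : ℝ) / ((n₂ + q).choose q : ℝ)) := by ring
        _ ≤ (2 ^ a * (1 / 2 : ℝ) ^ X) * ((a.choose q : ℝ) / ((n₂ + q).choose q : ℝ)) :=
            mul_le_mul_of_nonneg_right h5 (by positivity)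
        _ = _ := by ring
    · have : g q n₂ p = 0 := by
        unfold g
        rw [if_neg hpn]
      rw [this]
      positivity
  · have : g q n₂ p = 0 := by
      unfold g
      rw [if_neg (by omega)]
    rw [this]
    have := φ_nonneg a S used
    positivity

theorem K_lemma {ι J : Type*} [Fintype ι] [DecidableEq ι] (a q t k : ℕ) (hk : k = t + q + 1)
    (hι : Fintype.card ι = t) (L : ι → Finset ℕ) (hL : ∀ i, (L i).card = k)
    (F : Finset ℕ) (hF : F.card ≤ a) (S : J → Finset ℕ) (hS : ∀ j, (S j).card = k) (A : Finset J)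
    (I₁ : Finset ι) (hI : a + I₁.card ≤ k) (hLF : ∀ i ∉ I₁, (L i ∩ F).card ≤ 1)
    (hsum : ∑ j ∈ A, (2 : ℝ) ^ a * (a.choose q) / ((t - I₁.card + q).choose q) *
      ∏ i ∈ I₁, (1 - δ a k (L i) (S j)) < 1) :
    ∃ c : ι → ℕ, (∀ i, c i ∈ L i ∧ c i ∉ F) ∧ Function.Injective c ∧
      ∀ j ∈ A, ¬ (S j ⊆ F ∪ Finset.univ.image c) := by
  have hI1t : I₁.card ≤ t := by
    rw [← hι]
    exact Finset.card_le_univ I₁
  obtain ⟨f₁, hf1, hf2, hf3⟩ := phase1 a k (by omega) L hL F hF S A I₁.toList
    (Finset.nodup_toList _) (by rw [Finset.length_toList]; omega)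
  rw [Finset.toList_toFinset] at hf3
  have hu : (I₁.image f₁).card ≤ I₁.card := Finset.card_image_le
  have hlen2 : (I₁ᶜ).toList.length = t - I₁.card := by
    rw [Finset.length_toList, Finset.card_compl, hι]
  obtain ⟨f₂, hg1, hg2, hg3⟩ := phase2 q t k hk L hL F S A (I₁ᶜ).toList
    (Finset.nodup_toList _) (I₁.image f₁) (by rw [hlen2]; omega) (by
      intro i hi
      apply hLF
      simpa using hi)
  rw [Finset.toList_toFinset, hlen2] at hg3
  have hlt : ∑ j ∈ A, g q 0 ((S j \ F) \ (I₁.image f₁ ∪ (I₁ᶜ).image f₂)).card < 1 := by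
    refine lt_of_le_of_lt hg3 (lt_of_le_of_lt ?_ hsum)
    calc ∑ j ∈ A, g q (t - I₁.card) ((S j \ F) \ I₁.image f₁).card
        ≤ ∑ j ∈ A, (2 : ℝ) ^ a * (a.choose q) / ((t - I₁.card + q).choose q) *
            φ a (S j) (I₁.image f₁) := by
          apply Finset.sum_le_sum
          intro j _
          exact g_le_φ a q t k I₁.card (t - I₁.card) hk (by omega) (S j) F _ (hS j) hF hu
      _ = (2 : ℝ) ^ a * (a.choose q) / ((t - I₁.card + q).choose q) *
            ∑ j ∈ A, φ a (S j) (I₁.image f₁) := by rw [Finset.mul_sum]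
      _ ≤ (2 : ℝ) ^ a * (a.choose q) / ((t - I₁.card + q).choose q) *
            ∑ j ∈ A, (I₁.toList.map (fun i => 1 - δ a k (L i) (S j))).prod := by
          apply mul_le_mul_of_nonneg_left hf3
          positivity
      _ = _ := by
          rw [Finset.mul_sum]
          apply Finset.sum_congr rfl
          intro j _
          rw [Finset.prod_map_toList]
  refine ⟨fun i => if i ∈ I₁ then f₁ i else f₂ i, ?_, ?_, ?_⟩
  · intro i
    by_cases hi : i ∈ I₁
    · simp only [hi, if_true]
      have := hf1 i (by simpa using hi)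
      exact Finset.mem_sdiff.1 this
    · simp only [hi, if_false]
      have := hg1 i (by simpa using hi)
      exact Finset.mem_sdiff.1 this.1
  · intro i j hij
    by_contra hne
    by_cases hi : i ∈ I₁
    · by_cases hj : j ∈ I₁
      · simp only [hi, hj, if_true] at hij
        exact hf2 i (by simpa using hi) j (by simpa using hj) hne hij
      · simp only [hi, hj, if_true, if_false] at hij
        exact (hg1 j (by simpa using hj)).2 (by rw [← hij]; exact Finset.mem_image_of_mem _ hi)
    · by_cases hj : j ∈ I₁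
      · simp only [hi, hj, if_true, if_false] at hij
        exact (hg1 i (by simpa using hi)).2 (by rw [hij]; exact Finset.mem_image_of_mem _ hj)
      · simp only [hi, hj, if_false] at hij
        exact hg2 i (by simpa using hi) j (by simpa using hj) hne hij
  · intro j hj hsub
    have hjlt : g q 0 ((S j \ F) \ (I₁.image f₁ ∪ (I₁ᶜ).image f₂)).card < 1 :=
      lt_of_le_of_lt (Finset.single_le_sum (f := fun j => g q 0
        ((S j \ F) \ (I₁.image f₁ ∪ (I₁ᶜ).image f₂)).card) (fun j _ => g_nonneg _ _ _) hj) hlt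
    have hemp : (S j \ F) \ (I₁.image f₁ ∪ (I₁ᶜ).image f₂) = ∅ := by
      rw [Finset.eq_empty_iff_forall_notMem]
      intro x hx
      simp only [Finset.mem_sdiff, Finset.mem_union, Finset.mem_image, Finset.mem_compl, not_or,
        not_exists, not_and] at hx
      obtain ⟨⟨hxS, hxF⟩, hx1, hx2⟩ := hx
      have := hsub hxS
      simp only [Finset.mem_union, Finset.mem_image, Finset.mem_univ, true_and] at this
      rcases this with h | ⟨i, hi⟩
      · exact hxF h
      · by_cases hi' : i ∈ I₁
        · simp only [hi', if_true] at hi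
          exact hx1 i hi' hi
        · simp only [hi', if_false] at hi
          exact hx2 i hi' hi
    rw [hemp, Finset.card_empty, g_zero] at hjlt
    exact lt_irrefl _ hjlt

theorem K_lemma_I {ι J : Type*} [Fintype ι] [DecidableEq ι] (a q t k : ℕ) (hk : k = t + q + 1)
    (hι : Fintype.card ι = t) (L : ι → Finset ℕ) (hL : ∀ i, (L i).card = k)
    (S : J → Finset ℕ) (hS : ∀ j, (S j).card = k) (A : Finset J)
    (hsum : ∑ j ∈ A, ∏ i, (1 - δ a k (L i) (S j)) < (1 / 2 : ℝ) ^ a) :
    ∃ c : ι → ℕ, (∀ i, c i ∈ L i) ∧ Function.Injective c ∧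
      ∀ j ∈ A, ∀ F : Finset ℕ, F.card ≤ a → ¬ (S j ⊆ F ∪ Finset.univ.image c) := by
  obtain ⟨f, hf1, hf2, hf3⟩ := phase1 a k (by omega) L hL ∅ (by simp) S A
    (Finset.univ : Finset ι).toList (Finset.nodup_toList _)
    (by rw [Finset.length_toList, Finset.card_univ, hι, Finset.card_empty]; omega)
  rw [Finset.toList_toFinset] at hf3
  simp only [Finset.prod_map_toList] at hf3
  have hinj : Function.Injective f := by
    intro i j hij
    by_contra hne
    exact hf2 i (by simp) j (by simp) hne hij
  refine ⟨f, fun i => by simpa using hf1 i (by simp), hinj, ?_⟩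
  intro j hj F hF hsub
  have hlt : φ a (S j) (Finset.univ.image f) < (1 / 2 : ℝ) ^ a :=
    lt_of_le_of_lt (Finset.single_le_sum (f := fun j => φ a (S j) (Finset.univ.image f))
      (fun j _ => φ_nonneg _ _ _) hj) (lt_of_le_of_lt hf3 hsum)
  have hX : a < ((Finset.univ.image f) \ S j).card := by
    by_contra hX
    push Not at hX
    unfold φ at hlt
    rw [if_pos hX] at hlt
    have : (1 / 2 : ℝ) ^ a ≤ (1 / 2 : ℝ) ^ ((Finset.univ.image f) \ S j).card :=
      pow_le_pow_of_le_one (by norm_num) (by norm_num) hX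
    linarith
  have h1 : (Finset.univ.image f).card = t := by
    rw [Finset.card_image_of_injective _ hinj, Finset.card_univ, hι]
  have h2 : ((Finset.univ.image f) ∩ S j).card + ((Finset.univ.image f) \ S j).card =
      (Finset.univ.image f).card := Finset.card_inter_add_card_sdiff _ _
  have h3 : S j ⊆ F ∪ ((Finset.univ.image f) ∩ S j) := by
    intro x hx
    have := hsub hx
    simp only [Finset.mem_union, Finset.mem_inter] at this ⊢
    tauto
  have h4 := Finset.card_le_card h3
  have h5 := Finset.card_union_le F ((Finset.univ.image f) ∩ S j)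
  rw [hS j] at h4
  omega

end Q128.Ohba
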