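import Mathlib
import Pool.Agent.Q128.OhbaK

/-!
# Choosing the colours of the small part
-/

set_option autoImplicit false
set_option linter.unusedSectionVars false

namespace Q128.Ohba

open Finset

section

variable {ι X J : Type*} [Fintype ι] [DecidableEq ι] [Fintype X] [DecidableEq X] [Fintype J]

/-- number of lists containing the colour `z` -/
def η (L : ι → Finset ℕ) (z : ℕ) : ℕ := (Finset.univ.filter (fun i => z ∈ L i)).card

theorem dc (L : ι → Finset ℕ) (T : Finset ℕ) : ∑ i, (L i ∩ T).card = ∑ z ∈ T, η L z := by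
  have h1 : ∀ i, (L i ∩ T).card = ∑ z ∈ T, if z ∈ L i then 1 else 0 := by
    intro i
    rw [Finset.inter_comm, ← Finset.filter_mem_eq_inter, Finset.card_filter]
  have h2 : ∀ z, η L z = ∑ i, if z ∈ L i then 1 else 0 := by
    intro z
    unfold η
    rw [Finset.card_filter]
  simp only [h1, h2]
  rw [Finset.sum_comm]

theorem eta_le (L : ι → Finset ℕ) (z : ℕ) : η L z ≤ Fintype.card ι := by
  unfold η
  exact Finset.card_le_univ _

/-- many intermediate colours: all the lists differ much from any fixed set on average -/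
theorem sum_sdiff_of_inter (a t k : ℕ) (ha : 1 ≤ a) (L : ι → Finset ℕ) (hι : Fintype.card ι = t)
    (hL : ∀ i, (L i).card = k) (S I : Finset ℕ) (hS : S.card = k)
    (hI : ∀ z ∈ I, t ≤ 4 * a * η L z ∧ 4 * a * η L z ≤ (4 * a - 1) * t) :
    t * I.card ≤ 8 * a * ∑ i, (L i \ S).card := by
  by_cases h : I.card ≤ 2 * (I \ S).card
  · -- many colours of `I` outside `S`
    have h1 : ∑ i, (L i ∩ (I \ S)).card ≤ ∑ i, (L i \ S).card := by
      apply Finset.sum_le_sum
      intro i _
      apply Finset.card_le_card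
      intro x hx
      simp only [Finset.mem_inter, Finset.mem_sdiff] at hx ⊢
      exact ⟨hx.1, hx.2.2⟩
    rw [dc] at h1
    have h2 : (I \ S).card * t ≤ ∑ z ∈ I \ S, 4 * a * η L z := by
      rw [← smul_eq_mul]
      apply Finset.card_nsmul_le_sum
      intro z hz
      exact (hI z (Finset.mem_sdiff.1 hz).1).1
    rw [← Finset.mul_sum] at h2
    calc t * I.card ≤ t * (2 * (I \ S).card) := Nat.mul_le_mul_left _ h
      _ = 2 * ((I \ S).card * t) := by ring
      _ ≤ 2 * (4 * a * ∑ z ∈ I \ S, η L z) := Nat.mul_le_mul_left _ h2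
      _ = 8 * a * ∑ z ∈ I \ S, η L z := by ring
      _ ≤ _ := Nat.mul_le_mul_left _ h1
  · have hIS : (I ∩ S).card + (I \ S).card = I.card := Finset.card_inter_add_card_sdiff I S
    have h1 : ∑ i, (L i ∩ S).card + ∑ i, (L i \ S).card = t * k := by
      rw [← Finset.sum_add_distrib]
      rw [Finset.sum_congr rfl (fun i _ => Finset.card_inter_add_card_sdiff (L i) S)]
      simp [hL, hι]
    rw [dc] at h1
    have h2 : ∑ z ∈ S, η L z = ∑ z ∈ S ∩ I, η L z + ∑ z ∈ S \ I, η L z := by
      rw [← Finset.sum_union]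
      · congr 1
        ext x
        simp only [Finset.mem_union, Finset.mem_inter, Finset.mem_sdiff]
        tauto
      · rw [Finset.disjoint_left]
        intro x hx hx'
        exact (Finset.mem_sdiff.1 hx').2 (Finset.mem_inter.1 hx).2
    have h3 : ∑ z ∈ S \ I, η L z ≤ (S \ I).card * t := by
      rw [← smul_eq_mul]
      apply Finset.sum_le_card_nsmul
      intro z _
      rw [← hι]
      exact eta_le L z
    have h4 : ∑ z ∈ S ∩ I, 4 * a * η L z ≤ (S ∩ I).card * ((4 * a - 1) * t) := by
      rw [← smul_eq_mul]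
      apply Finset.sum_le_card_nsmul
      intro z hz
      exact (hI z (Finset.mem_inter.1 hz).2).2
    rw [← Finset.mul_sum] at h4
    have h5 : (S ∩ I).card + (S \ I).card = S.card := Finset.card_inter_add_card_sdiff S I
    rw [Finset.inter_comm] at hIS
    rw [hS] at h5
    obtain ⟨a', rfl⟩ : ∃ a', a = a' + 1 := ⟨a - 1, by omega⟩
    have e : 4 * (a' + 1) - 1 = 4 * a' + 3 := by omega
    rw [e] at h4
    set u := (S ∩ I).card
    set v := (S \ I).card
    set w := (I \ S).card
    have h6 : I.card ≤ 2 * u := by omega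
    have h7 : 4 * (a' + 1) * ∑ z ∈ S, η L z + u * t ≤ 4 * (a' + 1) * (t * k) := by
      rw [h2, ← h5]
      nlinarith
    have h8 : u * t ≤ 4 * (a' + 1) * ∑ i, (L i \ S).card := by
      rw [← h1] at h7
      nlinarith
    nlinarith

theorem case_one (a q t k : ℕ) (ha : 1 ≤ a) (hk : k = t + q + 1) (L : ι → Finset ℕ)
    (hι : Fintype.card ι = t) (hL : ∀ i, (L i).card = k) (S : J → Finset ℕ)
    (hS : ∀ j, (S j).card = k) (I : Finset ℕ)
    (hI : ∀ z ∈ I, t ≤ 4 * a * η L z ∧ 4 * a * η L z ≤ (4 * a - 1) * t)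
    (hIk : k ≤ 8 * a * I.card)
    (hbig : (Fintype.card J : ℝ) * Real.exp (a - t / (128 * a ^ 2)) < (1 / 2 : ℝ) ^ a) :
    ∃ c : ι → ℕ, (∀ i, c i ∈ L i) ∧ Function.Injective c ∧
      ∀ j, ∀ F : Finset ℕ, F.card ≤ a → ¬ (S j ⊆ F ∪ Finset.univ.image c) := by
  obtain ⟨c, h1, h2, h3⟩ := K_lemma_I a q t k hk hι L hL S hS Finset.univ (by
    refine lt_of_le_of_lt ?_ hbig
    have : ∀ j ∈ (Finset.univ : Finset J), ∏ i, (1 - δ a k (L i) (S j)) ≤
        Real.exp (a - t / (128 * a ^ 2)) := by
      intro j _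
      have h1 : ∏ i, (1 - δ a k (L i) (S j)) ≤ ∏ i, Real.exp (-δ a k (L i) (S j)) := by
        apply Finset.prod_le_prod
        · intro i _
          have := δ_le a k (L i) (S j) (hL i)
          linarith
        · intro i _
          have := Real.add_one_le_exp (-δ a k (L i) (S j))
          linarith
      refine h1.trans ?_
      rw [← Real.exp_sum]
      apply Real.exp_le_exp.2
      have h2 := sum_sdiff_of_inter a t k ha L hι hL (S j) I (hS j) hI
      have hkpos : (0 : ℝ) < k := by
        have : 0 < k := by omega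
        exact_mod_cast this
      have hapos : (0 : ℝ) < a := by exact_mod_cast ha
      have h3 : ∀ i, ((L i \ S j).card : ℝ) - 2 * a ≤ (((L i \ S j).card - 2 * a : ℕ) : ℝ) := by
        intro i
        have : (L i \ S j).card ≤ ((L i \ S j).card - 2 * a) + 2 * a := by omega
        have : ((L i \ S j).card : ℝ) ≤ (((L i \ S j).card - 2 * a : ℕ) : ℝ) + 2 * a := by
          exact_mod_cast this
        linarith
      have h4 : ∑ i, (((L i \ S j).card : ℝ) - 2 * a) / (2 * k) ≤ ∑ i, δ a k (L i) (S j) := by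
        apply Finset.sum_le_sum
        intro i _
        unfold δ
        exact div_le_div_of_nonneg_right (h3 i) (by positivity)
      rw [← Finset.sum_div, Finset.sum_sub_distrib, Finset.sum_const, Finset.card_univ, hι,
        nsmul_eq_mul] at h4
      have h5 : (t : ℝ) * k ≤ 64 * a ^ 2 * ∑ i, ((L i \ S j).card : ℝ) := by
        have : t * k ≤ 64 * a ^ 2 * ∑ i, (L i \ S j).card := by
          calc t * k ≤ t * (8 * a * I.card) := Nat.mul_le_mul_left _ hIk
            _ = 8 * a * (t * I.card) := by ring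
            _ ≤ 8 * a * (8 * a * ∑ i, (L i \ S j).card) := Nat.mul_le_mul_left _ h2
            _ = _ := by ring
        exact_mod_cast this
      have htk : (t : ℝ) ≤ k := by
        have : t ≤ k := by omega
        exact_mod_cast this
      rw [Finset.sum_neg_distrib]
      have h6 : (t : ℝ) / (128 * a ^ 2) - a ≤
          (∑ i, ((L i \ S j).card : ℝ) - t * (2 * a)) / (2 * k) := by
        rw [le_div_iff₀ (by positivity)]
        have h7 : (t : ℝ) / (128 * a ^ 2) * (2 * k) ≤ ∑ i, ((L i \ S j).card : ℝ) := by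
          rw [div_mul_eq_mul_div, div_le_iff₀ (by positivity)]
          nlinarith
        nlinarith
      linarith
    calc ∑ j, ∏ i, (1 - δ a k (L i) (S j)) ≤ ∑ j : J, Real.exp (a - t / (128 * a ^ 2)) :=
          Finset.sum_le_sum this
      _ = _ := by rw [Finset.sum_const, Finset.card_univ, nsmul_eq_mul])
  exact ⟨c, h1, h2, fun j F hF => h3 j (Finset.mem_univ j) F hF⟩

end

end Q128.Ohba
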