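import Mathlib
import Pool.Agent.Q128.OhbaA

/-!
# Choosing the colours of the small part, continued
-/

set_option autoImplicit false
set_option linter.unusedSectionVars false
set_option linter.unusedVariables false

namespace Q128.Ohba

open Finset

section

variable {ι X J : Type*} [Fintype ι] [DecidableEq ι] [Fintype X] [DecidableEq X] [Fintype J]

/-- the lists that consist mostly of common colours have a common colour in common -/
theorem common_colour (a t k : ℕ) (ha : 1 ≤ a) (ht : 0 < t) (hk : 0 < k) (L : ι → Finset ℕ)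
    (hι : Fintype.card ι = t) (hL : ∀ i, (L i).card = k) (P : X → Finset ℕ)
    (𝒳 : Finset X) (hX : 𝒳.card ≤ a) (hne : 𝒳.Nonempty)
    (hP : ∀ x ∈ 𝒳, (4 * a - 1) * k ≤ 4 * a * ((P x).filter
      (fun z => (4 * a - 1) * t < 4 * a * η L z)).card) :
    ∃ c, (4 * a - 1) * t < 4 * a * η L c ∧ ∀ x ∈ 𝒳, c ∈ P x := by
  by_contra hcon
  push Not at hcon
  set U := (𝒳.biUnion P).filter (fun z => (4 * a - 1) * t < 4 * a * η L z) with hU
  -- the number of common colours
  have hUc : (4 * a - 1) * U.card ≤ 4 * a * k := by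
    have h1 : U.card * ((4 * a - 1) * t) ≤ ∑ z ∈ U, 4 * a * η L z := by
      rw [← smul_eq_mul]
      apply Finset.card_nsmul_le_sum
      intro z hz
      exact (Finset.mem_filter.1 hz).2.le
    rw [← Finset.mul_sum, ← dc] at h1
    have h2 : ∑ i, (L i ∩ U).card ≤ t * k := by
      calc ∑ i, (L i ∩ U).card ≤ ∑ i, (L i).card :=
            Finset.sum_le_sum (fun i _ => Finset.card_le_card Finset.inter_subset_left)
        _ = t * k := by simp [hL, hι]
    have h3 : (4 * a - 1) * U.card * t ≤ 4 * a * k * t := by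
      calc (4 * a - 1) * U.card * t = U.card * ((4 * a - 1) * t) := by ring
        _ ≤ 4 * a * ∑ i, (L i ∩ U).card := h1
        _ ≤ 4 * a * (t * k) := Nat.mul_le_mul_left _ h2
        _ = _ := by ring
    exact Nat.le_of_mul_le_mul_right h3 ht
  -- every common colour is missed
  have hmiss : U.card ≤ ∑ x ∈ 𝒳, (U \ P x).card := by
    have : U ⊆ 𝒳.biUnion (fun x => U \ P x) := by
      intro z hz
      obtain ⟨x, hx, hzx⟩ := hcon z (Finset.mem_filter.1 hz).2
      exact Finset.mem_biUnion.2 ⟨x, hx, Finset.mem_sdiff.2 ⟨hz, hzx⟩⟩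
    exact (Finset.card_le_card this).trans Finset.card_biUnion_le
  have hin : ∀ x ∈ 𝒳, (4 * a - 1) * k ≤ 4 * a * (U ∩ P x).card := by
    intro x hx
    refine (hP x hx).trans (Nat.mul_le_mul_left _ (Finset.card_le_card ?_))
    intro z hz
    have := Finset.mem_filter.1 hz
    simp only [hU, Finset.mem_inter, Finset.mem_filter, Finset.mem_biUnion]
    exact ⟨⟨⟨x, hx, this.1⟩, this.2⟩, this.1⟩
  have hsum : ∑ x ∈ 𝒳, (U ∩ P x).card + ∑ x ∈ 𝒳, (U \ P x).card = 𝒳.card * U.card := by
    rw [← Finset.sum_add_distrib, Finset.sum_congr rfl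
      (fun x _ => Finset.card_inter_add_card_sdiff U (P x)), Finset.sum_const, smul_eq_mul]
  have hin' : 𝒳.card * ((4 * a - 1) * k) ≤ 4 * a * ∑ x ∈ 𝒳, (U ∩ P x).card := by
    rw [Finset.mul_sum, ← smul_eq_mul]
    exact Finset.card_nsmul_le_sum _ _ _ hin
  have hr : 1 ≤ 𝒳.card := Finset.card_pos.2 hne
  obtain ⟨a', rfl⟩ : ∃ a', a = a' + 1 := ⟨a - 1, by omega⟩
  obtain ⟨r, hr'⟩ : ∃ r, 𝒳.card = r + 1 := ⟨𝒳.card - 1, by omega⟩
  have e : 4 * (a' + 1) - 1 = 4 * a' + 3 := by omega
  rw [e] at hUc hin'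
  rw [hr'] at hsum hin' hX
  set n := U.card
  set w₁ := ∑ x ∈ 𝒳, (U ∩ P x).card
  have h1 : w₁ ≤ r * n := by nlinarith
  have h2 : (r + 1) * ((4 * a' + 3) * k) ≤ 4 * (a' + 1) * (r * n) :=
    hin'.trans (Nat.mul_le_mul_left _ h1)
  have h3 : (r + 1) * ((4 * a' + 3) * k) * (4 * a' + 3) ≤ 4 * (a' + 1) * (r * (4 * (a' + 1) * k)) := by
    calc (r + 1) * ((4 * a' + 3) * k) * (4 * a' + 3)
        ≤ 4 * (a' + 1) * (r * n) * (4 * a' + 3) := Nat.mul_le_mul_right _ h2
      _ = 4 * (a' + 1) * (r * ((4 * a' + 3) * n)) := by ring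
      _ ≤ _ := Nat.mul_le_mul_left _ (Nat.mul_le_mul_left _ hUc)
  have h4 : (r + 1) * (4 * a' + 3) * (4 * a' + 3) ≤ 4 * (a' + 1) * r * (4 * (a' + 1)) := by
    have : (r + 1) * (4 * a' + 3) * (4 * a' + 3) * k ≤ 4 * (a' + 1) * r * (4 * (a' + 1)) * k := by
      calc _ = (r + 1) * ((4 * a' + 3) * k) * (4 * a' + 3) := by ring
        _ ≤ _ := h3
        _ = _ := by ring
    exact Nat.le_of_mul_le_mul_right this hk
  nlinarith

/-- counting the choices with many elements in a given set -/
theorem count_bad (q : ℕ) (Q : X → Finset ℕ) (T : Finset ℕ) (ρ : ℝ) (hρ : 0 ≤ ρ)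
    (hQ : ∀ x, ((Q x ∩ T).card : ℝ) ≤ ρ * (Q x).card) :
    (((Fintype.piFinset Q).filter
      (fun d => q ≤ (Finset.univ.filter (fun x => d x ∈ T)).card)).card : ℝ) ≤
      ((Fintype.card X).choose q : ℝ) * ρ ^ q * ((Fintype.piFinset Q).card : ℝ) := by
  have hsub : (Fintype.piFinset Q).filter
      (fun d => q ≤ (Finset.univ.filter (fun x => d x ∈ T)).card) ⊆
      (Finset.powersetCard q (Finset.univ : Finset X)).biUnion
        (fun Y => Fintype.piFinset (fun x => if x ∈ Y then Q x ∩ T else Q x)) := by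
    intro d hd
    obtain ⟨hd1, hd2⟩ := Finset.mem_filter.1 hd
    obtain ⟨Y, hY1, hY2⟩ := Finset.exists_subset_card_eq hd2
    refine Finset.mem_biUnion.2 ⟨Y, Finset.mem_powersetCard.2 ⟨Finset.subset_univ _, hY2⟩, ?_⟩
    rw [Fintype.mem_piFinset] at hd1 ⊢
    intro x
    by_cases hx : x ∈ Y
    · simp only [hx, if_true]
      exact Finset.mem_inter.2 ⟨hd1 x, (Finset.mem_filter.1 (hY1 hx)).2⟩
    · simp only [hx, if_false]
      exact hd1 x
  have h1 := (Finset.card_le_card hsub).trans Finset.card_biUnion_le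
  have h2 : (((Fintype.piFinset Q).filter
      (fun d => q ≤ (Finset.univ.filter (fun x => d x ∈ T)).card)).card : ℝ) ≤
      ∑ Y ∈ Finset.powersetCard q (Finset.univ : Finset X),
        ((Fintype.piFinset (fun x => if x ∈ Y then Q x ∩ T else Q x)).card : ℝ) := by
    exact_mod_cast h1
  refine h2.trans ?_
  have h3 : ∀ Y ∈ Finset.powersetCard q (Finset.univ : Finset X),
      ((Fintype.piFinset (fun x => if x ∈ Y then Q x ∩ T else Q x)).card : ℝ) ≤
        ρ ^ q * ((Fintype.piFinset Q).card : ℝ) := by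
    intro Y hY
    have hYc : Y.card = q := (Finset.mem_powersetCard.1 hY).2
    rw [Fintype.card_piFinset, Fintype.card_piFinset]
    push_cast
    calc ∏ x, (((if x ∈ Y then Q x ∩ T else Q x).card : ℕ) : ℝ)
        ≤ ∏ x, ((if x ∈ Y then ρ else 1) * ((Q x).card : ℝ)) := by
          apply Finset.prod_le_prod
          · intro x _
            positivity
          · intro x _
            by_cases hx : x ∈ Y
            · simp only [hx, if_true]
              exact hQ x
            · simp only [hx, if_false, one_mul, le_refl]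
      _ = (∏ x, (if x ∈ Y then ρ else 1)) * ∏ x, ((Q x).card : ℝ) := Finset.prod_mul_distrib
      _ = _ := by
          rw [Finset.prod_ite, Finset.prod_const, Finset.prod_const_one, mul_one]
          congr 2
          rw [← hYc]
          congr 1
          ext x
          simp
  calc _ ≤ ∑ Y ∈ Finset.powersetCard q (Finset.univ : Finset X),
        ρ ^ q * ((Fintype.piFinset Q).card : ℝ) := Finset.sum_le_sum h3
    _ = _ := by
      rw [Finset.sum_const, Finset.card_powersetCard, Finset.card_univ, nsmul_eq_mul]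
      ring

/-- averaging over the choices -/
theorem averaging (q : ℕ) (Q : X → Finset ℕ) (hQne : ∀ x, (Q x).Nonempty) (T : J → Finset ℕ)
    (W ρ : J → ℝ) (hW : ∀ j, 0 ≤ W j) (hρ : ∀ j, 0 ≤ ρ j)
    (hQ : ∀ j x, ((Q x ∩ T j).card : ℝ) ≤ ρ j * (Q x).card)
    (hsum : ∑ j, W j * (((Fintype.card X).choose q : ℝ) * ρ j ^ q) < 1) :
    ∃ d : X → ℕ, (∀ x, d x ∈ Q x) ∧
      ∑ j ∈ Finset.univ.filter (fun j => q ≤ (Finset.univ.filter (fun x => d x ∈ T j)).card),
        W j < 1 := by
  have hne : (Fintype.piFinset Q).Nonempty := by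
    rw [Fintype.piFinset_nonempty]
    exact hQne
  have hpos : (0 : ℝ) < ((Fintype.piFinset Q).card : ℝ) := by
    exact_mod_cast Finset.card_pos.2 hne
  have key : ∃ d ∈ Fintype.piFinset Q,
      ∑ j ∈ Finset.univ.filter (fun j => q ≤ (Finset.univ.filter (fun x => d x ∈ T j)).card),
        W j < 1 := by
    apply Finset.exists_lt_of_sum_lt
    rw [Finset.sum_const, nsmul_eq_mul, mul_one]
    calc ∑ d ∈ Fintype.piFinset Q,
          ∑ j ∈ Finset.univ.filter (fun j => q ≤ (Finset.univ.filter (fun x => d x ∈ T j)).card),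
            W j
        = ∑ d ∈ Fintype.piFinset Q, ∑ j,
            (if q ≤ (Finset.univ.filter (fun x => d x ∈ T j)).card then W j else 0) := by
          apply Finset.sum_congr rfl
          intro d _
          rw [Finset.sum_filter]
      _ = ∑ j, ∑ d ∈ Fintype.piFinset Q,
            (if q ≤ (Finset.univ.filter (fun x => d x ∈ T j)).card then W j else 0) :=
          Finset.sum_comm
      _ = ∑ j, (((Fintype.piFinset Q).filter
            (fun d => q ≤ (Finset.univ.filter (fun x => d x ∈ T j)).card)).card : ℝ) * W j := by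
          apply Finset.sum_congr rfl
          intro j _
          rw [← Finset.sum_filter, Finset.sum_const, nsmul_eq_mul]
      _ ≤ ∑ j, (((Fintype.card X).choose q : ℝ) * ρ j ^ q * ((Fintype.piFinset Q).card : ℝ)) *
            W j := by
          apply Finset.sum_le_sum
          intro j _
          exact mul_le_mul_of_nonneg_right (count_bad q Q (T j) (ρ j) (hρ j) (hQ j)) (hW j)
      _ = (∑ j, W j * (((Fintype.card X).choose q : ℝ) * ρ j ^ q)) *
            ((Fintype.piFinset Q).card : ℝ) := by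
          rw [Finset.sum_mul]
          apply Finset.sum_congr rfl
          intro j _
          ring
      _ < 1 * ((Fintype.piFinset Q).card : ℝ) := mul_lt_mul_of_pos_right hsum hpos
      _ = _ := by ring
  obtain ⟨d, hd, hlt⟩ := key
  exact ⟨d, Fintype.mem_piFinset.1 hd, hlt⟩

end

end Q128.Ohba
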