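import Mathlib
import Pool.Agent.Q128.OhbaB

/-!
# The case of few intermediate colours
-/

set_option autoImplicit false
set_option linter.unusedSectionVars false

namespace Q128.Ohba

open Finset

section

variable {ι X J : Type*} [Fintype ι] [DecidableEq ι] [Fintype X] [DecidableEq X] [Fintype J]

/-- weight of a list with `σ` scarce colours -/
noncomputable def ω (a k m σ : ℕ) : ℝ :=
  if σ < 8 * a then 1 else (1 - (σ : ℝ) / (8 * k)) ^ m

theorem ω_nonneg (a k m σ : ℕ) (h : σ ≤ k) : 0 ≤ ω a k m σ := by
  unfold ω
  split_ifs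
  · norm_num
  · apply pow_nonneg
    rcases Nat.eq_zero_or_pos k with rfl | hk
    · simp
    have : (σ : ℝ) / (8 * k) ≤ 1 := by
      rw [div_le_one (by positivity)]
      have : (σ : ℝ) ≤ k := by exact_mod_cast h
      have : (0 : ℝ) < k := by exact_mod_cast hk
      linarith
    linarith

theorem prod_le_omega (a t k : ℕ) (ha : 2 ≤ a) (hk : 0 < k) (L : ι → Finset ℕ)
    (hι : Fintype.card ι = t) (hL : ∀ i, (L i).card = k) (S : Finset ℕ) (hS : S.card = k)
    (I₁ : Finset ι) (hI₁ : I₁.card = t / 2) :
    ∏ i ∈ I₁, (1 - δ a k (L i) S) ≤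
      ω a k (t / 8) (S.filter (fun z => 4 * a * η L z < t)).card := by
  set T := S.filter (fun z => 4 * a * η L z < t) with hT
  set σ := T.card with hσ
  have hδ0 : ∀ i, 0 ≤ δ a k (L i) S := by
    intro i
    unfold δ
    positivity
  have hδ1 : ∀ i, δ a k (L i) S ≤ 1 := fun i => δ_le a k (L i) S (hL i)
  unfold ω
  split_ifs with hcase
  · apply Finset.prod_le_one
    · intro i _
      linarith [hδ1 i]
    · intro i _
      linarith [hδ0 i]
  · push Not at hcase
    have hσpos : 0 < σ := by omega
    have hσk : σ ≤ k := by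
      rw [← hS]
      exact Finset.card_le_card (Finset.filter_subset _ _)
    -- exceptional indices
    set E := Finset.univ.filter (fun i => 2 * (L i \ S).card < σ) with hE
    have h1 : ∀ i, σ ≤ (L i \ S).card + (L i ∩ T).card := by
      intro i
      have h1 : (L i ∩ S).card + (L i \ S).card = (L i).card :=
        Finset.card_inter_add_card_sdiff _ _
      have h2 : (L i ∩ S).card ≤ (L i ∩ T).card + (S \ T).card := by
        have : L i ∩ S ⊆ (L i ∩ T) ∪ (S \ T) := by
          intro x hx
          simp only [Finset.mem_inter, Finset.mem_union, Finset.mem_sdiff] at hx ⊢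
          tauto
        exact (Finset.card_le_card this).trans (Finset.card_union_le _ _)
      have h3 : (S \ T).card = k - σ := by
        rw [Finset.card_sdiff_of_subset (Finset.filter_subset _ _), hS]
      rw [hL i] at h1
      omega
    have h2 : E.card * σ ≤ ∑ i ∈ E, 2 * (L i ∩ T).card := by
      rw [← smul_eq_mul]
      apply Finset.card_nsmul_le_sum
      intro i hi
      have h3 := (Finset.mem_filter.1 hi).2
      have h4 := h1 i
      omega
    have h3 : ∑ i ∈ E, 2 * (L i ∩ T).card ≤ 2 * ∑ z ∈ T, η L z := by
      rw [← dc, Finset.mul_sum]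
      exact Finset.sum_le_sum_of_subset (Finset.subset_univ _)
    have h4 : 4 * a * ∑ z ∈ T, η L z ≤ σ * t := by
      rw [Finset.mul_sum, ← smul_eq_mul (a := σ)]
      apply Finset.sum_le_card_nsmul
      intro z hz
      exact (Finset.mem_filter.1 hz).2.le
    have h5 : 2 * a * (E.card * σ) ≤ σ * t := by
      calc 2 * a * (E.card * σ) ≤ 2 * a * (2 * ∑ z ∈ T, η L z) :=
            Nat.mul_le_mul_left _ (h2.trans h3)
        _ = 4 * a * ∑ z ∈ T, η L z := by ring
        _ ≤ _ := h4
    have h6 : 2 * a * E.card ≤ t := by
      have : 2 * a * E.card * σ ≤ t * σ := by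
        calc 2 * a * E.card * σ = 2 * a * (E.card * σ) := by ring
          _ ≤ σ * t := h5
          _ = t * σ := by ring
      exact Nat.le_of_mul_le_mul_right this hσpos
    have h7 : 4 * E.card ≤ t := by nlinarith
    have h8 : t / 8 ≤ (I₁ \ E).card := by
      have := Finset.le_card_sdiff E I₁
      omega
    have hx0 : (0 : ℝ) ≤ 1 - (σ : ℝ) / (8 * k) := by
      have hkpos : (0 : ℝ) < k := by exact_mod_cast hk
      have : (σ : ℝ) / (8 * k) ≤ 1 := by
        rw [div_le_one (by positivity)]
        have : (σ : ℝ) ≤ k := by exact_mod_cast hσk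
        linarith
      linarith
    have hx1 : 1 - (σ : ℝ) / (8 * k) ≤ 1 := by
      have : (0 : ℝ) ≤ (σ : ℝ) / (8 * k) := by positivity
      linarith
    calc ∏ i ∈ I₁, (1 - δ a k (L i) S) ≤ ∏ i ∈ I₁ \ E, (1 - δ a k (L i) S) := by
          rw [← Finset.prod_sdiff (s₁ := I₁ \ E) (s₂ := I₁) Finset.sdiff_subset]
          apply mul_le_of_le_one_left
          · apply Finset.prod_nonneg
            intro i _
            linarith [hδ1 i]
          · apply Finset.prod_le_one
            · intro i _
              linarith [hδ1 i]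
            · intro i _
              linarith [hδ0 i]
      _ ≤ ∏ i ∈ I₁ \ E, (1 - (σ : ℝ) / (8 * k)) := by
          apply Finset.prod_le_prod
          · intro i _
            linarith [hδ1 i]
          · intro i hi
            have hiE : ¬ (2 * (L i \ S).card < σ) := by
              intro h
              exact (Finset.mem_sdiff.1 hi).2 (Finset.mem_filter.2 ⟨Finset.mem_univ _, h⟩)
            have h9 : σ ≤ 4 * ((L i \ S).card - 2 * a) := by omega
            have h10 : (σ : ℝ) ≤ 4 * (((L i \ S).card - 2 * a : ℕ) : ℝ) := by exact_mod_cast h9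
            have hkpos : (0 : ℝ) < k := by exact_mod_cast hk
            have : (σ : ℝ) / (8 * k) ≤ δ a k (L i) S := by
              unfold δ
              rw [div_le_div_iff₀ (by positivity) (by positivity)]
              nlinarith
            linarith
      _ = (1 - (σ : ℝ) / (8 * k)) ^ (I₁ \ E).card := by rw [Finset.prod_const]
      _ ≤ _ := pow_le_pow_of_le_one hx0 hx1 h8

theorem case_two (a q t k : ℕ) (ha : 2 ≤ a) (hk : k = t + q + 1) (ht : 2 * a ≤ t)
    (L : ι → Finset ℕ) (hι : Fintype.card ι = t) (hL : ∀ i, (L i).card = k)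
    (P : X → Finset ℕ) (hX : Fintype.card X = a) (hP : ∀ x, (P x).card = k)
    (S : J → Finset ℕ) (hS : ∀ j, (S j).card = k)
    (hI : ∀ x, 8 * a * ((P x).filter
      (fun z => t ≤ 4 * a * η L z ∧ 4 * a * η L z ≤ (4 * a - 1) * t)).card < k)
    (hsum : ∑ j, ((2 : ℝ) ^ a * (a.choose q) / ((t - t / 2 + q).choose q) *
        ω a k (t / 8) ((S j).filter (fun z => 4 * a * η L z < t)).card) *
        ((a.choose q : ℝ) *
          (8 * a * (((S j).filter (fun z => 4 * a * η L z < t)).card : ℝ) / k) ^ q) < 1) :
    ∃ (c : ι → ℕ) (d : X → ℕ), (∀ i, c i ∈ L i) ∧ Function.Injective c ∧ (∀ x, d x ∈ P x) ∧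
      (∀ x i, d x ≠ c i) ∧ ∀ j, ¬ (S j ⊆ Finset.univ.image d ∪ Finset.univ.image c) := by
  classical
  have hkpos : 0 < k := by omega
  have htpos : 0 < t := by omega
  have hkr : (0 : ℝ) < k := by exact_mod_cast hkpos
  -- the common colour
  set 𝒳 : Finset X := Finset.univ.filter
    (fun x => ¬ (k ≤ 8 * a * ((P x).filter (fun z => 4 * a * η L z < t)).card)) with h𝒳
  have hcs : ∃ cs : ℕ, ∀ x ∈ 𝒳, ¬ (4 * a * η L cs < t) ∧ cs ∈ P x := by
    by_cases hne : 𝒳.Nonempty
    · obtain ⟨cs, h1, h2⟩ := common_colour a t k (by omega) htpos hkpos L hι hL P 𝒳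
        (by rw [← hX]; exact Finset.card_le_univ _) hne (by
          intro x hx
          have hx1 := (Finset.mem_filter.1 hx).2
          have hx2 := hI x
          have hx3 : (P x).card ≤ ((P x).filter (fun z => 4 * a * η L z < t)).card +
              (((P x).filter (fun z => t ≤ 4 * a * η L z ∧ 4 * a * η L z ≤ (4 * a - 1) * t)).card +
              ((P x).filter (fun z => (4 * a - 1) * t < 4 * a * η L z)).card) := by
            have : P x ⊆ ((P x).filter (fun z => 4 * a * η L z < t)) ∪
              (((P x).filter (fun z => t ≤ 4 * a * η L z ∧ 4 * a * η L z ≤ (4 * a - 1) * t)) ∪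
              ((P x).filter (fun z => (4 * a - 1) * t < 4 * a * η L z))) := by
              intro z hz
              simp only [Finset.mem_union, Finset.mem_filter, hz, true_and]
              by_cases h1 : 4 * a * η L z < t
              · exact Or.inl h1
              · by_cases h2 : (4 * a - 1) * t < 4 * a * η L z
                · exact Or.inr (Or.inr h2)
                · exact Or.inr (Or.inl ⟨by omega, by omega⟩)
            refine (Finset.card_le_card this).trans ((Finset.card_union_le _ _).trans ?_)
            have := Finset.card_union_le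
              ((P x).filter (fun z => t ≤ 4 * a * η L z ∧ 4 * a * η L z ≤ (4 * a - 1) * t))
              ((P x).filter (fun z => (4 * a - 1) * t < 4 * a * η L z))
            omega
          rw [hP x] at hx3
          set u := ((P x).filter (fun z => 4 * a * η L z < t)).card
          set v := ((P x).filter
            (fun z => t ≤ 4 * a * η L z ∧ 4 * a * η L z ≤ (4 * a - 1) * t)).card
          set w := ((P x).filter (fun z => (4 * a - 1) * t < 4 * a * η L z)).card
          obtain ⟨a', rfl⟩ : ∃ a', a = a' + 1 := ⟨a - 1, by omega⟩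
          have e : 4 * (a' + 1) - 1 = 4 * a' + 3 := by omega
          rw [e]
          push Not at hx1
          nlinarith)
      refine ⟨cs, fun x hx => ⟨?_, h2 x hx⟩⟩
      obtain ⟨a', rfl⟩ : ∃ a', a = a' + 1 := ⟨a - 1, by omega⟩
      have e : 4 * (a' + 1) - 1 = 4 * a' + 3 := by omega
      rw [e] at h1
      have : t ≤ (4 * a' + 3) * t := by nlinarith
      omega
    · refine ⟨0, fun x hx => absurd ⟨x, hx⟩ hne⟩
  obtain ⟨cs, hcs⟩ := hcs
  -- the colours to choose from
  set Q : X → Finset ℕ := fun x => if x ∈ 𝒳 then {cs} else (P x).filter (fun z => 4 * a * η L z < t)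
    with hQ
  have hQ1 : ∀ x ∈ 𝒳, Q x = {cs} := by
    intro x hx
    simp only [hQ, hx, if_true]
  have hQ2 : ∀ x ∉ 𝒳, Q x = (P x).filter (fun z => 4 * a * η L z < t) := by
    intro x hx
    simp only [hQ, hx, if_false]
  have hQ3 : ∀ x ∉ 𝒳, k ≤ 8 * a * (Q x).card := by
    intro x hx
    rw [hQ2 x hx]
    by_contra h
    exact hx (Finset.mem_filter.2 ⟨Finset.mem_univ _, h⟩)
  have hQne : ∀ x, (Q x).Nonempty := by
    intro x
    by_cases hx : x ∈ 𝒳
    · rw [hQ1 x hx]
      exact Finset.singleton_nonempty _
    · have h3 := hQ3 x hx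
      rw [← Finset.card_pos]
      by_contra h0
      have h0' : (Q x).card = 0 := by omega
      rw [h0', Nat.mul_zero] at h3
      omega
  have hQP : ∀ x, Q x ⊆ P x := by
    intro x
    by_cases hx : x ∈ 𝒳
    · rw [hQ1 x hx, Finset.singleton_subset_iff]
      exact (hcs x hx).2
    · rw [hQ2 x hx]
      exact Finset.filter_subset _ _
  set T : J → Finset ℕ := fun j => (S j).filter (fun z => 4 * a * η L z < t) with hT
  obtain ⟨d, hd1, hd2⟩ := averaging q Q hQne T
    (fun j => (2 : ℝ) ^ a * (a.choose q) / ((t - t / 2 + q).choose q) *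
        ω a k (t / 8) (T j).card)
    (fun j => 8 * a * ((T j).card : ℝ) / k)
    (by
      intro j
      have h1 : (T j).card ≤ k := by
        rw [← hS j]
        exact Finset.card_le_card (Finset.filter_subset _ _)
      have := ω_nonneg a k (t / 8) (T j).card h1
      positivity)
    (by intro j; positivity)
    (by
      intro j x
      by_cases hx : x ∈ 𝒳
      · have : Q x ∩ T j = ∅ := by
          rw [hQ1 x hx, Finset.eq_empty_iff_forall_notMem]
          intro z hz
          simp only [Finset.mem_inter, Finset.mem_singleton, hT, Finset.mem_filter] at hz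
          obtain ⟨rfl, _, h⟩ := hz
          exact (hcs x hx).1 h
        rw [this]
        simp only [Finset.card_empty, Nat.cast_zero]
        positivity
      · have h1 : ((Q x ∩ T j).card : ℝ) ≤ ((T j).card : ℝ) := by
          exact_mod_cast Finset.card_le_card Finset.inter_subset_right
        have h2 : (k : ℝ) ≤ 8 * a * ((Q x).card : ℝ) := by exact_mod_cast hQ3 x hx
        refine h1.trans ?_
        rw [div_mul_eq_mul_div, le_div_iff₀ hkr]
        have h3 : (0 : ℝ) ≤ ((T j).card : ℝ) := by positivity
        nlinarith)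
    (by
      rw [hX]
      exact hsum)
  -- the set `F`
  set F := Finset.univ.image d with hF
  have hFa : F.card ≤ a := by
    rw [← hX]
    exact Finset.card_image_le.trans (by rw [Finset.card_univ])
  set E₀ : Finset ι := Finset.univ.filter (fun i => ∃ x, 4 * a * η L (d x) < t ∧ d x ∈ L i) with hE₀
  have hE₀c : 4 * E₀.card ≤ t := by
    have h1 : E₀ ⊆ (Finset.univ.filter (fun x : X => 4 * a * η L (d x) < t)).biUnion
        (fun x => Finset.univ.filter (fun i => d x ∈ L i)) := by
      intro i hi
      obtain ⟨x, hx1, hx2⟩ := (Finset.mem_filter.1 hi).2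
      simp only [Finset.mem_biUnion, Finset.mem_filter, Finset.mem_univ, true_and]
      exact ⟨x, hx1, hx2⟩
    have h2 : E₀.card ≤ ∑ x ∈ Finset.univ.filter (fun x : X => 4 * a * η L (d x) < t),
        η L (d x) := (Finset.card_le_card h1).trans Finset.card_biUnion_le
    have h3 : ∑ x ∈ Finset.univ.filter (fun x : X => 4 * a * η L (d x) < t),
        4 * a * η L (d x) ≤ a * t := by
      have h4 : ∑ x ∈ Finset.univ.filter (fun x : X => 4 * a * η L (d x) < t),
        4 * a * η L (d x) ≤
          (Finset.univ.filter (fun x : X => 4 * a * η L (d x) < t)).card * t := by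
        rw [← smul_eq_mul]
        apply Finset.sum_le_card_nsmul
        intro x hx
        exact (Finset.mem_filter.1 hx).2.le
      refine h4.trans (Nat.mul_le_mul_right _ ?_)
      rw [← hX]
      exact Finset.card_le_univ _
    rw [← Finset.mul_sum] at h3
    have h5 : 4 * a * E₀.card ≤ a * t := (Nat.mul_le_mul_left _ h2).trans h3
    have h6 : a * (4 * E₀.card) ≤ a * t := by
      calc a * (4 * E₀.card) = 4 * a * E₀.card := by ring
        _ ≤ _ := h5
    exact Nat.le_of_mul_le_mul_left h6 (by omega)
  obtain ⟨I₁, hI₁a, hI₁b, hI₁c⟩ := Finset.exists_subsuperset_card_eq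
    (Finset.subset_univ E₀) (n := t / 2) (by omega) (by rw [Finset.card_univ, hι]; omega)
  have hFcs : ∀ z ∈ F, 4 * a * η L z < t ∨ z = cs := by
    intro z hz
    obtain ⟨x, _, rfl⟩ := Finset.mem_image.1 hz
    by_cases hx : x ∈ 𝒳
    · right
      have := hd1 x
      rw [hQ1 x hx] at this
      exact Finset.mem_singleton.1 this
    · left
      have := hd1 x
      rw [hQ2 x hx] at this
      exact (Finset.mem_filter.1 this).2
  obtain ⟨c, hc1, hc2, hc3⟩ := K_lemma a q t k hk hι L hL F hFa S hS
    (Finset.univ.filter (fun j => q ≤ (Finset.univ.filter (fun x => d x ∈ T j)).card)) I₁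
    (by rw [hI₁c]; omega)
    (by
      intro i hi
      rw [Finset.card_le_one]
      have : ∀ z ∈ L i ∩ F, z = cs := by
        intro z hz
        obtain ⟨hz1, hz2⟩ := Finset.mem_inter.1 hz
        rcases hFcs z hz2 with h | h
        · exfalso
          apply hi
          apply hI₁a
          obtain ⟨x, _, rfl⟩ := Finset.mem_image.1 hz2
          exact Finset.mem_filter.2 ⟨Finset.mem_univ _, x, h, hz1⟩
        · exact h
      intro z hz z' hz'
      rw [this z hz, this z' hz'])
    (by
      refine lt_of_le_of_lt ?_ hd2
      apply Finset.sum_le_sum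
      intro j _
      rw [hI₁c]
      apply mul_le_mul_of_nonneg_left _ (by positivity)
      exact prod_le_omega a t k ha hkpos L hι hL (S j) (hS j) I₁ hI₁c)
  refine ⟨c, d, fun i => (hc1 i).1, hc2, fun x => hQP x (hd1 x), ?_, ?_⟩
  · intro x i h
    exact (hc1 i).2 (by rw [← h]; exact Finset.mem_image_of_mem _ (Finset.mem_univ x))
  · intro j
    by_cases hj : q ≤ (Finset.univ.filter (fun x => d x ∈ T j)).card
    · exact hc3 j (Finset.mem_filter.2 ⟨Finset.mem_univ _, hj⟩)
    · intro hsub
      push Not at hj
      have h1 : S j ⊆ ((Finset.univ.filter (fun x => d x ∈ T j)).image d ∪ {cs}) ∪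
          Finset.univ.image c := by
        intro z hz
        have hz' := hsub hz
        rw [Finset.mem_union] at hz'
        rcases hz' with hz' | hz'
        · rw [Finset.mem_union, Finset.mem_union]
          left
          rcases hFcs z hz' with h | h
          · left
            obtain ⟨x, _, rfl⟩ := Finset.mem_image.1 hz'
            apply Finset.mem_image_of_mem
            simp only [Finset.mem_filter, Finset.mem_univ, true_and, hT]
            exact ⟨hz, h⟩
          · right
            exact Finset.mem_singleton.2 h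
        · exact Finset.mem_union_right _ hz'
      have h2 := Finset.card_le_card h1
      have h3 := Finset.card_union_le ((Finset.univ.filter (fun x => d x ∈ T j)).image d ∪ {cs})
        (Finset.univ.image c)
      have h4 := Finset.card_union_le ((Finset.univ.filter (fun x => d x ∈ T j)).image d) {cs}
      have h5 : ((Finset.univ.filter (fun x => d x ∈ T j)).image d).card ≤
        (Finset.univ.filter (fun x => d x ∈ T j)).card := Finset.card_image_le
      have h6 : (Finset.univ.image c).card ≤ t := by
        refine Finset.card_image_le.trans ?_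
        rw [Finset.card_univ, hι]
      rw [hS j] at h2
      rw [Finset.card_singleton] at h4
      omega

end

end Q128.Ohba
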