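import Mathlib
import Pool.Agent.Q128.OhbaC

/-!
# The upper bound
-/

set_option autoImplicit false
set_option linter.unusedSectionVars false

namespace Q128.Ohba

open Finset Filter

/-- a constant -/
noncomputable def C5 (a q : ℕ) : ℝ :=
  2 ^ a * (a.choose q) ^ 2 * (q.factorial) * (16 * a) ^ q *
    ((8 * a) ^ q + 128 ^ q * (q.factorial))

theorem C5_nonneg (a q : ℕ) : 0 ≤ C5 a q := by
  unfold C5
  positivity

theorem binom_single (m q : ℕ) (z : ℝ) (hz : 0 ≤ z) (hz1 : z ≤ 1) :
    z ^ q * (1 - z) ^ m * ((m + q).choose q : ℝ) ≤ 1 := by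
  have h := add_pow z (1 - z) (m + q)
  have h1 : z + (1 - z) = 1 := by ring
  rw [h1, one_pow] at h
  have h2 : z ^ q * (1 - z) ^ (m + q - q) * ((m + q).choose q : ℝ) ≤
      ∑ i ∈ Finset.range (m + q + 1), z ^ i * (1 - z) ^ (m + q - i) * ((m + q).choose i : ℝ) := by
    apply Finset.single_le_sum (f := fun i => z ^ i * (1 - z) ^ (m + q - i) *
      ((m + q).choose i : ℝ))
    · intro i _
      have : 0 ≤ 1 - z := by linarith
      positivity
    · rw [Finset.mem_range]
      omega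
  rw [Nat.add_sub_cancel] at h2
  linarith

theorem choose_lower (n q : ℕ) : ((n + 1 : ℕ) : ℝ) ^ q / q.factorial ≤ ((n + q).choose q : ℝ) := by
  have := Nat.pow_le_choose (α := ℝ) q (n + q)
  have e : n + q + 1 - q = n + 1 := by omega
  rw [e] at this
  exact this

theorem sigma_bound (a q t k σ : ℕ) (hk : k = t + q + 1) (ht : q + 1 ≤ t) (hσ : σ ≤ k) :
    (σ : ℝ) ^ q * ω a k (t / 8) σ ≤ (8 * a) ^ q + 128 ^ q * (q.factorial) := by
  have htr : (0 : ℝ) < t := by
    have : 0 < t := by omega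
    exact_mod_cast this
  have hkr : (0 : ℝ) < k := by
    have : 0 < k := by omega
    exact_mod_cast this
  unfold ω
  split_ifs with h
  · have h1 : (σ : ℝ) ≤ 8 * a := by exact_mod_cast h.le
    have h2 : (σ : ℝ) ^ q ≤ (8 * a) ^ q := pow_le_pow_left₀ (by positivity) h1 q
    have h3 : (0 : ℝ) ≤ 128 ^ q * (q.factorial) := by positivity
    linarith
  · set z : ℝ := (σ : ℝ) / (8 * k) with hz
    have hz0 : 0 ≤ z := by positivity
    have hσr : (σ : ℝ) ≤ k := by exact_mod_cast hσ
    have hz1 : z ≤ 1 := by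
      rw [hz, div_le_one (by positivity)]
      linarith
    have hb := binom_single (t / 8) q z hz0 hz1
    have hc := choose_lower (t / 8) q
    have hσz : (σ : ℝ) = 8 * k * z := by
      rw [hz]
      field_simp
    have hm : (t : ℝ) / 8 ≤ ((t / 8 + 1 : ℕ) : ℝ) := by
      rw [div_le_iff₀ (by norm_num)]
      have : t ≤ (t / 8 + 1) * 8 := by omega
      exact_mod_cast this
    have hk2 : (k : ℝ) ≤ 2 * t := by
      have : k ≤ 2 * t := by omega
      exact_mod_cast this
    have hfac : (0 : ℝ) < q.factorial := by exact_mod_cast Nat.factorial_pos q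
    have h1z : 0 ≤ 1 - z := by linarith
    have hA : 0 ≤ z ^ q * (1 - z) ^ (t / 8) := by positivity
    -- `z^q (1-z)^m (t/8)^q ≤ q!`
    have h1 : z ^ q * (1 - z) ^ (t / 8) * ((t : ℝ) / 8) ^ q ≤ q.factorial := by
      have h2 : ((t : ℝ) / 8) ^ q ≤ (((t / 8 + 1 : ℕ) : ℝ)) ^ q :=
        pow_le_pow_left₀ (by positivity) hm q
      have h3 : (((t / 8 + 1 : ℕ) : ℝ)) ^ q ≤ (((t / 8 + q).choose q : ℕ) : ℝ) * q.factorial := by
        rwa [div_le_iff₀ hfac] at hc
      calc z ^ q * (1 - z) ^ (t / 8) * ((t : ℝ) / 8) ^ q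
          ≤ z ^ q * (1 - z) ^ (t / 8) * ((((t / 8 + q).choose q : ℕ) : ℝ) * q.factorial) :=
            mul_le_mul_of_nonneg_left (h2.trans h3) hA
        _ = (z ^ q * (1 - z) ^ (t / 8) * (((t / 8 + q).choose q : ℕ) : ℝ)) * q.factorial := by
            ring
        _ ≤ 1 * q.factorial := mul_le_mul_of_nonneg_right hb hfac.le
        _ = _ := by ring
    have h4 : (σ : ℝ) ^ q * (1 - z) ^ (t / 8) ≤ 128 ^ q * q.factorial := by
      rw [hσz]
      calc (8 * (k : ℝ) * z) ^ q * (1 - z) ^ (t / 8)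
          = (8 * (k : ℝ)) ^ q * (z ^ q * (1 - z) ^ (t / 8)) := by rw [mul_pow]; ring
        _ ≤ (128 * ((t : ℝ) / 8)) ^ q * (z ^ q * (1 - z) ^ (t / 8)) := by
            apply mul_le_mul_of_nonneg_right _ hA
            apply pow_le_pow_left₀ (by positivity)
            linarith
        _ = 128 ^ q * (z ^ q * (1 - z) ^ (t / 8) * ((t : ℝ) / 8) ^ q) := by
            rw [mul_pow]; ring
        _ ≤ _ := mul_le_mul_of_nonneg_left h1 (by positivity)
    have h5 : (0 : ℝ) ≤ (8 * a) ^ q := by positivity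
    linarith

theorem term_bound (a q t k σ : ℕ) (hk : k = t + q + 1) (ht : q + 1 ≤ t)
    (hσ : σ ≤ k) :
    ((2 : ℝ) ^ a * (a.choose q) / ((t - t / 2 + q).choose q) * ω a k (t / 8) σ) *
        ((a.choose q : ℝ) * (8 * a * (σ : ℝ) / k) ^ q) ≤ C5 a q / (t : ℝ) ^ (2 * q) := by
  have htr : (0 : ℝ) < t := by
    have : 0 < t := by omega
    exact_mod_cast this
  have hkr : (0 : ℝ) < k := by
    have : 0 < k := by omega
    exact_mod_cast this
  have hfac : (0 : ℝ) < q.factorial := by exact_mod_cast Nat.factorial_pos q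
  have hω := ω_nonneg a k (t / 8) σ hσ
  have hs := sigma_bound a q t k σ hk ht hσ
  have hc := choose_lower (t - t / 2) q
  have hn : (t : ℝ) / 2 ≤ ((t - t / 2 + 1 : ℕ) : ℝ) := by
    rw [div_le_iff₀ (by norm_num)]
    have : t ≤ (t - t / 2 + 1) * 2 := by omega
    exact_mod_cast this
  have hCpos : (0 : ℝ) < ((t - t / 2 + q).choose q : ℝ) := by
    exact_mod_cast Nat.choose_pos (by omega)
  have hinv : 1 / ((t - t / 2 + q).choose q : ℝ) ≤ q.factorial * 2 ^ q / (t : ℝ) ^ q := by
    rw [div_le_div_iff₀ hCpos (by positivity), one_mul]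
    have h2 : ((t : ℝ) / 2) ^ q ≤ (((t - t / 2 + 1 : ℕ) : ℝ)) ^ q :=
      pow_le_pow_left₀ (by positivity) hn q
    have h3 : (((t - t / 2 + 1 : ℕ) : ℝ)) ^ q ≤
        (((t - t / 2 + q).choose q : ℕ) : ℝ) * q.factorial := by
      rwa [div_le_iff₀ hfac] at hc
    calc (t : ℝ) ^ q = ((t : ℝ) / 2) ^ q * 2 ^ q := by rw [← mul_pow]; congr 1; ring
      _ ≤ ((((t - t / 2 + q).choose q : ℕ) : ℝ) * q.factorial) * 2 ^ q :=
          mul_le_mul_of_nonneg_right (h2.trans h3) (by positivity)
      _ = _ := by ring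
  have hkt : (1 : ℝ) / (k : ℝ) ^ q ≤ 1 / (t : ℝ) ^ q := by
    apply one_div_le_one_div_of_le (by positivity)
    apply pow_le_pow_left₀ htr.le
    have : t ≤ k := by omega
    exact_mod_cast this
  have e1 : ((2 : ℝ) ^ a * (a.choose q) / ((t - t / 2 + q).choose q) * ω a k (t / 8) σ) *
        ((a.choose q : ℝ) * (8 * a * (σ : ℝ) / k) ^ q) =
      (2 ^ a * (a.choose q : ℝ) ^ 2 * (8 * a) ^ q) * ((σ : ℝ) ^ q * ω a k (t / 8) σ) *
        ((1 / ((t - t / 2 + q).choose q : ℝ)) * (1 / (k : ℝ) ^ q)) := by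
    rw [div_pow, mul_pow]
    field_simp
  have e2 : C5 a q / (t : ℝ) ^ (2 * q) =
      (2 ^ a * (a.choose q : ℝ) ^ 2 * (8 * a) ^ q) * ((8 * a) ^ q + 128 ^ q * (q.factorial)) *
        ((q.factorial * 2 ^ q / (t : ℝ) ^ q) * (1 / (t : ℝ) ^ q)) := by
    unfold C5
    rw [two_mul q, pow_add, show (16 * (a : ℝ)) = 2 * (8 * a) by ring, mul_pow 2 (8 * (a : ℝ)) q]
    field_simp
  rw [e1, e2]
  apply mul_le_mul
  · exact mul_le_mul_of_nonneg_left hs (by positivity)
  · apply mul_le_mul hinv hkt (by positivity) (by positivity)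
  · positivity
  · positivity

/-- The combinatorial upper bound. -/
theorem upper (a q : ℕ) (ha : 2 ≤ a) :
    ∃ (D : ℝ) (t0 : ℕ), 1 ≤ D ∧ ∀ t b : ℕ, t0 ≤ t → D * b ≤ (t : ℝ) ^ (2 * q) →
      ∀ (L : Fin t → Finset ℕ) (P : Fin a → Finset ℕ) (S : Fin b → Finset ℕ),
        (∀ i, (L i).card = t + q + 1) → (∀ x, (P x).card = t + q + 1) →
        (∀ j, (S j).card = t + q + 1) →
        ∃ (c : Fin t → ℕ) (d : Fin a → ℕ), (∀ i, c i ∈ L i) ∧ Function.Injective c ∧
          (∀ x, d x ∈ P x) ∧ (∀ x i, d x ≠ c i) ∧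
          ∀ j, ¬ (S j ⊆ Finset.univ.image d ∪ Finset.univ.image c) := by
  -- the exponential is small
  have hapos : (0 : ℝ) < a := by
    have : 0 < a := by omega
    exact_mod_cast this
  have hexp : ∀ᶠ t : ℕ in atTop, (t : ℝ) ^ (2 * q) * Real.exp (a - t / (128 * a ^ 2)) <
      (1 / 2 : ℝ) ^ a := by
    have h1 : Tendsto (fun x : ℝ => x ^ (2 * q) * Real.exp (-x)) atTop (nhds 0) :=
      Real.tendsto_pow_mul_exp_neg_atTop_nhds_zero (2 * q)
    have h2 : Tendsto (fun t : ℕ => (t : ℝ) / (128 * a ^ 2)) atTop atTop :=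
      tendsto_natCast_atTop_atTop.atTop_div_const (by positivity)
    have h3 := (h1.comp h2).const_mul (((128 : ℝ) * a ^ 2) ^ (2 * q) * Real.exp a)
    rw [mul_zero] at h3
    have h4 : (0 : ℝ) < (1 / 2 : ℝ) ^ a := by positivity
    filter_upwards [h3.eventually (gt_mem_nhds h4)] with t ht
    refine lt_of_eq_of_lt ?_ ht
    simp only [Function.comp]
    rw [div_pow, sub_eq_add_neg, Real.exp_add]
    field_simp
  obtain ⟨t1, ht1⟩ := Filter.eventually_atTop.1 hexp
  refine ⟨C5 a q + 1, max t1 (2 * a + q + 1), by linarith [C5_nonneg a q], ?_⟩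
  intro t b ht hb L P S hL hP hS
  have ht1' := ht1 t (le_trans (le_max_left _ _) ht)
  have ht2 : 2 * a + q + 1 ≤ t := le_trans (le_max_right _ _) ht
  have htr : (0 : ℝ) < t := by
    have : 0 < t := by omega
    exact_mod_cast this
  have hb0 : (0 : ℝ) ≤ b := by positivity
  have hC := C5_nonneg a q
  by_cases hI : ∃ x, t + q + 1 ≤ 8 * a * ((P x).filter
      (fun z => t ≤ 4 * a * η L z ∧ 4 * a * η L z ≤ (4 * a - 1) * t)).card
  · obtain ⟨x, hx⟩ := hI
    obtain ⟨c, h1, h2, h3⟩ := case_one a q t (t + q + 1) (by omega) rfl L (by simp) hL S hS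
      ((P x).filter (fun z => t ≤ 4 * a * η L z ∧ 4 * a * η L z ≤ (4 * a - 1) * t))
      (fun z hz => (Finset.mem_filter.1 hz).2) hx (by
        rw [Fintype.card_fin]
        refine lt_of_le_of_lt ?_ ht1'
        apply mul_le_mul_of_nonneg_right _ (Real.exp_pos _).le
        nlinarith)
    have hd : ∀ x, ∃ z ∈ P x, ∀ i, z ≠ c i := by
      intro x
      have : ¬ (P x ⊆ Finset.univ.image c) := by
        intro hsub
        have h4 := Finset.card_le_card hsub
        have h5 : (Finset.univ.image c).card ≤ t := by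
          refine Finset.card_image_le.trans ?_
          simp
        rw [hP x] at h4
        omega
      rw [Finset.not_subset] at this
      obtain ⟨z, hz1, hz2⟩ := this
      refine ⟨z, hz1, fun i hi => hz2 ?_⟩
      rw [hi]
      exact Finset.mem_image_of_mem _ (Finset.mem_univ i)
    choose d hd1 hd2 using hd
    refine ⟨c, d, h1, h2, hd1, hd2, fun j => h3 j _ ?_⟩
    refine Finset.card_image_le.trans ?_
    simp
  · push Not at hI
    exact case_two a q t (t + q + 1) ha rfl (by omega) L (by simp) hL P (by simp) hP S hS hI (by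
      calc _ ≤ ∑ j : Fin b, C5 a q / (t : ℝ) ^ (2 * q) := by
            apply Finset.sum_le_sum
            intro j _
            apply term_bound a q t (t + q + 1) _ rfl (by omega)
            rw [← hS j]
            exact Finset.card_le_card (Finset.filter_subset _ _)
        _ = b * (C5 a q / (t : ℝ) ^ (2 * q)) := by
            rw [Finset.sum_const, Finset.card_univ, Fintype.card_fin, nsmul_eq_mul]
        _ < 1 := by
            rw [mul_div_assoc', div_lt_one (by positivity)]
            rcases Nat.eq_zero_or_pos b with rfl | hbpos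
            · simp only [Nat.cast_zero, zero_mul]
              positivity
            · have : (0 : ℝ) < b := by exact_mod_cast hbpos
              nlinarith)

end Q128.Ohba
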