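import Mathlib

/-!
# `F`-free colourings, the paw, and the graphs `host k`
-/

namespace Pool.Agent.Q128.Paw

universe u v w x

/-- `c` is an `F`-free colouring of `H`: no colour class induces a graph with an induced subgraph
isomorphic to `F`. -/
def IsFreeColoring {W : Type u} {U : Type v} {κ : Type w} (H : SimpleGraph W) (F : SimpleGraph U)
    (c : W → κ) : Prop :=
  ∀ i : κ, IsEmpty (F ↪g H.induce {v | c v = i})

/-- `χ(H : -F) = k`: the number `k` is the least number of colours of an `F`-free colouring
of `H`. -/
def FreeChromaticNumberEq {W : Type u} {U : Type v} (H : SimpleGraph W) (F : SimpleGraph U)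
    (k : ℕ) : Prop :=
  IsLeast {k : ℕ | ∃ c : W → Fin k, IsFreeColoring H F c} k

/-- `F ≍_n G`: some finite graph `H` satisfies `χ(H : -F) = χ(H : -G) = n`. -/
def Related {U : Type u} {V : Type v} (n : ℕ) (F : SimpleGraph U) (G : SimpleGraph V) : Prop :=
  ∃ (W : Type) (_ : Finite W) (H : SimpleGraph W),
    FreeChromaticNumberEq H F n ∧ FreeChromaticNumberEq H G n

/-- The paw: the triangle `0, 1, 2` and the vertex `3` adjacent to `0` only. -/
def paw : SimpleGraph (Fin 4) :=
  SimpleGraph.fromEdgeSet {s(0, 1), s(0, 2), s(1, 2), s(0, 3)}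

/-- The shift graph on pairs of elements of `Fin N`: the pairs `(a, b)` and `(b, c)` with
`a < b < c` are adjacent. -/
def shift (N : ℕ) : SimpleGraph (Fin N × Fin N) where
  Adj p q := p.1 < p.2 ∧ q.1 < q.2 ∧ (p.2 = q.1 ∨ q.2 = p.1)
  symm := ⟨fun _ _ h => ⟨h.2.1, h.1, h.2.2.symm⟩⟩
  loopless := ⟨fun p h => by
    rcases h.2.2 with h' | h'
    · exact absurd h.1 (by rw [h']; exact lt_irrefl _)
    · exact absurd h.1 (by rw [h']; exact lt_irrefl _)⟩

/-- The graph `host k`: the disjoint union of the complete graph on `2 k + 1` vertices and the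
shift graph on the pairs of `2 ^ (2 k) + 1` points, together with one further vertex (`none`)
adjacent to all others. -/
def host (k : ℕ) :
    SimpleGraph (Option (Fin (2 * k + 1) ⊕ (Fin (2 ^ (2 * k) + 1) × Fin (2 ^ (2 * k) + 1)))) where
  Adj x y := match x, y with
    | none, none => False
    | none, some _ => True
    | some _, none => True
    | some (Sum.inl a), some (Sum.inl b) => a ≠ b
    | some (Sum.inr p), some (Sum.inr q) => (shift (2 ^ (2 * k) + 1)).Adj p q
    | some (Sum.inl _), some (Sum.inr _) => False
    | some (Sum.inr _), some (Sum.inl _) => False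
  symm := ⟨fun x y h => by
    rcases x with _ | x | x <;> rcases y with _ | y | y <;> first | trivial | exact h.symm⟩
  loopless := ⟨fun x h => by
    rcases x with _ | x | x
    · exact h
    · exact h rfl
    · exact (shift _).loopless.irrefl _ h⟩

end Pool.Agent.Q128.Paw
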