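import Mathlib

/-!
# Assignments with capacities and obligatory colours
-/

set_option autoImplicit false

namespace Q128.Prop

open Finset

/-- Hall's theorem with capacities `u c` of the colours and a set `M` of colours that have to be
used. -/
theorem hall_cap {V : Type*} [Fintype V] [DecidableEq V] (L : V → Finset ℕ) (u : ℕ → ℕ)
    (M : Finset ℕ) (hu : ∀ c ∈ M, 1 ≤ u c)
    (ha : ∀ X : Finset V, X.card ≤ ∑ c ∈ X.biUnion L, u c)
    (hb : ∀ Y ⊆ M, Y.card ≤ (Finset.univ.filter (fun v => ∃ c ∈ Y, c ∈ L v)).card) :
    ∃ f : V → ℕ, (∀ v, f v ∈ L v) ∧ (∀ c, (Finset.univ.filter (fun v => f v = c)).card ≤ u c) ∧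
      ∀ c ∈ M, ∃ v, f v = c := by
  classical
  set U : Finset ℕ := Finset.univ.biUnion L with hU
  have hMU : ∀ c ∈ M, c ∈ U := by
    intro c hc
    have h := hb {c} (by simpa using hc)
    rw [Finset.card_singleton] at h
    obtain ⟨v, hv⟩ := Finset.card_pos.1 (by omega :
      0 < (Finset.univ.filter (fun v => ∃ c' ∈ ({c} : Finset ℕ), c' ∈ L v)).card)
    obtain ⟨c', hc', hcv⟩ := (Finset.mem_filter.1 hv).2
    rw [Finset.mem_singleton] at hc'
    subst hc'
    exact Finset.mem_biUnion.2 ⟨v, Finset.mem_univ _, hcv⟩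
  -- the copies of the colours
  let K := Σ c : U, Fin (u c.1)
  have hKcard : Fintype.card K = ∑ c ∈ U, u c := by
    rw [Fintype.card_sigma]
    simp only [Fintype.card_fin]
    rw [Finset.sum_coe_sort U (fun c => u c)]
  have hVK : Fintype.card V ≤ Fintype.card K := by
    rw [hKcard]
    exact ha Finset.univ
  set z := Fintype.card K - Fintype.card V with hz
  let t : K → Finset (V ⊕ Fin z) := fun p =>
    (Finset.univ.filter (fun v => p.1.1 ∈ L v)).map ⟨Sum.inl, Sum.inl_injective⟩ ∪
      (if p.1.1 ∈ M ∧ p.2.1 = 0 then ∅ else Finset.univ.map ⟨Sum.inr, Sum.inr_injective⟩)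
  have hall : ∀ s : Finset K, s.card ≤ (s.biUnion t).card := by
    intro s
    set Ns : Finset V := Finset.univ.filter (fun v => ∃ p ∈ s, p.1.1 ∈ L v) with hNs
    by_cases hs : ∀ p ∈ s, p.1.1 ∈ M ∧ p.2.1 = 0
    · -- only obligatory copies
      set Y : Finset ℕ := s.image (fun p => p.1.1) with hY
      have hYs : s.card = Y.card := by
        rw [hY, Finset.card_image_of_injOn]
        intro p hp p' hp' h
        obtain ⟨⟨c, hc⟩, j⟩ := p
        obtain ⟨⟨c', hc'⟩, j'⟩ := p'
        simp only at h
        subst h
        have h1 := (hs _ hp).2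
        have h2 := (hs _ hp').2
        simp only at h1 h2
        have : j = j' := Fin.ext (by rw [h1, h2])
        rw [this]
      have hYM : Y ⊆ M := by
        intro c hc
        obtain ⟨p, hp, rfl⟩ := Finset.mem_image.1 hc
        exact (hs p hp).1
      rw [hYs]
      refine (hb Y hYM).trans ?_
      have hsub : (Finset.univ.filter (fun v => ∃ c ∈ Y, c ∈ L v)).map
          ⟨(Sum.inl : V → V ⊕ Fin z), Sum.inl_injective⟩ ⊆ s.biUnion t := by
        intro w hw
        obtain ⟨v, hv, rfl⟩ := Finset.mem_map.1 hw
        obtain ⟨c, hc, hcv⟩ := (Finset.mem_filter.1 hv).2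
        obtain ⟨p, hp, rfl⟩ := Finset.mem_image.1 hc
        refine Finset.mem_biUnion.2 ⟨p, hp, ?_⟩
        apply Finset.mem_union_left
        exact Finset.mem_map_of_mem _ (Finset.mem_filter.2 ⟨Finset.mem_univ _, hcv⟩)
      have := Finset.card_le_card hsub
      rwa [Finset.card_map] at this
    · push Not at hs
      obtain ⟨p0, hp0, hp0'⟩ := hs
      have hsub : Ns.map ⟨(Sum.inl : V → V ⊕ Fin z), Sum.inl_injective⟩ ∪
          (Finset.univ : Finset (Fin z)).map ⟨(Sum.inr : Fin z → V ⊕ Fin z), Sum.inr_injective⟩ ⊆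
            s.biUnion t := by
        intro w hw
        rcases Finset.mem_union.1 hw with hw | hw
        · obtain ⟨v, hv, rfl⟩ := Finset.mem_map.1 hw
          obtain ⟨p, hp, hpv⟩ := (Finset.mem_filter.1 hv).2
          refine Finset.mem_biUnion.2 ⟨p, hp, ?_⟩
          apply Finset.mem_union_left
          exact Finset.mem_map_of_mem _ (Finset.mem_filter.2 ⟨Finset.mem_univ _, hpv⟩)
        · refine Finset.mem_biUnion.2 ⟨p0, hp0, ?_⟩
          apply Finset.mem_union_right
          rw [if_neg (by rintro ⟨h1, h2⟩; exact hp0' h1 h2)]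
          exact hw
      have h1 := Finset.card_le_card hsub
      rw [Finset.card_union_of_disjoint, Finset.card_map, Finset.card_map, Finset.card_univ,
        Fintype.card_fin] at h1
      swap
      · rw [Finset.disjoint_left]
        intro w hw hw'
        obtain ⟨v, _, rfl⟩ := Finset.mem_map.1 hw
        obtain ⟨v', _, h⟩ := Finset.mem_map.1 hw'
        simp at h
      -- the complement
      set X : Finset V := Nsᶜ with hX
      have hXcard : X.card + Ns.card = Fintype.card V := by
        rw [hX]
        exact Finset.card_compl_add_card Ns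
      have h2 := ha X
      have h3 : ∑ c ∈ X.biUnion L, u c ≤ sᶜ.card := by
        have hsub2 : (Finset.univ.filter (fun p : K => p.1.1 ∈ X.biUnion L)) ⊆ sᶜ := by
          intro p hp
          rw [Finset.mem_compl]
          intro hps
          obtain ⟨v, hv, hpv⟩ := Finset.mem_biUnion.1 (Finset.mem_filter.1 hp).2
          rw [hX, Finset.mem_compl] at hv
          exact hv (Finset.mem_filter.2 ⟨Finset.mem_univ _, p, hps, hpv⟩)
        refine le_trans (le_of_eq ?_) (Finset.card_le_card hsub2)
        have h5 : X.biUnion L ⊆ U := Finset.biUnion_subset_biUnion_of_subset_left L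
          (Finset.subset_univ X)
        have h4 : ∀ c : U, (∑ _j : Fin (u c.1), if c.1 ∈ X.biUnion L then 1 else 0) =
            if c.1 ∈ X.biUnion L then u c.1 else 0 := by
          intro c
          split_ifs <;> simp
        rw [Finset.card_filter, Fintype.sum_sigma]
        simp only [h4]
        rw [Finset.sum_coe_sort U (fun c => if c ∈ X.biUnion L then u c else 0),
          ← Finset.sum_filter]
        congr 1
        ext c
        simp only [Finset.mem_filter]
        exact ⟨fun h => ⟨h5 h, h⟩, fun h => h.2⟩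
      have h6 : sᶜ.card + s.card = Fintype.card K := Finset.card_compl_add_card s
      omega
  obtain ⟨F, hF1, hF2⟩ := (Finset.all_card_le_biUnion_card_iff_exists_injective t).1 hall
  have hcard : Fintype.card K = Fintype.card (V ⊕ Fin z) := by
    rw [Fintype.card_sum, Fintype.card_fin]
    omega
  have hFbij : Function.Bijective F := (Fintype.bijective_iff_injective_and_card F).2 ⟨hF1, hcard⟩
  have hex : ∀ v : V, ∃ p : K, F p = Sum.inl v := fun v => hFbij.2 _
  choose P hP using hex
  have hPinj : Function.Injective P := by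
    intro v v' h
    have h1 := hP v
    rw [h, hP v'] at h1
    exact (Sum.inl_injective h1).symm
  have hPL : ∀ v, (P v).1.1 ∈ L v := by
    intro v
    have h := hF2 (P v)
    rw [hP v] at h
    rcases Finset.mem_union.1 h with h | h
    · obtain ⟨w, hw, hwv⟩ := Finset.mem_map.1 h
      have : w = v := Sum.inl_injective hwv
      subst this
      exact (Finset.mem_filter.1 hw).2
    · exfalso
      split_ifs at h
      · simp at h
      · obtain ⟨w, _, hwv⟩ := Finset.mem_map.1 h
        simp at hwv
  refine ⟨fun v => (P v).1.1, hPL, ?_, ?_⟩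
  · intro c
    by_cases hc : c ∈ U
    · have hmap : ∀ v ∈ Finset.univ.filter (fun v => (P v).1.1 = c),
          P v ∈ (Finset.univ : Finset (Fin (u c))).image (fun j => (⟨⟨c, hc⟩, j⟩ : K)) := by
        intro v hv
        have h1 := (Finset.mem_filter.1 hv).2
        generalize hp : P v = p at h1
        obtain ⟨⟨c', hc'⟩, j⟩ := p
        simp only at h1
        subst h1
        exact Finset.mem_image.2 ⟨j, Finset.mem_univ _, rfl⟩
      have h2 := Finset.card_le_card_of_injOn P hmap (fun v _ v' _ h => hPinj h)
      refine h2.trans (Finset.card_image_le.trans ?_)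
      simp
    · have : Finset.univ.filter (fun v => (P v).1.1 = c) = ∅ := by
        rw [Finset.eq_empty_iff_forall_notMem]
        intro v hv
        have h1 := (Finset.mem_filter.1 hv).2
        exact hc (h1 ▸ (P v).1.2)
      rw [this]
      simp
  · intro c hc
    have hcU := hMU c hc
    have h := hF2 (⟨⟨c, hcU⟩, ⟨0, hu c hc⟩⟩ : K)
    rcases Finset.mem_union.1 h with h | h
    · obtain ⟨v, _, hv⟩ := Finset.mem_map.1 h
      refine ⟨v, ?_⟩
      have h1 : F (P v) = F (⟨⟨c, hcU⟩, ⟨0, hu c hc⟩⟩ : K) := by
        rw [hP v]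
        exact hv
      have h2 := hF1 h1
      change (P v).1.1 = c
      rw [h2]
    · exfalso
      rw [if_pos ⟨hc, rfl⟩] at h
      simp at h

end Q128.Prop
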