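import Mathlib
import Pool.Agent.Q128.PropHall

/-!
# Proportional list colourings of complete bipartite graphs
-/

set_option autoImplicit false
set_option linter.unusedVariables false
set_option linter.unusedSectionVars false

namespace Q128.Prop

open Finset

section general

variable {V : Type*} [Fintype V] [DecidableEq V]

/-- double counting -/
theorem dcount (L : V → Finset ℕ) (X : Finset V) (W : Finset ℕ) (h : ∀ v ∈ X, L v ⊆ W) :
    ∑ v ∈ X, (L v).card = ∑ c ∈ W, (X.filter (fun v => c ∈ L v)).card := by
  have h1 : ∀ v ∈ X, (L v).card = ∑ c ∈ W, if c ∈ L v then 1 else 0 := by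
    intro v hv
    rw [← Finset.card_filter, Finset.filter_mem_eq_inter, Finset.inter_eq_right.2 (h v hv)]
  have h2 : ∀ c ∈ W, (X.filter (fun v => c ∈ L v)).card = ∑ v ∈ X, if c ∈ L v then 1 else 0 := by
    intro c _
    rw [Finset.card_filter]
  rw [Finset.sum_congr rfl h1, Finset.sum_congr rfl h2, Finset.sum_comm]

theorem dcount_le (L : V → Finset ℕ) (X : Finset V) (W : Finset ℕ) :
    ∑ c ∈ W, (X.filter (fun v => c ∈ L v)).card ≤ ∑ v ∈ X, (L v).card := by
  have h1 : ∀ v ∈ X, ∑ c ∈ W, (if c ∈ L v then 1 else 0) ≤ (L v).card := by
    intro v hv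
    rw [← Finset.card_filter, Finset.filter_mem_eq_inter]
    exact Finset.card_le_card Finset.inter_subset_right
  have h2 : ∀ c ∈ W, (X.filter (fun v => c ∈ L v)).card = ∑ v ∈ X, if c ∈ L v then 1 else 0 := by
    intro c _
    rw [Finset.card_filter]
  rw [Finset.sum_congr rfl h2, Finset.sum_comm]
  exact Finset.sum_le_sum h1

/-- multiplicity of the colour `c` -/
def mult (L : V → Finset ℕ) (c : ℕ) : ℕ := (Finset.univ.filter (fun v => c ∈ L v)).card

/-- the largest admissible size of the colour class -/
def cap (L : V → Finset ℕ) (k c : ℕ) : ℕ := if k < mult L c then 2 else 1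

theorem cap_pos (L : V → Finset ℕ) (k c : ℕ) : 1 ≤ cap L k c := by
  unfold cap
  split_ifs <;> omega

end general

variable {n m : ℕ}

/-- A relaxed colouring such that the colours of `R` are not used on the small part. -/
theorem relaxed (k : ℕ) (L : Fin n ⊕ Fin m → Finset ℕ) (hL : ∀ v, (L v).card = k)
    (hk : n + m ≤ 2 * k) (R : Finset ℕ) (hR : n * R.card < k) :
    ∃ f : Fin n ⊕ Fin m → ℕ, (∀ v, f v ∈ L v) ∧ (∀ a, f (Sum.inl a) ∉ R) ∧
      (∀ c, (Finset.univ.filter (fun v => f v = c)).card ≤ cap L k c) ∧
      ∀ c, k ≤ mult L c → ∃ v, f v = c := by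
  classical
  have hkpos : 0 < k := by omega
  set L' : Fin n ⊕ Fin m → Finset ℕ := fun v => match v with
    | Sum.inl a => L (Sum.inl a) \ R
    | Sum.inr b => L (Sum.inr b) with hL'
  have hsub : ∀ v, L' v ⊆ L v := by
    rintro (a | b)
    · exact Finset.sdiff_subset
    · exact Finset.Subset.refl _
  set U : Finset ℕ := Finset.univ.biUnion L with hU
  have hmultU : ∀ c, k ≤ mult L c → c ∈ U := by
    intro c hc
    have : 0 < mult L c := by omega
    obtain ⟨v, hv⟩ := Finset.card_pos.1 this
    exact Finset.mem_biUnion.2 ⟨v, Finset.mem_univ _, (Finset.mem_filter.1 hv).2⟩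
  have hmultle : ∀ c, mult L c ≤ k * cap L k c := by
    intro c
    have h1 : mult L c ≤ n + m := by
      have := Finset.card_le_univ (Finset.univ.filter (fun v => c ∈ L v))
      simpa [mult] using this
    unfold cap
    split_ifs <;> omega
  set w : Fin n ⊕ Fin m → ℕ := fun v => match v with
    | Sum.inl _ => R.card
    | Sum.inr _ => 0 with hw
  have hwsum : ∀ X : Finset (Fin n ⊕ Fin m), ∑ v ∈ X, w v ≤ n * R.card := by
    intro X
    calc ∑ v ∈ X, w v ≤ ∑ v, w v := Finset.sum_le_sum_of_subset (Finset.subset_univ X)
      _ = n * R.card := by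
        rw [Fintype.sum_sum_type]
        simp [hw]
  have hw1 : ∀ v, k ≤ (L' v).card + w v := by
    rintro (a | b)
    · have h1 := Finset.le_card_sdiff R (L (Sum.inl a))
      rw [hL] at h1
      change k ≤ (L (Sum.inl a) \ R).card + R.card
      omega
    · change k ≤ (L (Sum.inr b)).card + 0
      rw [hL]
      omega
  obtain ⟨f, hf1, hf2, hf3⟩ := hall_cap L' (cap L k) (U.filter (fun c => k ≤ mult L c))
    (fun c _ => cap_pos L k c) (by
      intro X
      have h1 : k * X.card ≤ ∑ v ∈ X, (L' v).card + n * R.card := by
        calc k * X.card = ∑ v ∈ X, k := by rw [Finset.sum_const, smul_eq_mul, mul_comm]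
          _ ≤ ∑ v ∈ X, ((L' v).card + w v) := Finset.sum_le_sum (fun v _ => hw1 v)
          _ = ∑ v ∈ X, (L' v).card + ∑ v ∈ X, w v := Finset.sum_add_distrib
          _ ≤ _ := Nat.add_le_add_left (hwsum X) _
      rw [dcount L' X (X.biUnion L') (fun v hv => Finset.subset_biUnion_of_mem L' hv)] at h1
      have h2 : ∑ c ∈ X.biUnion L', (X.filter (fun v => c ∈ L' v)).card ≤
          k * ∑ c ∈ X.biUnion L', cap L k c := by
        rw [Finset.mul_sum]
        apply Finset.sum_le_sum
        intro c _
        refine le_trans (Finset.card_le_card ?_) (hmultle c)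
        intro v hv
        exact Finset.mem_filter.2 ⟨Finset.mem_univ _, hsub v (Finset.mem_filter.1 hv).2⟩
      have h3 : k * X.card < k * (∑ c ∈ X.biUnion L', cap L k c + 1) := by
        rw [mul_add, mul_one]
        omega
      have := Nat.lt_of_mul_lt_mul_left h3
      omega)
    (by
      intro Y hY
      set N := Finset.univ.filter (fun v => ∃ c ∈ Y, c ∈ L' v) with hN
      have h1 : ∑ c ∈ Y, mult L c ≤
          ∑ c ∈ Y, ((N.filter (fun v => c ∈ L' v)).card + if c ∈ R then n else 0) := by
        apply Finset.sum_le_sum
        intro c hc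
        by_cases hcR : c ∈ R
        · rw [if_pos hcR]
          unfold mult
          have hsub2 : Finset.univ.filter (fun v => c ∈ L v) ⊆
              N.filter (fun v => c ∈ L' v) ∪ (Finset.univ : Finset (Fin n)).image Sum.inl := by
            rintro (a | b) hv
            · apply Finset.mem_union_right
              exact Finset.mem_image_of_mem _ (Finset.mem_univ a)
            · apply Finset.mem_union_left
              have hcb : c ∈ L' (Sum.inr b) := (Finset.mem_filter.1 hv).2
              exact Finset.mem_filter.2 ⟨Finset.mem_filter.2 ⟨Finset.mem_univ _, c, hc, hcb⟩, hcb⟩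
          refine (Finset.card_le_card hsub2).trans ((Finset.card_union_le _ _).trans ?_)
          have : ((Finset.univ : Finset (Fin n)).image (Sum.inl : Fin n → Fin n ⊕ Fin m)).card ≤
            n := Finset.card_image_le.trans (by simp)
          omega
        · rw [if_neg hcR, Nat.add_zero]
          unfold mult
          apply Finset.card_le_card
          rintro (a | b) hv
          · have hca : c ∈ L' (Sum.inl a) :=
              Finset.mem_sdiff.2 ⟨(Finset.mem_filter.1 hv).2, hcR⟩
            exact Finset.mem_filter.2 ⟨Finset.mem_filter.2 ⟨Finset.mem_univ _, c, hc, hca⟩, hca⟩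
          · have hcb : c ∈ L' (Sum.inr b) := (Finset.mem_filter.1 hv).2
            exact Finset.mem_filter.2 ⟨Finset.mem_filter.2 ⟨Finset.mem_univ _, c, hc, hcb⟩, hcb⟩
      rw [Finset.sum_add_distrib] at h1
      have h2 : ∑ c ∈ Y, (if c ∈ R then n else 0) ≤ n * R.card := by
        rw [← Finset.sum_filter, Finset.sum_const, smul_eq_mul, mul_comm]
        apply Nat.mul_le_mul_left
        apply Finset.card_le_card
        intro c hc
        exact (Finset.mem_filter.1 hc).2
      have h3 := dcount_le L' N Y
      have h4 : ∑ v ∈ N, (L' v).card ≤ N.card * k := by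
        rw [← smul_eq_mul]
        apply Finset.sum_le_card_nsmul
        intro v _
        rw [← hL v]
        exact Finset.card_le_card (hsub v)
      have h5 : Y.card * k ≤ ∑ c ∈ Y, mult L c := by
        rw [← smul_eq_mul]
        apply Finset.card_nsmul_le_sum
        intro c hc
        exact (Finset.mem_filter.1 (hY hc)).2
      have h6 : Y.card * k < (N.card + 1) * k := by
        rw [add_mul, one_mul]
        omega
      have := Nat.lt_of_mul_lt_mul_right h6
      omega)
  refine ⟨f, fun v => hsub v (hf1 v), ?_, hf2, ?_⟩
  · intro a
    have h1 : f (Sum.inl a) ∈ L (Sum.inl a) \ R := hf1 (Sum.inl a)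
    exact (Finset.mem_sdiff.1 h1).2
  · intro c hc
    exact hf3 c (Finset.mem_filter.2 ⟨hmultU c hc, hc⟩)

/-- **Main lemma.** -/
theorem main_lemma (k : ℕ) (hn : 1 ≤ n) (h1 : 4 * n ^ 2 + m ≤ 2 * k) (h2 : 2 * n ^ 2 ≤ k)
    (L : Fin n ⊕ Fin m → Finset ℕ) (hL : ∀ v, (L v).card = k) :
    ∃ f : Fin n ⊕ Fin m → ℕ, (∀ v, f v ∈ L v) ∧ (∀ a b, f (Sum.inl a) ≠ f (Sum.inr b)) ∧
      (∀ c, (Finset.univ.filter (fun v => f v = c)).card ≤ cap L k c) ∧
      ∀ c, k ≤ mult L c → ∃ v, f v = c := by
  classical
  have hnn : n ≤ n ^ 2 := by nlinarith
  have hkpos : 0 < k := by nlinarith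
  have hnm : n + m ≤ 2 * k := by nlinarith
  set U : Finset ℕ := Finset.univ.biUnion L with hU
  set H : Finset ℕ := U.filter (fun c => k < mult L c) with hH
  have hmultU : ∀ c, k ≤ mult L c → c ∈ U := by
    intro c hc
    have : 0 < mult L c := by omega
    obtain ⟨v, hv⟩ := Finset.card_pos.1 this
    exact Finset.mem_biUnion.2 ⟨v, Finset.mem_univ _, (Finset.mem_filter.1 hv).2⟩
  by_cases hcase : n * H.card < k
  · -- few heavy colours
    obtain ⟨f, hf1, hf2, hf3, hf4⟩ := relaxed k L hL hnm H hcase
    refine ⟨f, hf1, ?_, hf3, hf4⟩
    intro a b hab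
    have h3 := hf3 (f (Sum.inl a))
    have h4 : 2 ≤ (Finset.univ.filter (fun v => f v = f (Sum.inl a))).card := by
      have hsub : ({Sum.inl a, Sum.inr b} : Finset (Fin n ⊕ Fin m)) ⊆
          Finset.univ.filter (fun v => f v = f (Sum.inl a)) := by
        intro v hv
        rw [Finset.mem_insert, Finset.mem_singleton] at hv
        rcases hv with rfl | rfl
        · simp
        · simp [hab]
      have := Finset.card_le_card hsub
      rw [Finset.card_pair (by simp)] at this
      exact this
    have h5 : k < mult L (f (Sum.inl a)) := by
      by_contra h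
      unfold cap at h3
      rw [if_neg h] at h3
      omega
    exact hf2 a (Finset.mem_filter.2 ⟨hmultU _ h5.le, h5⟩)
  · push Not at hcase
    obtain ⟨f0, hf1, -, hf3, hf4⟩ := relaxed k L hL hnm ∅ (by simpa using hkpos)
    set CA : Finset ℕ := (Finset.univ : Finset (Fin n)).image (fun a => f0 (Sum.inl a)) with hCA
    have hCAc : CA.card ≤ n := Finset.card_image_le.trans (by simp)
    set L' : Fin m → Finset ℕ := fun b => L (Sum.inr b) \ CA with hL'
    have hL'c : ∀ b, k ≤ (L' b).card + n := by
      intro b
      have h3 := Finset.le_card_sdiff CA (L (Sum.inr b))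
      rw [hL] at h3
      change k ≤ (L (Sum.inr b) \ CA).card + n
      omega
    obtain ⟨g, hg1, hg2, hg3⟩ := hall_cap L' (cap L k) ((U.filter (fun c => k ≤ mult L c)) \ CA)
      (fun c _ => cap_pos L k c) (by
        intro X
        rcases X.eq_empty_or_nonempty with rfl | ⟨b0, hb0⟩
        · simp
        by_cases hX : X.card + n ≤ k
        · have h3 : (L' b0).card ≤ (X.biUnion L').card :=
            Finset.card_le_card (Finset.subset_biUnion_of_mem L' hb0)
          have h4 : (X.biUnion L').card ≤ ∑ c ∈ X.biUnion L', cap L k c := by
            rw [Finset.card_eq_sum_ones]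
            exact Finset.sum_le_sum (fun c _ => cap_pos L k c)
          have := hL'c b0
          omega
        · push Not at hX
          have hXm : X.card ≤ m := by
            have := Finset.card_le_univ X
            simpa using this
          -- all heavy colours are seen
          have hHW : H \ CA ⊆ X.biUnion L' := by
            intro c hc
            obtain ⟨hcH, hcCA⟩ := Finset.mem_sdiff.1 hc
            have hck := (Finset.mem_filter.1 hcH).2
            by_contra hcon
            have hsub : Finset.univ.filter (fun v => c ∈ L v) ⊆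
                (Finset.univ : Finset (Fin n)).image Sum.inl ∪ (Xᶜ).image Sum.inr := by
              rintro (a | b) hv
              · apply Finset.mem_union_left
                exact Finset.mem_image_of_mem _ (Finset.mem_univ a)
              · apply Finset.mem_union_right
                apply Finset.mem_image_of_mem
                rw [Finset.mem_compl]
                intro hb
                exact hcon (Finset.mem_biUnion.2 ⟨b, hb,
                  Finset.mem_sdiff.2 ⟨(Finset.mem_filter.1 hv).2, hcCA⟩⟩)
            have h3 := (Finset.card_le_card hsub).trans (Finset.card_union_le _ _)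
            have h4 : ((Finset.univ : Finset (Fin n)).image
              (Sum.inl : Fin n → Fin n ⊕ Fin m)).card ≤ n :=
              Finset.card_image_le.trans (by simp)
            have h5 : ((Xᶜ).image (Sum.inr : Fin m → Fin n ⊕ Fin m)).card ≤ m - X.card :=
              Finset.card_image_le.trans (by rw [Finset.card_compl, Fintype.card_fin])
            unfold mult at hck
            omega
          have hHc : H.card ≤ ((X.biUnion L') ∩ H).card + n := by
            have h3 : H \ CA ⊆ (X.biUnion L') ∩ H := fun c hc =>
              Finset.mem_inter.2 ⟨hHW hc, (Finset.mem_sdiff.1 hc).1⟩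
            have h4 := Finset.card_le_card h3
            have h5 := Finset.le_card_sdiff CA H
            omega
          -- counting
          have h3 : k * X.card ≤ ∑ b ∈ X, (L' b).card + n * m := by
            calc k * X.card = ∑ b ∈ X, k := by rw [Finset.sum_const, smul_eq_mul, mul_comm]
              _ ≤ ∑ b ∈ X, ((L' b).card + n) := Finset.sum_le_sum (fun b _ => hL'c b)
              _ = ∑ b ∈ X, (L' b).card + X.card * n := by
                  rw [Finset.sum_add_distrib, Finset.sum_const, smul_eq_mul]
              _ ≤ _ := by
                  apply Nat.add_le_add_left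
                  rw [mul_comm n m]
                  exact Nat.mul_le_mul_right _ hXm
          rw [dcount L' X (X.biUnion L') (fun v hv => Finset.subset_biUnion_of_mem L' hv)] at h3
          have h4 : ∑ c ∈ X.biUnion L', ((X.filter (fun b => c ∈ L' b)).card +
              (if c ∈ H then 2 * k - m else 0)) ≤ ∑ c ∈ X.biUnion L', k * cap L k c := by
            apply Finset.sum_le_sum
            intro c hc
            by_cases hcH : c ∈ H
            · rw [if_pos hcH]
              have h5 : (X.filter (fun b => c ∈ L' b)).card ≤ m :=
                (Finset.card_le_card (Finset.filter_subset _ _)).trans hXm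
              have h6 : cap L k c = 2 := by
                unfold cap
                rw [if_pos (Finset.mem_filter.1 hcH).2]
              rw [h6]
              omega
            · rw [if_neg hcH, Nat.add_zero]
              have hck : ¬ (k < mult L c) := fun h =>
                hcH (Finset.mem_filter.2 ⟨hmultU c h.le, h⟩)
              have h6 : cap L k c = 1 := by
                unfold cap
                rw [if_neg hck]
              rw [h6, mul_one]
              have h7 : (X.filter (fun b => c ∈ L' b)).card ≤ mult L c := by
                unfold mult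
                apply Finset.card_le_card_of_injOn (fun b => Sum.inr b)
                · intro b hb
                  exact Finset.mem_filter.2 ⟨Finset.mem_univ _,
                    (Finset.mem_sdiff.1 (Finset.mem_filter.1 hb).2).1⟩
                · intro b _ b' _ h
                  exact Sum.inr_injective h
              omega
          rw [Finset.sum_add_distrib, ← Finset.sum_filter, Finset.sum_const, smul_eq_mul,
            Finset.filter_mem_eq_inter, ← Finset.mul_sum] at h4
          set h := H.card
          set h' := ((X.biUnion L') ∩ H).card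
          set S := ∑ c ∈ X.biUnion L', cap L k c
          -- the numerical inequality
          have h5 : n * m ≤ h' * (2 * k - m) := by
            obtain ⟨r, hr⟩ : ∃ r, 2 * k = m + r := ⟨2 * k - m, by omega⟩
            have e : 2 * k - m = r := by omega
            rw [e]
            have hr4 : 4 * n ^ 2 ≤ r := by omega
            have hh : k ≤ n * h' + n ^ 2 := by
              calc k ≤ n * h := hcase
                _ ≤ n * (h' + n) := Nat.mul_le_mul_left _ hHc
                _ = _ := by ring
            have h6 : n * (n * m) ≤ n * (h' * r) := by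
              have h7 : n ^ 2 ≤ n * h' := by omega
              have h8 : k ≤ 2 * (n * h') := by omega
              calc n * (n * m) = n ^ 2 * m := by ring
                _ ≤ n ^ 2 * (2 * k) := Nat.mul_le_mul_left _ (by omega)
                _ ≤ n ^ 2 * (2 * (2 * (n * h'))) := by
                    apply Nat.mul_le_mul_left
                    omega
                _ = (n * h') * (4 * n ^ 2) := by ring
                _ ≤ (n * h') * r := Nat.mul_le_mul_left _ hr4
                _ = _ := by ring
            exact Nat.le_of_mul_le_mul_left h6 (by omega)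
          have h6 : k * X.card ≤ k * S := by omega
          exact Nat.le_of_mul_le_mul_left h6 hkpos)
      (by
        intro Y hY
        have hsub : Y ⊆ (Finset.univ.filter (fun b => ∃ c ∈ Y, c ∈ L' b)).image
            (fun b => f0 (Sum.inr b)) := by
          intro c hc
          obtain ⟨hc1, hc2⟩ := Finset.mem_sdiff.1 (hY hc)
          obtain ⟨v, hv⟩ := hf4 c (Finset.mem_filter.1 hc1).2
          rcases v with a | b
          · exact absurd (Finset.mem_image.2 ⟨a, Finset.mem_univ _, hv⟩) hc2
          · refine Finset.mem_image.2 ⟨b, Finset.mem_filter.2 ⟨Finset.mem_univ _, c, hc, ?_⟩, hv⟩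
            refine Finset.mem_sdiff.2 ⟨?_, hc2⟩
            rw [← hv]
            exact hf1 (Sum.inr b)
        exact (Finset.card_le_card hsub).trans Finset.card_image_le)
    have hgCA : ∀ b, g b ∉ CA := fun b => (Finset.mem_sdiff.1 (hg1 b)).2
    have hfCA : ∀ a, f0 (Sum.inl a) ∈ CA := fun a => Finset.mem_image_of_mem _ (Finset.mem_univ a)
    refine ⟨fun v => match v with
      | Sum.inl a => f0 (Sum.inl a)
      | Sum.inr b => g b, ?_, ?_, ?_, ?_⟩
    · rintro (a | b)
      · exact hf1 (Sum.inl a)
      · exact (Finset.mem_sdiff.1 (hg1 b)).1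
    · intro a b h
      have h' : f0 (Sum.inl a) = g b := h
      exact hgCA b (h' ▸ hfCA a)
    · intro c
      by_cases hc : c ∈ CA
      · refine le_trans (Finset.card_le_card ?_) (hf3 c)
        rintro (a | b) hv
        · exact Finset.mem_filter.2 ⟨Finset.mem_univ _, (Finset.mem_filter.1 hv).2⟩
        · exfalso
          have h3 : g b = c := (Finset.mem_filter.1 hv).2
          exact hgCA b (h3 ▸ hc)
      · refine le_trans ?_ (hg2 c)
        have hsub : (Finset.univ.filter (fun v : Fin n ⊕ Fin m => (match v with
            | Sum.inl a => f0 (Sum.inl a)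
            | Sum.inr b => g b) = c)) ⊆ (Finset.univ.filter (fun b => g b = c)).image Sum.inr := by
          rintro (a | b) hv
          · exfalso
            have h3 : f0 (Sum.inl a) = c := (Finset.mem_filter.1 hv).2
            exact hc (h3 ▸ hfCA a)
          · have h3 : g b = c := (Finset.mem_filter.1 hv).2
            exact Finset.mem_image.2 ⟨b, Finset.mem_filter.2 ⟨Finset.mem_univ _, h3⟩, rfl⟩
        exact (Finset.card_le_card hsub).trans Finset.card_image_le
    · intro c hc
      by_cases hcCA : c ∈ CA
      · obtain ⟨a, _, ha⟩ := Finset.mem_image.1 hcCA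
        exact ⟨Sum.inl a, ha⟩
      · obtain ⟨b, hb⟩ := hg3 c (Finset.mem_sdiff.2 ⟨Finset.mem_filter.2 ⟨hmultU c hc, hc⟩, hcCA⟩)
        exact ⟨Sum.inr b, hb⟩

end Q128.Prop
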